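import Pool.Agent.Work.MP_56b8f5_nt.HZ.StmtsB

/-!
MP_56b8f5_nt, block HZ, part B, item B7 (Loc): one prime.
-/

set_option autoImplicit false

open MeasureTheory Set Filter Topology

noncomputable section

namespace Pool.Agent.Work.MP_56b8f5_nt.HZB

open Pool.Agent.Work.MP_56b8f5_nt.SH

namespace AuxLoc

open Polynomial

/-- the polynomial `∑_{m ≤ l} k^m (a X + b X²)^m/m!` -/
def Plq (l : ℕ) (k a b : ℝ) : ℝ[X] :=
  ∑ m ∈ Finset.range (l + 1), C (k ^ m / (m.factorial : ℝ)) * (C a * X + C b * X ^ 2) ^ m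

/-- nonnegative coefficients -/
def NN (P : ℝ[X]) : Prop := ∀ e, 0 ≤ P.coeff e

theorem NN.add {P Q : ℝ[X]} (hP : NN P) (hQ : NN Q) : NN (P + Q) := by
  intro e
  rw [coeff_add]
  exact add_nonneg (hP e) (hQ e)

theorem NN.mul {P Q : ℝ[X]} (hP : NN P) (hQ : NN Q) : NN (P * Q) := by
  intro e
  rw [coeff_mul]
  exact Finset.sum_nonneg fun x _ => mul_nonneg (hP _) (hQ _)

theorem NN.C {r : ℝ} (hr : 0 ≤ r) : NN (C r) := by
  intro e
  rw [coeff_C]
  split_ifs
  · exact hr
  · exact le_refl _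

theorem NN.X : NN (X : ℝ[X]) := by
  intro e
  rw [coeff_X]
  split_ifs
  · exact zero_le_one
  · exact le_refl _

theorem NN.pow {P : ℝ[X]} (hP : NN P) (m : ℕ) : NN (P ^ m) := by
  induction m with
  | zero =>
    rw [pow_zero]
    have := NN.C (r := 1) zero_le_one
    rwa [C_1] at this
  | succ m ih =>
    rw [pow_succ]
    exact ih.mul hP

theorem NN.sum {ι : Type} (s : Finset ι) (f : ι → ℝ[X]) (h : ∀ i ∈ s, NN (f i)) :
    NN (∑ i ∈ s, f i) := by
  intro e
  rw [finsetSum_coeff]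
  exact Finset.sum_nonneg fun i hi => h i hi e

variable {l : ℕ} {k a b : ℝ}

theorem Plq_nn (hk : 0 ≤ k) (ha : 0 ≤ a) (hb : 0 ≤ b) : NN (Plq l k a b) := by
  apply NN.sum
  intro m _
  exact (NN.C (by positivity)).mul
    (((NN.C ha).mul NN.X).add ((NN.C hb).mul (NN.X.pow 2)) |>.pow m)

theorem Plq_zero : (Plq l k a b).coeff 0 = 1 := by
  rw [coeff_zero_eq_eval_zero]
  unfold Plq
  rw [eval_finsetSum, Finset.sum_eq_single 0]
  · simp
  · intro m _ hm
    simp [hm]
  · intro h
    simp at h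

theorem Plq_one (hk : 0 ≤ k) (ha1 : a ≤ 1) : (Plq l k a b).coeff 1 ≤ k := by
  unfold Plq
  rw [finsetSum_coeff]
  have h1 : ∀ m ∈ Finset.range (l + 1),
      (C (k ^ m / (m.factorial : ℝ)) * (C a * X + C b * X ^ 2) ^ m : ℝ[X]).coeff 1 =
        if m = 1 then k * a else 0 := by
    intro m _
    have e : (C a * X + C b * X ^ 2 : ℝ[X]) ^ m = X ^ m * (C a + C b * X) ^ m := by
      rw [← mul_pow]
      congr 1
      ring
    rw [coeff_C_mul, e, coeff_X_pow_mul']
    rcases m with _ | m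
    · simp [coeff_one]
    · rcases m with _ | m
      · simp
      · rw [if_neg (by omega), if_neg (by omega), mul_zero]
  rw [Finset.sum_congr rfl h1, Finset.sum_ite_eq']
  split_ifs
  · nlinarith
  · exact hk

theorem Plq_eval (hk : 0 ≤ k) (ha : 0 ≤ a) (ha1 : a ≤ 1) (hb : 0 ≤ b) (hb1 : b ≤ 1 / 2) :
    (Plq l k a b).eval 1 ≤ Real.exp (3 * k / 2) := by
  unfold Plq
  rw [eval_finsetSum]
  have h1 : ∀ m ∈ Finset.range (l + 1),
      eval 1 (C (k ^ m / (m.factorial : ℝ)) * (C a * X + C b * X ^ 2) ^ m : ℝ[X]) =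
        (k * (a + b)) ^ m / (m.factorial : ℝ) := by
    intro m _
    rw [eval_mul, eval_C, eval_pow, eval_add, eval_mul, eval_mul, eval_C, eval_C, eval_pow,
      eval_X, one_pow, mul_one, mul_one, mul_pow]
    ring
  rw [Finset.sum_congr rfl h1]
  refine (Real.sum_le_exp_of_nonneg (by positivity) _).trans (Real.exp_le_exp.mpr ?_)
  nlinarith

/-- the image of the polynomial -/
theorem tx_eq (q l : ℕ) (k a b : ℝ) :
    tx l k (MonoidAlgebra.single q (a : ℂ) + MonoidAlgebra.single (q ^ 2) (b : ℂ)) =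
      ∑ i ∈ Finset.range ((Plq l k a b).natDegree + 1),
        MonoidAlgebra.single (q ^ i) (((Plq l k a b).coeff i : ℝ) : ℂ) := by
  set z : DA := MonoidAlgebra.single q (1 : ℂ) with hz
  have hsm : ∀ (r : ℂ) (m : ℕ), r • z ^ m = MonoidAlgebra.single (q ^ m) r := by
    intro r m
    rw [hz, MonoidAlgebra.single_pow, one_pow, MonoidAlgebra.smul_single, smul_eq_mul, mul_one]
  have h1 : aeval z ((Plq l k a b).map Complex.ofRealHom) =
      tx l k (MonoidAlgebra.single q (a : ℂ) + MonoidAlgebra.single (q ^ 2) (b : ℂ)) := by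
    unfold Plq tx
    rw [Polynomial.map_sum, map_sum]
    apply Finset.sum_congr rfl
    intro m _
    rw [Polynomial.map_mul, Polynomial.map_C, map_mul, aeval_C, ← Algebra.smul_def,
      Polynomial.map_pow, map_pow]
    congr 2
    rw [Polynomial.map_add, Polynomial.map_mul, Polynomial.map_mul, Polynomial.map_C,
      Polynomial.map_C, Polynomial.map_pow, Polynomial.map_X, map_add, map_mul, map_mul, map_pow,
      aeval_C, aeval_C, aeval_X, ← Algebra.smul_def, ← Algebra.smul_def, hsm]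
    have h2 := hsm (Complex.ofRealHom a) 1
    rw [pow_one, pow_one] at h2
    rw [h2]
    rfl
  rw [← h1, aeval_eq_sum_range' (n := (Plq l k a b).natDegree + 1)
    (lt_of_le_of_lt natDegree_map_le (Nat.lt_succ_self _))]
  apply Finset.sum_congr rfl
  intro i _
  rw [coeff_map, hsm]
  rfl

/-- the diagonal norm of a polynomial in one prime -/
theorem N2_eq (q : ℕ) (hq : 1 < q) (D : ℕ) (c : ℕ → ℝ) :
    N2 (∑ i ∈ Finset.range D, MonoidAlgebra.single (q ^ i) ((c i : ℝ) : ℂ)) =
      ∑ i ∈ Finset.range D, c i ^ 2 / (q : ℝ) ^ i := by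
  classical
  have hinj : Set.InjOn (fun i : ℕ => q ^ i) (Finset.range D : Set ℕ) := by
    intro i _ j _ h
    exact Nat.pow_right_injective hq h
  set f : ℕ →₀ ℂ := (∑ i ∈ Finset.range D,
    (MonoidAlgebra.single (q ^ i) ((c i : ℝ) : ℂ) : DA)).coeff with hf
  have hfa : ∀ n, f n = ∑ i ∈ Finset.range D, if q ^ i = n then ((c i : ℝ) : ℂ) else 0 := by
    intro n
    rw [hf, MonoidAlgebra.coeff_sum, Finsupp.finsetSum_apply]
    apply Finset.sum_congr rfl
    intro i _
    rw [MonoidAlgebra.coeff_single, Finsupp.single_apply]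
  have hfq : ∀ i ∈ Finset.range D, f (q ^ i) = ((c i : ℝ) : ℂ) := by
    intro i hi
    rw [hfa, Finset.sum_eq_single i]
    · rw [if_pos rfl]
    · intro j hj hji
      rw [if_neg]
      intro h
      exact hji (hinj (Finset.mem_coe.mpr hj) (Finset.mem_coe.mpr hi) h)
    · intro h
      exact absurd hi h
  have hsub : f.support ⊆ (Finset.range D).image (fun i : ℕ => q ^ i) := by
    intro n hn
    rw [Finsupp.mem_support_iff, hfa] at hn
    obtain ⟨i, hi, hne⟩ := Finset.exists_ne_zero_of_sum_ne_zero hn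
    rw [Finset.mem_image]
    refine ⟨i, hi, ?_⟩
    by_contra h
    exact hne (if_neg h)
  unfold N2
  rw [← hf, Finsupp.sum_of_support_subset f hsub _ (by intro i _; simp), Finset.sum_image hinj]
  apply Finset.sum_congr rfl
  intro i hi
  rw [hfq i hi, Complex.norm_real, Real.norm_eq_abs, sq_abs]
  push_cast
  rfl

end AuxLoc

open AuxLoc in
theorem pf_Loc : S_Loc := by
  intro q l k a b hq hk ha ha1 hb hb1
  rw [tx_eq, N2_eq q hq.one_lt]
  set P := Plq l k a b with hP
  have hnn := Plq_nn (l := l) hk ha hb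
  have h0 := Plq_zero (l := l) (k := k) (a := a) (b := b)
  have h1 := Plq_one (l := l) (b := b) hk ha1
  have hev := Plq_eval (l := l) hk ha ha1 hb hb1
  rw [← hP] at hnn h0 h1 hev
  set S : ℝ := P.eval 1 with hS
  have hSsum : S = ∑ i ∈ Finset.range (P.natDegree + 1), P.coeff i := by
    rw [hS, Polynomial.eval_eq_sum_range]
    simp
  have hS0 : 0 ≤ S := by
    rw [hSsum]
    exact Finset.sum_nonneg fun i _ => hnn i
  have hq1 : (1 : ℝ) ≤ q := by exact_mod_cast hq.one_lt.le
  have hq0 : (0 : ℝ) < q := by linarith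
  have hterm : ∀ i ∈ Finset.range (P.natDegree + 1), P.coeff i ^ 2 / (q : ℝ) ^ i ≤
      (if i = 0 then 1 else 0) + (if i = 1 then k ^ 2 / (q : ℝ) else 0) +
        P.coeff i * (S / (q : ℝ) ^ 2) := by
    intro i hi
    have hci := hnn i
    have hcS : P.coeff i ≤ S := by
      rw [hSsum]
      exact Finset.single_le_sum (fun j _ => hnn j) hi
    have hnn3 : 0 ≤ P.coeff i * (S / (q : ℝ) ^ 2) := by positivity
    rcases i with _ | i
    · rw [h0] at hnn3 ⊢
      simp only [if_true, pow_zero, one_pow, div_one]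
      rw [if_neg (by omega)]
      linarith
    · rcases i with _ | i
      · rw [if_neg (by omega), if_pos rfl, zero_add, pow_one, zero_add]
        have : P.coeff 1 ^ 2 / (q : ℝ) ≤ k ^ 2 / (q : ℝ) := by
          apply div_le_div_of_nonneg_right _ hq0.le
          exact pow_le_pow_left₀ (hnn 1) h1 2
        rw [zero_add] at hnn3
        linarith
      · rw [if_neg (by omega), if_neg (by omega), zero_add, zero_add]
        have e1 : (q : ℝ) ^ 2 ≤ (q : ℝ) ^ (i + 1 + 1) :=
          pow_le_pow_right₀ hq1 (by omega)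
        calc P.coeff (i + 1 + 1) ^ 2 / (q : ℝ) ^ (i + 1 + 1)
            ≤ P.coeff (i + 1 + 1) ^ 2 / (q : ℝ) ^ 2 :=
              div_le_div_of_nonneg_left (by positivity) (by positivity) e1
          _ = P.coeff (i + 1 + 1) * (P.coeff (i + 1 + 1) / (q : ℝ) ^ 2) := by ring
          _ ≤ P.coeff (i + 1 + 1) * (S / (q : ℝ) ^ 2) := by
              apply mul_le_mul_of_nonneg_left _ hci
              exact div_le_div_of_nonneg_right hcS (by positivity)
  have hS2 : S ^ 2 ≤ Real.exp (3 * k) := by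
    calc S ^ 2 ≤ Real.exp (3 * k / 2) ^ 2 := pow_le_pow_left₀ hS0 hev 2
      _ = Real.exp (3 * k) := by
          rw [← Real.exp_nat_mul]
          congr 1
          push_cast
          ring
  calc ∑ i ∈ Finset.range (P.natDegree + 1), P.coeff i ^ 2 / (q : ℝ) ^ i
      ≤ ∑ i ∈ Finset.range (P.natDegree + 1), ((if i = 0 then 1 else 0) +
          (if i = 1 then k ^ 2 / (q : ℝ) else 0) + P.coeff i * (S / (q : ℝ) ^ 2)) :=
        Finset.sum_le_sum hterm
    _ = (∑ i ∈ Finset.range (P.natDegree + 1), if i = 0 then (1 : ℝ) else 0) +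
          (∑ i ∈ Finset.range (P.natDegree + 1), if i = 1 then k ^ 2 / (q : ℝ) else 0) +
          S * (S / (q : ℝ) ^ 2) := by
        rw [Finset.sum_add_distrib, Finset.sum_add_distrib, ← Finset.sum_mul, ← hSsum]
    _ ≤ 1 + k ^ 2 / (q : ℝ) + Real.exp (3 * k) / (q : ℝ) ^ 2 := by
        have e1 : (∑ i ∈ Finset.range (P.natDegree + 1), if i = 0 then (1 : ℝ) else 0) ≤ 1 := by
          rw [Finset.sum_ite_eq']
          split_ifs <;> norm_num
        have e2 : (∑ i ∈ Finset.range (P.natDegree + 1), if i = 1 then k ^ 2 / (q : ℝ) else 0) ≤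
            k ^ 2 / (q : ℝ) := by
          rw [Finset.sum_ite_eq']
          split_ifs
          · exact le_refl _
          · positivity
        have e3 : S * (S / (q : ℝ) ^ 2) ≤ Real.exp (3 * k) / (q : ℝ) ^ 2 := by
          have : S * (S / (q : ℝ) ^ 2) = S ^ 2 / (q : ℝ) ^ 2 := by ring
          rw [this]
          exact div_le_div_of_nonneg_right hS2 (by positivity)
        linarith
    _ = (k ^ 2 / (q : ℝ) + Real.exp (3 * k) / (q : ℝ) ^ 2) + 1 := by ring
    _ ≤ Real.exp (k ^ 2 / q + Real.exp (3 * k) / (q : ℝ) ^ 2) := Real.add_one_le_exp _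

end Pool.Agent.Work.MP_56b8f5_nt.HZB
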