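import Pool.Agent.Work.MP_56b8f5_nt.HZ.StmtsB

/-!
MP_56b8f5_nt, block HZ, part B, item B22 (HarT): Harper's bound on a set.
-/

set_option autoImplicit false

open MeasureTheory Set Filter Topology

noncomputable section

namespace Pool.Agent.Work.MP_56b8f5_nt.HZB

open Pool.Agent.Work.MP_56b8f5_nt.SH

namespace AuxHarT

lemma continuous_chi (n : ℕ) : Continuous fun t : ℝ => chi t n := by
  show Continuous fun t : ℝ => (n : ℂ) ^ (-(1 / 2 + t * Complex.I))
  rcases Nat.eq_zero_or_pos n with rfl | hn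
  · have h1 : (fun t : ℝ => ((0 : ℕ) : ℂ) ^ (-(1 / 2 + t * Complex.I))) = fun _ => 0 := by
      funext t
      rw [Nat.cast_zero, Complex.zero_cpow]
      intro h
      have h2 := congrArg Complex.re h
      simp at h2
    rw [h1]
    exact continuous_const
  · have hn' : (n : ℂ) ≠ 0 := by exact_mod_cast hn.ne'
    exact Continuous.const_cpow (by fun_prop) (Or.inl hn')

lemma continuous_ev (α : DA) : Continuous fun t : ℝ => ev t α := by
  have h1 : (fun t : ℝ => ev t α) = fun t => α.coeff.sum fun n x => x * chi t n := by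
    funext t
    unfold ev
    rw [MonoidAlgebra.lift_apply]
    simp [smul_eq_mul]
  rw [h1]
  unfold Finsupp.sum
  exact continuous_finset_sum _ fun n _ => continuous_const.mul (continuous_chi n)

lemma continuous_Gt (v : ℝ → ℕ → ℝ) (k K C₀ T : ℝ) (j : ℕ) :
    Continuous fun t : ℝ => Gt v k K C₀ T j t := by
  unfold Gt
  refine continuous_const.mul (continuous_finset_prod _ fun i _ => ?_)
  exact continuous_const.mul ((continuous_ev _).norm.pow 2)

lemma Gt_nonneg (v : ℝ → ℕ → ℝ) (k K C₀ T : ℝ) (j : ℕ) (t : ℝ) : 0 ≤ Gt v k K C₀ T j t := by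
  unfold Gt
  positivity

lemma continuous_zeta : Continuous fun t : ℝ => riemannZeta (1 / 2 + t * Complex.I) := by
  rw [continuous_iff_continuousAt]
  intro t
  have h1 : (1 / 2 + (t : ℂ) * Complex.I) ≠ 1 := by
    intro h
    have h2 := congrArg Complex.re h
    norm_num at h2
  have h2 : ContinuousAt riemannZeta (1 / 2 + (t : ℂ) * Complex.I) :=
    (differentiableAt_riemannZeta h1).continuousAt
  exact ContinuousAt.comp (g := riemannZeta) (f := fun t : ℝ => (1 / 2 + (t : ℂ) * Complex.I)) h2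
    (by fun_prop)

/-- the integral of one majorant -/
lemma intG (hInt : S_IntD) (hSp : S_SpS) (hNmP : S_NmP) {C₁ : ℝ}
    (hM1 : ∀ T : ℝ, Big T → (∀ j : ℕ, ∑ i ∈ Finset.range (j + 1), se (Sp T i) ≤
      Real.log (yv T j) + C₁) ∧ (∀ i : ℕ, 1 ≤ i → se (Sp T i) ≤ C₁) ∧
      (∀ j : ℕ, ∑ i ∈ Finset.range (j + 1), s2 (Sp T i) ≤ 1))
    (hLevB : S_LevB) {v : ℝ → ℕ → ℝ} (hCf : ∀ (T : ℝ) (l : ℕ), Cf (av v T l) (bv v T l))
    {k K C₀ T b : ℝ} {M : ℕ} (hk : 0 < k) (hLev : Lev T b M) (hb : b ≤ 1) (j n l : ℕ) (hj : j < M)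
    (hlen : (∑ i ∈ Finset.range (j + 1), 2 * (lv k T i : ℝ) * yv T i) +
      2 * (n : ℝ) * yv T (j + 1) ≤ Real.log T / 2) :
    ∫ t in T..(2 * T), Gt v k K C₀ T j t * ‖ev t (Pv v T (j + 1) l)‖ ^ (2 * n) ≤
      Real.exp (2 * k * (C₀ + K / be T j)) * (Real.exp 4 * (3 * T *
        Real.exp (k ^ 2 * (Real.log (Real.log T) + C₁) + Real.exp (3 * k)))) *
        (2 * 4 ^ n * (n.factorial * se (Sp T (j + 1)) ^ n)) := by
  have hBig := hLev.big
  have hT : 1 ≤ T := hBig.1
  obtain ⟨hs1, hs2, -⟩ := hSp T hBig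
  obtain ⟨hm1, -, hm3⟩ := hM1 T hBig
  obtain ⟨hlog, hall, hlt⟩ := hLevB T b M hLev hb
  have h1 := hInt k T (j + 1) n (Sp T) (lv k T) (av v T j) (bv v T j) (av v T l) (bv v T l) (yv T)
    hk.le hT (fun i _ => ⟨(hall i).2.1.le, hs1 i⟩) (fun i _ i' _ hii => hs2 i i' hii) (hCf T j)
    (hCf T l) hlen
  have h2 : ∀ t, Gt v k K C₀ T j t * ‖ev t (Pv v T (j + 1) l)‖ ^ (2 * n) =
      (Real.exp (2 * k * (C₀ + K / be T j)) *
        ∏ i ∈ Finset.range (j + 1), (1 + 2 * Real.exp (-(lv k T i : ℝ))) ^ 2) *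
      ((∏ i ∈ Finset.range (j + 1), ‖ev t (tx (lv k T i) k (pw (av v T j) (bv v T j) (Sp T i)))‖ ^ 2) *
        ‖ev t (pw (av v T l) (bv v T l) (Sp T (j + 1)))‖ ^ (2 * n)) := by
    intro t
    unfold Gt Pv
    rw [Finset.prod_mul_distrib]
    ring
  simp_rw [h2]
  rw [intervalIntegral.integral_const_mul]
  have h3 := hNmP k T b M hk.le hLev hb j hj
  have h4 : Real.exp (k ^ 2 * ∑ i ∈ Finset.range (j + 1), se (Sp T i) +
      Real.exp (3 * k) * ∑ i ∈ Finset.range (j + 1), s2 (Sp T i)) ≤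
      Real.exp (k ^ 2 * (Real.log (Real.log T) + C₁) + Real.exp (3 * k)) := by
    refine Real.exp_le_exp.2 (add_le_add ?_ ?_)
    · refine mul_le_mul_of_nonneg_left ((hm1 j).trans ?_) (by positivity)
      have h5 := Real.log_le_log (hall j).2.1 (hlt j hj).2.2.2.1
      linarith
    · have := hm3 j
      have h6 := Real.exp_pos (3 * k)
      nlinarith
  have hse : 0 ≤ se (Sp T (j + 1)) := by
    unfold se
    exact Finset.sum_nonneg fun p _ => by positivity
  have h5 : 0 ≤ (2 * 4 ^ n * (n.factorial * se (Sp T (j + 1)) ^ n) : ℝ) := by positivity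
  have h6 := h1.trans (mul_le_mul_of_nonneg_right (mul_le_mul_of_nonneg_left h4
    (by linarith : (0 : ℝ) ≤ 3 * T)) h5)
  have h7 : 0 ≤ Real.exp (2 * k * (C₀ + K / be T j)) *
        ∏ i ∈ Finset.range (j + 1), (1 + 2 * Real.exp (-(lv k T i : ℝ))) ^ 2 := by positivity
  refine (mul_le_mul_of_nonneg_left h6 h7).trans ?_
  have h8 : 0 ≤ 3 * T * Real.exp (k ^ 2 * (Real.log (Real.log T) + C₁) + Real.exp (3 * k)) *
      (2 * 4 ^ n * (n.factorial * se (Sp T (j + 1)) ^ n)) := by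
    have : 0 ≤ 3 * T := by linarith
    positivity
  have h9 : Real.exp (2 * k * (C₀ + K / be T j)) *
        ∏ i ∈ Finset.range (j + 1), (1 + 2 * Real.exp (-(lv k T i : ℝ))) ^ 2 ≤
      Real.exp (2 * k * (C₀ + K / be T j)) * Real.exp 4 :=
    mul_le_mul_of_nonneg_left h3 (Real.exp_pos _).le
  refine (mul_le_mul_of_nonneg_right h9 h8).trans (le_of_eq ?_)
  ring

end AuxHarT

open AuxHarT in
theorem pf_HarT (hInt : S_IntD) (hSp : S_SpS) (hMer : S_Mer) (hFst : S_Fst) (hPwZ : S_PwZ)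
    (hLevE : S_LevE) (hLevB : S_LevB) (hNmL : S_NmL) (hNmP : S_NmP) (hNmS : S_NmS)
    (hSpl : S_Spl) : S_HarT := by
  intro k K b₀ hk hK hb₀
  obtain ⟨C₀, hC₀, hZ⟩ := hPwZ
  obtain ⟨C₁, hC₁, hM⟩ := hMer
  obtain ⟨b1, hb1, hb1', hL⟩ := hNmL k hk.le
  obtain ⟨b2, hb2, hb2', hS⟩ := hNmS k K C₁ hk.le hK hC₁
  obtain ⟨b, hb, hbb0, hbb1, hbb2⟩ : ∃ b : ℝ, 0 < b ∧ b ≤ b₀ ∧ b ≤ b1 ∧ b ≤ b2 :=
    ⟨min b₀ (min b1 b2), by positivity, min_le_left _ _,
      (min_le_right _ _).trans (min_le_left _ _), (min_le_right _ _).trans (min_le_right _ _)⟩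
  have hb1e : b ≤ 1 := hbb1.trans hb1'
  obtain ⟨T1, hT1⟩ := hLevE b hb hb1e
  obtain ⟨T2, hT2⟩ := hFst
  set Y : ℝ := Real.exp (k ^ 2 * C₁ + Real.exp (3 * k)) with hY
  refine ⟨(Real.exp (2 * k * (C₀ + 20 * K / b)) * 2 + Real.exp (2 * k * C₀) * 8) *
    (Real.exp 4 * 3 * Y), max 3 (max T1 T2), le_max_left _ _, ?_⟩
  intro T hT v hv E hE hET hHyp
  have hTT1 : T1 ≤ T := (le_max_left _ _).trans ((le_max_right _ _).trans hT)
  have hTT2 : T2 ≤ T := (le_max_right _ _).trans ((le_max_right _ _).trans hT)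
  obtain ⟨M, hLev⟩ := hT1 T hTT1
  obtain ⟨hCf, hZ'⟩ := hZ v hv
  have hBig := hLev.big
  have hTp : 1 ≤ T := hBig.1
  obtain ⟨hlog, hall, hlt⟩ := hLevB T b M hLev hb1e
  obtain ⟨hL1, hL2⟩ := hL T b M hb hbb1 hLev
  have hM1 : 1 ≤ M := hLev.one
  -- the majorant
  set H : ℝ → ℝ := fun t => Gt v k K C₀ T (M - 1) t * ‖ev t (Pv v T (M - 1 + 1) 0)‖ ^ (2 * 0) +
    ∑ j ∈ Finset.range (M - 1), ∑ l ∈ Finset.Ico (j + 1) M,
      (Vv T (j + 1) ^ (2 * nv T (j + 1)))⁻¹ *
        (Gt v k K C₀ T j t * ‖ev t (Pv v T (j + 1) l)‖ ^ (2 * nv T (j + 1))) with hH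
  have hHc : Continuous H := by
    rw [hH]
    refine Continuous.add ((continuous_Gt v k K C₀ T (M - 1)).mul ((continuous_ev _).norm.pow _))
      (continuous_finset_sum _ fun j _ => continuous_finset_sum _ fun l _ => ?_)
    exact continuous_const.mul ((continuous_Gt v k K C₀ T j).mul ((continuous_ev _).norm.pow _))
  have hH0 : ∀ t, 0 ≤ H t := by
    intro t
    rw [hH]
    refine add_nonneg (mul_nonneg (Gt_nonneg v k K C₀ T (M - 1) t) (by positivity))
      (Finset.sum_nonneg fun j _ => Finset.sum_nonneg fun l _ => ?_)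
    have := (hall (j + 1)).2.2.2.2
    exact mul_nonneg (by positivity) (mul_nonneg (Gt_nonneg v k K C₀ T j t) (by positivity))
  have hpt : ∀ t ∈ E, ‖riemannZeta (1 / 2 + t * Complex.I)‖ ^ (2 * k : ℝ) ≤ H t := by
    intro t ht
    have h1 := hSpl v k K C₀ T b M t ‖riemannZeta (1 / 2 + t * Complex.I)‖ hk hLev hb1e
      (fun l _ => hT2 T hTT2 _ _ (hCf T l) t) (norm_nonneg _)
      (fun l hl => hZ' K b₀ T E hBig hHyp l (((hlt l hl).2.1).trans hbb0) t ht)
    refine h1.trans (le_of_eq ?_)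
    rw [hH]
    simp only [Nat.mul_zero, pow_zero, mul_one]
    congr 1
    refine Finset.sum_congr rfl fun j _ => Finset.sum_congr rfl fun l _ => ?_
    rw [div_pow]
    ring
  have hzc : Continuous fun t : ℝ => ‖riemannZeta (1 / 2 + t * Complex.I)‖ ^ (2 * k : ℝ) :=
    continuous_zeta.norm.rpow_const fun t => Or.inr (by linarith)
  have hTle : T ≤ 2 * T := by linarith
  have hint1 : IntegrableOn (fun t : ℝ => ‖riemannZeta (1 / 2 + t * Complex.I)‖ ^ (2 * k : ℝ)) E :=
    (hzc.continuousOn.integrableOn_compact isCompact_Icc).mono_set hET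
  have hint2 : IntegrableOn H (Icc T (2 * T)) :=
    hHc.continuousOn.integrableOn_compact isCompact_Icc
  have hstep1 : ∫ t in E, ‖riemannZeta (1 / 2 + t * Complex.I)‖ ^ (2 * k : ℝ) ≤
      ∫ t in T..(2 * T), H t := by
    calc ∫ t in E, ‖riemannZeta (1 / 2 + t * Complex.I)‖ ^ (2 * k : ℝ) ≤ ∫ t in E, H t :=
          setIntegral_mono_on hint1 (hint2.mono_set hET) hE hpt
      _ ≤ ∫ t in Icc T (2 * T), H t :=
          setIntegral_mono_set hint2 (ae_of_all _ hH0) (HasSubset.Subset.eventuallyLE hET)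
      _ = ∫ t in T..(2 * T), H t := by
          rw [intervalIntegral.integral_of_le hTle, integral_Icc_eq_integral_Ioc]
  have hstep2 : ∫ t in T..(2 * T), H t =
      (∫ t in T..(2 * T), Gt v k K C₀ T (M - 1) t * ‖ev t (Pv v T (M - 1 + 1) 0)‖ ^ (2 * 0)) +
      ∑ j ∈ Finset.range (M - 1), ∑ l ∈ Finset.Ico (j + 1) M,
        (Vv T (j + 1) ^ (2 * nv T (j + 1)))⁻¹ *
          ∫ t in T..(2 * T), Gt v k K C₀ T j t * ‖ev t (Pv v T (j + 1) l)‖ ^ (2 * nv T (j + 1)) := by
    rw [hH]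
    rw [intervalIntegral.integral_add]
    · congr 1
      rw [intervalIntegral.integral_finset_sum]
      · refine Finset.sum_congr rfl fun j _ => ?_
        rw [intervalIntegral.integral_finset_sum]
        · refine Finset.sum_congr rfl fun l _ => ?_
          rw [intervalIntegral.integral_const_mul]
        · intro l _
          exact (continuous_const.mul ((continuous_Gt v k K C₀ T j).mul
            ((continuous_ev _).norm.pow _))).intervalIntegrable _ _
      · intro j _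
        exact (continuous_finset_sum _ fun l _ => continuous_const.mul
          ((continuous_Gt v k K C₀ T j).mul ((continuous_ev _).norm.pow _))).intervalIntegrable _ _
    · exact ((continuous_Gt v k K C₀ T (M - 1)).mul
        ((continuous_ev _).norm.pow _)).intervalIntegrable _ _
    · exact (continuous_finset_sum _ fun j _ => continuous_finset_sum _ fun l _ =>
        continuous_const.mul ((continuous_Gt v k K C₀ T j).mul
          ((continuous_ev _).norm.pow _))).intervalIntegrable _ _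
  set X : ℝ := Real.exp (k ^ 2 * (Real.log (Real.log T) + C₁) + Real.exp (3 * k)) with hX
  have hXe : X = Y * Real.log T ^ (k ^ 2 : ℝ) := by
    rw [hX, hY, Real.rpow_def_of_pos hlog, ← Real.exp_add]
    congr 1
    ring
  -- main term
  have hmain : ∫ t in T..(2 * T), Gt v k K C₀ T (M - 1) t *
      ‖ev t (Pv v T (M - 1 + 1) 0)‖ ^ (2 * 0) ≤
      Real.exp (2 * k * (C₀ + 20 * K / b)) * (Real.exp 4 * (3 * T * X)) * 2 := by
    have h1 := intG hInt hSp hNmP hM hLevB hCf (C₀ := C₀) (K := K) hk hLev hb1e (M - 1) 0 0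
      (by omega) (by
        have h2 := hL1 (M - 1 + 1) (by omega)
        have h3 : 2 * ((0 : ℕ) : ℝ) * yv T (M - 1 + 1) = 0 := by simp
        rw [h3, add_zero]
        linarith)
    refine h1.trans ?_
    have h2 : (2 * 4 ^ 0 * ((Nat.factorial 0 : ℕ) * se (Sp T (M - 1 + 1)) ^ 0) : ℝ) = 2 := by simp
    rw [h2]
    refine mul_le_mul_of_nonneg_right (mul_le_mul_of_nonneg_right (Real.exp_le_exp.2 ?_) ?_)
      (by norm_num)
    · refine mul_le_mul_of_nonneg_left ?_ (by linarith)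
      have h3 := (hall (M - 1)).1
      have h4 : K / be T (M - 1) ≤ 20 * K / b := by
        rw [div_le_div_iff₀ h3 hb]
        have h5 := hLev.lo
        nlinarith
      linarith
    · have : 0 ≤ 3 * T := by linarith
      positivity
  -- other terms
  have hoth : ∑ j ∈ Finset.range (M - 1), ∑ l ∈ Finset.Ico (j + 1) M,
        (Vv T (j + 1) ^ (2 * nv T (j + 1)))⁻¹ *
          ∫ t in T..(2 * T), Gt v k K C₀ T j t * ‖ev t (Pv v T (j + 1) l)‖ ^ (2 * nv T (j + 1)) ≤
      Real.exp (2 * k * C₀) * (Real.exp 4 * (3 * T * X)) * 8 := by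
    have h1 := hS T b M hb hbb2 hLev
    have h0 : 0 ≤ Real.exp (2 * k * C₀) * (Real.exp 4 * (3 * T * X)) := by
      have : 0 ≤ 3 * T := by linarith
      positivity
    refine le_trans ?_ (mul_le_mul_of_nonneg_left h1 h0)
    rw [Finset.mul_sum]
    refine Finset.sum_le_sum fun j hj => ?_
    rw [Finset.mul_sum]
    refine Finset.sum_le_sum fun l _ => ?_
    rw [Finset.mem_range] at hj
    have h2 := intG hInt hSp hNmP hM hLevB hCf (C₀ := C₀) (K := K) hk hLev hb1e j (nv T (j + 1)) l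
      (by omega) (by
        have h3 := hL1 (j + 1) (by omega)
        have h4 := hL2 (j + 1) (by omega)
        linarith)
    have hV : 0 < Vv T (j + 1) := (hall (j + 1)).2.2.2.2
    refine (mul_le_mul_of_nonneg_left h2 (by positivity)).trans ?_
    obtain ⟨-, hm2, -⟩ := hM T hBig
    have hse : 0 ≤ se (Sp T (j + 1)) := by
      unfold se
      exact Finset.sum_nonneg fun p _ => by positivity
    have h5 : se (Sp T (j + 1)) ^ nv T (j + 1) ≤ C₁ ^ nv T (j + 1) :=
      pow_le_pow_left₀ hse (hm2 (j + 1) (by omega)) _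
    have h6 : (2 * 4 ^ nv T (j + 1) * ((nv T (j + 1)).factorial * se (Sp T (j + 1)) ^ nv T (j + 1)) : ℝ)
        ≤ 2 * 4 ^ nv T (j + 1) * ((nv T (j + 1)).factorial * C₁ ^ nv T (j + 1)) := by
      gcongr
    have h7 : 0 ≤ Real.exp (2 * k * (C₀ + K / be T j)) * (Real.exp 4 * (3 * T * X)) := by
      have : 0 ≤ 3 * T := by linarith
      positivity
    have h8 := mul_le_mul_of_nonneg_left h6 h7
    refine (mul_le_mul_of_nonneg_left h8 (by positivity)).trans (le_of_eq ?_)
    have h9 : Real.exp (2 * k * (C₀ + K / be T j)) =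
        Real.exp (2 * k * C₀) * Real.exp (2 * k * (K / be T j)) := by
      rw [← Real.exp_add]; congr 1; ring
    rw [h9]
    ring
  refine hstep1.trans ?_
  rw [hstep2]
  refine (add_le_add hmain hoth).trans (le_of_eq ?_)
  rw [hXe]
  ring

end Pool.Agent.Work.MP_56b8f5_nt.HZB
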