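import Pool.Agent.Work.MP_56b8f5_nt.HZ.StmtsB

/-!
MP_56b8f5_nt, block HZ, part B, item LevE: existence of the levels.
-/

set_option autoImplicit false

open MeasureTheory Set Filter Topology

noncomputable section

namespace Pool.Agent.Work.MP_56b8f5_nt.HZB

open Pool.Agent.Work.MP_56b8f5_nt.SH

namespace AuxLevE

theorem large (b : ℝ) (hb : 0 < b) : ∃ T₀ : ℝ, ∀ T : ℝ, T₀ ≤ T →
    1 ≤ T ∧ Real.exp 1 ≤ Real.log T ∧ Real.log (Real.log T) ≤ b * Real.log T := by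
  have h1 : ∀ᶠ x : ℝ in atTop, ‖Real.log x‖ ≤ b * ‖(id x : ℝ)‖ :=
    Real.isLittleO_log_id_atTop.bound hb
  have h2 : ∀ᶠ T : ℝ in atTop, ‖Real.log (Real.log T)‖ ≤ b * ‖(id (Real.log T) : ℝ)‖ :=
    Real.tendsto_log_atTop.eventually h1
  have h3 : ∀ᶠ T : ℝ in atTop, Real.exp 1 ≤ Real.log T :=
    Real.tendsto_log_atTop.eventually (eventually_ge_atTop (Real.exp 1))
  have h4 : ∀ᶠ T : ℝ in atTop, (1 : ℝ) ≤ T := eventually_ge_atTop 1
  obtain ⟨T₀, hT₀⟩ := eventually_atTop.1 ((h2.and h3).and h4)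
  refine ⟨T₀, fun T hT => ?_⟩
  obtain ⟨⟨h5, h6⟩, h7⟩ := hT₀ T hT
  refine ⟨h7, h6, ?_⟩
  have h8 : 0 ≤ Real.log T := (Real.exp_pos 1).le.trans h6
  rw [id, Real.norm_of_nonneg h8] at h5
  exact (Real.le_norm_self _).trans h5

theorem first (c d : ℝ) (hc : 1 ≤ c) (hcd : c ≤ d) : ∃ n : ℕ, 20 ^ n * c ≤ d ∧
    d < 20 ^ (n + 1) * c := by
  have hex : ∃ n : ℕ, d < 20 ^ n * c := by
    obtain ⟨n, hn⟩ := pow_unbounded_of_one_lt d (show (1 : ℝ) < 20 by norm_num)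
    exact ⟨n, hn.trans_le (le_mul_of_one_le_right (by positivity) hc)⟩
  classical
  set n := Nat.find hex with hn
  have h1 : d < 20 ^ n * c := Nat.find_spec hex
  have h2 : n ≠ 0 := by
    intro h
    rw [h, pow_zero, one_mul] at h1
    linarith
  obtain ⟨m, hm⟩ := Nat.exists_eq_succ_of_ne_zero h2
  refine ⟨m, not_lt.1 (Nat.find_min hex (by omega)), ?_⟩
  rw [hm] at h1
  exact h1

end AuxLevE

theorem pf_LevE : S_LevE := by
  intro b hb _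
  obtain ⟨T₀, hT₀⟩ := AuxLevE.large b hb
  refine ⟨T₀, fun T hT => ?_⟩
  obtain ⟨h1, h2, h3⟩ := hT₀ T hT
  have hL : 0 < Real.log T := (Real.exp_pos 1).trans_le h2
  have hc : 1 ≤ Real.log (Real.log T) := by
    rw [Real.le_log_iff_exp_le hL]
    exact h2
  obtain ⟨n, h4, h5⟩ := AuxLevE.first _ _ hc h3
  refine ⟨n + 1, ⟨by omega, ⟨h1, h2⟩, ?_, ?_⟩⟩
  · rw [Nat.add_sub_cancel]
    unfold be yv
    rw [div_le_iff₀ hL]
    exact h4
  · rw [Nat.add_sub_cancel]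
    unfold be yv
    rw [le_div_iff₀ hL]
    rw [pow_succ] at h5
    linarith

end Pool.Agent.Work.MP_56b8f5_nt.HZB
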