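import Pool.Agent.Work.MP_56b8f5_nt.HZ.StmtsB

set_option autoImplicit false

open MeasureTheory Set Filter Topology

noncomputable section

namespace Pool.Agent.Work.MP_56b8f5_nt.HZB

open Pool.Agent.Work.MP_56b8f5_nt.SH

namespace AuxSpl

theorem Gt_nonneg (v : ℝ → ℕ → ℝ) (k K C₀ T : ℝ) (j : ℕ) (t : ℝ) : 0 ≤ Gt v k K C₀ T j t := by
  unfold Gt
  exact mul_nonneg (Real.exp_pos _).le (Finset.prod_nonneg fun i _ => by positivity)

theorem main (hE : S_EvT) (hB : S_LevB) (hT : S_Tay) (v : ℝ → ℕ → ℝ) (k K C₀ T b : ℝ) (M : ℕ)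
    (t z : ℝ) (hk : 0 < k) (hL : Lev T b M) (hb : b ≤ 1) (hz : 0 ≤ z)
    (hzl : ∀ l < M, z ≤ Real.exp ((∑ i ∈ Finset.range (l + 1), ev t (Pv v T i l)).re + C₀ +
      K / be T l)) (j : ℕ) (hj : j < M) (h : ∀ i ≤ j, ‖ev t (Pv v T i j)‖ ≤ Vv T i) :
    z ^ (2 * k) ≤ Gt v k K C₀ T j t := by
  obtain ⟨-, hB2, -⟩ := hB T b M hL hb
  have h1 : z ^ (2 * k) ≤ (Real.exp ((∑ i ∈ Finset.range (j + 1), ev t (Pv v T i j)).re + C₀ +
      K / be T j)) ^ (2 * k) := Real.rpow_le_rpow hz (hzl j hj) (by positivity)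
  refine h1.trans ?_
  rw [← Real.exp_mul]
  have h2 : ((∑ i ∈ Finset.range (j + 1), ev t (Pv v T i j)).re + C₀ + K / be T j) * (2 * k) =
      2 * k * (C₀ + K / be T j) + ∑ i ∈ Finset.range (j + 1), 2 * k * (ev t (Pv v T i j)).re := by
    rw [Complex.re_sum, ← Finset.mul_sum]
    ring
  rw [h2, Real.exp_add, Real.exp_sum]
  unfold Gt
  refine mul_le_mul_of_nonneg_left ?_ (Real.exp_pos _).le
  refine Finset.prod_le_prod (fun i _ => (Real.exp_pos _).le) ?_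
  intro i hi
  have hij : i ≤ j := by
    have := Finset.mem_range.1 hi
    omega
  have hV : 0 < Vv T i := (hB2 i).2.2.2.2
  have h3 : ‖(k : ℂ) * ev t (Pv v T i j)‖ ≤ (lv k T i : ℝ) / 10 := by
    rw [norm_mul, Complex.norm_real, Real.norm_eq_abs, abs_of_pos hk]
    have h4 : 10 * (k + 1) * Vv T i ≤ (lv k T i : ℝ) := Nat.le_ceil _
    have h5 : k * ‖ev t (Pv v T i j)‖ ≤ k * Vv T i := mul_le_mul_of_nonneg_left (h i hij) hk.le
    nlinarith
  have h6 := hT (lv k T i) _ h3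
  rw [← hE] at h6
  have h7 : Real.exp (2 * k * (ev t (Pv v T i j)).re) =
      (Real.exp ((k : ℂ) * ev t (Pv v T i j)).re) ^ 2 := by
    rw [← Real.exp_nat_mul]
    congr 1
    simp
    ring
  rw [h7, ← mul_pow]
  exact pow_le_pow_left₀ (Real.exp_pos _).le h6 2

end AuxSpl

theorem pf_Spl (hE : S_EvT) (hB : S_LevB) (hT : S_Tay) : S_Spl := by
  classical
  intro v k K C₀ T b M t z hk hL hb h0 hz hzl
  have hM : 1 ≤ M := hL.one
  obtain ⟨-, hB2, -⟩ := hB T b M hL hb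
  have hG := AuxSpl.Gt_nonneg v k K C₀ T
  have hterm : ∀ j l, 0 ≤ Gt v k K C₀ T j t *
      (‖ev t (Pv v T (j + 1) l)‖ / Vv T (j + 1)) ^ (2 * nv T (j + 1)) := by
    intro j l
    have hV : 0 < Vv T (j + 1) := (hB2 (j + 1)).2.2.2.2
    exact mul_nonneg (hG j t) (by positivity)
  have hsum : 0 ≤ ∑ j ∈ Finset.range (M - 1), ∑ l ∈ Finset.Ico (j + 1) M,
      Gt v k K C₀ T j t * (‖ev t (Pv v T (j + 1) l)‖ / Vv T (j + 1)) ^ (2 * nv T (j + 1)) :=
    Finset.sum_nonneg fun j _ => Finset.sum_nonneg fun l _ => hterm j l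
  by_cases hbad : ∃ j, j + 1 < M ∧ ∃ l, j + 1 ≤ l ∧ l < M ∧
      Vv T (j + 1) < ‖ev t (Pv v T (j + 1) l)‖
  · obtain ⟨hj1, l, hl1, hl2, hl3⟩ := Nat.find_spec hbad
    have hmin := fun m (hm : m < Nat.find hbad) => Nat.find_min hbad hm
    generalize Nat.find hbad = j at hj1 hl1 hl2 hl3 hmin
    have h1 : z ^ (2 * k) ≤ Gt v k K C₀ T j t := by
      refine AuxSpl.main hE hB hT v k K C₀ T b M t z hk hL hb hz hzl j (by omega) ?_
      intro i hi
      rcases i with _ | i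
      · exact h0 j (by omega)
      · by_contra hc
        exact hmin i (by omega) ⟨by omega, j, hi, by omega, not_le.1 hc⟩
    have hV : 0 < Vv T (j + 1) := (hB2 (j + 1)).2.2.2.2
    have h2 : 1 ≤ (‖ev t (Pv v T (j + 1) l)‖ / Vv T (j + 1)) ^ (2 * nv T (j + 1)) :=
      one_le_pow₀ ((one_le_div hV).2 hl3.le)
    have h3 : Gt v k K C₀ T j t ≤ Gt v k K C₀ T j t *
        (‖ev t (Pv v T (j + 1) l)‖ / Vv T (j + 1)) ^ (2 * nv T (j + 1)) :=
      le_mul_of_one_le_right (hG j t) h2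
    have h4 : Gt v k K C₀ T j t *
        (‖ev t (Pv v T (j + 1) l)‖ / Vv T (j + 1)) ^ (2 * nv T (j + 1)) ≤
        ∑ l ∈ Finset.Ico (j + 1) M, Gt v k K C₀ T j t *
          (‖ev t (Pv v T (j + 1) l)‖ / Vv T (j + 1)) ^ (2 * nv T (j + 1)) :=
      Finset.single_le_sum (f := fun l => Gt v k K C₀ T j t *
          (‖ev t (Pv v T (j + 1) l)‖ / Vv T (j + 1)) ^ (2 * nv T (j + 1)))
        (fun l _ => hterm j l) (Finset.mem_Ico.2 ⟨hl1, hl2⟩)
    have h5 : ∑ l ∈ Finset.Ico (j + 1) M, Gt v k K C₀ T j t *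
          (‖ev t (Pv v T (j + 1) l)‖ / Vv T (j + 1)) ^ (2 * nv T (j + 1)) ≤
        ∑ j ∈ Finset.range (M - 1), ∑ l ∈ Finset.Ico (j + 1) M, Gt v k K C₀ T j t *
          (‖ev t (Pv v T (j + 1) l)‖ / Vv T (j + 1)) ^ (2 * nv T (j + 1)) :=
      Finset.single_le_sum (f := fun j => ∑ l ∈ Finset.Ico (j + 1) M, Gt v k K C₀ T j t *
          (‖ev t (Pv v T (j + 1) l)‖ / Vv T (j + 1)) ^ (2 * nv T (j + 1)))
        (fun j _ => Finset.sum_nonneg fun l _ => hterm j l) (Finset.mem_range.2 (by omega))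
    have h6 := hG (M - 1) t
    linarith
  · have h1 : z ^ (2 * k) ≤ Gt v k K C₀ T (M - 1) t := by
      refine AuxSpl.main hE hB hT v k K C₀ T b M t z hk hL hb hz hzl (M - 1) (by omega) ?_
      intro i hi
      rcases i with _ | i
      · exact h0 (M - 1) (by omega)
      · by_contra hc
        exact hbad ⟨i, by omega, M - 1, hi, by omega, not_le.1 hc⟩
    linarith

end Pool.Agent.Work.MP_56b8f5_nt.HZB
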