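import Pool.Agent.Work.MP_56b8f5_nt.HZ.StmtsB

/-!
Item PwZ of the block HZ-B (helper22): from the hypothesis to the levels.
-/

set_option autoImplicit false

open MeasureTheory Set Filter Topology

noncomputable section

namespace Pool.Agent.Work.MP_56b8f5_nt.HZB

open Pool.Agent.Work.MP_56b8f5_nt.SH

namespace AuxPwZ

theorem norm_chi (t : ℝ) (n : ℕ) (hn : 0 < n) : ‖chi t n‖ = (n : ℝ) ^ (-(1 / 2) : ℝ) := by
  change ‖(n : ℂ) ^ (-(1 / 2 + t * Complex.I))‖ = _
  rw [Complex.norm_natCast_cpow_of_pos hn]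
  congr 1
  simp

theorem lam_le (n : ℕ) : 0 ≤ ArithmeticFunction.vonMangoldt n / Real.log n ∧
    ArithmeticFunction.vonMangoldt n / Real.log n ≤ 1 := by
  have h0 : 0 ≤ ArithmeticFunction.vonMangoldt n := ArithmeticFunction.vonMangoldt_nonneg
  have h1 : ArithmeticFunction.vonMangoldt n ≤ Real.log n := ArithmeticFunction.vonMangoldt_le_log
  have h2 : 0 ≤ Real.log n := le_trans h0 h1
  exact ⟨div_nonneg h0 h2, div_le_one_of_le₀ h1 h2⟩

/-- The absolute constant. -/
def CC : ℝ := 4 * ∑' n : ℕ, (n : ℝ) ^ (-(3 / 2) : ℝ)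

theorem sumbl : Summable (fun n : ℕ => (n : ℝ) ^ (-(3 / 2) : ℝ)) := by
  rw [Real.summable_nat_rpow]
  norm_num

theorem CC_nonneg : 0 ≤ CC := by
  unfold CC
  exact mul_nonneg (by norm_num) (tsum_nonneg fun n => Real.rpow_nonneg (Nat.cast_nonneg n) _)

/-- The sum over the cubes and the higher powers. -/
theorem sum_high (N : ℕ) (R : Finset ℕ) (hR : ∀ n ∈ R, ∃ p r : ℕ, 2 ≤ p ∧ p ≤ N ∧ r < N ∧
    n = p ^ (r + 3)) : ∑ n ∈ R, (n : ℝ) ^ (-(1 / 2) : ℝ) ≤ CC := by
  classical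
  let S : Finset (ℕ × ℕ) := Finset.Icc 2 N ×ˢ Finset.range N
  have h1 : R ⊆ S.image (fun q => q.1 ^ (q.2 + 3)) := by
    intro n hn
    obtain ⟨p, r, hp, hpN, hr, rfl⟩ := hR n hn
    refine Finset.mem_image.mpr ⟨(p, r), ?_, rfl⟩
    exact Finset.mem_product.mpr ⟨Finset.mem_Icc.mpr ⟨hp, hpN⟩, Finset.mem_range.mpr hr⟩
  have h2 : ∑ n ∈ R, (n : ℝ) ^ (-(1 / 2) : ℝ) ≤
      ∑ n ∈ S.image (fun q : ℕ × ℕ => (q.1 ^ (q.2 + 3) : ℕ)), ((n : ℕ) : ℝ) ^ (-(1 / 2) : ℝ) :=
    Finset.sum_le_sum_of_subset_of_nonneg h1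
      (fun n _ _ => Real.rpow_nonneg (Nat.cast_nonneg n) _)
  have h3 : ∑ n ∈ S.image (fun q : ℕ × ℕ => (q.1 ^ (q.2 + 3) : ℕ)),
      ((n : ℕ) : ℝ) ^ (-(1 / 2) : ℝ) ≤
      ∑ q ∈ S, ((q.1 ^ (q.2 + 3) : ℕ) : ℝ) ^ (-(1 / 2) : ℝ) :=
    Finset.sum_image_le_of_nonneg (fun n _ => Real.rpow_nonneg (Nat.cast_nonneg _) _)
  refine h2.trans (h3.trans ?_)
  have h4 : ∀ p ∈ Finset.Icc 2 N, ∑ r ∈ Finset.range N, ((p ^ (r + 3) : ℕ) : ℝ) ^ (-(1 / 2) : ℝ)
      ≤ 4 * (p : ℝ) ^ (-(3 / 2) : ℝ) := by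
    intro p hp
    have hp2 : 2 ≤ p := (Finset.mem_Icc.mp hp).1
    have hp0 : (0 : ℝ) < p := by
      have : 0 < p := by omega
      exact_mod_cast this
    have hp2' : (2 : ℝ) ≤ p := by exact_mod_cast hp2
    set q : ℝ := (p : ℝ) ^ (-(1 / 2) : ℝ) with hq
    have hq0 : 0 ≤ q := Real.rpow_nonneg hp0.le _
    have hq1 : q ≤ 3 / 4 := by
      have e1 : q ^ 2 = (p : ℝ)⁻¹ := by
        rw [hq, ← Real.rpow_natCast, ← Real.rpow_mul hp0.le]
        norm_num
        rw [Real.rpow_neg_one]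
      have e2 : (p : ℝ)⁻¹ ≤ 1 / 2 := by
        rw [one_div]
        exact inv_anti₀ (by norm_num) hp2'
      nlinarith
    have e3 : ∀ r : ℕ, ((p ^ (r + 3) : ℕ) : ℝ) ^ (-(1 / 2) : ℝ) =
        (p : ℝ) ^ (-(3 / 2) : ℝ) * q ^ r := by
      intro r
      rw [hq, Nat.cast_pow, ← Real.rpow_natCast, ← Real.rpow_natCast, ← Real.rpow_mul hp0.le,
        ← Real.rpow_mul hp0.le, ← Real.rpow_add hp0]
      congr 1
      push_cast
      ring
    have e4 : ∑ r ∈ Finset.range N, q ^ r ≤ 4 := by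
      calc ∑ r ∈ Finset.range N, q ^ r ≤ ∑ r ∈ Finset.range N, (3 / 4 : ℝ) ^ r :=
            Finset.sum_le_sum fun r _ => pow_le_pow_left₀ hq0 hq1 r
        _ ≤ ∑' r : ℕ, (3 / 4 : ℝ) ^ r := by
            refine Summable.sum_le_tsum _ (fun r _ => by positivity) ?_
            exact summable_geometric_of_lt_one (by norm_num) (by norm_num)
        _ = 4 := by
            rw [tsum_geometric_of_lt_one (by norm_num) (by norm_num)]
            norm_num
    rw [Finset.sum_congr rfl (fun r _ => e3 r), ← Finset.mul_sum, mul_comm]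
    exact mul_le_mul_of_nonneg_right e4 (Real.rpow_nonneg hp0.le _)
  calc ∑ q ∈ S, ((q.1 ^ (q.2 + 3) : ℕ) : ℝ) ^ (-(1 / 2) : ℝ)
      = ∑ p ∈ Finset.Icc 2 N, ∑ r ∈ Finset.range N, ((p ^ (r + 3) : ℕ) : ℝ) ^ (-(1 / 2) : ℝ) :=
        Finset.sum_product _ _ _
    _ ≤ ∑ p ∈ Finset.Icc 2 N, 4 * (p : ℝ) ^ (-(3 / 2) : ℝ) := Finset.sum_le_sum h4
    _ = 4 * ∑ p ∈ Finset.Icc 2 N, (p : ℝ) ^ (-(3 / 2) : ℝ) := by rw [Finset.mul_sum]
    _ ≤ CC := by
        unfold CC
        refine mul_le_mul_of_nonneg_left ?_ (by norm_num)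
        exact sumbl.sum_le_tsum _ (fun n _ => Real.rpow_nonneg (Nat.cast_nonneg n) _)

/-- The splitting of a sum over `n ≤ N` into primes, squares of primes and the rest. -/
theorem split (N : ℕ) (g : ℕ → ℂ) (h0 : ∀ n, ¬ IsPrimePow n → g n = 0)
    (h1 : ∀ n, 0 < n → ‖g n‖ ≤ (n : ℝ) ^ (-(1 / 2) : ℝ)) :
    ‖∑ n ∈ Finset.Icc 1 N, g n - ∑ p ∈ (Finset.Icc 1 N).filter Nat.Prime,
      (g p + if p ^ 2 ≤ N then g (p ^ 2) else 0)‖ ≤ CC := by
  classical
  set I : Finset ℕ := Finset.Icc 1 N with hI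
  set A : Finset ℕ := I.filter Nat.Prime with hA
  set B : Finset ℕ := (A.filter (fun p => p ^ 2 ≤ N)).image (fun p => p ^ 2) with hB
  have hinj : Set.InjOn (fun p : ℕ => p ^ 2) (A.filter (fun p => p ^ 2 ≤ N)) := by
    intro p _ q _ hpq
    exact Nat.pow_left_injective (by norm_num : 2 ≠ 0) hpq
  have hBsum : ∑ n ∈ B, g n = ∑ p ∈ A, (if p ^ 2 ≤ N then g (p ^ 2) else 0) := by
    rw [hB, Finset.sum_image hinj, Finset.sum_filter]
  have hdis : Disjoint A B := by
    rw [Finset.disjoint_left]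
    intro n hnA hnB
    obtain ⟨p, hp, rfl⟩ := Finset.mem_image.mp hnB
    have e1 : (p ^ 2).Prime := (Finset.mem_filter.mp hnA).2
    exact (Nat.Prime.not_prime_pow (le_refl 2)) e1
  have hsub : A ∪ B ⊆ I := by
    intro n hn
    rcases Finset.mem_union.mp hn with h | h
    · exact (Finset.mem_filter.mp h).1
    · obtain ⟨p, hp, rfl⟩ := Finset.mem_image.mp h
      have e1 := Finset.mem_filter.mp hp
      have e2 := Finset.mem_filter.mp e1.1
      rw [hI, Finset.mem_Icc]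
      exact ⟨Nat.one_le_pow _ _ e2.2.pos, e1.2⟩
  have hsum : ∑ n ∈ I, g n = ∑ n ∈ A, g n + ∑ n ∈ B, g n + ∑ n ∈ I \ (A ∪ B), g n := by
    rw [← Finset.sum_union hdis, add_comm, Finset.sum_sdiff hsub]
  have hdiff : ∑ n ∈ I, g n - ∑ p ∈ A, (g p + if p ^ 2 ≤ N then g (p ^ 2) else 0) =
      ∑ n ∈ (I \ (A ∪ B)).filter IsPrimePow, g n := by
    rw [hsum, Finset.sum_add_distrib, ← hBsum, add_sub_cancel_left, Finset.sum_filter]
    refine Finset.sum_congr rfl fun n _ => ?_
    split_ifs with h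
    · rfl
    · exact h0 n h
  rw [hdiff]
  refine (norm_sum_le _ _).trans ?_
  refine le_trans (Finset.sum_le_sum (g := fun n : ℕ => (n : ℝ) ^ (-(1 / 2) : ℝ)) ?_) ?_
  · intro n hn
    have e1 := (Finset.mem_sdiff.mp (Finset.mem_filter.mp hn).1).1
    rw [hI, Finset.mem_Icc] at e1
    exact h1 n e1.1
  · refine sum_high N _ ?_
    intro n hn
    obtain ⟨hn1, hn2⟩ := Finset.mem_filter.mp hn
    obtain ⟨hn3, hn4⟩ := Finset.mem_sdiff.mp hn1
    rw [hI, Finset.mem_Icc] at hn3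
    rw [isPrimePow_nat_iff] at hn2
    obtain ⟨p, k, hp, hk, rfl⟩ := hn2
    have hpN : p ≤ N := le_trans (Nat.le_self_pow hk.ne' p) hn3.2
    have hpI : p ∈ A := by
      rw [hA, Finset.mem_filter, hI, Finset.mem_Icc]
      exact ⟨⟨hp.pos, hpN⟩, hp⟩
    have hk1 : k ≠ 1 := by
      rintro rfl
      apply hn4
      rw [pow_one]
      exact Finset.mem_union_left _ hpI
    have hk2 : k ≠ 2 := by
      rintro rfl
      apply hn4
      refine Finset.mem_union_right _ (Finset.mem_image.mpr ⟨p, ?_, rfl⟩)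
      exact Finset.mem_filter.mpr ⟨hpI, hn3.2⟩
    have hkN : k < N := lt_of_lt_of_le (Nat.lt_pow_self hp.one_lt) hn3.2
    refine ⟨p, k - 3, hp.two_le, hpN, by omega, ?_⟩
    congr 1
    omega

end AuxPwZ

open AuxPwZ in
theorem pf_PwZ (h : S_SpS) : S_PwZ := by
  classical
  refine ⟨CC, CC_nonneg, fun v hv => ⟨?_, ?_⟩⟩
  · intro T l p
    refine ⟨(hv _ _).1, (hv _ _).2, ?_, ?_⟩
    · unfold bv
      split_ifs
      · exact div_nonneg (hv _ _).1 (by norm_num)
      · exact le_refl 0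
    · unfold bv
      split_ifs
      · linarith [(hv (Real.exp (yv T l)) (p ^ 2)).2]
      · norm_num
  · intro K b₀ T E hT hE l hl t ht
    obtain ⟨hS1, hS2, hS3⟩ := h T hT
    have hL1 : Real.exp 1 ≤ Real.log T := hT.2
    have hL0 : 0 < Real.log T := lt_of_lt_of_le (Real.exp_pos 1) hL1
    have hT0 : 0 < T := lt_of_lt_of_le one_pos hT.1
    have hLL : 1 ≤ Real.log (Real.log T) := by
      rw [Real.le_log_iff_exp_le hL0]
      exact hL1
    have hy0 : Real.log (Real.log T) ≤ yv T l := by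
      unfold yv
      have : (1 : ℝ) ≤ 20 ^ l := one_le_pow₀ (by norm_num)
      nlinarith
    have hypos : 0 < yv T l := by linarith
    set x : ℝ := Real.exp (yv T l) with hx
    have hx0 : 0 < x := Real.exp_pos _
    have hx1 : Real.log T ≤ x := by
      rw [hx, ← Real.exp_log hL0]
      exact Real.exp_le_exp.mpr hy0
    have hx2 : x ≤ T ^ b₀ := by
      rw [hx, Real.rpow_def_of_pos hT0]
      apply Real.exp_le_exp.mpr
      unfold be at hl
      rw [div_le_iff₀ hL0] at hl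
      linarith
    have hlogx : Real.log x = yv T l := Real.log_exp _
    have hmain := hE t ht x hx1 hx2
    refine hmain.trans (Real.exp_le_exp.mpr ?_)
    have hbe : K * (Real.log T / Real.log x) = K / be T l := by
      rw [hlogx, be, div_div_eq_mul_div, mul_div_assoc]
    rw [hbe]
    set g : ℕ → ℂ := fun n =>
      ((ArithmeticFunction.vonMangoldt n / Real.log n * v x n : ℝ) : ℂ) * chi t n with hg
    set N : ℕ := ⌊x⌋₊ with hN
    have hg0 : ∀ n, ¬ IsPrimePow n → g n = 0 := by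
      intro n hn
      have e1 : ArithmeticFunction.vonMangoldt n = 0 :=
        ArithmeticFunction.vonMangoldt_eq_zero_iff.mpr hn
      simp only [hg, e1, zero_div, zero_mul, Complex.ofReal_zero]
    have hg1 : ∀ n, 0 < n → ‖g n‖ ≤ (n : ℝ) ^ (-(1 / 2) : ℝ) := by
      intro n hn
      have e1 := lam_le n
      have e2 := hv x n
      have e3 : 0 ≤ ArithmeticFunction.vonMangoldt n / Real.log n * v x n :=
        mul_nonneg e1.1 e2.1
      have e4 : ArithmeticFunction.vonMangoldt n / Real.log n * v x n ≤ 1 :=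
        mul_le_one₀ e1.2 e2.1 e2.2
      rw [hg]
      change ‖((ArithmeticFunction.vonMangoldt n / Real.log n * v x n : ℝ) : ℂ) * chi t n‖ ≤ _
      rw [norm_mul, norm_chi t n hn, Complex.norm_real, Real.norm_of_nonneg e3]
      exact mul_le_of_le_one_left (Real.rpow_nonneg (Nat.cast_nonneg n) _) e4
    have hsplit := split N g hg0 hg1
    have hfil : ∑ p ∈ (Finset.Icc 1 N).filter Nat.Prime,
        (g p + if p ^ 2 ≤ N then g (p ^ 2) else 0) =
        ∑ i ∈ Finset.range (l + 1), ev t (Pv v T i l) := by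
      have hU : (Finset.Icc 1 N).filter Nat.Prime =
          (Finset.range (l + 1)).biUnion (Sp T) := by
        ext p
        rw [Finset.mem_filter, Finset.mem_Icc, Finset.mem_biUnion]
        constructor
        · rintro ⟨⟨_, hp2⟩, hp⟩
          have e1 : Real.log p ≤ yv T l := by
            rw [Real.log_le_iff_le_exp (by exact_mod_cast hp.pos)]
            exact (Nat.le_floor_iff hx0.le).mp hp2
          obtain ⟨i, hi, hpi⟩ := (hS3 l p hp).mp e1
          exact ⟨i, Finset.mem_range.mpr (by omega), hpi⟩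
        · rintro ⟨i, hi, hpi⟩
          have hp : p.Prime := (hS1 i p hpi).1
          have e1 : Real.log p ≤ yv T l :=
            (hS3 l p hp).mpr ⟨i, by rw [Finset.mem_range] at hi; omega, hpi⟩
          refine ⟨⟨hp.pos, ?_⟩, hp⟩
          rw [hN, Nat.le_floor_iff hx0.le]
          rwa [Real.log_le_iff_le_exp (by exact_mod_cast hp.pos)] at e1
      rw [hU, Finset.sum_biUnion (fun i _ j _ hij => hS2 i j hij)]
      refine Finset.sum_congr rfl fun i _ => ?_
      unfold Pv pw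
      rw [map_sum]
      refine Finset.sum_congr rfl fun p hp => ?_
      have hpr : p.Prime := (hS1 i p hp).1
      have hlogp : 0 < Real.log p := Real.log_pos (by exact_mod_cast hpr.one_lt)
      have hev : ∀ (n : ℕ) (c : ℂ), ev t (MonoidAlgebra.single n c) = c * chi t n := by
        intro n c
        unfold ev
        rw [MonoidAlgebra.lift_single, smul_eq_mul]
      rw [map_add, hev, hev]
      congr 1
      · have e1 : ArithmeticFunction.vonMangoldt p = Real.log p :=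
          ArithmeticFunction.vonMangoldt_apply_prime hpr
        simp only [hg, e1, av]
        rw [div_self hlogp.ne', one_mul]
      · have e2 : p ^ 2 ≤ N ↔ (p : ℝ) ^ 2 ≤ Real.exp (yv T l) := by
          rw [hN, Nat.le_floor_iff hx0.le, Nat.cast_pow]
        unfold bv
        by_cases hc : (p : ℝ) ^ 2 ≤ Real.exp (yv T l)
        · rw [if_pos (e2.mpr hc), if_pos hc]
          have e3 : ArithmeticFunction.vonMangoldt (p ^ 2) = Real.log p := by
            rw [ArithmeticFunction.vonMangoldt_apply_pow two_ne_zero,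
              ArithmeticFunction.vonMangoldt_apply_prime hpr]
          have e4 : Real.log ((p ^ 2 : ℕ) : ℝ) = 2 * Real.log p := by
            rw [Nat.cast_pow, Real.log_pow]
            norm_num
          simp only [hg, e3, e4]
          congr 2
          rw [hx]
          field_simp
        · rw [if_neg (fun h' => hc (e2.mp h')), if_neg hc]
          simp
    rw [hfil] at hsplit
    have hre := (Complex.abs_re_le_norm _).trans hsplit
    rw [Complex.sub_re] at hre
    have := (abs_le.mp hre).2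
    linarith

end Pool.Agent.Work.MP_56b8f5_nt.HZB
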