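import Pool.Agent.Work.MP_56b8f5_nt.HZ.StmtsC

/-!
MP_56b8f5_nt, block HZ, part (c), item Cmp: the tilted measure of the complement of the set of good heights, by a sum of
the bounds of item Kap over dyadic ranges of `(Re ρ - 1/2) log T`.
-/

set_option autoImplicit false

open MeasureTheory Set Filter Topology

noncomputable section

namespace Pool.Agent.Work.MP_56b8f5_nt.HZ

open Pool.Agent.Work.MP_56b8f5_nt.EM Pool.Agent.Work.MP_56b8f5_nt.WM Pool.Agent.Work.MP_56b8f5_nt.SH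
open Pool.Agent.Work.MP_56b8f5_nt.HZG

namespace I_Cmp

/-! ### Continuity of the tilt -/

theorem cont_chi (n : ℕ) : Continuous fun t : ℝ => chi t n := by
  change Continuous fun t : ℝ => (n : ℂ) ^ (-(1 / 2 + t * Complex.I))
  have h : ∀ t : ℝ, -(1 / 2 + (t : ℂ) * Complex.I) ≠ 0 := by
    intro t h
    have := congrArg Complex.re h
    norm_num at this
  by_cases hn : n = 0
  · subst hn
    have e : (fun t : ℝ => ((0 : ℕ) : ℂ) ^ (-(1 / 2 + (t : ℂ) * Complex.I))) = fun _ => 0 := by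
      funext t
      rw [Nat.cast_zero, Complex.zero_cpow (h t)]
    rw [e]
    exact continuous_const
  · have hn' : (n : ℂ) ≠ 0 := Nat.cast_ne_zero.2 hn
    exact Continuous.const_cpow (by fun_prop) (Or.inl hn')

theorem cont_PS (S : Finset ℕ) : Continuous fun t : ℝ => PS S t := by
  unfold PS
  exact continuous_finsetSum _ fun p _ => cont_chi p

theorem cont_TE {f : ℝ → ℂ} (hf : Continuous f) (l : ℕ) : Continuous fun t => TE l (f t) := by
  unfold TE
  exact continuous_finsetSum _ fun i _ => (hf.pow i).div_const _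

theorem cont_Nb (M : ℕ) (S : ℕ → Finset ℕ) (l : ℕ → ℕ) (β : ℝ) :
    Continuous fun t => Nb M S l β t := by
  unfold Nb NN
  refine Continuous.norm (continuous_finsetProd _ fun j _ => ?_)
  exact (cont_TE (continuous_const.mul (cont_PS _)) _).mul
    (cont_TE (continuous_const.mul (cont_PS _)) _)

/-! ### Integrals over finite unions -/

theorem int_union {f : ℝ → ℝ} (hf : ∀ t, 0 ≤ f t) {K A B : Set ℝ} (hK : IntegrableOn f K)
    (hA : A ⊆ K) (hB : B ⊆ K) : ∫ t in A ∪ B, f t ≤ (∫ t in A, f t) + ∫ t in B, f t := by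
  have h1 : Integrable f (volume.restrict A) := hK.mono_set hA
  have h2 : Integrable f (volume.restrict B) := hK.mono_set hB
  calc ∫ t in A ∪ B, f t ≤ ∫ t, f t ∂(volume.restrict A + volume.restrict B) :=
        integral_mono_measure (Measure.restrict_union_le A B)
          (Eventually.of_forall hf) (h1.add_measure h2)
    _ = _ := integral_add_measure h1 h2

theorem int_sum {f : ℝ → ℝ} (hf : ∀ t, 0 ≤ f t) {K : Set ℝ} (hK : IntegrableOn f K)
    (E : ℕ → Set ℝ) (hE : ∀ j, E j ⊆ K) (F : Finset ℕ) :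
    ∫ t in {t | ∃ j ∈ F, t ∈ E j}, f t ≤ ∑ j ∈ F, ∫ t in E j, f t := by
  induction F using Finset.induction_on with
  | empty => simp
  | @insert i F hi ih =>
    rw [Finset.sum_insert hi]
    have e : {t | ∃ j ∈ insert i F, t ∈ E j} = E i ∪ {t | ∃ j ∈ F, t ∈ E j} := by
      ext t
      simp [Finset.mem_insert, or_and_right, exists_or]
    rw [e]
    refine (int_union hf hK (hE i) ?_).trans (by linarith)
    rintro t ⟨j, -, hj⟩
    exact hE j hj

/-! ### The dyadic decomposition -/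

/-- The dyadic range of a number larger than `A`. -/
theorem dyad {A x : ℝ} (hA : 1 ≤ A) (hx : A < x) : ∃ j : ℕ, 2 ^ j * A < x ∧ x ≤ 2 * (2 ^ j * A) := by
  have h : ∃ n : ℕ, x ≤ 2 * (2 ^ n * A) := by
    obtain ⟨n, hn⟩ := exists_nat_gt x
    refine ⟨n, ?_⟩
    have h1 : (n : ℝ) ≤ 2 ^ n := by exact_mod_cast Nat.lt_two_pow_self.le
    have h2 : (2 : ℝ) ^ n ≤ 2 ^ n * A := le_mul_of_one_le_right (by positivity) hA
    have h3 : (0 : ℝ) ≤ 2 ^ n * A := by positivity
    linarith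
  classical
  refine ⟨Nat.find h, ?_, Nat.find_spec h⟩
  rcases Nat.eq_zero_or_pos (Nat.find h) with h0 | h0
  · rw [h0, pow_zero, one_mul]
    exact hx
  · have h1 := Nat.find_min h (m := Nat.find h - 1) (by omega)
    have e : (2 : ℝ) ^ Nat.find h = 2 * 2 ^ (Nat.find h - 1) := by
      rw [← pow_succ', Nat.sub_add_cancel h0]
    rw [e]
    have := not_le.1 h1
    linarith

/-- The set of item Kap. -/
def EE (T κ : ℝ) : Set ℝ := {t : ℝ | T ≤ t ∧ t ≤ 2 * T ∧ ∃ ρ : ℂ, riemannZeta ρ = 0 ∧ ρ.re < 1 ∧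
      κ < (ρ.re - 1 / 2) * Real.log T ∧ (ρ.re - 1 / 2) * Real.log T ≤ 2 * κ ∧
      |t - ρ.im| ≤ Real.exp (κ / 200) / Real.log T}

theorem cover {T A t : ℝ} (hT : 3 ≤ T) (hA : 1 ≤ A) (ht : t ∈ Icc T (2 * T) \ GG T A 400) :
    ∃ j ∈ (Finset.range ⌈Real.log T⌉₊).filter (fun j : ℕ => (2 : ℝ) ^ j * A ≤ Real.log T / 2),
      t ∈ EE T (2 ^ j * A) := by
  obtain ⟨⟨h1, h2⟩, h3⟩ := ht
  have hL : 0 < Real.log T := Real.log_pos (by linarith)
  unfold GG at h3
  rw [mem_ofPred_eq] at h3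
  push Not at h3
  obtain ⟨ρ, h4, h5, h6, h7⟩ := h3 h1 h2
  have h8 : 0 ≤ |ρ.im - t| * Real.log T := mul_nonneg (abs_nonneg _) hL.le
  have h9 : 0 ≤ Real.log (1 + |ρ.im - t| * Real.log T) := Real.log_nonneg (by linarith)
  obtain ⟨x, hx⟩ : ∃ x, x = (ρ.re - 1 / 2) * Real.log T := ⟨_, rfl⟩
  rw [← hx] at h7
  have h10 : A < x := by linarith
  have h11 : x < Real.log T / 2 := by
    rw [hx]
    nlinarith
  obtain ⟨j, hj1, hj2⟩ := dyad hA h10
  have h12 : (2 : ℝ) ^ j * A ≤ Real.log T / 2 := by linarith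
  refine ⟨j, Finset.mem_filter.2 ⟨Finset.mem_range.2 ?_, h12⟩, h1, h2, ρ, h4, h6, ?_, ?_, ?_⟩
  · have h13 : (j : ℝ) < 2 ^ j := by exact_mod_cast Nat.lt_two_pow_self
    have h14 : (2 : ℝ) ^ j ≤ 2 ^ j * A := le_mul_of_one_le_right (by positivity) hA
    have h15 : (j : ℝ) < (⌈Real.log T⌉₊ : ℝ) := by
      have := Nat.le_ceil (Real.log T)
      linarith
    exact_mod_cast h15
  · rw [← hx]; exact hj1
  · rw [← hx]; exact hj2
  · rw [le_div_iff₀ hL, abs_sub_comm]
    have h13 : Real.log (1 + |ρ.im - t| * Real.log T) ≤ 2 ^ j * A / 200 := by linarith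
    have h14 := (Real.log_le_iff_le_exp (by linarith : 0 < 1 + |ρ.im - t| * Real.log T)).1 h13
    linarith

/-- The geometric sum. -/
theorem geo {A : ℝ} (hA : 1 ≤ A) (F : Finset ℕ) : ∑ j ∈ F, Real.exp (-(2 ^ j * A / 200)) ≤
    1 / (1 - Real.exp (-(1 / 200))) * Real.exp (-(A / 200)) := by
  have hr : Real.exp (-(1 / 200)) < 1 := by
    rw [Real.exp_lt_one_iff]
    norm_num
  have hr0 : 0 ≤ Real.exp (-(1 / 200 : ℝ)) := (Real.exp_pos _).le
  have h1 : ∀ j : ℕ, Real.exp (-(2 ^ j * A / 200)) ≤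
      Real.exp (-(1 / 200)) ^ j * Real.exp (-(A / 200)) := by
    intro j
    rw [← Real.exp_nat_mul, ← Real.exp_add]
    refine Real.exp_le_exp.2 ?_
    have h2 : (j : ℝ) + 1 ≤ 2 ^ j := by exact_mod_cast Nat.lt_two_pow_self
    have h3 : (0 : ℝ) ≤ j := Nat.cast_nonneg _
    nlinarith
  calc ∑ j ∈ F, Real.exp (-(2 ^ j * A / 200)) ≤
        ∑ j ∈ F, Real.exp (-(1 / 200)) ^ j * Real.exp (-(A / 200)) :=
        Finset.sum_le_sum fun j _ => h1 j
    _ = (∑ j ∈ F, Real.exp (-(1 / 200)) ^ j) * Real.exp (-(A / 200)) := by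
        rw [Finset.sum_mul]
    _ ≤ (∑' j : ℕ, Real.exp (-(1 / 200)) ^ j) * Real.exp (-(A / 200)) := by
        refine mul_le_mul_of_nonneg_right ?_ (Real.exp_pos _).le
        exact (summable_geometric_of_lt_one hr0 hr).sum_le_tsum F fun j _ => pow_nonneg hr0 j
    _ = _ := by rw [tsum_geometric_of_lt_one hr0 hr, inv_eq_one_div]

end I_Cmp

open I_Cmp in
theorem Cmp_pf (hKap : S_Kap) : S_Cmp := by
  intro B hB
  obtain ⟨C, T₀, hC, hT₀, h⟩ := hKap B hB
  have hr : Real.exp (-(1 / 200)) < 1 := by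
    rw [Real.exp_lt_one_iff]
    norm_num
  have hr0 : 0 < Real.exp (-(1 / 200 : ℝ)) := Real.exp_pos _
  have hK : 1 ≤ 1 / (1 - Real.exp (-(1 / 200))) := by
    rw [le_div_iff₀ (by linarith)]
    linarith
  refine ⟨C * (1 / (1 - Real.exp (-(1 / 200)))), T₀, by nlinarith, hT₀, ?_⟩
  intro T hT ε c η M S l y hε hε1 hsys β hβ hβB A hA
  have hT3 : 3 ≤ T := hT₀.trans hT
  have hc : Continuous fun t => Nb M S l β t ^ 2 := (cont_Nb M S l β).pow 2
  have hi : IntegrableOn (fun t => Nb M S l β t ^ 2) (Icc T (2 * T)) := hc.integrableOn_Icc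
  obtain ⟨F, hF⟩ : ∃ F : Finset ℕ, F = (Finset.range ⌈Real.log T⌉₊).filter
    (fun j : ℕ => (2 : ℝ) ^ j * A ≤ Real.log T / 2) := ⟨_, rfl⟩
  have hsub : ∀ j : ℕ, EE T (2 ^ j * A) ⊆ Icc T (2 * T) := fun j t ht => ⟨ht.1, ht.2.1⟩
  have hX : 0 ≤ T * Real.exp (β ^ 2 * st M S) := by positivity
  calc ∫ t in Icc T (2 * T) \ GG T A 400, Nb M S l β t ^ 2
      ≤ ∫ t in {t | ∃ j ∈ F, t ∈ EE T (2 ^ j * A)}, Nb M S l β t ^ 2 := by
        refine setIntegral_mono_set (hi.mono_set ?_)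
          (Eventually.of_forall fun t => sq_nonneg _) (LE.le.eventuallyLE ?_)
        · rintro t ⟨j, -, hj⟩
          exact hsub j hj
        · intro t ht
          rw [mem_ofPred_eq, hF]
          exact cover hT3 hA ht
    _ ≤ ∑ j ∈ F, ∫ t in EE T (2 ^ j * A), Nb M S l β t ^ 2 :=
        int_sum (fun t => sq_nonneg _) hi _ hsub F
    _ ≤ ∑ j ∈ F, C * Real.exp (-(2 ^ j * A / 200)) * (T * Real.exp (β ^ 2 * st M S)) := by
        refine Finset.sum_le_sum fun j hj => ?_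
        rw [hF, Finset.mem_filter] at hj
        refine h T hT ε c η M S l y hε hε1 hsys β hβ hβB (2 ^ j * A) ?_ hj.2
        exact one_le_mul_of_one_le_of_one_le (one_le_pow₀ (by norm_num)) hA
    _ = C * (∑ j ∈ F, Real.exp (-(2 ^ j * A / 200))) * (T * Real.exp (β ^ 2 * st M S)) := by
        rw [Finset.mul_sum, Finset.sum_mul]
    _ ≤ C * (1 / (1 - Real.exp (-(1 / 200))) * Real.exp (-(A / 200))) *
          (T * Real.exp (β ^ 2 * st M S)) := by
        refine mul_le_mul_of_nonneg_right ?_ hX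
        exact mul_le_mul_of_nonneg_left (geo hA F) (by linarith)
    _ = _ := by ring

end Pool.Agent.Work.MP_56b8f5_nt.HZ
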