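import Pool.Agent.Work.MP_56b8f5_nt.HZ.StmtsC

/-!
MP_56b8f5_nt, block HZ, item Em (helper24): Euler product for the majorant.
-/

set_option autoImplicit false

open MeasureTheory Set Filter Topology

noncomputable section

namespace Pool.Agent.Work.MP_56b8f5_nt.HZ

open Pool.Agent.Work.MP_56b8f5_nt.EM Pool.Agent.Work.MP_56b8f5_nt.WM Pool.Agent.Work.MP_56b8f5_nt.SH
open Pool.Agent.Work.MP_56b8f5_nt.HZG

namespace I_Em

/-! ### the functions `pe` and `fp` -/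

lemma pe_one (a : ℕ → ℝ) : pe a 1 = 1 := by
  unfold pe
  rw [if_neg one_ne_zero, Nat.factorization_one, Finsupp.prod_zero_index]

lemma pe_pow (a : ℕ → ℝ) {p : ℕ} (hp : p.Prime) (v : ℕ) :
    pe a (p ^ v) = a p ^ v / (v.factorial : ℝ) := by
  unfold pe
  rw [if_neg (pow_ne_zero _ hp.ne_zero), hp.factorization_pow, Finsupp.prod_single_index]
  simp

lemma pe_mul (a : ℕ → ℝ) {m n : ℕ} (h : Nat.Coprime m n) : pe a (m * n) = pe a m * pe a n := by
  rcases Nat.eq_zero_or_pos m with hm | hm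
  · subst hm
    rw [zero_mul]
    unfold pe
    rw [if_pos rfl, zero_mul]
  rcases Nat.eq_zero_or_pos n with hn | hn
  · subst hn
    rw [mul_zero]
    unfold pe
    rw [if_pos rfl, mul_zero]
  unfold pe
  rw [if_neg (Nat.mul_pos hm hn).ne', if_neg hm.ne', if_neg hn.ne',
    Nat.factorization_mul hm.ne' hn.ne', Finsupp.prod_add_index_of_disjoint]
  simpa using h.disjoint_primeFactors

/-- `fp c` as an arithmetic function -/
def fA (c : ℕ → ℝ) : ArithmeticFunction ℝ := ⟨fun n => if n = 0 then 0 else fp c n, if_pos rfl⟩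

lemma fA_apply (c : ℕ → ℝ) (n : ℕ) : fA c n = if n = 0 then 0 else fp c n := rfl

lemma fA_mult (c : ℕ → ℝ) : (fA c).IsMultiplicative := by
  refine ⟨?_, fun {m n} hmn => ?_⟩
  · rw [fA_apply, if_neg one_ne_zero]
    simp [fp]
  · rcases Nat.eq_zero_or_pos m with hm | hm
    · subst hm
      rw [zero_mul, fA_apply, if_pos rfl, zero_mul]
    rcases Nat.eq_zero_or_pos n with hn | hn
    · subst hn
      rw [mul_zero, fA_apply, if_pos rfl, mul_zero]
    rw [fA_apply, fA_apply, fA_apply, if_neg (Nat.mul_pos hm hn).ne', if_neg hm.ne', if_neg hn.ne']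
    unfold fp
    rw [hmn.primeFactors_mul, Finset.prod_union hmn.disjoint_primeFactors]

lemma pa_mult (b : ℕ → ℝ) : (pa b).IsMultiplicative :=
  ⟨pe_one b, fun {_ _} hmn => pe_mul b hmn⟩

/-- the convolution -/
def hh (c b : ℕ → ℝ) (n : ℕ) : ℝ := ∑ d ∈ n.divisors, fp c d * pe b (n / d)

lemma hh_eq (c b : ℕ → ℝ) (n : ℕ) : hh c b n = (fA c * pa b) n := by
  rw [ArithmeticFunction.mul_apply,
    Nat.sum_divisorsAntidiagonal (f := fun x y => fA c x * pa b y)]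
  refine Finset.sum_congr rfl fun d hd => ?_
  rw [fA_apply, if_neg (Nat.pos_of_mem_divisors hd).ne']
  rfl

lemma hh_one (c b : ℕ → ℝ) : hh c b 1 = 1 := by
  rw [hh_eq]
  exact ((fA_mult c).mul (pa_mult b)).1

lemma hh_mul (c b : ℕ → ℝ) {m n : ℕ} (h : Nat.Coprime m n) :
    hh c b (m * n) = hh c b m * hh c b n := by
  rw [hh_eq, hh_eq, hh_eq]
  exact ((fA_mult c).mul (pa_mult b)).2 h

lemma fp_pow (c : ℕ → ℝ) {p : ℕ} (hp : p.Prime) (x : ℕ) :
    fp c (p ^ x) = if x = 0 then 1 else c p := by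
  unfold fp
  split_ifs with h
  · rw [h, pow_zero, Nat.primeFactors_one, Finset.prod_empty]
  · rw [Nat.primeFactors_prime_pow h hp, Finset.prod_singleton]

lemma hh_pow (c b : ℕ → ℝ) {p : ℕ} (hp : p.Prime) (v : ℕ) :
    hh c b (p ^ v) = ∑ x ∈ Finset.range (v + 1), (if x = 0 then 1 else c p) *
      (b p ^ (v - x) / ((v - x).factorial : ℝ)) := by
  unfold hh
  rw [Nat.sum_divisors_prime_pow hp]
  refine Finset.sum_congr rfl fun x hx => ?_
  have hxv : x ≤ v := Nat.lt_succ_iff.1 (Finset.mem_range.1 hx)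
  rw [fp_pow c hp, Nat.pow_div hxv hp.pos, pe_pow b hp]

lemma hh_p (c b : ℕ → ℝ) {p : ℕ} (hp : p.Prime) : hh c b p = b p + c p := by
  have h := hh_pow c b hp 1
  rw [pow_one] at h
  rw [h, Finset.sum_range_succ, Finset.sum_range_one]
  simp

variable {c b : ℕ → ℝ} {B : ℝ}

lemma hh_pow_nonneg (hc : ∀ p, 0 ≤ c p) (hb : ∀ p, 0 ≤ b p) {p : ℕ} (hp : p.Prime) (v : ℕ) :
    0 ≤ hh c b (p ^ v) := by
  rw [hh_pow c b hp]
  refine Finset.sum_nonneg fun x _ => mul_nonneg ?_ (div_nonneg (pow_nonneg (hb p) _) (by positivity))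
  split_ifs
  · exact zero_le_one
  · exact hc p

lemma hh_pow_le (hc2 : ∀ p, c p ≤ 2) (hb : ∀ p, 0 ≤ b p) (hbB : ∀ p, b p ≤ B) {p : ℕ}
    (hp : p.Prime) (v : ℕ) : hh c b (p ^ v) ≤ 2 * Real.exp B := by
  rw [hh_pow c b hp]
  calc ∑ x ∈ Finset.range (v + 1), (if x = 0 then 1 else c p) *
        (b p ^ (v - x) / ((v - x).factorial : ℝ))
      ≤ ∑ x ∈ Finset.range (v + 1), 2 * (b p ^ (v - x) / ((v - x).factorial : ℝ)) := by
        refine Finset.sum_le_sum fun x _ => mul_le_mul_of_nonneg_right ?_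
          (div_nonneg (pow_nonneg (hb p) _) (by positivity))
        split_ifs
        · norm_num
        · exact hc2 p
    _ = 2 * ∑ x ∈ Finset.range (v + 1), b p ^ x / (x.factorial : ℝ) := by
        rw [← Finset.mul_sum]
        congr 1
        have := Finset.sum_range_reflect (fun x => b p ^ x / (x.factorial : ℝ)) (v + 1)
        rw [← this]
        refine Finset.sum_congr rfl fun x _ => ?_
        have : v + 1 - 1 - x = v - x := by omega
        rw [this]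
    _ ≤ 2 * Real.exp (b p) := by
        have := Real.sum_le_exp_of_nonneg (hb p) (v + 1)
        linarith
    _ ≤ 2 * Real.exp B := by
        have := Real.exp_le_exp.2 (hbB p)
        linarith

/-- the summand -/
def ff (c b : ℕ → ℝ) (n : ℕ) : ℝ := hh c b n ^ 2 / (n : ℝ)

lemma ff_one (c b : ℕ → ℝ) : ff c b 1 = 1 := by
  unfold ff
  rw [hh_one]
  simp

lemma ff_mul (c b : ℕ → ℝ) {m n : ℕ} (h : Nat.Coprime m n) :
    ff c b (m * n) = ff c b m * ff c b n := by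
  unfold ff
  rw [hh_mul c b h, mul_pow, Nat.cast_mul, mul_div_mul_comm]

lemma ff_nonneg (c b : ℕ → ℝ) (n : ℕ) : 0 ≤ ff c b n := by
  unfold ff
  positivity

lemma ff_pow_le (hc : ∀ p, 0 ≤ c p) (hc2 : ∀ p, c p ≤ 2) (hb : ∀ p, 0 ≤ b p) (hbB : ∀ p, b p ≤ B)
    {p : ℕ} (hp : p.Prime) (v : ℕ) :
    ff c b (p ^ v) ≤ 4 * Real.exp (2 * B) * (1 / (p : ℝ)) ^ v := by
  unfold ff
  have h1 := hh_pow_le hc2 hb hbB hp v
  have h2 : hh c b (p ^ v) ^ 2 ≤ (2 * Real.exp B) ^ 2 :=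
    pow_le_pow_left₀ (hh_pow_nonneg hc hb hp v) h1 2
  have h3 : (2 * Real.exp B) ^ 2 = 4 * Real.exp (2 * B) := by
    rw [mul_pow, ← Real.exp_nat_mul]
    norm_num
  rw [h3] at h2
  rw [Nat.cast_pow, one_div, inv_pow, div_eq_mul_inv]
  exact mul_le_mul_of_nonneg_right h2 (by positivity)

lemma ff_summable (hc : ∀ p, 0 ≤ c p) (hc2 : ∀ p, c p ≤ 2) (hb : ∀ p, 0 ≤ b p)
    (hbB : ∀ p, b p ≤ B) {p : ℕ} (hp : p.Prime) : Summable fun v : ℕ => ff c b (p ^ v) := by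
  have hp1 : (1 : ℝ) < p := by exact_mod_cast hp.one_lt
  refine Summable.of_nonneg_of_le (fun v => ff_nonneg c b _)
    (fun v => ff_pow_le hc hc2 hb hbB hp v) ?_
  exact (summable_geometric_of_lt_one (by positivity)
    ((div_lt_one (by linarith)).2 hp1)).mul_left _

lemma ff_tsum_le (hc : ∀ p, 0 ≤ c p) (hc2 : ∀ p, c p ≤ 2) (hb : ∀ p, 0 ≤ b p)
    (hbB : ∀ p, b p ≤ B) {p : ℕ} (hp : p.Prime) :
    ∑' v : ℕ, ff c b (p ^ v) ≤
      Real.exp (b p ^ 2 / p + (2 + 2 * B) * (c p / p) + 8 * Real.exp (2 * B) * (1 / (p : ℝ) ^ 2)) := by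
  have hp2 : (2 : ℝ) ≤ p := by exact_mod_cast hp.two_le
  have hp0 : (0 : ℝ) < p := by linarith
  have hS := ff_summable hc hc2 hb hbB hp
  rw [← hS.sum_add_tsum_nat_add 2, Finset.sum_range_succ, Finset.sum_range_one, pow_zero, pow_one,
    ff_one]
  have h1 : ff c b p = (b p + c p) ^ 2 / p := by
    unfold ff
    rw [hh_p c b hp]
  have hr : (1 / (p : ℝ)) ≤ 1 / 2 := by
    rw [div_le_div_iff₀ hp0 (by norm_num)]
    linarith
  have hr0 : 0 < 1 / (p : ℝ) := by positivity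
  have hgeo : HasSum (fun v : ℕ => 4 * Real.exp (2 * B) * (1 / (p : ℝ)) ^ (v + 2))
      (4 * Real.exp (2 * B) * ((1 / (p : ℝ)) ^ 2 * (1 - 1 / (p : ℝ))⁻¹)) := by
    have h2 : HasSum (fun v : ℕ => 4 * Real.exp (2 * B) * (1 / (p : ℝ)) ^ 2 * (1 / (p : ℝ)) ^ v)
        (4 * Real.exp (2 * B) * (1 / (p : ℝ)) ^ 2 * (1 - 1 / (p : ℝ))⁻¹) :=
      (hasSum_geometric_of_lt_one hr0.le (by linarith : 1 / (p : ℝ) < 1)).mul_left _
    have e1 : (fun v : ℕ => 4 * Real.exp (2 * B) * (1 / (p : ℝ)) ^ (v + 2)) =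
        fun v : ℕ => 4 * Real.exp (2 * B) * (1 / (p : ℝ)) ^ 2 * (1 / (p : ℝ)) ^ v := by
      funext v
      rw [pow_add]
      ring
    rw [e1, ← mul_assoc]
    exact h2
  have h3 : ∑' v : ℕ, ff c b (p ^ (v + 2)) ≤
      4 * Real.exp (2 * B) * ((1 / (p : ℝ)) ^ 2 * (1 - 1 / (p : ℝ))⁻¹) := by
    rw [← hgeo.tsum_eq]
    exact Summable.tsum_le_tsum (fun v => ff_pow_le hc hc2 hb hbB hp (v + 2))
      ((summable_nat_add_iff 2).2 hS) hgeo.summable
  have h4 : (1 - 1 / (p : ℝ))⁻¹ ≤ 2 := by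
    rw [inv_le_comm₀ (by linarith) (by norm_num)]
    linarith
  have h5 : 4 * Real.exp (2 * B) * ((1 / (p : ℝ)) ^ 2 * (1 - 1 / (p : ℝ))⁻¹) ≤
      8 * Real.exp (2 * B) * (1 / (p : ℝ) ^ 2) := by
    have h6 : (1 / (p : ℝ)) ^ 2 * (1 - 1 / (p : ℝ))⁻¹ ≤ (1 / (p : ℝ)) ^ 2 * 2 :=
      mul_le_mul_of_nonneg_left h4 (by positivity)
    have h7 : (1 / (p : ℝ)) ^ 2 = 1 / (p : ℝ) ^ 2 := by rw [div_pow, one_pow]
    have h8 := mul_le_mul_of_nonneg_left h6 (by positivity : (0 : ℝ) ≤ 4 * Real.exp (2 * B))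
    rw [h7] at h8 ⊢
    linarith
  have h9 : (b p + c p) ^ 2 / p ≤ b p ^ 2 / p + (2 + 2 * B) * (c p / p) := by
    have h10 : (b p + c p) ^ 2 ≤ b p ^ 2 + (2 + 2 * B) * c p := by
      have e1 : b p * c p ≤ B * c p := mul_le_mul_of_nonneg_right (hbB p) (hc p)
      have e2 : c p * c p ≤ 2 * c p := mul_le_mul_of_nonneg_right (hc2 p) (hc p)
      have e3 : (b p + c p) ^ 2 = b p ^ 2 + 2 * (b p * c p) + c p * c p := by ring
      rw [e3]
      linarith
    calc (b p + c p) ^ 2 / p ≤ (b p ^ 2 + (2 + 2 * B) * c p) / p :=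
          div_le_div_of_nonneg_right h10 hp0.le
      _ = b p ^ 2 / p + (2 + 2 * B) * (c p / p) := by ring
  rw [h1]
  calc 1 + (b p + c p) ^ 2 / p + ∑' v : ℕ, ff c b (p ^ (v + 2))
      ≤ (b p ^ 2 / p + (2 + 2 * B) * (c p / p) + 8 * Real.exp (2 * B) * (1 / (p : ℝ) ^ 2)) + 1 := by
        linarith
    _ ≤ _ := Real.add_one_le_exp _

lemma sum_sq_aux (n : ℕ) :
    ∑ k ∈ Finset.range (n + 1), 1 / ((k : ℝ) + 1) ^ 2 ≤ 2 - 1 / ((n : ℝ) + 1) := by
  induction n with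
  | zero => norm_num
  | succ n ih =>
    rw [Finset.sum_range_succ]
    have hn : (0 : ℝ) ≤ n := Nat.cast_nonneg n
    push_cast
    have h2 : 1 / ((n : ℝ) + 1 + 1) ^ 2 ≤ 1 / ((n : ℝ) + 1) - 1 / ((n : ℝ) + 1 + 1) := by
      rw [div_sub_div _ _ (by positivity) (by positivity),
        div_le_div_iff₀ (by positivity) (by positivity)]
      nlinarith
    linarith

lemma sum_sq_le (Y : ℕ) : ∑ p ∈ pr Y, 1 / (p : ℝ) ^ 2 ≤ 2 := by
  have h1 : ∑ p ∈ pr Y, 1 / (p : ℝ) ^ 2 ≤ ∑ n ∈ Finset.range (Y + 1), 1 / (n : ℝ) ^ 2 :=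
    Finset.sum_le_sum_of_subset_of_nonneg (Finset.filter_subset _ _)
      fun n _ _ => by positivity
  refine h1.trans ?_
  rw [Finset.sum_range_succ']
  rcases Y with _ | Y
  · norm_num
  · have h2 := sum_sq_aux Y
    have h3 : (0 : ℝ) ≤ 1 / ((Y : ℝ) + 1) := by positivity
    have h4 : ∑ k ∈ Finset.range (Y + 1), 1 / (((k + 1 : ℕ) : ℝ)) ^ 2 =
        ∑ k ∈ Finset.range (Y + 1), 1 / ((k : ℝ) + 1) ^ 2 :=
      Finset.sum_congr rfl fun k _ => by push_cast; rfl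
    have h5 : 1 / (((0 : ℕ) : ℝ)) ^ 2 = 0 := by norm_num
    rw [h4, h5, add_zero]
    linarith

lemma smo_iff (Y n : ℕ) : Smo Y n ↔ n ∈ (Y + 1).smoothNumbers := by
  constructor
  · rintro ⟨-, h⟩
    rw [Nat.mem_smoothNumbers']
    exact fun p hp hd => Nat.lt_succ_of_le (h p hp hd)
  · intro h
    refine ⟨Nat.ne_zero_of_mem_smoothNumbers h, fun p hp hd => ?_⟩
    rw [Nat.mem_smoothNumbers'] at h
    exact Nat.lt_succ_iff.1 (h p hp hd)

end I_Em

open I_Em in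
/-- **Em.** -/
theorem Em_pf : S_Em := by
  classical
  intro B hB
  refine ⟨Real.exp (16 * Real.exp (2 * B)), Real.one_le_exp (by positivity),
    fun Y c S₀ β hc hS₀ hβ hβB => ?_⟩
  set b : ℕ → ℝ := fun p => if p ∈ S₀ then β else 0 with hb
  have hc0 : ∀ p, 0 ≤ c p := fun p => (hc p).1
  have hc2 : ∀ p, c p ≤ 2 := fun p => (hc p).2
  have hb0 : ∀ p, 0 ≤ b p := by
    intro p
    rw [hb]
    dsimp only
    split_ifs
    · exact hβ
    · exact le_rfl
  have hbB : ∀ p, b p ≤ B := by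
    intro p
    rw [hb]
    dsimp only
    split_ifs
    · exact hβB
    · exact hB
  obtain ⟨-, hS⟩ := EulerProduct.summable_and_hasSum_smoothNumbers_prod_primesBelow_tsum
    (f := ff c b) (ff_one c b) (fun {m n} h => ff_mul c b h) (fun {p} hp => by
      refine (ff_summable hc0 hc2 hb0 hbB hp).congr fun n => ?_
      rw [Real.norm_of_nonneg (ff_nonneg c b _)]) (Y + 1)
  have hS' : HasSum (fun n : ℕ => (open Classical in if Smo Y n then
      (∑ d ∈ n.divisors, fp c d * pe b (n / d)) ^ 2 / (n : ℝ) else 0))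
      (∏ p ∈ (Y + 1).primesBelow, ∑' v : ℕ, ff c b (p ^ v)) := by
    have h1 : HasSum ((Y + 1).smoothNumbers.indicator (ff c b)) _ :=
      hasSum_subtype_iff_indicator.1 (show HasSum (ff c b ∘ Subtype.val) _ from hS)
    have e1 : (fun n : ℕ => (open Classical in if Smo Y n then
        (∑ d ∈ n.divisors, fp c d * pe b (n / d)) ^ 2 / (n : ℝ) else 0)) =
        (Y + 1).smoothNumbers.indicator (ff c b) := by
      funext n
      by_cases h : n ∈ (Y + 1).smoothNumbers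
      · rw [if_pos ((smo_iff Y n).2 h), Set.indicator_of_mem h]
        rfl
      · rw [if_neg (fun h' => h ((smo_iff Y n).1 h')), Set.indicator_of_notMem h]
    rw [e1]
    exact h1
  refine ⟨hS'.summable, ?_⟩
  rw [hS'.tsum_eq]
  have hprod : ∏ p ∈ (Y + 1).primesBelow, ∑' v : ℕ, ff c b (p ^ v) ≤
      ∏ p ∈ pr Y, Real.exp (b p ^ 2 / p + (2 + 2 * B) * (c p / p) +
        8 * Real.exp (2 * B) * (1 / (p : ℝ) ^ 2)) := by
    refine Finset.prod_le_prod (fun p _ => tsum_nonneg fun v => ff_nonneg c b _) fun p hp => ?_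
    exact ff_tsum_le hc0 hc2 hb0 hbB (Finset.mem_filter.1 hp).2
  refine hprod.trans ?_
  rw [← Real.exp_sum, ← Real.exp_add]
  refine Real.exp_le_exp.2 ?_
  rw [Finset.sum_add_distrib, Finset.sum_add_distrib, ← Finset.mul_sum, ← Finset.mul_sum]
  have hsub : S₀ ⊆ pr Y := fun p hp => by
    unfold pr
    rw [Finset.mem_filter, Finset.mem_range]
    exact ⟨Nat.lt_succ_of_le (hS₀ p hp).2, (hS₀ p hp).1⟩
  have hbs : ∑ p ∈ pr Y, b p ^ 2 / (p : ℝ) = β ^ 2 * ∑ p ∈ S₀, 1 / (p : ℝ) := by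
    rw [Finset.mul_sum]
    have h1 : ∀ p ∈ pr Y, b p ^ 2 / (p : ℝ) = if p ∈ S₀ then β ^ 2 * (1 / (p : ℝ)) else 0 := by
      intro p _
      rw [hb]
      dsimp only
      split_ifs
      · ring
      · simp
    rw [Finset.sum_congr rfl h1, Finset.sum_ite_mem, Finset.inter_eq_right.2 hsub]
  rw [hbs]
  have h2 := sum_sq_le Y
  have h3 : 8 * Real.exp (2 * B) * ∑ p ∈ pr Y, 1 / (p : ℝ) ^ 2 ≤ 8 * Real.exp (2 * B) * 2 :=
    mul_le_mul_of_nonneg_left h2 (by positivity)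
  linarith

end Pool.Agent.Work.MP_56b8f5_nt.HZ
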