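import Pool.Agent.Work.MP_56b8f5_nt.HZ.StmtsC
import Pool.Agent.Work.MP_37bd4f_nt.ZetaApprox

/-!
MP_56b8f5_nt, block HZ, item Gro: growth of `(zeta M - 1) Qt`.
-/

set_option autoImplicit false

open MeasureTheory Set Filter Topology

noncomputable section

namespace Pool.Agent.Work.MP_56b8f5_nt.HZ

open Pool.Agent.Work.MP_56b8f5_nt.EM Pool.Agent.Work.MP_56b8f5_nt.WM Pool.Agent.Work.MP_56b8f5_nt.SH
open Pool.Agent.Work.MP_56b8f5_nt.HZG

namespace I_Gro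

lemma Ds_diff (N : ℕ) (D : ℕ → ℂ) : Differentiable ℂ (fun s => Ds N D s) := by
  unfold Ds
  refine Differentiable.fun_sum fun n hn => ?_
  have hn1 : (n : ℂ) ≠ 0 := by
    have := (Finset.mem_Icc.1 hn).1
    exact_mod_cast (by omega : n ≠ 0)
  refine (differentiable_const _).mul ?_
  exact (differentiable_id.neg).const_cpow (Or.inl hn1)

lemma Ds_norm (N : ℕ) (D : ℕ → ℂ) (s : ℂ) :
    ‖Ds N D s‖ ≤ ∑ n ∈ Finset.Icc 1 N, ‖D n‖ * (n : ℝ) ^ (-s.re) := by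
  unfold Ds
  refine (norm_sum_le _ _).trans (le_of_eq ?_)
  refine Finset.sum_congr rfl fun n hn => ?_
  have hn1 : 0 < n := (Finset.mem_Icc.1 hn).1
  rw [norm_mul, Complex.norm_natCast_cpow_of_pos hn1, Complex.neg_re]

lemma MM_norm {P : ℝ → ℝ} {K : ℝ} (hK : ∀ x, |P x| ≤ K) {T : ℝ} (hT : 1 ≤ T) {s : ℂ}
    (hs : 0 ≤ s.re) : ‖MM P (T ^ (1 / 10 : ℝ)) s‖ ≤ K * T := by
  have hK0 : 0 ≤ K := (abs_nonneg _).trans (hK 0)
  have hT0 : 0 < T := by linarith
  have hY0 : 0 ≤ T ^ (1 / 10 : ℝ) := Real.rpow_nonneg hT0.le _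
  have hYT : T ^ (1 / 10 : ℝ) ≤ T := by
    calc T ^ (1 / 10 : ℝ) ≤ T ^ (1 : ℝ) := Real.rpow_le_rpow_of_exponent_le hT (by norm_num)
      _ = T := Real.rpow_one T
  unfold MM
  refine (Ds_norm _ _ _).trans ?_
  calc ∑ n ∈ Finset.Icc 1 ⌊T ^ (1 / 10 : ℝ)⌋₊, ‖muP P (T ^ (1 / 10 : ℝ)) n‖ * (n : ℝ) ^ (-s.re)
      ≤ ∑ n ∈ Finset.Icc 1 ⌊T ^ (1 / 10 : ℝ)⌋₊, K := by
        refine Finset.sum_le_sum fun n hn => ?_
        have hn1 : (1 : ℝ) ≤ n := by exact_mod_cast (Finset.mem_Icc.1 hn).1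
        have h1 : (n : ℝ) ^ (-s.re) ≤ 1 := Real.rpow_le_one_of_one_le_of_nonpos hn1 (by linarith)
        have h2 : ‖muP P (T ^ (1 / 10 : ℝ)) n‖ ≤ K := by
          unfold muP
          rw [norm_mul, Complex.norm_real, Real.norm_eq_abs]
          have h3 : ‖((ArithmeticFunction.moebius n : ℤ) : ℂ)‖ ≤ 1 := by
            rw [Complex.norm_intCast]
            have := ArithmeticFunction.abs_moebius_le_one (n := n)
            exact_mod_cast this
          calc ‖((ArithmeticFunction.moebius n : ℤ) : ℂ)‖ *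
              |P (Real.log n / Real.log (T ^ (1 / 10 : ℝ)))| ≤ 1 * K :=
                mul_le_mul h3 (hK _) (abs_nonneg _) zero_le_one
            _ = K := one_mul K
        calc ‖muP P (T ^ (1 / 10 : ℝ)) n‖ * (n : ℝ) ^ (-s.re) ≤ K * 1 :=
              mul_le_mul h2 h1 (Real.rpow_nonneg (by linarith) _) hK0
          _ = K := mul_one K
    _ = ⌊T ^ (1 / 10 : ℝ)⌋₊ * K := by
        rw [Finset.sum_const, Nat.card_Icc, nsmul_eq_mul]
        simp
    _ ≤ T * K := mul_le_mul_of_nonneg_right ((Nat.floor_le hY0).trans hYT) hK0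
    _ = K * T := mul_comm _ _

lemma Qt_norm {M : ℕ} {S : ℕ → Finset ℕ} {l : ℕ → ℕ} {β T : ℝ} {N : ℕ} {q : ℕ → ℝ}
    (hq : IsQ M S l β (2 * T) N q) (hT : 1 ≤ T) {b τ : ℝ} (hb : b ≤ 3 / 2) {s : ℂ}
    (hs : 1 / 2 ≤ s.re) : ‖Ds N (qt q b τ) s‖ ≤ 4 * T ^ 2 := by
  have hT2 : 1 ≤ 2 * T := by linarith
  have hN : (N : ℝ) ≤ 2 * T := by
    rcases Nat.eq_zero_or_pos N with h | h
    · rw [h]
      push_cast
      linarith
    · have hN1 : (1 : ℝ) ≤ N := by exact_mod_cast h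
      calc (N : ℝ) = (N : ℝ) ^ 1 := (pow_one _).symm
        _ ≤ (N : ℝ) ^ 100 := pow_le_pow_right₀ hN1 (by norm_num)
        _ ≤ 2 * T := hq.len
  have hsum : ∑ n ∈ Finset.Icc 1 N, q n ≤ 2 * T := by
    refine hq.sum.trans ?_
    calc (2 * T) ^ (1 / 50 : ℝ) ≤ (2 * T) ^ (1 : ℝ) :=
          Real.rpow_le_rpow_of_exponent_le hT2 (by norm_num)
      _ = 2 * T := Real.rpow_one _
  refine (Ds_norm _ _ _).trans ?_
  calc ∑ n ∈ Finset.Icc 1 N, ‖qt q b τ n‖ * (n : ℝ) ^ (-s.re)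
      ≤ ∑ n ∈ Finset.Icc 1 N, q n * (2 * T) := by
        refine Finset.sum_le_sum fun n hn => ?_
        obtain ⟨hn1, hn2⟩ := Finset.mem_Icc.1 hn
        have hn1' : (1 : ℝ) ≤ n := by exact_mod_cast hn1
        have hn0 : (0 : ℝ) < n := by linarith
        have hnN : (n : ℝ) ≤ N := by exact_mod_cast hn2
        unfold qt
        rw [norm_mul, Complex.norm_real, Real.norm_eq_abs, abs_of_nonneg (hq.nonneg n),
          Complex.norm_natCast_cpow_of_pos hn1, mul_assoc, ← Real.rpow_add hn0]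
        refine mul_le_mul_of_nonneg_left ?_ (hq.nonneg n)
        have hre : ((b : ℂ) - τ * Complex.I).re = b := by simp
        rw [hre]
        calc (n : ℝ) ^ (b + -s.re) ≤ (n : ℝ) ^ (1 : ℝ) :=
              Real.rpow_le_rpow_of_exponent_le hn1' (by linarith)
          _ = n := Real.rpow_one _
          _ ≤ 2 * T := hnN.trans hN
    _ = (∑ n ∈ Finset.Icc 1 N, q n) * (2 * T) := (Finset.sum_mul _ _ _).symm
    _ ≤ (2 * T) * (2 * T) := mul_le_mul_of_nonneg_right hsum (by linarith)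
    _ = 4 * T ^ 2 := by ring

lemma z1_norm {s : ℂ} (h1 : 1 / 2 ≤ s.re) (h2 : s.re ≤ 2) :
    ‖riemannZeta₁ s‖ ≤ 6 * (1 + |s.im|) ^ 2 ∧ ‖s - 1‖ ≤ 1 + |s.im| := by
  have hs : 0 < s.re := by linarith
  have h0 := Pool.Agent.Work.MP_37bd4f_nt.zeta₁_norm_le hs
  have hv : 0 ≤ |s.im| := abs_nonneg _
  have hn : ‖s‖ ≤ 2 * (1 + |s.im|) := by
    have := Complex.norm_le_abs_re_add_abs_im s
    rw [abs_of_pos hs] at this
    linarith
  have hm : ‖s - 1‖ ≤ 1 + |s.im| := by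
    have := Complex.norm_le_abs_re_add_abs_im (s - 1)
    rw [Complex.sub_re, Complex.sub_im, Complex.one_re, Complex.one_im, sub_zero] at this
    have h3 : |s.re - 1| ≤ 1 := abs_le.2 ⟨by linarith, by linarith⟩
    linarith
  refine ⟨?_, hm⟩
  have h4 : ‖s - 1‖ * ‖s‖ / s.re ≤ 2 * ((1 + |s.im|) * (2 * (1 + |s.im|))) := by
    rw [div_le_iff₀ hs]
    have h5 : ‖s - 1‖ * ‖s‖ ≤ (1 + |s.im|) * (2 * (1 + |s.im|)) :=
      mul_le_mul hm hn (norm_nonneg _) (by linarith)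
    have h6 : 0 ≤ (1 + |s.im|) * (2 * (1 + |s.im|)) := by positivity
    nlinarith
  have h7 : (1 + |s.im|) ≤ (1 + |s.im|) ^ 2 := by nlinarith
  nlinarith

end I_Gro

open I_Gro in
theorem Gro_pf : S_Gro := by
  intro P hP
  obtain ⟨K, hK⟩ := hP.smooth.continuous.bounded_above_of_compact_support hP.supp
  have hK' : ∀ x, |P x| ≤ K := fun x => by
    rw [← Real.norm_eq_abs]
    exact hK x
  have hK0 : 0 ≤ K := (abs_nonneg _).trans (hK' 0)
  refine ⟨24 * K + 4, ?_, fun T hT M S l β N q hq b τ hb0 hb => ?_⟩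
  · linarith
  have hT4 : 4 ≤ T := by linarith
  have hT1 : 1 ≤ T := by linarith
  refine ⟨fun s => (riemannZeta₁ s * MM P (T ^ (1 / 10 : ℝ)) s - (s - 1)) * Ds N (qt q b τ) s,
    ?_, fun s h1 h2 => ?_, fun s hs => ?_⟩
  · refine Differentiable.mul (Differentiable.sub (differentiable_riemannZeta₁.mul ?_) ?_)
      (Ds_diff _ _)
    · exact Ds_diff _ _
    · exact differentiable_id.sub_const 1
  · obtain ⟨ha, hc⟩ := z1_norm h1 h2
    have hMM := MM_norm hK' hT1 (show 0 ≤ s.re by linarith)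
    have hQ := Qt_norm hq hT1 (τ := τ) hb h1
    have hv : 0 ≤ |s.im| := abs_nonneg _
    set v := 1 + |s.im| with hvd
    have hv1 : 1 ≤ v := by linarith
    have e1 : ‖riemannZeta₁ s * MM P (T ^ (1 / 10 : ℝ)) s - (s - 1)‖ ≤ (6 * K + 1) * T * v ^ 2 := by
      calc ‖riemannZeta₁ s * MM P (T ^ (1 / 10 : ℝ)) s - (s - 1)‖
          ≤ ‖riemannZeta₁ s * MM P (T ^ (1 / 10 : ℝ)) s‖ + ‖s - 1‖ := norm_sub_le _ _
        _ ≤ 6 * v ^ 2 * (K * T) + v := by
            rw [norm_mul]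
            refine add_le_add (mul_le_mul ha hMM (norm_nonneg _) (by positivity)) hc
        _ ≤ 6 * v ^ 2 * (K * T) + T * v ^ 2 := by
            have : v ≤ v ^ 2 := by nlinarith
            have : v ^ 2 ≤ T * v ^ 2 := by nlinarith [sq_nonneg v]
            linarith
        _ = (6 * K + 1) * T * v ^ 2 := by ring
    rw [norm_mul]
    calc ‖riemannZeta₁ s * MM P (T ^ (1 / 10 : ℝ)) s - (s - 1)‖ * ‖Ds N (qt q b τ) s‖
        ≤ ((6 * K + 1) * T * v ^ 2) * (4 * T ^ 2) := by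
          refine mul_le_mul e1 hQ (norm_nonneg _) (by positivity)
      _ = ((24 * K + 4) * T ^ 3) * v ^ 2 := by ring
      _ ≤ (T * T ^ 3) * v ^ 2 := by
          refine mul_le_mul_of_nonneg_right (mul_le_mul_of_nonneg_right hT (by positivity))
            (by positivity)
      _ = T ^ 4 * v ^ 2 := by ring
      _ ≤ T ^ 10 * v ^ 10 := by
          refine mul_le_mul (pow_le_pow_right₀ hT1 (by norm_num))
            (pow_le_pow_right₀ hv1 (by norm_num)) (by positivity) (by positivity)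
  · have hs0 : s - 1 ≠ 0 := sub_ne_zero.2 hs
    show (riemannZeta s * MM P (T ^ (1 / 10 : ℝ)) s - 1) * Ds N (qt q b τ) s =
      (riemannZeta₁ s * MM P (T ^ (1 / 10 : ℝ)) s - (s - 1)) * Ds N (qt q b τ) s / (s - 1)
    rw [riemannZeta_eq_inv_sub_mul hs]
    field_simp

end Pool.Agent.Work.MP_56b8f5_nt.HZ
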