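import Pool.Agent.Work.MP_56b8f5_nt.HZ.StmtsC

/-!
MP_56b8f5_nt, block HZ, item Kap: one dyadic range of zeros.
-/

set_option autoImplicit false

open MeasureTheory Set Filter Topology

noncomputable section

namespace Pool.Agent.Work.MP_56b8f5_nt.HZ

open Pool.Agent.Work.MP_56b8f5_nt.EM Pool.Agent.Work.MP_56b8f5_nt.WM Pool.Agent.Work.MP_56b8f5_nt.SH
open Pool.Agent.Work.MP_56b8f5_nt.HZG

namespace I_Kap

/-! ### Continuity of the tilt -/

theorem cont_chi (n : ℕ) : Continuous fun t : ℝ => chi t n := by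
  show Continuous fun t : ℝ => (n : ℂ) ^ (-(1 / 2 + (t : ℂ) * Complex.I))
  rcases Nat.eq_zero_or_pos n with rfl | hn
  · have : (fun t : ℝ => ((0 : ℕ) : ℂ) ^ (-(1 / 2 + (t : ℂ) * Complex.I))) = fun _ => 0 := by
      funext t
      rw [Nat.cast_zero, Complex.zero_cpow]
      intro h
      have := congrArg Complex.re h
      norm_num at this
    rw [this]
    exact continuous_const
  · have hn' : (n : ℂ) ≠ 0 := by exact_mod_cast hn.ne'
    exact Continuous.const_cpow (by fun_prop) (Or.inl hn')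

theorem cont_PS (S : Finset ℕ) : Continuous fun t : ℝ => PS S t := by
  unfold PS
  exact continuous_finsetSum _ fun p _ => cont_chi p

theorem cont_TE {f : ℝ → ℂ} (hf : Continuous f) (l : ℕ) : Continuous fun t => TE l (f t) := by
  unfold TE
  exact continuous_finsetSum _ fun i _ => (hf.pow i).div_const _

theorem cont_Nb (M : ℕ) (S : ℕ → Finset ℕ) (l : ℕ → ℕ) (β : ℝ) :
    Continuous fun t => Nb M S l β t := by
  unfold Nb NN
  refine (continuous_finsetProd _ fun j _ => ?_).norm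
  exact (cont_TE (continuous_const.mul (cont_PS _)) _).mul
    (cont_TE (continuous_const.mul (cont_PS _)) _)

/-! ### The detecting function -/

theorem diff_Ds (N : ℕ) (D : ℕ → ℂ) : Differentiable ℂ (Ds N D) := by
  unfold Ds
  refine Differentiable.fun_sum fun n hn => ?_
  have hn' : (n : ℂ) ≠ 0 := by
    have := (Finset.mem_Icc.mp hn).1
    exact_mod_cast (by omega : n ≠ 0)
  intro s
  exact (DifferentiableAt.const_cpow (differentiableAt_id.neg) (Or.inl hn')).const_mul _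

theorem diff_MM (P : ℝ → ℝ) (Y : ℝ) : Differentiable ℂ (MM P Y) := by
  unfold MM
  exact diff_Ds _ _

/-- The detecting function. -/
def ff (P : ℝ → ℝ) (Y : ℝ) (s : ℂ) : ℂ := riemannZeta s * MM P Y s - 1

theorem diff_ff (P : ℝ → ℝ) (Y : ℝ) {s : ℂ} (hs : s ≠ 1) : DifferentiableAt ℂ (ff P Y) s := by
  unfold ff
  exact ((differentiableAt_riemannZeta hs).mul (diff_MM P Y s)).sub_const _

theorem meas_ff (P : ℝ → ℝ) (Y : ℝ) : Measurable (ff P Y) := by
  refine measurable_of_continuousOn_compl_singleton 1 ?_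
  intro s hs
  exact (diff_ff P Y hs).continuousAt.continuousWithinAt

/-! ### The set of heights -/

theorem meas_E (T κ L W : ℝ) : MeasurableSet {t : ℝ | T ≤ t ∧ t ≤ 2 * T ∧ ∃ ρ : ℂ,
    riemannZeta ρ = 0 ∧ ρ.re < 1 ∧ κ < (ρ.re - 1 / 2) * L ∧ (ρ.re - 1 / 2) * L ≤ 2 * κ ∧
      |t - ρ.im| ≤ W} := by
  have hctb : (riemannZetaZeros : Set ℂ).Countable := by
    have : (riemannZetaZeros : Set ℂ) ⊆ ⋃ n : ℕ, Metric.closedBall (0 : ℂ) n ∩ riemannZetaZeros := by
      intro z hz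
      obtain ⟨n, hn⟩ := exists_nat_ge ‖z‖
      exact mem_iUnion.mpr ⟨n, by simpa using hn, hz⟩
    refine Set.Countable.mono this (countable_iUnion fun n => ?_)
    exact (IsCompact.inter_riemannZetaZeros_finite (isCompact_closedBall (0 : ℂ) n)).countable
  have hset : {t : ℝ | T ≤ t ∧ t ≤ 2 * T ∧ ∃ ρ : ℂ,
      riemannZeta ρ = 0 ∧ ρ.re < 1 ∧ κ < (ρ.re - 1 / 2) * L ∧ (ρ.re - 1 / 2) * L ≤ 2 * κ ∧
        |t - ρ.im| ≤ W} = Icc T (2 * T) ∩ ⋃ ρ ∈ {ρ : ℂ | riemannZeta ρ = 0 ∧ ρ.re < 1 ∧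
          κ < (ρ.re - 1 / 2) * L ∧ (ρ.re - 1 / 2) * L ≤ 2 * κ}, {t : ℝ | |t - ρ.im| ≤ W} := by
    ext t
    simp only [mem_setOf_eq, mem_inter_iff, mem_Icc, mem_iUnion, exists_prop]
    constructor
    · rintro ⟨h1, h2, ρ, h3, h4, h5, h6, h7⟩
      exact ⟨⟨h1, h2⟩, ρ, ⟨h3, h4, h5, h6⟩, h7⟩
    · rintro ⟨⟨h1, h2⟩, ρ, ⟨h3, h4, h5, h6⟩, h7⟩
      exact ⟨h1, h2, ρ, h3, h4, h5, h6, h7⟩
  rw [hset]
  refine measurableSet_Icc.inter (MeasurableSet.biUnion ?_ fun ρ _ => ?_)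
  · exact hctb.mono fun ρ hρ => hρ.1
  · exact measurableSet_le (by fun_prop) measurable_const

/-! ### From Bochner to Lebesgue -/

theorem lint_le {F : ℝ → ℝ} (a b K : ℝ) (hab : a ≤ b) (hF : ContinuousOn F (Icc a b))
    (h0 : ∀ v, 0 ≤ F v) (hK : ∫ v in a..b, F v ≤ K) :
    ∫⁻ v in Icc a b, ENNReal.ofReal (F v) ≤ ENNReal.ofReal K := by
  have hint : IntegrableOn F (Icc a b) := hF.integrableOn_compact isCompact_Icc
  rw [← ofReal_integral_eq_lintegral_ofReal hint (Filter.Eventually.of_forall h0)]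
  rw [intervalIntegral.integral_of_le hab, ← integral_Icc_eq_integral_Ioc] at hK
  exact ENNReal.ofReal_le_ofReal hK

theorem exp_bd {κ : ℝ} (h1 : 1 ≤ κ) : Real.exp (κ / 200) + κ / 2 ≤ 101 * Real.exp (κ / 200) := by
  have h := Real.add_one_le_exp (κ / 200)
  linarith

/-- The final computation. -/
theorem fin_bd {κ L C X T : ℝ} (hκ : 1 ≤ κ) (hL : 0 < L) (hC : 0 ≤ C) (hX : 0 ≤ X) (hT : 0 ≤ T) :
    1 / (Real.pi * (κ / (2 * L)) ^ 2) * (2 * (Real.exp (κ / 200) / L + κ / (2 * L)) *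
      (2 * κ / L * (C * T * X * Real.exp (-(κ / 100))))) ≤
      1616 * C * Real.exp (-(κ / 200)) * (T * X) := by
  have hκ0 : 0 < κ := by linarith
  have e1 : 1 / (Real.pi * (κ / (2 * L)) ^ 2) * (2 * (Real.exp (κ / 200) / L + κ / (2 * L)) *
      (2 * κ / L * (C * T * X * Real.exp (-(κ / 100))))) =
      16 / (Real.pi * κ) * (Real.exp (κ / 200) + κ / 2) * (C * (T * X) * Real.exp (-(κ / 100))) := by
    have := Real.pi_ne_zero
    field_simp
    ring
  rw [e1]
  have e2 : 16 / (Real.pi * κ) ≤ 16 := by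
    rw [div_le_iff₀ (mul_pos Real.pi_pos hκ0)]
    have h3 := Real.pi_gt_three
    nlinarith
  have e3 : Real.exp (κ / 200) * Real.exp (-(κ / 100)) = Real.exp (-(κ / 200)) := by
    rw [← Real.exp_add]
    congr 1
    ring
  have h5 := exp_bd hκ
  have hCTX : 0 ≤ C * (T * X) := by positivity
  calc 16 / (Real.pi * κ) * (Real.exp (κ / 200) + κ / 2) * (C * (T * X) * Real.exp (-(κ / 100)))
      ≤ 16 * (101 * Real.exp (κ / 200)) * (C * (T * X) * Real.exp (-(κ / 100))) := by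
        refine mul_le_mul_of_nonneg_right ?_ (by positivity)
        exact mul_le_mul e2 h5 (by positivity) (by norm_num)
    _ = 1616 * C * (Real.exp (κ / 200) * Real.exp (-(κ / 100))) * (T * X) := by ring
    _ = _ := by rw [e3]

end I_Kap

open I_Kap in
/-- **Kap.** -/
theorem Kap_pf (hG2 : HZG.S_G2) (hYb : S_Yb) : S_Kap := by
  intro B hB
  obtain ⟨P, hP, hP1, C, T₀, hC, hT₀, H⟩ := hYb B hB
  refine ⟨1616 * C, max T₀ 10000, by linarith, hT₀.trans (le_max_left _ _), ?_⟩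
  intro T hT ε c η M S l y hε hε1 hsys β hβ hβB κ hκ hκL
  have hTT₀ : T₀ ≤ T := (le_max_left _ _).trans hT
  have hT4 : (10000 : ℝ) ≤ T := (le_max_right _ _).trans hT
  have hT0 : 0 < T := by linarith
  have hκ0 : 0 < κ := by linarith
  set L : ℝ := Real.log T with hLdef
  have hL2 : 2 ≤ L := by linarith
  have hL0 : 0 < L := by linarith
  set X : ℝ := Real.exp (β ^ 2 * st M S) with hXdef
  have hX0 : 0 < X := Real.exp_pos _
  set Y : ℝ := T ^ (1 / 10 : ℝ) with hYdef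
  set r : ℝ := κ / (2 * L) with hrdef
  set W : ℝ := Real.exp (κ / 200) / L with hWdef
  have hr0 : 0 < r := by positivity
  have hr4 : r ≤ 1 / 4 := by
    rw [hrdef, div_le_iff₀ (by positivity)]
    linarith
  have hW0 : 0 < W := by positivity
  have hsqrt : Real.exp (L / 2) * Real.exp (L / 2) = T := by
    rw [← Real.exp_add, add_halves, hLdef, Real.exp_log hT0]
  have hWT : W ≤ T / 100 := by
    have h1 : Real.exp (κ / 200) ≤ Real.exp (L / 2) := Real.exp_le_exp.mpr (by linarith)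
    have h2 : W ≤ Real.exp (L / 2) := by
      rw [hWdef, div_le_iff₀ hL0]
      have := Real.exp_pos (L / 2)
      nlinarith
    have h3 : (100 : ℝ) ≤ Real.exp (L / 2) := by
      by_contra hcon
      push Not at hcon
      have := Real.exp_pos (L / 2)
      nlinarith
    have h4 : Real.exp (L / 2) ≤ T / 100 := by
      rw [le_div_iff₀ (by norm_num)]
      nlinarith
    exact h2.trans h4
  -- the sets
  set E : Set ℝ := {t : ℝ | T ≤ t ∧ t ≤ 2 * T ∧ ∃ ρ : ℂ, riemannZeta ρ = 0 ∧ ρ.re < 1 ∧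
      κ < (ρ.re - 1 / 2) * L ∧ (ρ.re - 1 / 2) * L ≤ 2 * κ ∧ |t - ρ.im| ≤ W} with hEdef
  have hEm : MeasurableSet E := meas_E T κ L W
  set Z : Set ℂ := {ρ : ℂ | riemannZeta ρ = 0 ∧ κ < (ρ.re - 1 / 2) * L ∧
    (ρ.re - 1 / 2) * L ≤ 2 * κ ∧ T / 2 ≤ ρ.im} with hZdef
  have hNc : Continuous fun t => Nb M S l β t := cont_Nb M S l β
  -- G2
  have hmain := hG2 (ff P Y) Z E (Icc (T / 3) (4 * T)) (fun t => ENNReal.ofReal (Nb M S l β t ^ 2))
    r W (1 / 2 + κ / (2 * L)) (1 / 2 + 5 * κ / (2 * L)) hr0 (meas_ff P Y)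
    ((hNc.pow 2).measurable.ennreal_ofReal) hEm measurableSet_Icc ?_ ?_ ?_
  rotate_left
  · -- the discs
    rintro ρ ⟨h1, h2, h3, h4⟩
    have h5 : κ / L < ρ.re - 1 / 2 := by rwa [div_lt_iff₀ hL0]
    have h6 : ρ.re - 1 / 2 ≤ 2 * κ / L := by rwa [le_div_iff₀ hL0]
    have e1 : κ / L = κ / (2 * L) + κ / (2 * L) := by field_simp; ring
    have e2 : 2 * κ / L + κ / (2 * L) = 5 * κ / (2 * L) := by field_simp; ring
    refine ⟨by rw [hrdef]; linarith, by rw [hrdef]; linarith, ?_, ?_⟩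
    · refine DifferentiableOn.diffContOnCl ?_
      rw [closure_ball ρ hr0.ne']
      intro s hs
      refine (diff_ff P Y ?_).differentiableWithinAt
      rintro rfl
      rw [Metric.mem_closedBall, dist_eq_norm] at hs
      have h7 : |((1 : ℂ) - ρ).im| ≤ ‖(1 : ℂ) - ρ‖ := Complex.abs_im_le_norm _
      have h8 : |((1 : ℂ) - ρ).im| = |ρ.im| := by simp
      rw [h8] at h7
      have h9 := le_abs_self ρ.im
      linarith
    · simp [ff, h1]
  · -- every t in E is near a zero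
    rintro t ⟨ht1, ht2, ρ, h1, h2, h3, h4, h5⟩
    refine ⟨ρ, ⟨h1, h3, h4, ?_⟩, h5⟩
    have := (abs_le.mp h5).2
    linarith
  · -- the neighbourhood
    rintro t ⟨ht1, ht2, -⟩ v hv
    have := abs_le.mp hv
    constructor <;> linarith [this.1, this.2]
  -- the inner integrals
  have hin : ∀ τ σ : ℝ, σ ∈ Icc (1 / 2 + κ / (2 * L)) (1 / 2 + 5 * κ / (2 * L)) →
      ∫⁻ v in Icc (T / 3) (4 * T), ENNReal.ofReal (‖ff P Y ((σ : ℂ) + (v : ℂ) * Complex.I)‖ ^ 2) *
        ENNReal.ofReal (Nb M S l β (v + τ) ^ 2) ≤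
      ENNReal.ofReal (C * T * X * Real.exp (-(κ / 100))) := by
    intro τ σ hσ
    have hσ1 : 0 ≤ σ - 1 / 2 := by
      have h1 := hσ.1
      have h2 : 0 < κ / (2 * L) := by positivity
      linarith
    have hσ2 : σ - 1 / 2 ≤ 3 / 2 := by
      have h1 := hσ.2
      have h2 : 5 * κ / (2 * L) ≤ 3 / 2 := by
        rw [div_le_iff₀ (by positivity)]
        linarith
      linarith
    have hY := H T hTT₀ ε c η M S l y hε hε1 hsys β hβ hβB (σ - 1 / 2) τ hσ1 hσ2
    have e1 : ((1 / 2 + (σ - 1 / 2) : ℝ) : ℂ) = (σ : ℂ) := by push_cast; ring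
    rw [e1] at hY
    have hexp : Real.exp (-((σ - 1 / 2) * Real.log T / 50)) ≤ Real.exp (-(κ / 100)) := by
      refine Real.exp_le_exp.mpr ?_
      have h1 := hσ.1
      have h2 : κ / (2 * L) * L = κ / 2 := by field_simp
      have h3 : κ / (2 * L) * L ≤ (σ - 1 / 2) * L := mul_le_mul_of_nonneg_right (by linarith) hL0.le
      rw [← hLdef]
      linarith
    have hY2 : ∫ v in (T / 3)..(4 * T), ‖ff P Y ((σ : ℂ) + (v : ℂ) * Complex.I)‖ ^ 2 *
        Nb M S l β (v + τ) ^ 2 ≤ C * T * X * Real.exp (-(κ / 100)) :=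
      hY.trans (mul_le_mul_of_nonneg_left hexp (by positivity))
    have hab : T / 3 ≤ 4 * T := by linarith
    have hcont : ContinuousOn (fun v : ℝ => ‖ff P Y ((σ : ℂ) + (v : ℂ) * Complex.I)‖ ^ 2 *
        Nb M S l β (v + τ) ^ 2) (Icc (T / 3) (4 * T)) := by
      refine ContinuousOn.mul (ContinuousOn.pow (ContinuousOn.norm ?_) 2)
        ((hNc.comp (continuous_id.add continuous_const)).pow 2).continuousOn
      intro v hv
      refine ContinuousAt.continuousWithinAt ?_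
      have hne : ((σ : ℂ) + (v : ℂ) * Complex.I) ≠ 1 := by
        intro h
        have := congrArg Complex.im h
        simp at this
        have h2 := hv.1
        rw [this] at h2
        linarith
      exact ContinuousAt.comp (f := fun v : ℝ => (σ : ℂ) + (v : ℂ) * Complex.I)
        (diff_ff P Y hne).continuousAt (by fun_prop)
    have := lint_le (T / 3) (4 * T) _ hab hcont (fun v => by positivity) hY2
    refine le_trans (le_of_eq ?_) this
    refine lintegral_congr fun v => ?_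
    rw [ENNReal.ofReal_mul (by positivity)]
  have hin2 : ∀ τ : ℝ, ∫⁻ σ in Icc (1 / 2 + κ / (2 * L)) (1 / 2 + 5 * κ / (2 * L)),
      ∫⁻ v in Icc (T / 3) (4 * T), ENNReal.ofReal (‖ff P Y ((σ : ℂ) + (v : ℂ) * Complex.I)‖ ^ 2) *
        ENNReal.ofReal (Nb M S l β (v + τ) ^ 2) ≤
      ENNReal.ofReal (2 * κ / L * (C * T * X * Real.exp (-(κ / 100)))) := by
    intro τ
    refine (setLIntegral_mono' measurableSet_Icc fun σ hσ => hin τ σ hσ).trans ?_
    rw [setLIntegral_const, Real.volume_Icc, mul_comm, ← ENNReal.ofReal_mul (by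
      have e2 : 1 / 2 + 5 * κ / (2 * L) - (1 / 2 + κ / (2 * L)) = 2 * κ / L := by field_simp; ring
      rw [e2]; positivity)]
    refine ENNReal.ofReal_le_ofReal (le_of_eq ?_)
    have e2 : 1 / 2 + 5 * κ / (2 * L) - (1 / 2 + κ / (2 * L)) = 2 * κ / L := by field_simp; ring
    rw [e2]
  have hin3 : ∫⁻ τ in Icc (-(W + r)) (W + r),
      ∫⁻ σ in Icc (1 / 2 + κ / (2 * L)) (1 / 2 + 5 * κ / (2 * L)),
      ∫⁻ v in Icc (T / 3) (4 * T), ENNReal.ofReal (‖ff P Y ((σ : ℂ) + (v : ℂ) * Complex.I)‖ ^ 2) *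
        ENNReal.ofReal (Nb M S l β (v + τ) ^ 2) ≤
      ENNReal.ofReal (2 * (W + r) * (2 * κ / L * (C * T * X * Real.exp (-(κ / 100))))) := by
    refine (setLIntegral_mono' measurableSet_Icc fun τ _ => hin2 τ).trans ?_
    rw [setLIntegral_const, Real.volume_Icc, mul_comm, ← ENNReal.ofReal_mul (by linarith)]
    refine ENNReal.ofReal_le_ofReal (le_of_eq ?_)
    ring
  have hfin : ∫⁻ t in E, ENNReal.ofReal (Nb M S l β t ^ 2) ≤
      ENNReal.ofReal (1616 * C * Real.exp (-(κ / 200)) * (T * X)) := by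
    refine hmain.trans ((mul_le_mul_right hin3 _).trans ?_)
    rw [← ENNReal.ofReal_mul (by positivity)]
    exact ENNReal.ofReal_le_ofReal (fin_bd hκ hL0 (by linarith) hX0.le hT0.le)
  have hc2 : Continuous fun t => Nb M S l β t ^ 2 := hNc.pow 2
  rw [integral_eq_lintegral_of_nonneg_ae (f := fun t => Nb M S l β t ^ 2)
    (Filter.Eventually.of_forall fun t => sq_nonneg _) hc2.aestronglyMeasurable]
  refine ENNReal.toReal_le_of_le_ofReal (by positivity) hfin

end Pool.Agent.Work.MP_56b8f5_nt.HZ
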