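import Pool.Agent.Work.MP_56b8f5_nt.HZ.StmtsC
import Pool.Agent.Work.MP_56b8f5_nt.WM.I_Sq
import Pool.Agent.Work.MP_56b8f5_nt.WM.I_PeBas
import Pool.Agent.Work.MP_56b8f5_nt.WM.I_PeSum
import Pool.Agent.Work.MP_37bd4f_nt.MeanValue

/-!
MP_56b8f5_nt, block HZ, item Lh: the mean squares on the line `1/2`.
-/

set_option autoImplicit false

open MeasureTheory Set Filter Topology

noncomputable section

namespace Pool.Agent.Work.MP_56b8f5_nt.HZ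

open Pool.Agent.Work.MP_56b8f5_nt.EM Pool.Agent.Work.MP_56b8f5_nt.WM Pool.Agent.Work.MP_56b8f5_nt.SH
open Pool.Agent.Work.MP_56b8f5_nt.HZG

namespace I_Lh

lemma compact {w : ℝ → ℝ} (hw : IsW w) : HasCompactSupport w := by
  obtain ⟨c, hc, hs⟩ := hw.supp
  refine HasCompactSupport.intro (K := Icc c 1) isCompact_Icc ?_
  intro u hu
  by_contra h
  exact hu (hs u h)

lemma az_cont : Continuous az := by
  unfold az
  refine Continuous.norm ?_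
  rw [continuous_iff_continuousAt]
  intro u
  have h1 : ContinuousAt (fun u : ℝ => (1 / 2 + (u : ℂ) * Complex.I : ℂ)) u := by
    fun_prop
  have h2 : (1 / 2 + (u : ℂ) * Complex.I : ℂ) ≠ 1 := by
    intro h
    have := congrArg Complex.re h
    simp at this
  exact ContinuousAt.comp (g := riemannZeta) (f := fun u : ℝ => (1 / 2 + (u : ℂ) * Complex.I : ℂ))
    (differentiableAt_riemannZeta h2).continuousAt h1

lemma Ds_cont (N : ℕ) (D : ℕ → ℂ) : Continuous fun v : ℝ => Ds N D (1 / 2 + (v : ℂ) * Complex.I) := by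
  unfold Ds
  refine continuous_finsetSum _ fun n _ => continuous_const.mul ?_
  refine Continuous.const_cpow (by fun_prop) (Or.inr fun t h => ?_)
  have := congrArg Complex.re h
  simp at this

lemma int_w {w : ℝ → ℝ} (hw : IsW w) {g : ℝ → ℝ} (hg : Continuous g) :
    Integrable fun u : ℝ => w u * g u := by
  refine Continuous.integrable_of_hasCompactSupport (hw.smooth.continuous.mul hg) ?_
  exact (compact hw).mul_right

lemma Ds_ext (N N' : ℕ) (D : ℕ → ℂ) (h : N ≤ N') (hD : ∀ n, D n ≠ 0 → n ≤ N) (s : ℂ) :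
    Ds N D s = Ds N' D s := by
  unfold Ds
  refine Finset.sum_subset (Finset.Icc_subset_Icc_right h) ?_
  intro n hn hn'
  have : D n = 0 := by
    by_contra hc
    exact hn' (Finset.mem_Icc.2 ⟨(Finset.mem_Icc.1 hn).1, hD n hc⟩)
  rw [this, zero_mul]

/-- the mean value theorem on the interval `[T/4, 5T]` -/
lemma mv (N : ℕ) (D : ℕ → ℂ) (T : ℝ) (hT : 0 ≤ T) (hN : (N : ℝ) ^ 2 ≤ 2 * T) :
    ∫ v in (T / 4)..(5 * T), ‖Ds N D (1 / 2 + (v : ℂ) * Complex.I)‖ ^ 2 ≤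
      17 * T * ∑ n ∈ Finset.Icc 1 N, ‖D n‖ ^ 2 / (n : ℝ) := by
  set a : ℕ → ℂ := fun n => D n * (n : ℂ) ^ (-(1 / 2 : ℂ)) with ha
  have h1 : ∀ v : ℝ, Ds N D (1 / 2 + (v : ℂ) * Complex.I) =
      ∑ n ∈ Finset.Icc 1 N, a n * (n : ℂ) ^ (-((v : ℂ) * Complex.I)) := by
    intro v
    unfold Ds
    refine Finset.sum_congr rfl fun n hn => ?_
    have hn1 : 1 ≤ n := (Finset.mem_Icc.1 hn).1
    have hn0 : (n : ℂ) ≠ 0 := by exact_mod_cast (by omega : n ≠ 0)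
    rw [ha]
    simp only
    rw [mul_assoc, ← Complex.cpow_add _ _ hn0]
    congr 2
    ring
  have h2 : ∀ n ∈ Finset.Icc 1 N, ‖a n‖ ^ 2 = ‖D n‖ ^ 2 / (n : ℝ) := by
    intro n hn
    have hn1 : 1 ≤ n := (Finset.mem_Icc.1 hn).1
    have hn0 : (0 : ℝ) < n := by exact_mod_cast (by omega : 0 < n)
    rw [ha]
    simp only
    rw [norm_mul, mul_pow, Complex.norm_natCast_cpow_of_pos (by omega)]
    have h3 : ((n : ℝ) ^ ((-(1 / 2 : ℂ)).re)) ^ 2 = 1 / (n : ℝ) := by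
      have : (-(1 / 2 : ℂ)).re = -(1 / 2 : ℝ) := by norm_num
      rw [this, ← Real.rpow_natCast, ← Real.rpow_mul hn0.le]
      norm_num
      rw [Real.rpow_neg_one]
    rw [h3]
    ring
  have h3 := Pool.Agent.Work.MP_37bd4f_nt.mean_value N a (T1 := T / 4) (T2 := 5 * T) (by linarith)
  have h4 : Pool.Agent.Work.MP_37bd4f_nt.Hs N ≤ N := by
    unfold Pool.Agent.Work.MP_37bd4f_nt.Hs
    calc ∑ n ∈ Finset.Icc 1 N, 1 / (n : ℝ) ≤ ∑ n ∈ Finset.Icc 1 N, (1 : ℝ) := by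
          refine Finset.sum_le_sum fun n hn => ?_
          have hn1 : (1 : ℝ) ≤ n := by exact_mod_cast (Finset.mem_Icc.1 hn).1
          rw [div_le_one (by linarith)]
          exact hn1
      _ = N := by simp
  have h5 : ∑ n ∈ Finset.Icc 1 N, (n : ℝ) * ‖a n‖ ^ 2 ≤ N * ∑ n ∈ Finset.Icc 1 N, ‖a n‖ ^ 2 := by
    rw [Finset.mul_sum]
    refine Finset.sum_le_sum fun n hn => ?_
    have hn1 : (n : ℝ) ≤ N := by exact_mod_cast (Finset.mem_Icc.1 hn).2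
    exact mul_le_mul_of_nonneg_right hn1 (by positivity)
  have h6 : 0 ≤ ∑ n ∈ Finset.Icc 1 N, ‖a n‖ ^ 2 := Finset.sum_nonneg fun n _ => by positivity
  have h7 : 6 * Pool.Agent.Work.MP_37bd4f_nt.Hs N * ∑ n ∈ Finset.Icc 1 N, (n : ℝ) * ‖a n‖ ^ 2 ≤
      12 * T * ∑ n ∈ Finset.Icc 1 N, ‖a n‖ ^ 2 := by
    have hN0 : (0 : ℝ) ≤ N := Nat.cast_nonneg N
    calc 6 * Pool.Agent.Work.MP_37bd4f_nt.Hs N * ∑ n ∈ Finset.Icc 1 N, (n : ℝ) * ‖a n‖ ^ 2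
        ≤ 6 * (N : ℝ) * (N * ∑ n ∈ Finset.Icc 1 N, ‖a n‖ ^ 2) := by
          refine mul_le_mul (by linarith) h5 (Finset.sum_nonneg fun n _ => by positivity)
            (by positivity)
      _ = 6 * (N : ℝ) ^ 2 * ∑ n ∈ Finset.Icc 1 N, ‖a n‖ ^ 2 := by ring
      _ ≤ 6 * (2 * T) * ∑ n ∈ Finset.Icc 1 N, ‖a n‖ ^ 2 := by
          refine mul_le_mul_of_nonneg_right (by linarith) h6
      _ = 12 * T * ∑ n ∈ Finset.Icc 1 N, ‖a n‖ ^ 2 := by ring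
  calc ∫ v in (T / 4)..(5 * T), ‖Ds N D (1 / 2 + (v : ℂ) * Complex.I)‖ ^ 2
      = ∫ v in (T / 4)..(5 * T),
          ‖∑ n ∈ Finset.Icc 1 N, a n * (n : ℂ) ^ (-((v : ℂ) * Complex.I))‖ ^ 2 := by
        simp_rw [h1]
    _ ≤ (5 * T - T / 4) * ∑ n ∈ Finset.Icc 1 N, ‖a n‖ ^ 2 +
        6 * Pool.Agent.Work.MP_37bd4f_nt.Hs N * ∑ n ∈ Finset.Icc 1 N, (n : ℝ) * ‖a n‖ ^ 2 := h3
    _ ≤ 17 * T * ∑ n ∈ Finset.Icc 1 N, ‖a n‖ ^ 2 := by
        have h8 : 0 ≤ T * ∑ n ∈ Finset.Icc 1 N, ‖a n‖ ^ 2 := mul_nonneg hT h6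
        nlinarith
    _ = 17 * T * ∑ n ∈ Finset.Icc 1 N, ‖D n‖ ^ 2 / (n : ℝ) := by
        rw [Finset.sum_congr rfl h2]

lemma qt_le (q : ℕ → ℝ) (b τ : ℝ) (N : ℕ) (hb : 0 ≤ b) (h0 : ∀ n, 0 ≤ q n)
    (hs : ∀ n, q n ≠ 0 → 1 ≤ n ∧ n ≤ N) (n : ℕ) : ‖qt q b τ n‖ ≤ (N : ℝ) ^ b * q n := by
  unfold qt
  by_cases hq : q n = 0
  · simp [hq]
  · obtain ⟨h1, h2⟩ := hs n hq
    rw [norm_mul, Complex.norm_natCast_cpow_of_pos (by omega)]
    have h3 : ((b : ℂ) - (τ : ℂ) * Complex.I).re = b := by simp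
    rw [h3, Complex.norm_real, Real.norm_of_nonneg (h0 n), mul_comm]
    refine mul_le_mul_of_nonneg_right ?_ (h0 n)
    exact Real.rpow_le_rpow (Nat.cast_nonneg n) (by exact_mod_cast h2) hb

lemma qt_ne (q : ℕ → ℝ) (b τ : ℝ) (n : ℕ) (h : qt q b τ n ≠ 0) : q n ≠ 0 := by
  intro hc
  apply h
  simp [qt, hc]

lemma R2 (N : ℕ) (T b : ℝ) (hT : 0 < T) (hN : (N : ℝ) ^ 100 ≤ 2 * T) (hb : 0 ≤ b)
    (hb' : b ≤ 3 / 2) : ((N : ℝ) ^ b) ^ 2 ≤ 2 * T ^ (b / 50) := by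
  have hN0 : (0 : ℝ) ≤ N := Nat.cast_nonneg N
  have h1 : ((N : ℝ) ^ b) ^ 2 = ((N : ℝ) ^ 100) ^ (b / 50) := by
    rw [← Real.rpow_natCast, ← Real.rpow_natCast (N : ℝ) 100, ← Real.rpow_mul hN0,
      ← Real.rpow_mul hN0]
    congr 1
    push_cast
    ring
  rw [h1]
  calc ((N : ℝ) ^ 100) ^ (b / 50) ≤ (2 * T) ^ (b / 50) :=
        Real.rpow_le_rpow (by positivity) hN (by positivity)
    _ = 2 ^ (b / 50) * T ^ (b / 50) := Real.mul_rpow (by norm_num) hT.le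
    _ ≤ 2 * T ^ (b / 50) := by
        refine mul_le_mul_of_nonneg_right ?_ (by positivity)
        calc (2 : ℝ) ^ (b / 50) ≤ 2 ^ (1 : ℝ) :=
              Real.rpow_le_rpow_of_exponent_le (by norm_num) (by linarith)
          _ = 2 := Real.rpow_one 2

lemma sq_sum (q : ℕ → ℝ) (N : ℕ) (S₀ : Finset ℕ) (β : ℝ) (hβ : 0 ≤ β) (h0 : ∀ n, 0 ≤ q n)
    (hp : ∀ p ∈ S₀, p.Prime) (hle : ∀ n, q n ≤ pe (fun p => if p ∈ S₀ then β else 0) n) :
    ∑ n ∈ Finset.Icc 1 N, q n ^ 2 / (n : ℝ) ≤ Real.exp (β ^ 2 * ∑ p ∈ S₀, 1 / (p : ℝ)) := by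
  set a : ℕ → ℝ := fun p => if p ∈ S₀ then β else 0 with ha
  have ha0 : ∀ p, 0 ≤ a p := fun p => by
    rw [ha]
    simp only
    split_ifs
    · exact hβ
    · exact le_rfl
  have hz : ∀ p, S₀.sup id < p → a p = 0 := by
    intro p hp'
    have : p ∉ S₀ := fun h => absurd (Finset.le_sup (f := id) h) (by simpa using hp')
    simp [ha, this]
  have h1 := Sq_pf PeBas_pf PeSum_pf a q (S₀.sup id) N ha0 hz h0 hle
  have h2 : ∑ n ∈ Finset.Icc 1 N, q n ^ 2 / (n : ℝ) ≤ Q2 q N := by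
    unfold Q2
    refine Finset.sum_le_sum_of_subset_of_nonneg ?_ fun n _ _ => by positivity
    intro n hn
    rw [Finset.mem_range]
    have := (Finset.mem_Icc.1 hn).2
    omega
  have h3 : ∑ p ∈ pr (S₀.sup id), a p ^ 2 / (p : ℝ) = β ^ 2 * ∑ p ∈ S₀, 1 / (p : ℝ) := by
    rw [Finset.mul_sum]
    have hsub : S₀ ⊆ pr (S₀.sup id) := by
      intro p hp'
      unfold pr
      rw [Finset.mem_filter, Finset.mem_range]
      have := Finset.le_sup (f := id) hp'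
      simp only [id] at this
      exact ⟨by omega, hp p hp'⟩
    rw [← Finset.sum_subset hsub]
    · refine Finset.sum_congr rfl fun p hp' => ?_
      simp only [ha, if_pos hp']
      ring
    · intro p _ hp'
      simp [ha, hp']
  rw [← h3]
  exact h2.trans h1

/-- sums of absolute values -/
lemma sum_cvl (h5 : S_DsM) (N N' : ℕ) (D E : ℕ → ℂ) (hD : ∀ n, D n ≠ 0 → 1 ≤ n ∧ n ≤ N)
    (hE : ∀ n, E n ≠ 0 → 1 ≤ n ∧ n ≤ N') :
    ∑ n ∈ Finset.Icc 1 (N * N'), ‖cvl D E n‖ ≤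
      (∑ n ∈ Finset.Icc 1 N, ‖D n‖) * ∑ n ∈ Finset.Icc 1 N', ‖E n‖ := by
  have h := h5.1 N N' (fun n => ((‖D n‖ : ℝ) : ℂ)) (fun n => ((‖E n‖ : ℝ) : ℂ))
    (fun n hn => hD n fun hc => hn (by simp [hc])) (fun n hn => hE n fun hc => hn (by simp [hc])) 0
  have h1 : ∀ (N : ℕ) (D : ℕ → ℂ), Ds N D 0 = ∑ n ∈ Finset.Icc 1 N, D n := by
    intro N D
    unfold Ds
    refine Finset.sum_congr rfl fun n _ => ?_
    simp
  rw [h1, h1, h1] at h
  have h2 : ∀ n, cvl (fun n => ((‖D n‖ : ℝ) : ℂ)) (fun n => ((‖E n‖ : ℝ) : ℂ)) n =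
      ((∑ d ∈ n.divisors, ‖D d‖ * ‖E (n / d)‖ : ℝ) : ℂ) := by
    intro n
    unfold cvl
    push_cast
    rfl
  simp_rw [h2] at h
  have h3 : (∑ n ∈ Finset.Icc 1 N, ‖D n‖) * ∑ n ∈ Finset.Icc 1 N', ‖E n‖ =
      ∑ n ∈ Finset.Icc 1 (N * N'), ∑ d ∈ n.divisors, ‖D d‖ * ‖E (n / d)‖ := by
    exact_mod_cast h
  rw [h3]
  refine Finset.sum_le_sum fun n _ => ?_
  unfold cvl
  refine (norm_sum_le _ _).trans_eq ?_
  refine Finset.sum_congr rfl fun d _ => norm_mul _ _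

/-- multiplication of `muP * E` by `1 - log n / L` -/
lemma D1_eq (P : ℝ → ℝ) (Y : ℝ) (hY : 1 < Y) (E : ℕ → ℂ) (n : ℕ) :
    ((1 - Real.log n / (10 * Real.log Y) : ℝ) : ℂ) * cvl (muP P Y) E n =
      cvl (muP (fun ξ => P ξ * (1 - ξ / 10)) Y) E n +
        cvl (muP P Y) (fun m => -((Real.log m / (10 * Real.log Y) : ℝ) : ℂ) * E m) n := by
  unfold cvl
  rw [Finset.mul_sum, ← Finset.sum_add_distrib]
  refine Finset.sum_congr rfl fun d hd => ?_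
  obtain ⟨hd1, hn⟩ := Nat.mem_divisors.1 hd
  obtain ⟨e, rfl⟩ := hd1
  have hd0 : d ≠ 0 := fun h => hn (by simp [h])
  have he0 : e ≠ 0 := fun h => hn (by simp [h])
  rw [Nat.mul_div_cancel_left _ (Nat.pos_of_ne_zero hd0)]
  have hl : Real.log ((d * e : ℕ) : ℝ) = Real.log d + Real.log e := by
    rw [Nat.cast_mul, Real.log_mul (by exact_mod_cast hd0) (by exact_mod_cast he0)]
  rw [hl]
  have hY0 : Real.log Y ≠ 0 := (Real.log_pos hY).ne'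
  have hY1 : (Real.log Y : ℂ) ≠ 0 := by exact_mod_cast hY0
  unfold muP
  push_cast
  field_simp
  ring

lemma muP_ne (P : ℝ → ℝ) (hP : IsP P) (Y : ℝ) (hY : 1 < Y) (n : ℕ) (h : muP P Y n ≠ 0) :
    1 ≤ n ∧ n ≤ ⌊Y⌋₊ := by
  unfold muP at h
  have h1 : (ArithmeticFunction.moebius n : ℤ) ≠ 0 := by
    intro hc
    apply h
    rw [hc]
    simp
  have hn0 : n ≠ 0 := by
    rintro rfl
    exact h1 (by simp)
  have h2 : P (Real.log n / Real.log Y) ≠ 0 := by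
    intro hc
    apply h
    rw [hc]
    simp
  have h3 : Real.log n / Real.log Y < 1 := by
    by_contra hc
    exact h2 (hP.zero _ (not_lt.1 hc))
  rw [div_lt_one (Real.log_pos hY)] at h3
  have hn1 : (0 : ℝ) < n := by exact_mod_cast Nat.pos_of_ne_zero hn0
  have h4 : (n : ℝ) < Y := (Real.log_lt_log_iff hn1 (by linarith)).1 h3
  exact ⟨Nat.one_le_iff_ne_zero.2 hn0, Nat.le_floor h4.le⟩

lemma IsP1 {P : ℝ → ℝ} (hP : IsP P) : IsP (fun ξ => P ξ * (1 - ξ / 10)) where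
  smooth := hP.smooth.mul (contDiff_const.sub (contDiff_id.div_const _))
  supp := hP.supp.mul_right
  zero := fun ξ hξ => by simp [hP.zero ξ hξ]

/-- change of scale -/
lemma scale (w : ℝ → ℝ) (hw : IsW w) (hw1 : ∀ u, 1 / 24 ≤ u → u ≤ 5 / 6 → w u = 1) (T : ℝ)
    (hT : 0 < T) (G : ℝ → ℝ) (hG : Continuous G) (hG0 : ∀ v, 0 ≤ G v) :
    ∫ v in (T / 4)..(5 * T), G v ≤ 6 * T * ∫ u : ℝ, w u * G (6 * T * u) := by
  have h1 : ∫ u in (1 / 24 : ℝ)..(5 / 6), G (6 * T * u) =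
      (6 * T)⁻¹ * ∫ v in (T / 4)..(5 * T), G v := by
    rw [intervalIntegral.integral_comp_mul_left (fun v => G v) (by positivity : 6 * T ≠ 0),
      smul_eq_mul]
    congr 2
    · ring
    · ring
  have h2 : ∫ u in (1 / 24 : ℝ)..(5 / 6), G (6 * T * u) ≤ ∫ u : ℝ, w u * G (6 * T * u) := by
    rw [intervalIntegral.integral_of_le (by norm_num)]
    calc ∫ u in Ioc (1 / 24 : ℝ) (5 / 6), G (6 * T * u)
        = ∫ u in Ioc (1 / 24 : ℝ) (5 / 6), w u * G (6 * T * u) :=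
          setIntegral_congr_fun measurableSet_Ioc fun u hu => by
            simp only [hw1 u hu.1.le hu.2, one_mul]
      _ ≤ ∫ u : ℝ, w u * G (6 * T * u) :=
          setIntegral_le_integral (int_w hw (hG.comp (continuous_const.mul continuous_id)))
            (Filter.Eventually.of_forall fun u => mul_nonneg (hw.nonneg u) (hG0 _))
  rw [h1] at h2
  calc ∫ v in (T / 4)..(5 * T), G v = 6 * T * ((6 * T)⁻¹ * ∫ v in (T / 4)..(5 * T), G v) := by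
        rw [← mul_assoc, mul_inv_cancel₀ (by positivity), one_mul]
    _ ≤ _ := mul_le_mul_of_nonneg_left h2 (by positivity)

lemma nums (T Y : ℝ) (N : ℕ) (hY : 256 ≤ Y) (hTY : T = Y ^ 10) (hN1 : 1 ≤ N)
    (hN : (N : ℝ) ^ 100 ≤ 2 * T) :
    ((⌈Y⌉₊ * N : ℕ) : ℝ) ^ 8 ≤ 6 * T ∧ (N : ℝ) ≤ T ∧ (N : ℝ) ^ 2 ≤ 2 * T := by
  have hN1' : (1 : ℝ) ≤ N := by exact_mod_cast hN1
  have hY0 : 0 < Y := by linarith
  have h1 : (N : ℝ) ^ 8 ≤ Y := by
    by_contra hc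
    push Not at hc
    have h2 : Y ^ 12 < ((N : ℝ) ^ 8) ^ 12 := pow_lt_pow_left₀ hc hY0.le (by norm_num)
    have h3 : ((N : ℝ) ^ 8) ^ 12 ≤ (N : ℝ) ^ 100 := by
      rw [← pow_mul]
      exact pow_le_pow_right₀ hN1' (by norm_num)
    have h4 : 2 * T ≤ Y ^ 12 := by
      rw [hTY]
      have : Y ^ 12 = Y ^ 2 * Y ^ 10 := by ring
      rw [this]
      exact mul_le_mul_of_nonneg_right (by nlinarith) (by positivity)
    linarith
  have hYT : Y ≤ T := by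
    rw [hTY]
    exact le_self_pow₀ (by linarith) (by norm_num)
  have hNY : (N : ℝ) ≤ Y := (le_self_pow₀ hN1' (by norm_num)).trans h1
  refine ⟨?_, hNY.trans hYT, ?_⟩
  · have h2 : ((⌈Y⌉₊ : ℕ) : ℝ) ≤ 2 * Y := by
      have := Nat.ceil_lt_add_one hY0.le
      linarith
    push_cast
    rw [mul_pow]
    calc ((⌈Y⌉₊ : ℕ) : ℝ) ^ 8 * (N : ℝ) ^ 8 ≤ (2 * Y) ^ 8 * Y :=
          mul_le_mul (pow_le_pow_left₀ (Nat.cast_nonneg _) h2 8) h1 (by positivity) (by positivity)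
      _ = 256 * Y ^ 9 := by ring
      _ ≤ Y * Y ^ 9 := mul_le_mul_of_nonneg_right hY (by positivity)
      _ = T := by rw [hTY]; ring
      _ ≤ 6 * T := by linarith
  · calc (N : ℝ) ^ 2 ≤ (N : ℝ) ^ 8 := pow_le_pow_right₀ hN1' (by norm_num)
      _ ≤ Y := h1
      _ ≤ 2 * T := by linarith

lemma tail (T : ℝ) (hT : 1 ≤ T) :
    (T ^ (1 / 10 : ℝ)) ^ 2 * ((2 * T) ^ (1 / 50 : ℝ)) ^ 2 ≤ 2 * (6 * T) ^ (1 / 4 : ℝ) := by
  have hT0 : 0 < T := by linarith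
  have h1 : (T ^ (1 / 10 : ℝ)) ^ 2 = T ^ (1 / 5 : ℝ) := by
    rw [← Real.rpow_natCast, ← Real.rpow_mul hT0.le]
    norm_num
  have h2 : ((2 * T) ^ (1 / 50 : ℝ)) ^ 2 ≤ 2 * T ^ (1 / 25 : ℝ) := by
    rw [← Real.rpow_natCast, ← Real.rpow_mul (by positivity), Real.mul_rpow (by norm_num) hT0.le]
    norm_num
    refine mul_le_mul_of_nonneg_right ?_ (by positivity)
    calc (2 : ℝ) ^ (1 / 25 : ℝ) ≤ 2 ^ (1 : ℝ) :=
          Real.rpow_le_rpow_of_exponent_le (by norm_num) (by norm_num)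
      _ = 2 := Real.rpow_one 2
  calc (T ^ (1 / 10 : ℝ)) ^ 2 * ((2 * T) ^ (1 / 50 : ℝ)) ^ 2
      ≤ T ^ (1 / 5 : ℝ) * (2 * T ^ (1 / 25 : ℝ)) := by
        rw [h1]
        exact mul_le_mul_of_nonneg_left h2 (by positivity)
    _ = 2 * T ^ (6 / 25 : ℝ) := by
        have : (6 / 25 : ℝ) = 1 / 5 + 1 / 25 := by norm_num
        rw [this, Real.rpow_add hT0]
        ring
    _ ≤ 2 * T ^ (1 / 4 : ℝ) := by
        refine mul_le_mul_of_nonneg_left ?_ (by norm_num)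
        exact Real.rpow_le_rpow_of_exponent_le hT (by norm_num)
    _ ≤ 2 * (6 * T) ^ (1 / 4 : ℝ) := by
        refine mul_le_mul_of_nonneg_left ?_ (by norm_num)
        exact Real.rpow_le_rpow hT0.le (by linarith) (by norm_num)

lemma bdd {P : ℝ → ℝ} (hP : IsP P) : ∃ K : ℝ, 0 ≤ K ∧ ∀ ξ, |P ξ| ≤ K := by
  obtain ⟨K, hK⟩ := hP.supp.exists_bound_of_continuous hP.smooth.continuous
  exact ⟨K, (norm_nonneg _).trans (hK 0), fun ξ => hK ξ⟩

/-- the second integral -/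
lemma second (T : ℝ) (hT : 0 < T) (N : ℕ) (q : ℕ → ℝ) (b τ β : ℝ) (S₀ : Finset ℕ) (hβ : 0 ≤ β)
    (hb : 0 ≤ b) (hb' : b ≤ 3 / 2) (hN : (N : ℝ) ^ 100 ≤ 2 * T) (hN2 : (N : ℝ) ^ 2 ≤ 2 * T)
    (h0 : ∀ n, 0 ≤ q n) (hs : ∀ n, q n ≠ 0 → 1 ≤ n ∧ n ≤ N) (hp : ∀ p ∈ S₀, p.Prime)
    (hle : ∀ n, q n ≤ pe (fun p => if p ∈ S₀ then β else 0) n) :
    ∫ v in (T / 4)..(5 * T), ‖Ds N (qt q b τ) (1 / 2 + (v : ℂ) * Complex.I)‖ ^ 2 ≤
      34 * (T ^ (1 + b / 50 : ℝ) * Real.exp (β ^ 2 * ∑ p ∈ S₀, 1 / (p : ℝ))) := by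
  have h1 : ∑ n ∈ Finset.Icc 1 N, ‖qt q b τ n‖ ^ 2 / (n : ℝ) ≤
      ((N : ℝ) ^ b) ^ 2 * ∑ n ∈ Finset.Icc 1 N, q n ^ 2 / (n : ℝ) := by
    rw [Finset.mul_sum]
    refine Finset.sum_le_sum fun n _ => ?_
    rw [← mul_div_assoc, ← mul_pow]
    refine div_le_div_of_nonneg_right ?_ (Nat.cast_nonneg n)
    exact pow_le_pow_left₀ (norm_nonneg _) (qt_le q b τ N hb h0 hs n) 2
  have h2 := sq_sum q N S₀ β hβ h0 hp hle
  have h3 := R2 N T b hT hN hb hb'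
  set X := Real.exp (β ^ 2 * ∑ p ∈ S₀, 1 / (p : ℝ)) with hX
  have h4 : ∑ n ∈ Finset.Icc 1 N, ‖qt q b τ n‖ ^ 2 / (n : ℝ) ≤ 2 * T ^ (b / 50) * X := by
    refine h1.trans ?_
    exact mul_le_mul h3 h2 (Finset.sum_nonneg fun n _ => by positivity) (by positivity)
  calc ∫ v in (T / 4)..(5 * T), ‖Ds N (qt q b τ) (1 / 2 + (v : ℂ) * Complex.I)‖ ^ 2
      ≤ 17 * T * ∑ n ∈ Finset.Icc 1 N, ‖qt q b τ n‖ ^ 2 / (n : ℝ) := mv N _ T hT.le hN2
    _ ≤ 17 * T * (2 * T ^ (b / 50) * X) := mul_le_mul_of_nonneg_left h4 (by positivity)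
    _ = 34 * (T ^ (1 + b / 50 : ℝ) * X) := by
        rw [Real.rpow_add hT, Real.rpow_one]
        ring

end I_Lh

open I_Lh in
/-- **Lh.** -/
theorem Lh_pf (h1 : S_FoP) (h2 : S_Q2) (h3 : S_FoB) (h4 : S_Wt) (h5 : S_DsM) : S_Lh := by
  intro B hB P hP
  obtain ⟨w, hw, hw1⟩ := h4
  obtain ⟨C₂, T₂, hC₂, hT₂, hQ2⟩ := h2 w hw
  obtain ⟨C₃, hC₃, hF3⟩ := h3 B hB P hP
  obtain ⟨C₄, hC₄, hF4⟩ := h3 B hB _ (IsP1 hP)
  obtain ⟨K, hK0, hK⟩ := bdd hP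
  have hC5 : 0 ≤ 30 * C₂ * (3 * C₃ + 2 * C₄) + 8 * C₂ * K ^ 2 := by positivity
  refine ⟨12 * (30 * C₂ * (3 * C₃ + 2 * C₄) + 8 * C₂ * K ^ 2) + 34, max T₂ (256 ^ 10),
    by linarith, le_max_of_le_left hT₂, ?_⟩
  intro T hT M S l β N q hβ hβB hN hq hp hst b τ hb hb'
  have hTT₂ : T₂ ≤ T := (le_max_left _ _).trans hT
  have hT256 : (256 : ℝ) ^ 10 ≤ T := (le_max_right _ _).trans hT
  have hT0 : 0 < T := by
    have : (0 : ℝ) < 256 ^ 10 := by positivity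
    linarith
  have hT1 : 1 ≤ T := by
    have : (1 : ℝ) ≤ 256 ^ 10 := by norm_num
    linarith
  set Y : ℝ := T ^ (1 / 10 : ℝ) with hYd
  have hTY : T = Y ^ 10 := by
    rw [hYd, ← Real.rpow_natCast, ← Real.rpow_mul hT0.le]
    norm_num
  have hY0 : 0 < Y := Real.rpow_pos_of_pos hT0 _
  have hY : 256 ≤ Y := by
    rw [hTY] at hT256
    exact le_of_pow_le_pow_left₀ (by norm_num) hY0.le hT256
  obtain ⟨n1, n2, n3⟩ := nums T Y N hY hTY hN hq.len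
  set S₀ := (Finset.range M).biUnion S with hS₀
  have hsec := second T hT0 N q b τ β S₀ hβ hb hb' hq.len n3 hq.nonneg hq.supp
    (fun p hp' => (hp p hp').1) hq.le
  rw [hst] at hsec
  set X := Real.exp (β ^ 2 * st M S) with hX
  have hst0 : 0 ≤ st M S := by
    rw [← hst]
    exact Finset.sum_nonneg fun p _ => by positivity
  have hX1 : 1 ≤ X := by
    rw [hX]
    exact Real.one_le_exp (by positivity)
  have hTX : 0 ≤ T ^ (1 + b / 50 : ℝ) * X := by positivity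
  constructor
  swap
  · refine hsec.trans ?_
    rw [mul_assoc]
    exact mul_le_mul_of_nonneg_right (by linarith) hTX
  -- the first integral
  set L := Real.log T with hL
  have hLY : L = 10 * Real.log Y := by
    rw [hL, hTY, Real.log_pow]
    push_cast
    rfl
  have hlY : 0 < Real.log Y := Real.log_pos (by linarith)
  have hL0 : 0 < L := by rw [hLY]; positivity
  set R : ℝ := (N : ℝ) ^ b with hR
  have hR0 : 0 ≤ R := by rw [hR]; positivity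
  set Q : ℕ → ℂ := qt q b τ with hQ
  have hQle : ∀ n, ‖Q n‖ ≤ R * q n := qt_le q b τ N hb hq.nonneg hq.supp
  have hQs : ∀ n, Q n ≠ 0 → 1 ≤ n ∧ n ≤ N := fun n hn => hq.supp n (qt_ne q b τ n hn)
  set Q' : ℕ → ℂ := fun m => -((Real.log m / (10 * Real.log Y) : ℝ) : ℂ) * Q m with hQ'
  have hQs' : ∀ n, Q' n ≠ 0 → 1 ≤ n ∧ n ≤ N := fun n hn => hQs n fun hc => hn (by simp [hQ', hc])
  have hQle' : ∀ n, ‖Q' n‖ ≤ R * q n := by
    intro n
    by_cases hc : Q n = 0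
    · have : Q' n = 0 := by simp [hQ', hc]
      rw [this, norm_zero]
      exact mul_nonneg hR0 (hq.nonneg n)
    · obtain ⟨a1, a2⟩ := hQs n hc
      have a3 : (1 : ℝ) ≤ n := by exact_mod_cast a1
      have a4 : (n : ℝ) ≤ T := by
        have : (n : ℝ) ≤ N := by exact_mod_cast a2
        linarith
      have a5 : |Real.log n / (10 * Real.log Y)| ≤ 1 := by
        rw [← hLY, abs_of_nonneg (div_nonneg (Real.log_nonneg a3) hL0.le), div_le_one hL0, hL]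
        exact Real.log_le_log (by linarith) a4
      rw [hQ']
      simp only
      rw [norm_mul, norm_neg, Complex.norm_real, Real.norm_eq_abs]
      calc |Real.log n / (10 * Real.log Y)| * ‖Q n‖ ≤ 1 * ‖Q n‖ :=
            mul_le_mul_of_nonneg_right a5 (norm_nonneg _)
        _ ≤ R * q n := by rw [one_mul]; exact hQle n
  set Yn : ℕ := ⌈Y⌉₊ with hYn
  have hYYn : Y ≤ (Yn : ℝ) := Nat.le_ceil Y
  set D : ℕ → ℂ := cvl (muP P Y) Q with hD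
  have hmu : ∀ n, muP P Y n ≠ 0 → 1 ≤ n ∧ n ≤ Yn := fun n hn =>
    ⟨(muP_ne P hP Y (by linarith) n hn).1,
      (muP_ne P hP Y (by linarith) n hn).2.trans (Nat.floor_le_ceil Y)⟩
  have hpS : ∀ p ∈ S₀, p.Prime ∧ (p : ℝ) ≤ Y := by
    intro p hp'
    refine ⟨(hp p hp').1, (hp p hp').2.trans ?_⟩
    have e1 : (2 * T) ^ (1 / 200 : ℝ) ≤ (T ^ 2) ^ (1 / 200 : ℝ) := by
      refine Real.rpow_le_rpow (by positivity) ?_ (by norm_num)
      have : (2 : ℝ) ≤ T := by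
        have : (2 : ℝ) ≤ 256 ^ 10 := by norm_num
        linarith
      nlinarith
    have e2 : (T ^ 2) ^ (1 / 200 : ℝ) = T ^ (1 / 100 : ℝ) := by
      rw [← Real.rpow_natCast, ← Real.rpow_mul hT0.le]
      norm_num
    rw [e2] at e1
    refine e1.trans ?_
    rw [hYd]
    exact Real.rpow_le_rpow_of_exponent_le hT1 (by norm_num)
  have hlen : Y * (N : ℕ) ≤ ((Yn * N : ℕ) : ℝ) := by
    push_cast
    exact mul_le_mul_of_nonneg_right hYYn (Nat.cast_nonneg N)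
  have hQp : ∀ n, ‖Q n‖ ≤ R * pe (fun p => if p ∈ S₀ then β else 0) n := fun n =>
    (hQle n).trans (mul_le_mul_of_nonneg_left (hq.le n) hR0)
  have hQp' : ∀ n, ‖Q' n‖ ≤ R * pe (fun p => if p ∈ S₀ then β else 0) n := fun n =>
    (hQle' n).trans (mul_le_mul_of_nonneg_left (hq.le n) hR0)
  have f1 := hF3 Y R β S₀ Q N (Yn * N) (by linarith) hR0 hβ hβB hpS hQp hQs hlen
  have f2 := hF3 Y R β S₀ Q' N (Yn * N) (by linarith) hR0 hβ hβB hpS hQp' hQs' hlen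
  have f3 := hF4 Y R β S₀ Q N (Yn * N) (by linarith) hR0 hβ hβB hpS hQp hQs hlen
  rw [hst, ← hX] at f1 f2 f3
  have f4 : Fo (Yn * N) (fun n => ((1 - Real.log n / L : ℝ) : ℂ) * D n) ≤
      2 * (C₄ * R ^ 2 / Real.log Y * X) + 2 * (C₃ * R ^ 2 / Real.log Y * X) := by
    have g1 : (fun n : ℕ => ((1 - Real.log n / L : ℝ) : ℂ) * D n) = fun n =>
        cvl (muP (fun ξ => P ξ * (1 - ξ / 10)) Y) Q n + cvl (muP P Y) Q' n := by
      funext n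
      rw [hLY, hD, hQ']
      exact D1_eq P Y (by linarith) Q n
    rw [g1]
    refine (h1.2.1 _ _ _).trans ?_
    linarith
  have f5 : 0 ≤ Fo (Yn * N) D := h1.1 _ _
  have f6 : 0 ≤ Fo (Yn * N) (fun n => ((1 - Real.log n / L : ℝ) : ℂ) * D n) := h1.1 _ _
  have hq2 := hQ2 (6 * T) (by linarith) (Yn * N) (Nat.one_le_iff_ne_zero.2 (by
    have : 0 < Yn := Nat.ceil_pos.2 hY0
    positivity)) n1 D L hL0
  -- the sum of the absolute values
  have s1 : ∑ n ∈ Finset.Icc 1 (Yn * N), ‖D n‖ ≤ 2 * Y * K * (R * (2 * T) ^ (1 / 50 : ℝ)) := by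
    refine (sum_cvl h5 Yn N (muP P Y) Q hmu hQs).trans ?_
    have t1 : ∑ n ∈ Finset.Icc 1 Yn, ‖muP P Y n‖ ≤ 2 * Y * K := by
      calc ∑ n ∈ Finset.Icc 1 Yn, ‖muP P Y n‖ ≤ ∑ n ∈ Finset.Icc 1 Yn, K := by
            refine Finset.sum_le_sum fun n _ => ?_
            unfold muP
            rw [norm_mul, Complex.norm_real, Real.norm_eq_abs]
            have u1 : ‖((ArithmeticFunction.moebius n : ℤ) : ℂ)‖ ≤ 1 := by
              rw [Complex.norm_intCast]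
              exact_mod_cast ArithmeticFunction.abs_moebius_le_one
            calc ‖((ArithmeticFunction.moebius n : ℤ) : ℂ)‖ * |P (Real.log n / Real.log Y)|
                ≤ 1 * K := mul_le_mul u1 (hK _) (abs_nonneg _) zero_le_one
              _ = K := one_mul K
        _ = Yn * K := by simp
        _ ≤ 2 * Y * K := by
            refine mul_le_mul_of_nonneg_right ?_ hK0
            have := Nat.ceil_lt_add_one hY0.le
            rw [← hYn] at this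
            linarith
    have t2 : ∑ n ∈ Finset.Icc 1 N, ‖Q n‖ ≤ R * (2 * T) ^ (1 / 50 : ℝ) := by
      calc ∑ n ∈ Finset.Icc 1 N, ‖Q n‖ ≤ ∑ n ∈ Finset.Icc 1 N, R * q n :=
            Finset.sum_le_sum fun n _ => hQle n
        _ = R * ∑ n ∈ Finset.Icc 1 N, q n := by rw [Finset.mul_sum]
        _ ≤ R * (2 * T) ^ (1 / 50 : ℝ) := mul_le_mul_of_nonneg_left hq.sum hR0
    exact mul_le_mul t1 t2 (Finset.sum_nonneg fun n _ => norm_nonneg _) (by positivity)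
  have s2 : C₂ / (6 * T) ^ (1 / 4 : ℝ) * (∑ n ∈ Finset.Icc 1 (Yn * N), ‖D n‖) ^ 2 ≤
      8 * C₂ * K ^ 2 * (R ^ 2 * X) := by
    have t1 : (∑ n ∈ Finset.Icc 1 (Yn * N), ‖D n‖) ^ 2 ≤
        (2 * Y * K * (R * (2 * T) ^ (1 / 50 : ℝ))) ^ 2 :=
      pow_le_pow_left₀ (Finset.sum_nonneg fun n _ => norm_nonneg _) s1 2
    have t2 : (0 : ℝ) < (6 * T) ^ (1 / 4 : ℝ) := by positivity
    have t3 := tail T hT1
    rw [← hYd] at t3
    calc C₂ / (6 * T) ^ (1 / 4 : ℝ) * (∑ n ∈ Finset.Icc 1 (Yn * N), ‖D n‖) ^ 2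
        ≤ C₂ / (6 * T) ^ (1 / 4 : ℝ) * (2 * Y * K * (R * (2 * T) ^ (1 / 50 : ℝ))) ^ 2 :=
          mul_le_mul_of_nonneg_left t1 (by positivity)
      _ = C₂ / (6 * T) ^ (1 / 4 : ℝ) * (4 * K ^ 2 * R ^ 2) *
            (Y ^ 2 * ((2 * T) ^ (1 / 50 : ℝ)) ^ 2) := by ring
      _ ≤ C₂ / (6 * T) ^ (1 / 4 : ℝ) * (4 * K ^ 2 * R ^ 2) * (2 * (6 * T) ^ (1 / 4 : ℝ)) :=
          mul_le_mul_of_nonneg_left t3 (by positivity)
      _ = 8 * C₂ * K ^ 2 * R ^ 2 := by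
          field_simp
          ring
      _ ≤ 8 * C₂ * K ^ 2 * (R ^ 2 * X) := by
          refine mul_le_mul_of_nonneg_left ?_ (by positivity)
          exact le_mul_of_one_le_right (by positivity) hX1
  have s3 : C₂ * ((Real.log (6 * T) + L) * (Fo (Yn * N) D +
      Fo (Yn * N) (fun n => ((1 - Real.log n / L : ℝ) : ℂ) * D n))) ≤
      30 * C₂ * (3 * C₃ + 2 * C₄) * (R ^ 2 * X) := by
    have t1 : Real.log (6 * T) + L ≤ 3 * L := by
      rw [Real.log_mul (by norm_num) hT0.ne', ← hL]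
      have : Real.log 6 ≤ L := by
        rw [hL]
        refine Real.log_le_log (by norm_num) ?_
        have : (6 : ℝ) ≤ 256 ^ 10 := by norm_num
        linarith
      linarith
    have t2 : Fo (Yn * N) D + Fo (Yn * N) (fun n => ((1 - Real.log n / L : ℝ) : ℂ) * D n) ≤
        (3 * C₃ + 2 * C₄) * (R ^ 2 * X) / Real.log Y := by
      have e : (3 * C₃ + 2 * C₄) * (R ^ 2 * X) / Real.log Y = C₃ * R ^ 2 / Real.log Y * X +
          (2 * (C₄ * R ^ 2 / Real.log Y * X) + 2 * (C₃ * R ^ 2 / Real.log Y * X)) := by ring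
      rw [e]
      exact add_le_add f1 f4
    calc C₂ * ((Real.log (6 * T) + L) * (Fo (Yn * N) D +
          Fo (Yn * N) (fun n => ((1 - Real.log n / L : ℝ) : ℂ) * D n)))
        ≤ C₂ * ((3 * L) * ((3 * C₃ + 2 * C₄) * (R ^ 2 * X) / Real.log Y)) := by
          refine mul_le_mul_of_nonneg_left ?_ (by linarith)
          exact mul_le_mul t1 t2 (by linarith) (by positivity)
      _ = 30 * C₂ * (3 * C₃ + 2 * C₄) * (R ^ 2 * X) := by
          rw [hLY]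
          field_simp
          ring
  -- the conclusion
  have hG : ∀ v : ℝ, ‖riemannZeta (1 / 2 + (v : ℂ) * Complex.I) * MM P Y (1 / 2 + (v : ℂ) * Complex.I) *
      Ds N Q (1 / 2 + (v : ℂ) * Complex.I)‖ ^ 2 =
      az v ^ 2 * ‖Ds (Yn * N) D (1 / 2 + (v : ℂ) * Complex.I)‖ ^ 2 := by
    intro v
    have e1 : MM P Y (1 / 2 + (v : ℂ) * Complex.I) = Ds Yn (muP P Y) (1 / 2 + (v : ℂ) * Complex.I) := by
      unfold MM
      exact Ds_ext _ _ _ (Nat.floor_le_ceil Y) (fun n hn => (muP_ne P hP Y (by linarith) n hn).2) _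
    rw [mul_assoc, e1, h5.1 Yn N (muP P Y) Q hmu hQs, norm_mul, mul_pow]
    rfl
  have hGc : Continuous fun v : ℝ => az v ^ 2 * ‖Ds (Yn * N) D (1 / 2 + (v : ℂ) * Complex.I)‖ ^ 2 :=
    (az_cont.pow 2).mul ((Ds_cont _ _).norm.pow 2)
  have hfin := scale w hw hw1 T hT0 _ hGc (fun v => by positivity)
  calc ∫ v in (T / 4)..(5 * T), ‖riemannZeta (1 / 2 + (v : ℂ) * Complex.I) *
        MM P Y (1 / 2 + (v : ℂ) * Complex.I) * Ds N Q (1 / 2 + (v : ℂ) * Complex.I)‖ ^ 2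
      = ∫ v in (T / 4)..(5 * T), az v ^ 2 * ‖Ds (Yn * N) D (1 / 2 + (v : ℂ) * Complex.I)‖ ^ 2 := by
        simp_rw [hG]
    _ ≤ 6 * T * ∫ u : ℝ, w u * (az (6 * T * u) ^ 2 *
          ‖Ds (Yn * N) D (1 / 2 + ((6 * T * u : ℝ) : ℂ) * Complex.I)‖ ^ 2) := hfin
    _ ≤ 6 * T * (C₂ * ((Real.log (6 * T) + L) * (Fo (Yn * N) D +
          Fo (Yn * N) (fun n => ((1 - Real.log n / L : ℝ) : ℂ) * D n))) +
          C₂ / (6 * T) ^ (1 / 4 : ℝ) * (∑ n ∈ Finset.Icc 1 (Yn * N), ‖D n‖) ^ 2) :=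
        mul_le_mul_of_nonneg_left hq2 (by positivity)
    _ ≤ 6 * T * (30 * C₂ * (3 * C₃ + 2 * C₄) * (R ^ 2 * X) + 8 * C₂ * K ^ 2 * (R ^ 2 * X)) :=
        mul_le_mul_of_nonneg_left (add_le_add s3 s2) (by positivity)
    _ = 6 * T * (30 * C₂ * (3 * C₃ + 2 * C₄) + 8 * C₂ * K ^ 2) * X * R ^ 2 := by ring
    _ ≤ 6 * T * (30 * C₂ * (3 * C₃ + 2 * C₄) + 8 * C₂ * K ^ 2) * X * (2 * T ^ (b / 50)) :=
        mul_le_mul_of_nonneg_left (R2 N T b hT0 hq.len hb hb') (by positivity)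
    _ = 12 * (30 * C₂ * (3 * C₃ + 2 * C₄) + 8 * C₂ * K ^ 2) * (T ^ (1 + b / 50 : ℝ) * X) := by
        rw [Real.rpow_add hT0, Real.rpow_one]
        ring
    _ ≤ (12 * (30 * C₂ * (3 * C₃ + 2 * C₄) + 8 * C₂ * K ^ 2) + 34) *
          (T ^ (1 + b / 50 : ℝ) * X) := mul_le_mul_of_nonneg_right (by linarith) hTX
    _ = (12 * (30 * C₂ * (3 * C₃ + 2 * C₄) + 8 * C₂ * K ^ 2) + 34) *
          T ^ (1 + b / 50 : ℝ) * X := by ring

end Pool.Agent.Work.MP_56b8f5_nt.HZ
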