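import Pool.Agent.Work.MP_56b8f5_nt.HZ.StmtsC

/-!
MP_56b8f5_nt, block HZ, item Lt: the mean square on the line `2`.
-/

set_option autoImplicit false

open MeasureTheory Set Filter Topology

noncomputable section

namespace Pool.Agent.Work.MP_56b8f5_nt.HZ

open Pool.Agent.Work.MP_56b8f5_nt.EM Pool.Agent.Work.MP_56b8f5_nt.WM Pool.Agent.Work.MP_56b8f5_nt.SH
open Pool.Agent.Work.MP_56b8f5_nt.HZG

namespace I_Lt

/-- tail of the sum of the inverse squares -/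
theorem tail {k : ℕ} (hk : 1 ≤ k) :
    ∃ a : ℝ, HasSum (fun n : ℕ => if k < n then ((n : ℝ) ^ 2)⁻¹ else 0) a ∧ a ≤ (k : ℝ)⁻¹ := by
  have hs : ∀ n : ℕ, ∑ i ∈ Finset.range n, (if k < i then ((i : ℝ) ^ 2)⁻¹ else 0) ≤
      (k : ℝ)⁻¹ := by
    intro n
    rw [← Finset.sum_filter]
    rcases le_total k n with h | h
    · calc ∑ i ∈ (Finset.range n).filter (fun i => k < i), ((i : ℝ) ^ 2)⁻¹
          ≤ ∑ i ∈ Finset.Ioc k n, ((i : ℝ) ^ 2)⁻¹ := by
            refine Finset.sum_le_sum_of_subset_of_nonneg ?_ (fun _ _ _ => by positivity)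
            intro i hi
            rw [Finset.mem_filter, Finset.mem_range] at hi
            exact Finset.mem_Ioc.2 ⟨hi.2, hi.1.le⟩
        _ ≤ (k : ℝ)⁻¹ - (n : ℝ)⁻¹ := sum_Ioc_inv_sq_le_sub (by omega) h
        _ ≤ (k : ℝ)⁻¹ := by
            have : (0 : ℝ) ≤ (n : ℝ)⁻¹ := by positivity
            linarith
    · rw [Finset.sum_eq_zero]
      · positivity
      · intro i hi
        rw [Finset.mem_filter, Finset.mem_range] at hi
        omega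
  have h0 : ∀ n : ℕ, 0 ≤ (if k < n then ((n : ℝ) ^ 2)⁻¹ else 0) := fun n => by
    split_ifs <;> positivity
  exact ⟨_, (summable_of_sum_range_le h0 hs).hasSum, Real.tsum_le_of_sum_range_le h0 hs⟩

theorem zeta_le : ∃ Z : ℝ, 0 ≤ Z ∧ ∀ v : ℝ, ‖riemannZeta (2 + v * Complex.I)‖ ≤ Z := by
  have hs : Summable (fun n : ℕ => 1 / ((n : ℝ) + 1) ^ 2) := by
    have h1 := (summable_nat_add_iff 1).2 (Real.summable_one_div_nat_pow.2 one_lt_two)
    refine h1.congr fun n => ?_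
    push_cast
    rfl
  refine ⟨∑' n : ℕ, 1 / ((n : ℝ) + 1) ^ 2, tsum_nonneg fun n => by positivity, fun v => ?_⟩
  rw [zeta_eq_tsum_one_div_nat_add_one_cpow (by simp)]
  refine tsum_of_norm_bounded hs.hasSum fun n => ?_
  have h2 : ((n : ℂ) + 1) = ((n + 1 : ℕ) : ℂ) := by push_cast; ring
  rw [norm_div, norm_one, h2, Complex.norm_natCast_cpow_of_pos n.succ_pos]
  have h3 : ((2 : ℂ) + v * Complex.I).re = ((2 : ℕ) : ℝ) := by simp
  rw [h3, Real.rpow_natCast]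
  push_cast
  exact le_rfl

theorem norm_neg_pow {n : ℕ} (hn : 0 < n) (v : ℝ) :
    ‖(n : ℂ) ^ (-((2 : ℂ) + v * Complex.I))‖ = ((n : ℝ) ^ 2)⁻¹ := by
  rw [Complex.norm_natCast_cpow_of_pos hn]
  have h3 : (-((2 : ℂ) + v * Complex.I)).re = -((2 : ℕ) : ℝ) := by simp
  rw [h3, Real.rpow_neg (Nat.cast_nonneg n), Real.rpow_natCast]

theorem diff_le {P : ℝ → ℝ} {K : ℝ} (hK : ∀ ξ, |P ξ| ≤ K)
    (hP : ∀ ξ : ℝ, 0 ≤ ξ → ξ ≤ 1 / 2 → P ξ = 1) {X : ℝ} (hX : 1 < X) (v : ℝ) :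
    ‖MM P (X ^ 2) (2 + v * Complex.I) -
      LSeries (fun n => ((ArithmeticFunction.moebius n : ℤ) : ℂ)) (2 + v * Complex.I)‖ ≤
      (K + 1) * (2 / X) := by
  classical
  have hK0 : 0 ≤ K := (abs_nonneg _).trans (hK 0)
  set s : ℂ := 2 + v * Complex.I with hs
  have hsre : 1 < s.re := by simp [hs]
  set k : ℕ := ⌊X⌋₊ with hk
  have hk1 : 1 ≤ k := Nat.le_floor (by exact_mod_cast hX.le)
  have hkX : X < k + 1 := Nat.lt_floor_add_one X
  have hk1' : (1 : ℝ) ≤ k := by exact_mod_cast hk1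
  obtain ⟨a, ha, ha'⟩ := tail hk1
  have hsm := ArithmeticFunction.LSeriesSummable_moebius_iff.2 hsre
  have h1 : HasSum (fun n : ℕ => if n ∈ Finset.Icc 1 ⌊X ^ 2⌋₊ then
      muP P (X ^ 2) n * (n : ℂ) ^ (-s) else 0) (MM P (X ^ 2) s) := by
    have h2 := hasSum_sum_of_ne_finset_zero (f := fun n : ℕ => if n ∈ Finset.Icc 1 ⌊X ^ 2⌋₊ then
      muP P (X ^ 2) n * (n : ℂ) ^ (-s) else 0) (s := Finset.Icc 1 ⌊X ^ 2⌋₊)
      (fun n hn => if_neg hn) (L := SummationFilter.unconditional ℕ)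
    have h3 : ∑ n ∈ Finset.Icc 1 ⌊X ^ 2⌋₊, (if n ∈ Finset.Icc 1 ⌊X ^ 2⌋₊ then
      muP P (X ^ 2) n * (n : ℂ) ^ (-s) else 0) = MM P (X ^ 2) s := by
      rw [MM, Ds]
      exact Finset.sum_congr rfl fun n hn => if_pos hn
    rwa [h3] at h2
  have h2 := h1.sub hsm.LSeriesHasSum
  refine (h2.norm_le_of_bounded (ha.mul_left (K + 1)) fun n => ?_).trans ?_
  · rcases Nat.eq_zero_or_pos n with rfl | hn
    · have h3 : (0 : ℕ) ∉ Finset.Icc 1 ⌊X ^ 2⌋₊ := by simp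
      rw [if_neg h3, LSeries.term_zero, sub_zero, norm_zero]
      split_ifs <;> positivity
    have hterm : LSeries.term (fun n => ((ArithmeticFunction.moebius n : ℤ) : ℂ)) s n =
        ((ArithmeticFunction.moebius n : ℤ) : ℂ) * (n : ℂ) ^ (-s) := by
      rw [LSeries.term_of_ne_zero hn.ne', Complex.cpow_neg, div_eq_mul_inv]
    rw [hterm]
    by_cases hkn : k < n
    · rw [if_pos hkn]
      have hmu : ‖((ArithmeticFunction.moebius n : ℤ) : ℂ)‖ ≤ 1 := by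
        rw [Complex.norm_intCast]
        exact_mod_cast ArithmeticFunction.abs_moebius_le_one
      have hpos : 0 ≤ ((n : ℝ) ^ 2)⁻¹ := by positivity
      have h4 : ‖((ArithmeticFunction.moebius n : ℤ) : ℂ) * (n : ℂ) ^ (-s)‖ ≤ ((n : ℝ) ^ 2)⁻¹ := by
        rw [norm_mul, hs, norm_neg_pow hn]
        calc _ ≤ 1 * ((n : ℝ) ^ 2)⁻¹ := mul_le_mul_of_nonneg_right hmu hpos
          _ = _ := one_mul _
      have h5 : ‖(if n ∈ Finset.Icc 1 ⌊X ^ 2⌋₊ then muP P (X ^ 2) n * (n : ℂ) ^ (-s) else 0)‖ ≤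
          K * ((n : ℝ) ^ 2)⁻¹ := by
        split_ifs
        · rw [muP, norm_mul, norm_mul, hs, norm_neg_pow hn, Complex.norm_real]
          refine mul_le_mul_of_nonneg_right ?_ hpos
          calc _ ≤ 1 * K := mul_le_mul hmu (hK _) (abs_nonneg _) zero_le_one
            _ = K := one_mul _
        · rw [norm_zero]; positivity
      calc _ ≤ _ := norm_sub_le _ _
        _ ≤ K * ((n : ℝ) ^ 2)⁻¹ + ((n : ℝ) ^ 2)⁻¹ := add_le_add h5 h4
        _ = _ := by ring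
    · have hnX : (n : ℝ) ≤ X := (Nat.cast_le.2 (not_lt.1 hkn)).trans (Nat.floor_le (by linarith))
      have hnX2 : (n : ℝ) ≤ X ^ 2 := hnX.trans (by nlinarith)
      have h3 : n ∈ Finset.Icc 1 ⌊X ^ 2⌋₊ := Finset.mem_Icc.2 ⟨hn, Nat.le_floor hnX2⟩
      have hn1 : (1 : ℝ) ≤ n := by exact_mod_cast hn
      have hlX : 0 < Real.log X := Real.log_pos hX
      have h4 : P (Real.log n / Real.log (X ^ 2)) = 1 := by
        apply hP
        · rw [Real.log_pow]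
          exact div_nonneg (Real.log_nonneg hn1) (by positivity)
        · rw [Real.log_pow, div_le_iff₀ (by positivity)]
          have h5 := Real.log_le_log (by linarith) hnX
          push_cast
          linarith
      rw [if_pos h3, muP, h4, Complex.ofReal_one, mul_one, sub_self, norm_zero, if_neg hkn,
        mul_zero]
  · refine mul_le_mul_of_nonneg_left (ha'.trans ?_) (by linarith)
    rw [inv_eq_one_div, div_le_div_iff₀ (by linarith) (by linarith)]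
    linarith

theorem Qt_le {M : ℕ} {S : ℕ → Finset ℕ} {l : ℕ → ℕ} {β T : ℝ} {N : ℕ} {q : ℕ → ℝ}
    (hq : IsQ M S l β T N q) {b : ℝ} (τ v : ℝ) (hb : b ≤ 3 / 2) :
    ‖Ds N (qt q b τ) (2 + v * Complex.I)‖ ≤ T ^ (1 / 50 : ℝ) := by
  refine le_trans ?_ hq.sum
  rw [Ds]
  refine (norm_sum_le _ _).trans (Finset.sum_le_sum fun n hn => ?_)
  have hn1 : 0 < n := (Finset.mem_Icc.1 hn).1
  have hn2 : (1 : ℝ) ≤ n := by exact_mod_cast hn1
  rw [norm_mul, norm_neg_pow hn1, qt, norm_mul, Complex.norm_real, Real.norm_eq_abs,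
    abs_of_nonneg (hq.nonneg n), Complex.norm_natCast_cpow_of_pos hn1, mul_assoc]
  have h3 : ((b : ℂ) - τ * Complex.I).re = b := by simp
  rw [h3]
  have h4 : (n : ℝ) ^ b ≤ (n : ℝ) ^ 2 := by
    rw [← Real.rpow_natCast]
    exact Real.rpow_le_rpow_of_exponent_le hn2 (by push_cast; linarith)
  have h5 : (n : ℝ) ^ b * ((n : ℝ) ^ 2)⁻¹ ≤ 1 := by
    rw [← div_eq_mul_inv]
    exact div_le_one_of_le₀ h4 (by positivity)
  calc _ ≤ q n * 1 := mul_le_mul_of_nonneg_left h5 (hq.nonneg n)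
    _ = q n := mul_one _

theorem powers {T : ℝ} (hT : 1 ≤ T) : (1 / T ^ (1 / 20 : ℝ)) ^ 2 * ((2 * T) ^ (1 / 50 : ℝ)) ^ 2 * T ≤
    2 * T ^ (94 / 100 : ℝ) := by
  have hT0 : 0 < T := by linarith
  have h1 : (1 / T ^ (1 / 20 : ℝ)) ^ 2 = T ^ (-(1 / 10) : ℝ) := by
    rw [one_div, ← Real.rpow_neg hT0.le, ← Real.rpow_natCast, ← Real.rpow_mul hT0.le]
    norm_num
  have h2 : ((2 * T) ^ (1 / 50 : ℝ)) ^ 2 = 2 ^ (1 / 25 : ℝ) * T ^ (1 / 25 : ℝ) := by
    rw [← Real.rpow_natCast, ← Real.rpow_mul (by positivity), Real.mul_rpow (by norm_num) hT0.le]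
    norm_num
  have h3 : (2 : ℝ) ^ (1 / 25 : ℝ) ≤ 2 := by
    have h4 := Real.rpow_le_rpow_of_exponent_le (x := 2) (by norm_num)
      (show (1 / 25 : ℝ) ≤ 1 by norm_num)
    rwa [Real.rpow_one] at h4
  have h5 : T ^ (-(1 / 10) : ℝ) * T ^ (1 / 25 : ℝ) * T = T ^ (94 / 100 : ℝ) := by
    nth_rewrite 3 [← Real.rpow_one T]
    rw [← Real.rpow_add hT0, ← Real.rpow_add hT0]
    norm_num
  rw [h1, h2]
  calc T ^ (-(1 / 10) : ℝ) * (2 ^ (1 / 25 : ℝ) * T ^ (1 / 25 : ℝ)) * T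
      = 2 ^ (1 / 25 : ℝ) * (T ^ (-(1 / 10) : ℝ) * T ^ (1 / 25 : ℝ) * T) := by ring
    _ = 2 ^ (1 / 25 : ℝ) * T ^ (94 / 100 : ℝ) := by rw [h5]
    _ ≤ 2 * T ^ (94 / 100 : ℝ) := mul_le_mul_of_nonneg_right h3 (by positivity)

end I_Lt

theorem Lt_pf : S_Lt := by
  intro B _ P hP hP1
  obtain ⟨K, hK⟩ := hP.smooth.continuous.bounded_above_of_compact_support hP.supp
  have hK' : ∀ ξ, |P ξ| ≤ K := fun ξ => by simpa [Real.norm_eq_abs] using hK ξ
  have hK0 : 0 ≤ K := (abs_nonneg _).trans (hK' 0)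
  obtain ⟨Z, hZ0, hZ⟩ := I_Lt.zeta_le
  refine ⟨38 * (Z * (K + 1)) ^ 2 + 1, 3, ?_, le_rfl, ?_⟩
  · have : 0 ≤ (Z * (K + 1)) ^ 2 := sq_nonneg _
    linarith
  intro T hT M S l β N q _ _ hq b τ _ hb
  have hT0 : 0 < T := by linarith
  set X : ℝ := T ^ (1 / 20 : ℝ) with hXdef
  have hX : 1 < X := Real.one_lt_rpow (by linarith) (by norm_num)
  have hX2 : T ^ (1 / 10 : ℝ) = X ^ 2 := by
    rw [hXdef, ← Real.rpow_natCast, ← Real.rpow_mul hT0.le]
    norm_num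
  have hpt : ∀ v : ℝ, ‖(riemannZeta (2 + v * Complex.I) *
      MM P (T ^ (1 / 10 : ℝ)) (2 + v * Complex.I) - 1) * Ds N (qt q b τ) (2 + v * Complex.I)‖ ^ 2 ≤
      (Z * ((K + 1) * (2 / X))) ^ 2 * ((2 * T) ^ (1 / 50 : ℝ)) ^ 2 := by
    intro v
    have hsre : 1 < ((2 : ℂ) + v * Complex.I).re := by simp
    have h1 := ArithmeticFunction.LSeries_zeta_mul_Lseries_moebius hsre
    rw [ArithmeticFunction.LSeries_zeta_eq_riemannZeta hsre] at h1
    have h2 : riemannZeta (2 + v * Complex.I) * MM P (T ^ (1 / 10 : ℝ)) (2 + v * Complex.I) - 1 =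
        riemannZeta (2 + v * Complex.I) * (MM P (X ^ 2) (2 + v * Complex.I) -
          LSeries (fun n => ((ArithmeticFunction.moebius n : ℤ) : ℂ)) (2 + v * Complex.I)) := by
      rw [mul_sub, h1, hX2]
    rw [norm_mul, mul_pow]
    refine mul_le_mul ?_ ?_ (sq_nonneg _) (sq_nonneg _)
    · refine pow_le_pow_left₀ (norm_nonneg _) ?_ 2
      rw [h2, norm_mul]
      exact mul_le_mul (hZ v) (I_Lt.diff_le hK' hP1 hX v) (norm_nonneg _) hZ0
    · exact pow_le_pow_left₀ (norm_nonneg _) (I_Lt.Qt_le hq τ v hb) 2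
  have hint := intervalIntegral.norm_integral_le_of_norm_le_const (a := T / 4) (b := 5 * T)
    (f := fun v : ℝ => ‖(riemannZeta (2 + v * Complex.I) *
      MM P (T ^ (1 / 10 : ℝ)) (2 + v * Complex.I) - 1) * Ds N (qt q b τ) (2 + v * Complex.I)‖ ^ 2)
    (C := (Z * ((K + 1) * (2 / X))) ^ 2 * ((2 * T) ^ (1 / 50 : ℝ)) ^ 2)
    (fun v _ => by
      rw [Real.norm_eq_abs, abs_of_nonneg (sq_nonneg _)]
      exact hpt v)
  refine (le_abs_self _).trans (hint.trans ?_)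
  rw [abs_of_nonneg (by linarith)]
  have h3 := I_Lt.powers (T := T) (by linarith)
  have h4 : (Z * ((K + 1) * (2 / X))) ^ 2 * ((2 * T) ^ (1 / 50 : ℝ)) ^ 2 * (5 * T - T / 4) =
      19 * (Z * (K + 1)) ^ 2 * ((1 / X) ^ 2 * ((2 * T) ^ (1 / 50 : ℝ)) ^ 2 * T) := by
    ring
  rw [h4]
  calc _ ≤ 19 * (Z * (K + 1)) ^ 2 * (2 * T ^ (94 / 100 : ℝ)) :=
        mul_le_mul_of_nonneg_left h3 (by positivity)
    _ = 38 * (Z * (K + 1)) ^ 2 * T ^ (94 / 100 : ℝ) := by ring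
    _ ≤ (38 * (Z * (K + 1)) ^ 2 + 1) * T ^ (94 / 100 : ℝ) :=
        mul_le_mul_of_nonneg_right (by linarith) (by positivity)

end Pool.Agent.Work.MP_56b8f5_nt.HZ
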