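import Pool.Agent.Work.MP_56b8f5_nt.HZ.StmtsB

/-!
MP_56b8f5_nt, block HZ, item B2 (MVa): mean value of a short Dirichlet polynomial.
-/

set_option autoImplicit false

open MeasureTheory Set Filter Topology

noncomputable section

namespace Pool.Agent.Work.MP_56b8f5_nt.HZB

open Pool.Agent.Work.MP_56b8f5_nt.SH

namespace AuxMVa

theorem chi_eq (t : ℝ) {n : ℕ} (hn : n ≠ 0) :
    chi t n = ((1 / Real.sqrt n : ℝ) : ℂ) *
      Complex.exp (((-(Real.log n) : ℝ) : ℂ) * Complex.I * t) := by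
  have hn0 : (n : ℂ) ≠ 0 := by exact_mod_cast hn
  have hnp : (0 : ℝ) < n := by exact_mod_cast Nat.pos_of_ne_zero hn
  change (n : ℂ) ^ (-(1 / 2 + (t : ℂ) * Complex.I)) = _
  rw [Complex.cpow_def_of_ne_zero hn0]
  have h1 : (1 / Real.sqrt n : ℝ) = Real.exp (-(Real.log n / 2)) := by
    rw [Real.exp_neg, one_div, Real.sqrt_eq_rpow, Real.rpow_def_of_pos hnp]
    congr 2
    ring
  rw [h1, Complex.ofReal_exp, ← Complex.exp_add]
  congr 1
  rw [← Complex.natCast_log]
  push_cast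
  ring

theorem pair (t : ℝ) {h l : ℕ} (hh : h ≠ 0) (hl : l ≠ 0) :
    chi t h * (starRingEnd ℂ) (chi t l) = ((1 / Real.sqrt h * (1 / Real.sqrt l) : ℝ) : ℂ) *
      Complex.exp (((Real.log l - Real.log h : ℝ) : ℂ) * Complex.I * t) := by
  rw [chi_eq t hh, chi_eq t hl, map_mul, Complex.conj_ofReal, ← Complex.exp_conj,
    mul_mul_mul_comm, ← Complex.exp_add, Complex.ofReal_mul]
  congr 2
  rw [map_mul, map_mul, Complex.conj_ofReal, Complex.conj_ofReal, Complex.conj_I]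
  push_cast
  ring

theorem int_exp (x a b : ℝ) (hx : x ≠ 0) :
    ‖∫ t in a..b, Complex.exp ((x : ℂ) * Complex.I * t)‖ ≤ 2 / |x| := by
  have hc : (x : ℂ) * Complex.I ≠ 0 := mul_ne_zero (by exact_mod_cast hx) Complex.I_ne_zero
  rw [integral_exp_mul_complex hc, norm_div]
  have h1 : ‖(x : ℂ) * Complex.I‖ = |x| := by
    rw [norm_mul, Complex.norm_I, mul_one, Complex.norm_real, Real.norm_eq_abs]
  rw [h1]
  refine div_le_div_of_nonneg_right ?_ (abs_nonneg x)
  have h2 : ∀ s : ℝ, ‖Complex.exp ((x : ℂ) * Complex.I * s)‖ = 1 := by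
    intro s
    have h3 : (x : ℂ) * Complex.I * s = ((x * s : ℝ) : ℂ) * Complex.I := by
      push_cast
      ring
    rw [h3, Complex.norm_exp_ofReal_mul_I]
  refine (norm_sub_le _ _).trans (le_of_eq ?_)
  rw [h2, h2]
  norm_num

theorem log_lt {N : ℝ} {h l : ℕ} (hh : h ≠ 0) (hlN : (l : ℝ) ≤ N) (hlt : h < l) :
    1 / N ≤ Real.log l - Real.log h := by
  have hhp : (0 : ℝ) < h := by exact_mod_cast Nat.pos_of_ne_zero hh
  have hle : (h : ℝ) + 1 ≤ l := by exact_mod_cast hlt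
  have hlp : (0 : ℝ) < l := by linarith
  rw [← Real.log_div hlp.ne' hhp.ne']
  refine le_trans ?_ (Real.one_sub_inv_le_log_of_pos (div_pos hlp hhp))
  rw [inv_div]
  have h1 : 1 / N ≤ 1 / (l : ℝ) := one_div_le_one_div_of_le hlp hlN
  have h2 : 1 - (h : ℝ) / l = (l - h) / l := by field_simp
  rw [h2]
  exact h1.trans (div_le_div_of_nonneg_right (by linarith) hlp.le)

theorem log_ne {N : ℝ} (hN : 0 < N) {h l : ℕ} (hh : h ≠ 0) (hl : l ≠ 0) (hhN : (h : ℝ) ≤ N)
    (hlN : (l : ℝ) ≤ N) (hne : h ≠ l) :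
    Real.log l - Real.log h ≠ 0 ∧ 2 / |Real.log l - Real.log h| ≤ 2 * N := by
  have h1 : 1 / N ≤ |Real.log l - Real.log h| := by
    rcases lt_or_gt_of_ne hne with h2 | h2
    · exact (log_lt hh hlN h2).trans (le_abs_self _)
    · rw [abs_sub_comm]
      exact (log_lt hl hhN h2).trans (le_abs_self _)
  have h3 : 0 < 1 / N := by positivity
  have h4 : 0 < |Real.log l - Real.log h| := lt_of_lt_of_le h3 h1
  refine ⟨abs_pos.1 h4, ?_⟩
  rw [div_le_iff₀ h4]
  calc (2 : ℝ) = 2 * N * (1 / N) := by field_simp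
    _ ≤ 2 * N * |Real.log l - Real.log h| := mul_le_mul_of_nonneg_left h1 (by positivity)

theorem term {T N : ℝ} (hT : 0 ≤ T) (hN : 0 < N) {h l : ℕ} (hh : h ≠ 0) (hl : l ≠ 0)
    (hhN : (h : ℝ) ≤ N) (hlN : (l : ℝ) ≤ N) :
    ‖∫ t in T..(2 * T), chi t h * (starRingEnd ℂ) (chi t l)‖ ≤
      (if h = l then T / h else 0) + 2 * N * (1 / Real.sqrt h * (1 / Real.sqrt l)) := by
  have e : (∫ t in T..(2 * T), chi t h * (starRingEnd ℂ) (chi t l)) =
      ((1 / Real.sqrt h * (1 / Real.sqrt l) : ℝ) : ℂ) *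
        ∫ t in T..(2 * T), Complex.exp (((Real.log l - Real.log h : ℝ) : ℂ) * Complex.I * t) := by
    rw [← intervalIntegral.integral_const_mul]
    exact intervalIntegral.integral_congr fun t _ => pair t hh hl
  have hr : 0 ≤ 1 / Real.sqrt h * (1 / Real.sqrt l) := by positivity
  rw [e, norm_mul, Complex.norm_real, Real.norm_of_nonneg hr]
  by_cases hne : h = l
  · subst hne
    rw [if_pos rfl, sub_self]
    have h1 : (∫ t in T..(2 * T), Complex.exp (((0 : ℝ) : ℂ) * Complex.I * t)) = (T : ℂ) := by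
      have h2 : (fun t : ℝ => Complex.exp (((0 : ℝ) : ℂ) * Complex.I * t)) = fun _ => (1 : ℂ) := by
        funext t
        simp
      rw [h2, intervalIntegral.integral_const]
      simp
      ring
    rw [h1, Complex.norm_real, Real.norm_of_nonneg hT]
    have h3 : 1 / Real.sqrt h * (1 / Real.sqrt h) = 1 / (h : ℝ) := by
      rw [div_mul_div_comm, Real.mul_self_sqrt (Nat.cast_nonneg h), one_mul]
    rw [h3]
    have h4 : 0 ≤ 2 * N * (1 / (h : ℝ)) := by positivity
    have h5 : 1 / (h : ℝ) * T = T / h := by ring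
    rw [h5]
    linarith
  · rw [if_neg hne, zero_add]
    obtain ⟨h1, h2⟩ := log_ne hN hh hl hhN hlN hne
    rw [mul_comm (2 * N)]
    exact mul_le_mul_of_nonneg_left ((int_exp _ _ _ h1).trans h2) hr

theorem ev_eq (t : ℝ) (α : DA) : ev t α = ∑ n ∈ α.coeff.support, α.coeff n * chi t n := by
  unfold ev
  rw [MonoidAlgebra.lift_apply]
  rfl

theorem cont_chi {n : ℕ} (hn : n ≠ 0) : Continuous fun t : ℝ => chi t n := by
  have h : (fun t : ℝ => chi t n) = fun t : ℝ => ((1 / Real.sqrt n : ℝ) : ℂ) *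
      Complex.exp (((-(Real.log n) : ℝ) : ℂ) * Complex.I * t) := by
    funext t
    exact chi_eq t hn
  rw [h]
  fun_prop

theorem expand (T : ℝ) (α : DA) (hα : ∀ n ∈ α.coeff.support, n ≠ 0) :
    ((∫ t in T..(2 * T), ‖ev t α‖ ^ 2 : ℝ) : ℂ) =
      ∑ h ∈ α.coeff.support, ∑ l ∈ α.coeff.support,
        (α.coeff h * (starRingEnd ℂ) (α.coeff l)) *
          ∫ t in T..(2 * T), chi t h * (starRingEnd ℂ) (chi t l) := by
  have hc : ∀ h ∈ α.coeff.support, ∀ l ∈ α.coeff.support,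
      Continuous fun t : ℝ => (α.coeff h * (starRingEnd ℂ) (α.coeff l)) *
        (chi t h * (starRingEnd ℂ) (chi t l)) := fun h hh l hl =>
    continuous_const.mul ((cont_chi (hα h hh)).mul
      (Complex.continuous_conj.comp (cont_chi (hα l hl))))
  have e1 : ∀ t : ℝ, ((‖ev t α‖ ^ 2 : ℝ) : ℂ) = ∑ h ∈ α.coeff.support, ∑ l ∈ α.coeff.support,
      (α.coeff h * (starRingEnd ℂ) (α.coeff l)) * (chi t h * (starRingEnd ℂ) (chi t l)) := by
    intro t
    rw [Complex.ofReal_pow, ← Complex.mul_conj', ev_eq, map_sum, Finset.sum_mul_sum]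
    refine Finset.sum_congr rfl fun h _ => Finset.sum_congr rfl fun l _ => ?_
    rw [map_mul]
    ring
  rw [← intervalIntegral.integral_ofReal]
  simp only [e1]
  rw [intervalIntegral.integral_finsetSum]
  · refine Finset.sum_congr rfl fun h hh => ?_
    rw [intervalIntegral.integral_finsetSum]
    · refine Finset.sum_congr rfl fun l hl => ?_
      rw [intervalIntegral.integral_const_mul]
    · intro l hl
      exact (hc h hh l hl).intervalIntegrable _ _
  · intro h hh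
    exact (continuous_finsetSum _ fun l hl => hc h hh l hl).intervalIntegrable _ _

end AuxMVa

open AuxMVa in
theorem pf_MVa : S_MVa := by
  intro T hT α hα
  set s := α.coeff.support with hs
  have hT0 : 0 ≤ T := by linarith
  obtain ⟨N, hN, hNN, hle⟩ : ∃ N : ℝ, 0 < N ∧ N * N = T ∧ ∀ n ∈ s, (n : ℝ) ≤ N := by
    refine ⟨Real.exp (Real.log T / 2), Real.exp_pos _, ?_, fun n hn => ?_⟩
    · rw [← Real.exp_add, add_halves, Real.exp_log (by linarith)]
    · have h1 : (0 : ℝ) < n := by exact_mod_cast Nat.pos_of_ne_zero (hα n hn).1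
      rw [← Real.log_le_log_iff h1 (Real.exp_pos _), Real.log_exp]
      exact (hα n hn).2
  have hne : ∀ n ∈ s, n ≠ 0 := fun n hn => (hα n hn).1
  have hcard : (s.card : ℝ) ≤ N := by
    have h1 : s ⊆ Finset.Icc 1 ⌊N⌋₊ := by
      intro n hn
      rw [Finset.mem_Icc]
      exact ⟨Nat.pos_of_ne_zero (hne n hn), Nat.le_floor (hle n hn)⟩
    have h2 := Finset.card_le_card h1
    rw [Nat.card_Icc, Nat.add_sub_cancel] at h2
    exact le_trans (by exact_mod_cast h2) (Nat.floor_le hN.le)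
  have hN2 : N2 α = ∑ n ∈ s, ‖α.coeff n‖ ^ 2 / (n : ℝ) := rfl
  have hexp := expand T α hne
  have h0 : (∫ t in T..(2 * T), ‖ev t α‖ ^ 2) ≤
      ‖((∫ t in T..(2 * T), ‖ev t α‖ ^ 2 : ℝ) : ℂ)‖ := by
    rw [Complex.norm_real]
    exact Real.le_norm_self _
  rw [hexp] at h0
  refine h0.trans ?_
  have h1 : ∀ h ∈ s, ∀ l ∈ s, ‖(α.coeff h * (starRingEnd ℂ) (α.coeff l)) *
      ∫ t in T..(2 * T), chi t h * (starRingEnd ℂ) (chi t l)‖ ≤
      (if h = l then T * (‖α.coeff h‖ ^ 2 / h) else 0) +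
        2 * N * ((‖α.coeff h‖ * (1 / Real.sqrt h)) * (‖α.coeff l‖ * (1 / Real.sqrt l))) := by
    intro h hh l hl
    rw [norm_mul, norm_mul, RCLike.norm_conj]
    refine (mul_le_mul_of_nonneg_left (term hT0 hN (hne h hh) (hne l hl) (hle h hh) (hle l hl))
      (by positivity)).trans (le_of_eq ?_)
    by_cases hhl : h = l
    · subst hhl
      rw [if_pos rfl, if_pos rfl]
      ring
    · rw [if_neg hhl, if_neg hhl]
      ring
  refine (norm_sum_le _ _).trans ((Finset.sum_le_sum fun h hh => (norm_sum_le _ _).trans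
    (Finset.sum_le_sum fun l hl => h1 h hh l hl)).trans ?_)
  have h2 : ∑ h ∈ s, ∑ l ∈ s, ((if h = l then T * (‖α.coeff h‖ ^ 2 / h) else 0) +
      2 * N * ((‖α.coeff h‖ * (1 / Real.sqrt h)) * (‖α.coeff l‖ * (1 / Real.sqrt l)))) =
      T * N2 α + 2 * N * (∑ n ∈ s, ‖α.coeff n‖ * (1 / Real.sqrt n)) ^ 2 := by
    simp only [Finset.sum_add_distrib]
    congr 1
    · rw [hN2, Finset.mul_sum]
      refine Finset.sum_congr rfl fun h hh => ?_
      rw [Finset.sum_ite_eq, if_pos hh]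
    · rw [sq, Finset.sum_mul_sum, Finset.mul_sum]
      refine Finset.sum_congr rfl fun h _ => ?_
      rw [Finset.mul_sum]
  rw [h2]
  have h3 : (∑ n ∈ s, ‖α.coeff n‖ * (1 / Real.sqrt n)) ^ 2 ≤ N * N2 α := by
    have h4 := sq_sum_le_card_mul_sum_sq (s := s) (f := fun n : ℕ => ‖α.coeff n‖ * (1 / Real.sqrt n))
    have h5 : ∑ n ∈ s, (‖α.coeff n‖ * (1 / Real.sqrt n)) ^ 2 = N2 α := by
      rw [hN2]
      refine Finset.sum_congr rfl fun n _ => ?_
      rw [mul_pow, div_pow, one_pow, Real.sq_sqrt (Nat.cast_nonneg n)]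
      ring
    rw [h5] at h4
    refine h4.trans (mul_le_mul_of_nonneg_right hcard ?_)
    rw [← h5]
    positivity
  have h6 : 2 * N * (∑ n ∈ s, ‖α.coeff n‖ * (1 / Real.sqrt n)) ^ 2 ≤ 2 * N * (N * N2 α) :=
    mul_le_mul_of_nonneg_left h3 (by positivity)
  have h7 : 2 * N * (N * N2 α) = 2 * T * N2 α := by
    rw [← hNN]
    ring
  linarith

end Pool.Agent.Work.MP_56b8f5_nt.HZB
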