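import Pool.Agent.Work.MP_56b8f5_nt.HZ.StmtsC

/-!
MP_56b8f5_nt, block HZ, item Yb: the mean square between the lines.
-/

set_option autoImplicit false

open MeasureTheory Set Filter Topology

noncomputable section

namespace Pool.Agent.Work.MP_56b8f5_nt.HZ

open Pool.Agent.Work.MP_56b8f5_nt.EM Pool.Agent.Work.MP_56b8f5_nt.WM Pool.Agent.Work.MP_56b8f5_nt.SH
open Pool.Agent.Work.MP_56b8f5_nt.HZG

namespace I_Yb

theorem exP : ∃ P : ℝ → ℝ, IsP P ∧ (∀ ξ : ℝ, 0 ≤ ξ → ξ ≤ 1 / 2 → P ξ = 1) := by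
  have hz : ∀ u : ℝ, 2 ≤ |u| → cut u = 0 := by
    intro u h
    unfold cut
    rcases le_abs.mp h with h | h
    · rw [Real.smoothTransition.zero_of_nonpos (by linarith : 2 - u ≤ 0), zero_mul]
    · rw [Real.smoothTransition.zero_of_nonpos (by linarith : 2 + u ≤ 0), mul_zero]
  refine ⟨fun ξ => cut (2 * ξ), ⟨?_, ?_, ?_⟩, ?_⟩
  · unfold cut
    exact (Real.smoothTransition.contDiff.comp (by fun_prop)).mul
      (Real.smoothTransition.contDiff.comp (by fun_prop))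
  · refine HasCompactSupport.intro (isCompact_Icc : IsCompact (Icc (-1 : ℝ) 1)) fun x hx => ?_
    apply hz
    by_contra h
    push Not at h
    rw [abs_lt] at h
    exact hx ⟨by linarith [h.1], by linarith [h.2]⟩
  · intro ξ hξ
    apply hz
    rw [abs_of_nonneg (by linarith)]
    linarith
  · intro ξ h0 h1
    show cut (2 * ξ) = 1
    unfold cut
    rw [Real.smoothTransition.one_of_one_le (by linarith),
      Real.smoothTransition.one_of_one_le (by linarith), one_mul]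

theorem cont_Ds (N : ℕ) (D : ℕ → ℂ) : Continuous (Ds N D) := by
  unfold Ds
  refine continuous_finsetSum _ fun n hn => ?_
  have hn1 : (n : ℂ) ≠ 0 := by
    have := (Finset.mem_Icc.mp hn).1
    exact_mod_cast (by omega : n ≠ 0)
  exact continuous_const.mul (continuous_neg.const_cpow (Or.inl hn1))

/-- the final computation -/
theorem calc_final {C₁ Ch Ct T X b J₁ J₂ : ℝ} (hC₁ : 1 ≤ C₁) (hCh : 1 ≤ Ch) (hCt : 1 ≤ Ct)
    (hT : 1 ≤ T) (hX : 1 ≤ X) (hb : 0 ≤ b) (hb' : b ≤ 3 / 2) (hJ₁0 : 0 ≤ J₁) (hJ₂0 : 0 ≤ J₂)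
    (hJ₁ : J₁ ≤ 5 * Ch * T ^ (1 + b / 50 : ℝ) * X) (hJ₂ : J₂ ≤ 2 * Ct * T ^ (94 / 100 : ℝ)) :
    C₁ * (J₁ ^ (1 - b / (3 / 2) : ℝ) * J₂ ^ (b / (3 / 2) : ℝ)) ≤
      10 * C₁ * Ch * Ct * T * X * Real.exp (-(b * Real.log T / 50)) := by
  set θ : ℝ := b / (3 / 2) with hθ
  have hθ0 : 0 ≤ θ := by positivity
  have hθ1 : θ ≤ 1 := by
    rw [hθ, div_le_one (by norm_num)]
    exact hb'
  have hT0 : 0 < T := by linarith
  have one_rpow : ∀ x e : ℝ, 1 ≤ x → 0 ≤ e → e ≤ 1 → x ^ e ≤ x := by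
    intro x e hx he he'
    calc x ^ e ≤ x ^ (1 : ℝ) := Real.rpow_le_rpow_of_exponent_le hx he'
      _ = x := Real.rpow_one x
  have h1 : J₁ ^ (1 - θ) ≤ 5 * Ch * T ^ ((1 + b / 50) * (1 - θ)) * X := by
    have h2 : J₁ ^ (1 - θ) ≤ (5 * Ch * T ^ (1 + b / 50 : ℝ) * X) ^ (1 - θ) :=
      Real.rpow_le_rpow hJ₁0 hJ₁ (by linarith)
    refine h2.trans ?_
    rw [Real.mul_rpow (by positivity) (by positivity), Real.mul_rpow (by positivity) (by positivity),
      ← Real.rpow_mul hT0.le]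
    have h3 := one_rpow (5 * Ch) (1 - θ) (by linarith) (by linarith) (by linarith)
    have h4 := one_rpow X (1 - θ) hX (by linarith) (by linarith)
    gcongr
  have h2 : J₂ ^ θ ≤ 2 * Ct * T ^ ((94 / 100) * θ) := by
    have h2 : J₂ ^ θ ≤ (2 * Ct * T ^ (94 / 100 : ℝ)) ^ θ := Real.rpow_le_rpow hJ₂0 hJ₂ hθ0
    refine h2.trans ?_
    rw [Real.mul_rpow (by positivity) (by positivity), ← Real.rpow_mul hT0.le]
    have h3 := one_rpow (2 * Ct) θ (by linarith) hθ0 hθ1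
    gcongr
  have h3 : J₁ ^ (1 - θ) * J₂ ^ θ ≤
      (5 * Ch * T ^ ((1 + b / 50) * (1 - θ)) * X) * (2 * Ct * T ^ ((94 / 100) * θ)) :=
    mul_le_mul h1 h2 (Real.rpow_nonneg hJ₂0 _) (by positivity)
  have h4 : T ^ ((1 + b / 50) * (1 - θ)) * T ^ ((94 / 100) * θ) ≤
      T * Real.exp (-(b * Real.log T / 50)) := by
    rw [← Real.rpow_add hT0]
    have h5 : T * Real.exp (-(b * Real.log T / 50)) = T ^ (1 - b / 50) := by
      rw [Real.rpow_def_of_pos hT0]
      nth_rewrite 1 [← Real.exp_log hT0]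
      rw [← Real.exp_add]
      congr 1
      ring
    rw [h5]
    refine Real.rpow_le_rpow_of_exponent_le hT ?_
    have h6 : b = 3 / 2 * θ := by
      rw [hθ]
      ring
    rw [h6]
    nlinarith
  calc C₁ * (J₁ ^ (1 - θ) * J₂ ^ θ)
      ≤ C₁ * ((5 * Ch * T ^ ((1 + b / 50) * (1 - θ)) * X) * (2 * Ct * T ^ ((94 / 100) * θ))) := by
        gcongr
    _ = 10 * C₁ * Ch * Ct * X * (T ^ ((1 + b / 50) * (1 - θ)) * T ^ ((94 / 100) * θ)) := by ring
    _ ≤ 10 * C₁ * Ch * Ct * X * (T * Real.exp (-(b * Real.log T / 50))) := by gcongr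
    _ = _ := by ring

end I_Yb

open I_Yb

theorem Yb_pf (hG1 : HZG.S_G1) (hQc : S_Qc) (hDsM : S_DsM) (hLh : S_Lh) (hLt : S_Lt)
    (hGro : S_Gro) : S_Yb := by
  intro B hB
  obtain ⟨P, hP, hP1⟩ := exP
  obtain ⟨C₁, T₁, hC₁, hT₁, hG⟩ := hG1
  obtain ⟨Ch, Th, hCh, hTh, hH⟩ := hLh B hB P hP
  obtain ⟨Ct, Tt, hCt, hTt, hL⟩ := hLt B hB P hP hP1
  obtain ⟨Tg, hTg, hGr⟩ := hGro P hP
  refine ⟨P, hP, hP1, 10 * C₁ * Ch * Ct, max (max T₁ Th) (max Tt Tg), ?_,
    hT₁.trans ((le_max_left _ _).trans (le_max_left _ _)), ?_⟩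
  · have h1 : 1 ≤ C₁ * Ch := by nlinarith
    have h2 : 1 ≤ C₁ * Ch * Ct := by nlinarith
    nlinarith
  intro T hT ε c η M S l y hε hε' hS β hβ hβ' b τ hb hb'
  have hT1 : T₁ ≤ T := ((le_max_left _ _).trans (le_max_left _ _)).trans hT
  have hT2 : Th ≤ T := ((le_max_right _ _).trans (le_max_left _ _)).trans hT
  have hT3 : Tt ≤ T := ((le_max_left _ _).trans (le_max_right _ _)).trans hT
  have hT4 : Tg ≤ T := ((le_max_right _ _).trans (le_max_right _ _)).trans hT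
  have hT5 : 3 ≤ T := hT₁.trans hT1
  obtain ⟨⟨N, q, hN, hq⟩, hpr, hst⟩ := hQc B hB ε c η (2 * T) M S l y (by linarith) hε hε' hS β hβ hβ'
  obtain ⟨H, hHd, hHb, hHF⟩ := hGr T hT4 M S l β N q hq b τ hb hb'
  set F : ℂ → ℂ := fun s => (riemannZeta s * MM P (T ^ (1 / 10 : ℝ)) s - 1) * Ds N (qt q b τ) s
    with hF
  set X : ℝ := Real.exp (β ^ 2 * st M S) with hX
  have hX1 : 1 ≤ X := by
    refine Real.one_le_exp ?_
    have : 0 ≤ st M S := by
      unfold st se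
      exact Finset.sum_nonneg fun j _ => Finset.sum_nonneg fun p _ => by positivity
    positivity
  have hσ : (1 / 2 + b - 1 / 2) / (3 / 2) = b / (3 / 2) := by ring
  have key := hG T hT1 F H hHd.diffContOnCl hHb (by
    intro s _ _ h1 _
    refine hHF s ?_
    rintro rfl
    rw [Complex.one_im] at h1
    linarith) (1 / 2 + b) (by linarith) (by linarith)
  rw [hσ] at key
  -- the left side
  have hleft : ∫ v in (T / 3)..(4 * T), ‖riemannZeta ((1 / 2 + b : ℝ) + v * Complex.I) *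
      MM P (T ^ (1 / 10 : ℝ)) ((1 / 2 + b : ℝ) + v * Complex.I) - 1‖ ^ 2 * Nb M S l β (v + τ) ^ 2 =
      MS F (1 / 2 + b) (T / 3) (4 * T) := by
    unfold MS
    refine intervalIntegral.integral_congr fun v _ => ?_
    show _ = ‖(riemannZeta (((1 / 2 + b : ℝ) : ℂ) + v * Complex.I) *
      MM P (T ^ (1 / 10 : ℝ)) (((1 / 2 + b : ℝ) : ℂ) + v * Complex.I) - 1) *
      Ds N (qt q b τ) (((1 / 2 + b : ℝ) : ℂ) + v * Complex.I)‖ ^ 2
    have h1 : ‖Ds N (qt q b τ) (((1 / 2 + b : ℝ) : ℂ) + v * Complex.I)‖ = Nb M S l β (v + τ) := by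
      unfold Nb
      rw [hDsM.2 N q b τ v, hq.eq (v + τ)]
    rw [norm_mul, mul_pow, h1]
  rw [hleft]
  refine key.trans ?_
  have hMS0 : ∀ x : ℝ, 0 ≤ MS F x (T / 4) (5 * T) := by
    intro x
    unfold MS
    exact intervalIntegral.integral_nonneg (by linarith) fun v _ => by positivity
  have hTi : (T ^ 50)⁻¹ ≤ 1 := inv_le_one_of_one_le₀ (one_le_pow₀ (by linarith))
  have hTi0 : 0 ≤ (T ^ 50)⁻¹ := by positivity
  have hA1 : 1 ≤ T ^ (1 + b / 50 : ℝ) := Real.one_le_rpow (by linarith) (by positivity)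
  have hA2 : 1 ≤ T ^ (94 / 100 : ℝ) := Real.one_le_rpow (by linarith) (by norm_num)
  refine calc_final hC₁ hCh hCt (by linarith) hX1 hb hb' (by linarith [hMS0 (1 / 2)])
    (by linarith [hMS0 2]) ?_ ?_
  · -- the line one half
    obtain ⟨hI1, hI2⟩ := hH T hT2 M S l β N q hβ hβ' hN hq hpr hst b τ hb hb'
    set f : ℝ → ℂ := fun v => F (1 / 2 + v * Complex.I) with hf
    set g : ℝ → ℂ := fun v => Ds N (qt q b τ) (1 / 2 + v * Complex.I) with hg
    have hcg : Continuous g := (cont_Ds _ _).comp (by fun_prop)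
    have hne : ∀ v ∈ uIcc (T / 4) (5 * T), (1 / 2 + (v : ℂ) * Complex.I) ≠ 1 := by
      intro v hv h
      rw [uIcc_of_le (by linarith)] at hv
      have := congrArg Complex.im h
      simp at this
      linarith [hv.1]
    have hcf : ContinuousOn f (uIcc (T / 4) (5 * T)) := by
      have h1 : ContinuousOn (fun v : ℝ => H (1 / 2 + v * Complex.I) /
          ((1 / 2 + v * Complex.I) - 1)) (uIcc (T / 4) (5 * T)) := by
        refine ContinuousOn.div ?_ (by fun_prop) fun v hv => sub_ne_zero.mpr (hne v hv)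
        exact (hHd.continuous.comp (by fun_prop)).continuousOn
      refine h1.congr fun v hv => ?_
      exact hHF _ (hne v hv)
    have hfg : ∀ v : ℝ, riemannZeta (1 / 2 + v * Complex.I) *
        MM P (T ^ (1 / 10 : ℝ)) (1 / 2 + v * Complex.I) *
        Ds N (qt q b τ) (1 / 2 + v * Complex.I) = f v + g v := by
      intro v
      simp only [hf, hg, hF]
      ring
    have e1 : MS F (1 / 2) (T / 4) (5 * T) = ∫ v in (T / 4)..(5 * T), ‖f v‖ ^ 2 := by
      unfold MS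
      refine intervalIntegral.integral_congr fun v _ => ?_
      simp only [hf]
      push_cast
      rfl
    have e2 : ∫ v in (T / 4)..(5 * T), ‖f v‖ ^ 2 ≤
        ∫ v in (T / 4)..(5 * T), (2 * ‖f v + g v‖ ^ 2 + 2 * ‖g v‖ ^ 2) := by
      refine intervalIntegral.integral_mono_on (by linarith) ?_ ?_ fun v _ => ?_
      · exact (hcf.norm.pow 2).intervalIntegrable
      · exact ((((hcf.add hcg.continuousOn).norm.pow 2).const_smul (2 : ℝ)).add
          ((hcg.norm.pow 2).continuousOn.const_smul (2 : ℝ))).intervalIntegrable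
      · have h1 : ‖f v‖ ≤ ‖f v + g v‖ + ‖g v‖ := by
          have := norm_sub_le (f v + g v) (g v)
          rwa [add_sub_cancel_right] at this
        have h2 : 0 ≤ ‖f v‖ := norm_nonneg _
        nlinarith [sq_nonneg (‖f v + g v‖ - ‖g v‖)]
    have i1 : IntervalIntegrable (fun v => ‖f v + g v‖ ^ 2) volume (T / 4) (5 * T) :=
      ((hcf.add hcg.continuousOn).norm.pow 2).intervalIntegrable
    have i2 : IntervalIntegrable (fun v => ‖g v‖ ^ 2) volume (T / 4) (5 * T) :=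
      (hcg.norm.pow 2).intervalIntegrable _ _
    rw [intervalIntegral.integral_add (i1.const_mul 2) (i2.const_mul 2),
      intervalIntegral.integral_const_mul, intervalIntegral.integral_const_mul] at e2
    have e3 : ∫ v in (T / 4)..(5 * T), ‖f v + g v‖ ^ 2 ≤ Ch * T ^ (1 + b / 50 : ℝ) * X := by
      refine le_trans (le_of_eq ?_) hI1
      refine intervalIntegral.integral_congr fun v _ => ?_
      show ‖f v + g v‖ ^ 2 = ‖riemannZeta (1 / 2 + v * Complex.I) *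
        MM P (T ^ (1 / 10 : ℝ)) (1 / 2 + v * Complex.I) *
        Ds N (qt q b τ) (1 / 2 + v * Complex.I)‖ ^ 2
      rw [hfg]
    have e4 : ∫ v in (T / 4)..(5 * T), ‖g v‖ ^ 2 ≤ Ch * T ^ (1 + b / 50 : ℝ) * X := hI2
    rw [e1]
    have e5 : 1 ≤ Ch * T ^ (1 + b / 50 : ℝ) * X := by
      have h1 : 1 ≤ Ch * T ^ (1 + b / 50 : ℝ) := one_le_mul_of_one_le_of_one_le hCh hA1
      exact one_le_mul_of_one_le_of_one_le h1 hX1
    have e6 : 5 * Ch * T ^ (1 + b / 50 : ℝ) * X = 5 * (Ch * T ^ (1 + b / 50 : ℝ) * X) := by ring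
    rw [e6]
    linarith
  · have h1 := hL T hT3 M S l β N q hβ hβ' hq b τ hb hb'
    have e1 : MS F 2 (T / 4) (5 * T) ≤ Ct * T ^ (94 / 100 : ℝ) := by
      refine le_trans (le_of_eq ?_) h1
      unfold MS
      refine intervalIntegral.integral_congr fun v _ => ?_
      simp only [hF]
      push_cast
      rfl
    have e2 : 1 ≤ Ct * T ^ (94 / 100 : ℝ) := one_le_mul_of_one_le_of_one_le hCt hA2
    have e6 : 2 * Ct * T ^ (94 / 100 : ℝ) = 2 * (Ct * T ^ (94 / 100 : ℝ)) := by ring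
    rw [e6]
    linarith

end Pool.Agent.Work.MP_56b8f5_nt.HZ
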