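import Pool.Agent.Work.MP_56b8f5_nt.HZ.StmtsA

/-!
Item Idn of the block HZ (helper22): the identity for `log |zeta(1/2+it)|`.
-/

set_option autoImplicit false

open MeasureTheory Set Filter Topology

noncomputable section

namespace Pool.Agent.Work.MP_56b8f5_nt.HZ

open Pool.Agent.Work.MP_56b8f5_nt.EM Pool.Agent.Work.MP_56b8f5_nt.WM Pool.Agent.Work.MP_56b8f5_nt.SH

namespace I_Idn

/-! ### The cut-off functions -/

theorem tsupport_subset_Icc {b : ℝ → ℝ} {p q : ℝ} (h : ∀ x, b x ≠ 0 → p ≤ x ∧ x ≤ q) :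
    tsupport b ⊆ Icc p q :=
  closure_minimal (fun x hx => h x hx) isClosed_Icc

theorem isB_of {b : ℝ → ℝ} {p q : ℝ} (hs : ContDiff ℝ ((⊤ : ℕ∞) : WithTop ℕ∞) b)
    (h : ∀ x, b x ≠ 0 → p ≤ x ∧ x ≤ q) : IsB b :=
  ⟨hs, HasCompactSupport.of_support_subset_isCompact isCompact_Icc (fun x hx => h x hx)⟩

theorem cut_ne {u : ℝ} (h : cut u ≠ 0) : -2 ≤ u ∧ u ≤ 2 := by
  unfold cut at h
  constructor
  · by_contra hc
    push Not at hc
    apply h
    rw [Real.smoothTransition.zero_of_nonpos (x := 2 + u) (by linarith), mul_zero]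
  · by_contra hc
    push Not at hc
    apply h
    rw [Real.smoothTransition.zero_of_nonpos (x := 2 - u) (by linarith), zero_mul]

theorem cut_one {u : ℝ} (h : |u| ≤ 1) : cut u = 1 := by
  have := abs_le.mp h
  unfold cut
  rw [Real.smoothTransition.one_of_one_le (by linarith), Real.smoothTransition.one_of_one_le
    (by linarith), one_mul]

theorem cut_smooth : ContDiff ℝ ((⊤ : ℕ∞) : WithTop ℕ∞) cut := by
  unfold cut
  exact (Real.smoothTransition.contDiff.comp (contDiff_const.sub contDiff_id)).mul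
    (Real.smoothTransition.contDiff.comp (contDiff_const.add contDiff_id))

theorem cy_ne {y : ℝ} (h : cy y ≠ 0) : -(3 / 10) ≤ y ∧ y ≤ 5 / 2 := by
  unfold cy at h
  constructor
  · by_contra hc
    push Not at hc
    apply h
    rw [Real.smoothTransition.zero_of_nonpos (x := 10 * y + 3) (by linarith), zero_mul]
  · by_contra hc
    push Not at hc
    apply h
    rw [Real.smoothTransition.zero_of_nonpos (x := 5 / 2 - y) (by linarith), mul_zero]

theorem cy_smooth : ContDiff ℝ ((⊤ : ℕ∞) : WithTop ℕ∞) cy := by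
  unfold cy
  exact (Real.smoothTransition.contDiff.comp
      ((contDiff_const.mul contDiff_id).add contDiff_const)).mul
    (Real.smoothTransition.contDiff.comp (contDiff_const.sub contDiff_id))

theorem cv_ne {H v : ℝ} (hH : 0 < H) (h : cv H v ≠ 0) : -(2 * H) ≤ v ∧ v ≤ 2 * H := by
  unfold cv at h
  obtain ⟨h1, h2⟩ := cut_ne h
  rw [le_div_iff₀ hH] at h1
  rw [div_le_iff₀ hH] at h2
  exact ⟨by linarith, by linarith⟩

theorem cv_smooth (H : ℝ) : ContDiff ℝ ((⊤ : ℕ∞) : WithTop ℕ∞) (cv H) := by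
  unfold cv
  exact cut_smooth.comp (contDiff_id.div_const H)

theorem cn_ne {u : ℝ} (h : cn u ≠ 0) : -(1 / 4) ≤ u ∧ u ≤ 1 / 4 := by
  unfold cn at h
  obtain ⟨h1, h2⟩ := cut_ne h
  exact ⟨by linarith, by linarith⟩

theorem cn_smooth : ContDiff ℝ ((⊤ : ℕ∞) : WithTop ℕ∞) cn := by
  unfold cn
  exact cut_smooth.comp (contDiff_const.mul contDiff_id)

/-- linearity of `DD` in the pair `(g, q)` -/
theorem DD_congr {b₁ b₂ : ℝ → ℝ} {g g' : ℂ → ℝ} {q q' : ℂ → ℂ} {z : ℂ} (hg : g z = g' z)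
    (hq : q z = q' z) : DD b₁ b₂ g q z = DD b₁ b₂ g' q' z := by
  unfold DD
  rw [hg, hq]

theorem DD_add (b₁ b₂ : ℝ → ℝ) (g g' : ℂ → ℝ) (q q' : ℂ → ℂ) (z : ℂ) :
    DD b₁ b₂ (fun z => g z + g' z) (fun z => q z + q' z) z =
      DD b₁ b₂ g q z + DD b₁ b₂ g' q' z := by
  unfold DD
  rw [Complex.add_re, Complex.add_im]
  ring

theorem DD_sub (b₁ b₂ : ℝ → ℝ) (g g' : ℂ → ℝ) (q q' : ℂ → ℂ) (z : ℂ) :
    DD b₁ b₂ (fun z => g z - g' z) (fun z => q z - q' z) z =
      DD b₁ b₂ g q z - DD b₁ b₂ g' q' z := by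
  unfold DD
  rw [Complex.sub_re, Complex.sub_im]
  ring

end I_Idn

open I_Idn in
theorem Idn_pf (hGr : S_Gr) (hKHh : S_KHh) : S_Idn := by
  classical
  intro κ hκ c X a H t hX ha ha' hH ht hz0 hza Z hZ
  obtain ⟨hHd, hHw, -⟩ := hKHh κ hκ
  set s₁ : ℂ := 1 / 2 + t * Complex.I with hs₁
  have hs₁im : s₁.im = t := by simp [hs₁]
  have hH0 : 0 < H := by linarith
  set f : ℂ → ℂ := fun z => riemannZeta (s₁ + z) with hf
  set R : ℝ := 3 * H with hR
  have hR0 : 0 < R := by positivity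
  have hne1 : ∀ z : ℂ, ‖z‖ ≤ R → s₁ + z ≠ 1 := by
    intro z hz h1
    have h2 : (s₁ + z).im = 0 := by rw [h1, Complex.one_im]
    rw [Complex.add_im, hs₁im] at h2
    have h3 := Complex.abs_im_le_norm z
    have h4 := abs_le.mp (h3.trans hz)
    linarith [h4.1]
  have hζan : ∀ s : ℂ, s ≠ 1 → AnalyticAt ℂ riemannZeta s := by
    intro s hs
    have hopen : IsOpen {s : ℂ | s ≠ 1} := isOpen_ne
    have hd : DifferentiableOn ℂ riemannZeta {s : ℂ | s ≠ 1} :=
      fun w hw => (differentiableAt_riemannZeta hw).differentiableWithinAt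
    exact hd.analyticAt (hopen.mem_nhds hs)
  have hsh : ∀ z : ℂ, AnalyticAt ℂ (fun z : ℂ => s₁ + z) z :=
    fun z => analyticAt_const.add analyticAt_id
  have hfan : AnalyticOnNhd ℂ f (Metric.closedBall 0 R) := by
    intro z hz
    rw [mem_closedBall_zero_iff] at hz
    exact AnalyticAt.fun_comp (hζan _ (hne1 z hz)) (hsh z)
  have hf0 : f 0 ≠ 0 := by
    simp only [hf, add_zero]
    exact hz0
  have hfa : f (a : ℂ) ≠ 0 := hza
  -- the zeros
  set Z' : Finset ℂ := Z.image (fun ρ => ρ - s₁) with hZ'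
  have hZ'm : ∀ ρ, ρ ∈ Z' ↔ f ρ = 0 ∧ ‖ρ‖ ≤ R := by
    intro ρ
    rw [hZ', Finset.mem_image]
    constructor
    · rintro ⟨ρ₀, h1, rfl⟩
      obtain ⟨h2, h3⟩ := (hZ ρ₀).mp h1
      refine ⟨?_, h3⟩
      simp only [hf, add_sub_cancel]
      exact h2
    · rintro ⟨h1, h2⟩
      refine ⟨s₁ + ρ, (hZ _).mpr ⟨h1, ?_⟩, by ring⟩
      rw [add_sub_cancel_left]
      exact h2
  have hord : ∀ ρ ∈ Z, analyticOrderNatAt f (ρ - s₁) = analyticOrderNatAt riemannZeta ρ := by
    intro ρ _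
    have h1 : analyticOrderAt (riemannZeta ∘ (fun z : ℂ => s₁ + z)) (ρ - s₁) =
        analyticOrderAt riemannZeta ((fun z : ℂ => s₁ + z) (ρ - s₁)) := by
      refine analyticOrderAt_comp_of_deriv_ne_zero (hsh _) ?_
      rw [deriv_const_add]
      simp
    have h2 : (fun z : ℂ => s₁ + z) (ρ - s₁) = ρ := by
      simp only [add_sub_cancel]
    rw [h2] at h1
    unfold analyticOrderNatAt
    rw [← h1]
    rfl
  have hsumZ : ∀ F : ℂ → ℝ, ∑ ρ ∈ Z', (analyticOrderNatAt f ρ : ℝ) * F ρ =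
      ∑ ρ ∈ Z, mz ρ * F (ρ - s₁) := by
    intro F
    rw [hZ', Finset.sum_image (fun x _ y _ hxy => sub_left_injective hxy)]
    refine Finset.sum_congr rfl fun ρ hρ => ?_
    rw [hord ρ hρ]
    rfl
  -- the cut-offs
  have hBy : IsB cy := isB_of cy_smooth (fun x hx => cy_ne hx)
  have hBv : IsB (cv H) := isB_of (cv_smooth H) (fun x hx => cv_ne hH0 hx)
  have hBn : IsB cn := isB_of cn_smooth (fun x hx => cn_ne hx)
  have hsupp1 : ∀ z : ℂ, z.re ∈ tsupport cy → z.im ∈ tsupport (cv H) → ‖z‖ < R := by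
    intro z h1 h2
    have h3 := tsupport_subset_Icc (fun x hx => cy_ne hx) h1
    have h4 := tsupport_subset_Icc (fun x hx => cv_ne hH0 hx) h2
    have h5 := Complex.norm_le_abs_re_add_abs_im z
    have h6 : |z.re| ≤ 5 / 2 := abs_le.mpr ⟨by linarith [h3.1], h3.2⟩
    have h7 : |z.im| ≤ 2 * H := abs_le.mpr ⟨h4.1, h4.2⟩
    linarith
  have hsupp2 : ∀ z : ℂ, z.re ∈ tsupport cn → z.im ∈ tsupport cn → ‖z‖ < R := by
    intro z h1 h2
    have h3 := tsupport_subset_Icc (fun x hx => cn_ne hx) h1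
    have h4 := tsupport_subset_Icc (fun x hx => cn_ne hx) h2
    have h5 := Complex.norm_le_abs_re_add_abs_im z
    have h6 : |z.re| ≤ 1 / 4 := abs_le.mpr ⟨h3.1, h3.2⟩
    have h7 : |z.im| ≤ 1 / 4 := abs_le.mpr ⟨h4.1, h4.2⟩
    linarith
  have hanorm : ‖(a : ℂ)‖ < R := by
    rw [Complex.norm_real, Real.norm_of_nonneg ha.le]
    linarith
  -- the four applications
  obtain ⟨hA1, hA2⟩ := hGr R f hR0 hfan hf0 Z' hZ'm cy (cv H) hBy hBv hsupp1
  obtain ⟨-, hB2⟩ := hGr R f hR0 hfan hf0 Z' hZ'm cn cn hBn hBn hsupp2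
  set H₀ : ℂ → ℂ := fun z => Hh κ (X * (z - a)) + ((Real.log X - c : ℝ) : ℂ) with hH₀
  have hH₀d : Differentiable ℂ H₀ := by
    have h1 : Differentiable ℂ (fun z : ℂ => (X : ℂ) * (z - a)) :=
      (differentiable_const _).mul (differentiable_id.sub (differentiable_const _))
    exact (hHd.comp h1).add (differentiable_const _)
  have hH₀' : ∀ z : ℂ, deriv H₀ z = X * deriv (Hh κ) (X * (z - a)) := by
    intro z
    have h1 : HasDerivAt (fun z : ℂ => (X : ℂ) * (z - a)) X z := by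
      simpa using ((hasDerivAt_id z).sub_const (a : ℂ)).const_mul (X : ℂ)
    have h2 : HasDerivAt (Hh κ) (deriv (Hh κ) (X * (z - a))) (X * (z - a)) :=
      (hHd _).hasDerivAt
    have h3 := (h2.comp z h1).add_const ((Real.log X - c : ℝ) : ℂ)
    rw [mul_comm]
    exact h3.deriv
  obtain ⟨i1, e1⟩ := hA1 H₀ hH₀d
  obtain ⟨i2, e2⟩ := hA2 a hanorm hfa
  obtain ⟨i3, e3⟩ := hB2 a hanorm hfa
  obtain ⟨i4, e4⟩ := hB2 0 (by rw [norm_zero]; exact hR0) hf0
  -- the integrand
  have hae : (fun z : ℂ => Real.log ‖f z‖ * DD cy (cv H) (fun z => (H₀ z).re) (deriv H₀) z +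
      Real.log ‖f z‖ * DD cy (cv H) (fun z => Real.log ‖z - a‖) (fun z => 1 / (z - a)) z -
      Real.log ‖f z‖ * DD cn cn (fun z => Real.log ‖z - a‖) (fun z => 1 / (z - a)) z +
      Real.log ‖f z‖ * DD cn cn (fun z => Real.log ‖z - 0‖) (fun z => 1 / (z - 0)) z) =ᵐ[volume]
      fun z => Real.log ‖riemannZeta (s₁ + z)‖ * Cu κ c X a H z := by
    have hnull : ∀ᵐ z : ℂ ∂volume, z ≠ (a : ℂ) := by
      simp [ae_iff, measure_singleton]
    filter_upwards [hnull] with z hz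
    have hz' : z - (a : ℂ) ≠ 0 := sub_ne_zero.mpr hz
    have hXC : (X : ℂ) ≠ 0 := by exact_mod_cast hX.ne'
    have k1 : DD cy (cv H) (fun z => S1 κ c (X * (z - a)))
        (fun z => kt κ (X * (z - a)) / (z - a)) z =
        DD cy (cv H) (fun z => (H₀ z).re + Real.log ‖z - a‖)
          (fun z => deriv H₀ z + 1 / (z - a)) z := by
      refine DD_congr ?_ ?_
      · simp only [S1, hH₀]
        rw [norm_mul, Real.log_mul (by rw [Complex.norm_real]; exact norm_ne_zero_iff.mpr hX.ne')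
          (norm_ne_zero_iff.mpr hz'), Complex.norm_real, Real.norm_of_nonneg hX.le,
          Complex.add_re, Complex.ofReal_re]
        ring
      · simp only [hH₀']
        rw [← hHw]
        field_simp
        ring
    have k2 : DD cn cn (fun z => Real.log ‖z‖ - Real.log ‖z - a‖)
        (fun z => 1 / z - 1 / (z - a)) z =
        DD cn cn (fun z => Real.log ‖z - 0‖ - Real.log ‖z - a‖)
          (fun z => 1 / (z - 0) - 1 / (z - a)) z := by
      refine DD_congr ?_ ?_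
      · simp only [sub_zero]
      · simp only [sub_zero]
    unfold Cu
    rw [k1, k2, DD_add cy (cv H) (fun z => (H₀ z).re) (fun z => Real.log ‖z - a‖) (deriv H₀)
      (fun z => 1 / (z - a)) z, DD_sub cn cn (fun z => Real.log ‖z - 0‖)
      (fun z => Real.log ‖z - a‖) (fun z => 1 / (z - 0)) (fun z => 1 / (z - a)) z]
    ring
  have hint : Integrable (fun z => Real.log ‖riemannZeta (s₁ + z)‖ * Cu κ c X a H z) :=
    (((i1.add i2).sub i3).add i4).congr hae
  refine ⟨hint, ?_⟩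
  have hval : ∫ z, Real.log ‖riemannZeta (s₁ + z)‖ * Cu κ c X a H z =
      2 * Real.pi * (∑ ρ ∈ Z, mz ρ * Phi κ c X a H (ρ - s₁) - Real.log ‖riemannZeta s₁‖) := by
    rw [← integral_congr_ae hae]
    have h1 : ∫ z, (Real.log ‖f z‖ * DD cy (cv H) (fun z => (H₀ z).re) (deriv H₀) z +
        Real.log ‖f z‖ * DD cy (cv H) (fun z => Real.log ‖z - a‖) (fun z => 1 / (z - a)) z -
        Real.log ‖f z‖ * DD cn cn (fun z => Real.log ‖z - a‖) (fun z => 1 / (z - a)) z +
        Real.log ‖f z‖ * DD cn cn (fun z => Real.log ‖z - 0‖) (fun z => 1 / (z - 0)) z) =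
        (∫ z, Real.log ‖f z‖ * DD cy (cv H) (fun z => (H₀ z).re) (deriv H₀) z) +
        (∫ z, Real.log ‖f z‖ * DD cy (cv H) (fun z => Real.log ‖z - a‖)
          (fun z => 1 / (z - a)) z) -
        (∫ z, Real.log ‖f z‖ * DD cn cn (fun z => Real.log ‖z - a‖) (fun z => 1 / (z - a)) z) +
        ∫ z, Real.log ‖f z‖ * DD cn cn (fun z => Real.log ‖z - 0‖) (fun z => 1 / (z - 0)) z := by
      refine (integral_add ((i1.add i2).sub i3) i4).trans ?_
      congr 1
      refine (integral_sub (i1.add i2) i3).trans ?_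
      congr 1
      exact integral_add i1 i2
    rw [h1, e1, e2, e3, e4]
    have hcy : cy (a : ℂ).re * cv H (a : ℂ).im = 1 := by
      rw [Complex.ofReal_re, Complex.ofReal_im]
      have q1 : cy a = 1 := by
        unfold cy
        rw [Real.smoothTransition.one_of_one_le (by linarith),
          Real.smoothTransition.one_of_one_le (by linarith), one_mul]
      have q2 : cv H 0 = 1 := by
        unfold cv
        exact cut_one (by rw [zero_div, abs_zero]; exact zero_le_one)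
      rw [q1, q2, one_mul]
    have hcn : cn (a : ℂ).re * cn (a : ℂ).im = 1 := by
      rw [Complex.ofReal_re, Complex.ofReal_im]
      have q1 : cn a = 1 := by
        unfold cn
        exact cut_one (by rw [abs_of_nonneg (by positivity)]; linarith)
      have q2 : cn 0 = 1 := by
        unfold cn
        exact cut_one (by rw [mul_zero, abs_zero]; exact zero_le_one)
      rw [q1, q2, one_mul]
    have hcn0 : cn (0 : ℂ).re * cn (0 : ℂ).im = 1 := by
      rw [Complex.zero_re, Complex.zero_im]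
      have q2 : cn 0 = 1 := by
        unfold cn
        exact cut_one (by rw [mul_zero, abs_zero]; exact zero_le_one)
      rw [q2, one_mul]
    rw [hcy, hcn, hcn0]
    have hf0' : f 0 = riemannZeta s₁ := by simp only [hf, add_zero]
    rw [hf0']
    have hPhi : ∑ ρ ∈ Z, mz ρ * Phi κ c X a H (ρ - s₁) =
        ∑ ρ ∈ Z', (analyticOrderNatAt f ρ : ℝ) * (cy ρ.re * cv H ρ.im * (H₀ ρ).re) +
        ∑ ρ ∈ Z', (analyticOrderNatAt f ρ : ℝ) * (cy ρ.re * cv H ρ.im * Real.log ‖ρ - a‖) -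
        ∑ ρ ∈ Z', (analyticOrderNatAt f ρ : ℝ) * (cn ρ.re * cn ρ.im * Real.log ‖ρ - a‖) +
        ∑ ρ ∈ Z', (analyticOrderNatAt f ρ : ℝ) * (cn ρ.re * cn ρ.im * Real.log ‖ρ - 0‖) := by
      rw [← hsumZ (Phi κ c X a H), ← Finset.sum_add_distrib, ← Finset.sum_sub_distrib,
        ← Finset.sum_add_distrib]
      refine Finset.sum_congr rfl fun ρ _ => ?_
      simp only [Phi, hH₀, Complex.add_re, Complex.ofReal_re, sub_zero]
      ring
    rw [hPhi]
    ring
  rw [hval]
  have hpi : (2 * Real.pi : ℝ) ≠ 0 := by positivity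
  field_simp
  ring

end Pool.Agent.Work.MP_56b8f5_nt.HZ
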