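import Pool.Agent.Work.MP_56b8f5_nt.HZ.StmtsV
import Pool.Agent.Work.MP_56b8f5_nt.HZ.I_Idn

/-!
MP_56b8f5_nt, block HZ, part V, item IdnV.
-/

set_option autoImplicit false

open MeasureTheory Set Filter Topology

noncomputable section

namespace Pool.Agent.Work.MP_56b8f5_nt.HZ

open Pool.Agent.Work.MP_56b8f5_nt.EM Pool.Agent.Work.MP_56b8f5_nt.WM Pool.Agent.Work.MP_56b8f5_nt.SH

open I_Idn in
theorem IdnV_pf (hGr : S_Gr) (hKHh : S_KHh) : S_IdnV := by
  classical
  intro κ hκ c X a H s₁ hX ha ha' hH ht hz0 hza Z hZ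
  obtain ⟨hHd, hHw, -⟩ := hKHh κ hκ
  have hH0 : 0 < H := by linarith
  set f : ℂ → ℂ := fun z => riemannZeta (s₁ + z) with hf
  set R : ℝ := 3 * H with hR
  have hR0 : 0 < R := by positivity
  have hne1 : ∀ z : ℂ, ‖z‖ ≤ R → s₁ + z ≠ 1 := by
    intro z hz h1
    have h2 : (s₁ + z).im = 0 := by rw [h1, Complex.one_im]
    rw [Complex.add_im] at h2
    have h3 := Complex.abs_im_le_norm z
    have h4 := abs_le.mp (h3.trans hz)
    linarith [h4.1]
  have hζan : ∀ s : ℂ, s ≠ 1 → AnalyticAt ℂ riemannZeta s := by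
    intro s hs
    have hopen : IsOpen {s : ℂ | s ≠ 1} := isOpen_ne
    have hd : DifferentiableOn ℂ riemannZeta {s : ℂ | s ≠ 1} :=
      fun w hw => (differentiableAt_riemannZeta hw).differentiableWithinAt
    exact hd.analyticAt (hopen.mem_nhds hs)
  have hsh : ∀ z : ℂ, AnalyticAt ℂ (fun z : ℂ => s₁ + z) z :=
    fun z => analyticAt_const.add analyticAt_id
  have hfan : AnalyticOnNhd ℂ f (Metric.closedBall 0 R) := by
    intro z hz
    rw [mem_closedBall_zero_iff] at hz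
    exact AnalyticAt.fun_comp (hζan _ (hne1 z hz)) (hsh z)
  have hf0 : f 0 ≠ 0 := by
    simp only [hf, add_zero]
    exact hz0
  have hfa : f (a : ℂ) ≠ 0 := hza
  -- the zeros
  set Z' : Finset ℂ := Z.image (fun ρ => ρ - s₁) with hZ'
  have hZ'm : ∀ ρ, ρ ∈ Z' ↔ f ρ = 0 ∧ ‖ρ‖ ≤ R := by
    intro ρ
    rw [hZ', Finset.mem_image]
    constructor
    · rintro ⟨ρ₀, h1, rfl⟩
      obtain ⟨h2, h3⟩ := (hZ ρ₀).mp h1
      refine ⟨?_, h3⟩
      simp only [hf, add_sub_cancel]
      exact h2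
    · rintro ⟨h1, h2⟩
      refine ⟨s₁ + ρ, (hZ _).mpr ⟨h1, ?_⟩, by ring⟩
      rw [add_sub_cancel_left]
      exact h2
  have hord : ∀ ρ ∈ Z, analyticOrderNatAt f (ρ - s₁) = analyticOrderNatAt riemannZeta ρ := by
    intro ρ _
    have h1 : analyticOrderAt (riemannZeta ∘ (fun z : ℂ => s₁ + z)) (ρ - s₁) =
        analyticOrderAt riemannZeta ((fun z : ℂ => s₁ + z) (ρ - s₁)) := by
      refine analyticOrderAt_comp_of_deriv_ne_zero (hsh _) ?_
      rw [deriv_const_add]
      simp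
    have h2 : (fun z : ℂ => s₁ + z) (ρ - s₁) = ρ := by
      simp only [add_sub_cancel]
    rw [h2] at h1
    unfold analyticOrderNatAt
    rw [← h1]
    rfl
  have hsumZ : ∀ F : ℂ → ℝ, ∑ ρ ∈ Z', (analyticOrderNatAt f ρ : ℝ) * F ρ =
      ∑ ρ ∈ Z, mz ρ * F (ρ - s₁) := by
    intro F
    rw [hZ', Finset.sum_image (fun x _ y _ hxy => sub_left_injective hxy)]
    refine Finset.sum_congr rfl fun ρ hρ => ?_
    rw [hord ρ hρ]
    rfl
  -- the cut-offs
  have hBy : IsB cy := isB_of cy_smooth (fun x hx => cy_ne hx)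
  have hBv : IsB (cv H) := isB_of (cv_smooth H) (fun x hx => cv_ne hH0 hx)
  have hBn : IsB cn := isB_of cn_smooth (fun x hx => cn_ne hx)
  have hsupp1 : ∀ z : ℂ, z.re ∈ tsupport cy → z.im ∈ tsupport (cv H) → ‖z‖ < R := by
    intro z h1 h2
    have h3 := tsupport_subset_Icc (fun x hx => cy_ne hx) h1
    have h4 := tsupport_subset_Icc (fun x hx => cv_ne hH0 hx) h2
    have h5 := Complex.norm_le_abs_re_add_abs_im z
    have h6 : |z.re| ≤ 5 / 2 := abs_le.mpr ⟨by linarith [h3.1], h3.2⟩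
    have h7 : |z.im| ≤ 2 * H := abs_le.mpr ⟨h4.1, h4.2⟩
    linarith
  have hsupp2 : ∀ z : ℂ, z.re ∈ tsupport cn → z.im ∈ tsupport cn → ‖z‖ < R := by
    intro z h1 h2
    have h3 := tsupport_subset_Icc (fun x hx => cn_ne hx) h1
    have h4 := tsupport_subset_Icc (fun x hx => cn_ne hx) h2
    have h5 := Complex.norm_le_abs_re_add_abs_im z
    have h6 : |z.re| ≤ 1 / 4 := abs_le.mpr ⟨h3.1, h3.2⟩
    have h7 : |z.im| ≤ 1 / 4 := abs_le.mpr ⟨h4.1, h4.2⟩
    linarith
  have hanorm : ‖(a : ℂ)‖ < R := by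
    rw [Complex.norm_real, Real.norm_of_nonneg ha.le]
    linarith
  -- the four applications
  obtain ⟨hA1, hA2⟩ := hGr R f hR0 hfan hf0 Z' hZ'm cy (cv H) hBy hBv hsupp1
  obtain ⟨-, hB2⟩ := hGr R f hR0 hfan hf0 Z' hZ'm cn cn hBn hBn hsupp2
  set H₀ : ℂ → ℂ := fun z => Hh κ (X * (z - a)) + ((Real.log X - c : ℝ) : ℂ) with hH₀
  have hH₀d : Differentiable ℂ H₀ := by
    have h1 : Differentiable ℂ (fun z : ℂ => (X : ℂ) * (z - a)) :=
      (differentiable_const _).mul (differentiable_id.sub (differentiable_const _))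
    exact (hHd.comp h1).add (differentiable_const _)
  have hH₀' : ∀ z : ℂ, deriv H₀ z = X * deriv (Hh κ) (X * (z - a)) := by
    intro z
    have h1 : HasDerivAt (fun z : ℂ => (X : ℂ) * (z - a)) X z := by
      simpa using ((hasDerivAt_id z).sub_const (a : ℂ)).const_mul (X : ℂ)
    have h2 : HasDerivAt (Hh κ) (deriv (Hh κ) (X * (z - a))) (X * (z - a)) :=
      (hHd _).hasDerivAt
    have h3 := (h2.comp z h1).add_const ((Real.log X - c : ℝ) : ℂ)
    rw [mul_comm]
    exact h3.deriv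
  obtain ⟨i1, e1⟩ := hA1 H₀ hH₀d
  obtain ⟨i2, e2⟩ := hA2 a hanorm hfa
  obtain ⟨i3, e3⟩ := hB2 a hanorm hfa
  obtain ⟨i4, e4⟩ := hB2 0 (by rw [norm_zero]; exact hR0) hf0
  -- the integrand
  have hae : (fun z : ℂ => Real.log ‖f z‖ * DD cy (cv H) (fun z => (H₀ z).re) (deriv H₀) z +
      Real.log ‖f z‖ * DD cy (cv H) (fun z => Real.log ‖z - a‖) (fun z => 1 / (z - a)) z -
      Real.log ‖f z‖ * DD cn cn (fun z => Real.log ‖z - a‖) (fun z => 1 / (z - a)) z +
      Real.log ‖f z‖ * DD cn cn (fun z => Real.log ‖z - 0‖) (fun z => 1 / (z - 0)) z) =ᵐ[volume]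
      fun z => Real.log ‖riemannZeta (s₁ + z)‖ * Cu κ c X a H z := by
    have hnull : ∀ᵐ z : ℂ ∂volume, z ≠ (a : ℂ) := by
      simp [ae_iff, measure_singleton]
    filter_upwards [hnull] with z hz
    have hz' : z - (a : ℂ) ≠ 0 := sub_ne_zero.mpr hz
    have hXC : (X : ℂ) ≠ 0 := by exact_mod_cast hX.ne'
    have k1 : DD cy (cv H) (fun z => S1 κ c (X * (z - a)))
        (fun z => kt κ (X * (z - a)) / (z - a)) z =
        DD cy (cv H) (fun z => (H₀ z).re + Real.log ‖z - a‖)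
          (fun z => deriv H₀ z + 1 / (z - a)) z := by
      refine DD_congr ?_ ?_
      · simp only [S1, hH₀]
        rw [norm_mul, Real.log_mul (by rw [Complex.norm_real]; exact norm_ne_zero_iff.mpr hX.ne')
          (norm_ne_zero_iff.mpr hz'), Complex.norm_real, Real.norm_of_nonneg hX.le,
          Complex.add_re, Complex.ofReal_re]
        ring
      · simp only [hH₀']
        rw [← hHw]
        field_simp
        ring
    have k2 : DD cn cn (fun z => Real.log ‖z‖ - Real.log ‖z - a‖)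
        (fun z => 1 / z - 1 / (z - a)) z =
        DD cn cn (fun z => Real.log ‖z - 0‖ - Real.log ‖z - a‖)
          (fun z => 1 / (z - 0) - 1 / (z - a)) z := by
      refine DD_congr ?_ ?_
      · simp only [sub_zero]
      · simp only [sub_zero]
    unfold Cu
    rw [k1, k2, DD_add cy (cv H) (fun z => (H₀ z).re) (fun z => Real.log ‖z - a‖) (deriv H₀)
      (fun z => 1 / (z - a)) z, DD_sub cn cn (fun z => Real.log ‖z - 0‖)
      (fun z => Real.log ‖z - a‖) (fun z => 1 / (z - 0)) (fun z => 1 / (z - a)) z]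
    ring
  have hint : Integrable (fun z => Real.log ‖riemannZeta (s₁ + z)‖ * Cu κ c X a H z) :=
    (((i1.add i2).sub i3).add i4).congr hae
  refine ⟨hint, ?_⟩
  have hval : ∫ z, Real.log ‖riemannZeta (s₁ + z)‖ * Cu κ c X a H z =
      2 * Real.pi * (∑ ρ ∈ Z, mz ρ * Phi κ c X a H (ρ - s₁) - Real.log ‖riemannZeta s₁‖) := by
    rw [← integral_congr_ae hae]
    have h1 : ∫ z, (Real.log ‖f z‖ * DD cy (cv H) (fun z => (H₀ z).re) (deriv H₀) z +
        Real.log ‖f z‖ * DD cy (cv H) (fun z => Real.log ‖z - a‖) (fun z => 1 / (z - a)) z -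
        Real.log ‖f z‖ * DD cn cn (fun z => Real.log ‖z - a‖) (fun z => 1 / (z - a)) z +
        Real.log ‖f z‖ * DD cn cn (fun z => Real.log ‖z - 0‖) (fun z => 1 / (z - 0)) z) =
        (∫ z, Real.log ‖f z‖ * DD cy (cv H) (fun z => (H₀ z).re) (deriv H₀) z) +
        (∫ z, Real.log ‖f z‖ * DD cy (cv H) (fun z => Real.log ‖z - a‖)
          (fun z => 1 / (z - a)) z) -
        (∫ z, Real.log ‖f z‖ * DD cn cn (fun z => Real.log ‖z - a‖) (fun z => 1 / (z - a)) z) +
        ∫ z, Real.log ‖f z‖ * DD cn cn (fun z => Real.log ‖z - 0‖) (fun z => 1 / (z - 0)) z := by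
      refine (integral_add ((i1.add i2).sub i3) i4).trans ?_
      congr 1
      refine (integral_sub (i1.add i2) i3).trans ?_
      congr 1
      exact integral_add i1 i2
    rw [h1, e1, e2, e3, e4]
    have hcy : cy (a : ℂ).re * cv H (a : ℂ).im = 1 := by
      rw [Complex.ofReal_re, Complex.ofReal_im]
      have q1 : cy a = 1 := by
        unfold cy
        rw [Real.smoothTransition.one_of_one_le (by linarith),
          Real.smoothTransition.one_of_one_le (by linarith), one_mul]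
      have q2 : cv H 0 = 1 := by
        unfold cv
        exact cut_one (by rw [zero_div, abs_zero]; exact zero_le_one)
      rw [q1, q2, one_mul]
    have hcn : cn (a : ℂ).re * cn (a : ℂ).im = 1 := by
      rw [Complex.ofReal_re, Complex.ofReal_im]
      have q1 : cn a = 1 := by
        unfold cn
        exact cut_one (by rw [abs_of_nonneg (by positivity)]; linarith)
      have q2 : cn 0 = 1 := by
        unfold cn
        exact cut_one (by rw [mul_zero, abs_zero]; exact zero_le_one)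
      rw [q1, q2, one_mul]
    have hcn0 : cn (0 : ℂ).re * cn (0 : ℂ).im = 1 := by
      rw [Complex.zero_re, Complex.zero_im]
      have q2 : cn 0 = 1 := by
        unfold cn
        exact cut_one (by rw [mul_zero, abs_zero]; exact zero_le_one)
      rw [q2, one_mul]
    rw [hcy, hcn, hcn0]
    have hf0' : f 0 = riemannZeta s₁ := by simp only [hf, add_zero]
    rw [hf0']
    have hPhi : ∑ ρ ∈ Z, mz ρ * Phi κ c X a H (ρ - s₁) =
        ∑ ρ ∈ Z', (analyticOrderNatAt f ρ : ℝ) * (cy ρ.re * cv H ρ.im * (H₀ ρ).re) +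
        ∑ ρ ∈ Z', (analyticOrderNatAt f ρ : ℝ) * (cy ρ.re * cv H ρ.im * Real.log ‖ρ - a‖) -
        ∑ ρ ∈ Z', (analyticOrderNatAt f ρ : ℝ) * (cn ρ.re * cn ρ.im * Real.log ‖ρ - a‖) +
        ∑ ρ ∈ Z', (analyticOrderNatAt f ρ : ℝ) * (cn ρ.re * cn ρ.im * Real.log ‖ρ - 0‖) := by
      rw [← hsumZ (Phi κ c X a H), ← Finset.sum_add_distrib, ← Finset.sum_sub_distrib,
        ← Finset.sum_add_distrib]
      refine Finset.sum_congr rfl fun ρ _ => ?_
      simp only [Phi, hH₀, Complex.add_re, Complex.ofReal_re, sub_zero]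
      ring
    rw [hPhi]
    ring
  rw [hval]
  have hpi : (2 * Real.pi : ℝ) ≠ 0 := by positivity
  field_simp
  ring

end Pool.Agent.Work.MP_56b8f5_nt.HZ
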