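import Pool.Agent.Work.MP_56b8f5_nt.HZ.StmtsA

/-!
Item PWa of block HZ (MP_56b8f5_nt): the pointwise inequality for almost all `a`.
-/

set_option autoImplicit false

open MeasureTheory Set Filter Topology

noncomputable section

namespace Pool.Agent.Work.MP_56b8f5_nt.HZ

open Pool.Agent.Work.MP_56b8f5_nt.EM Pool.Agent.Work.MP_56b8f5_nt.WM Pool.Agent.Work.MP_56b8f5_nt.SH

namespace I_PWa

/-- The zeros of zeta in a closed ball which does not contain `1` are finite in number. -/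
theorem finite_zeros (s : ℂ) (R : ℝ) (hR : 0 ≤ R) (hs : riemannZeta s ≠ 0)
    (h1 : R < ‖1 - s‖) : {ρ : ℂ | riemannZeta ρ = 0 ∧ ‖ρ - s‖ ≤ R}.Finite := by
  have hne : ∀ z ∈ Metric.closedBall s R, z ≠ 1 := by
    intro z hz h
    rw [h, Metric.mem_closedBall, dist_eq_norm] at hz
    linarith
  have han : AnalyticOnNhd ℂ riemannZeta (Metric.closedBall s R) := by
    have hd : DifferentiableOn ℂ riemannZeta {z : ℂ | z ≠ 1} := fun z hz =>
      (differentiableAt_riemannZeta hz).differentiableWithinAt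
    have hop : IsOpen {z : ℂ | z ≠ 1} := isOpen_ne
    exact (hd.analyticOnNhd hop).mono fun z hz => hne z hz
  have hconn : IsConnected (Metric.closedBall s R) :=
    ⟨⟨s, Metric.mem_closedBall_self hR⟩, (convex_closedBall s R).isPreconnected⟩
  have hco := han.preimage_zero_mem_codiscreteWithin hs (Metric.mem_closedBall_self hR) hconn
  have hfin := (isCompact_closedBall s R).finite_sdiff_of_mem_codiscreteWithin hco
  refine hfin.subset ?_
  rintro ρ ⟨h0, h2⟩
  refine ⟨?_, ?_⟩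
  · rw [Metric.mem_closedBall, dist_eq_norm]
    exact h2
  · simp [h0]

theorem cy_zero {y : ℝ} (hy : y ≤ -(3 / 10)) : cy y = 0 := by
  unfold cy
  rw [Real.smoothTransition.zero_of_nonpos (by linarith), zero_mul]

theorem cn_zero {u : ℝ} (hu : u ≤ -(1 / 4)) : cn u = 0 := by
  unfold cn cut
  rw [Real.smoothTransition.zero_of_nonpos (x := 2 + 8 * u) (by linarith), mul_zero]

theorem phi_zero (κ : ℝ → ℝ) (c X a H : ℝ) (z : ℂ) (hz : z.re ≤ -(3 / 10)) :
    Phi κ c X a H z = 0 := by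
  unfold Phi
  rw [cy_zero hz, cn_zero (u := z.re) (by linarith)]
  simp

theorem mz_nonneg (ρ : ℂ) : 0 ≤ mz ρ := by
  unfold mz
  positivity

/-- The sum over all zeros in the ball. -/
theorem sum_le (κ : ℝ → ℝ) (c X a H t B : ℝ) (Z : Finset ℂ) (hH : 1 ≤ H)
    (hZ : ∀ ρ, ρ ∈ Z ↔ riemannZeta ρ = 0 ∧ ‖ρ - (1 / 2 + t * Complex.I)‖ ≤ 3 * H)
    (hN : ∀ Z' : Finset ℂ,
      (∀ ρ, ρ ∈ Z' ↔ riemannZeta ρ = 0 ∧ 1 / 5 ≤ ρ.re ∧ |ρ.im - t| ≤ 1 / 8) →
      ∑ ρ ∈ Z', mz ρ * Phi κ c X a H (ρ - (1 / 2 + t * Complex.I)) ≤ 0)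
    (hF : ∀ Z' : Finset ℂ, (∀ ρ ∈ Z', riemannZeta ρ = 0 ∧ 1 / 8 < |ρ.im - t|) →
      ∑ ρ ∈ Z', mz ρ * |Phi κ c X a H (ρ - (1 / 2 + t * Complex.I))| ≤ B) :
    ∑ ρ ∈ Z, mz ρ * Phi κ c X a H (ρ - (1 / 2 + t * Complex.I)) ≤ B := by
  classical
  set F : ℂ → ℝ := fun ρ => mz ρ * Phi κ c X a H (ρ - (1 / 2 + t * Complex.I)) with hFdef
  have h1 := hN (Z.filter fun ρ => 1 / 5 ≤ ρ.re ∧ |ρ.im - t| ≤ 1 / 8) (by
    intro ρ
    rw [Finset.mem_filter, hZ]
    constructor
    · rintro ⟨⟨h0, _⟩, h2, h3⟩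
      exact ⟨h0, h2, h3⟩
    · rintro ⟨h0, h2, h3⟩
      refine ⟨⟨h0, ?_⟩, h2, h3⟩
      have hre : ρ.re < 1 := by
        by_contra hcon
        exact riemannZeta_ne_zero_of_one_le_re (not_lt.1 hcon) h0
      have h4 := Complex.norm_le_abs_re_add_abs_im (ρ - (1 / 2 + t * Complex.I))
      have e1 : (ρ - (1 / 2 + t * Complex.I)).re = ρ.re - 1 / 2 := by
        simp
      have e2 : (ρ - (1 / 2 + t * Complex.I)).im = ρ.im - t := by
        simp
      rw [e1, e2] at h4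
      have h5 : |ρ.re - 1 / 2| ≤ 1 / 2 := by
        rw [abs_le]
        constructor <;> linarith
      linarith)
  have h2 := hF (Z.filter fun ρ => 1 / 8 < |ρ.im - t|) (by
    intro ρ hρ
    rw [Finset.mem_filter, hZ] at hρ
    exact ⟨hρ.1.1, hρ.2⟩)
  have h3 : ∑ ρ ∈ Z.filter (fun ρ => 1 / 8 < |ρ.im - t|), F ρ ≤ B := by
    refine le_trans (Finset.sum_le_sum fun ρ _ => ?_) h2
    exact mul_le_mul_of_nonneg_left (le_abs_self _) (mz_nonneg ρ)
  have h4 : ∑ ρ ∈ Z.filter (fun ρ => ¬ 1 / 8 < |ρ.im - t|), F ρ =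
      ∑ ρ ∈ Z.filter (fun ρ => 1 / 5 ≤ ρ.re ∧ |ρ.im - t| ≤ 1 / 8), F ρ := by
    symm
    refine Finset.sum_subset ?_ ?_
    · intro ρ hρ
      rw [Finset.mem_filter] at hρ ⊢
      exact ⟨hρ.1, not_lt.2 hρ.2.2⟩
    · intro ρ hρ hρ'
      rw [Finset.mem_filter] at hρ hρ'
      have h5 : ¬ 1 / 5 ≤ ρ.re := fun h => hρ' ⟨hρ.1, h, not_lt.1 hρ.2⟩
      have h6 : Phi κ c X a H (ρ - (1 / 2 + t * Complex.I)) = 0 := by
        apply phi_zero
        have e1 : (ρ - (1 / 2 + t * Complex.I)).re = ρ.re - 1 / 2 := by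
          simp
        rw [e1]
        linarith [not_le.1 h5]
      simp only [hFdef, h6, mul_zero]
  rw [← Finset.sum_filter_add_sum_filter_not Z (fun ρ => 1 / 8 < |ρ.im - t|) F, h4]
  have h7 : ∑ ρ ∈ Z.filter (fun ρ => 1 / 5 ≤ ρ.re ∧ |ρ.im - t| ≤ 1 / 8), F ρ ≤ 0 := h1
  linarith

end I_PWa

open I_PWa

theorem PWa_pf (hIdn : S_Idn) (hTR : S_TR) (hTL : S_TL) (hZN : S_ZN) (hZF : S_ZF) : S_PWa := by
  intro κ c C hκ hC hIC
  obtain ⟨lam, hlam1, hZN⟩ := hZN κ c C hκ hC hIC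
  obtain ⟨C1, hC1, hTR⟩ := hTR κ c C hκ hIC
  obtain ⟨C2, hC2, hTL⟩ := hTL κ c C hκ hIC
  refine ⟨lam, hlam1, ?_⟩
  intro A C₀ hA hC₀
  obtain ⟨m₁, T₁, hm₁, hT₁, hZN⟩ := hZN lam le_rfl A C₀ hA hC₀
  obtain ⟨m₂, T₂, C3, hm₂, hT₂, hC3, hZF⟩ := hZF κ c C hκ hC hIC A C₀ hA hC₀
  refine ⟨max (max m₁ m₂) 5, max (max T₁ T₂) (max 100 (Real.exp (Real.exp (32 * lam)))),
    C3 * (2 * lam + 1) + C1 + C2 * (4 + 4 * lam), ?_, ?_, ?_, ?_⟩
  · exact le_trans (by norm_num) (le_max_right _ _)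
  · exact le_trans hT₁ (le_trans (le_max_left _ _) (le_max_left _ _))
  · positivity
  intro T hT t ht hζ X a hX hmX ha1 ha2 hζa
  have hTa : T₁ ≤ T := le_trans (le_trans (le_max_left _ _) (le_max_left _ _)) hT
  have hTb : T₂ ≤ T := le_trans (le_trans (le_max_right _ _) (le_max_left _ _)) hT
  have hTc : 100 ≤ T := le_trans (le_trans (le_max_left _ _) (le_max_right _ _)) hT
  have hTd : Real.exp (Real.exp (32 * lam)) ≤ T :=
    le_trans (le_trans (le_max_right _ _) (le_max_right _ _)) hT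
  have hT0 : 0 < T := by linarith
  set L := Real.log T with hL
  have hLe : Real.exp (32 * lam) ≤ L := by
    rw [hL, Real.le_log_iff_exp_le hT0]
    exact hTd
  have hL0 : 0 < L := lt_of_lt_of_le (Real.exp_pos _) hLe
  have hL1 : 1 ≤ L := by
    have := Real.add_one_le_exp (32 * lam)
    linarith
  have hX32 : 32 * lam ≤ X := by
    refine le_trans ?_ hX
    rw [Real.le_log_iff_exp_le hL0]
    exact hLe
  have hX8 : 8 ≤ X := by linarith
  have hX1 : 1 ≤ X := by linarith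
  have hX0 : 0 < X := by linarith
  have hm1 : m₁ * X ≤ L := le_trans
    (mul_le_mul_of_nonneg_right (le_trans (le_max_left _ _) (le_max_left _ _)) hX0.le) hmX
  have hm2 : m₂ * X ≤ L := le_trans
    (mul_le_mul_of_nonneg_right (le_trans (le_max_right _ _) (le_max_left _ _)) hX0.le) hmX
  have hm5 : 5 * X ≤ L := le_trans (mul_le_mul_of_nonneg_right (le_max_right _ _) hX0.le) hmX
  have ha0 : 0 < a := lt_of_lt_of_le (by positivity) ha1
  have ha16 : a ≤ 1 / 16 := by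
    refine le_trans ha2 ?_
    rw [div_le_iff₀ hX0]
    linarith
  have htT : T ≤ t := ht.1
  have ht2T : t ≤ 2 * T := ht.2.1
  set H := Real.sqrt T with hH
  have hHH : H * H = T := Real.mul_self_sqrt hT0.le
  have hH10 : 10 ≤ H := by
    rw [hH]
    apply Real.le_sqrt_of_sq_le
    linarith
  have hH4 : 4 ≤ H := by linarith
  have ht10 : 10 * H ≤ t := by
    have : 10 * H ≤ H * H := mul_le_mul_of_nonneg_right hH10 (by linarith)
    linarith
  -- the finite set of zeros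
  have hfin := finite_zeros (1 / 2 + t * Complex.I) (3 * H) (by linarith) hζ (by
    have h1 := Complex.abs_im_le_norm (1 - (1 / 2 + t * Complex.I))
    have e : (1 - (1 / 2 + t * Complex.I) : ℂ).im = -t := by simp
    rw [e, abs_neg, abs_of_pos (by linarith)] at h1
    linarith)
  have hZ : ∀ ρ, ρ ∈ hfin.toFinset ↔ riemannZeta ρ = 0 ∧
      ‖ρ - (1 / 2 + t * Complex.I)‖ ≤ 3 * H := by
    intro ρ
    simp
  obtain ⟨hI1, hI2⟩ := hIdn κ hκ c X a H t hX0 ha0 ha16 hH4 ht10 hζ hζa hfin.toFinset hZ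
  obtain ⟨hR1, hR2⟩ := hTR X a H t hX1 ha0 ha16 hH4 ht10
  have hL2 := hTL X a H t (by linarith) ha0 ha16 hH4 ht10
  have hsum := sum_le κ c X a H t (C3 * L * (a + 1 / X)) hfin.toFinset (by linarith) hZ
    (fun Z' hZ' => hZN T hTa t ht hζ X a hX1 hm1 ha1 ha2 Z' hZ')
    (fun Z' hZ' => hZF T hTb t ht X a hX8 hm2 ha0 ha16 Z' hZ')
  -- split the integral
  have hsplit : ∫ z, Real.log ‖riemannZeta (1 / 2 + t * Complex.I + z)‖ * Cu κ c X a H z =
      (∫ z, Real.log ‖riemannZeta (1 / 2 + t * Complex.I + z)‖ * Cr κ c X a H z) +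
      ∫ z, Real.log ‖riemannZeta (1 / 2 + t * Complex.I + z)‖ *
        (Cu κ c X a H z - Cr κ c X a H z) := by
    have h1 : ∀ z : ℂ, Real.log ‖riemannZeta (1 / 2 + t * Complex.I + z)‖ *
        (Cu κ c X a H z - Cr κ c X a H z) =
        Real.log ‖riemannZeta (1 / 2 + t * Complex.I + z)‖ * Cu κ c X a H z -
        Real.log ‖riemannZeta (1 / 2 + t * Complex.I + z)‖ * Cr κ c X a H z := fun z => by ring
    rw [show (fun z : ℂ => Real.log ‖riemannZeta (1 / 2 + t * Complex.I + z)‖ *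
        (Cu κ c X a H z - Cr κ c X a H z)) = fun z =>
        Real.log ‖riemannZeta (1 / 2 + t * Complex.I + z)‖ * Cu κ c X a H z -
        Real.log ‖riemannZeta (1 / 2 + t * Complex.I + z)‖ * Cr κ c X a H z from funext h1,
      integral_sub hI1 hR1]
    ring
  set J1 := ∫ z, Real.log ‖riemannZeta (1 / 2 + t * Complex.I + z)‖ * Cr κ c X a H z with hJ1
  set J2 := ∫ z, Real.log ‖riemannZeta (1 / 2 + t * Complex.I + z)‖ *
        (Cu κ c X a H z - Cr κ c X a H z) with hJ2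
  set D := (Dx (wk κ X a) (Real.exp X) t).re with hD
  -- the exponential term
  have hexp : Real.exp (5 / 2 * X) / H ^ 2 ≤ 1 / X := by
    have h1 : H ^ 2 = Real.exp L := by
      rw [hL, Real.exp_log hT0, ← hHH]
      ring
    rw [h1, ← Real.exp_sub]
    have h2 : 5 / 2 * X - L ≤ -X := by linarith
    refine le_trans (Real.exp_le_exp.2 h2) ?_
    rw [Real.exp_neg, one_div]
    apply inv_anti₀ hX0
    have := Real.add_one_le_exp X
    linarith
  have hexp0 : 0 ≤ Real.exp (5 / 2 * X) / H ^ 2 := by positivity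
  have hX3 : 1 / X ^ 3 ≤ 1 / X := by
    apply one_div_le_one_div_of_le hX0
    nlinarith [sq_nonneg X, mul_pos hX0 hX0]
  have hlogt : Real.log t ≤ 2 * L := by
    have h1 : Real.log t ≤ Real.log (2 * T) := Real.log_le_log (by linarith) ht2T
    rw [Real.log_mul (by norm_num) hT0.ne'] at h1
    have h2 : Real.log 2 < 1 := by
      have := Real.log_two_lt_d9
      linarith
    linarith
  have hlogt0 : 0 ≤ Real.log t := Real.log_nonneg (by linarith)
  have ha2' : a ≤ 2 * lam * (1 / X) := by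
    rw [mul_one_div]
    exact ha2
  have hXi : 0 < 1 / X := by positivity
  have hXL : 1 / X ≤ L / X := by
    apply div_le_div_of_nonneg_right hL1 hX0.le
  have hb1 : |J1 + 2 * Real.pi * D| ≤ C1 * (L / X) := by
    refine le_trans hR2 ?_
    rw [mul_div_assoc]
    exact mul_le_mul_of_nonneg_left (le_trans hexp hXL) (by linarith)
  have hb2 : |J2| ≤ C2 * (4 + 4 * lam) * (L / X) := by
    refine le_trans hL2 ?_
    have h1 : 1 / X ^ 3 + a + Real.exp (5 / 2 * X) / H ^ 2 ≤ (2 + 2 * lam) * (1 / X) := by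
      linarith
    have h2 : 0 ≤ 1 / X ^ 3 + a + Real.exp (5 / 2 * X) / H ^ 2 := by positivity
    calc C2 * Real.log t * (1 / X ^ 3 + a + Real.exp (5 / 2 * X) / H ^ 2)
        ≤ C2 * (2 * L) * ((2 + 2 * lam) * (1 / X)) := by
          apply mul_le_mul _ h1 h2 (by positivity)
          exact mul_le_mul_of_nonneg_left hlogt (by linarith)
      _ = C2 * (4 + 4 * lam) * (L / X) := by
          field_simp
          ring
  have hb3 : C3 * L * (a + 1 / X) ≤ C3 * (2 * lam + 1) * (L / X) := by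
    have h1 : a + 1 / X ≤ (2 * lam + 1) * (1 / X) := by linarith
    calc C3 * L * (a + 1 / X) ≤ C3 * L * ((2 * lam + 1) * (1 / X)) :=
          mul_le_mul_of_nonneg_left h1 (by positivity)
      _ = C3 * (2 * lam + 1) * (L / X) := by
          field_simp
  have hpi : 1 ≤ 2 * Real.pi := by
    have := Real.pi_gt_three
    linarith
  have hpi0 : 0 < 2 * Real.pi := by positivity
  have hmain : -(1 / (2 * Real.pi) * (J1 + J2)) ≤
      D + (C1 * (L / X) + C2 * (4 + 4 * lam) * (L / X)) := by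
    have h1 : -(J1 + J2) ≤ 2 * Real.pi * D +
        (C1 * (L / X) + C2 * (4 + 4 * lam) * (L / X)) := by
      have := (abs_le.1 hb1).1
      have := (abs_le.1 hb2).1
      linarith
    have h2 : 0 ≤ C1 * (L / X) + C2 * (4 + 4 * lam) * (L / X) := by positivity
    have h3 : 2 * Real.pi * D + (C1 * (L / X) + C2 * (4 + 4 * lam) * (L / X)) ≤
        2 * Real.pi * (D + (C1 * (L / X) + C2 * (4 + 4 * lam) * (L / X))) := by
      nlinarith
    have h4 : -(1 / (2 * Real.pi) * (J1 + J2)) = -(J1 + J2) / (2 * Real.pi) := by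
      field_simp
    rw [h4, div_le_iff₀ hpi0]
    linarith
  rw [hI2, hsplit]
  have hring : (C3 * (2 * lam + 1) + C1 + C2 * (4 + 4 * lam)) * (L / X) =
      C3 * (2 * lam + 1) * (L / X) + (C1 * (L / X) + C2 * (4 + 4 * lam) * (L / X)) := by
    ring
  rw [hring]
  linarith

end Pool.Agent.Work.MP_56b8f5_nt.HZ
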