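import Pool.Agent.Work.MP_56b8f5_nt.HZ.StmtsA

/-!
MP_56b8f5_nt, block HZ, item Pair: a pair of zeros contributes at most `0`.
-/

set_option autoImplicit false

open MeasureTheory Set Filter Topology

namespace Pool.Agent.Work.MP_56b8f5_nt.HZ

open Pool.Agent.Work.MP_56b8f5_nt.EM Pool.Agent.Work.MP_56b8f5_nt.WM Pool.Agent.Work.MP_56b8f5_nt.SH

namespace I_Pair

theorem norm_pq (p q : ℝ) : Real.log ‖(p : ℂ) + q * Complex.I‖ = Real.log (p ^ 2 + q ^ 2) / 2 := by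
  rw [Complex.norm_add_mul_I, Real.log_sqrt (by positivity)]

theorem w_eq (X a p v : ℝ) : (X : ℂ) * (((p : ℂ) + v * Complex.I) - a) =
    ((X * (p - a) : ℝ) : ℂ) + ((X * v : ℝ) : ℂ) * Complex.I := by
  push_cast
  ring

theorem w_re (X a p v : ℝ) : ((X : ℂ) * (((p : ℂ) + v * Complex.I) - a)).re = X * (p - a) := by
  rw [w_eq]; simp

theorem w_im (X a p v : ℝ) : ((X : ℂ) * (((p : ℂ) + v * Complex.I) - a)).im = X * v := by
  rw [w_eq]; simp

theorem w_norm (X a p v : ℝ) : ‖(X : ℂ) * (((p : ℂ) + v * Complex.I) - a)‖ ^ 2 =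
    X ^ 2 * ((p - a) ^ 2 + v ^ 2) := by
  rw [w_eq, Complex.norm_add_mul_I, Real.sq_sqrt (by positivity)]
  ring

/-- `Re H` in terms of `S1` -/
theorem Hh_eq (κ : ℝ → ℝ) (c X a p v : ℝ) (hX : 0 < X) (h : 0 < (p - a) ^ 2 + v ^ 2) :
    (Hh κ (X * (((p : ℂ) + v * Complex.I) - a))).re =
      S1 κ c (X * (((p : ℂ) + v * Complex.I) - a)) + c - Real.log X -
        Real.log ((p - a) ^ 2 + v ^ 2) / 2 := by
  have h1 : Real.log ‖(X : ℂ) * (((p : ℂ) + v * Complex.I) - a)‖ =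
      Real.log X + Real.log ((p - a) ^ 2 + v ^ 2) / 2 := by
    rw [w_eq, norm_pq]
    have h2 : (X * (p - a)) ^ 2 + (X * v) ^ 2 = X ^ 2 * ((p - a) ^ 2 + v ^ 2) := by ring
    rw [h2, Real.log_mul (by positivity) h.ne', Real.log_pow]
    push_cast
    ring
  rw [S1, h1]
  ring

/-- the gain -/
theorem gain (y v a s : ℝ) (hz : 0 < y ^ 2 + v ^ 2) (hs0 : 0 ≤ s) (hs1 : s ≤ 1)
    (hP1 : 0 < (y - a) ^ 2 + v ^ 2) (hP2 : 0 < (-y - a) ^ 2 + v ^ 2)
    (h : (y ^ 2 + v ^ 2) ^ 2 * (1 + s) ≤ ((y - a) ^ 2 + v ^ 2) * ((-y - a) ^ 2 + v ^ 2)) :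
    Real.log (y ^ 2 + v ^ 2) + s / 4 ≤
      Real.log ((y - a) ^ 2 + v ^ 2) / 2 + Real.log ((-y - a) ^ 2 + v ^ 2) / 2 := by
  have h1 : s / 2 ≤ Real.log (1 + s) := by
    have h2 := Real.one_sub_inv_le_log_of_pos (show 0 < 1 + s by linarith)
    have h3 : s / 2 ≤ 1 - (1 + s)⁻¹ := by
      have h4 : 1 - (1 + s)⁻¹ = s / (1 + s) := by
        field_simp
        ring
      rw [h4]
      exact div_le_div_of_nonneg_left hs0 (by linarith) (by linarith)
    exact h3.trans h2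
  have h5 := Real.log_le_log (by positivity) h
  rw [Real.log_mul (by positivity) (by linarith), Real.log_pow, Real.log_mul hP1.ne' hP2.ne'] at h5
  push_cast at h5
  linarith

/-- the statement from bounds of `S1` -/
theorem concl (κ : ℝ → ℝ) (c X a y v s : ℝ) (hX : 0 < X) (hz : 0 < y ^ 2 + v ^ 2) (hs0 : 0 ≤ s)
    (hs1 : s ≤ 1) (hP1 : 0 < (y - a) ^ 2 + v ^ 2) (hP2 : 0 < (-y - a) ^ 2 + v ^ 2)
    (h : (y ^ 2 + v ^ 2) ^ 2 * (1 + s) ≤ ((y - a) ^ 2 + v ^ 2) * ((-y - a) ^ 2 + v ^ 2))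
    (hS : S1 κ c (X * (((y : ℂ) + v * Complex.I) - a)) +
      S1 κ c (X * (((-y : ℝ) : ℂ) + v * Complex.I - a)) ≤ s / 4) :
    2 * (Real.log X - c) + (Hh κ (X * (((y : ℂ) + v * Complex.I) - a))).re +
    (Hh κ (X * ((-(y : ℂ) + v * Complex.I) - a))).re + 2 * Real.log ‖(y : ℂ) + v * Complex.I‖ ≤ 0 := by
  have h1 := gain y v a s hz hs0 hs1 hP1 hP2 h
  have h2 := Hh_eq κ c X a y v hX hP1
  have h3 := Hh_eq κ c X a (-y) v hX hP2
  rw [show (-(y : ℂ)) = ((-y : ℝ) : ℂ) by push_cast; rfl, h2, h3, norm_pq]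
  linarith

theorem prod_id (y v a : ℝ) : ((y - a) ^ 2 + v ^ 2) * ((-y - a) ^ 2 + v ^ 2) =
    (y ^ 2 + v ^ 2) ^ 2 + a ^ 2 * (a ^ 2 + 2 * v ^ 2 - 2 * y ^ 2) := by
  ring

/-- Case 1 -/
theorem case1 (κ : ℝ → ℝ) (c C : ℝ) (hC : 1 ≤ C) (hI : IsC κ c C) (lam X a y v : ℝ)
    (hlam : 2 ≤ lam) (hlamC : 17 * C ≤ lam ^ 2) (hX : 1 ≤ X) (ha : lam ≤ X * a) (hy0 : 0 ≤ y)
    (hy : y ≤ a / 4) (hz : 0 < y ^ 2 + v ^ 2) :
    2 * (Real.log X - c) + (Hh κ (X * (((y : ℂ) + v * Complex.I) - a))).re +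
    (Hh κ (X * ((-(y : ℂ) + v * Complex.I) - a))).re + 2 * Real.log ‖(y : ℂ) + v * Complex.I‖ ≤ 0 := by
  have hXp : 0 < X := by linarith
  have ha0 : 0 < a := by
    by_contra h
    have : X * a ≤ 0 := mul_nonpos_of_nonneg_of_nonpos hXp.le (not_lt.mp h)
    linarith
  have hQ : 0 < a ^ 2 + v ^ 2 := by positivity
  have hP1 : 9 / 16 * (a ^ 2 + v ^ 2) ≤ (y - a) ^ 2 + v ^ 2 := by nlinarith [sq_nonneg v]
  have hP2 : 9 / 16 * (a ^ 2 + v ^ 2) ≤ (-y - a) ^ 2 + v ^ 2 := by nlinarith [sq_nonneg v]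
  have hP1' : 0 < (y - a) ^ 2 + v ^ 2 := by linarith
  have hP2' : 0 < (-y - a) ^ 2 + v ^ 2 := by linarith
  set s := 7 / 8 * (a ^ 2 / (a ^ 2 + v ^ 2)) with hs
  have hfr : a ^ 2 / (a ^ 2 + v ^ 2) ≤ 1 := by
    rw [div_le_one hQ]
    nlinarith [sq_nonneg v]
  have hfr0 : 0 ≤ a ^ 2 / (a ^ 2 + v ^ 2) := by positivity
  refine concl κ c X a y v s hXp hz (by positivity) (by linarith) hP1' hP2' ?_ ?_
  · have h1 : (y ^ 2 + v ^ 2) ^ 2 * s ≤ a ^ 2 * (a ^ 2 + 2 * v ^ 2 - 2 * y ^ 2) := by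
      have h2 : (y ^ 2 + v ^ 2) ^ 2 ≤ (a ^ 2 + v ^ 2) ^ 2 := by
        have : y ^ 2 ≤ a ^ 2 := by nlinarith
        gcongr
      have h3 : (y ^ 2 + v ^ 2) ^ 2 * s ≤ (a ^ 2 + v ^ 2) ^ 2 * s :=
        mul_le_mul_of_nonneg_right h2 (by positivity)
      have h4 : (a ^ 2 + v ^ 2) ^ 2 * s = 7 / 8 * a ^ 2 * (a ^ 2 + v ^ 2) := by
        rw [hs]
        field_simp
      have h5 : 7 / 8 * (a ^ 2 + v ^ 2) ≤ a ^ 2 + 2 * v ^ 2 - 2 * y ^ 2 := by
        nlinarith [sq_nonneg v]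
      have h6 : a ^ 2 * (7 / 8 * (a ^ 2 + v ^ 2)) ≤ a ^ 2 * (a ^ 2 + 2 * v ^ 2 - 2 * y ^ 2) :=
        mul_le_mul_of_nonneg_left h5 (by positivity)
      linarith
    rw [prod_id, mul_one_add]
    linarith
  · have key : ∀ p : ℝ, p ≤ a / 4 → 9 / 16 * (a ^ 2 + v ^ 2) ≤ (p - a) ^ 2 + v ^ 2 →
        S1 κ c (X * (((p : ℂ) + v * Complex.I) - a)) ≤ s / 8 := by
      intro p hp hP
      have h1 : ((X : ℂ) * (((p : ℂ) + v * Complex.I) - a)).re ≤ -1 := by
        rw [w_re]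
        nlinarith
      have h2 := (hI (X * (((p : ℂ) + v * Complex.I) - a))).2.1 h1
      set w := (X : ℂ) * (((p : ℂ) + v * Complex.I) - a) with hw
      have h3 : 1 ≤ ‖w‖ := by
        have := Complex.abs_re_le_norm w
        rw [abs_of_nonpos (by linarith)] at this
        linarith
      have h3p : 0 < ‖w‖ := by linarith
      have h4 : C / ‖w‖ ^ 3 ≤ C / ‖w‖ ^ 2 := by
        apply div_le_div_of_nonneg_left (by linarith) (by positivity)
        exact pow_le_pow_right₀ h3 (by norm_num)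
      have h5 : ‖w‖ ^ 2 = X ^ 2 * ((p - a) ^ 2 + v ^ 2) := w_norm X a p v
      have h6 : C / ‖w‖ ^ 2 ≤ s / 8 := by
        rw [h5, hs]
        have h7 : 7 / 8 * (a ^ 2 / (a ^ 2 + v ^ 2)) / 8 = (7 * a ^ 2) / (64 * (a ^ 2 + v ^ 2)) := by
          field_simp
          ring
        have hPp : 0 < (p - a) ^ 2 + v ^ 2 := lt_of_lt_of_le (by positivity) hP
        rw [h7, div_le_div_iff₀ (by positivity) (by positivity)]
        have h8 : lam ^ 2 ≤ X ^ 2 * a ^ 2 := by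
          have h6 : lam ^ 2 ≤ (X * a) ^ 2 := pow_le_pow_left₀ (by linarith) ha 2
          rwa [mul_pow] at h6
        have h9 : 17 * C * (a ^ 2 + v ^ 2) ≤ X ^ 2 * a ^ 2 * (a ^ 2 + v ^ 2) :=
          mul_le_mul_of_nonneg_right (hlamC.trans h8) hQ.le
        have h10 : X ^ 2 * a ^ 2 * (9 / 16 * (a ^ 2 + v ^ 2)) ≤
            X ^ 2 * a ^ 2 * ((p - a) ^ 2 + v ^ 2) :=
          mul_le_mul_of_nonneg_left hP (by positivity)
        have h11 : 0 ≤ C * (a ^ 2 + v ^ 2) := by positivity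
        have e1 : 7 * a ^ 2 * (X ^ 2 * ((p - a) ^ 2 + v ^ 2)) =
            7 * (X ^ 2 * a ^ 2 * ((p - a) ^ 2 + v ^ 2)) := by ring
        have e2 : X ^ 2 * a ^ 2 * (9 / 16 * (a ^ 2 + v ^ 2)) =
            9 / 16 * (X ^ 2 * a ^ 2 * (a ^ 2 + v ^ 2)) := by ring
        have e3 : C * (64 * (a ^ 2 + v ^ 2)) = 64 * (C * (a ^ 2 + v ^ 2)) := by ring
        have e4 : 17 * C * (a ^ 2 + v ^ 2) = 17 * (C * (a ^ 2 + v ^ 2)) := by ring
        rw [e1, e3]
        rw [e2] at h10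
        rw [e4] at h9
        linarith
      exact (le_abs_self _).trans (h2.trans (h4.trans h6))
    have h1 := key y hy hP1
    have h2 := key (-y) (by linarith) hP2
    linarith

/-- Case 2 -/
theorem case2 (κ : ℝ → ℝ) (c C : ℝ) (hC : 1 ≤ C) (hI : IsC κ c C) (lam A C₀ X a y v L m₀ : ℝ)
    (hlam : 2 ≤ lam) (hA : 0 ≤ A) (hC₀ : 0 ≤ C₀)
    (hm₀ : m₀ = 1 + 4 * (A + 4 * C₀) * (2 + 8 * (A + 4 * C₀) + 10 * C * Real.exp A) + 4 * C₀)
    (hX : 1 ≤ X) (hL : m₀ * X ≤ L) (ha : lam ≤ X * a) (ha2 : X * a ≤ 2 * lam)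
    (hy : a / 4 < y) (hyL : y * L ≤ A + C₀ * Real.log (1 + |v| * L)) :
    2 * (Real.log X - c) + (Hh κ (X * (((y : ℂ) + v * Complex.I) - a))).re +
    (Hh κ (X * ((-(y : ℂ) + v * Complex.I) - a))).re + 2 * Real.log ‖(y : ℂ) + v * Complex.I‖ ≤ 0 := by
  have hXp : 0 < X := by linarith
  have ha0 : 0 < a := by
    by_contra h
    have : X * a ≤ 0 := mul_nonpos_of_nonneg_of_nonpos hXp.le (not_lt.mp h)
    linarith
  have hB0 : 0 ≤ A + 4 * C₀ := by positivity
  have heA : 1 ≤ Real.exp A := Real.one_le_exp hA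
  set B := A + 4 * C₀ with hB
  set u₀ := 2 + 8 * B + 10 * C * Real.exp A with hu₀
  have hCe : 0 ≤ 10 * C * Real.exp A := by positivity
  have hu₀2 : 2 ≤ u₀ := by linarith
  have hBu₀ : 0 ≤ B * u₀ := by positivity
  have hm2 : m₀ = 1 + 4 * (B * u₀) + 4 * C₀ := by rw [hm₀]; ring
  have hm1 : 1 ≤ m₀ := by linarith
  have hmC : 4 * C₀ ≤ m₀ := by linarith
  have hLp : 0 < L := lt_of_lt_of_le (by positivity) hL
  have hv0 : 0 ≤ |v| := abs_nonneg v
  set r := |v| * L with hr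
  have hr0 : 0 ≤ r := by positivity
  set u := Real.sqrt (Real.sqrt (1 + r)) with hu
  have hu4 : u ^ 4 = 1 + r := by
    have h1 : u ^ 2 = Real.sqrt (1 + r) := Real.sq_sqrt (Real.sqrt_nonneg _)
    calc u ^ 4 = (u ^ 2) ^ 2 := by ring
      _ = 1 + r := by rw [h1, Real.sq_sqrt (by linarith)]
  have hu1 : 1 ≤ u := by
    rw [hu]
    rw [Real.one_le_sqrt, Real.one_le_sqrt]
    linarith
  have hup : 0 < u := by linarith
  have hlog : Real.log (1 + r) = 4 * Real.log u := by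
    rw [← hu4, Real.log_pow]
    push_cast
    ring
  have hlogu : Real.log u ≤ u := (Real.log_le_sub_one_of_pos hup).trans (by linarith)
  have hlogu0 : 0 ≤ Real.log u := Real.log_nonneg hu1
  rw [hlog] at hyL
  have hD : y * L ≤ B * u := by
    refine hyL.trans ?_
    rw [hB]
    have h1 : C₀ * Real.log u ≤ C₀ * u := mul_le_mul_of_nonneg_left hlogu hC₀
    have h2 : A * 1 ≤ A * u := mul_le_mul_of_nonneg_left hu1 hA
    linarith
  have hy0 : 0 < y := by linarith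
  -- `u` is large
  have hm4 : m₀ ≤ 4 * (y * L) := by
    have h1 : lam * m₀ ≤ X * a * m₀ := mul_le_mul_of_nonneg_right ha (by linarith)
    have h2 : a * (m₀ * X) ≤ a * L := mul_le_mul_of_nonneg_left hL ha0.le
    have h3 : a * L ≤ 4 * y * L := mul_le_mul_of_nonneg_right (by linarith) hLp.le
    have h4 : 1 * m₀ ≤ lam * m₀ := mul_le_mul_of_nonneg_right (by linarith) (by linarith)
    have h5 : X * a * m₀ = a * (m₀ * X) := by ring
    linarith
  have huu : u₀ < u := by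
    by_contra h
    have h1 : B * u ≤ B * u₀ := mul_le_mul_of_nonneg_left (not_lt.mp h) hB0
    have h2 : m₀ = 1 + 4 * (B * u₀) + 4 * C₀ := by rw [hm₀]; ring
    linarith
  have hu2 : 2 ≤ u := by linarith
  have hu8 : 8 * B ≤ u := by linarith
  have hur : u ^ 4 ≤ 2 * r := by
    have h1 : (2 : ℝ) ^ 4 ≤ u ^ 4 := pow_le_pow_left₀ (by norm_num) hu2 4
    have h2 : (2 : ℝ) ^ 4 = 16 := by norm_num
    linarith
  -- `V = X |v|`
  set V := X * |v| with hV
  have hV0 : 0 ≤ V := by positivity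
  have hVu : lam * u ^ 2 ≤ V := by
    have h1 : lam * L ≤ 4 * X * (y * L) := by
      have h2 : X * a * L ≤ X * (4 * y) * L := by
        have : X * a ≤ X * (4 * y) := mul_le_mul_of_nonneg_left (by linarith) hXp.le
        exact mul_le_mul_of_nonneg_right this hLp.le
      have h3 : lam * L ≤ X * a * L := mul_le_mul_of_nonneg_right ha hLp.le
      have h4 : X * (4 * y) * L = 4 * X * (y * L) := by ring
      linarith
    have h4 : lam * r ≤ 4 * V * (B * u) := by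
      have h5 : lam * L * |v| ≤ 4 * X * (y * L) * |v| := mul_le_mul_of_nonneg_right h1 hv0
      have h6 : 4 * V * (y * L) ≤ 4 * V * (B * u) := mul_le_mul_of_nonneg_left hD (by positivity)
      have h7 : lam * r = lam * L * |v| := by rw [hr]; ring
      have h8 : 4 * X * (y * L) * |v| = 4 * V * (y * L) := by rw [hV]; ring
      linarith
    have h9 : lam * u ^ 4 ≤ lam * (2 * r) := mul_le_mul_of_nonneg_left hur (by linarith)
    have h10 : lam * u ^ 4 ≤ V * u * u := by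
      have h11 : V * u * (8 * B) ≤ V * u * u := mul_le_mul_of_nonneg_left hu8 (by positivity)
      have e1 : lam * (2 * r) = 2 * (lam * r) := by ring
      have e2 : V * u * (8 * B) = 2 * (4 * V * (B * u)) := by ring
      linarith
    have h12 : (lam * u ^ 2) * (u ^ 2) ≤ V * u ^ 2 := by
      have e1 : (lam * u ^ 2) * (u ^ 2) = lam * u ^ 4 := by ring
      have e2 : V * u ^ 2 = V * u * u := by ring
      linarith
    exact le_of_mul_le_mul_right h12 (by positivity)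
  have hVu2 : u ^ 2 ≤ V := by
    have h1 : 1 * u ^ 2 ≤ lam * u ^ 2 := mul_le_mul_of_nonneg_right (by linarith) (sq_nonneg u)
    linarith
  have hu22 : 4 ≤ u ^ 2 := by
    have h1 : (2 : ℝ) ^ 2 ≤ u ^ 2 := pow_le_pow_left₀ (by norm_num) hu2 2
    linarith
  have hV1 : 1 ≤ V := by linarith
  have hvp : 0 < |v| := by
    rcases hv0.lt_or_eq with h | h
    · exact h
    · rw [hV, ← h, mul_zero] at hV1
      linarith
  have hy10 : 10 * y ≤ |v| := by
    have h1 : 10 * (B * u) ≤ r := by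
      have h2 : 8 * B * u ≤ u * u := mul_le_mul_of_nonneg_right hu8 hup.le
      have h3 : 4 * (u * u) ≤ u ^ 4 := by
        have h4 : 4 * u ^ 2 ≤ u ^ 2 * u ^ 2 :=
          mul_le_mul_of_nonneg_right hu22 (sq_nonneg u)
        calc 4 * (u * u) = 4 * u ^ 2 := by ring
          _ ≤ u ^ 2 * u ^ 2 := h4
          _ = u ^ 4 := by ring
      linarith
    have h4 : 10 * y * L ≤ |v| * L := by linarith
    exact le_of_mul_le_mul_right h4 hLp
  have hav : 2 * a ≤ |v| := by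
    have h1 : X * (2 * a) ≤ X * |v| := by
      have h2 : lam * 4 ≤ lam * u ^ 2 := mul_le_mul_of_nonneg_left hu22 (by linarith)
      have h3 : X * (2 * a) = 2 * (X * a) := by ring
      linarith
    exact le_of_mul_le_mul_left h1 hXp
  have hvv : |v| ^ 2 = v ^ 2 := sq_abs v
  have hv2 : 0 < v ^ 2 := by rw [← hvv]; positivity
  have hyv : 100 * y ^ 2 ≤ v ^ 2 := by
    have h1 : (10 * y) ^ 2 ≤ |v| ^ 2 := pow_le_pow_left₀ (by linarith) hy10 2
    rw [hvv] at h1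
    linarith
  have hav2 : 4 * a ^ 2 ≤ v ^ 2 := by
    have h1 : (2 * a) ^ 2 ≤ |v| ^ 2 := pow_le_pow_left₀ (by linarith) hav 2
    rw [hvv] at h1
    linarith
  set s := 19 / 10 * (a ^ 2 / v ^ 2) with hs
  have hs1 : a ^ 2 / v ^ 2 ≤ 1 / 4 := by
    rw [div_le_div_iff₀ hv2 (by norm_num)]
    linarith
  have hs0 : 0 ≤ a ^ 2 / v ^ 2 := by positivity
  refine concl κ c X a y v s hXp (by positivity) (by positivity) (by linarith) (by positivity)
    (by positivity) ?_ ?_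
  · have h1 : (y ^ 2 + v ^ 2) ^ 2 * s ≤ a ^ 2 * (a ^ 2 + 2 * v ^ 2 - 2 * y ^ 2) := by
      have h2 : (y ^ 2 + v ^ 2) ^ 2 ≤ (101 / 100 * v ^ 2) ^ 2 := by
        have : y ^ 2 + v ^ 2 ≤ 101 / 100 * v ^ 2 := by linarith
        gcongr
      have h3 : (y ^ 2 + v ^ 2) ^ 2 * s ≤ (101 / 100 * v ^ 2) ^ 2 * s :=
        mul_le_mul_of_nonneg_right h2 (by positivity)
      have h4 : (101 / 100 * v ^ 2) ^ 2 * s = (101 / 100) ^ 2 * (19 / 10) * (a ^ 2 * v ^ 2) := by
        rw [hs]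
        field_simp
      have h5 : (101 / 100 : ℝ) ^ 2 * (19 / 10) * v ^ 2 ≤ a ^ 2 + 2 * v ^ 2 - 2 * y ^ 2 := by
        nlinarith [sq_nonneg a]
      have h6 : a ^ 2 * ((101 / 100 : ℝ) ^ 2 * (19 / 10) * v ^ 2) ≤
          a ^ 2 * (a ^ 2 + 2 * v ^ 2 - 2 * y ^ 2) :=
        mul_le_mul_of_nonneg_left h5 (by positivity)
      linarith
    rw [prod_id, mul_one_add]
    linarith
  · have hexp : Real.exp (X * y) ≤ Real.exp A * u := by
      have h1 : m₀ * (X * y) ≤ A + C₀ * (4 * Real.log u) := by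
        have h2 : m₀ * X * y ≤ L * y := mul_le_mul_of_nonneg_right hL hy0.le
        linarith
      have h3 : X * y ≤ A + Real.log u := by
        have h4 : A + C₀ * (4 * Real.log u) ≤ m₀ * (A + Real.log u) := by
          have h5 : 4 * C₀ * Real.log u ≤ m₀ * Real.log u :=
            mul_le_mul_of_nonneg_right hmC hlogu0
          have h6 : 1 * A ≤ m₀ * A := mul_le_mul_of_nonneg_right hm1 hA
          linarith
        exact le_of_mul_le_mul_left (h1.trans h4) (by linarith)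
      calc Real.exp (X * y) ≤ Real.exp (A + Real.log u) := Real.exp_le_exp.2 h3
        _ = Real.exp A * u := by rw [Real.exp_add, Real.exp_log hup]
    have key : ∀ p : ℝ, p ≤ y → S1 κ c (X * (((p : ℂ) + v * Complex.I) - a)) ≤
        2 * C * Real.exp A * u / V ^ 3 := by
      intro p hp
      have him : |((X : ℂ) * (((p : ℂ) + v * Complex.I) - a)).im| = V := by
        rw [w_im, abs_mul, abs_of_pos hXp]
      have h1 := (hI (X * (((p : ℂ) + v * Complex.I) - a))).1 (by rw [him]; exact hV1)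
      rw [him, w_re] at h1
      refine (le_abs_self _).trans (h1.trans ?_)
      apply div_le_div_of_nonneg_right _ (by positivity)
      have h2 : Real.exp (X * (p - a)) ≤ Real.exp A * u := by
        refine le_trans (Real.exp_le_exp.2 ?_) hexp
        exact mul_le_mul_of_nonneg_left (by linarith) hXp.le
      have h3 : 1 ≤ Real.exp A * u := one_le_mul_of_one_le_of_one_le heA hu1
      have h4 : C * (1 + Real.exp (X * (p - a))) ≤ C * (2 * (Real.exp A * u)) :=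
        mul_le_mul_of_nonneg_left (by linarith) (by linarith)
      linarith
    have h1 := key y le_rfl
    have h2 := key (-y) (by linarith)
    have h3 : 2 * (2 * C * Real.exp A * u / V ^ 3) ≤ s / 4 := by
      have h4 : lam ^ 2 / V ^ 2 ≤ a ^ 2 / v ^ 2 := by
        rw [hV, mul_pow, hvv, div_le_div_iff₀ (by positivity) hv2]
        have h5 : lam ^ 2 ≤ X ^ 2 * a ^ 2 := by
          have h6 : lam ^ 2 ≤ (X * a) ^ 2 := pow_le_pow_left₀ (by linarith) ha 2
          rwa [mul_pow] at h6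
        have h7 : lam ^ 2 * v ^ 2 ≤ X ^ 2 * a ^ 2 * v ^ 2 := mul_le_mul_of_nonneg_right h5 hv2.le
        linarith
      have h6 : 2 * (2 * C * Real.exp A * u / V ^ 3) ≤ 2 / 5 * (lam ^ 2 / V ^ 2) := by
        have h7 : 2 * (2 * C * Real.exp A * u / V ^ 3) = (4 * C * Real.exp A * u) / V ^ 3 := by ring
        have h8 : 2 / 5 * (lam ^ 2 / V ^ 2) = (2 / 5 * lam ^ 2 * V) / V ^ 3 := by
          field_simp
        rw [h7, h8]
        apply div_le_div_of_nonneg_right _ (by positivity)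
        have h9 : 10 * C * Real.exp A * u ≤ u * u :=
          mul_le_mul_of_nonneg_right (by linarith) hup.le
        have h10 : 1 * V ≤ lam ^ 2 * V := by
          have h11 : (1 : ℝ) ^ 2 ≤ lam ^ 2 := pow_le_pow_left₀ (by norm_num) (by linarith) 2
          exact mul_le_mul_of_nonneg_right (by linarith) hV0
        have h12 : 10 * C * Real.exp A * u ≤ lam ^ 2 * V := by
          have h13 : u * u = u ^ 2 := by ring
          linarith
        have h14 : 2 / 5 * lam ^ 2 * V = 2 / 5 * (lam ^ 2 * V) := by ring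
        rw [h14]
        linarith
      have h11 : 2 / 5 * (lam ^ 2 / V ^ 2) ≤ 2 / 5 * (a ^ 2 / v ^ 2) :=
        mul_le_mul_of_nonneg_left h4 (by norm_num)
      rw [hs]
      linarith
    linarith

end I_Pair

open I_Pair in
/-- a pair of zeros contributes at most `0` -/
theorem Pair_pf : S_Pair := by
  intro κ c C hκ hC hI
  refine ⟨17 * C, by linarith, fun lam hlam A C₀ hA hC₀ => ?_⟩
  set m₀ := 1 + 4 * (A + 4 * C₀) * (2 + 8 * (A + 4 * C₀) + 10 * C * Real.exp A) + 4 * C₀ with hm₀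
  have hm1 : 1 ≤ m₀ := by
    have : 0 ≤ 4 * (A + 4 * C₀) * (2 + 8 * (A + 4 * C₀) + 10 * C * Real.exp A) := by positivity
    linarith
  refine ⟨m₀, hm1, fun L X a y v hX hL ha ha2 hyL hne => ?_⟩
  have hXp : 0 < X := by linarith
  have ha' : lam ≤ X * a := by
    rw [div_le_iff₀ hXp] at ha
    linarith
  have ha2' : X * a ≤ 2 * lam := by
    rw [le_div_iff₀ hXp] at ha2
    linarith
  have hlam2 : 2 ≤ lam := by linarith
  have hlamC : 17 * C ≤ lam ^ 2 := by nlinarith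
  -- the statement for `y ≥ 0`
  have main : ∀ y : ℝ, 0 ≤ y → |y| * L ≤ A + C₀ * Real.log (1 + |v| * L) → ¬(y = 0 ∧ v = 0) →
      2 * (Real.log X - c) + (Hh κ (X * (((y : ℂ) + v * Complex.I) - a))).re +
      (Hh κ (X * ((-(y : ℂ) + v * Complex.I) - a))).re +
        2 * Real.log ‖(y : ℂ) + v * Complex.I‖ ≤ 0 := by
    intro y hy0 hyL hne
    rcases le_or_gt y (a / 4) with h | h
    · refine case1 κ c C hC hI lam X a y v hlam2 hlamC hX ha' hy0 h ?_
      by_contra h0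
      have h1 : y ^ 2 + v ^ 2 = 0 := le_antisymm (not_lt.mp h0) (by positivity)
      exact hne ⟨by nlinarith [sq_nonneg v, sq_nonneg y], by nlinarith [sq_nonneg v, sq_nonneg y]⟩
    · rw [abs_of_nonneg hy0] at hyL
      exact case2 κ c C hC hI lam A C₀ X a y v L m₀ hlam2 hA hC₀ hm₀ hX hL ha' ha2' h hyL
  rcases le_total 0 y with h | h
  · exact main y h hyL hne
  · have h1 := main (-y) (by linarith) (by rw [abs_neg]; exact hyL)
      (fun h2 => hne ⟨by linarith [h2.1], h2.2⟩)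
    have h2 : ‖(((-y : ℝ) : ℂ)) + v * Complex.I‖ = ‖(y : ℂ) + v * Complex.I‖ := by
      rw [Complex.norm_add_mul_I, Complex.norm_add_mul_I, neg_sq]
    rw [h2] at h1
    have h3 : (((-y : ℝ) : ℂ)) = -(y : ℂ) := by push_cast; rfl
    rw [h3, neg_neg] at h1
    linarith

end Pool.Agent.Work.MP_56b8f5_nt.HZ
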