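import Pool.Agent.Work.MP_56b8f5_nt.HZ.StmtsV
import Pool.Agent.Work.MP_56b8f5_nt.HZ.I_Pair

/-!
MP_56b8f5_nt, block HZ, part V, item PairV: a pair of zeros contributes at most `0`.
-/

set_option autoImplicit false

open MeasureTheory Set Filter Topology

namespace Pool.Agent.Work.MP_56b8f5_nt.HZ

open Pool.Agent.Work.MP_56b8f5_nt.EM Pool.Agent.Work.MP_56b8f5_nt.WM Pool.Agent.Work.MP_56b8f5_nt.SH

namespace V_Pair

open I_Pair

/-- the gain -/
theorem gainV (y v b η s : ℝ) (hz1 : 0 < (y - η) ^ 2 + v ^ 2) (hz2 : 0 < (-y - η) ^ 2 + v ^ 2) (hs0 : 0 ≤ s)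
    (hs1 : s ≤ 1) (hP1 : 0 < (y - b) ^ 2 + v ^ 2) (hP2 : 0 < (-y - b) ^ 2 + v ^ 2)
    (h : ((y - η) ^ 2 + v ^ 2) * ((-y - η) ^ 2 + v ^ 2) * (1 + s) ≤
      ((y - b) ^ 2 + v ^ 2) * ((-y - b) ^ 2 + v ^ 2)) :
    Real.log ((y - η) ^ 2 + v ^ 2) / 2 + Real.log ((-y - η) ^ 2 + v ^ 2) / 2 + s / 4 ≤
      Real.log ((y - b) ^ 2 + v ^ 2) / 2 + Real.log ((-y - b) ^ 2 + v ^ 2) / 2 := by
  have h1 : s / 2 ≤ Real.log (1 + s) := by
    have h2 := Real.one_sub_inv_le_log_of_pos (show 0 < 1 + s by linarith)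
    have h3 : s / 2 ≤ 1 - (1 + s)⁻¹ := by
      have h4 : 1 - (1 + s)⁻¹ = s / (1 + s) := by
        field_simp
        ring
      rw [h4]
      exact div_le_div_of_nonneg_left hs0 (by linarith) (by linarith)
    exact h3.trans h2
  have h5 := Real.log_le_log (by positivity) h
  rw [Real.log_mul (by positivity) (by linarith), Real.log_mul hz1.ne' hz2.ne',
    Real.log_mul hP1.ne' hP2.ne'] at h5
  linarith

/-- the statement from bounds of `S1` -/
theorem conclV (κ : ℝ → ℝ) (c X b η y v s : ℝ) (hX : 0 < X) (hz1 : 0 < (y - η) ^ 2 + v ^ 2)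
    (hz2 : 0 < (-y - η) ^ 2 + v ^ 2) (hs0 : 0 ≤ s)
    (hs1 : s ≤ 1) (hP1 : 0 < (y - b) ^ 2 + v ^ 2) (hP2 : 0 < (-y - b) ^ 2 + v ^ 2)
    (h : ((y - η) ^ 2 + v ^ 2) * ((-y - η) ^ 2 + v ^ 2) * (1 + s) ≤
      ((y - b) ^ 2 + v ^ 2) * ((-y - b) ^ 2 + v ^ 2))
    (hS : S1 κ c (X * (((y : ℂ) + v * Complex.I) - b)) +
      S1 κ c (X * (((-y : ℝ) : ℂ) + v * Complex.I - b)) ≤ s / 4) :
    2 * (Real.log X - c) + (Hh κ (X * (((y : ℂ) + v * Complex.I) - b))).re +
    (Hh κ (X * ((((-y : ℝ) : ℂ) + v * Complex.I) - b))).re + Real.log ((y - η) ^ 2 + v ^ 2) / 2 +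
      Real.log ((-y - η) ^ 2 + v ^ 2) / 2 ≤ 0 := by
  have h1 := gainV y v b η s hz1 hz2 hs0 hs1 hP1 hP2 h
  have h2 := Hh_eq κ c X b y v hX hP1
  have h3 := Hh_eq κ c X b (-y) v hX hP2
  rw [h2, h3]
  linarith

theorem prodV (y v b η : ℝ) : ((y - b) ^ 2 + v ^ 2) * ((-y - b) ^ 2 + v ^ 2) =
    ((y - η) ^ 2 + v ^ 2) * ((-y - η) ^ 2 + v ^ 2) +
      (b - η) * (b + η) * (b ^ 2 + η ^ 2 + 2 * v ^ 2 - 2 * y ^ 2) := by
  ring

/-- Case 1 -/
theorem case1V (κ : ℝ → ℝ) (c C : ℝ) (hC : 1 ≤ C) (hI : IsC κ c C) (lam X a b η y v : ℝ)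
    (hlam : 2 ≤ lam) (hlamC : 55 * C ≤ lam ^ 3) (hX : 1 ≤ X) (ha : lam ≤ X * a) (hη : 0 ≤ η)
    (hb : b = a + η) (hy0 : 0 ≤ y)
    (hy : y ≤ b / 4) (hz1 : 0 < (y - η) ^ 2 + v ^ 2) (hz2 : 0 < (-y - η) ^ 2 + v ^ 2) :
    2 * (Real.log X - c) + (Hh κ (X * (((y : ℂ) + v * Complex.I) - b))).re +
    (Hh κ (X * ((((-y : ℝ) : ℂ) + v * Complex.I) - b))).re + Real.log ((y - η) ^ 2 + v ^ 2) / 2 +
      Real.log ((-y - η) ^ 2 + v ^ 2) / 2 ≤ 0 := by
  have hXp : 0 < X := by linarith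
  have ha0 : 0 < a := by
    by_contra h
    have : X * a ≤ 0 := mul_nonpos_of_nonneg_of_nonpos hXp.le (not_lt.mp h)
    linarith
  have hab : a ≤ b := by linarith
  have hηb : η ≤ b := by linarith
  have hb0 : 0 < b := by linarith
  have hbl : lam ≤ X * b := ha.trans (mul_le_mul_of_nonneg_left hab hXp.le)
  have hQ : 0 < b ^ 2 + v ^ 2 := by positivity
  have hP1 : 9 / 16 * (b ^ 2 + v ^ 2) ≤ (y - b) ^ 2 + v ^ 2 := by nlinarith [sq_nonneg v]
  have hP2 : 9 / 16 * (b ^ 2 + v ^ 2) ≤ (-y - b) ^ 2 + v ^ 2 := by nlinarith [sq_nonneg v]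
  have hP1' : 0 < (y - b) ^ 2 + v ^ 2 := by linarith
  have hP2' : 0 < (-y - b) ^ 2 + v ^ 2 := by linarith
  have hab0 : 0 < a * b := mul_pos ha0 hb0
  set s := 7 / 20 * (a * b / (b ^ 2 + v ^ 2)) with hs
  have hfr : a * b / (b ^ 2 + v ^ 2) ≤ 1 := by
    rw [div_le_one hQ]
    nlinarith [sq_nonneg v]
  have hfr0 : 0 ≤ a * b / (b ^ 2 + v ^ 2) := by positivity
  refine conclV κ c X b η y v s hXp hz1 hz2 (by positivity) (by linarith) hP1' hP2' ?_ ?_
  · have hq : ((y - η) ^ 2 + v ^ 2) * ((-y - η) ^ 2 + v ^ 2) ≤ (25 / 16 * (b ^ 2 + v ^ 2)) ^ 2 := by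
      have e1 : (y - η) ^ 2 + v ^ 2 ≤ 25 / 16 * (b ^ 2 + v ^ 2) := by
        have : (y - η) ^ 2 ≤ b ^ 2 := by
          apply sq_le_sq'
          · linarith
          · linarith
        nlinarith [sq_nonneg v, sq_nonneg b]
      have e2 : (-y - η) ^ 2 + v ^ 2 ≤ 25 / 16 * (b ^ 2 + v ^ 2) := by
        have : (-y - η) ^ 2 ≤ (5 / 4 * b) ^ 2 := by
          apply sq_le_sq'
          · linarith
          · linarith
        nlinarith [sq_nonneg v, sq_nonneg b]
      calc _ ≤ (25 / 16 * (b ^ 2 + v ^ 2)) * (25 / 16 * (b ^ 2 + v ^ 2)) :=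
            mul_le_mul e1 e2 hz2.le (by positivity)
        _ = _ := by ring
    have h1 : ((y - η) ^ 2 + v ^ 2) * ((-y - η) ^ 2 + v ^ 2) * s ≤
        (b - η) * (b + η) * (b ^ 2 + η ^ 2 + 2 * v ^ 2 - 2 * y ^ 2) := by
      have h3 : ((y - η) ^ 2 + v ^ 2) * ((-y - η) ^ 2 + v ^ 2) * s ≤ (25 / 16 * (b ^ 2 + v ^ 2)) ^ 2 * s :=
        mul_le_mul_of_nonneg_right hq (by positivity)
      have h4 : (25 / 16 * (b ^ 2 + v ^ 2)) ^ 2 * s = (25 / 16) ^ 2 * (7 / 20) * (a * b * (b ^ 2 + v ^ 2)) := by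
        rw [hs]
        field_simp
      have h5 : 7 / 8 * (b ^ 2 + v ^ 2) ≤ b ^ 2 + η ^ 2 + 2 * v ^ 2 - 2 * y ^ 2 := by
        nlinarith [sq_nonneg v, sq_nonneg η]
      have h6 : a * b ≤ (b - η) * (b + η) := by
        have : b - η = a := by linarith
        rw [this]
        exact mul_le_mul_of_nonneg_left (by linarith) ha0.le
      have h7 : a * b * (7 / 8 * (b ^ 2 + v ^ 2)) ≤
          (b - η) * (b + η) * (b ^ 2 + η ^ 2 + 2 * v ^ 2 - 2 * y ^ 2) :=
        mul_le_mul h6 h5 (by positivity) (hab0.le.trans h6)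
      have h8 : 0 ≤ a * b * (b ^ 2 + v ^ 2) := by positivity
      have h9 : (25 / 16 : ℝ) ^ 2 * (7 / 20) * (a * b * (b ^ 2 + v ^ 2)) ≤
          a * b * (7 / 8 * (b ^ 2 + v ^ 2)) := by
        have e : a * b * (7 / 8 * (b ^ 2 + v ^ 2)) = 7 / 8 * (a * b * (b ^ 2 + v ^ 2)) := by ring
        rw [e]
        exact mul_le_mul_of_nonneg_right (by norm_num) h8
      linarith
    rw [prodV y v b η, mul_one_add]
    linarith
  · have key : ∀ p : ℝ, p ≤ b / 4 → 9 / 16 * (b ^ 2 + v ^ 2) ≤ (p - b) ^ 2 + v ^ 2 →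
        S1 κ c (X * (((p : ℂ) + v * Complex.I) - b)) ≤ s / 8 := by
      intro p hp hP
      have hre : 3 / 4 * (X * b) ≤ -((X : ℂ) * (((p : ℂ) + v * Complex.I) - b)).re := by
        rw [w_re]
        nlinarith
      have h1 : ((X : ℂ) * (((p : ℂ) + v * Complex.I) - b)).re ≤ -1 := by
        linarith
      have h2 := (hI (X * (((p : ℂ) + v * Complex.I) - b))).2.1 h1
      set w := (X : ℂ) * (((p : ℂ) + v * Complex.I) - b) with hw
      have h3 : 3 / 4 * (X * b) ≤ ‖w‖ := by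
        have := Complex.abs_re_le_norm w
        rw [abs_of_nonpos (by linarith)] at this
        linarith
      have hXb : 0 < X * b := by positivity
      have h3p : 0 < ‖w‖ := by linarith
      have h5 : ‖w‖ ^ 2 = X ^ 2 * ((p - b) ^ 2 + v ^ 2) := w_norm X b p v
      have h6 : C / ‖w‖ ^ 3 ≤ s / 8 := by
        have h7 : s / 8 = (7 * (a * b)) / (160 * (b ^ 2 + v ^ 2)) := by
          rw [hs]
          field_simp
          ring
        rw [h7, div_le_div_iff₀ (by positivity) (by positivity)]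
        have h8 : X ^ 2 * (9 / 16 * (b ^ 2 + v ^ 2)) * (3 / 4 * (X * b)) ≤ ‖w‖ ^ 3 := by
          have e : ‖w‖ ^ 3 = ‖w‖ ^ 2 * ‖w‖ := by ring
          rw [e, h5]
          exact mul_le_mul (mul_le_mul_of_nonneg_left hP (by positivity)) h3 (by positivity)
            (by positivity)
        have h9 : lam ^ 3 ≤ (X * a) * (X * b) ^ 2 := by
          have e : lam ^ 3 = lam * lam ^ 2 := by ring
          rw [e]
          exact mul_le_mul ha (pow_le_pow_left₀ (by linarith) hbl 2) (by positivity)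
            (by positivity)
        have h10 : 7 * (a * b) * (X ^ 2 * (9 / 16 * (b ^ 2 + v ^ 2)) * (3 / 4 * (X * b))) ≤
            7 * (a * b) * ‖w‖ ^ 3 := mul_le_mul_of_nonneg_left h8 (by positivity)
        have e1 : 7 * (a * b) * (X ^ 2 * (9 / 16 * (b ^ 2 + v ^ 2)) * (3 / 4 * (X * b))) =
            189 / 64 * ((X * a) * (X * b) ^ 2 * (b ^ 2 + v ^ 2)) := by ring
        have h11 : 55 * C * (b ^ 2 + v ^ 2) ≤ (X * a) * (X * b) ^ 2 * (b ^ 2 + v ^ 2) :=
          mul_le_mul_of_nonneg_right (hlamC.trans h9) hQ.le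
        have h12 : 0 ≤ C * (b ^ 2 + v ^ 2) := by positivity
        have e2 : C * (160 * (b ^ 2 + v ^ 2)) = 160 * (C * (b ^ 2 + v ^ 2)) := by ring
        have e3 : 55 * C * (b ^ 2 + v ^ 2) = 55 * (C * (b ^ 2 + v ^ 2)) := by ring
        rw [e1] at h10
        rw [e3] at h11
        rw [e2]
        linarith
      exact (le_abs_self _).trans (h2.trans h6)
    have h1 := key y hy hP1
    have h2 := key (-y) (by linarith) hP2
    linarith

/-- Case 2 -/
theorem case2V (κ : ℝ → ℝ) (c C : ℝ) (hC : 1 ≤ C) (hI : IsC κ c C) (lam A C₀ X a b η y v L m₀ : ℝ)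
    (hlam : 2 ≤ lam) (hA : 0 ≤ A) (hC₀ : 0 ≤ C₀)
    (hm₀ : m₀ = 1 + 4 * (A + 4 * C₀) * (2 + 8 * (A + 4 * C₀) + 10 * C * Real.exp A) + 4 * C₀)
    (hX : 1 ≤ X) (hL : m₀ * X ≤ L) (ha : lam ≤ X * a) (hη : 0 ≤ η) (hb : b = a + η)
    (hy : b / 4 < y) (hyL : y * L ≤ A + C₀ * Real.log (1 + |v| * L)) :
    2 * (Real.log X - c) + (Hh κ (X * (((y : ℂ) + v * Complex.I) - b))).re +
    (Hh κ (X * ((((-y : ℝ) : ℂ) + v * Complex.I) - b))).re + Real.log ((y - η) ^ 2 + v ^ 2) / 2 +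
      Real.log ((-y - η) ^ 2 + v ^ 2) / 2 ≤ 0 := by
  have hXp : 0 < X := by linarith
  have ha0 : 0 < a := by
    by_contra h
    have : X * a ≤ 0 := mul_nonpos_of_nonneg_of_nonpos hXp.le (not_lt.mp h)
    linarith
  have hab : a ≤ b := by linarith
  have hηb : η ≤ b := by linarith
  have hb0 : 0 < b := by linarith
  have hbl : lam ≤ X * b := ha.trans (mul_le_mul_of_nonneg_left hab hXp.le)
  have hya : a / 4 < y := by linarith
  have hB0 : 0 ≤ A + 4 * C₀ := by positivity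
  have heA : 1 ≤ Real.exp A := Real.one_le_exp hA
  set B := A + 4 * C₀ with hB
  set u₀ := 2 + 8 * B + 10 * C * Real.exp A with hu₀
  have hCe : 0 ≤ 10 * C * Real.exp A := by positivity
  have hu₀2 : 2 ≤ u₀ := by linarith
  have hBu₀ : 0 ≤ B * u₀ := by positivity
  have hm2 : m₀ = 1 + 4 * (B * u₀) + 4 * C₀ := by rw [hm₀]; ring
  have hm1 : 1 ≤ m₀ := by linarith
  have hmC : 4 * C₀ ≤ m₀ := by linarith
  have hLp : 0 < L := lt_of_lt_of_le (by positivity) hL
  have hv0 : 0 ≤ |v| := abs_nonneg v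
  set r := |v| * L with hr
  have hr0 : 0 ≤ r := by positivity
  set u := Real.sqrt (Real.sqrt (1 + r)) with hu
  have hu4 : u ^ 4 = 1 + r := by
    have h1 : u ^ 2 = Real.sqrt (1 + r) := Real.sq_sqrt (Real.sqrt_nonneg _)
    calc u ^ 4 = (u ^ 2) ^ 2 := by ring
      _ = 1 + r := by rw [h1, Real.sq_sqrt (by linarith)]
  have hu1 : 1 ≤ u := by
    rw [hu]
    rw [Real.one_le_sqrt, Real.one_le_sqrt]
    linarith
  have hup : 0 < u := by linarith
  have hlog : Real.log (1 + r) = 4 * Real.log u := by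
    rw [← hu4, Real.log_pow]
    push_cast
    ring
  have hlogu : Real.log u ≤ u := (Real.log_le_sub_one_of_pos hup).trans (by linarith)
  have hlogu0 : 0 ≤ Real.log u := Real.log_nonneg hu1
  rw [hlog] at hyL
  have hD : y * L ≤ B * u := by
    refine hyL.trans ?_
    rw [hB]
    have h1 : C₀ * Real.log u ≤ C₀ * u := mul_le_mul_of_nonneg_left hlogu hC₀
    have h2 : A * 1 ≤ A * u := mul_le_mul_of_nonneg_left hu1 hA
    linarith
  have hy0 : 0 < y := by linarith
  -- `u` is large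
  have hm4 : m₀ ≤ 4 * (y * L) := by
    have h1 : lam * m₀ ≤ X * a * m₀ := mul_le_mul_of_nonneg_right ha (by linarith)
    have h2 : a * (m₀ * X) ≤ a * L := mul_le_mul_of_nonneg_left hL ha0.le
    have h3 : a * L ≤ 4 * y * L := mul_le_mul_of_nonneg_right (by linarith) hLp.le
    have h4 : 1 * m₀ ≤ lam * m₀ := mul_le_mul_of_nonneg_right (by linarith) (by linarith)
    have h5 : X * a * m₀ = a * (m₀ * X) := by ring
    linarith
  have huu : u₀ < u := by
    by_contra h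
    have h1 : B * u ≤ B * u₀ := mul_le_mul_of_nonneg_left (not_lt.mp h) hB0
    have h2 : m₀ = 1 + 4 * (B * u₀) + 4 * C₀ := by rw [hm₀]; ring
    linarith
  have hu2 : 2 ≤ u := by linarith
  have hu8 : 8 * B ≤ u := by linarith
  have hur : u ^ 4 ≤ 2 * r := by
    have h1 : (2 : ℝ) ^ 4 ≤ u ^ 4 := pow_le_pow_left₀ (by norm_num) hu2 4
    have h2 : (2 : ℝ) ^ 4 = 16 := by norm_num
    linarith
  -- `V = X |v|`
  set V := X * |v| with hV
  have hV0 : 0 ≤ V := by positivity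
  have hVu : lam * u ^ 2 ≤ V := by
    have h1 : lam * L ≤ 4 * X * (y * L) := by
      have h2 : X * a * L ≤ X * (4 * y) * L := by
        have : X * a ≤ X * (4 * y) := mul_le_mul_of_nonneg_left (by linarith) hXp.le
        exact mul_le_mul_of_nonneg_right this hLp.le
      have h3 : lam * L ≤ X * a * L := mul_le_mul_of_nonneg_right ha hLp.le
      have h4 : X * (4 * y) * L = 4 * X * (y * L) := by ring
      linarith
    have h4 : lam * r ≤ 4 * V * (B * u) := by
      have h5 : lam * L * |v| ≤ 4 * X * (y * L) * |v| := mul_le_mul_of_nonneg_right h1 hv0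
      have h6 : 4 * V * (y * L) ≤ 4 * V * (B * u) := mul_le_mul_of_nonneg_left hD (by positivity)
      have h7 : lam * r = lam * L * |v| := by rw [hr]; ring
      have h8 : 4 * X * (y * L) * |v| = 4 * V * (y * L) := by rw [hV]; ring
      linarith
    have h9 : lam * u ^ 4 ≤ lam * (2 * r) := mul_le_mul_of_nonneg_left hur (by linarith)
    have h10 : lam * u ^ 4 ≤ V * u * u := by
      have h11 : V * u * (8 * B) ≤ V * u * u := mul_le_mul_of_nonneg_left hu8 (by positivity)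
      have e1 : lam * (2 * r) = 2 * (lam * r) := by ring
      have e2 : V * u * (8 * B) = 2 * (4 * V * (B * u)) := by ring
      linarith
    have h12 : (lam * u ^ 2) * (u ^ 2) ≤ V * u ^ 2 := by
      have e1 : (lam * u ^ 2) * (u ^ 2) = lam * u ^ 4 := by ring
      have e2 : V * u ^ 2 = V * u * u := by ring
      linarith
    exact le_of_mul_le_mul_right h12 (by positivity)
  have hVu2 : u ^ 2 ≤ V := by
    have h1 : 1 * u ^ 2 ≤ lam * u ^ 2 := mul_le_mul_of_nonneg_right (by linarith) (sq_nonneg u)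
    linarith
  have hVu3 : 2 * u ^ 2 ≤ V := by
    have h1 : 2 * u ^ 2 ≤ lam * u ^ 2 := mul_le_mul_of_nonneg_right (by linarith) (sq_nonneg u)
    linarith
  have hu22 : 4 ≤ u ^ 2 := by
    have h1 : (2 : ℝ) ^ 2 ≤ u ^ 2 := pow_le_pow_left₀ (by norm_num) hu2 2
    linarith
  have hV1 : 1 ≤ V := by linarith
  have hvp : 0 < |v| := by
    rcases hv0.lt_or_eq with h | h
    · exact h
    · rw [hV, ← h, mul_zero] at hV1
      linarith
  have hy10 : 10 * y ≤ |v| := by
    have h1 : 10 * (B * u) ≤ r := by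
      have h2 : 8 * B * u ≤ u * u := mul_le_mul_of_nonneg_right hu8 hup.le
      have h3 : 4 * (u * u) ≤ u ^ 4 := by
        have h4 : 4 * u ^ 2 ≤ u ^ 2 * u ^ 2 :=
          mul_le_mul_of_nonneg_right hu22 (sq_nonneg u)
        calc 4 * (u * u) = 4 * u ^ 2 := by ring
          _ ≤ u ^ 2 * u ^ 2 := h4
          _ = u ^ 4 := by ring
      linarith
    have h4 : 10 * y * L ≤ |v| * L := by linarith
    exact le_of_mul_le_mul_right h4 hLp
  have hbv : 5 * b ≤ 2 * |v| := by linarith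
  have hvv : |v| ^ 2 = v ^ 2 := sq_abs v
  have hv2 : 0 < v ^ 2 := by rw [← hvv]; positivity
  have hyv : 100 * y ^ 2 ≤ v ^ 2 := by
    have h1 : (10 * y) ^ 2 ≤ |v| ^ 2 := pow_le_pow_left₀ (by linarith) hy10 2
    rw [hvv] at h1
    linarith
  have hbv2 : 25 * b ^ 2 ≤ 4 * v ^ 2 := by
    have h1 : (5 * b) ^ 2 ≤ (2 * |v|) ^ 2 := pow_le_pow_left₀ (by linarith) hbv 2
    rw [mul_pow 2 |v|, hvv] at h1
    linarith
  have hab0 : 0 < a * b := mul_pos ha0 hb0
  set s := 5 / 4 * (a * b / v ^ 2) with hs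
  have hs1 : a * b / v ^ 2 ≤ 4 / 25 := by
    rw [div_le_div_iff₀ hv2 (by norm_num)]
    nlinarith
  have hs0 : 0 ≤ a * b / v ^ 2 := by positivity
  refine conclV κ c X b η y v s hXp (by positivity) (by positivity) (by positivity) (by linarith) (by positivity)
    (by positivity) ?_ ?_
  · have hyη : y + η ≤ 1 / 2 * |v| := by linarith
    have hq : ((y - η) ^ 2 + v ^ 2) * ((-y - η) ^ 2 + v ^ 2) ≤ (5 / 4 * v ^ 2) ^ 2 := by
      have e0 : (y + η) ^ 2 ≤ 1 / 4 * v ^ 2 := by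
        have h1 : (y + η) ^ 2 ≤ (1 / 2 * |v|) ^ 2 := pow_le_pow_left₀ (by linarith) hyη 2
        rw [mul_pow, hvv] at h1
        linarith
      have e1 : (y - η) ^ 2 + v ^ 2 ≤ 5 / 4 * v ^ 2 := by
        nlinarith [mul_nonneg hy0.le hη]
      have e2 : (-y - η) ^ 2 + v ^ 2 ≤ 5 / 4 * v ^ 2 := by
        have : (-y - η) ^ 2 = (y + η) ^ 2 := by ring
        rw [this]
        linarith
      calc _ ≤ (5 / 4 * v ^ 2) * (5 / 4 * v ^ 2) :=
            mul_le_mul e1 e2 (by positivity) (by positivity)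
        _ = _ := by ring
    have h1 : ((y - η) ^ 2 + v ^ 2) * ((-y - η) ^ 2 + v ^ 2) * s ≤
        (b - η) * (b + η) * (b ^ 2 + η ^ 2 + 2 * v ^ 2 - 2 * y ^ 2) := by
      have h3 : ((y - η) ^ 2 + v ^ 2) * ((-y - η) ^ 2 + v ^ 2) * s ≤ (5 / 4 * v ^ 2) ^ 2 * s :=
        mul_le_mul_of_nonneg_right hq (by positivity)
      have h4 : (5 / 4 * v ^ 2) ^ 2 * s = (5 / 4) ^ 3 * (a * b * v ^ 2) := by
        rw [hs]
        field_simp
      have h5 : 49 / 25 * v ^ 2 ≤ b ^ 2 + η ^ 2 + 2 * v ^ 2 - 2 * y ^ 2 := by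
        nlinarith [sq_nonneg b, sq_nonneg η]
      have h6 : a * b ≤ (b - η) * (b + η) := by
        have : b - η = a := by linarith
        rw [this]
        exact mul_le_mul_of_nonneg_left (by linarith) ha0.le
      have h7 : a * b * (49 / 25 * v ^ 2) ≤
          (b - η) * (b + η) * (b ^ 2 + η ^ 2 + 2 * v ^ 2 - 2 * y ^ 2) :=
        mul_le_mul h6 h5 (by positivity) (hab0.le.trans h6)
      have h8 : 0 ≤ a * b * v ^ 2 := by positivity
      have h9 : (5 / 4 : ℝ) ^ 3 * (a * b * v ^ 2) ≤ a * b * (49 / 25 * v ^ 2) := by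
        have e : a * b * (49 / 25 * v ^ 2) = 49 / 25 * (a * b * v ^ 2) := by ring
        rw [e]
        exact mul_le_mul_of_nonneg_right (by norm_num) h8
      linarith
    rw [prodV y v b η, mul_one_add]
    linarith
  · have hexp : Real.exp (X * y) ≤ Real.exp A * u := by
      have h1 : m₀ * (X * y) ≤ A + C₀ * (4 * Real.log u) := by
        have h2 : m₀ * X * y ≤ L * y := mul_le_mul_of_nonneg_right hL hy0.le
        linarith
      have h3 : X * y ≤ A + Real.log u := by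
        have h4 : A + C₀ * (4 * Real.log u) ≤ m₀ * (A + Real.log u) := by
          have h5 : 4 * C₀ * Real.log u ≤ m₀ * Real.log u :=
            mul_le_mul_of_nonneg_right hmC hlogu0
          have h6 : 1 * A ≤ m₀ * A := mul_le_mul_of_nonneg_right hm1 hA
          linarith
        exact le_of_mul_le_mul_left (h1.trans h4) (by linarith)
      calc Real.exp (X * y) ≤ Real.exp (A + Real.log u) := Real.exp_le_exp.2 h3
        _ = Real.exp A * u := by rw [Real.exp_add, Real.exp_log hup]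
    have key : ∀ p : ℝ, p ≤ y → S1 κ c (X * (((p : ℂ) + v * Complex.I) - b)) ≤
        2 * C * Real.exp A * u / V ^ 3 := by
      intro p hp
      have him : |((X : ℂ) * (((p : ℂ) + v * Complex.I) - b)).im| = V := by
        rw [w_im, abs_mul, abs_of_pos hXp]
      have h1 := (hI (X * (((p : ℂ) + v * Complex.I) - b))).1 (by rw [him]; exact hV1)
      rw [him, w_re] at h1
      refine (le_abs_self _).trans (h1.trans ?_)
      apply div_le_div_of_nonneg_right _ (by positivity)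
      have h2 : Real.exp (X * (p - b)) ≤ Real.exp A * u := by
        refine le_trans (Real.exp_le_exp.2 ?_) hexp
        exact mul_le_mul_of_nonneg_left (by linarith) hXp.le
      have h3 : 1 ≤ Real.exp A * u := one_le_mul_of_one_le_of_one_le heA hu1
      have h4 : C * (1 + Real.exp (X * (p - b))) ≤ C * (2 * (Real.exp A * u)) :=
        mul_le_mul_of_nonneg_left (by linarith) (by linarith)
      linarith
    have h1 := key y le_rfl
    have h2 := key (-y) (by linarith)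
    have h3 : 2 * (2 * C * Real.exp A * u / V ^ 3) ≤ s / 4 := by
      have h4 : lam ^ 2 / V ^ 2 ≤ a * b / v ^ 2 := by
        rw [hV, mul_pow, hvv, div_le_div_iff₀ (by positivity) hv2]
        have h5 : lam ^ 2 ≤ X ^ 2 * (a * b) := by
          have h6 : lam * lam ≤ (X * a) * (X * b) := mul_le_mul ha hbl (by linarith) (by positivity)
          nlinarith
        have h7 : lam ^ 2 * v ^ 2 ≤ X ^ 2 * (a * b) * v ^ 2 := mul_le_mul_of_nonneg_right h5 hv2.le
        linarith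
      have h6 : 2 * (2 * C * Real.exp A * u / V ^ 3) ≤ 1 / 5 * (lam ^ 2 / V ^ 2) := by
        have h7 : 2 * (2 * C * Real.exp A * u / V ^ 3) = (4 * C * Real.exp A * u) / V ^ 3 := by ring
        have h8 : 1 / 5 * (lam ^ 2 / V ^ 2) = (1 / 5 * lam ^ 2 * V) / V ^ 3 := by
          field_simp
        rw [h7, h8]
        apply div_le_div_of_nonneg_right _ (by positivity)
        have h9 : 10 * C * Real.exp A * u ≤ u * u :=
          mul_le_mul_of_nonneg_right (by linarith) hup.le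
        have h10 : 4 * V ≤ lam ^ 2 * V := by
          have h11 : (2 : ℝ) ^ 2 ≤ lam ^ 2 := pow_le_pow_left₀ (by norm_num) (by linarith) 2
          exact mul_le_mul_of_nonneg_right (by linarith) hV0
        have h12 : 10 * C * Real.exp A * u ≤ 1 / 8 * (lam ^ 2 * V) := by
          have h13 : u * u = u ^ 2 := by ring
          linarith
        have h14 : 1 / 5 * lam ^ 2 * V = 1 / 5 * (lam ^ 2 * V) := by ring
        have h15 : 0 ≤ lam ^ 2 * V := by positivity
        rw [h14]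
        linarith
      have h11 : 1 / 5 * (lam ^ 2 / V ^ 2) ≤ 1 / 5 * (a * b / v ^ 2) :=
        mul_le_mul_of_nonneg_left h4 (by norm_num)
      rw [hs]
      linarith
    linarith

end V_Pair

open I_Pair V_Pair in
/-- a pair of zeros contributes at most `0` -/
theorem PairV_pf : S_PairV := by
  intro κ c C hκ hC hI
  refine ⟨55 * C, by linarith, fun lam hlam A C₀ hA hC₀ => ?_⟩
  set m₀ := 1 + 4 * (A + 4 * C₀) * (2 + 8 * (A + 4 * C₀) + 10 * C * Real.exp A) + 4 * C₀ with hm₀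
  have hm1 : 1 ≤ m₀ := by
    have : 0 ≤ 4 * (A + 4 * C₀) * (2 + 8 * (A + 4 * C₀) + 10 * C * Real.exp A) := by positivity
    linarith
  refine ⟨m₀, hm1, fun L X a η y v hX hL ha hη hyL hne => ?_⟩
  have hXp : 0 < X := by linarith
  have ha' : lam ≤ X * a := by
    rw [div_le_iff₀ hXp] at ha
    linarith
  have hlam2 : 2 ≤ lam := by linarith
  have hlamC : 55 * C ≤ lam ^ 3 := by
    have h1 : 1 ≤ lam ^ 2 := by nlinarith
    have h2 : lam ^ 3 = lam * lam ^ 2 := by ring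
    rw [h2]
    nlinarith
  have e1 : ∀ p : ℝ, (((p - η : ℝ) : ℂ) + v * Complex.I - a) = ((p : ℂ) + v * Complex.I) - ((a + η : ℝ) : ℂ) := by
    intro p
    push_cast
    ring
  -- the statement for `y ≥ 0`
  have main : ∀ y : ℝ, 0 ≤ y → |y| * L ≤ A + C₀ * Real.log (1 + |v| * L) → ¬(|y| = η ∧ v = 0) →
      2 * (Real.log X - c) + (Hh κ (X * (((y - η : ℝ) : ℂ) + v * Complex.I - a))).re +
      (Hh κ (X * (((-y - η : ℝ) : ℂ) + v * Complex.I - a))).re +
      Real.log ‖((y - η : ℝ) : ℂ) + v * Complex.I‖ + Real.log ‖((-y - η : ℝ) : ℂ) + v * Complex.I‖ ≤ 0 := by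
    intro y hy0 hyL hne
    rw [e1, e1, norm_pq, norm_pq]
    rcases le_or_gt y ((a + η) / 4) with h | h
    · refine case1V κ c C hC hI lam X a (a + η) η y v hlam2 hlamC hX ha' hη rfl hy0 h ?_ ?_
      · by_contra h0
        have h1 : (y - η) ^ 2 + v ^ 2 = 0 := le_antisymm (not_lt.mp h0) (by positivity)
        have h2 : (y - η) ^ 2 = 0 := by nlinarith [sq_nonneg v, sq_nonneg (y - η)]
        have h3 : v ^ 2 = 0 := by nlinarith [sq_nonneg v, sq_nonneg (y - η)]
        refine hne ⟨?_, pow_eq_zero_iff (two_ne_zero) |>.1 h3⟩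
        rw [abs_of_nonneg hy0]
        linarith [pow_eq_zero_iff (two_ne_zero) |>.1 h2]
      · by_contra h0
        have h1 : (-y - η) ^ 2 + v ^ 2 = 0 := le_antisymm (not_lt.mp h0) (by positivity)
        have h2 : (-y - η) ^ 2 = 0 := by nlinarith [sq_nonneg v, sq_nonneg (-y - η)]
        have h3 : v ^ 2 = 0 := by nlinarith [sq_nonneg v, sq_nonneg (-y - η)]
        refine hne ⟨?_, pow_eq_zero_iff (two_ne_zero) |>.1 h3⟩
        rw [abs_of_nonneg hy0]
        linarith [pow_eq_zero_iff (two_ne_zero) |>.1 h2]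
    · rw [abs_of_nonneg hy0] at hyL
      exact case2V κ c C hC hI lam A C₀ X a (a + η) η y v L m₀ hlam2 hA hC₀ hm₀ hX hL ha' hη rfl h hyL
  rcases le_total 0 y with h | h
  · exact main y h hyL hne
  · have h1 := main (-y) (by linarith) (by rw [abs_neg]; exact hyL)
      (fun h2 => hne ⟨by rw [← h2.1, abs_neg], h2.2⟩)
    rw [neg_neg] at h1
    linarith

end Pool.Agent.Work.MP_56b8f5_nt.HZ
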