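import Pool.Agent.Work.MP_56b8f5_nt.HZ.StmtsA

/-!
MP_56b8f5_nt, block HZ, item TL: the other cut-off terms.
-/

set_option autoImplicit false

open MeasureTheory Set Filter Topology

noncomputable section

namespace Pool.Agent.Work.MP_56b8f5_nt.HZ

open Pool.Agent.Work.MP_56b8f5_nt.EM Pool.Agent.Work.MP_56b8f5_nt.WM Pool.Agent.Work.MP_56b8f5_nt.SH

namespace I_TL

/-! ### Derivatives of cut-offs -/

theorem dz {f : ℝ → ℝ} {x c : ℝ} (h : f =ᶠ[𝓝 x] fun _ => c) :
    deriv f x = 0 ∧ deriv (deriv f) x = 0 := by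
  have h1 : deriv f =ᶠ[𝓝 x] deriv (fun _ => c) := h.deriv
  constructor
  · rw [h1.eq_of_nhds]; simp
  · rw [h1.deriv_eq]; simp

theorem db {f : ℝ → ℝ} (hf : ContDiff ℝ ((⊤ : ℕ∞) : WithTop ℕ∞) f) (hs : HasCompactSupport f) :
    ∃ K : ℝ, 1 ≤ K ∧ ∀ x, |deriv f x| ≤ K ∧ |deriv (deriv f) x| ≤ K := by
  have h1 : ContDiff ℝ ((⊤ : ℕ∞) : WithTop ℕ∞) (deriv f) := by
    have := (contDiff_infty_iff_deriv (f := f)).1 hf
    exact this.2
  have h2 : ContDiff ℝ ((⊤ : ℕ∞) : WithTop ℕ∞) (deriv (deriv f)) :=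
    ((contDiff_infty_iff_deriv (f := deriv f)).1 h1).2
  obtain ⟨C1, hC1⟩ := hs.deriv.exists_bound_of_continuous h1.continuous
  obtain ⟨C2, hC2⟩ := hs.deriv.deriv.exists_bound_of_continuous h2.continuous
  refine ⟨max 1 (max C1 C2), le_max_left _ _, fun x => ⟨?_, ?_⟩⟩
  · exact (hC1 x).trans ((le_max_left _ _).trans (le_max_right _ _))
  · exact (hC2 x).trans ((le_max_right _ _).trans (le_max_right _ _))

/-! ### The cut-off `cut` -/

theorem cut_smooth : ContDiff ℝ ((⊤ : ℕ∞) : WithTop ℕ∞) cut := by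
  unfold cut
  exact (Real.smoothTransition.contDiff.comp (contDiff_const.sub contDiff_id)).mul
    (Real.smoothTransition.contDiff.comp (contDiff_const.add contDiff_id))

theorem cut_one {u : ℝ} (h : |u| ≤ 1) : cut u = 1 := by
  rw [abs_le] at h
  unfold cut
  rw [Real.smoothTransition.one_of_one_le (by linarith),
    Real.smoothTransition.one_of_one_le (by linarith), one_mul]

theorem cut_zero {u : ℝ} (h : 2 ≤ |u|) : cut u = 0 := by
  unfold cut
  rcases le_abs.1 h with h | h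
  · rw [Real.smoothTransition.zero_of_nonpos (by linarith), zero_mul]
  · rw [Real.smoothTransition.zero_of_nonpos (x := 2 + u) (by linarith), mul_zero]

theorem cut_abs (u : ℝ) : |cut u| ≤ 1 := by
  unfold cut
  rw [abs_mul, abs_of_nonneg (Real.smoothTransition.nonneg _),
    abs_of_nonneg (Real.smoothTransition.nonneg _)]
  exact mul_le_one₀ (Real.smoothTransition.le_one _) (Real.smoothTransition.nonneg _)
    (Real.smoothTransition.le_one _)

theorem cut_supp : HasCompactSupport cut := by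
  refine HasCompactSupport.intro (isCompact_Icc (a := (-2 : ℝ)) (b := 2)) fun x hx => ?_
  apply cut_zero
  by_contra h
  push Not at h
  rw [abs_lt] at h
  exact hx ⟨h.1.le, h.2.le⟩

theorem cut_dz {u : ℝ} (h : |u| < 1 ∨ 2 < |u|) : deriv cut u = 0 ∧ deriv (deriv cut) u = 0 := by
  rcases h with h | h
  · refine dz (c := 1) ?_
    filter_upwards [(isOpen_lt continuous_abs continuous_const).mem_nhds h] with w hw
    exact cut_one (le_of_lt hw)
  · refine dz (c := 0) ?_
    filter_upwards [(isOpen_lt continuous_const continuous_abs).mem_nhds h] with w hw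
    exact cut_zero (le_of_lt hw)

theorem cut_bd : ∃ K : ℝ, 1 ≤ K ∧ ∀ x, |deriv cut x| ≤ K ∧ |deriv (deriv cut) x| ≤ K :=
  db cut_smooth cut_supp

theorem cut_scale (r : ℝ) (u : ℝ) : deriv (fun x => cut (r * x)) u = r * deriv cut (r * u) ∧
    deriv (deriv (fun x => cut (r * x))) u = r ^ 2 * deriv (deriv cut) (r * u) := by
  have hd : Differentiable ℝ cut := cut_smooth.differentiable (by simp)
  have hd2 : Differentiable ℝ (deriv cut) :=
    (((contDiff_infty_iff_deriv (f := cut)).1 cut_smooth).2).differentiable (by simp)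
  have h1 : ∀ u, HasDerivAt (fun x => cut (r * x)) (r * deriv cut (r * u)) u := by
    intro u
    have h2 : HasDerivAt (fun x : ℝ => r * x) r u := by
      simpa using (hasDerivAt_id u).const_mul r
    have h3 := ((hd (r * u)).hasDerivAt).comp u h2
    rw [mul_comm]
    exact h3
  have h2 : deriv (fun x => cut (r * x)) = fun u => r * deriv cut (r * u) :=
    funext fun u => (h1 u).deriv
  refine ⟨(h1 u).deriv, ?_⟩
  rw [h2]
  have h3 : HasDerivAt (fun x : ℝ => r * x) r u := by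
    simpa using (hasDerivAt_id u).const_mul r
  have h4 := (((hd2 (r * u)).hasDerivAt).comp u h3).const_mul r
  have h5 : HasDerivAt (fun u => r * deriv cut (r * u)) (r * (deriv (deriv cut) (r * u) * r)) u := h4
  rw [h5.deriv]
  ring

/-! ### `cv` -/

theorem cv_eq (H : ℝ) : cv H = fun x => cut (H⁻¹ * x) := by
  funext x
  rw [cv, div_eq_inv_mul]

theorem cv_abs (H v : ℝ) : |cv H v| ≤ 1 := cut_abs _

theorem cv_zero {H v : ℝ} (hH : 0 < H) (h : 2 * H < |v|) : cv H v = 0 := by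
  rw [cv]
  apply cut_zero
  rw [abs_div, abs_of_pos hH, le_div_iff₀ hH]
  exact h.le

theorem cv_dz {H v : ℝ} (hH : 0 < H) (h : |v| < H ∨ 2 * H < |v|) :
    deriv (cv H) v = 0 ∧ deriv (deriv (cv H)) v = 0 := by
  have h1 : |H⁻¹ * v| < 1 ∨ 2 < |H⁻¹ * v| := by
    rw [abs_mul, abs_of_pos (inv_pos.2 hH), inv_mul_eq_div]
    rcases h with h | h
    · left; rwa [div_lt_one hH]
    · right; rwa [lt_div_iff₀ hH]
  rw [cv_eq]
  obtain ⟨h2, h3⟩ := cut_scale H⁻¹ v
  rw [h2, h3, (cut_dz h1).1, (cut_dz h1).2]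
  simp

theorem cv_bd {K : ℝ} (hK : ∀ x, |deriv cut x| ≤ K ∧ |deriv (deriv cut) x| ≤ K) {H : ℝ}
    (hH : 1 ≤ H) (v : ℝ) : |deriv (cv H) v| ≤ K ∧ |deriv (deriv (cv H)) v| ≤ K := by
  rw [cv_eq]
  obtain ⟨h2, h3⟩ := cut_scale H⁻¹ v
  have hH0 : 0 < H := by linarith
  have hi : |H⁻¹| ≤ 1 := by
    rw [abs_of_pos (inv_pos.2 hH0)]
    exact inv_le_one_of_one_le₀ hH
  have hK0 : 0 ≤ K := (abs_nonneg _).trans (hK 0).1
  rw [h2, h3, abs_mul, abs_mul, abs_pow]
  constructor
  · calc |H⁻¹| * |deriv cut (H⁻¹ * v)| ≤ 1 * K :=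
          mul_le_mul hi (hK _).1 (abs_nonneg _) (by norm_num)
      _ = K := one_mul _
  · calc |H⁻¹| ^ 2 * |deriv (deriv cut) (H⁻¹ * v)| ≤ 1 * K :=
          mul_le_mul (pow_le_one₀ (abs_nonneg _) hi) (hK _).2 (abs_nonneg _) (by norm_num)
      _ = K := one_mul _

/-! ### `cn` -/

theorem cn_eq : cn = fun x => cut (8 * x) := rfl

theorem cn_abs (v : ℝ) : |cn v| ≤ 1 := cut_abs _

theorem cn_zero {v : ℝ} (h : 1 / 4 < |v|) : cn v = 0 := by
  rw [cn]
  apply cut_zero
  rw [abs_mul, abs_of_pos (by norm_num : (0 : ℝ) < 8)]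
  linarith

theorem cn_dz {v : ℝ} (h : |v| < 1 / 8 ∨ 1 / 4 < |v|) :
    deriv cn v = 0 ∧ deriv (deriv cn) v = 0 := by
  have h1 : |8 * v| < 1 ∨ 2 < |8 * v| := by
    rw [abs_mul, abs_of_pos (by norm_num : (0 : ℝ) < 8)]
    rcases h with h | h
    · left; linarith
    · right; linarith
  rw [cn_eq]
  obtain ⟨h2, h3⟩ := cut_scale 8 v
  rw [h2, h3, (cut_dz h1).1, (cut_dz h1).2]
  simp

theorem cn_bd {K : ℝ} (hK : ∀ x, |deriv cut x| ≤ K ∧ |deriv (deriv cut) x| ≤ K) (v : ℝ) :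
    |deriv cn v| ≤ 64 * K ∧ |deriv (deriv cn) v| ≤ 64 * K := by
  rw [cn_eq]
  obtain ⟨h2, h3⟩ := cut_scale 8 v
  have hK0 : 0 ≤ K := (abs_nonneg _).trans (hK 0).1
  rw [h2, h3, abs_mul, abs_mul]
  have h4 := (hK (8 * v)).1
  have h5 := (hK (8 * v)).2
  rw [abs_of_pos (by norm_num : (0 : ℝ) < 8), abs_of_pos (by norm_num : (0 : ℝ) < 8 ^ 2)]
  constructor <;> nlinarith [abs_nonneg (deriv cut (8 * v)), abs_nonneg (deriv (deriv cut) (8 * v))]

/-! ### `cy` -/

theorem cy_smooth : ContDiff ℝ ((⊤ : ℕ∞) : WithTop ℕ∞) cy := by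
  unfold cy
  exact (Real.smoothTransition.contDiff.comp
      ((contDiff_const.mul contDiff_id).add contDiff_const)).mul
    (Real.smoothTransition.contDiff.comp (contDiff_const.sub contDiff_id))

theorem cy_one {y : ℝ} (h1 : -1 / 5 ≤ y) (h2 : y ≤ 3 / 2) : cy y = 1 := by
  unfold cy
  rw [Real.smoothTransition.one_of_one_le (by linarith),
    Real.smoothTransition.one_of_one_le (by linarith), one_mul]

theorem cy_zero {y : ℝ} (h : y ≤ -3 / 10 ∨ 5 / 2 ≤ y) : cy y = 0 := by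
  unfold cy
  rcases h with h | h
  · rw [Real.smoothTransition.zero_of_nonpos (by linarith), zero_mul]
  · rw [Real.smoothTransition.zero_of_nonpos (x := 5 / 2 - y) (by linarith), mul_zero]

theorem cy_abs (y : ℝ) : |cy y| ≤ 1 := by
  unfold cy
  rw [abs_mul, abs_of_nonneg (Real.smoothTransition.nonneg _),
    abs_of_nonneg (Real.smoothTransition.nonneg _)]
  exact mul_le_one₀ (Real.smoothTransition.le_one _) (Real.smoothTransition.nonneg _)
    (Real.smoothTransition.le_one _)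

theorem cy_supp : HasCompactSupport cy := by
  refine HasCompactSupport.intro (isCompact_Icc (a := (-3 / 10 : ℝ)) (b := 5 / 2)) fun x hx => ?_
  apply cy_zero
  by_contra h
  push Not at h
  exact hx ⟨h.1.le, h.2.le⟩

theorem cy_dz {y : ℝ} (h : y < -3 / 10 ∨ (-1 / 5 < y ∧ y < 3 / 2) ∨ 5 / 2 < y) :
    deriv cy y = 0 ∧ deriv (deriv cy) y = 0 := by
  rcases h with h | h | h
  · refine dz (c := 0) ?_
    filter_upwards [isOpen_Iio.mem_nhds h] with w hw
    exact cy_zero (Or.inl (le_of_lt hw))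
  · refine dz (c := 1) ?_
    filter_upwards [isOpen_Ioo.mem_nhds h] with w hw
    exact cy_one hw.1.le hw.2.le
  · refine dz (c := 0) ?_
    filter_upwards [isOpen_Ioi.mem_nhds h] with w hw
    exact cy_zero (Or.inr (le_of_lt hw))

theorem cy_bd : ∃ K : ℝ, 1 ≤ K ∧ ∀ x, |deriv cy x| ≤ K ∧ |deriv (deriv cy) x| ≤ K :=
  db cy_smooth cy_supp

/-! ### The pointwise bound -/

/-- The left cut-off. -/
def T1 (κ : ℝ → ℝ) (c X a H : ℝ) (z : ℂ) : ℝ :=
  if 3 / 2 ≤ z.re then 0 else cv H z.im * (deriv (deriv cy) z.re * S1 κ c (X * (z - a)) +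
    2 * (deriv cy z.re * (kt κ (X * (z - a)) / (z - a)).re))

/-- The horizontal cut-off. -/
def T2 (κ : ℝ → ℝ) (c X a H : ℝ) (z : ℂ) : ℝ :=
  cy z.re * (deriv (deriv (cv H)) z.im * S1 κ c (X * (z - a)) -
    2 * (deriv (cv H) z.im * (kt κ (X * (z - a)) / (z - a)).im))

/-- The near cut-off. -/
def T3 (a : ℝ) (z : ℂ) : ℝ :=
  DD cn cn (fun z => Real.log ‖z‖ - Real.log ‖z - a‖) (fun z => 1 / z - 1 / (z - a)) z

theorem W_eq (κ : ℝ → ℝ) (c X a H : ℝ) (z : ℂ) :
    Cu κ c X a H z - Cr κ c X a H z = T1 κ c X a H z + T2 κ c X a H z + T3 a z := by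
  unfold Cu Cr T1 T2 T3
  conv_lhs => rw [DD]
  split_ifs with h
  · ring
  · ring

theorem norm_w {X : ℝ} (hX : 0 < X) (u : ℂ) : ‖(X : ℂ) * u‖ = X * ‖u‖ := by
  rw [norm_mul, Complex.norm_real, Real.norm_eq_abs, abs_of_pos hX]

theorem norm_q {κ : ℝ → ℝ} {X : ℝ} (hX : 0 < X) (u : ℂ) (hu : u ≠ 0) :
    ‖kt κ (X * u) / u‖ = X * ‖kt κ (X * u) / (X * u)‖ := by
  rw [norm_div, norm_div, norm_w hX]
  have : ‖u‖ ≠ 0 := norm_ne_zero_iff.2 hu
  field_simp

theorem T1_bd {κ : ℝ → ℝ} {c C : ℝ} (hC : IsC κ c C) {K : ℝ}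
    (hK : ∀ x, |deriv cy x| ≤ K ∧ |deriv (deriv cy) x| ≤ K) {X a H : ℝ} (hX : 5 ≤ X)
    (ha : 0 < a) (z : ℂ) :
    |T1 κ c X a H z| ≤ 5000 * K * |C| / (X * (1 + |z.im|)) ^ 3 := by
  have hX0 : 0 < X := by linarith
  have hK0 : 0 ≤ K := (abs_nonneg _).trans (hK 0).1
  have hm0 : 0 < X * (1 + |z.im|) := by positivity
  have hpos : 0 ≤ 5000 * K * |C| / (X * (1 + |z.im|)) ^ 3 := by positivity
  unfold T1
  split_ifs with h
  · rw [abs_zero]; exact hpos
  by_cases h2 : z.re < -3 / 10 ∨ (-1 / 5 < z.re ∧ z.re < 3 / 2) ∨ 5 / 2 < z.re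
  · rw [(cy_dz h2).1, (cy_dz h2).2]
    simpa using hpos
  · push Not at h2 h
    have hy1 : -3 / 10 ≤ z.re := h2.1
    have hy2 : z.re ≤ -1 / 5 := by
      by_contra hcon
      push Not at hcon
      have := h2.2.1 hcon
      linarith
    set u : ℂ := z - a with hu
    have hure : u.re = z.re - a := by simp [hu]
    have huim : u.im = z.im := by simp [hu]
    have hn1 : 1 / 5 ≤ ‖u‖ := by
      have := Complex.abs_re_le_norm u
      rw [hure, abs_of_neg (by linarith)] at this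
      linarith
    have hn2 : |z.im| ≤ ‖u‖ := by
      have := Complex.abs_im_le_norm u
      rwa [huim] at this
    have hn3 : (1 + |z.im|) / 6 ≤ ‖u‖ := by
      have := abs_nonneg z.im
      linarith
    have hu0 : u ≠ 0 := by
      intro h0
      rw [h0, norm_zero] at hn1
      norm_num at hn1
    set w : ℂ := (X : ℂ) * u with hw
    have hwn : ‖w‖ = X * ‖u‖ := norm_w hX0 u
    have hwre : w.re = X * (z.re - a) := by
      rw [hw, Complex.re_ofReal_mul, hure]
    have hw1 : w.re ≤ -1 := by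
      rw [hwre]
      nlinarith
    have hm : X * (1 + |z.im|) / 6 ≤ ‖w‖ := by
      rw [hwn]
      calc X * (1 + |z.im|) / 6 = X * ((1 + |z.im|) / 6) := by ring
        _ ≤ X * ‖u‖ := mul_le_mul_of_nonneg_left hn3 hX0.le
    have hm3 : (X * (1 + |z.im|)) ^ 3 / 216 ≤ ‖w‖ ^ 3 := by
      calc (X * (1 + |z.im|)) ^ 3 / 216 = (X * (1 + |z.im|) / 6) ^ 3 := by ring
        _ ≤ ‖w‖ ^ 3 := pow_le_pow_left₀ (by positivity) hm 3
    have hw3pos : 0 < ‖w‖ ^ 3 := lt_of_lt_of_le (by positivity) hm3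
    have hwpos : 0 < ‖w‖ := by
      have : 0 < X * (1 + |z.im|) / 6 := by positivity
      linarith
    have hinv : 1 / ‖w‖ ^ 3 ≤ 216 / (X * (1 + |z.im|)) ^ 3 := by
      rw [div_le_div_iff₀ hw3pos (by positivity)]
      linarith
    have hS : |S1 κ c w| ≤ |C| * (216 / (X * (1 + |z.im|)) ^ 3) := by
      calc |S1 κ c w| ≤ C / ‖w‖ ^ 3 := (hC w).2.1 hw1
        _ ≤ |C| / ‖w‖ ^ 3 := by
            apply div_le_div_of_nonneg_right (le_abs_self C) hw3pos.le
        _ = |C| * (1 / ‖w‖ ^ 3) := by ring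
        _ ≤ _ := mul_le_mul_of_nonneg_left hinv (abs_nonneg C)
    have hq : ‖kt κ w / u‖ ≤ 10 * |C| * (216 / (X * (1 + |z.im|)) ^ 3) := by
      have hw0 : w ≠ 0 := norm_pos_iff.1 hwpos
      have h5 := (hC w).2.2 hw0
      have h6 : Real.exp w.re ≤ 1 := by
        rw [Real.exp_le_one_iff]; linarith
      calc ‖kt κ w / u‖ = X * ‖kt κ w / w‖ := norm_q hX0 u hu0
        _ ≤ X * (C * (1 + Real.exp w.re) / ‖w‖ ^ 4) := mul_le_mul_of_nonneg_left h5 hX0.le
        _ ≤ X * (|C| * 2 / ‖w‖ ^ 4) := by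
            refine mul_le_mul_of_nonneg_left ?_ hX0.le
            apply div_le_div_of_nonneg_right _ (by positivity)
            have := Real.exp_pos w.re
            exact mul_le_mul (le_abs_self C) (by linarith) (by linarith) (abs_nonneg C)
        _ = 2 * |C| * (1 / ‖w‖ ^ 3) * (1 / ‖u‖) := by
            have hun : ‖u‖ ≠ 0 := norm_ne_zero_iff.2 hu0
            rw [hwn]
            field_simp
        _ ≤ 2 * |C| * (216 / (X * (1 + |z.im|)) ^ 3) * 5 := by
            refine mul_le_mul (mul_le_mul_of_nonneg_left hinv (by positivity)) ?_ (by positivity)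
              (by positivity)
            rw [div_le_iff₀ (by linarith)]
            linarith
        _ = _ := by ring
    set M : ℝ := 216 / (X * (1 + |z.im|)) ^ 3 with hM
    have hM0 : 0 ≤ M := by positivity
    have hre : |(kt κ w / u).re| ≤ 10 * |C| * M := (Complex.abs_re_le_norm _).trans hq
    calc |cv H z.im * (deriv (deriv cy) z.re * S1 κ c w + 2 * (deriv cy z.re * (kt κ w / u).re))|
        = |cv H z.im| * |deriv (deriv cy) z.re * S1 κ c w +
            2 * (deriv cy z.re * (kt κ w / u).re)| := abs_mul _ _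
      _ ≤ 1 * (K * (|C| * M) + 2 * (K * (10 * |C| * M))) := by
          refine mul_le_mul (cv_abs _ _) ?_ (abs_nonneg _) (by norm_num)
          refine (abs_add_le _ _).trans (add_le_add ?_ ?_)
          · rw [abs_mul]
            exact mul_le_mul (hK _).2 hS (abs_nonneg _) hK0
          · rw [abs_mul, abs_mul, abs_of_pos (by norm_num : (0 : ℝ) < 2)]
            refine mul_le_mul_of_nonneg_left ?_ (by norm_num)
            exact mul_le_mul (hK _).1 hre (abs_nonneg _) hK0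
      _ = 21 * 216 * (K * |C| * (1 / (X * (1 + |z.im|)) ^ 3)) := by rw [hM]; ring
      _ ≤ 5000 * (K * |C| * (1 / (X * (1 + |z.im|)) ^ 3)) := by
          refine mul_le_mul_of_nonneg_right (by norm_num) (by positivity)
      _ = _ := by ring

theorem T2_bd {κ : ℝ → ℝ} {c C : ℝ} (hC : IsC κ c C) {K : ℝ}
    (hK : ∀ x, |deriv cut x| ≤ K ∧ |deriv (deriv cut) x| ≤ K) {X a H : ℝ} (hX : 5 ≤ X)
    (ha : 0 < a) (hH : 4 ≤ H) (z : ℂ) :
    |T2 κ c X a H z| ≤ 3 * K * |C| * ((1 + Real.exp (5 / 2 * X)) / (X * H) ^ 3) := by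
  have hX0 : 0 < X := by linarith
  have hH0 : 0 < H := by linarith
  have hK0 : 0 ≤ K := (abs_nonneg _).trans (hK 0).1
  have hE0 : 0 ≤ (1 + Real.exp (5 / 2 * X)) / (X * H) ^ 3 := by positivity
  have hpos : 0 ≤ 3 * K * |C| * ((1 + Real.exp (5 / 2 * X)) / (X * H) ^ 3) := by positivity
  unfold T2
  by_cases hy : z.re ≤ -3 / 10 ∨ 5 / 2 ≤ z.re
  · rw [cy_zero hy, zero_mul, abs_zero]
    exact hpos
  by_cases hv : |z.im| < H ∨ 2 * H < |z.im|
  · rw [(cv_dz hH0 hv).1, (cv_dz hH0 hv).2]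
    simpa using hpos
  push Not at hy hv
  set u : ℂ := z - a with hu
  have hure : u.re = z.re - a := by simp [hu]
  have huim : u.im = z.im := by simp [hu]
  set w : ℂ := (X : ℂ) * u with hw
  have hwre : w.re = X * (z.re - a) := by
    rw [hw, Complex.re_ofReal_mul, hure]
  have hwim : w.im = X * z.im := by
    rw [hw, Complex.im_ofReal_mul, huim]
  have hwn : ‖w‖ = X * ‖u‖ := norm_w hX0 u
  have hXH : X * H ≤ |w.im| := by
    rw [hwim, abs_mul, abs_of_pos hX0]
    exact mul_le_mul_of_nonneg_left hv.1 hX0.le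
  have h1 : 1 ≤ |w.im| := by nlinarith
  have hXH0 : 0 < X * H := by positivity
  have hre : Real.exp w.re ≤ Real.exp (5 / 2 * X) := by
    apply Real.exp_le_exp.2
    rw [hwre]
    nlinarith
  have hnorm : X * H ≤ ‖w‖ := hXH.trans (Complex.abs_im_le_norm w)
  have hwpos : 0 < ‖w‖ := by linarith
  have hw0 : w ≠ 0 := norm_pos_iff.1 hwpos
  have hu0 : u ≠ 0 := by
    intro h0
    apply hw0
    rw [hw, h0, mul_zero]
  set E : ℝ := (1 + Real.exp (5 / 2 * X)) / (X * H) ^ 3 with hE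
  have hex := Real.exp_pos w.re
  have hS : |S1 κ c w| ≤ |C| * E := by
    calc |S1 κ c w| ≤ C * (1 + Real.exp w.re) / |w.im| ^ 3 := (hC w).1 h1
      _ ≤ |C| * (1 + Real.exp (5 / 2 * X)) / (X * H) ^ 3 := by
          refine div_le_div₀ (by positivity) ?_ (by positivity)
            (pow_le_pow_left₀ hXH0.le hXH 3)
          exact mul_le_mul (le_abs_self C) (by linarith) (by linarith) (abs_nonneg C)
      _ = |C| * E := by rw [hE]; ring
  have hq : ‖kt κ w / u‖ ≤ |C| * E := by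
    calc ‖kt κ w / u‖ = X * ‖kt κ w / w‖ := norm_q hX0 u hu0
      _ ≤ X * (C * (1 + Real.exp w.re) / ‖w‖ ^ 4) :=
          mul_le_mul_of_nonneg_left ((hC w).2.2 hw0) hX0.le
      _ ≤ X * (|C| * (1 + Real.exp (5 / 2 * X)) / (X * H) ^ 4) := by
          refine mul_le_mul_of_nonneg_left ?_ hX0.le
          refine div_le_div₀ (by positivity) ?_ (by positivity)
            (pow_le_pow_left₀ hXH0.le hnorm 4)
          exact mul_le_mul (le_abs_self C) (by linarith) (by linarith) (abs_nonneg C)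
      _ = |C| * E * (1 / H) := by
          rw [hE]
          field_simp
      _ ≤ |C| * E * 1 := by
          refine mul_le_mul_of_nonneg_left ?_ (by positivity)
          rw [div_le_one hH0]
          linarith
      _ = |C| * E := mul_one _
  have him : |(kt κ w / u).im| ≤ |C| * E := (Complex.abs_im_le_norm _).trans hq
  have hcv := cv_bd hK (H := H) (by linarith) z.im
  calc |cy z.re * (deriv (deriv (cv H)) z.im * S1 κ c w -
        2 * (deriv (cv H) z.im * (kt κ w / u).im))|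
      = |cy z.re| * |deriv (deriv (cv H)) z.im * S1 κ c w -
        2 * (deriv (cv H) z.im * (kt κ w / u).im)| := abs_mul _ _
    _ ≤ 1 * (K * (|C| * E) + 2 * (K * (|C| * E))) := by
        refine mul_le_mul (cy_abs _) ?_ (abs_nonneg _) (by norm_num)
        refine (abs_sub _ _).trans (add_le_add ?_ ?_)
        · rw [abs_mul]
          exact mul_le_mul hcv.2 hS (abs_nonneg _) hK0
        · rw [abs_mul, abs_mul, abs_of_pos (by norm_num : (0 : ℝ) < 2)]
          refine mul_le_mul_of_nonneg_left ?_ (by norm_num)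
          exact mul_le_mul hcv.1 him (abs_nonneg _) hK0
    _ = 3 * K * |C| * E := by ring

theorem log_sub_le {x y m : ℝ} (hm : 0 < m) (hx : m ≤ x) (hy : m ≤ y) :
    |Real.log x - Real.log y| ≤ |x - y| / m := by
  have key : ∀ x y : ℝ, m ≤ x → m ≤ y → Real.log x - Real.log y ≤ |x - y| / m := by
    intro x y hx hy
    have hx0 : 0 < x := by linarith
    have hy0 : 0 < y := by linarith
    rw [← Real.log_div hx0.ne' hy0.ne']
    have h1 := Real.log_le_sub_one_of_pos (div_pos hx0 hy0)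
    refine h1.trans ?_
    have h2 : x / y - 1 = (x - y) / y := by field_simp
    rw [h2]
    calc (x - y) / y ≤ |x - y| / y := div_le_div_of_nonneg_right (le_abs_self _) hy0.le
      _ ≤ |x - y| / m := div_le_div_of_nonneg_left (abs_nonneg _) hm hy
  rw [abs_le]
  constructor
  · have := key y x hy hx
    rw [abs_sub_comm] at this
    linarith
  · exact key x y hx hy

theorem T3_bd {K : ℝ} (hK : ∀ x, |deriv cut x| ≤ K ∧ |deriv (deriv cut) x| ≤ K) {a : ℝ}
    (ha : 0 < a) (ha2 : a ≤ 1 / 16) (z : ℂ) :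
    |T3 a z| ≤ 80000 * K * (a / (1 + |z.im|) ^ 3) := by
  have hK0 : 0 ≤ K := (abs_nonneg _).trans (hK 0).1
  have hv0 := abs_nonneg z.im
  have hpos : 0 ≤ 80000 * K * (a / (1 + |z.im|) ^ 3) := by positivity
  unfold T3 DD
  by_cases hv : 1 / 4 < |z.im|
  · rw [cn_zero hv, (cn_dz (Or.inr hv)).1, (cn_dz (Or.inr hv)).2]
    simpa using hpos
  by_cases hy : 1 / 4 < |z.re|
  · rw [cn_zero hy, (cn_dz (Or.inr hy)).1, (cn_dz (Or.inr hy)).2]
    simpa using hpos
  by_cases hs : |z.re| < 1 / 8 ∧ |z.im| < 1 / 8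
  · rw [(cn_dz (Or.inl hs.1)).1, (cn_dz (Or.inl hs.1)).2, (cn_dz (Or.inl hs.2)).1,
      (cn_dz (Or.inl hs.2)).2]
    simpa using hpos
  push Not at hv hy
  have hz : 1 / 8 ≤ ‖z‖ := by
    by_contra hcon
    push Not at hcon
    exact hs ⟨(Complex.abs_re_le_norm z).trans_lt hcon, (Complex.abs_im_le_norm z).trans_lt hcon⟩
  have han : ‖(a : ℂ)‖ = a := by
    rw [Complex.norm_real, Real.norm_eq_abs, abs_of_pos ha]
  have hza : 1 / 16 ≤ ‖z - a‖ := by
    have := norm_sub_norm_le z (a : ℂ)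
    rw [han] at this
    linarith
  have hlog : |Real.log ‖z‖ - Real.log ‖z - a‖| ≤ 16 * a := by
    have h1 := log_sub_le (m := 1 / 16) (by norm_num) (by linarith : 1 / 16 ≤ ‖z‖) hza
    have h2 : |‖z‖ - ‖z - a‖| ≤ a := by
      have := abs_norm_sub_norm_le z (z - a)
      rwa [sub_sub_cancel, han] at this
    refine h1.trans ?_
    rw [div_le_iff₀ (by norm_num)]
    linarith
  have hz0 : z ≠ 0 := by
    intro h0
    rw [h0, norm_zero] at hz
    norm_num at hz
  have hza0 : z - a ≠ 0 := by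
    intro h0
    rw [h0, norm_zero] at hza
    norm_num at hza
  have hq : ‖1 / z - 1 / (z - a)‖ ≤ 128 * a := by
    have h1 : 1 / z - 1 / (z - a) = -(a : ℂ) / (z * (z - a)) := by
      field_simp
      ring
    rw [h1, norm_div, norm_neg, han, norm_mul, div_le_iff₀ (by positivity)]
    have h2 : 1 / 8 * (1 / 16) ≤ ‖z‖ * ‖z - a‖ := mul_le_mul hz hza (by norm_num) (norm_nonneg _)
    nlinarith
  have h1 := cn_bd hK z.re
  have h2 := cn_bd hK z.im
  have hre : |(1 / z - 1 / (z - a)).re| ≤ 128 * a := (Complex.abs_re_le_norm _).trans hq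
  have him : |(1 / z - 1 / (z - a)).im| ≤ 128 * a := (Complex.abs_im_le_norm _).trans hq
  have hA : |(deriv (deriv cn) z.re * cn z.im + cn z.re * deriv (deriv cn) z.im) *
      (Real.log ‖z‖ - Real.log ‖z - a‖)| ≤ (64 * K * 1 + 1 * (64 * K)) * (16 * a) := by
    rw [abs_mul]
    refine mul_le_mul ?_ hlog (abs_nonneg _) (by positivity)
    refine (abs_add_le _ _).trans (add_le_add ?_ ?_)
    · rw [abs_mul]
      exact mul_le_mul h1.2 (cn_abs _) (abs_nonneg _) (by positivity)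
    · rw [abs_mul]
      exact mul_le_mul (cn_abs _) h2.2 (abs_nonneg _) (by norm_num)
  have hB : |2 * (deriv cn z.re * cn z.im * (1 / z - 1 / (z - a)).re -
      cn z.re * deriv cn z.im * (1 / z - 1 / (z - a)).im)| ≤
      2 * (64 * K * 1 * (128 * a) + 1 * (64 * K) * (128 * a)) := by
    rw [abs_mul, abs_of_pos (by norm_num : (0 : ℝ) < 2)]
    refine mul_le_mul_of_nonneg_left ?_ (by norm_num)
    refine (abs_sub _ _).trans (add_le_add ?_ ?_)
    · rw [abs_mul, abs_mul]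
      exact mul_le_mul (mul_le_mul h1.1 (cn_abs _) (abs_nonneg _) (by positivity)) hre
        (abs_nonneg _) (by positivity)
    · rw [abs_mul, abs_mul]
      exact mul_le_mul (mul_le_mul (cn_abs _) h2.1 (abs_nonneg _) (by norm_num)) him
        (abs_nonneg _) (by positivity)
  refine (abs_add_le _ _).trans ((add_le_add hA hB).trans ?_)
  have h3 : (1 + |z.im|) ^ 3 ≤ 2 := by
    calc (1 + |z.im|) ^ 3 ≤ (5 / 4 : ℝ) ^ 3 := pow_le_pow_left₀ (by positivity) (by linarith) 3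
      _ ≤ 2 := by norm_num
  have h4 : a / 2 ≤ a / (1 + |z.im|) ^ 3 :=
    div_le_div_of_nonneg_left ha.le (by positivity) h3
  have h5 : 0 ≤ K * a := by positivity
  calc (64 * K * 1 + 1 * (64 * K)) * (16 * a) + 2 * (64 * K * 1 * (128 * a) + 1 * (64 * K) * (128 * a))
      = 34816 * (K * a) := by ring
    _ ≤ 40000 * (K * a) := by linarith
    _ = 80000 * K * (a / 2) := by ring
    _ ≤ 80000 * K * (a / (1 + |z.im|) ^ 3) := mul_le_mul_of_nonneg_left h4 (by positivity)

theorem W_bd {κ : ℝ → ℝ} {c C : ℝ} (hC : IsC κ c C) : ∃ D : ℝ, 1 ≤ D ∧ ∀ X a H : ℝ, 5 ≤ X →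
    0 < a → a ≤ 1 / 16 → 4 ≤ H → ∀ z : ℂ, |Cu κ c X a H z - Cr κ c X a H z| ≤
      D * ((1 / X ^ 3 + a) / (1 + |z.im|) ^ 3 + (1 + Real.exp (5 / 2 * X)) / (X * H) ^ 3) := by
  obtain ⟨K, hK1, hK⟩ := cut_bd
  obtain ⟨K', hK1', hK'⟩ := cy_bd
  refine ⟨5000 * K' * |C| + 3 * K * |C| + 80000 * K, ?_, ?_⟩
  · have : 0 ≤ 5000 * K' * |C| + 3 * K * |C| := by positivity
    linarith
  intro X a H hX ha ha2 hH z
  have hX0 : 0 < X := by linarith
  have hH0 : 0 < H := by linarith
  rw [W_eq]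
  have h1 := T1_bd hC hK' (H := H) hX ha z
  have h2 := T2_bd hC hK hX ha hH z
  have h3 := T3_bd hK ha ha2 z
  have hv0 := abs_nonneg z.im
  have e1 : 5000 * K' * |C| / (X * (1 + |z.im|)) ^ 3 =
      5000 * K' * |C| * ((1 / X ^ 3) / (1 + |z.im|) ^ 3) := by
    rw [mul_pow]
    field_simp
  rw [e1] at h1
  set P := (1 / X ^ 3) / (1 + |z.im|) ^ 3 with hP
  set Q := a / (1 + |z.im|) ^ 3 with hQ
  set E := (1 + Real.exp (5 / 2 * X)) / (X * H) ^ 3 with hE
  have hP0 : 0 ≤ P := by positivity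
  have hQ0 : 0 ≤ Q := by positivity
  have hE0 : 0 ≤ E := by positivity
  rw [add_div, ← hP, ← hQ]
  refine (abs_add_le _ _).trans ((add_le_add ((abs_add_le _ _).trans (add_le_add h1 h2)) h3).trans ?_)
  have hc0 := abs_nonneg C
  have t1 : 0 ≤ 5000 * K' * |C| := by positivity
  have t2 : 0 ≤ 3 * K * |C| := by positivity
  have t3 : 0 ≤ 80000 * K := by positivity
  nlinarith [mul_nonneg t1 hQ0, mul_nonneg t1 hE0, mul_nonneg t2 hP0, mul_nonneg t2 hQ0,
    mul_nonneg t3 hP0, mul_nonneg t3 hE0]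

theorem W_zero {κ : ℝ → ℝ} {c X a H : ℝ} (hH : 4 ≤ H) {z : ℂ}
    (h : z.re < -3 / 10 ∨ 5 / 2 < z.re ∨ 2 * H < |z.im|) :
    Cu κ c X a H z - Cr κ c X a H z = 0 := by
  have hH0 : 0 < H := by linarith
  rw [W_eq]
  have hT3 : T3 a z = 0 := by
    unfold T3 DD
    have h1 : 1 / 4 < |z.re| ∨ 1 / 4 < |z.im| := by
      rcases h with h | h | h
      · left; rw [abs_of_neg (by linarith)]; linarith
      · left; rw [abs_of_pos (by linarith)]; linarith
      · right; linarith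
    rcases h1 with h1 | h1
    · rw [cn_zero h1, (cn_dz (Or.inr h1)).1, (cn_dz (Or.inr h1)).2]; simp
    · rw [cn_zero h1, (cn_dz (Or.inr h1)).1, (cn_dz (Or.inr h1)).2]; simp
  have hT1 : T1 κ c X a H z = 0 := by
    unfold T1
    split_ifs with h2
    · rfl
    rcases h with h | h | h
    · rw [(cy_dz (Or.inl h)).1, (cy_dz (Or.inl h)).2]; simp
    · exact absurd (by linarith : 3 / 2 ≤ z.re) h2
    · rw [cv_zero hH0 h, zero_mul]
  have hT2 : T2 κ c X a H z = 0 := by
    unfold T2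
    rcases h with h | h | h
    · rw [cy_zero (Or.inl h.le), zero_mul]
    · rw [cy_zero (Or.inr h.le), zero_mul]
    · rw [(cv_dz hH0 (Or.inr h)).1, (cv_dz hH0 (Or.inr h)).2]; simp
  rw [hT1, hT2, hT3]
  norm_num

/-! ### Integration -/

/-- The boxes. -/
def Box (k : ℤ) : Set ℂ := {z : ℂ | -3 / 10 ≤ z.re ∧ z.re ≤ 5 / 2 ∧ |z.im - k| ≤ 1 / 2}

theorem Box_meas (k : ℤ) : MeasurableSet (Box k) := by
  have e : Continuous fun z : ℂ => |z.im - k| := (Complex.continuous_im.sub continuous_const).abs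
  have h2 : IsClosed {z : ℂ | -3 / 10 ≤ z.re} := isClosed_le continuous_const Complex.continuous_re
  have h3 : IsClosed {z : ℂ | z.re ≤ 5 / 2} := isClosed_le Complex.continuous_re continuous_const
  have h4 : IsClosed {z : ℂ | |z.im - k| ≤ 1 / 2} := isClosed_le e continuous_const
  have h1 : IsClosed (Box k) := h2.inter (h3.inter h4)
  exact h1.measurableSet

theorem box_int {C₁ : ℝ} (hZ : ∀ t : ℝ, 4 ≤ |t| →
    IntegrableOn (fun s : ℂ => Real.log ‖riemannZeta s‖)
      {s : ℂ | 1 / 5 ≤ s.re ∧ s.re ≤ 3 ∧ |s.im - t| ≤ 1 / 2} ∧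
    ∫ s in {s : ℂ | 1 / 5 ≤ s.re ∧ s.re ≤ 3 ∧ |s.im - t| ≤ 1 / 2}, |Real.log ‖riemannZeta s‖| ≤
      C₁ * Real.log |t|) (t : ℝ) (k : ℤ) (h : 4 ≤ |t + k|) :
    IntegrableOn (fun z : ℂ => |Real.log ‖riemannZeta (1 / 2 + t * Complex.I + z)‖|) (Box k) ∧
    ∫ z in Box k, |Real.log ‖riemannZeta (1 / 2 + t * Complex.I + z)‖| ≤
      C₁ * Real.log |t + k| := by
  obtain ⟨h1, h2⟩ := hZ (t + k) h
  set s₁ : ℂ := 1 / 2 + t * Complex.I with hs₁
  have hre : s₁.re = 1 / 2 := by simp [hs₁]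
  have him : s₁.im = t := by simp [hs₁]
  have hpre : Box k = (fun z : ℂ => s₁ + z) ⁻¹'
      {s : ℂ | 1 / 5 ≤ s.re ∧ s.re ≤ 3 ∧ |s.im - (t + k)| ≤ 1 / 2} := by
    ext z
    simp only [Box, mem_setOf_eq, mem_preimage, Complex.add_re, Complex.add_im, hre, him]
    have e1 : t + z.im - (t + k) = z.im - k := by ring
    rw [e1]
    constructor
    · rintro ⟨a1, a2, a3⟩
      exact ⟨by linarith, by linarith, a3⟩
    · rintro ⟨a1, a2, a3⟩
      exact ⟨by linarith, by linarith, a3⟩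
  have hmp : MeasurePreserving (fun z : ℂ => s₁ + z) volume volume :=
    measurePreserving_add_left volume s₁
  have hme : MeasurableEmbedding (fun z : ℂ => s₁ + z) := measurableEmbedding_addLeft s₁
  constructor
  · rw [hpre]
    exact (hmp.integrableOn_comp_preimage hme (f := fun s : ℂ => |Real.log ‖riemannZeta s‖|)).2
      h1.norm
  · rw [hpre, hmp.setIntegral_preimage_emb hme (fun s : ℂ => |Real.log ‖riemannZeta s‖|)]
    exact h2

theorem summ : Summable (fun k : ℤ => 1 / (1 + |(k : ℝ)|) ^ 3) := by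
  have h0 : Summable (fun n : ℕ => 1 / ((n : ℝ) + 1) ^ 3) := by
    have h1 : Summable (fun n : ℕ => 1 / (n : ℝ) ^ 3) :=
      Real.summable_one_div_nat_pow.2 (by norm_num)
    have h2 := (summable_nat_add_iff 1).2 h1
    simpa using h2
  refine Summable.of_nat_of_neg ?_ ?_
  · refine h0.congr fun n => ?_
    simp [add_comm]
  · refine h0.congr fun n => ?_
    simp [add_comm]

theorem int_bd {f W : ℂ → ℝ} {N : ℕ} {β : ℤ → ℝ} {B : ℝ} (hβ : ∀ k, 0 ≤ β k)
    (hf : ∀ k ∈ Finset.Icc (-(N : ℤ)) N, IntegrableOn (fun z => |f z|) (Box k) ∧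
      ∫ z in Box k, |f z| ≤ B)
    (hW : ∀ z, W z = 0 ∨ ∃ k ∈ Finset.Icc (-(N : ℤ)) N, z ∈ Box k ∧ |W z| ≤ β k) :
    |∫ z, f z * W z| ≤ ∑ k ∈ Finset.Icc (-(N : ℤ)) N, β k * B := by
  set I := Finset.Icc (-(N : ℤ)) N with hI
  have hint : ∀ k ∈ I, Integrable ((Box k).indicator fun z => |f z|) := fun k hk =>
    (hf k hk).1.integrable_indicator (Box_meas k)
  have hg : Integrable (fun z => ∑ k ∈ I, β k * (Box k).indicator (fun z => |f z|) z) :=
    integrable_finset_sum _ fun k hk => (hint k hk).const_mul _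
  have hnn : ∀ k z, 0 ≤ β k * (Box k).indicator (fun z => |f z|) z := fun k z =>
    mul_nonneg (hβ k) (indicator_nonneg (fun _ _ => abs_nonneg _) z)
  have hle : ∀ z, ‖f z * W z‖ ≤ ∑ k ∈ I, β k * (Box k).indicator (fun z => |f z|) z := by
    intro z
    rcases hW z with h | ⟨k, hk, hz, hw⟩
    · rw [h, mul_zero, norm_zero]
      exact Finset.sum_nonneg fun k _ => hnn k z
    · rw [norm_mul, Real.norm_eq_abs, Real.norm_eq_abs]
      calc |f z| * |W z| ≤ |f z| * β k := mul_le_mul_of_nonneg_left hw (abs_nonneg _)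
        _ = β k * (Box k).indicator (fun z => |f z|) z := by
            rw [indicator_of_mem hz, mul_comm]
        _ ≤ _ := Finset.single_le_sum (fun k _ => hnn k z) hk
  have h1 := norm_integral_le_of_norm_le hg (Eventually.of_forall hle)
  rw [Real.norm_eq_abs] at h1
  refine h1.trans ?_
  rw [integral_finset_sum _ fun k hk => (hint k hk).const_mul _]
  refine Finset.sum_le_sum fun k hk => ?_
  rw [integral_const_mul, integral_indicator (Box_meas k)]
  exact mul_le_mul_of_nonneg_left (hf k hk).2 (hβ k)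

end I_TL

open I_TL in
theorem TL_pf (hZl1 : S_Zl1) : S_TL := by
  intro κ c C _ hC
  obtain ⟨D, hD1, hD⟩ := W_bd hC
  obtain ⟨C₁, hC₁, hZ⟩ := hZl1
  set S : ℝ := ∑' k : ℤ, 1 / (1 + |(k : ℝ)|) ^ 3 with hS
  have hS0 : 0 ≤ S := tsum_nonneg fun k => by positivity
  have hC' : 1 ≤ 2 * C₁ * D * (8 * S + 1) := by
    have h1 : 1 ≤ C₁ * D := one_le_mul_of_one_le_of_one_le hC₁ hD1
    nlinarith
  refine ⟨2 * C₁ * D * (8 * S + 1), hC', ?_⟩
  intro X a H t hX ha ha2 hH ht
  have hX0 : 0 < X := by linarith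
  have hH0 : 0 < H := by linarith
  have ht40 : 40 ≤ t := by linarith
  have hlogt : 0 < Real.log t := Real.log_pos (by linarith)
  set N : ℕ := ⌈2 * H⌉₊ + 1 with hN
  have hN1 : 2 * H + 1 ≤ N := by
    rw [hN]; push_cast
    have := Nat.le_ceil (2 * H)
    linarith
  have hN2 : (N : ℝ) ≤ 2 * H + 2 := by
    rw [hN]; push_cast
    have := Nat.ceil_lt_add_one (by positivity : 0 ≤ 2 * H)
    linarith
  set E : ℝ := (1 + Real.exp (5 / 2 * X)) / (X * H) ^ 3 with hE
  have hE0 : 0 ≤ E := by positivity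
  set P : ℝ := 1 / X ^ 3 + a with hP
  have hP0 : 0 ≤ P := by positivity
  set β : ℤ → ℝ := fun k => D * (8 * P * (1 / (1 + |(k : ℝ)|) ^ 3) + E) with hβ
  have hβ0 : ∀ k, 0 ≤ β k := fun k => by
    rw [hβ]
    have : 0 ≤ D := by linarith
    positivity
  have hkabs : ∀ k ∈ Finset.Icc (-(N : ℤ)) N, |(k : ℝ)| ≤ N := by
    intro k hk
    rw [Finset.mem_Icc] at hk
    rw [abs_le]
    constructor
    · have : ((-(N : ℤ) : ℤ) : ℝ) ≤ (k : ℝ) := by exact_mod_cast hk.1
      simpa using this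
    · exact_mod_cast hk.2
  have h1 := int_bd (f := fun z => Real.log ‖riemannZeta (1 / 2 + t * Complex.I + z)‖)
    (W := fun z => Cu κ c X a H z - Cr κ c X a H z) (N := N) (β := β)
    (B := C₁ * (2 * Real.log t)) hβ0
    (by
      intro k hk
      have hk' := abs_le.1 (hkabs k hk)
      have hpos : 30 ≤ t + k := by linarith
      have h4 : 4 ≤ |t + k| := by rw [abs_of_pos (by linarith)]; linarith
      obtain ⟨h5, h6⟩ := box_int hZ t k h4
      refine ⟨h5, h6.trans (mul_le_mul_of_nonneg_left ?_ (by linarith))⟩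
      rw [abs_of_pos (by linarith)]
      have h7 : t + k ≤ t ^ 2 := by nlinarith
      calc Real.log (t + k) ≤ Real.log (t ^ 2) := Real.log_le_log (by linarith) h7
        _ = 2 * Real.log t := by rw [Real.log_pow]; norm_num)
    (by
      intro z
      by_cases hz : z.re < -3 / 10 ∨ 5 / 2 < z.re ∨ 2 * H < |z.im|
      · left; exact W_zero hH hz
      right
      push Not at hz
      obtain ⟨hz1, hz2, hz3⟩ := hz
      have hr := abs_sub_round z.im
      have hr2 : |((round z.im : ℤ) : ℝ)| ≤ 2 * H + 1 / 2 := by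
        have h3 : ((round z.im : ℤ) : ℝ) = z.im - (z.im - (round z.im : ℤ)) := by ring
        rw [h3]
        exact (abs_sub _ _).trans (by linarith)
      have hr3 := abs_le.1 hr2
      refine ⟨round z.im, ?_, ⟨hz1, hz2, hr⟩, ?_⟩
      · rw [Finset.mem_Icc]
        constructor
        · have : (-(N : ℝ)) ≤ (round z.im : ℤ) := by linarith
          exact_mod_cast this
        · have : ((round z.im : ℤ) : ℝ) ≤ N := by linarith
          exact_mod_cast this
      · refine (hD X a H hX ha ha2 hH z).trans ?_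
        have hD0 : 0 ≤ D := by linarith
        show _ ≤ D * (8 * P * (1 / (1 + |((round z.im : ℤ) : ℝ)|) ^ 3) + E)
        refine mul_le_mul_of_nonneg_left (add_le_add ?_ le_rfl) hD0
        have hv0 := abs_nonneg z.im
        have hk0 := abs_nonneg ((round z.im : ℤ) : ℝ)
        have h3 : (1 + |((round z.im : ℤ) : ℝ)|) / 2 ≤ 1 + |z.im| := by
          have h4 : |((round z.im : ℤ) : ℝ)| ≤ |z.im| + 1 / 2 := by
            have h5 : ((round z.im : ℤ) : ℝ) = z.im - (z.im - (round z.im : ℤ)) := by ring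
            rw [h5]
            exact (abs_sub _ _).trans (by linarith)
          linarith
        have h6 : (1 + |((round z.im : ℤ) : ℝ)|) ^ 3 / 8 ≤ (1 + |z.im|) ^ 3 := by
          calc (1 + |((round z.im : ℤ) : ℝ)|) ^ 3 / 8 =
              ((1 + |((round z.im : ℤ) : ℝ)|) / 2) ^ 3 := by ring
            _ ≤ _ := pow_le_pow_left₀ (by positivity) h3 3
        calc (1 / X ^ 3 + a) / (1 + |z.im|) ^ 3
            ≤ (1 / X ^ 3 + a) / ((1 + |((round z.im : ℤ) : ℝ)|) ^ 3 / 8) :=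
              div_le_div_of_nonneg_left (by positivity) (by positivity) h6
          _ = 8 * P * (1 / (1 + |((round z.im : ℤ) : ℝ)|) ^ 3) := by
              rw [hP]; field_simp)
  refine h1.trans ?_
  rw [← Finset.sum_mul]
  have hsum : ∑ k ∈ Finset.Icc (-(N : ℤ)) N, β k ≤
      D * ((8 * S + 1) * (P + Real.exp (5 / 2 * X) / H ^ 2)) := by
    have hD0 : 0 ≤ D := by linarith
    rw [hβ, ← Finset.mul_sum]
    refine mul_le_mul_of_nonneg_left ?_ hD0
    rw [Finset.sum_add_distrib, ← Finset.mul_sum, Finset.sum_const, nsmul_eq_mul]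
    have h2 : ∑ k ∈ Finset.Icc (-(N : ℤ)) N, 1 / (1 + |(k : ℝ)|) ^ 3 ≤ S :=
      summ.sum_le_tsum _ fun k _ => by positivity
    have h3 : ((Finset.Icc (-(N : ℤ)) N).card : ℝ) = 2 * N + 1 := by
      rw [Int.card_Icc]
      have : ((N : ℤ) + 1 - -(N : ℤ)).toNat = 2 * N + 1 := by omega
      rw [this]; push_cast; ring
    rw [h3]
    have hex : 1 ≤ Real.exp (5 / 2 * X) := Real.one_le_exp (by positivity)
    have hEe : (2 * N + 1) * E ≤ Real.exp (5 / 2 * X) / H ^ 2 := by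
      have h4 : E ≤ 2 * Real.exp (5 / 2 * X) / (125 * H ^ 3) := by
        rw [hE]
        refine div_le_div₀ (by positivity) (by linarith) (by positivity) ?_
        rw [mul_pow]
        have : (125 : ℝ) ≤ X ^ 3 := by
          calc (125 : ℝ) = 5 ^ 3 := by norm_num
            _ ≤ X ^ 3 := pow_le_pow_left₀ (by norm_num) hX 3
        exact mul_le_mul_of_nonneg_right this (by positivity)
      calc (2 * N + 1) * E ≤ (6 * H) * (2 * Real.exp (5 / 2 * X) / (125 * H ^ 3)) := by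
            refine mul_le_mul (by linarith) h4 hE0 (by positivity)
        _ = (12 / 125) * (Real.exp (5 / 2 * X) / H ^ 2) := by field_simp; ring
        _ ≤ 1 * (Real.exp (5 / 2 * X) / H ^ 2) :=
            mul_le_mul_of_nonneg_right (by norm_num) (by positivity)
        _ = _ := one_mul _
    set R : ℝ := Real.exp (5 / 2 * X) / H ^ 2 with hR
    have hR0 : 0 ≤ R := by positivity
    have h5 : 8 * P * ∑ k ∈ Finset.Icc (-(N : ℤ)) N, 1 / (1 + |(k : ℝ)|) ^ 3 ≤ 8 * P * S :=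
      mul_le_mul_of_nonneg_left h2 (by positivity)
    nlinarith [mul_nonneg hS0 hR0, hP0]
  calc (∑ k ∈ Finset.Icc (-(N : ℤ)) N, β k) * (C₁ * (2 * Real.log t))
      ≤ (D * ((8 * S + 1) * (P + Real.exp (5 / 2 * X) / H ^ 2))) * (C₁ * (2 * Real.log t)) :=
        mul_le_mul_of_nonneg_right hsum (by positivity)
    _ = 2 * C₁ * D * (8 * S + 1) * Real.log t * (1 / X ^ 3 + a + Real.exp (5 / 2 * X) / H ^ 2) := by
        rw [hP]; ring


end Pool.Agent.Work.MP_56b8f5_nt.HZ
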