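import Pool.Agent.Work.MP_56b8f5_nt.HZ.StmtsA

set_option autoImplicit false

open MeasureTheory Set Filter Topology

noncomputable section

namespace Pool.Agent.Work.MP_56b8f5_nt.HZ

open Pool.Agent.Work.MP_56b8f5_nt.EM Pool.Agent.Work.MP_56b8f5_nt.WM Pool.Agent.Work.MP_56b8f5_nt.SH

namespace I_TR

/-- the integrand of `KDn` -/
def gg (κ : ℝ → ℝ) (c X a : ℝ) (z : ℂ) : ℝ :=
  if 3 / 2 ≤ z.re then deriv (deriv cy) z.re * S1 κ c (X * (z - a)) +
    2 * (deriv cy z.re * (kt κ (X * (z - a)) / (z - a)).re) else 0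

theorem Cr_eq (κ : ℝ → ℝ) (c X a H : ℝ) (z : ℂ) :
    Cr κ c X a H z = cv H z.im * gg κ c X a z := by
  unfold Cr gg
  split_ifs <;> simp

theorem cut_nonneg (u : ℝ) : 0 ≤ cut u :=
  mul_nonneg (Real.smoothTransition.nonneg _) (Real.smoothTransition.nonneg _)

theorem cut_le_one (u : ℝ) : cut u ≤ 1 := by
  unfold cut
  exact mul_le_one₀ (Real.smoothTransition.le_one _) (Real.smoothTransition.nonneg _)
    (Real.smoothTransition.le_one _)

theorem cut_one (u : ℝ) (h : |u| ≤ 1) : cut u = 1 := by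
  unfold cut
  rw [abs_le] at h
  rw [Real.smoothTransition.one_of_one_le (by linarith), Real.smoothTransition.one_of_one_le (by linarith),
    one_mul]

theorem cut_contDiff : ContDiff ℝ ((⊤ : ℕ∞) : WithTop ℕ∞) cut := by
  unfold cut
  exact (Real.smoothTransition.contDiff.comp (contDiff_const.sub contDiff_id)).mul
    (Real.smoothTransition.contDiff.comp (contDiff_const.add contDiff_id))

theorem cy_contDiff : ContDiff ℝ ((⊤ : ℕ∞) : WithTop ℕ∞) cy := by
  unfold cy
  exact (Real.smoothTransition.contDiff.comp ((contDiff_const.mul contDiff_id).add contDiff_const)).mul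
    (Real.smoothTransition.contDiff.comp (contDiff_const.sub contDiff_id))

theorem cy_zero (y : ℝ) (h : 5 / 2 < y) : deriv cy y = 0 ∧ deriv (deriv cy) y = 0 := by
  have h1 : cy =ᶠ[𝓝 y] fun _ => 0 := by
    filter_upwards [Ioi_mem_nhds h] with u hu
    unfold cy
    rw [mem_Ioi] at hu
    rw [Real.smoothTransition.zero_of_nonpos (x := 5 / 2 - u) (by linarith), mul_zero]
  have h2 : deriv cy =ᶠ[𝓝 y] fun _ => 0 := by
    refine h1.deriv.trans ?_
    filter_upwards with u
    exact deriv_const _ _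
  refine ⟨h2.self_of_nhds, ?_⟩
  rw [h2.deriv_eq, deriv_const]

theorem cy_bound : ∃ M : ℝ, 0 ≤ M ∧ ∀ y : ℝ, |deriv cy y| ≤ M ∧ |deriv (deriv cy) y| ≤ M ∨ ¬ (3 / 2 ≤ y ∧ y ≤ 5 / 2) := by
  have h1 : Continuous (deriv cy) := cy_contDiff.continuous_deriv (by simp)
  have h2 : Continuous (deriv (deriv cy)) := by
    have h3 : ContDiff ℝ 1 (deriv cy) := by
      have : ContDiff ℝ 2 cy := contDiff_infty.1 cy_contDiff 2
      exact ((contDiff_succ_iff_deriv (n := 1)).1 this).2.2
    exact h3.continuous_deriv le_rfl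
  obtain ⟨M1, hM1⟩ := (isCompact_Icc (a := (3 / 2 : ℝ)) (b := 5 / 2)).exists_bound_of_continuousOn h1.continuousOn
  obtain ⟨M2, hM2⟩ := (isCompact_Icc (a := (3 / 2 : ℝ)) (b := 5 / 2)).exists_bound_of_continuousOn h2.continuousOn
  refine ⟨max 0 (max M1 M2), le_max_left _ _, fun y => ?_⟩
  by_cases hy : 3 / 2 ≤ y ∧ y ≤ 5 / 2
  · left
    exact ⟨(hM1 y hy).trans ((le_max_left _ _).trans (le_max_right _ _)),
      (hM2 y hy).trans ((le_max_right _ _).trans (le_max_right _ _))⟩
  · right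
    exact hy

theorem gg_zero (κ : ℝ → ℝ) (c X a : ℝ) (z : ℂ) (h : 5 / 2 < z.re) : gg κ c X a z = 0 := by
  unfold gg
  rw [(cy_zero _ h).1, (cy_zero _ h).2]
  simp

theorem gg_zero' (κ : ℝ → ℝ) (c X a : ℝ) (z : ℂ) (h : ¬ 3 / 2 ≤ z.re) : gg κ c X a z = 0 := by
  unfold gg
  rw [if_neg h]

/-- the bound of `gg` for large `|v|` -/
theorem gg_bound {κ : ℝ → ℝ} {c C : ℝ} (hC : IsC κ c C) {M : ℝ} (hM : 0 ≤ M) {X a : ℝ} (hX : 1 ≤ X)
    (ha : 0 < a) (z : ℂ) (h1 : 3 / 2 ≤ z.re) (h2 : z.re ≤ 5 / 2) (hv : 1 ≤ |z.im|)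
    (hcy : |deriv cy z.re| ≤ M) (hcy2 : |deriv (deriv cy) z.re| ≤ M) :
    |gg κ c X a z| ≤ 6 * M * |C| * Real.exp (5 / 2 * X) / |z.im| ^ 3 := by
  have hX0 : 0 < X := by linarith
  set w : ℂ := X * (z - a) with hw
  have hre : w.re = X * (z.re - a) := by simp [hw]
  have him : w.im = X * z.im := by simp [hw]
  have hvim : |w.im| = X * |z.im| := by rw [him, abs_mul, abs_of_pos hX0]
  have hv0 : 0 < |z.im| := by linarith
  have hwim : |z.im| ≤ |w.im| := by
    rw [hvim]; nlinarith
  have hexp : 1 + Real.exp w.re ≤ 2 * Real.exp (5 / 2 * X) := by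
    have e1 : Real.exp w.re ≤ Real.exp (5 / 2 * X) := by
      apply Real.exp_le_exp.2
      rw [hre]
      nlinarith
    have e2 : 1 ≤ Real.exp (5 / 2 * X) := Real.one_le_exp (by linarith)
    linarith
  have hzne : z - a ≠ 0 := by
    intro h
    have : z.im = 0 := by
      have := congrArg Complex.im h
      simpa using this
    rw [this] at hv0
    simp at hv0
  have hXne : (X : ℂ) ≠ 0 := by exact_mod_cast hX0.ne'
  have hwne : w ≠ 0 := mul_ne_zero hXne hzne
  obtain ⟨b1, _, b3⟩ := hC w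
  have hCe : C * (1 + Real.exp w.re) ≤ |C| * (2 * Real.exp (5 / 2 * X)) := by
    have e1 : C * (1 + Real.exp w.re) ≤ |C| * (1 + Real.exp w.re) :=
      mul_le_mul_of_nonneg_right (le_abs_self C) (by positivity)
    exact e1.trans (mul_le_mul_of_nonneg_left hexp (abs_nonneg _))
  have hS : |S1 κ c w| ≤ |C| * (2 * Real.exp (5 / 2 * X)) / |z.im| ^ 3 := by
    refine (b1 (hv.trans hwim)).trans ?_
    refine (div_le_div_of_nonneg_right hCe (by positivity)).trans ?_
    exact div_le_div_of_nonneg_left (by positivity) (by positivity)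
      (pow_le_pow_left₀ hv0.le hwim 3)
  have hK : ‖kt κ w / (z - a)‖ ≤ |C| * (2 * Real.exp (5 / 2 * X)) / |z.im| ^ 3 := by
    have e1 : kt κ w / (z - a) = X * (kt κ w / w) := by
      rw [hw]
      field_simp
    rw [e1, norm_mul, Complex.norm_real, Real.norm_of_nonneg hX0.le]
    have e2 : ‖kt κ w / w‖ ≤ |C| * (2 * Real.exp (5 / 2 * X)) / ‖w‖ ^ 4 :=
      (b3 hwne).trans (div_le_div_of_nonneg_right hCe (by positivity))
    have e3 : X * |z.im| ≤ ‖w‖ := by
      rw [← hvim]
      exact Complex.abs_im_le_norm w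
    have e4 : X * |z.im| ^ 3 ≤ ‖w‖ ^ 4 := by
      refine le_trans ?_ (pow_le_pow_left₀ (by positivity) e3 4)
      have e5 : X * |z.im| ^ 3 ≤ X ^ 4 * |z.im| ^ 4 := by
        have e6 : X ≤ X ^ 4 := by
          have := pow_le_pow_right₀ hX (show 1 ≤ 4 by norm_num)
          simpa using this
        have e7 : |z.im| ^ 3 ≤ |z.im| ^ 4 := pow_le_pow_right₀ hv (by norm_num)
        exact mul_le_mul e6 e7 (by positivity) (by positivity)
      rw [mul_pow]
      exact e5
    have e8 : 0 < ‖w‖ := norm_pos_iff.2 hwne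
    calc X * ‖kt κ w / w‖ ≤ X * (|C| * (2 * Real.exp (5 / 2 * X)) / ‖w‖ ^ 4) :=
          mul_le_mul_of_nonneg_left e2 hX0.le
      _ = |C| * (2 * Real.exp (5 / 2 * X)) * (X / ‖w‖ ^ 4) := by ring
      _ ≤ |C| * (2 * Real.exp (5 / 2 * X)) * (1 / |z.im| ^ 3) := by
          refine mul_le_mul_of_nonneg_left ?_ (by positivity)
          rw [div_le_div_iff₀ (by positivity) (by positivity), one_mul]
          exact e4
      _ = _ := by ring
  unfold gg
  rw [if_pos h1, ← hw]
  set B := |C| * (2 * Real.exp (5 / 2 * X)) / |z.im| ^ 3 with hB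
  have hB0 : 0 ≤ B := by positivity
  calc |deriv (deriv cy) z.re * S1 κ c w + 2 * (deriv cy z.re * (kt κ w / (z - a)).re)|
      ≤ |deriv (deriv cy) z.re * S1 κ c w| + |2 * (deriv cy z.re * (kt κ w / (z - a)).re)| :=
        abs_add_le _ _
    _ = |deriv (deriv cy) z.re| * |S1 κ c w| + 2 * (|deriv cy z.re| * |(kt κ w / (z - a)).re|) := by
        rw [abs_mul, abs_mul, abs_mul, abs_two]
    _ ≤ M * B + 2 * (M * B) := by
        refine add_le_add (mul_le_mul hcy2 hS (abs_nonneg _) hM) ?_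
        refine mul_le_mul_of_nonneg_left ?_ (by norm_num)
        exact mul_le_mul hcy ((Complex.abs_re_le_norm _).trans hK) (abs_nonneg _) hM
    _ = _ := by rw [hB]; ring

/-- the majorant -/
def maj (H : ℝ) (z : ℂ) : ℝ := (Icc (3 / 2 : ℝ) (5 / 2)).indicator (fun _ => (1 : ℝ)) z.re * (1 + (z.im / H) ^ 2)⁻¹

theorem maj_int (H : ℝ) (hH : 0 < H) : Integrable (maj H) ∧ ∫ z, maj H z = H * Real.pi := by
  have h1 : Integrable (fun y : ℝ => (Icc (3 / 2 : ℝ) (5 / 2)).indicator (fun _ => (1 : ℝ)) y) := by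
    rw [integrable_indicator_iff measurableSet_Icc]
    exact integrableOn_const (by simp)
  have h2 : Integrable (fun v : ℝ => (1 + (v / H) ^ 2)⁻¹) :=
    (integrable_inv_one_add_sq).comp_div hH.ne'
  have h3 := h1.mul_prod h2
  have h4 := Complex.volume_preserving_equiv_real_prod
  constructor
  · have := (h4.integrable_comp_emb Complex.measurableEquivRealProd.measurableEmbedding).2 h3
    exact this
  · have h5 := h4.integral_comp' (fun p : ℝ × ℝ => (Icc (3 / 2 : ℝ) (5 / 2)).indicator (fun _ => (1 : ℝ)) p.1 *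
      (1 + (p.2 / H) ^ 2)⁻¹)
    have h6 : ∫ z, maj H z = ∫ z, (fun p : ℝ × ℝ => (Icc (3 / 2 : ℝ) (5 / 2)).indicator (fun _ => (1 : ℝ)) p.1 *
      (1 + (p.2 / H) ^ 2)⁻¹) (Complex.measurableEquivRealProd z) := rfl
    rw [h6, h5]
    have h7 := integral_prod_mul (μ := (volume : Measure ℝ)) (ν := (volume : Measure ℝ))
      (fun y : ℝ => (Icc (3 / 2 : ℝ) (5 / 2)).indicator (fun _ => (1 : ℝ)) y) (fun v : ℝ => (1 + (v / H) ^ 2)⁻¹)
    refine h7.trans ?_
    rw [integral_indicator measurableSet_Icc, setIntegral_const]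
    have h8 : ∫ v : ℝ, (1 + (v / H) ^ 2)⁻¹ = H * Real.pi := by
      have := Measure.integral_comp_div (fun v : ℝ => (1 + v ^ 2)⁻¹) H
      rw [this, integral_univ_inv_one_add_sq, abs_of_pos hH]
      simp
    rw [h8]
    simp only [Measure.real, Real.volume_Icc, smul_eq_mul, mul_one]
    rw [ENNReal.toReal_ofReal (by norm_num)]
    ring

/-- the terms of the series for `log |zeta|` -/
def rr (t : ℝ) (n : ℕ) (z : ℂ) : ℝ := ArithmeticFunction.vonMangoldt n / Real.log n *
  (Complex.exp (-((Real.log n : ℝ) * ((1 / 2 + t * Complex.I) + z)))).re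

theorem cpow_eq (n : ℕ) (hn : n ≠ 0) (s : ℂ) :
    (n : ℂ) ^ (-s) = Complex.exp (-((Real.log n : ℝ) * s)) := by
  rw [Complex.cpow_def_of_ne_zero (by exact_mod_cast hn), ← Complex.natCast_log]
  congr 1
  ring

theorem b_zero (n : ℕ) (hn : ¬ 2 ≤ n) : ArithmeticFunction.vonMangoldt n / Real.log n = 0 := by
  have : n = 0 ∨ n = 1 := by omega
  rcases this with rfl | rfl <;> simp

theorem rr_eq (t : ℝ) (n : ℕ) (z : ℂ) : rr t n z =
    (((ArithmeticFunction.vonMangoldt n / Real.log n : ℝ) : ℂ) * (n : ℂ) ^ (-((1 / 2 + t * Complex.I) + z))).re := by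
  unfold rr
  rw [Complex.re_ofReal_mul]
  by_cases hn : n = 0
  · subst hn
    simp
  · rw [cpow_eq n hn]

theorem rr_bound (hZeu : S_Zeu) (t : ℝ) (n : ℕ) (z : ℂ) (hz : 3 / 2 ≤ z.re) :
    |rr t n z| ≤ ((n : ℝ) ^ 2)⁻¹ := by
  by_cases hn : 2 ≤ n
  · have hn0 : 0 < n := by omega
    rw [rr_eq]
    refine (Complex.abs_re_le_norm _).trans ?_
    rw [norm_mul, Complex.norm_real, Real.norm_of_nonneg (hZeu.1 n).1,
      Complex.norm_natCast_cpow_of_pos hn0]
    have h1 : (n : ℝ) ^ (-((1 / 2 + t * Complex.I) + z)).re ≤ ((n : ℝ) ^ 2)⁻¹ := by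
      rw [← Real.rpow_natCast, ← Real.rpow_neg (by positivity)]
      apply Real.rpow_le_rpow_of_exponent_le (by exact_mod_cast hn0)
      simp
      linarith
    calc _ ≤ 1 * (n : ℝ) ^ (-((1 / 2 + t * Complex.I) + z)).re :=
          mul_le_mul_of_nonneg_right (hZeu.1 n).2 (by positivity)
      _ ≤ _ := by rw [one_mul]; exact h1
  · unfold rr
    rw [b_zero n hn]
    simp

theorem rr_cont (t : ℝ) (n : ℕ) : Continuous (rr t n) := by
  unfold rr
  fun_prop

/-- the series -/
theorem log_series (hZeu : S_Zeu) (t : ℝ) (z : ℂ) (hz : 3 / 2 ≤ z.re) :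
    HasSum (fun n => rr t n z) (Real.log ‖riemannZeta (1 / 2 + t * Complex.I + z)‖) := by
  have h2 : 2 ≤ (1 / 2 + t * Complex.I + z).re := by
    simp
    linarith
  obtain ⟨h3, h4, _⟩ := hZeu.2 _ h2
  have h5 := Complex.hasSum_re h3.of_norm.hasSum
  rw [← h4] at h5
  refine h5.congr_fun ?_
  intro n
  rw [rr_eq]

theorem log_le (hZeu : S_Zeu) (t : ℝ) (z : ℂ) (hz : 3 / 2 ≤ z.re) :
    |Real.log ‖riemannZeta (1 / 2 + t * Complex.I + z)‖| ≤ 1 := by
  have h2 : 2 ≤ (1 / 2 + t * Complex.I + z).re := by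
    simp
    linarith
  exact (hZeu.2 _ h2).2.2

theorem log_meas (t : ℝ) : AEStronglyMeasurable
    ({z : ℂ | 3 / 2 ≤ z.re}.indicator fun z => Real.log ‖riemannZeta (1 / 2 + t * Complex.I + z)‖) := by
  have hs : MeasurableSet {z : ℂ | 3 / 2 ≤ z.re} :=
    (isClosed_le continuous_const Complex.continuous_re).measurableSet
  rw [aestronglyMeasurable_indicator_iff hs]
  apply ContinuousOn.aestronglyMeasurable _ hs
  intro z hz
  have hz' : 3 / 2 ≤ z.re := hz
  have h2 : 2 ≤ (1 / 2 + t * Complex.I + z).re := by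
    simp
    linarith
  have h3 : riemannZeta (1 / 2 + t * Complex.I + z) ≠ 0 :=
    riemannZeta_ne_zero_of_one_le_re (by linarith)
  have h4 : (1 / 2 + t * Complex.I + z) ≠ 1 := by
    intro h
    rw [h] at h2
    norm_num at h2
  have h5 : ContinuousAt (fun z : ℂ => riemannZeta (1 / 2 + t * Complex.I + z)) z :=
    ContinuousAt.comp (g := riemannZeta) (f := fun z : ℂ => 1 / 2 + t * Complex.I + z)
      (differentiableAt_riemannZeta h4).continuousAt (by fun_prop)
  exact (h5.norm.log (norm_ne_zero_iff.2 h3)).continuousWithinAt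

end I_TR

open I_TR in
theorem TR_pf (hZeu : S_Zeu) (hKkt : S_Kkt) (hKDn : S_KDn) : S_TR := by
  intro κ c C hκ hC
  obtain ⟨M, hM, hMb⟩ := I_TR.cy_bound
  have hpi := Real.pi_pos
  refine ⟨1 + 12 * Real.pi * M * |C|, by
    have : 0 ≤ 12 * Real.pi * M * |C| := by positivity
    linarith, ?_⟩
  intro X a H t hX ha ha2 hH ht
  have hX0 : 0 < X := by linarith
  have hH0 : 0 < H := by linarith
  have ha1 : a ≤ 1 := by linarith
  obtain ⟨hKk1, hKk2, hKk3, hKk4, hKk5⟩ := hKkt κ hκ
  have hgi : Integrable (gg κ c X a) :=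
    (hKDn κ c C hκ hC X a 1 (1 / 2 + t * Complex.I) hX ha ha1 one_pos).1
  -- the function with the indicator
  set ell : ℂ → ℝ := {z : ℂ | 3 / 2 ≤ z.re}.indicator
    fun z => Real.log ‖riemannZeta (1 / 2 + t * Complex.I + z)‖ with hell
  have hell1 : ∀ z, |ell z| ≤ 1 := by
    intro z
    by_cases hz : 3 / 2 ≤ z.re
    · rw [hell, indicator_of_mem (show z ∈ {z : ℂ | 3 / 2 ≤ z.re} from hz)]
      exact log_le hZeu t z hz
    · rw [hell, indicator_of_notMem (show z ∉ {z : ℂ | 3 / 2 ≤ z.re} from hz)]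
      simp
  have hellg : ∀ z, Real.log ‖riemannZeta (1 / 2 + t * Complex.I + z)‖ * gg κ c X a z = ell z * gg κ c X a z := by
    intro z
    by_cases hz : 3 / 2 ≤ z.re
    · rw [hell, indicator_of_mem (show z ∈ {z : ℂ | 3 / 2 ≤ z.re} from hz)]
    · rw [gg_zero' κ c X a z hz, mul_zero, mul_zero]
  have hcvm : Continuous (fun z : ℂ => cv H z.im) := by
    unfold cv
    exact cut_contDiff.continuous.comp (Complex.continuous_im.div_const H)
  have hcv0 : ∀ v, 0 ≤ cv H v := fun v => cut_nonneg _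
  have hcv1 : ∀ v, cv H v ≤ 1 := fun v => cut_le_one _
  have hI1 : Integrable (fun z => ell z * gg κ c X a z) := by
    refine hgi.bdd_mul (log_meas t) (c := 1) (Eventually.of_forall fun z => ?_)
    rw [Real.norm_eq_abs]
    exact hell1 z
  have hI2 : Integrable (fun z : ℂ => cv H z.im * (ell z * gg κ c X a z)) := by
    refine hI1.bdd_mul hcvm.aestronglyMeasurable (c := 1) (Eventually.of_forall fun z => ?_)
    rw [Real.norm_eq_abs, abs_of_nonneg (hcv0 _)]
    exact hcv1 _
  have hCr : (fun z => Real.log ‖riemannZeta (1 / 2 + t * Complex.I + z)‖ * Cr κ c X a H z) =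
      fun z : ℂ => cv H z.im * (ell z * gg κ c X a z) := by
    funext z
    rw [Cr_eq, ← hellg z]
    ring
  -- the error
  set K : ℝ := 12 * M * |C| * Real.exp (5 / 2 * X) / H ^ 3 with hK
  have hK0 : 0 ≤ K := by positivity
  obtain ⟨hm1, hm2⟩ := maj_int H hH0
  have herr : ∀ z : ℂ, ‖cv H z.im * (ell z * gg κ c X a z) - ell z * gg κ c X a z‖ ≤ K * maj H z := by
    intro z
    have hmaj : 0 ≤ maj H z := by
      unfold maj
      exact mul_nonneg (indicator_nonneg (fun _ _ => zero_le_one) _) (by positivity)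
    by_cases h1 : 3 / 2 ≤ z.re
    swap
    · rw [gg_zero' κ c X a z h1]
      simp only [mul_zero, sub_zero, norm_zero]
      positivity
    by_cases h2 : z.re ≤ 5 / 2
    swap
    · rw [gg_zero κ c X a z (not_le.1 h2)]
      simp only [mul_zero, sub_zero, norm_zero]
      positivity
    by_cases h3 : |z.im| ≤ H
    · have : cv H z.im = 1 := by
        unfold cv
        apply cut_one
        rw [abs_div, abs_of_pos hH0]
        exact (div_le_one hH0).2 h3
      rw [this, one_mul, sub_self, norm_zero]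
      positivity
    · have h3' : H < |z.im| := not_le.1 h3
      have hv1 : 1 ≤ |z.im| := by linarith
      have hb := (hMb z.re).resolve_right (fun h => h ⟨h1, h2⟩)
      have hg := gg_bound hC hM hX ha z h1 h2 hv1 hb.1 hb.2
      have e1 : cv H z.im * (ell z * gg κ c X a z) - ell z * gg κ c X a z =
          (cv H z.im - 1) * (ell z * gg κ c X a z) := by ring
      rw [e1, Real.norm_eq_abs, abs_mul, abs_mul]
      have e2 : |cv H z.im - 1| ≤ 1 := by
        rw [abs_le]
        constructor <;> linarith [hcv0 z.im, hcv1 z.im]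
      have e3 : |ell z| * |gg κ c X a z| ≤ 1 * |gg κ c X a z| :=
        mul_le_mul_of_nonneg_right (hell1 z) (abs_nonneg _)
      have e4 : |cv H z.im - 1| * (|ell z| * |gg κ c X a z|) ≤ 1 * |gg κ c X a z| := by
        calc _ ≤ 1 * (|ell z| * |gg κ c X a z|) := mul_le_mul_of_nonneg_right e2 (by positivity)
          _ ≤ _ := by rw [one_mul]; exact e3
      refine e4.trans ?_
      rw [one_mul]
      refine hg.trans ?_
      have e5 : maj H z = (1 + (z.im / H) ^ 2)⁻¹ := by
        unfold maj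
        rw [indicator_of_mem (show z.re ∈ Icc (3 / 2 : ℝ) (5 / 2) from ⟨h1, h2⟩), one_mul]
      rw [e5, hK]
      have e6 : 1 / |z.im| ^ 3 ≤ 2 / H ^ 3 * (1 + (z.im / H) ^ 2)⁻¹ := by
        set u := |z.im| / H with hu
        have hu1 : 1 ≤ u := (one_le_div hH0).2 h3'.le
        have hu2 : (z.im / H) ^ 2 = u ^ 2 := by
          rw [hu, div_pow, div_pow, sq_abs]
        have hu3 : |z.im| = u * H := by
          rw [hu]
          field_simp
        rw [hu2, hu3, mul_pow, ← div_eq_mul_inv, div_div, div_le_div_iff₀ (by positivity) (by positivity)]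
        have hu4 : 1 + u ^ 2 ≤ 2 * u ^ 3 := by nlinarith [mul_nonneg (sub_nonneg.2 hu1) (sq_nonneg u), sq_nonneg (u - 1)]
        have hH3 : 0 < H ^ 3 := by positivity
        nlinarith
      calc 6 * M * |C| * Real.exp (5 / 2 * X) / |z.im| ^ 3
          = 6 * M * |C| * Real.exp (5 / 2 * X) * (1 / |z.im| ^ 3) := by ring
        _ ≤ 6 * M * |C| * Real.exp (5 / 2 * X) * (2 / H ^ 3 * (1 + (z.im / H) ^ 2)⁻¹) :=
          mul_le_mul_of_nonneg_left e6 (by positivity)
        _ = _ := by ring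
  have hE : |(∫ z : ℂ, cv H z.im * (ell z * gg κ c X a z)) - ∫ z, ell z * gg κ c X a z| ≤
      12 * Real.pi * M * |C| * Real.exp (5 / 2 * X) / H ^ 2 := by
    rw [← integral_sub hI2 hI1, ← Real.norm_eq_abs]
    refine (norm_integral_le_of_norm_le (hm1.const_mul K) (Eventually.of_forall herr)).trans ?_
    rw [integral_const_mul, hm2, hK]
    apply le_of_eq
    field_simp
  -- the main term
  have hF1 : ∀ n, Integrable (fun z => rr t n z * gg κ c X a z) ∧
      ∫ z, ‖rr t n z * gg κ c X a z‖ ≤ ((n : ℝ) ^ 2)⁻¹ * ∫ z, ‖gg κ c X a z‖ := by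
    intro n
    have hb : ∀ z, ‖rr t n z * gg κ c X a z‖ ≤ ((n : ℝ) ^ 2)⁻¹ * ‖gg κ c X a z‖ := by
      intro z
      by_cases hz : 3 / 2 ≤ z.re
      · rw [norm_mul]
        exact mul_le_mul_of_nonneg_right (rr_bound hZeu t n z hz) (norm_nonneg _)
      · rw [gg_zero' κ c X a z hz]
        simp
    have hi : Integrable (fun z => rr t n z * gg κ c X a z) := by
      refine Integrable.mono' (hgi.norm.const_mul ((n : ℝ) ^ 2)⁻¹) ?_ (Eventually.of_forall hb)
      exact (rr_cont t n).aestronglyMeasurable.mul hgi.aestronglyMeasurable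
    refine ⟨hi, ?_⟩
    rw [← integral_const_mul]
    exact integral_mono hi.norm (hgi.norm.const_mul _) hb
  have hsum : Summable (fun n : ℕ => ∫ z, ‖rr t n z * gg κ c X a z‖) := by
    refine Summable.of_nonneg_of_le (fun n => integral_nonneg fun z => norm_nonneg _)
      (fun n => (hF1 n).2) ?_
    exact (Real.summable_nat_pow_inv.2 (by norm_num)).mul_right _
  have hmain := hasSum_integral_of_summable_integral_norm (fun n => (hF1 n).1) hsum
  have hser : ∀ z, ∑' n, rr t n z * gg κ c X a z = ell z * gg κ c X a z := by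
    intro z
    by_cases hz : 3 / 2 ≤ z.re
    · rw [tsum_mul_right, (log_series hZeu t z hz).tsum_eq, hellg]
    · rw [gg_zero' κ c X a z hz]
      simp
  simp only [hser] at hmain
  have hterm : ∀ n : ℕ, ∫ z, rr t n z * gg κ c X a z =
      -(2 * Real.pi) * ((((ArithmeticFunction.vonMangoldt n / Real.log n * wk κ X a n : ℝ) : ℂ) *
        (n : ℂ) ^ (-(1 / 2 + t * Complex.I))).re) := by
    intro n
    by_cases hn : 2 ≤ n
    · have hn0 : n ≠ 0 := by omega
      have hn1 : (1 : ℝ) < n := by exact_mod_cast hn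
      have hlog : 0 < Real.log n := Real.log_pos hn1
      have h1 := (hKDn κ c C hκ hC X a (Real.log n) (1 / 2 + t * Complex.I) hX ha ha1 hlog).2
      have h2 : ∫ z, rr t n z * gg κ c X a z = ArithmeticFunction.vonMangoldt n / Real.log n *
          ∫ z : ℂ, (if 3 / 2 ≤ z.re then deriv (deriv cy) z.re * S1 κ c (X * (z - a)) +
      2 * (deriv cy z.re * (kt κ (X * (z - a)) / (z - a)).re) else 0) *
        (Complex.exp (-((Real.log n : ℝ) * ((1 / 2 + t * Complex.I) + z)))).re := by
        rw [← integral_const_mul]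
        refine integral_congr_ae (Eventually.of_forall fun z => ?_)
        simp only [rr, gg]
        ring
      rw [h2, h1, Complex.re_ofReal_mul, cpow_eq n hn0]
      unfold wk
      have h3 : (n : ℝ) ^ (-a) = Real.exp (-(Real.log n * a)) := by
        rw [Real.rpow_def_of_pos (by linarith)]
        congr 1
        ring
      rw [h3]
      ring
    · have h1 : ∀ z, rr t n z = 0 := by
        intro z
        unfold rr
        rw [b_zero n hn, zero_mul]
      simp only [h1, zero_mul, integral_zero]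
      rw [b_zero n hn]
      simp
  simp only [hterm] at hmain
  have hfin : ∫ z, ell z * gg κ c X a z = -(2 * Real.pi) * (Dx (wk κ X a) (Real.exp X) t).re := by
    rw [← hmain.tsum_eq]
    rw [tsum_eq_sum (s := Finset.Icc 1 ⌊Real.exp X⌋₊)]
    · unfold Dx
      rw [Complex.re_sum, Finset.mul_sum]
    · intro n hn
      rw [Finset.mem_Icc, not_and_or] at hn
      rcases hn with hn | hn
      · rw [b_zero n (by omega)]
        simp
      · have h1 : Real.exp X < n := by
          rw [not_le] at hn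
          exact (Nat.floor_lt (Real.exp_pos X).le).1 hn
        have h2 : X < Real.log n := by
          rw [Real.lt_log_iff_exp_lt (lt_trans (Real.exp_pos X) h1)]
          exact h1
        have h3 : kk κ (Real.log n / X) = 0 := by
          apply hKk5
          rw [le_div_iff₀ hX0]
          linarith
        unfold wk
        rw [h3]
        simp
  rw [hCr]
  refine ⟨hI2, ?_⟩
  rw [hfin] at hE
  have e1 : (∫ z : ℂ, cv H z.im * (ell z * gg κ c X a z)) + 2 * Real.pi * (Dx (wk κ X a) (Real.exp X) t).re =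
      (∫ z : ℂ, cv H z.im * (ell z * gg κ c X a z)) - -(2 * Real.pi) * (Dx (wk κ X a) (Real.exp X) t).re := by
    ring
  rw [e1]
  refine hE.trans ?_
  rw [add_mul, add_div, one_mul]
  have e2 : 0 ≤ Real.exp (5 / 2 * X) / H ^ 2 := by positivity
  linarith

end Pool.Agent.Work.MP_56b8f5_nt.HZ
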