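import Pool.Agent.Work.MP_56b8f5_nt.HZ.StmtsA

/-!
MP_56b8f5_nt, block HZ, item ZF: the far zeros.
-/

set_option autoImplicit false

open MeasureTheory Set Filter Topology

noncomputable section

namespace Pool.Agent.Work.MP_56b8f5_nt.HZ

open Pool.Agent.Work.MP_56b8f5_nt.EM Pool.Agent.Work.MP_56b8f5_nt.WM Pool.Agent.Work.MP_56b8f5_nt.SH

namespace I_ZF

theorem cut_nonneg (u : ℝ) : 0 ≤ cut u :=
  mul_nonneg (Real.smoothTransition.nonneg _) (Real.smoothTransition.nonneg _)

theorem cut_le_one (u : ℝ) : cut u ≤ 1 :=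
  mul_le_one₀ (Real.smoothTransition.le_one _) (Real.smoothTransition.nonneg _)
    (Real.smoothTransition.le_one _)

theorem cut_zero {u : ℝ} (h : 2 ≤ |u|) : cut u = 0 := by
  unfold cut
  rcases le_abs.mp h with h | h
  · rw [Real.smoothTransition.zero_of_nonpos (by linarith : 2 - u ≤ 0), zero_mul]
  · rw [Real.smoothTransition.zero_of_nonpos (by linarith : 2 + u ≤ 0), mul_zero]

theorem cy_nonneg (u : ℝ) : 0 ≤ cy u :=
  mul_nonneg (Real.smoothTransition.nonneg _) (Real.smoothTransition.nonneg _)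

theorem cy_le_one (u : ℝ) : cy u ≤ 1 :=
  mul_le_one₀ (Real.smoothTransition.le_one _) (Real.smoothTransition.nonneg _)
    (Real.smoothTransition.le_one _)

theorem cy_zero {y : ℝ} (h : y ≤ -(3 / 10)) : cy y = 0 := by
  unfold cy
  rw [Real.smoothTransition.zero_of_nonpos (by linarith : 10 * y + 3 ≤ 0), zero_mul]

theorem cn_nonneg (u : ℝ) : 0 ≤ cn u := cut_nonneg _

theorem cn_le_one (u : ℝ) : cn u ≤ 1 := cut_le_one _

theorem cv_nonneg (H u : ℝ) : 0 ≤ cv H u := cut_nonneg _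

theorem cv_le_one (H u : ℝ) : cv H u ≤ 1 := cut_le_one _

theorem cn_zero {u : ℝ} (h : 1 / 4 ≤ |u|) : cn u = 0 := by
  unfold cn
  apply cut_zero
  rw [abs_mul, abs_of_pos (by norm_num : (0 : ℝ) < 8)]
  linarith

theorem cv_zero {H v : ℝ} (hH : 0 < H) (h : 2 * H ≤ |v|) : cv H v = 0 := by
  unfold cv
  apply cut_zero
  rw [abs_div, abs_of_pos hH, le_div_iff₀ hH]
  exact h

theorem Phi_eq (κ : ℝ → ℝ) (c X a H : ℝ) (z : ℂ) (hX : 0 < X) (hz : z.im ≠ 0) :
    Phi κ c X a H z = cy z.re * cv H z.im * S1 κ c (X * (z - a)) +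
      cn z.re * cn z.im * (Real.log ‖z‖ - Real.log ‖z - a‖) := by
  have h1 : z - a ≠ 0 := by
    intro h
    apply hz
    have := congrArg Complex.im h
    simpa using this
  have h2 : Real.log ‖(X : ℂ) * (z - a)‖ = Real.log X + Real.log ‖z - a‖ := by
    rw [norm_mul, Complex.norm_real, Real.norm_of_nonneg hX.le,
      Real.log_mul hX.ne' (norm_ne_zero_iff.mpr h1)]
  unfold Phi S1
  rw [h2]
  ring

theorem log_diff {z : ℂ} {a : ℝ} (ha : 0 < a) (hz : 1 / 8 < |z.im|) :
    |Real.log ‖z‖ - Real.log ‖z - a‖| ≤ 8 * a := by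
  have h1 : 1 / 8 < ‖z‖ := hz.trans_le (Complex.abs_im_le_norm z)
  have h2 : 1 / 8 < ‖z - a‖ := by
    have h3 : |(z - a).im| ≤ ‖z - a‖ := Complex.abs_im_le_norm _
    have h4 : (z - a).im = z.im := by simp
    rw [h4] at h3
    exact hz.trans_le h3
  have h3 : |‖z‖ - ‖z - a‖| ≤ a := by
    have := abs_norm_sub_norm_le z (z - a)
    rw [sub_sub_cancel, Complex.norm_real, Real.norm_of_nonneg ha.le] at this
    exact this
  have key : ∀ p q : ℝ, 1 / 8 < p → 1 / 8 < q → p - q ≤ a → Real.log p - Real.log q ≤ 8 * a := by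
    intro p q hp hq hpq
    have hp0 : 0 < p := by linarith
    have hq0 : 0 < q := by linarith
    rw [← Real.log_div hp0.ne' hq0.ne']
    refine (Real.log_le_sub_one_of_pos (div_pos hp0 hq0)).trans ?_
    rw [div_sub_one hq0.ne', div_le_iff₀ hq0]
    nlinarith
  rw [abs_le] at h3 ⊢
  have k1 := key _ _ h1 h2 h3.2
  have k2 := key _ _ h2 h1 (by linarith [h3.1])
  constructor <;> linarith

theorem Phi_bound (κ : ℝ → ℝ) (c C : ℝ) (hC1 : 1 ≤ C) (hC : IsC κ c C) (X a H E : ℝ) (z : ℂ)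
    (hX : 8 ≤ X) (ha : 0 < a) (hv : 1 / 8 < |z.im|) (hE : 1 ≤ E)
    (hexp : Real.exp (X * z.re) ≤ E * (1 + |z.im|) * X) :
    |Phi κ c X a H z| ≤ (18 * C * E + 1) * (a + 1 / X) / z.im ^ 2 := by
  have hv0 : z.im ≠ 0 := by
    intro h
    rw [h, abs_zero] at hv
    linarith
  rw [Phi_eq κ c X a H z (by linarith) hv0]
  set u := |z.im| with hu
  have hu2 : z.im ^ 2 = u ^ 2 := (sq_abs _).symm
  rw [hu2]
  have hu0 : 0 < u := by linarith
  have hX0 : 0 < X := by linarith
  have him : ((X : ℂ) * (z - a)).im = X * z.im := by simp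
  have hre : ((X : ℂ) * (z - a)).re = X * (z.re - a) := by simp
  have h1 : |S1 κ c (X * (z - a))| ≤ 18 * C * E * (1 / X) / u ^ 2 := by
    have h2 := (hC (X * (z - a))).1 (by
      rw [him, abs_mul, abs_of_pos hX0]
      nlinarith)
    rw [him, hre, abs_mul, abs_of_pos hX0] at h2
    refine h2.trans ?_
    have h3 : Real.exp (X * (z.re - a)) ≤ E * (1 + u) * X := by
      refine le_trans (Real.exp_le_exp.mpr ?_) hexp
      nlinarith
    have h4 : 1 ≤ E * (1 + u) * X := by
      have : 1 ≤ E * (1 + u) := by nlinarith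
      nlinarith
    rw [div_le_div_iff₀ (by positivity) (by positivity)]
    have h5 : 18 * C * E * (1 / X) * (X * u) ^ 3 = 18 * C * E * u * X ^ 2 * u ^ 2 := by
      field_simp
    rw [h5]
    refine mul_le_mul_of_nonneg_right ?_ (by positivity)
    have h6 : 1 + Real.exp (X * (z.re - a)) ≤ 18 * E * u * X ^ 2 := by
      have h7 : 1 + Real.exp (X * (z.re - a)) ≤ 2 * (E * (1 + u) * X) := by linarith
      have h8 : E * (1 + u) * X ≤ E * (9 * u) * X := by
        have : 1 + u ≤ 9 * u := by linarith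
        gcongr
      have h9 : E * (9 * u) * X ≤ E * (9 * u) * X ^ 2 := by
        have : X ≤ X ^ 2 := by nlinarith
        gcongr
      linarith
    calc C * (1 + Real.exp (X * (z.re - a))) ≤ C * (18 * E * u * X ^ 2) := by gcongr
      _ = _ := by ring
  have h2 : |cn z.re * cn z.im * (Real.log ‖z‖ - Real.log ‖z - a‖)| ≤ a / u ^ 2 := by
    rcases le_or_gt (1 / 4) |z.im| with h3 | h3
    · rw [cn_zero h3, mul_zero, zero_mul, abs_zero]
      positivity
    · have h4 := log_diff ha hv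
      have h5 : |cn z.re * cn z.im| ≤ 1 := by
        rw [abs_of_nonneg (mul_nonneg (cn_nonneg _) (cn_nonneg _))]
        exact mul_le_one₀ (cn_le_one _) (cn_nonneg _) (cn_le_one _)
      rw [abs_mul]
      have h6 : |cn z.re * cn z.im| * |Real.log ‖z‖ - Real.log ‖z - a‖| ≤ 1 * (8 * a) :=
        mul_le_mul h5 h4 (abs_nonneg _) zero_le_one
      refine h6.trans ?_
      rw [le_div_iff₀ (by positivity)]
      have h7 : u ^ 2 ≤ 1 / 16 := by
        have h8 : u < 1 / 4 := h3
        nlinarith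
      nlinarith
  have h3 : |cy z.re * cv H z.im * S1 κ c (X * (z - a))| ≤ 18 * C * E * (1 / X) / u ^ 2 := by
    have h5 : |cy z.re * cv H z.im| ≤ 1 := by
      rw [abs_of_nonneg (mul_nonneg (cy_nonneg _) (cv_nonneg _ _))]
      exact mul_le_one₀ (cy_le_one _) (cv_nonneg _ _) (cv_le_one _ _)
    rw [abs_mul]
    calc |cy z.re * cv H z.im| * |S1 κ c (X * (z - a))| ≤ 1 * |S1 κ c (X * (z - a))| :=
          mul_le_mul_of_nonneg_right h5 (abs_nonneg _)
      _ ≤ _ := by rw [one_mul]; exact h1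
  refine (abs_add_le _ _).trans ((add_le_add h3 h2).trans ?_)
  rw [← add_div]
  refine div_le_div_of_nonneg_right ?_ (by positivity)
  have h6 : 0 ≤ 18 * C * E := by positivity
  have h7 : 0 ≤ 1 / X := by positivity
  nlinarith

theorem Phi_zero (κ : ℝ → ℝ) (c X a H : ℝ) (z : ℂ) (hX : 0 < X) (hH : 1 ≤ H)
    (hv : 1 / 8 < |z.im|) (h : z.re ≤ -(3 / 10) ∨ 2 * H ≤ |z.im|) : Phi κ c X a H z = 0 := by
  have hv0 : z.im ≠ 0 := by
    intro h
    rw [h, abs_zero] at hv
    linarith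
  rw [Phi_eq κ c X a H z hX hv0]
  rcases h with h | h
  · rw [cy_zero h, cn_zero (u := z.re) (by rw [abs_of_nonpos (by linarith)]; linarith)]
    ring
  · rw [cv_zero (by linarith) h, cn_zero (u := z.im) (by linarith)]
    ring

theorem loglem (C₀ L : ℝ) (hC : 0 ≤ C₀) (h1 : 1 ≤ L) (h2 : (8 * C₀) ^ 4 ≤ L) :
    C₀ * Real.log (1 + L) ≤ Real.sqrt L := by
  set r := Real.sqrt (1 + L) with hr
  set s := Real.sqrt r with hs
  have hr0 : 0 < r := Real.sqrt_pos.mpr (by linarith)
  have hs0 : 0 < s := Real.sqrt_pos.mpr hr0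
  have hr2 : r ^ 2 = 1 + L := Real.sq_sqrt (by linarith)
  have hs2 : s ^ 2 = r := Real.sq_sqrt hr0.le
  have h3 : Real.log (1 + L) = 4 * Real.log s := by
    rw [← hr2, ← hs2, Real.log_pow, Real.log_pow]
    push_cast
    ring
  have h4 : Real.log s ≤ s := (Real.log_le_sub_one_of_pos hs0).trans (by linarith)
  have h5 : 8 * C₀ ≤ s := by
    by_contra h
    push Not at h
    have h6 : s ^ 4 < (8 * C₀) ^ 4 := pow_lt_pow_left₀ h hs0.le (by norm_num)
    have h7 : s ^ 4 = 1 + L := by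
      rw [← hr2, ← hs2]
      ring
    linarith
  have h6 : r ≤ 2 * Real.sqrt L := by
    have h7 : 2 * Real.sqrt L = Real.sqrt (4 * L) := by
      rw [Real.sqrt_mul (by norm_num), show (4 : ℝ) = 2 ^ 2 by norm_num,
        Real.sqrt_sq (by norm_num)]
    rw [h7]
    exact Real.sqrt_le_sqrt (by linarith)
  rw [h3]
  have h7 : C₀ * (4 * Real.log s) ≤ C₀ * (4 * s) := by gcongr
  nlinarith

theorem explem (C₀ L X : ℝ) (hC : 0 ≤ C₀) (h2 : (8 * C₀) ^ 4 ≤ L) (hX : 8 ≤ X)
    (hXL : X ≤ L) (hXC : 4 * C₀ * X ≤ L) : C₀ * X / L * Real.log (1 + L) ≤ Real.log X := by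
  have hL : 8 ≤ L := hX.trans hXL
  have hL0 : 0 < L := by linarith
  have hlog1 : 1 ≤ Real.log X := by
    rw [Real.le_log_iff_exp_le (by linarith)]
    have := Real.exp_one_lt_d9
    linarith
  have hlog2 : 0 ≤ Real.log (1 + L) := Real.log_nonneg (by linarith)
  rw [div_mul_eq_mul_div, div_le_iff₀ hL0]
  rcases le_total X (Real.sqrt L) with h | h
  · have h3 := loglem C₀ L hC (by linarith) h2
    have h4 : Real.sqrt L * Real.sqrt L = L := Real.mul_self_sqrt hL0.le
    calc C₀ * X * Real.log (1 + L) = X * (C₀ * Real.log (1 + L)) := by ring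
      _ ≤ Real.sqrt L * Real.sqrt L := by
          exact mul_le_mul h h3 (by positivity) (Real.sqrt_nonneg _)
      _ = L := h4
      _ ≤ Real.log X * L := by nlinarith
  · have h3 : Real.log L ≤ 2 * Real.log X := by
      have h4 : Real.log (Real.sqrt L) ≤ Real.log X :=
        Real.log_le_log (Real.sqrt_pos.mpr hL0) h
      rw [Real.log_sqrt hL0.le] at h4
      linarith
    have h5 : Real.log (1 + L) ≤ 2 * Real.log L := by
      have h6 : Real.log (1 + L) ≤ Real.log (L ^ 2) :=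
        Real.log_le_log (by linarith) (by nlinarith)
      rw [Real.log_pow] at h6
      exact_mod_cast h6
    have h6 : C₀ * X * Real.log (1 + L) ≤ (L / 4) * Real.log (1 + L) := by
      gcongr
      linarith
    nlinarith

end I_ZF

open I_ZF

theorem ZF_pf (hZct : S_Zct) : S_ZF := by
  intro κ c C _hκ hC1 hC A C₀ hA hC₀
  obtain ⟨C₁, hC₁, hct⟩ := hZct
  set S : ℝ := 64 + 4 * ∑' k : ℤ, 1 / (k : ℝ) ^ 2 with hS
  have hsum : Summable fun k : ℤ => 1 / (k : ℝ) ^ 2 :=
    Real.summable_one_div_int_pow.mpr (by norm_num)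
  have hS1 : 64 ≤ S := by
    have : 0 ≤ ∑' k : ℤ, 1 / (k : ℝ) ^ 2 := tsum_nonneg fun k => by positivity
    linarith
  have hEA : 1 ≤ Real.exp A := Real.one_le_exp hA
  have hK1 : 1 ≤ 18 * C * Real.exp A + 1 := by
    have : 0 ≤ 18 * C * Real.exp A := by positivity
    linarith
  refine ⟨max 1 (4 * C₀), max 16 (Real.exp ((8 * C₀) ^ 4)),
    (18 * C * Real.exp A + 1) * (2 * C₁ * S), le_max_left _ _,
    le_trans (by norm_num) (le_max_left _ _), ?_, ?_⟩
  · have h1 : 1 ≤ 2 * C₁ * S := by nlinarith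
    nlinarith
  intro T hT t ht X a hX hXL ha ha' Z hZ
  have hT16 : 16 ≤ T := (le_max_left _ _).trans hT
  have hT0 : 0 < T := by linarith
  set L := Real.log T with hLdef
  have hLC : (8 * C₀) ^ 4 ≤ L := by
    rw [hLdef, Real.le_log_iff_exp_le hT0]
    exact (le_max_right _ _).trans hT
  have hX0 : 0 < X := by linarith
  have hXL1 : X ≤ L := by
    refine le_trans ?_ hXL
    have := le_max_left (1 : ℝ) (4 * C₀)
    nlinarith
  have hXC : 4 * C₀ * X ≤ L := by
    refine le_trans ?_ hXL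
    have := le_max_right (1 : ℝ) (4 * C₀)
    nlinarith
  have hL8 : 8 ≤ L := hX.trans hXL1
  have hL0 : 0 < L := by linarith
  set s := Real.sqrt T with hs
  have hs4 : 4 ≤ s := by
    rw [hs, Real.le_sqrt (by norm_num) hT0.le]
    linarith
  have hss : s * s = T := Real.mul_self_sqrt hT0.le
  obtain ⟨htT, htT2, hGG⟩ := ht
  have hzim : ∀ ρ : ℂ, (ρ - (1 / 2 + t * Complex.I)).im = ρ.im - t := by
    intro ρ
    simp
  have hzre : ∀ ρ : ℂ, (ρ - (1 / 2 + t * Complex.I)).re = ρ.re - 1 / 2 := by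
    intro ρ
    simp
  -- the zeros which count
  set Z' := Z.filter fun ρ => 1 / 5 ≤ ρ.re ∧ |ρ.im - t| ≤ 2 * s with hZ'
  have hred : ∑ ρ ∈ Z, mz ρ * |Phi κ c X a s (ρ - (1 / 2 + t * Complex.I))| =
      ∑ ρ ∈ Z', mz ρ * |Phi κ c X a s (ρ - (1 / 2 + t * Complex.I))| := by
    rw [hZ', Finset.sum_filter]
    refine Finset.sum_congr rfl fun ρ hρ => ?_
    split_ifs with h
    · rfl
    · obtain ⟨-, h2⟩ := hZ ρ hρ
      rw [Phi_zero κ c X a s _ hX0 (by linarith) (by rw [hzim]; exact h2), abs_zero, mul_zero]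
      rw [hzre, hzim]
      rcases not_and_or.mp h with h3 | h3
      · left
        push Not at h3
        linarith
      · right
        push Not at h3
        exact h3.le
  rw [hred]
  -- the pointwise bound
  have hpt : ∀ ρ ∈ Z', |Phi κ c X a s (ρ - (1 / 2 + t * Complex.I))| ≤
      (18 * C * Real.exp A + 1) * (a + 1 / X) / (ρ.im - t) ^ 2 := by
    intro ρ hρ
    rw [hZ', Finset.mem_filter] at hρ
    obtain ⟨hρZ, hρre, hρim⟩ := hρ
    obtain ⟨hρ0, hρv⟩ := hZ ρ hρZ
    have hρ1 : ρ.re < 1 := by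
      by_contra h
      push Not at h
      exact riemannZeta_ne_zero_of_one_le_re h hρ0
    have hG := hGG ρ hρ0 (by linarith) hρ1
    have h1 := Phi_bound κ c C hC1 hC X a s (Real.exp A) (ρ - (1 / 2 + t * Complex.I)) hX ha
      (by rw [hzim]; exact hρv) hEA (by
        rw [hzre, hzim]
        set u := |ρ.im - t| with hu
        have hu0 : 0 ≤ u := abs_nonneg _
        have h2 : Real.log (1 + u * L) ≤ Real.log (1 + u) + Real.log (1 + L) := by
          rw [← Real.log_mul (by positivity) (by positivity)]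
          refine Real.log_le_log (by positivity) ?_
          nlinarith
        have hlu : 0 ≤ Real.log (1 + u) := Real.log_nonneg (by linarith)
        have hlL : 0 ≤ Real.log (1 + L) := Real.log_nonneg (by linarith)
        have h3 : X * (ρ.re - 1 / 2) ≤ A + Real.log (1 + u) + Real.log X := by
          have h4 : (ρ.re - 1 / 2) * L ≤ A + C₀ * (Real.log (1 + u) + Real.log (1 + L)) := by
            refine hG.trans ?_
            gcongr
          have h5 : ρ.re - 1 / 2 ≤ (A + C₀ * (Real.log (1 + u) + Real.log (1 + L))) / L := by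
            rw [le_div_iff₀ hL0]
            exact h4
          have h6 : X * (ρ.re - 1 / 2) ≤
              X * ((A + C₀ * (Real.log (1 + u) + Real.log (1 + L))) / L) := by gcongr
          refine h6.trans ?_
          have h7 : X * ((A + C₀ * (Real.log (1 + u) + Real.log (1 + L))) / L) =
              X / L * A + C₀ * X / L * Real.log (1 + u) + C₀ * X / L * Real.log (1 + L) := by
            field_simp
            ring
          rw [h7]
          have h8 : X / L ≤ 1 := (div_le_one hL0).mpr hXL1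
          have h9 : C₀ * X / L ≤ 1 := by
            rw [div_le_one hL0]
            have : 0 ≤ C₀ * X := by positivity
            linarith
          have h10 := explem C₀ L X hC₀ hLC hX hXL1 hXC
          have h11 : X / L * A ≤ 1 * A := by gcongr
          have h12 : C₀ * X / L * Real.log (1 + u) ≤ 1 * Real.log (1 + u) := by gcongr
          linarith
        refine (Real.exp_le_exp.mpr h3).trans ?_
        rw [Real.exp_add, Real.exp_add, Real.exp_log (by positivity), Real.exp_log hX0])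
    rw [hzim] at h1
    exact h1
  -- grouping
  set K₁ := (18 * C * Real.exp A + 1) * (a + 1 / X) with hK₁
  have hK₁0 : 0 ≤ K₁ := by positivity
  have hmz : ∀ ρ : ℂ, 0 ≤ mz ρ := fun ρ => Nat.cast_nonneg _
  set f : ℂ → ℤ := fun ρ => round (ρ.im - t) with hf
  have hgroup : ∑ ρ ∈ Z', mz ρ * |Phi κ c X a s (ρ - (1 / 2 + t * Complex.I))| =
      ∑ k ∈ Z'.image f, ∑ ρ ∈ Z' with f ρ = k,
        mz ρ * |Phi κ c X a s (ρ - (1 / 2 + t * Complex.I))| :=
    (Finset.sum_fiberwise_of_maps_to (fun ρ hρ => Finset.mem_image_of_mem f hρ) _).symm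
  rw [hgroup]
  have hfib : ∀ k ∈ Z'.image f, ∑ ρ ∈ Z' with f ρ = k,
      mz ρ * |Phi κ c X a s (ρ - (1 / 2 + t * Complex.I))| ≤
      K₁ * (2 * C₁ * L) * ((if k = 0 then 64 else 0) + 4 * (1 / (k : ℝ) ^ 2)) := by
    intro k hk
    obtain ⟨ρ₀, hρ₀, hk₀⟩ := Finset.mem_image.mp hk
    have hkb : |(k : ℝ)| ≤ 2 * s + 1 / 2 := by
      rw [hZ', Finset.mem_filter] at hρ₀
      have h1 := abs_sub_round (ρ₀.im - t)
      have h2 : ((round (ρ₀.im - t) : ℤ) : ℝ) = (k : ℝ) := by rw [← hk₀]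
      rw [h2] at h1
      have h3 := abs_sub_abs_le_abs_sub (k : ℝ) (ρ₀.im - t)
      rw [abs_sub_comm (k : ℝ) (ρ₀.im - t)] at h3
      linarith [hρ₀.2.2]
    rw [abs_le] at hkb
    have htk : 4 ≤ |t + k| ∧ Real.log |t + k| ≤ 2 * L := by
      have h1 : 4 ≤ t + k := by nlinarith
      have h2 : t + k ≤ T ^ 2 := by nlinarith
      rw [abs_of_pos (by linarith)]
      refine ⟨h1, ?_⟩
      have h3 := Real.log_le_log (by linarith) h2
      rw [Real.log_pow] at h3
      exact_mod_cast h3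
    have hcount : ∑ ρ ∈ Z' with f ρ = k, mz ρ ≤ C₁ * (2 * L) := by
      refine (hct (t + k) htk.1 _ ?_).trans ?_
      · intro ρ hρ
        rw [Finset.mem_filter, hZ', Finset.mem_filter] at hρ
        obtain ⟨⟨hρZ, hρre, -⟩, hρk⟩ := hρ
        refine ⟨(hZ ρ hρZ).1, hρre, ?_⟩
        have h1 := abs_sub_round (ρ.im - t)
        have h2 : ((round (ρ.im - t) : ℤ) : ℝ) = (k : ℝ) := by rw [← hρk]
        rw [h2] at h1
        rwa [← sub_sub]
      · gcongr
        exact htk.2
    have hw : ∀ ρ ∈ Z'.filter (fun ρ => f ρ = k), 1 / (ρ.im - t) ^ 2 ≤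
        (if k = 0 then 64 else 0) + 4 * (1 / (k : ℝ) ^ 2) := by
      intro ρ hρ
      rw [Finset.mem_filter, hZ', Finset.mem_filter] at hρ
      obtain ⟨⟨hρZ, hρre, -⟩, hρk⟩ := hρ
      have hv := (hZ ρ hρZ).2
      have h1 := abs_sub_round (ρ.im - t)
      have h2 : ((round (ρ.im - t) : ℤ) : ℝ) = (k : ℝ) := by rw [← hρk]
      rw [h2] at h1
      set v := ρ.im - t with hvdef
      have hv2 : v ^ 2 = |v| ^ 2 := (sq_abs _).symm
      split_ifs with h0
      · have h3 : 1 / v ^ 2 ≤ 64 := by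
          rw [hv2, div_le_iff₀ (by positivity)]
          nlinarith
        have h4 : 0 ≤ 4 * (1 / (k : ℝ) ^ 2) := by positivity
        linarith
      · have hk1 : 1 ≤ |(k : ℝ)| := by
          have : 1 ≤ |k| := Int.one_le_abs h0
          exact_mod_cast this
        have h3 : |(k : ℝ)| - |v| ≤ 1 / 2 := by
          have h4 := abs_sub_abs_le_abs_sub (k : ℝ) v
          rw [abs_sub_comm (k : ℝ) v] at h4
          linarith
        have h4 : |(k : ℝ)| / 2 ≤ |v| := by linarith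
        have hk2 : (k : ℝ) ^ 2 = |(k : ℝ)| ^ 2 := (sq_abs _).symm
        rw [zero_add, hv2, hk2, ← mul_div_assoc, mul_one, div_le_div_iff₀ (by positivity)
          (by positivity)]
        nlinarith
    set W : ℝ := (if k = 0 then 64 else 0) + 4 * (1 / (k : ℝ) ^ 2) with hW
    have hW0 : 0 ≤ W := by
      rw [hW]
      split_ifs <;> positivity
    calc ∑ ρ ∈ Z' with f ρ = k, mz ρ * |Phi κ c X a s (ρ - (1 / 2 + t * Complex.I))|
        ≤ ∑ ρ ∈ Z' with f ρ = k, mz ρ * (K₁ * W) := by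
          refine Finset.sum_le_sum fun ρ hρ => ?_
          refine mul_le_mul_of_nonneg_left ?_ (hmz ρ)
          refine (hpt ρ (Finset.mem_filter.mp hρ).1).trans ?_
          have h1 := hw ρ hρ
          calc K₁ / (ρ.im - t) ^ 2 = K₁ * (1 / (ρ.im - t) ^ 2) := by ring
            _ ≤ K₁ * W := by gcongr
      _ = (∑ ρ ∈ Z' with f ρ = k, mz ρ) * (K₁ * W) := by rw [Finset.sum_mul]
      _ ≤ (C₁ * (2 * L)) * (K₁ * W) := by gcongr
      _ = K₁ * (2 * C₁ * L) * W := by ring
  refine (Finset.sum_le_sum hfib).trans ?_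
  rw [← Finset.mul_sum, Finset.sum_add_distrib, ← Finset.mul_sum]
  have hA1 : ∑ k ∈ Z'.image f, (if k = 0 then (64 : ℝ) else 0) ≤ 64 := by
    rw [Finset.sum_ite_eq']
    split_ifs <;> norm_num
  have hA2 : ∑ k ∈ Z'.image f, 1 / (k : ℝ) ^ 2 ≤ ∑' k : ℤ, 1 / (k : ℝ) ^ 2 :=
    hsum.sum_le_tsum _ fun k _ => by positivity
  have hA3 : ∑ k ∈ Z'.image f, (if k = 0 then (64 : ℝ) else 0) +
      4 * ∑ k ∈ Z'.image f, 1 / (k : ℝ) ^ 2 ≤ S := by linarith
  calc K₁ * (2 * C₁ * L) * (∑ k ∈ Z'.image f, (if k = 0 then (64 : ℝ) else 0) +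
      4 * ∑ k ∈ Z'.image f, 1 / (k : ℝ) ^ 2) ≤ K₁ * (2 * C₁ * L) * S := by gcongr
    _ = (18 * C * Real.exp A + 1) * (2 * C₁ * S) * L * (a + 1 / X) := by rw [hK₁]; ring

end Pool.Agent.Work.MP_56b8f5_nt.HZ
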