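import Pool.Agent.Work.MP_56b8f5_nt.HZ.StmtsV
import Pool.Agent.Work.MP_56b8f5_nt.HZ.I_ZN
import Pool.Agent.Work.MP_56b8f5_nt.HZ.I_ZF

/-!
MP_56b8f5_nt, block HZ, part V, item ZNV: near zeros.
-/

set_option autoImplicit false

open MeasureTheory Set Filter Topology

noncomputable section

namespace Pool.Agent.Work.MP_56b8f5_nt.HZ

open Pool.Agent.Work.MP_56b8f5_nt.EM Pool.Agent.Work.MP_56b8f5_nt.WM Pool.Agent.Work.MP_56b8f5_nt.SH

namespace V_ZN

theorem Phi_eqV {κ : ℝ → ℝ} {c X a H : ℝ} {z : ℂ} (hy : |z.re| ≤ 1 / 8) (hv : |z.im| ≤ 1 / 8)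
    (hH : 1 ≤ H) :
    Phi κ c X a H z = (Hh κ (X * (z - a))).re + Real.log X - c + Real.log ‖z‖ := by
  have h1 : |z.im / H| ≤ 1 := by
    rw [abs_div, abs_of_pos (show (0 : ℝ) < H by linarith),
      div_le_one (show (0 : ℝ) < H by linarith)]
    linarith
  have h2 : |8 * z.re| ≤ 1 := by
    rw [abs_mul, abs_of_pos (show (0 : ℝ) < 8 by norm_num)]
    linarith
  have h3 : |8 * z.im| ≤ 1 := by
    rw [abs_mul, abs_of_pos (show (0 : ℝ) < 8 by norm_num)]
    linarith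
  have h4 : cy z.re = 1 := by
    have := abs_le.1 hy
    unfold cy
    rw [Real.smoothTransition.one_of_one_le (by linarith),
      Real.smoothTransition.one_of_one_le (by linarith), one_mul]
  unfold Phi cv cn
  rw [h4, I_ZN.cut_one h1, I_ZN.cut_one h2, I_ZN.cut_one h3]
  ring

theorem Phi_eqS (κ : ℝ → ℝ) (c X a H : ℝ) (z : ℂ) (hX : 0 < X) (h1 : z - a ≠ 0) :
    Phi κ c X a H z = cy z.re * cv H z.im * S1 κ c (X * (z - a)) +
      cn z.re * cn z.im * (Real.log ‖z‖ - Real.log ‖z - a‖) := by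
  have h2 : Real.log ‖(X : ℂ) * (z - a)‖ = Real.log X + Real.log ‖z - a‖ := by
    rw [norm_mul, Complex.norm_real, Real.norm_of_nonneg hX.le,
      Real.log_mul hX.ne' (norm_ne_zero_iff.mpr h1)]
  unfold Phi S1
  rw [h2]
  ring

/-- one near zero, far to the left -/
theorem Phi_left (κ : ℝ → ℝ) (c C : ℝ) (hC1 : 1 ≤ C) (hC : IsC κ c C) (X a H : ℝ) (z : ℂ)
    (hX : 32 ≤ X) (ha : 0 < a) (hz : z.re ≤ -(1 / 32)) :
    Phi κ c X a H z ≤ 32768 * C / X := by
  have hX0 : 0 < X := by linarith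
  have hza : z - a ≠ 0 := by
    intro h
    have := congrArg Complex.re h
    simp at this
    linarith
  rw [Phi_eqS κ c X a H z hX0 hza]
  set w : ℂ := (X : ℂ) * (z - a) with hw
  have hre : w.re = X * (z.re - a) := by simp [hw]
  have hre1 : w.re ≤ -(X / 32) := by
    rw [hre]
    nlinarith
  have hw1 : w.re ≤ -1 := by linarith
  have hn : X / 32 ≤ ‖w‖ := by
    have := Complex.abs_re_le_norm w
    rw [abs_of_nonpos (by linarith)] at this
    linarith
  have hS : |S1 κ c w| ≤ 32768 * C / X := by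
    refine ((hC w).2.1 hw1).trans ?_
    have h3 : (X / 32) ^ 3 ≤ ‖w‖ ^ 3 := pow_le_pow_left₀ (by positivity) hn 3
    calc C / ‖w‖ ^ 3 ≤ C / (X / 32) ^ 3 :=
          div_le_div_of_nonneg_left (by linarith) (by positivity) h3
      _ = 32768 * C / X ^ 3 := by
          field_simp
          ring
      _ ≤ 32768 * C / X := by
          apply div_le_div_of_nonneg_left (by positivity) hX0
          have : 1 ≤ X ^ 2 := by nlinarith
          nlinarith
  have h1 : cy z.re * cv H z.im * S1 κ c w ≤ 32768 * C / X := by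
    have h5 : |cy z.re * cv H z.im| ≤ 1 := by
      rw [abs_of_nonneg (mul_nonneg (I_ZF.cy_nonneg _) (I_ZF.cv_nonneg _ _))]
      exact mul_le_one₀ (I_ZF.cy_le_one _) (I_ZF.cv_nonneg _ _) (I_ZF.cv_le_one _ _)
    refine (le_abs_self _).trans ?_
    rw [abs_mul]
    calc |cy z.re * cv H z.im| * |S1 κ c w| ≤ 1 * |S1 κ c w| :=
          mul_le_mul_of_nonneg_right h5 (abs_nonneg _)
      _ ≤ _ := by rw [one_mul]; exact hS
  have h2 : cn z.re * cn z.im * (Real.log ‖z‖ - Real.log ‖z - a‖) ≤ 0 := by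
    refine mul_nonpos_of_nonneg_of_nonpos (mul_nonneg (I_ZF.cn_nonneg _) (I_ZF.cn_nonneg _)) ?_
    have hz0 : 0 < ‖z‖ := by
      rw [norm_pos_iff]
      intro h
      rw [h, Complex.zero_re] at hz
      linarith
    have h3 : ‖z‖ ≤ ‖z - a‖ := by
      rw [Complex.norm_def, Complex.norm_def]
      refine Real.sqrt_le_sqrt ?_
      rw [Complex.normSq_apply, Complex.normSq_apply]
      simp only [Complex.sub_re, Complex.ofReal_re, Complex.sub_im, Complex.ofReal_im, sub_zero]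
      nlinarith
    linarith [Real.log_le_log hz0 h3]
  linarith

end V_ZN

open V_ZN in
theorem ZNV_pf (hZ : S_Zsy) (hP : S_PairV) (hct : S_Zct) : S_ZNV := by
  intro κ c C hκ hC hIC
  obtain ⟨lam₀, hl0, hlam⟩ := hP κ c C hκ hC hIC
  obtain ⟨C₂, hC₂, hct⟩ := hct
  refine ⟨lam₀, 32768 * C * (2 * C₂), hl0, by positivity, fun lam hl A C₀ hA hC₀ => ?_⟩
  obtain ⟨m₀, hm₀, hpair⟩ := hlam lam hl A C₀ hA hC₀
  obtain ⟨L₀, hL₀, hsmall⟩ := I_ZN.log_small (2 * A) (2 * C₀) (by linarith)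
  refine ⟨max m₀ L₀, hm₀.trans (le_max_left _ _),
    fun T lg hT16 t ht η hη0 hη1 hne X a hX32 hmX' hla ha0 ha16 Z hZZ => ?_⟩
  have hX : 1 ≤ X := by linarith
  have hTp : 0 < T := by linarith
  have hmX : m₀ * X ≤ lg := (mul_le_mul_of_nonneg_right (le_max_left _ _) (by linarith)).trans hmX'
  have hTL : L₀ ≤ lg := by
    have h1 : L₀ * X ≤ lg := (mul_le_mul_of_nonneg_right (le_max_right _ _) (by linarith)).trans hmX'
    nlinarith
  have hH : 1 ≤ Real.sqrt T := Real.one_le_sqrt.2 (by linarith)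
  have hLp : 0 < lg := by linarith
  have hLT : 0 < Real.log T := Real.log_pos (by linarith)
  have hre : ∀ ρ : ℂ, (1 - (starRingEnd ℂ) ρ).re = 1 - ρ.re := fun ρ => by simp
  have him : ∀ ρ : ℂ, (1 - (starRingEnd ℂ) ρ).im = ρ.im := fun ρ => by simp
  have hfact : ∀ ρ ∈ Z, 0 < ρ.re ∧ ρ.re < 1 ∧
      |ρ.re - 1 / 2| * lg ≤ A + C₀ * Real.log (1 + |ρ.im - t| * lg) ∧
      |ρ.re - 1 / 2| ≤ 1 / 32 ∧ |ρ.im - t| ≤ 1 / 8 := by
    intro ρ hρ
    obtain ⟨h1, h2, h3⟩ := (hZZ ρ).1 hρ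
    have hr0 : 0 < ρ.re := by linarith
    have hr1 : ρ.re < 1 := by
      by_contra hcon
      exact riemannZeta_ne_zero_of_one_le_re (not_lt.1 hcon) h1
    have g1 := ht.2.2 ρ h1 hr0 hr1
    have g2 := ht.2.2 (1 - (starRingEnd ℂ) ρ) ((hZ ρ hr0 hr1).2.1 h1)
      (by rw [hre]; linarith) (by rw [hre]; linarith)
    rw [hre, him] at g2
    have g3 : |ρ.re - 1 / 2| * lg ≤
        A + C₀ * Real.log (1 + |ρ.im - t| * lg) := by
      rcases abs_cases (ρ.re - 1 / 2) with ⟨h, _⟩ | ⟨h, _⟩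
      · rw [h]; exact g1
      · rw [h]
        have : -(ρ.re - 1 / 2) * lg = (1 - ρ.re - 1 / 2) * lg := by ring
        rw [this]; exact g2
    refine ⟨hr0, hr1, g3, ?_, h3⟩
    have g4 : Real.log (1 + |ρ.im - t| * lg) ≤ Real.log (1 + lg) := by
      refine Real.log_le_log (by positivity) ?_
      have : |ρ.im - t| * lg ≤ 1 * lg :=
        mul_le_mul_of_nonneg_right (by linarith) hLp.le
      linarith
    have g5 := hsmall _ hTL
    have g6 := mul_le_mul_of_nonneg_left g4 hC₀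
    have g7 : |ρ.re - 1 / 2| * lg ≤ 1 / 32 * lg := by linarith
    exact le_of_mul_le_mul_right g7 hLp
  have hmz : ∀ ρ : ℂ, 0 ≤ mz ρ := fun ρ => Nat.cast_nonneg _
  have e1 : ∀ ρ : ℂ, ρ - (1 / 2 + η + t * Complex.I) =
      ((ρ.re - 1 / 2 - η : ℝ) : ℂ) + ((ρ.im - t : ℝ) : ℂ) * Complex.I := by
    intro ρ
    apply Complex.ext
    · simp
      ring
    · simp
  have e2 : ∀ ρ : ℂ, 1 - (starRingEnd ℂ) ρ - (1 / 2 + η + t * Complex.I) =
      ((-(ρ.re - 1 / 2) - η : ℝ) : ℂ) + ((ρ.im - t : ℝ) : ℂ) * Complex.I := by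
    intro ρ
    apply Complex.ext
    · simp
      ring
    · simp
  rcases le_or_gt η (1 / 16) with hη | hη
  · -- the pairs
    have hσ : ∀ ρ ∈ Z, 1 - (starRingEnd ℂ) ρ ∈ Z := by
      intro ρ hρ
      obtain ⟨f1, f2, f3, f4, f5⟩ := hfact ρ hρ
      rw [hZZ]
      refine ⟨(hZ ρ f1 f2).2.1 ((hZZ ρ).1 hρ).1, ?_, ?_⟩
      · have := abs_le.1 f4
        rw [hre]
        linarith
      · rw [him]; exact f5
    have hsum : ∑ ρ ∈ Z, mz ρ * Phi κ c X a (Real.sqrt T) (ρ - (1 / 2 + η + t * Complex.I)) =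
        ∑ ρ ∈ Z, mz ρ * Phi κ c X a (Real.sqrt T)
          (1 - (starRingEnd ℂ) ρ - (1 / 2 + η + t * Complex.I)) := by
      refine Finset.sum_nbij' (fun ρ => 1 - (starRingEnd ℂ) ρ) (fun ρ => 1 - (starRingEnd ℂ) ρ)
        hσ hσ (fun ρ _ => by simp) (fun ρ _ => by simp) ?_
      intro ρ hρ
      obtain ⟨f1, f2, f3, f4, f5⟩ := hfact ρ hρ
      have : 1 - (starRingEnd ℂ) (1 - (starRingEnd ℂ) ρ) = ρ := by simp
      rw [this, (hZ ρ f1 f2).1]
    have hle : ∑ ρ ∈ Z, mz ρ * Phi κ c X a (Real.sqrt T) (ρ - (1 / 2 + η + t * Complex.I)) +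
        ∑ ρ ∈ Z, mz ρ * Phi κ c X a (Real.sqrt T)
          (1 - (starRingEnd ℂ) ρ - (1 / 2 + η + t * Complex.I)) ≤ 0 := by
      rw [← Finset.sum_add_distrib]
      refine Finset.sum_nonpos fun ρ hρ => ?_
      rw [← mul_add]
      refine mul_nonpos_of_nonneg_of_nonpos (hmz ρ) ?_
      obtain ⟨f1, f2, f3, f4, f5⟩ := hfact ρ hρ
      have hnz : ¬(|ρ.re - 1 / 2| = η ∧ ρ.im - t = 0) := by
        rintro ⟨u1, u2⟩
        apply hne
        rcases abs_cases (ρ.re - 1 / 2) with ⟨h, _⟩ | ⟨h, _⟩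
        · have : (1 / 2 + η + t * Complex.I : ℂ) = ρ := by
            have e3 : ρ - (1 / 2 + η + t * Complex.I) = 0 := by
              rw [e1, u2]
              have : ρ.re - 1 / 2 - η = 0 := by linarith
              rw [this]; simp
            exact (sub_eq_zero.1 e3).symm
          rw [this]
          exact ((hZZ ρ).1 hρ).1
        · have : (1 / 2 + η + t * Complex.I : ℂ) = 1 - (starRingEnd ℂ) ρ := by
            have e3 : 1 - (starRingEnd ℂ) ρ - (1 / 2 + η + t * Complex.I) = 0 := by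
              rw [e2, u2]
              have : -(ρ.re - 1 / 2) - η = 0 := by linarith
              rw [this]; simp
            exact (sub_eq_zero.1 e3).symm
          rw [this]
          exact (hZ ρ f1 f2).2.1 ((hZZ ρ).1 hρ).1
      have hp := hpair lg X a η (ρ.re - 1 / 2) (ρ.im - t) hX hmX hla hη0 f3 hnz
      have f4' := abs_le.1 f4
      rw [Phi_eqV (z := ρ - (1 / 2 + η + t * Complex.I))
          (by rw [e1]; simp; rw [abs_le]; constructor <;> linarith)
          (by rw [e1]; simpa using f5) hH,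
        Phi_eqV (z := 1 - (starRingEnd ℂ) ρ - (1 / 2 + η + t * Complex.I))
          (by rw [e2]; simp; rw [abs_le]; constructor <;> linarith)
          (by rw [e2]; simpa using f5) hH]
      rw [e1, e2]
      linarith
    have h0 : 0 ≤ 32768 * C * (2 * C₂) * Real.log T / X := by positivity
    linarith
  · -- one by one
    have h1 : ∀ ρ ∈ Z, mz ρ * Phi κ c X a (Real.sqrt T) (ρ - (1 / 2 + η + t * Complex.I)) ≤
        mz ρ * (32768 * C / X) := by
      intro ρ hρ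
      obtain ⟨f1, f2, f3, f4, f5⟩ := hfact ρ hρ
      have f4' := abs_le.1 f4
      refine mul_le_mul_of_nonneg_left ?_ (hmz ρ)
      refine Phi_left κ c C hC hIC X a _ _ hX32 ha0 ?_
      rw [e1]
      simp
      linarith
    have htT := ht.1
    have ht2 := ht.2.1
    have h2 : ∑ ρ ∈ Z, mz ρ ≤ C₂ * (2 * Real.log T) := by
      refine (hct t (by rw [abs_of_pos (by linarith)]; linarith) Z ?_).trans ?_
      · intro ρ hρ
        obtain ⟨h1, h2, h3⟩ := (hZZ ρ).1 hρ
        exact ⟨h1, h2, by linarith⟩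
      · rw [abs_of_pos (by linarith)]
        refine mul_le_mul_of_nonneg_left ?_ (by linarith)
        have h3 : t ≤ T ^ 2 := by nlinarith
        have h4 := Real.log_le_log (by linarith : 0 < t) h3
        rw [Real.log_pow] at h4
        exact_mod_cast h4
    calc ∑ ρ ∈ Z, mz ρ * Phi κ c X a (Real.sqrt T) (ρ - (1 / 2 + η + t * Complex.I))
        ≤ ∑ ρ ∈ Z, mz ρ * (32768 * C / X) := Finset.sum_le_sum h1
      _ = (∑ ρ ∈ Z, mz ρ) * (32768 * C / X) := by rw [Finset.sum_mul]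
      _ ≤ (C₂ * (2 * Real.log T)) * (32768 * C / X) :=
          mul_le_mul_of_nonneg_right h2 (by positivity)
      _ = 32768 * C * (2 * C₂) * Real.log T / X := by ring

end Pool.Agent.Work.MP_56b8f5_nt.HZ
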