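import Pool.Agent.Work.MP_56b8f5_nt.HZ.StmtsA

/-!
MP_56b8f5_nt, block HZ, item Zl1: the logarithm of zeta in the mean.
-/

set_option autoImplicit false

open MeasureTheory Set Filter Topology Metric Real
open scoped ENNReal

noncomputable section

namespace Pool.Agent.Work.MP_56b8f5_nt.HZ

open Pool.Agent.Work.MP_56b8f5_nt.EM Pool.Agent.Work.MP_56b8f5_nt.WM Pool.Agent.Work.MP_56b8f5_nt.SH

namespace I_Zl1

lemma jensen_ge {f : ℂ → ℂ} {c : ℂ} {r : ℝ} (hr : 0 < r)
    (hf : AnalyticOnNhd ℂ f (closedBall c r)) (hc : f c ≠ 0) :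
    Real.log ‖f c‖ ≤ circleAverage (fun z => Real.log ‖f z‖) c r := by
  have hf' : AnalyticOnNhd ℂ f (closedBall c |r|) := by rwa [abs_of_pos hr]
  rw [hf'.circleAverage_log_norm hr.ne' hc]
  have h0 : 0 ≤ ∑ᶠ u, ((MeromorphicOn.divisor f (closedBall c |r|) u : ℤ) : ℝ) *
      Real.log (r * ‖c - u‖⁻¹) := by
    refine finsum_nonneg fun u => ?_
    by_cases hu : u ∈ closedBall c |r|
    · refine mul_nonneg ?_ ?_
      · have := MeromorphicOn.AnalyticOnNhd.divisor_nonneg hf'
        exact_mod_cast this u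
      · by_cases h1 : c = u
        · rw [h1, sub_self, norm_zero, inv_zero, mul_zero, Real.log_zero]
        · have h2 : 0 < ‖c - u‖ := norm_pos_iff.2 (sub_ne_zero.2 h1)
          refine Real.log_nonneg ?_
          rw [← div_eq_mul_inv, le_div_iff₀ h2, one_mul, norm_sub_rev]
          rwa [mem_closedBall, dist_eq_norm, abs_of_pos hr] at hu
    · rw [Function.locallyFinsuppWithin.apply_eq_zero_of_notMem _ hu, Int.cast_zero, zero_mul]
  linarith

/-- the integral over a circle -/
lemma circle_le {f : ℂ → ℂ} {c : ℂ} {r M m : ℝ} (hr : 0 < r)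
    (hf : AnalyticOnNhd ℂ f (closedBall c r)) (hc : f c ≠ 0)
    (hM : ∀ z ∈ closedBall c r, Real.log ‖f z‖ ≤ M) (hm : -m ≤ Real.log ‖f c‖) :
    ∫⁻ θ in Ioo (-π) π, ENNReal.ofReal (M - Real.log ‖f (circleMap c r θ)‖) ≤
      ENNReal.ofReal (2 * π * (M + m)) := by
  have hpi := Real.pi_pos
  have hci : CircleIntegrable (fun z => Real.log ‖f z‖) c r := by
    refine MeromorphicOn.circleIntegrable_log_norm_of_nonneg ?_ hr.le
    exact (hf.mono sphere_subset_closedBall).meromorphicOn
  have hper : Function.Periodic (fun θ => Real.log ‖f (circleMap c r θ)‖) (2 * π) := fun θ => by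
    show Real.log ‖f (circleMap c r (θ + 2 * π))‖ = _
    rw [periodic_circleMap c r θ]
  have hint : IntervalIntegrable (fun θ => Real.log ‖f (circleMap c r θ)‖) volume (-π) π :=
    hper.intervalIntegrable (by positivity) (t := 0) (by rw [zero_add]; exact hci) _ _
  have hint2 : IntervalIntegrable (fun θ => M - Real.log ‖f (circleMap c r θ)‖) volume (-π) π :=
    intervalIntegrable_const.sub hint
  have h1 : ∫ θ in (-π)..π, (M - Real.log ‖f (circleMap c r θ)‖) =
      2 * π * (M - circleAverage (fun z => Real.log ‖f z‖) c r) := by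
    rw [intervalIntegral.integral_sub intervalIntegrable_const hint,
      intervalIntegral.integral_const, smul_eq_mul]
    have h2 : ∫ θ in (-π)..π, Real.log ‖f (circleMap c r θ)‖ =
        ∫ θ in 0..(2 * π), Real.log ‖f (circleMap c r θ)‖ := by
      have := hper.intervalIntegral_add_eq (-π) 0
      rw [show -π + 2 * π = π by ring, zero_add] at this
      exact this
    rw [h2, circleAverage_def, smul_eq_mul]
    field_simp
    ring
  have h2 := jensen_ge hr hf hc
  have hnn : ∀ θ, 0 ≤ M - Real.log ‖f (circleMap c r θ)‖ := fun θ =>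
    sub_nonneg.2 (hM _ (circleMap_mem_closedBall c hr.le θ))
  have h3 : ∫⁻ θ in Ioo (-π) π, ENNReal.ofReal (M - Real.log ‖f (circleMap c r θ)‖) =
      ENNReal.ofReal (∫ θ in (-π)..π, (M - Real.log ‖f (circleMap c r θ)‖)) := by
    rw [intervalIntegral.integral_of_le (by linarith), integral_Ioc_eq_integral_Ioo,
      ofReal_integral_eq_lintegral_ofReal]
    · have := (intervalIntegrable_iff_integrableOn_Ioo_of_le (by linarith)).1 hint2
      exact this
    · exact Filter.Eventually.of_forall hnn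
  rw [h3, h1]
  apply ENNReal.ofReal_le_ofReal
  have : M - circleAverage (fun z => Real.log ‖f z‖) c r ≤ M + m := by linarith
  exact mul_le_mul_of_nonneg_left this (by positivity)

/-- the integral over a disc -/
lemma disc_le {f : ℂ → ℂ} {c : ℂ} {R M m : ℝ} (hR : 0 < R)
    (hf : AnalyticOnNhd ℂ f (closedBall c R)) (hc : f c ≠ 0)
    (hM : ∀ z ∈ closedBall c R, Real.log ‖f z‖ ≤ M) (hm : -m ≤ Real.log ‖f c‖) :
    ∫⁻ z in ball c R, ENNReal.ofReal (M - Real.log ‖f z‖) ≤
      ENNReal.ofReal (R * (R * (2 * π * (M + m)))) := by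
  set F : ℂ → ℝ≥0∞ := (ball c R).indicator fun z => ENNReal.ofReal (M - Real.log ‖f z‖) with hF
  have h1 : ∫⁻ z in ball c R, ENNReal.ofReal (M - Real.log ‖f z‖) = ∫⁻ z, F z :=
    (lintegral_indicator measurableSet_ball _).symm
  have h2 : ∫⁻ z, F z = ∫⁻ z, F (z + c) := (lintegral_add_right_eq_self F c).symm
  have h3 := Complex.lintegral_comp_polarCoord_symm (fun z => F (z + c))
  have h4 : ∀ r : ℝ, 0 < r → ∫⁻ θ in Ioo (-π) π, ENNReal.ofReal r • F (Complex.polarCoord.symm (r, θ) + c) ≤
      (Ioo 0 R).indicator (fun _ => ENNReal.ofReal (R * (2 * π * (M + m)))) r := by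
    intro r hr
    have e1 : ∀ θ : ℝ, Complex.polarCoord.symm (r, θ) + c = circleMap c r θ := by
      intro θ
      rw [Complex.polarCoord_symm_apply, circleMap, Complex.exp_mul_I, add_comm]
      push_cast
      rfl
    simp only [e1]
    by_cases hrR : r < R
    · rw [indicator_of_mem (show r ∈ Ioo 0 R from ⟨hr, hrR⟩)]
      have e2 : ∀ θ : ℝ, F (circleMap c r θ) =
          ENNReal.ofReal (M - Real.log ‖f (circleMap c r θ)‖) := by
        intro θ
        rw [hF, indicator_of_mem]
        rw [mem_ball, dist_eq_norm, circleMap_sub_center, norm_circleMap_zero, abs_of_pos hr]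
        exact hrR
      simp only [e2, smul_eq_mul]
      rw [lintegral_const_mul' _ _ ENNReal.ofReal_ne_top, ENNReal.ofReal_mul hR.le]
      refine mul_le_mul' (ENNReal.ofReal_le_ofReal hrR.le) ?_
      exact circle_le hr (hf.mono (closedBall_subset_closedBall hrR.le)) hc
        (fun z hz => hM z (closedBall_subset_closedBall hrR.le hz)) hm
    · rw [indicator_of_notMem (fun h => hrR h.2)]
      have e2 : ∀ θ : ℝ, F (circleMap c r θ) = 0 := by
        intro θ
        rw [hF, indicator_of_notMem]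
        rw [mem_ball, dist_eq_norm, circleMap_sub_center, norm_circleMap_zero, abs_of_pos hr]
        exact hrR
      simp only [e2, smul_zero, lintegral_zero, le_refl]
  have htg : polarCoord.target = Ioi (0 : ℝ) ×ˢ Ioo (-π) π := rfl
  rw [h1, h2, ← h3, htg, Measure.volume_eq_prod, ← Measure.prod_restrict]
  refine (lintegral_prod_le _).trans ?_
  have h5 : ∫⁻ r in Ioi (0 : ℝ), ∫⁻ θ in Ioo (-π) π,
      ENNReal.ofReal (r, θ).1 • F (Complex.polarCoord.symm (r, θ) + c) ≤
      ∫⁻ r in Ioi (0 : ℝ), (Ioo 0 R).indicator (fun _ => ENNReal.ofReal (R * (2 * π * (M + m)))) r :=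
    setLIntegral_mono' measurableSet_Ioi fun r hr => h4 r hr
  refine h5.trans ?_
  refine (setLIntegral_le_lintegral _ _).trans ?_
  rw [lintegral_indicator measurableSet_Ioo, lintegral_const, Measure.restrict_apply_univ,
    Real.volume_Ioo, sub_zero, mul_comm, ENNReal.ofReal_mul hR.le, ENNReal.ofReal_mul hR.le,
    ENNReal.ofReal_mul hR.le]

lemma zeta_two (t : ℝ) : 1 / 4 ≤ ‖riemannZeta (2 + t * Complex.I)‖ := by
  have hre : (2 + t * Complex.I : ℂ).re = 2 := by simp
  have h1 := zeta_eq_tsum_one_div_nat_add_one_cpow (s := 2 + t * Complex.I) (by rw [hre]; norm_num)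
  have hn : ∀ n : ℕ, ‖1 / ((n : ℂ) + 1) ^ (2 + t * Complex.I : ℂ)‖ = 1 / ((n : ℝ) + 1) ^ 2 := by
    intro n
    rw [norm_div, norm_one]
    have : ((n : ℂ) + 1) = ((n + 1 : ℕ) : ℂ) := by push_cast; ring
    rw [this, Complex.norm_natCast_cpow_of_pos (by omega), hre]
    norm_cast
  have hz2 : HasSum (fun n : ℕ => 1 / ((n : ℝ) + 1) ^ 2) (Real.pi ^ 2 / 6) := by
    have := (hasSum_nat_add_iff' 1).mpr hasSum_zeta_two
    simpa using this
  have hsum : Summable (fun n : ℕ => 1 / ((n : ℂ) + 1) ^ (2 + t * Complex.I : ℂ)) := by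
    apply Summable.of_norm
    simp_rw [hn]
    exact hz2.summable
  rw [hsum.tsum_eq_zero_add] at h1
  have hz2' : HasSum (fun n : ℕ => 1 / (((n + 1 : ℕ) : ℝ) + 1) ^ 2) (Real.pi ^ 2 / 6 - 1) := by
    have := (hasSum_nat_add_iff' 1).mpr hz2
    simpa using this
  have h2 : ‖∑' n : ℕ, 1 / (((n + 1 : ℕ) : ℂ) + 1) ^ (2 + t * Complex.I : ℂ)‖ ≤
      Real.pi ^ 2 / 6 - 1 := by
    rw [← hz2'.tsum_eq]
    refine (norm_tsum_le_tsum_norm ?_).trans (le_of_eq ?_)
    · exact (summable_nat_add_iff 1).mpr hsum.norm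
    · exact tsum_congr (fun n => hn (n + 1))
  have h3 : (1 : ℂ) / (((0 : ℕ) : ℂ) + 1) ^ (2 + t * Complex.I : ℂ) = 1 := by simp
  rw [h3] at h1
  rw [h1]
  have h4 := norm_sub_le (1 + ∑' n : ℕ, 1 / (((n + 1 : ℕ) : ℂ) + 1) ^ (2 + t * Complex.I : ℂ))
    (∑' n : ℕ, 1 / (((n + 1 : ℕ) : ℂ) + 1) ^ (2 + t * Complex.I : ℂ))
  rw [add_sub_cancel_right, norm_one] at h4
  have hpi : Real.pi ^ 2 ≤ 10 := by
    have := Real.pi_lt_d2
    have := Real.pi_pos
    nlinarith
  linarith

end I_Zl1

open I_Zl1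

theorem Zl1_pf (hZ : S_Zgr) : S_Zl1 := by
  obtain ⟨C, hC1, hC⟩ := hZ
  set R : ℝ := 1899 / 1000 with hR
  have hpi := Real.pi_pos
  set K : ℝ := Real.log C + 3 with hK
  have hlogC : 0 ≤ Real.log C := Real.log_nonneg hC1
  have hK0 : 3 ≤ K := by linarith
  set C' : ℝ := R * (R * (2 * π * (K + 2))) + R * R * π * K with hC'
  have hR0 : 0 < R := by norm_num [hR]
  have hpi3 : 3 < π := Real.pi_gt_three
  have hC'1 : 1 ≤ C' := by
    have h1 : 0 ≤ R * (R * (2 * π * (K + 2))) := by positivity
    have h2 : 1 ≤ R * R * π * K := by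
      have : (1 : ℝ) ≤ R * R := by norm_num [hR]
      nlinarith [mul_pos hpi (by linarith : 0 < K)]
    linarith
  refine ⟨C', hC'1, fun t ht => ?_⟩
  set B : Set ℂ := {s : ℂ | 1 / 5 ≤ s.re ∧ s.re ≤ 3 ∧ |s.im - t| ≤ 1 / 2} with hB
  set c : ℂ := 2 + t * Complex.I with hc
  have hcre : c.re = 2 := by simp [hc]
  have hcim : c.im = t := by simp [hc]
  have hBsub : B ⊆ ball c R := by
    rintro s ⟨h1, h2, h3⟩
    rw [mem_ball, dist_eq_norm]
    have h4 : ‖s - c‖ ^ 2 < R ^ 2 := by
      rw [← Complex.normSq_eq_norm_sq, Complex.normSq_apply, Complex.sub_re, Complex.sub_im,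
        hcre, hcim]
      have h5 : (s.im - t) * (s.im - t) ≤ 1 / 4 := by
        rw [abs_le] at h3
        nlinarith
      have h6 : (s.re - 2) * (s.re - 2) ≤ 81 / 25 := by nlinarith
      have : R ^ 2 = 3606201 / 1000000 := by norm_num [hR]
      rw [this]
      linarith
    exact lt_of_pow_lt_pow_left₀ 2 hR0.le h4
  have hball : ∀ s ∈ closedBall c R, 1 / 10 ≤ s.re ∧ s.re ≤ 4 ∧ 1 ≤ |s.im| ∧ |s.im| ≤ |t| + 2 := by
    intro s hs
    rw [mem_closedBall, dist_eq_norm] at hs
    have h1 := (Complex.abs_re_le_norm (s - c)).trans hs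
    have h2 := (Complex.abs_im_le_norm (s - c)).trans hs
    rw [Complex.sub_re, hcre, abs_le] at h1
    rw [Complex.sub_im, hcim] at h2
    have h3 := abs_sub_abs_le_abs_sub s.im t
    have h4 := abs_sub_abs_le_abs_sub t s.im
    rw [abs_sub_comm t s.im] at h4
    norm_num [hR] at h1 h2
    refine ⟨by linarith, by linarith, by linarith, by linarith⟩
  have hne1 : ∀ s ∈ closedBall c R, s ≠ 1 := by
    rintro s hs rfl
    have := (hball 1 hs).2.2.1
    rw [Complex.one_im, abs_zero] at this
    linarith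
  have han : AnalyticOnNhd ℂ riemannZeta (closedBall c R) := by
    have hd : DifferentiableOn ℂ riemannZeta {1}ᶜ := fun z hz =>
      (differentiableAt_riemannZeta hz).differentiableWithinAt
    intro z hz
    exact hd.analyticAt (isOpen_compl_singleton.mem_nhds (hne1 z hz))
  have hz2 := zeta_two t
  rw [← hc] at hz2
  have hc0 : riemannZeta c ≠ 0 := by
    intro h
    rw [h, norm_zero] at hz2
    norm_num at hz2
  have hL : 1 ≤ Real.log |t| := by
    rw [Real.le_log_iff_exp_le (by linarith)]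
    have := Real.exp_one_lt_d9
    linarith
  set M : ℝ := Real.log (C * (|t| + 2)) with hMd
  have hCt : 1 ≤ C * (|t| + 2) := by nlinarith
  have hM0 : 0 ≤ M := Real.log_nonneg hCt
  have hMK : M ≤ K * Real.log |t| := by
    rw [hMd, Real.log_mul (by linarith) (by linarith)]
    have h1 : Real.log (|t| + 2) ≤ Real.log (|t| * 2) := Real.log_le_log (by linarith) (by linarith)
    rw [Real.log_mul (by linarith) (by norm_num)] at h1
    have h2 : Real.log 2 ≤ 1 := by
      have := Real.log_two_lt_d9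
      linarith
    rw [hK]
    nlinarith
  have hM : ∀ z ∈ closedBall c R, Real.log ‖riemannZeta z‖ ≤ M := by
    intro z hz
    obtain ⟨h1, h2, h3, h4⟩ := hball z hz
    by_cases h0 : riemannZeta z = 0
    · rw [h0, norm_zero, Real.log_zero]
      exact hM0
    · refine Real.log_le_log (norm_pos_iff.2 h0) ((hC z h1 h2 h3).trans ?_)
      exact mul_le_mul_of_nonneg_left h4 (by linarith)
  have hm : -(2 : ℝ) ≤ Real.log ‖riemannZeta c‖ := by
    have h1 : Real.log (1 / 4) ≤ Real.log ‖riemannZeta c‖ := Real.log_le_log (by norm_num) hz2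
    have h2 : Real.log (1 / 4) = -(2 * Real.log 2) := by
      rw [show (1 / 4 : ℝ) = (2 ^ 2)⁻¹ by norm_num, Real.log_inv, Real.log_pow]
      push_cast
      ring
    have := Real.log_two_lt_d9
    linarith
  have hdisc := disc_le hR0 han hc0 hM hm
  -- the total
  have htot : ∫⁻ s in B, ENNReal.ofReal |Real.log ‖riemannZeta s‖| ≤
      ENNReal.ofReal (C' * Real.log |t|) := by
    have h1 : ∫⁻ s in B, ENNReal.ofReal |Real.log ‖riemannZeta s‖| ≤
        ∫⁻ s in ball c R, ENNReal.ofReal |Real.log ‖riemannZeta s‖| := lintegral_mono_set hBsub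
    have h2 : ∫⁻ s in ball c R, ENNReal.ofReal |Real.log ‖riemannZeta s‖| ≤
        ∫⁻ s in ball c R, (ENNReal.ofReal (M - Real.log ‖riemannZeta s‖) + ENNReal.ofReal M) := by
      refine setLIntegral_mono' measurableSet_ball fun s hs => ?_
      have h3 := hM s (ball_subset_closedBall hs)
      rw [← ENNReal.ofReal_add (by linarith) hM0]
      apply ENNReal.ofReal_le_ofReal
      rw [abs_le]
      constructor <;> linarith
    have h3 : ∫⁻ s in ball c R, (ENNReal.ofReal (M - Real.log ‖riemannZeta s‖) +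
        ENNReal.ofReal M) = (∫⁻ s in ball c R, ENNReal.ofReal (M - Real.log ‖riemannZeta s‖)) +
        ENNReal.ofReal (R * R * π * M) := by
      rw [lintegral_add_right _ measurable_const, lintegral_const, Measure.restrict_apply_univ,
        Complex.volume_ball]
      congr 1
      rw [← ENNReal.ofReal_pow hR0.le, ← NNReal.coe_real_pi, ENNReal.ofReal_coe_nnreal.symm,
        ← ENNReal.ofReal_mul (by positivity), ← ENNReal.ofReal_mul hM0]
      congr 1
      ring
    refine (h1.trans (h2.trans (h3.le.trans (add_le_add_left hdisc _)))).trans ?_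
    rw [← ENNReal.ofReal_add (by positivity) (by positivity)]
    apply ENNReal.ofReal_le_ofReal
    have h4 : M + 2 ≤ (K + 2) * Real.log |t| := by nlinarith
    have h5 : R * (R * (2 * π * (M + 2))) ≤ R * (R * (2 * π * ((K + 2) * Real.log |t|))) := by
      gcongr
    have h6 : R * R * π * M ≤ R * R * π * (K * Real.log |t|) := by gcongr
    rw [hC']
    nlinarith
  have hmeas : Measurable fun s : ℂ => Real.log ‖riemannZeta s‖ := by
    have h1 : Measurable riemannZeta := by
      refine measurable_of_continuousOn_compl_singleton 1 fun z hz => ?_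
      exact (differentiableAt_riemannZeta hz).continuousAt.continuousWithinAt
    exact h1.norm.log
  have hi : IntegrableOn (fun s : ℂ => Real.log ‖riemannZeta s‖) B := by
    refine ⟨hmeas.aestronglyMeasurable, ?_⟩
    rw [hasFiniteIntegral_iff_norm]
    simp only [Real.norm_eq_abs]
    exact htot.trans_lt ENNReal.ofReal_lt_top
  refine ⟨hi, ?_⟩
  rw [integral_eq_lintegral_of_nonneg_ae (Filter.Eventually.of_forall fun s => abs_nonneg _)
    hmeas.abs.aestronglyMeasurable]
  refine ENNReal.toReal_le_of_le_ofReal (by positivity) htot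

end Pool.Agent.Work.MP_56b8f5_nt.HZ
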