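import Pool.Agent.Work.MP_56b8f5_nt.HZ.StmtsV
import Pool.Agent.Work.MP_56b8f5_nt.HZ.I_Zl1

/-!
MP_56b8f5_nt, block HZ, part V, item Zl1V.
-/

set_option autoImplicit false

open MeasureTheory Set Filter Topology Metric Real
open scoped ENNReal

noncomputable section

namespace Pool.Agent.Work.MP_56b8f5_nt.HZ

open Pool.Agent.Work.MP_56b8f5_nt.EM Pool.Agent.Work.MP_56b8f5_nt.WM Pool.Agent.Work.MP_56b8f5_nt.SH

open I_Zl1

theorem Zl1V_pf (hZ : S_Zgr) : S_Zl1V := by
  obtain ⟨C, hC1, hC⟩ := hZ
  set R : ℝ := 1899 / 1000 with hR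
  have hpi := Real.pi_pos
  set K : ℝ := Real.log C + 3 with hK
  have hlogC : 0 ≤ Real.log C := Real.log_nonneg hC1
  have hK0 : 3 ≤ K := by linarith
  set C' : ℝ := R * (R * (2 * π * (K + 2))) + R * R * π * K with hC'
  have hR0 : 0 < R := by norm_num [hR]
  have hpi3 : 3 < π := Real.pi_gt_three
  have hC'1 : 1 ≤ C' := by
    have h1 : 0 ≤ R * (R * (2 * π * (K + 2))) := by positivity
    have h2 : 1 ≤ R * R * π * K := by
      have : (1 : ℝ) ≤ R * R := by norm_num [hR]
      nlinarith [mul_pos hpi (by linarith : 0 < K)]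
    linarith
  refine ⟨C', hC'1, fun t ht => ?_⟩
  set B : Set ℂ := {s : ℂ | 1 / 5 ≤ s.re ∧ s.re ≤ 7 / 2 ∧ |s.im - t| ≤ 1 / 2} with hB
  set c : ℂ := 2 + t * Complex.I with hc
  have hcre : c.re = 2 := by simp [hc]
  have hcim : c.im = t := by simp [hc]
  have hBsub : B ⊆ ball c R := by
    rintro s ⟨h1, h2, h3⟩
    rw [mem_ball, dist_eq_norm]
    have h4 : ‖s - c‖ ^ 2 < R ^ 2 := by
      rw [← Complex.normSq_eq_norm_sq, Complex.normSq_apply, Complex.sub_re, Complex.sub_im,
        hcre, hcim]
      have h5 : (s.im - t) * (s.im - t) ≤ 1 / 4 := by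
        rw [abs_le] at h3
        nlinarith
      have h6 : (s.re - 2) * (s.re - 2) ≤ 81 / 25 := by
        nlinarith [mul_nonneg (sub_nonneg.2 h1) (sub_nonneg.2 h2)]
      have : R ^ 2 = 3606201 / 1000000 := by norm_num [hR]
      rw [this]
      linarith
    exact lt_of_pow_lt_pow_left₀ 2 hR0.le h4
  have hball : ∀ s ∈ closedBall c R, 1 / 10 ≤ s.re ∧ s.re ≤ 4 ∧ 1 ≤ |s.im| ∧ |s.im| ≤ |t| + 2 := by
    intro s hs
    rw [mem_closedBall, dist_eq_norm] at hs
    have h1 := (Complex.abs_re_le_norm (s - c)).trans hs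
    have h2 := (Complex.abs_im_le_norm (s - c)).trans hs
    rw [Complex.sub_re, hcre, abs_le] at h1
    rw [Complex.sub_im, hcim] at h2
    have h3 := abs_sub_abs_le_abs_sub s.im t
    have h4 := abs_sub_abs_le_abs_sub t s.im
    rw [abs_sub_comm t s.im] at h4
    norm_num [hR] at h1 h2
    refine ⟨by linarith, by linarith, by linarith, by linarith⟩
  have hne1 : ∀ s ∈ closedBall c R, s ≠ 1 := by
    rintro s hs rfl
    have := (hball 1 hs).2.2.1
    rw [Complex.one_im, abs_zero] at this
    linarith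
  have han : AnalyticOnNhd ℂ riemannZeta (closedBall c R) := by
    have hd : DifferentiableOn ℂ riemannZeta {1}ᶜ := fun z hz =>
      (differentiableAt_riemannZeta hz).differentiableWithinAt
    intro z hz
    exact hd.analyticAt (isOpen_compl_singleton.mem_nhds (hne1 z hz))
  have hz2 := zeta_two t
  rw [← hc] at hz2
  have hc0 : riemannZeta c ≠ 0 := by
    intro h
    rw [h, norm_zero] at hz2
    norm_num at hz2
  have hL : 1 ≤ Real.log |t| := by
    rw [Real.le_log_iff_exp_le (by linarith)]
    have := Real.exp_one_lt_d9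
    linarith
  set M : ℝ := Real.log (C * (|t| + 2)) with hMd
  have hCt : 1 ≤ C * (|t| + 2) := by nlinarith
  have hM0 : 0 ≤ M := Real.log_nonneg hCt
  have hMK : M ≤ K * Real.log |t| := by
    rw [hMd, Real.log_mul (by linarith) (by linarith)]
    have h1 : Real.log (|t| + 2) ≤ Real.log (|t| * 2) := Real.log_le_log (by linarith) (by linarith)
    rw [Real.log_mul (by linarith) (by norm_num)] at h1
    have h2 : Real.log 2 ≤ 1 := by
      have := Real.log_two_lt_d9
      linarith
    rw [hK]
    nlinarith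
  have hM : ∀ z ∈ closedBall c R, Real.log ‖riemannZeta z‖ ≤ M := by
    intro z hz
    obtain ⟨h1, h2, h3, h4⟩ := hball z hz
    by_cases h0 : riemannZeta z = 0
    · rw [h0, norm_zero, Real.log_zero]
      exact hM0
    · refine Real.log_le_log (norm_pos_iff.2 h0) ((hC z h1 h2 h3).trans ?_)
      exact mul_le_mul_of_nonneg_left h4 (by linarith)
  have hm : -(2 : ℝ) ≤ Real.log ‖riemannZeta c‖ := by
    have h1 : Real.log (1 / 4) ≤ Real.log ‖riemannZeta c‖ := Real.log_le_log (by norm_num) hz2
    have h2 : Real.log (1 / 4) = -(2 * Real.log 2) := by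
      rw [show (1 / 4 : ℝ) = (2 ^ 2)⁻¹ by norm_num, Real.log_inv, Real.log_pow]
      push_cast
      ring
    have := Real.log_two_lt_d9
    linarith
  have hdisc := disc_le hR0 han hc0 hM hm
  -- the total
  have htot : ∫⁻ s in B, ENNReal.ofReal |Real.log ‖riemannZeta s‖| ≤
      ENNReal.ofReal (C' * Real.log |t|) := by
    have h1 : ∫⁻ s in B, ENNReal.ofReal |Real.log ‖riemannZeta s‖| ≤
        ∫⁻ s in ball c R, ENNReal.ofReal |Real.log ‖riemannZeta s‖| := lintegral_mono_set hBsub
    have h2 : ∫⁻ s in ball c R, ENNReal.ofReal |Real.log ‖riemannZeta s‖| ≤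
        ∫⁻ s in ball c R, (ENNReal.ofReal (M - Real.log ‖riemannZeta s‖) + ENNReal.ofReal M) := by
      refine setLIntegral_mono' measurableSet_ball fun s hs => ?_
      have h3 := hM s (ball_subset_closedBall hs)
      rw [← ENNReal.ofReal_add (by linarith) hM0]
      apply ENNReal.ofReal_le_ofReal
      rw [abs_le]
      constructor <;> linarith
    have h3 : ∫⁻ s in ball c R, (ENNReal.ofReal (M - Real.log ‖riemannZeta s‖) +
        ENNReal.ofReal M) = (∫⁻ s in ball c R, ENNReal.ofReal (M - Real.log ‖riemannZeta s‖)) +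
        ENNReal.ofReal (R * R * π * M) := by
      rw [lintegral_add_right _ measurable_const, lintegral_const, Measure.restrict_apply_univ,
        Complex.volume_ball]
      congr 1
      rw [← ENNReal.ofReal_pow hR0.le, ← NNReal.coe_real_pi, ENNReal.ofReal_coe_nnreal.symm,
        ← ENNReal.ofReal_mul (by positivity), ← ENNReal.ofReal_mul hM0]
      congr 1
      ring
    refine (h1.trans (h2.trans (h3.le.trans (add_le_add_left hdisc _)))).trans ?_
    rw [← ENNReal.ofReal_add (by positivity) (by positivity)]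
    apply ENNReal.ofReal_le_ofReal
    have h4 : M + 2 ≤ (K + 2) * Real.log |t| := by nlinarith
    have h5 : R * (R * (2 * π * (M + 2))) ≤ R * (R * (2 * π * ((K + 2) * Real.log |t|))) := by
      gcongr
    have h6 : R * R * π * M ≤ R * R * π * (K * Real.log |t|) := by gcongr
    rw [hC']
    nlinarith
  have hmeas : Measurable fun s : ℂ => Real.log ‖riemannZeta s‖ := by
    have h1 : Measurable riemannZeta := by
      refine measurable_of_continuousOn_compl_singleton 1 fun z hz => ?_
      exact (differentiableAt_riemannZeta hz).continuousAt.continuousWithinAt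
    exact h1.norm.log
  have hi : IntegrableOn (fun s : ℂ => Real.log ‖riemannZeta s‖) B := by
    refine ⟨hmeas.aestronglyMeasurable, ?_⟩
    rw [hasFiniteIntegral_iff_norm]
    simp only [Real.norm_eq_abs]
    exact htot.trans_lt ENNReal.ofReal_lt_top
  refine ⟨hi, ?_⟩
  rw [integral_eq_lintegral_of_nonneg_ae (Filter.Eventually.of_forall fun s => abs_nonneg _)
    hmeas.abs.aestronglyMeasurable]
  refine ENNReal.toReal_le_of_le_ofReal (by positivity) htot

end Pool.Agent.Work.MP_56b8f5_nt.HZ
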