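import Pool.Agent.Work.MP_56b8f5_nt.HZ.All
import Pool.Agent.Work.MP_56b8f5_nt.HZ.V_Idn
import Pool.Agent.Work.MP_56b8f5_nt.HZ.V_TR
import Pool.Agent.Work.MP_56b8f5_nt.HZ.V_Zl1
import Pool.Agent.Work.MP_56b8f5_nt.HZ.V_TL
import Pool.Agent.Work.MP_56b8f5_nt.HZ.V_Pair
import Pool.Agent.Work.MP_56b8f5_nt.HZ.V_ZN
import Pool.Agent.Work.MP_56b8f5_nt.HZ.V_ZF
import Pool.Agent.Work.MP_56b8f5_nt.HZ.V_PWa
import Pool.Agent.Work.MP_56b8f5_nt.HZ.V_PW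

/-!
MP_56b8f5_nt, block HZ, part V: the assembly. `all_PWs : S_PWs`.
-/

set_option autoImplicit false

noncomputable section

namespace Pool.Agent.Work.MP_56b8f5_nt.HZ

theorem all_PWaV : S_PWaV := PWaV_pf (IdnV_pf all_Gr all_KHh) (TRV_pf Zeu_pf Kkt_pf all_KDn)
  (TLV_pf (Zl1V_pf Zgr_pf)) (ZNV_pf Zsy_pf PairV_pf all_Zct) (ZFV_pf all_Zct)
theorem all_PWs : S_PWs := PWs_pf Kex_pf all_KS1 all_PWaV Kkt_pf

end Pool.Agent.Work.MP_56b8f5_nt.HZ
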