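import Mathlib

/-!
MP_56b8f5_nt (eighth moment of the Riemann zeta function), block HZ, part (c): two abstract tools.

* `S_G1`: convexity of the mean square in vertical strips (localised by a Gaussian), one simple pole at `1` allowed.
* `S_G2`: detection of zeros by the area mean value, in the form of an inequality between integrals, with a weight `B`.

Both are taken by helper38 (files `I_G1.lean`, `I_G2.lean`).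
-/

set_option autoImplicit false

open MeasureTheory Set Filter Topology

noncomputable section

namespace Pool.Agent.Work.MP_56b8f5_nt.HZG

/-- The mean square of `F` on the line `Re s = x` over the interval `[a, b]`. -/
def MS (F : ℂ → ℂ) (x a b : ℝ) : ℝ := ∫ v in a..b, ‖F ((x : ℂ) + (v : ℂ) * Complex.I)‖ ^ 2

/-- **G1a, convexity of the mean square for rapidly decreasing functions.** Let `l < σ < u` (the ends are trivial),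
`N(x) = ∫ |f(x+iv)|² dv`, and `Ψ(s) = ∫ f(s+iv) conj f(σ+iv) dv`. As `|f(s+iv)| ≤ B` and `|f(σ+iv)| ≤ B/(1+v²)`, `Ψ` is bounded and
continuous on the closed strip, and analytic inside (differentiation under the integral sign, Cauchy's estimate for the derivative
of `f`). By Cauchy-Schwarz and translation `|Ψ(s)| ≤ N(Re s)^(1/2) N(σ)^(1/2)`. The three lines theorem
(`Complex.HadamardThreeLines.norm_le_interp_of_mem_verticalClosedStrip'`) gives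
`N(σ) = Ψ(σ) ≤ N(l)^((1-θ)/2) N(u)^(θ/2) N(σ)^(1/2)`. -/
def S_G1a : Prop := ∀ (f : ℂ → ℂ) (l u σ B : ℝ), l < u → l ≤ σ → σ ≤ u →
  DiffContOnCl ℂ f (Complex.re ⁻¹' Ioo l u) →
  (∀ s : ℂ, l ≤ s.re → s.re ≤ u → ‖f s‖ ≤ B / (1 + s.im ^ 2)) →
  ∫⁻ v : ℝ, ENNReal.ofReal (‖f ((σ : ℂ) + (v : ℂ) * Complex.I)‖ ^ 2) ≤
    (∫⁻ v : ℝ, ENNReal.ofReal (‖f ((l : ℂ) + (v : ℂ) * Complex.I)‖ ^ 2)) ^ (1 - (σ - l) / (u - l)) *
    (∫⁻ v : ℝ, ENNReal.ofReal (‖f ((u : ℂ) + (v : ℂ) * Complex.I)‖ ^ 2)) ^ ((σ - l) / (u - l))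

/-- **G1, localised convexity of the mean square.** `F(s) = H(s)/(s-1)`, `H` continuous on `1/2 ≤ Re s ≤ 2`, analytic inside,
`|H(s)| ≤ T^10 (1+|Im s|)^10`. Then for `σ` in `[1/2, 2]`, `θ = (σ-1/2)/(3/2)`:
`∫_{T/3}^{4T} |F(σ+iv)|² dv ≤ C (J(1/2) + T^(-50))^(1-θ) (J(2) + T^(-50))^θ`, `J(x) = ∫_{T/4}^{5T} |F(x+iv)|² dv`.

Proof. `f_τ(s) = H(s)/(s+1) exp((s-iτ)²)`, `τ ∈ [T/3, 4T]`; `|exp((s-iτ)²)|² = exp(2x² - 2(v-τ)²)` for `s = x+iv`. G1a for `f_τ`,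
then integrate over `τ` with Hoelder's inequality: `∫ N_τ(σ) dτ ≤ (∫ N_τ(1/2) dτ)^(1-θ) (∫ N_τ(2) dτ)^θ`. By Tonelli
`∫ N_τ(x) dτ = ∫ |H/(s+1)|² e^{2x²} w(v) dv`, `w(v) = ∫_{T/3}^{4T} e^{-2(v-τ)²} dτ`; `e^{-2} ≤ w(v)` on `[T/3, 4T]`, `w ≤ 2` everywhere and
`w(v) ≤ 4T e^{-2(v²+T²)/225}` outside `[T/4, 5T]`; and `|F|/4 ≤ |H/(s+1)| ≤ |F|` for `v ≥ 1`. USES: S_G1a. -/
def S_G1 : Prop := ∃ C T₀ : ℝ, 1 ≤ C ∧ 3 ≤ T₀ ∧ ∀ T : ℝ, T₀ ≤ T → ∀ F H : ℂ → ℂ,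
  DiffContOnCl ℂ H (Complex.re ⁻¹' Ioo (1 / 2) 2) →
  (∀ s : ℂ, 1 / 2 ≤ s.re → s.re ≤ 2 → ‖H s‖ ≤ T ^ 10 * (1 + |s.im|) ^ 10) →
  (∀ s : ℂ, 1 / 2 ≤ s.re → s.re ≤ 2 → T / 4 ≤ s.im → s.im ≤ 5 * T → F s = H s / (s - 1)) →
  ∀ σ : ℝ, 1 / 2 ≤ σ → σ ≤ 2 →
    MS F σ (T / 3) (4 * T) ≤
      C * ((MS F (1 / 2) (T / 4) (5 * T) + (T ^ 50)⁻¹) ^ (1 - (σ - 1 / 2) / (3 / 2) : ℝ) *
        (MS F 2 (T / 4) (5 * T) + (T ^ 50)⁻¹) ^ ((σ - 1 / 2) / (3 / 2) : ℝ))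

/-- **G2a, area mean value.** `f` continuous on the closed disc, analytic inside: `|f(c)|² ≤ (1/πr²) ∫_disc |f|²` (mean value over
circles for `f²`), and the disc lies in the box `a ≤ Re ≤ b`, `|Im - t| ≤ W + r` if `|t - Im c| ≤ W`. -/
def S_G2a : Prop := ∀ (f : ℂ → ℂ) (c : ℂ) (r a b t R : ℝ), 0 < r → Measurable f →
  DiffContOnCl ℂ f (Metric.ball c r) → a ≤ c.re - r → c.re + r ≤ b → |t - c.im| + r ≤ R →
  ENNReal.ofReal (‖f c‖ ^ 2) ≤ ENNReal.ofReal (1 / (Real.pi * r ^ 2)) *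
    ∫⁻ σ in Icc a b, ∫⁻ v in Icc (t - R) (t + R),
      ENNReal.ofReal (‖f ((σ : ℂ) + (v : ℂ) * Complex.I)‖ ^ 2)

/-- **G2, detection with a weight.** `Z` a set of points `ρ` with `1 ≤ |f(ρ)|`, discs of radius `r` around them in the strip
`a ≤ Re s ≤ b`, `E` a set of real numbers each within `W` of the ordinate of a point of `Z`, `B ≥ 0` measurable. Then
`∫_E B ≤ (1/πr²) ∫_{|τ| ≤ W+r} dτ ∫_a^b dσ ∫_S |f(σ+iv)|² B(v+τ) dv`, where `S` contains the `W + r` neighbourhood of `E`.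

Proof. For `t ∈ E`, by G2a: `B(t) ≤ (1/πr²) ∫_a^b ∫_{|v-t| ≤ W+r} |f(σ+iv)|² B(t) dv dσ`, and all these `v` are in `S`. Integrate over
`t ∈ E`, Tonelli, `t = v + τ`. USES: S_G2a. -/
def S_G2 : Prop := ∀ (f : ℂ → ℂ) (Z : Set ℂ) (E S : Set ℝ) (B : ℝ → ENNReal) (r W a b : ℝ),
  0 < r → Measurable f → Measurable B → MeasurableSet E → MeasurableSet S →
  (∀ ρ ∈ Z, a ≤ ρ.re - r ∧ ρ.re + r ≤ b ∧ DiffContOnCl ℂ f (Metric.ball ρ r) ∧ 1 ≤ ‖f ρ‖) →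
  (∀ t ∈ E, ∃ ρ ∈ Z, |t - ρ.im| ≤ W) →
  (∀ t ∈ E, ∀ v : ℝ, |v - t| ≤ W + r → v ∈ S) →
  ∫⁻ t in E, B t ≤ ENNReal.ofReal (1 / (Real.pi * r ^ 2)) *
    ∫⁻ τ in Icc (-(W + r)) (W + r), ∫⁻ σ in Icc a b, ∫⁻ v in S,
      ENNReal.ofReal (‖f ((σ : ℂ) + (v : ℂ) * Complex.I)‖ ^ 2) * B (v + τ)

end Pool.Agent.Work.MP_56b8f5_nt.HZG
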