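import Pool.Agent.Work.MP_56b8f5_nt.HZ.Defs
import Pool.Agent.Work.MP_56b8f5_nt.HZ.StmtsG
import Pool.Agent.Work.MP_56b8f5_nt.SH.Stmts

/-!
MP_56b8f5_nt, block HZ, part (c): the tilted measure of the complement of `G(T;A,C₀)`. Statements of the items, with
proofs.

Final statements: `S_Cmp` (`C₀ = 400`): `∫_{[T,2T] ∖ G(T;A,400)} |Q|² ≤ C e^{-A/200} T exp(β² st)`, where
`|Q|² = Nb β ²` is the tilt, and `S_Mes`: `|G(T;A,400)| ≥ (1-δ) T`.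

Idea. Zeros with `(β-1/2) L ∼ κ` are detected with `ζM - 1`, `M = ∑ μ(n) P(log n/log Y) n^{-s}`, `Y = T^{1/10}`; by convexity
between the lines `1/2` and `2` the twisted mean square of `ζM - 1` on `Re s = 1/2 + b` is `≤ C e^{-bL/50} T exp(β² st)`. On the line
`1/2` the twisted second moment of zeta (landed, `SH.S_Pr2`) reduces this to the form `Fo(M Q)`; `M` is an average over `τ` of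
`∏_{p ≤ Y} (1 - p^{-s-w})`, `w = (1+iτ)/log Y`, and `Fo(D) = ∏(1-1/p) ∑_{n smooth} |(1*D)(n)|²/n`, `(1 * μ n^{-w})(n) = ∏_{p | n} (1 - p^{-w})`, so
everything is bounded by absolute values. An item may assume the statements of all EARLIER items, of `StmtsG`, and all landed facts
of `EM/Stmts`, `WM/Stmts`, `SH/Stmts`.
-/

set_option autoImplicit false

open MeasureTheory Set Filter Topology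

noncomputable section

namespace Pool.Agent.Work.MP_56b8f5_nt.HZ

open Pool.Agent.Work.MP_56b8f5_nt.EM Pool.Agent.Work.MP_56b8f5_nt.WM Pool.Agent.Work.MP_56b8f5_nt.SH
open Pool.Agent.Work.MP_56b8f5_nt.HZG

/-! ### The quadratic form -/

/-- **FoP.** `k2 a b = (a,b)/(ab) = (1/(ab)) ∑_{d | a, d | b} φ(d)` (`Nat.sum_totient`), so `Fo N D = ∑_{d ≤ N} φ(d) |y_d|²`,
`y_d = ∑_{d | a ≤ N} D(a)/a`. Second part: `|y+y'|² ≤ 2|y|²+2|y'|²`. Third part: `(a,b) log (a,b) = ∑_{d | (a,b)} g(d)`, `g = μ * (n log n) =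
φ log + Λ * φ` (the derivation `log ·`, `id = 1 * φ`, `log = Λ * 1`), `0 ≤ g(d) ≤ 2 φ(d) log d` because `φ(p^k) φ(d/p^k) ≤ φ(d)` and
`∑_{p^k | d} log p = log d`; so the form with kernel `k2 log gcd` is `∑ g(d) |y_d|² ≤ 2 log N Fo N D`. -/
def S_FoP : Prop := (∀ (N : ℕ) (D : ℕ → ℂ), 0 ≤ Fo N D) ∧
  (∀ (N : ℕ) (D E : ℕ → ℂ), Fo N (fun n => D n + E n) ≤ 2 * Fo N D + 2 * Fo N E) ∧
  ∀ (N : ℕ) (D : ℕ → ℂ), 1 ≤ N → (∑ a ∈ Finset.Icc 1 N, ∑ b ∈ Finset.Icc 1 N,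
    D a * (starRingEnd ℂ) (D b) * ((k2 a b * Real.log (Nat.gcd a b) : ℝ) : ℂ)).re ≤ 2 * Real.log N * Fo N D

/-- **Q2.** Second moment of zeta times an arbitrary polynomial. Expand `‖Ds N D‖²` (`n^{-(1/2+it)} = chi t n`,
`conj = chi (-t)`) and use `SH.S_Pr2` for every pair: the integral is `Zw Fo(D) - W0 Kh(D)` up to `C T^{-1/4} (∑ ‖D‖)²`, `0 ≤ Zw ≤ C log T`,
where `Kh` is the form with kernel `kh a b = k2 a b (log a + log b - 2 log (a,b))`. Since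
`-(log a + log b) = L[(1 - log a/L)(1 - log b/L) - 1 - log a log b/L²]`, `-Kh(D) = L Fo(D₁) - L Fo(D) - (1/L) Fo(D log) + 2 (form with k2 log gcd)
≤ L Fo(D₁) + 4 log N Fo(D)` (FoP), `D₁ = (1 - log n/L) D(n)`, and `log N ≤ log T`. -/
def S_Q2 : Prop := ∀ w : ℝ → ℝ, IsW w → ∃ C T₀ : ℝ, 1 ≤ C ∧ 3 ≤ T₀ ∧ ∀ T : ℝ, T₀ ≤ T → ∀ N : ℕ, 1 ≤ N →
  (N : ℝ) ^ 8 ≤ T → ∀ (D : ℕ → ℂ) (L : ℝ), 0 < L →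
  ∫ u : ℝ, w u * (az (T * u) ^ 2 * ‖Ds N D (1 / 2 + ((T * u : ℝ) : ℂ) * Complex.I)‖ ^ 2) ≤
    C * ((Real.log T + L) * (Fo N D + Fo N (fun n => ((1 - Real.log n / L : ℝ) : ℂ) * D n))) +
      C / T ^ (1 / 4 : ℝ) * (∑ n ∈ Finset.Icc 1 N, ‖D n‖) ^ 2

/-- **FoV.** `∑_{n smooth} |∑_{d | n} D(d)|²/n = ∑_{a,b} D(a) conj D(b) ∑_{n smooth, [a,b] | n} 1/n`
`= ∑_{a,b} D(a) conj D(b) (1/[a,b]) ∑_{m smooth} 1/m`, `∑_{m smooth} 1/m = ∏_{p ≤ Y} (1-1/p)^{-1} = 1/VV Y`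
(`EulerProduct` for `Nat.smoothNumbers (Y+1)`, or `Nat.primesBelow`), `1/[a,b] = k2 a b`. -/
def S_FoV : Prop := ∀ (Y N : ℕ) (D : ℕ → ℂ), (∀ n, D n ≠ 0 → n ≤ N ∧ Smo Y n) →
  0 < VV Y ∧ HasSum (fun n : ℕ => (open Classical in if Smo Y n then ‖∑ d ∈ n.divisors, D d‖ ^ 2 / (n : ℝ) else 0))
    (Fo N D / VV Y)

/-- **Om.** Fourier inversion for `G(ξ) = e^ξ P(ξ)`, smooth with compact support (a Schwartz function): `P(ξ) = e^{-ξ} ∫ Ĝ(η) e^{2πiηξ} dη`;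
`τ = -2πη`, `ω(τ) = Ĝ(-τ/2π)/(2π)` is a Schwartz function. -/
def S_Om : Prop := ∀ P : ℝ → ℝ, ContDiff ℝ ((⊤ : ℕ∞) : WithTop ℕ∞) P → HasCompactSupport P →
  ∃ ω : ℝ → ℂ, Continuous ω ∧ (∀ N : ℕ, Integrable (fun τ : ℝ => (1 + |τ|) ^ N * ‖ω τ‖)) ∧
    ∀ ξ : ℝ, (P ξ : ℂ) = ∫ τ : ℝ, ω τ * Complex.exp (-((1 + τ * Complex.I) * ξ))

/-- **Dv.** (1) `∑_{d | n} μ(d) d^{-w} = ∏_{p | n} (1 - p^{-w})` (`ArithmeticFunction` / `Finset.prod_one_add` over squarefree divisors). (2) associativity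
of Dirichlet convolution: `1 * (a * E) = (1 * a) * E`. (3) `|1 - p^{-w}| ≤ 2` since `Re w ≥ 0`, and `|1 - e^{-z}| ≤ |z|` for `Re z ≥ 0`, `|w| ≤ (1+|τ|)/log Y`. -/
def S_Dv : Prop :=
  (∀ (n : ℕ) (w : ℂ), n ≠ 0 → ∑ d ∈ n.divisors, ((ArithmeticFunction.moebius d : ℤ) : ℂ) * (d : ℂ) ^ (-w) =
    ∏ p ∈ n.primeFactors, (1 - (p : ℂ) ^ (-w))) ∧
  (∀ (a E : ℕ → ℂ) (n : ℕ), n ≠ 0 → ∑ d ∈ n.divisors, cvl a E d =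
    cvl (fun m => ∑ d ∈ m.divisors, a d) E n) ∧
  ∀ (Y τ : ℝ) (p : ℕ), 1 < Y → 1 ≤ p → ‖1 - (p : ℂ) ^ (-((1 + τ * Complex.I) / Real.log Y))‖ ≤ cp Y τ p

/-- **Em.** Euler product for the majorant. `fp c` and `pe` are multiplicative (`pe (m n) = pe m pe n` for coprime `m, n`), so is
`h = fp c * pe` (Dirichlet convolution); `∑_{n smooth} h(n)²/n = ∏_{p ≤ Y} ∑_ν h(p^ν)² p^{-ν}` (`EulerProduct`, smooth numbers), where, with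
`b_p = β` for `p ∈ S₀` and `0` otherwise, `h(p) = c_p + b_p` and `0 ≤ h(p^ν) ≤ 3 e^B` (`c_p ≤ 2`, `∑ β^j/j! ≤ e^β`); `ν ≥ 2` contributes
`≤ 18 e^{2B}/p²`. So each factor is `≤ 1 + (c_p+b_p)²/p + C/p² ≤ exp(b_p²/p + (2+2B) c_p/p + C/p²)` (`c_p² ≤ 2c_p`). -/
def S_Em : Prop := ∀ B : ℝ, 0 ≤ B → ∃ C : ℝ, 1 ≤ C ∧ ∀ (Y : ℕ) (c : ℕ → ℝ) (S₀ : Finset ℕ) (β : ℝ),
  (∀ p, 0 ≤ c p ∧ c p ≤ 2) → (∀ p ∈ S₀, p.Prime ∧ p ≤ Y) → 0 ≤ β → β ≤ B →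
  Summable (fun n : ℕ => (open Classical in if Smo Y n then
    (∑ d ∈ n.divisors, fp c d * pe (fun p => if p ∈ S₀ then β else 0) (n / d)) ^ 2 / (n : ℝ) else 0)) ∧
  ∑' n : ℕ, (open Classical in if Smo Y n then
    (∑ d ∈ n.divisors, fp c d * pe (fun p => if p ∈ S₀ then β else 0) (n / d)) ^ 2 / (n : ℝ) else 0) ≤
    C * Real.exp (β ^ 2 * ∑ p ∈ S₀, 1 / (p : ℝ) + (2 + 2 * B) * ∑ p ∈ pr Y, c p / (p : ℝ))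

/-- **Msu.** Sum over primes. Put `z = Y^{1/(1+|τ|)}`. For `p ≤ z`: `(1+|τ|)/log Y ∑_{p ≤ z} log p/p ≤ (1+|τ|)/log Y (log z + C) ≤ 1 + C/log 2`
(the sum is empty unless `z ≥ 2`, i.e. `1+|τ| ≤ log Y/log 2`; Mertens `∑_{p ≤ z} log p/p ≤ log z + C`). For `z < p ≤ Y`: `2 ∑ 1/p ≤
2 (log log Y - log log max(z,2) + C) ≤ 2 log(1+|τ|) + C'` (`WM.S_Mert`). Second part: `VV ≤ exp(-∑ 1/p)`, `WM.S_Mert`. -/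
def S_Msu : Prop := ∃ C : ℝ, 1 ≤ C ∧ (∀ Y τ : ℝ, 3 ≤ Y →
    ∑ p ∈ pr ⌊Y⌋₊, cp Y τ p / (p : ℝ) ≤ C + 2 * Real.log (2 + |τ|)) ∧
  ∀ Y : ℝ, 3 ≤ Y → VV ⌊Y⌋₊ ≤ C / Real.log Y

/-- **FoB, the form of `M Q`.** `D = cvl (muP P Y) q`; `D(n) ≠ 0` implies `n ≤ N` and that all primes of `n` are `≤ Y` (`muP` lives on `n < Y`, `q` on products
of primes of `S₀`, by `pe`). FoV with `⌊Y⌋`: `Fo N D = VV ∑_n |(1*D)(n)|²/n`. By Om (`ξ = log n/log Y ≥ 0`) `muP(n) = ∫ ω(τ) μ(n) n^{-w} dτ`,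
`w = (1+iτ)/log Y`, for every `n ≥ 1`; by Dv, for smooth `n`, `(1*D)(n) = ∫ ω(τ) (∏_{p|·}(1-p^{-w}) * q)(n) dτ`, of absolute value
`≤ R ∫ ‖ω‖ h_τ(n) dτ`, `h_τ = fp (cp Y τ) * pe`. Cauchy-Schwarz `(∫ ‖ω‖ h)² ≤ (∫ ‖ω‖) ∫ ‖ω‖ h²`, sum over `n` (Tonelli), Em and
Msu: `∑_n h_τ²/n ≤ C exp(β² ∑ 1/p) e^{(2+2B)C'} (2+|τ|)^{4+4B}`, and `∫ ‖ω‖ (2+|τ|)^{4+4B} < ∞`; `VV ≤ C/log Y`. -/
def S_FoB : Prop := ∀ B : ℝ, 0 ≤ B → ∀ P : ℝ → ℝ, IsP P → ∃ C : ℝ, 1 ≤ C ∧ ∀ (Y R β : ℝ) (S₀ : Finset ℕ) (q : ℕ → ℂ)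
  (Nq N : ℕ), 3 ≤ Y → 0 ≤ R → 0 ≤ β → β ≤ B → (∀ p ∈ S₀, p.Prime ∧ (p : ℝ) ≤ Y) →
  (∀ n, ‖q n‖ ≤ R * pe (fun p => if p ∈ S₀ then β else 0) n) → (∀ n, q n ≠ 0 → 1 ≤ n ∧ n ≤ Nq) →
  Y * Nq ≤ N →
  Fo N (cvl (muP P Y) q) ≤ C * R ^ 2 / Real.log Y * Real.exp (β ^ 2 * ∑ p ∈ S₀, 1 / (p : ℝ))

/-! ### The tilt -/

/-- **Qc.** Coefficients of `NN M S l (β/2) (β/2)`: `TE l (βP/2)² = ∑_{i,j ≤ l} (β/2)^{i+j}/(i!j!) P^{i+j}`, expand `P^m`, `P = ∑_{p ∈ S j} p^{-s}`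
(all coefficients `≥ 0`; the product over `j` has coefficients supported on `n ≤ e^{2 ∑ l_j y_j} ≤ e^{L/100}`, `L = log T`); take `N = ⌊e^{L/100}⌋`. Coefficientwise
`TE l (βP/2)² ≤ exp(βP)` whose coefficients are `∏ β^v/v!`, i.e. `pe` (as an induction over finite products: the coefficients of `TE l (a P)` are at most those
of `∏_{p} ∑_v (a p^{-s})^v/v!`, and `(β/2+β/2)^v`). Sum of the coefficients: `∏_j TE(l_j, β|S_j|/2)² ≤ ∏_j (|S_j|^{l_j} e^{β/2})²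
≤ e^{2∑ l_j y_j + βM}` (`|S_j| ≤ e^{y_j}`; if `S_j` is empty the factor is `1`), `βM ≤ ∑ l_j y_j ≤ L/200` (`β ≤ B ≤ l_j` from `ll`, `ε ≤ 1/(B+1)`, `y_j ≥ 1`). Second part:
`p ≤ e^{y_j} ≤ e^{L/200}` (`l_j ≥ 1`), and `st` is the sum over the union (disjointness). -/
def S_Qc : Prop := ∀ B : ℝ, 0 ≤ B → ∀ (ε c η T : ℝ) (M : ℕ) (S : ℕ → Finset ℕ) (l : ℕ → ℕ) (y : ℕ → ℝ),
  1 ≤ T → 0 < ε → ε ≤ 1 / (B + 1) → IsSys ε c η (Real.log T) M S l y → ∀ β : ℝ, 0 ≤ β → β ≤ B →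
  (∃ (N : ℕ) (q : ℕ → ℝ), 1 ≤ N ∧ IsQ M S l β T N q) ∧
  (∀ p ∈ (Finset.range M).biUnion S, p.Prime ∧ (p : ℝ) ≤ T ^ (1 / 200 : ℝ)) ∧
  ∑ p ∈ (Finset.range M).biUnion S, 1 / (p : ℝ) = st M S

/-! ### The two lines -/

/-- **Wt.** A weight which is `1` on `[1/24, 5/6]`, supported in `[1/48, 1]` (`Real.smoothTransition` or a bump). -/
def S_Wt : Prop := ∃ w : ℝ → ℝ, IsW w ∧ ∀ u, 1 / 24 ≤ u → u ≤ 5 / 6 → w u = 1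

/-- **DsM.** Product of Dirichlet polynomials: `Ds N D s * Ds N' E s = Ds (N N') (D * E) s` if `D`, `E` vanish outside `[1,N]`, `[1,N']`. And `Ds` of the twisted
coefficients on the line `1/2 + b`: `q(n) n^{b-iτ} n^{-(1/2+b+iv)} = q(n) n^{-(1/2+i(v+τ))}`. -/
def S_DsM : Prop :=
  (∀ (N N' : ℕ) (D E : ℕ → ℂ), (∀ n, D n ≠ 0 → 1 ≤ n ∧ n ≤ N) → (∀ n, E n ≠ 0 → 1 ≤ n ∧ n ≤ N') → ∀ s : ℂ,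
    Ds N D s * Ds N' E s = Ds (N * N') (cvl D E) s) ∧
  ∀ (N : ℕ) (q : ℕ → ℝ) (b τ v : ℝ), Ds N (qt q b τ) ((1 / 2 + b : ℝ) + v * Complex.I) =
    Ds N (fun n => (q n : ℂ)) (1 / 2 + ((v + τ : ℝ) : ℂ) * Complex.I)

/-- **Lh, the line `1/2`.** `Y = T^{1/10}`, `R = N^b` (`‖qt q b τ n‖ = q(n) n^b ≤ R q(n)`), `R² ≤ (2T)^{b/50} ≤ 2 T^{b/50}`.
First integral: `ζ M Qt = ζ Ds(N₁, D)`, `D = cvl (muP P Y) (qt q b τ)`, `N₁ = ⌊Y⌋ N` (DsM; `muP` vanishes for `n ≥ Y`), apply Q2 at scale `6T` with the weight Wt and `L = log T`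
(`N₁^8 ≤ T^{0.9} ≤ 6T`): `∫_{T/4}^{5T} = 6T ∫ du ≤ 6T ∫ w`. `Fo(D) ≤ C R²/log Y exp(β² st)` by FoB (with `N ≥ Y Nq`: enlarge `N₁` to `⌈Y⌉ N`). `D₁(n) = (1 - log n/log T) D(n)
= cvl (muP P₁ Y) qt - cvl (muP P Y) (qt log n/log T)`, `P₁(ξ) = P(ξ)(1-ξ/10)` (`log m/log T = (1/10) log m/log Y`), FoP and FoB twice (`log n ≤ log N ≤ log T`). Last term of Q2:
`∑ ‖D‖ ≤ (∑_{n ≤ Y} |muP|)(∑ ‖qt‖) ≤ C T^{1/10} R (2T)^{1/50}`, its square times `T^{-1/4}` is `≤ C R²`. `exp(β² st) ≥ 1`.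
Second integral: `∫_{T/4}^{5T} |∑ d_n n^{-1/2-iv}|² dv ≤ (5T + 4 N₂²) ∑ |d_n|²/n` (off-diagonal terms `≤ 2/|log(m/n)| ≤ 2N`), `∑ |qt|²/n ≤ R² ∑ q(n)²/n ≤
R² ∏_{p ∈ S₀} ∑_v β^{2v}/(v!² p^v) ≤ R² exp(β² st)`. -/
def S_Lh : Prop := ∀ B : ℝ, 0 ≤ B → ∀ P : ℝ → ℝ, IsP P → ∃ C T₀ : ℝ, 1 ≤ C ∧ 3 ≤ T₀ ∧ ∀ T : ℝ, T₀ ≤ T →
  ∀ (M : ℕ) (S : ℕ → Finset ℕ) (l : ℕ → ℕ) (β : ℝ) (N : ℕ) (q : ℕ → ℝ), 0 ≤ β → β ≤ B → 1 ≤ N →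
  IsQ M S l β (2 * T) N q → (∀ p ∈ (Finset.range M).biUnion S, p.Prime ∧ (p : ℝ) ≤ (2 * T) ^ (1 / 200 : ℝ)) →
  ∑ p ∈ (Finset.range M).biUnion S, 1 / (p : ℝ) = st M S → ∀ b τ : ℝ, 0 ≤ b → b ≤ 3 / 2 →
  (∫ v in (T / 4)..(5 * T), ‖riemannZeta (1 / 2 + v * Complex.I) * MM P (T ^ (1 / 10 : ℝ)) (1 / 2 + v * Complex.I) *
      Ds N (qt q b τ) (1 / 2 + v * Complex.I)‖ ^ 2 ≤ C * T ^ (1 + b / 50 : ℝ) * Real.exp (β ^ 2 * st M S)) ∧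
  ∫ v in (T / 4)..(5 * T), ‖Ds N (qt q b τ) (1 / 2 + v * Complex.I)‖ ^ 2 ≤
    C * T ^ (1 + b / 50 : ℝ) * Real.exp (β ^ 2 * st M S)

/-- **Lt, the line `2`.** `1/ζ(s) = ∑ μ(n) n^{-s}`, so `M(s) - 1/ζ(s) = ∑_n μ(n) (P(log n/log Y) - 1) n^{-s}`, the terms with `n ≤ Y^{1/2}` vanish:
`|ζM - 1| ≤ |ζ(2+iv)| (1+sup|P|) ∑_{n > Y^{1/2}} n^{-2} ≤ C Y^{-1/2} = C T^{-1/20}`. `|Qt(2+iv)| ≤ ∑ q(n) n^{b-2} ≤ ∑ q ≤ (2T)^{1/50}`. -/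
def S_Lt : Prop := ∀ B : ℝ, 0 ≤ B → ∀ P : ℝ → ℝ, IsP P → (∀ ξ : ℝ, 0 ≤ ξ → ξ ≤ 1 / 2 → P ξ = 1) → ∃ C T₀ : ℝ, 1 ≤ C ∧
  3 ≤ T₀ ∧ ∀ T : ℝ, T₀ ≤ T → ∀ (M : ℕ) (S : ℕ → Finset ℕ) (l : ℕ → ℕ) (β : ℝ) (N : ℕ) (q : ℕ → ℝ), 0 ≤ β → β ≤ B →
  IsQ M S l β (2 * T) N q → ∀ b τ : ℝ, 0 ≤ b → b ≤ 3 / 2 →
  ∫ v in (T / 4)..(5 * T), ‖(riemannZeta (2 + v * Complex.I) * MM P (T ^ (1 / 10 : ℝ)) (2 + v * Complex.I) - 1) *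
      Ds N (qt q b τ) (2 + v * Complex.I)‖ ^ 2 ≤ C * T ^ (94 / 100 : ℝ)

/-- **Gro.** Growth, for G1. `H(s) = ((s-1) ζ(s) M(s) - (s-1)) Qt(s)`; here `(s-1) ζ(s)` means the entire function which is `1` at `s = 1` (`riemannZeta₁` or `Function.update`; write
it as `E`). `|E(s)| ≤ C (1+|Im s|)²` on `1/2 ≤ Re s ≤ 2`: for `|Im s| ≥ 1` by `HZ.S_Zgr` (take it as a hypothesis `∀ s, 1/10 ≤ Re s ≤ 4, 1 ≤ |Im s| → ‖ζ s‖ ≤ C |Im s|`, it is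
`S_Zgr` of `StmtsA`), for `|Im s| ≤ 1` by compactness. `|M| ≤ C T^{1/10}`, `|Qt| ≤ ∑ q(n) n^b ≤ N^{3/2} (2T)^{1/50} ≤ T`. -/
def S_Gro : Prop := ∀ P : ℝ → ℝ, IsP P → ∃ T₀ : ℝ, 3 ≤ T₀ ∧ ∀ T : ℝ, T₀ ≤ T →
  ∀ (M : ℕ) (S : ℕ → Finset ℕ) (l : ℕ → ℕ) (β : ℝ) (N : ℕ) (q : ℕ → ℝ), IsQ M S l β (2 * T) N q →
  ∀ b τ : ℝ, 0 ≤ b → b ≤ 3 / 2 → ∃ H : ℂ → ℂ, Differentiable ℂ H ∧
  (∀ s : ℂ, 1 / 2 ≤ s.re → s.re ≤ 2 → ‖H s‖ ≤ T ^ 10 * (1 + |s.im|) ^ 10) ∧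
  ∀ s : ℂ, s ≠ 1 → (riemannZeta s * MM P (T ^ (1 / 10 : ℝ)) s - 1) * Ds N (qt q b τ) s = H s / (s - 1)

/-- **Yb, between the lines.** `σ = 1/2 + b`. On this line `‖Qt‖² = Nb β (v+τ)²` (DsM, `IsQ.eq`). G1 for `F = (ζM - 1) Qt` (Gro), `θ = 2b/3`:
`J(1/2) ≤ 2∫|ζMQt|² + 2∫|Qt|² ≤ C T^{1+b/50} X`, `X = exp(β² st) ≥ 1` (Lh), `J(2) ≤ C T^{0.94}` (Lt), the summands `T^{-50}` are harmless. So the mean square is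
`≤ C (T^{1+b/50} X)^{1-θ} (T^{0.94})^θ ≤ C T X T^{b/50 - 0.06 · 2b/3} = C T X T^{b/50-b/25} = C T X T^{-b/50}`. -/
def S_Yb : Prop := ∀ B : ℝ, 0 ≤ B → ∃ P : ℝ → ℝ, IsP P ∧ (∀ ξ : ℝ, 0 ≤ ξ → ξ ≤ 1 / 2 → P ξ = 1) ∧ ∃ C T₀ : ℝ,
  1 ≤ C ∧ 3 ≤ T₀ ∧ ∀ T : ℝ, T₀ ≤ T →
  ∀ (ε c η : ℝ) (M : ℕ) (S : ℕ → Finset ℕ) (l : ℕ → ℕ) (y : ℕ → ℝ), 0 < ε → ε ≤ 1 / (B + 1) →
  IsSys ε c η (Real.log (2 * T)) M S l y → ∀ β : ℝ, 0 ≤ β → β ≤ B → ∀ b τ : ℝ, 0 ≤ b → b ≤ 3 / 2 →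
  ∫ v in (T / 3)..(4 * T), ‖riemannZeta ((1 / 2 + b : ℝ) + v * Complex.I) *
      MM P (T ^ (1 / 10 : ℝ)) ((1 / 2 + b : ℝ) + v * Complex.I) - 1‖ ^ 2 * Nb M S l β (v + τ) ^ 2 ≤
    C * T * Real.exp (β ^ 2 * st M S) * Real.exp (-(b * Real.log T / 50))

/-! ### Detection and conclusion -/

/-- **GGm.** `GG T A C` is the intersection of closed sets (for `T ≥ 1`, `A + C log(1+|γ-t|L)` is continuous in `t`). -/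
def S_GGm : Prop := ∀ T A C : ℝ, 1 ≤ T → MeasurableSet (GG T A C)

/-- **Kap, one dyadic range.** `κ ≥ 1`, `κ ≤ L/2`, `L = log T`. `Z` = zeros `ρ` with `κ < (Re ρ - 1/2) L ≤ 2κ`, `Re ρ < 1`, `T/2 ≤ Im ρ ≤ 3T`; `f = ζM - 1` (modified at `s = 1` to be measurable; it is
analytic near the discs, `f(ρ) = -1`), `r = κ/(2L) ≤ 1/4`, `a = 1/2 + κ/(2L)`, `b = 1/2 + 5κ/(2L) ≤ 7/4`, `W = e^{κ/200}/L ≤ T/100`, `S = [T/3, 4T]`. G2 with `B = Nb β²` (through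
`ENNReal.ofReal`) and Yb: `∫_E Nb² ≤ (1/πr²) · 2(W+r) · (2κ/L) · C T X e^{-(κ/2L) L/50}`, `1/r² = 4L²/κ²`, `W + r ≤ (e^{κ/200}+κ)/L`: total
`≤ C' ((e^{κ/200}+κ)/κ) e^{-κ/100} T X ≤ C'' e^{-κ/200} T X` (`κ e^{-κ/100} ≤ 200 κ e^{-κ/200}/κ`..., use `κ/200 ≤ e^{κ/200}`). The set `E` of the `t ∈ [T,2T]` with such a zero at distance `≤ W` is
closed (finitely many zeros). -/
def S_Kap : Prop := ∀ B : ℝ, 0 ≤ B → ∃ C T₀ : ℝ, 1 ≤ C ∧ 3 ≤ T₀ ∧ ∀ T : ℝ, T₀ ≤ T →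
  ∀ (ε c η : ℝ) (M : ℕ) (S : ℕ → Finset ℕ) (l : ℕ → ℕ) (y : ℕ → ℝ), 0 < ε → ε ≤ 1 / (B + 1) →
  IsSys ε c η (Real.log (2 * T)) M S l y → ∀ β : ℝ, 0 ≤ β → β ≤ B → ∀ κ : ℝ, 1 ≤ κ → κ ≤ Real.log T / 2 →
  ∫ t in {t : ℝ | T ≤ t ∧ t ≤ 2 * T ∧ ∃ ρ : ℂ, riemannZeta ρ = 0 ∧ ρ.re < 1 ∧
      κ < (ρ.re - 1 / 2) * Real.log T ∧ (ρ.re - 1 / 2) * Real.log T ≤ 2 * κ ∧
      |t - ρ.im| ≤ Real.exp (κ / 200) / Real.log T}, Nb M S l β t ^ 2 ≤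
    C * Real.exp (-(κ / 200)) * (T * Real.exp (β ^ 2 * st M S))

/-- **Cmp, final statement of part (c).** If `t ∈ [T,2T]` is not in `GG T A 400` there is a zero with `κ_ρ = (Re ρ - 1/2) L > A + 400 log(1+|γ-t|L)`, so `κ_ρ > A ≥ 1` and
`|γ-t| < e^{κ_ρ/400}/L`. Let `κ = 2^j A` with `κ < κ_ρ ≤ 2κ` (`j ≥ 0`; `κ < κ_ρ < L/2`): `|γ-t| ≤ e^{κ/200}/L`. Kap and `∑_j e^{-2^j A/200} ≤ C e^{-A/200}` (`A ≥ 1`; finitely many `j` with `2^j A < L/2`). The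
integrals are over subsets of `[T,2T]`, the integrand is continuous. -/
def S_Cmp : Prop := ∀ B : ℝ, 0 ≤ B → ∃ C T₀ : ℝ, 1 ≤ C ∧ 3 ≤ T₀ ∧ ∀ T : ℝ, T₀ ≤ T →
  ∀ (ε c η : ℝ) (M : ℕ) (S : ℕ → Finset ℕ) (l : ℕ → ℕ) (y : ℕ → ℝ), 0 < ε → ε ≤ 1 / (B + 1) →
  IsSys ε c η (Real.log (2 * T)) M S l y → ∀ β : ℝ, 0 ≤ β → β ≤ B → ∀ A : ℝ, 1 ≤ A →
  ∫ t in Icc T (2 * T) \ GG T A 400, Nb M S l β t ^ 2 ≤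
    C * Real.exp (-(A / 200)) * (T * Real.exp (β ^ 2 * st M S))

/-- **Mes.** The measure: Cmp with `M = 0` (then `IsSys` holds with `ε = 1`, `η = 1`, any `c`, `st = 0`, `Nb = 1`): `|[T,2T] ∖ G| ≤ C e^{-A/200} T ≤ δ T` for
`A ≥ A₀(δ)`. -/
def S_Mes : Prop := ∀ δ : ℝ, 0 < δ → ∃ A₀ : ℝ, 1 ≤ A₀ ∧ ∃ T₀ : ℝ, 3 ≤ T₀ ∧ ∀ A : ℝ, A₀ ≤ A → ∀ T : ℝ, T₀ ≤ T →
  (1 - δ) * T ≤ volume.real (GG T A 400)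

end Pool.Agent.Work.MP_56b8f5_nt.HZ
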