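import Pool.Agent.Work.MP_56b8f5_nt.HZ.Defs

/-!
MP_56b8f5_nt, block HZ, part (a): the pointwise inequality on `G(T;A,C)`. Statements of the items, with proofs.

Final statement `S_PW`: for `t` in `G(T;A,C)` and `log T ≤ x ≤ T^{1/m₀}`,
`|ζ(1/2+it)| ≤ exp(Re ∑_{n ≤ x} Λ(n)/log n c_x(n) n^{-1/2-it} + K log T/log x)` with `0 ≤ c_x(n) ≤ 1`.

Idea: Green's formula `∬ log|f| ΔΦ = 2π ∑ Φ(zeros)` for `f(z) = ζ(s₁+z)`, `s₁ = 1/2+it` and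
`Φ = χ Θ + χ' (log|z| - log|z-a|)`, `Θ(z) = S1(X(z-a))`, which is `log|z-a|` plus a harmonic function and decays like
`(X|v|)^{-3}`. The right cut-off (where `Re s ≥ 2`) gives the Dirichlet polynomial, the other cut-offs are small; near zeros
are paired (`ρ` and `1 - conj ρ`): the gain `log (|z|²/|z-a||z+a|)` beats `Θ`. No Hadamard product is used.
An item may assume the statements of all other items (no circularity: the order of the items is the order of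
dependence).
-/

set_option autoImplicit false

open MeasureTheory Set Filter Topology

noncomputable section

namespace Pool.Agent.Work.MP_56b8f5_nt.HZ

open Pool.Agent.Work.MP_56b8f5_nt.EM Pool.Agent.Work.MP_56b8f5_nt.WM Pool.Agent.Work.MP_56b8f5_nt.SH

/-! ### Green's formula -/

/-- **GrI.** Green's second identity. `MeasureTheory.integral_bilinear_hasLineDerivAt_right_eq_neg_left_of_integrable`
(`Mathlib/Analysis/Calculus/LineDeriv/IntegrationByParts.lean`; it needs the derivative of one factor only on the `tsupport`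
of the other one) four times: `∫ u ∂_h ∂_h Φ = - ∫ ∂_h u ∂_h Φ = ∫ ∂_h ∂_h u Φ` for `h = 1, i`. All products are continuous
with compact support (`u` and its derivatives are continuous on `U`, the other factor is continuous and vanishes outside the
compact set `tsupport Φ ⊆ U`). -/
def S_GrI : Prop := ∀ U : Set ℂ, IsOpen U → ∀ u Φ : ℂ → ℝ, ContDiffOn ℝ 2 u U → ContDiff ℝ 2 Φ →
  HasCompactSupport Φ → tsupport Φ ⊆ U →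
  Integrable (fun z => u z * L2 Φ z) ∧ Integrable (fun z => Φ z * L2 u z) ∧
    ∫ z, u z * L2 Φ z = ∫ z, Φ z * L2 u z

/-- **GrP.** The product rule. On `U`: `∂_1 (b₁ b₂ g) = b₁' b₂ g + b₁ b₂ Re q`, `∂_i (b₁ b₂ g) = b₁ b₂' g - b₁ b₂ Im q`;
differentiate again, `∂_1 ∂_1 g + ∂_i ∂_i g = L2 g`. Outside `U` one of `z.re ∉ tsupport b₁`, `z.im ∉ tsupport b₂` holds, so `Φ`
vanishes near `z` and every term of `DD` is zero (`b` and its derivatives vanish outside `tsupport b`). `tsupport Φ` is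
contained in the compact set of the `z` with `z.re ∈ tsupport b₁`, `z.im ∈ tsupport b₂`. -/
def S_GrP : Prop := ∀ b₁ b₂ : ℝ → ℝ, IsB b₁ → IsB b₂ → ∀ U : Set ℂ, IsOpen U →
  (∀ z : ℂ, z.re ∈ tsupport b₁ → z.im ∈ tsupport b₂ → z ∈ U) →
  ∀ (g : ℂ → ℝ) (q : ℂ → ℂ), ContDiffOn ℝ 2 g U → (∀ z ∈ U, ∀ h : ℂ, lineDeriv ℝ g z h = (q z * h).re) →
  ContDiff ℝ 2 (fun z : ℂ => b₁ z.re * b₂ z.im * g z) ∧
  HasCompactSupport (fun z : ℂ => b₁ z.re * b₂ z.im * g z) ∧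
  tsupport (fun z : ℂ => b₁ z.re * b₂ z.im * g z) ⊆ U ∧
  (∀ z ∈ U, L2 (fun z : ℂ => b₁ z.re * b₂ z.im * g z) z =
    DD b₁ b₂ g q z + b₁ z.re * b₂ z.im * L2 g z) ∧
  ∀ z ∉ U, DD b₁ b₂ g q z = 0

/-- **GrL.** The two kinds of functions. `Le`: direct computation, `∂_h log(|z|²+ε²)/2 = Re(conj z h)/(|z|²+ε²)`, and
`∂_1 (y/(|z|²+ε²)) + ∂_i (v/(|z|²+ε²)) = 2/(..) - 2|z|²/(..)² = 2ε²/(..)²`. Bounds: `ε ≤ 1`, `‖z‖² ≤ ‖z‖²+ε² ≤ ‖z‖²+1`.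
Real part of an analytic function: `lineDeriv (Re H) z h = Re(H'(z) h)`, again for `H'`: `Re(H'' 1 1) + Re(H'' i i) = 0`. -/
def S_GrL : Prop :=
  (∀ ε : ℝ, 0 < ε → ContDiff ℝ 2 (Le ε) ∧ (∀ z h : ℂ, lineDeriv ℝ (Le ε) z h = (Qe ε z * h).re) ∧
    ∀ z, L2 (Le ε) z = De ε z) ∧
  (∀ z : ℂ, z ≠ 0 → Tendsto (fun ε : ℝ => Le ε z) (𝓝[>] 0) (𝓝 (Real.log ‖z‖)) ∧
    Tendsto (fun ε : ℝ => Qe ε z) (𝓝[>] 0) (𝓝 (1 / z))) ∧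
  (∀ (ε : ℝ) (z : ℂ), 0 < ε → ε ≤ 1 → z ≠ 0 → |Le ε z| ≤ |Real.log ‖z‖| + Real.log (‖z‖ ^ 2 + 1) ∧
    ‖Qe ε z‖ ≤ 1 / ‖z‖) ∧
  (∀ (U : Set ℂ) (H : ℂ → ℂ), IsOpen U → DifferentiableOn ℂ H U → ContDiffOn ℝ 2 (fun z => (H z).re) U ∧
    (∀ z ∈ U, ∀ h : ℂ, lineDeriv ℝ (fun z => (H z).re) z h = (deriv H z * h).re) ∧
    ∀ z ∈ U, L2 (fun z => (H z).re) z = 0)

/-- **GrA.** Approximate identity. `z = p + εw`: `∫ F(z) De ε (z-p) dz = ∫ 2/(1+|w|²)² F(p+εw) dw` (change of variables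
in `ℂ = ℝ²`, factor `ε²`), dominated convergence (`F` is bounded), and `∫ 2/(1+|w|²)² dw = 2π ∫_0^∞ 2r/(1+r²)² dr = 2π`
(polar coordinates, `Complex.integral_comp_polarCoord_symm`, or `integral_fun_norm_addHaar`). -/
def S_GrA : Prop := ∀ (F : ℂ → ℝ) (p : ℂ), Continuous F → HasCompactSupport F →
  Tendsto (fun ε : ℝ => ∫ z, F z * De ε (z - p)) (𝓝[>] 0) (𝓝 (2 * Real.pi * F p))

/-- **GrB.** The bilinear identities, `b(z) = b₁(Re z) b₂(Im z)` supported in the ball of radius `R` (`ball 0 R` is the open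
set `U`). In GrI take `Φ = b g`, so by GrP `∫ u DD(g,q) = ∫ b g L2 u - ∫ u b L2 g`.
(a) `u = Re G`, `g = Re H`: both right sides vanish (GrL).
(b) `u = Le ε (·-z₀)`, `g = Re H`: `∫ u DD = ∫ b g De ε (·-z₀)`; `ε → 0`: GrA on the right, dominated convergence on the
left (`|log‖z‖|` is locally integrable in the plane).
(c) `u = Re G`, `g = Le ε (·-p)`, `q = Qe ε (·-p)`: `∫ u DD = - ∫ u b De ε (·-p)`; `ε → 0` (`1/‖z‖` is locally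
integrable in the plane). -/
def S_GrB : Prop := ∀ R : ℝ, 0 < R → ∀ b₁ b₂ : ℝ → ℝ, IsB b₁ → IsB b₂ →
  (∀ z : ℂ, z.re ∈ tsupport b₁ → z.im ∈ tsupport b₂ → ‖z‖ < R) →
  ∀ G H : ℂ → ℂ, DifferentiableOn ℂ G (Metric.ball 0 R) → DifferentiableOn ℂ H (Metric.ball 0 R) →
  (Integrable (fun z => (G z).re * DD b₁ b₂ (fun z => (H z).re) (deriv H) z) ∧
    ∫ z, (G z).re * DD b₁ b₂ (fun z => (H z).re) (deriv H) z = 0) ∧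
  (∀ z₀ : ℂ, ‖z₀‖ < R →
    Integrable (fun z => Real.log ‖z - z₀‖ * DD b₁ b₂ (fun z => (H z).re) (deriv H) z) ∧
    ∫ z, Real.log ‖z - z₀‖ * DD b₁ b₂ (fun z => (H z).re) (deriv H) z =
      2 * Real.pi * (b₁ z₀.re * b₂ z₀.im * (H z₀).re)) ∧
  ∀ p : ℂ, ‖p‖ < R →
    Integrable (fun z => (G z).re * DD b₁ b₂ (fun z => Real.log ‖z - p‖) (fun z => 1 / (z - p)) z) ∧
    ∫ z, (G z).re * DD b₁ b₂ (fun z => Real.log ‖z - p‖) (fun z => 1 / (z - p)) z =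
      -(2 * Real.pi * (b₁ p.re * b₂ p.im * (G p).re))

/-- **GrC.** Two logarithms, `z₀ ≠ p`: `u = Le ε (·-z₀)`, `g = Le δ (·-p)`: `∫ u DD(g) = ∫ b g De ε (·-z₀) - ∫ u b De δ (·-p)`;
first `ε → 0` with `δ` fixed: `∫ log‖z-z₀‖ DD(Le δ) = 2π b(z₀) Le δ (z₀-p) - ∫ log‖z-z₀‖ b De δ (·-p)`; then `δ → 0`: near `p` the
function `log‖z-z₀‖` is continuous; away from `p` (`‖z-p‖ ≥ r`) `De δ ≤ 2δ²/r⁴ → 0`; so the last integral tends to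
`2π b(p) log‖p-z₀‖` (GrA for `b` times a continuous function which equals `log‖z-z₀‖` near `p`). On the left dominated
convergence: `log‖z-z₀‖/‖z-p‖` and `log‖z-z₀‖ log‖z-p‖` are locally integrable. The case `‖z₀‖ ≥ R` (where `b(z₀) = 0`) is
included. -/
def S_GrC : Prop := ∀ b₁ b₂ : ℝ → ℝ, IsB b₁ → IsB b₂ → ∀ p z₀ : ℂ, z₀ ≠ p →
    Integrable (fun z => Real.log ‖z - z₀‖ *
      DD b₁ b₂ (fun z => Real.log ‖z - p‖) (fun z => 1 / (z - p)) z) ∧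
    ∫ z, Real.log ‖z - z₀‖ * DD b₁ b₂ (fun z => Real.log ‖z - p‖) (fun z => 1 / (z - p)) z =
      2 * Real.pi * (b₁ z₀.re * b₂ z₀.im * Real.log ‖z₀ - p‖ - b₁ p.re * b₂ p.im * Real.log ‖p - z₀‖)

/-- **GrF.** Factorisation. `f` is not locally zero (as `f 0 ≠ 0`), so it has finitely many zeros in the closed ball and
`f = ∏ (z-ρ)^{m(ρ)} g` with `g` analytic and zero free on the open ball (removable singularities; or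
`MeromorphicOn.extract_zeros_poles`, `AnalyticAt.analyticOrderNatAt_..`), and `g = e^G` there (the open ball is convex:
`g'/g` has a primitive, `Mathlib/Analysis/Complex/HasPrimitives.lean` or `BranchLogRoot.lean`). Zeros on the sphere are
allowed: their factors are zero free in the open ball. -/
def S_GrF : Prop := ∀ (R : ℝ) (f : ℂ → ℂ), 0 < R → AnalyticOnNhd ℂ f (Metric.closedBall 0 R) → f 0 ≠ 0 →
  ∀ Z : Finset ℂ, (∀ ρ, ρ ∈ Z ↔ f ρ = 0 ∧ ‖ρ‖ ≤ R) →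
  ∃ G : ℂ → ℂ, DifferentiableOn ℂ G (Metric.ball 0 R) ∧ ∀ z : ℂ, ‖z‖ < R → f z ≠ 0 →
    Real.log ‖f z‖ = ∑ ρ ∈ Z, (analyticOrderNatAt f ρ : ℝ) * Real.log ‖z - ρ‖ + (G z).re

/-- **Gr.** Green's formula for `log|f|`: GrF, GrB, GrC and linearity (the finitely many zeros form a null set).
Zeros `ρ` with `‖ρ‖ = R` do not meet the support of `b`: for these use that `log‖z-ρ‖` is the real part of an analytic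
function on the ball (GrB (a), (c)), or GrC with `b(ρ) = 0`. In (2) `f p ≠ 0` and
`∑ m(ρ) log‖p-ρ‖ + Re G(p) = log‖f p‖`. -/
def S_Gr : Prop := ∀ (R : ℝ) (f : ℂ → ℂ), 0 < R → AnalyticOnNhd ℂ f (Metric.closedBall 0 R) → f 0 ≠ 0 →
  ∀ Z : Finset ℂ, (∀ ρ, ρ ∈ Z ↔ f ρ = 0 ∧ ‖ρ‖ ≤ R) → ∀ b₁ b₂ : ℝ → ℝ, IsB b₁ → IsB b₂ →
  (∀ z : ℂ, z.re ∈ tsupport b₁ → z.im ∈ tsupport b₂ → ‖z‖ < R) →
  (∀ H : ℂ → ℂ, Differentiable ℂ H →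
    Integrable (fun z => Real.log ‖f z‖ * DD b₁ b₂ (fun z => (H z).re) (deriv H) z) ∧
    ∫ z, Real.log ‖f z‖ * DD b₁ b₂ (fun z => (H z).re) (deriv H) z =
      2 * Real.pi * ∑ ρ ∈ Z, (analyticOrderNatAt f ρ : ℝ) * (b₁ ρ.re * b₂ ρ.im * (H ρ).re)) ∧
  ∀ p : ℂ, ‖p‖ < R → f p ≠ 0 →
    Integrable (fun z => Real.log ‖f z‖ * DD b₁ b₂ (fun z => Real.log ‖z - p‖) (fun z => 1 / (z - p)) z) ∧
    ∫ z, Real.log ‖f z‖ * DD b₁ b₂ (fun z => Real.log ‖z - p‖) (fun z => 1 / (z - p)) z =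
      2 * Real.pi * (∑ ρ ∈ Z, (analyticOrderNatAt f ρ : ℝ) * (b₁ ρ.re * b₂ ρ.im * Real.log ‖ρ - p‖) -
        b₁ p.re * b₂ p.im * Real.log ‖f p‖)

/-! ### Zeta -/

/-- **Zgr.** Growth. For `Re s > 1`: `ζ(s) = s/(s-1) - s ∫_1^∞ {u} u^{-s-1} du` (Abel summation,
`LSeries_eq_mul_integral'` or `ZetaAsymp`); both sides are analytic in `Re s > 0`, `s ≠ 1` (the integral converges
absolutely, `hasDerivAt_integral_of_dominated_loc_of_deriv_le` or `DifferentiableOn` of locally uniform limits of integrals over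
`[1,N]`), so the identity holds there (identity theorem, the half plane without a point is preconnected). Bound:
`|s/(s-1)| ≤ 1 + 1/|s-1| ≤ 2`, `|s|/Re s ≤ 10 (4 + |Im s|)`. -/
def S_Zgr : Prop := ∃ C : ℝ, 1 ≤ C ∧ ∀ s : ℂ, 1 / 10 ≤ s.re → s.re ≤ 4 → 1 ≤ |s.im| →
  ‖riemannZeta s‖ ≤ C * |s.im|

/-- **Zct.** Number of zeros. Jensen's inequality `AnalyticOnNhd.sum_divisor_le` with centre `c = 2+it`, `R = 19/10 - 1/1000`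
(inside `Re s ≥ 1/10`, `|Im s - t| ≤ 2`) and `r = 187/100`: a point with `1/5 ≤ Re`, `|Im - t| ≤ 1/2` has distance at most
`√(1.8² + 0.25) < 1.87` from `c` if `Re ≤ 2`; there are no zeros with `Re ≥ 1`. `|ζ(2+it)| ≥ 2 - π²/6 > 1/3`, Zgr. The divisor at `ρ` is the
multiplicity (`AnalyticOnNhd.divisor_apply`). -/
def S_Zct : Prop := ∃ C : ℝ, 1 ≤ C ∧ ∀ t : ℝ, 4 ≤ |t| → ∀ Z : Finset ℂ,
  (∀ ρ ∈ Z, riemannZeta ρ = 0 ∧ 1 / 5 ≤ ρ.re ∧ |ρ.im - t| ≤ 1 / 2) →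
    ∑ ρ ∈ Z, mz ρ ≤ C * Real.log |t|

/-- **Zl1.** `log|ζ|` in the mean. For `0 < r ≤ 1.899`: `circleAverage (log‖ζ‖) (2+it) r ≥ log|ζ(2+it)| ≥ -2`
(`AnalyticOnNhd.circleAverage_log_norm`, all terms of the sum are `≥ 0`) and `log‖ζ‖ ≤ log(C|t|+2C)` on the disc (Zgr), so
the circle average of `|log‖ζ‖| = 2 log⁺ - log` is `≤ C' log|t|`; integrate over `r` (polar coordinates around `2+it`); the disc
of radius `1.899` contains the box `1/5 ≤ Re ≤ 3`, `|Im - t| ≤ 1/2`. -/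
def S_Zl1 : Prop := ∃ C : ℝ, 1 ≤ C ∧ ∀ t : ℝ, 4 ≤ |t| →
  IntegrableOn (fun s : ℂ => Real.log ‖riemannZeta s‖) {s : ℂ | 1 / 5 ≤ s.re ∧ s.re ≤ 3 ∧ |s.im - t| ≤ 1 / 2} ∧
  ∫ s in {s : ℂ | 1 / 5 ≤ s.re ∧ s.re ≤ 3 ∧ |s.im - t| ≤ 1 / 2}, |Real.log ‖riemannZeta s‖| ≤
    C * Real.log |t|

/-- **Zsy.** Symmetry of the zeros in the strip `0 < Re < 1`. `ζ = Λ/Γ_ℝ` with `Γ_ℝ` analytic and zero free for
`Re s > 0` (`riemannZeta_def_of_ne_zero`, `Complex.Gammaℝ_ne_zero_of_re_pos`), `Λ(1-s) = Λ(s)`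
(`completedRiemannZeta_one_sub`) and `Λ(conj s) = conj Λ(s)` (from `riemannZeta_conj` and `Γ_ℝ(conj s) = conj Γ_ℝ(s)`). So
`Λ(s) = conj Λ(1 - conj s)`; if `Λ(s) = (s-ρ)^n g(s)` near `ρ`, `g(ρ) ≠ 0`, then near `ρ' = 1 - conj ρ`:
`Λ(s) = (-1)^n (s-ρ')^n conj g(1 - conj s)`, and `s ↦ conj g(1 - conj s)` is analytic at `ρ'` and `≠ 0`. -/
def S_Zsy : Prop := ∀ ρ : ℂ, 0 < ρ.re → ρ.re < 1 → mz (1 - (starRingEnd ℂ) ρ) = mz ρ ∧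
  (riemannZeta ρ = 0 ↔ riemannZeta (1 - (starRingEnd ℂ) ρ) = 0)

/-- **Zeu.** The logarithm for `Re s ≥ 2` (Euler product): `ζ(s) = exp(∑_p -log(1-p^{-s}))`
(`riemannZeta_eulerProduct_exp_log`), `-log(1-z) = ∑_k z^k/k` and `Λ(p^k)/log(p^k) = 1/k`; so
`log‖ζ(s)‖ = Re ∑ Λ(n)/log n n^{-s}`. `0 ≤ Λ(n)/log n ≤ 1` (`vonMangoldt_le_log`). Last part: `∑_{n ≥ 2} n^{-2} ≤ 1`. -/
def S_Zeu : Prop := (∀ n : ℕ, 0 ≤ ArithmeticFunction.vonMangoldt n / Real.log n ∧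
    ArithmeticFunction.vonMangoldt n / Real.log n ≤ 1) ∧
  ∀ s : ℂ, 2 ≤ s.re →
    Summable (fun n : ℕ => ‖((ArithmeticFunction.vonMangoldt n / Real.log n : ℝ) : ℂ) * (n : ℂ) ^ (-s)‖) ∧
    Real.log ‖riemannZeta s‖ =
      (∑' n : ℕ, ((ArithmeticFunction.vonMangoldt n / Real.log n : ℝ) : ℂ) * (n : ℂ) ^ (-s)).re ∧
    |Real.log ‖riemannZeta s‖| ≤ 1

/-! ### The kernel -/

/-- **Kex.** Existence: a `ContDiffBump` with centre `1/2` and radii `1/8 < 1/4`, normalised. -/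
def S_Kex : Prop := ∃ κ : ℝ → ℝ, IsKer κ

/-- **Kkt.** `kt` is entire (differentiation under the integral). Bound: integrate by parts `N` times,
`|w|^N |kt w| ≤ ∫ |κ^{(N)}(τ)| e^{τ Re w} dτ ≤ C_N (1 + e^{Re w})` (`0 ≤ τ ≤ 1`), also `N = 0`; `(1+|w|)^N ≤ 2^N (1+|w|^N)`. `kk`: `κ ≥ 0`,
`∫ κ = 1`, support; continuity. -/
def S_Kkt : Prop := ∀ κ : ℝ → ℝ, IsKer κ → Differentiable ℂ (kt κ) ∧
  (∀ N : ℕ, ∃ C : ℝ, 1 ≤ C ∧ ∀ w : ℂ, ‖kt κ w‖ * (1 + ‖w‖) ^ N ≤ C * (1 + Real.exp w.re)) ∧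
  (∀ ξ : ℝ, 0 ≤ kk κ ξ ∧ kk κ ξ ≤ 1 ∧ HasDerivAt (kk κ) (-(κ ξ)) ξ) ∧
  (∀ ξ : ℝ, ξ ≤ 1 / 4 → kk κ ξ = 1) ∧ ∀ ξ : ℝ, 3 / 4 ≤ ξ → kk κ ξ = 0

/-- **KHh.** `H` is entire with `H'(w) = ∫_0^1 e^{τw} kk(τ) dτ` (`|(e^{τw}-1)/τ| ≤ |w| e^{|w|}`), and integration by parts gives
`w H'(w) = [e^{τw} kk(τ)]_0^1 + ∫_0^1 e^{τw} κ(τ) dτ = -1 + kt(w)`. Second part (for `w ≠ 0`): the derivative of
`log‖w‖ + Re H(w)` in the direction `h` is `Re((1/w + H'(w)) h) = Re(kt(w)/w h)`. -/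
def S_KHh : Prop := ∀ κ : ℝ → ℝ, IsKer κ → Differentiable ℂ (Hh κ) ∧
  (∀ w : ℂ, 1 + w * deriv (Hh κ) w = kt κ w) ∧
  ∀ (c : ℝ) (w : ℂ), w ≠ 0 → HasFDerivAt (S1 κ c)
    (Complex.reCLM.comp ((ContinuousLinearMap.mul ℝ ℂ) (kt κ w / w))) w

/-- **KS1.** The constant. Let `S(w) = log‖w‖ + Re H(w)`. On horizontal lines `Im w = v` (for `v = 0` only `u < 0`) the derivative of
`u ↦ S(u+iv)` is `Re(kt(w)/w)`, of absolute value `≤ C (1+e^u)/|w| (1+|w|)^{-9}` (Kkt), integrable at `-∞`; so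
`S(u+iv) → c(v)` as `u → -∞`, and
`|S(u+iv) - c(v)| ≤ ∫_{-∞}^u |kt(u'+iv)/(u'+iv)| du'`. `c(v)` does not depend on `v`: vertical segment at abscissa
`u → -∞` (there `|kt(w)/w| ≤ C |u|^{-2}`). For `|v| ≥ 1` the integral is `≤ C (1+e^u) |v|^{-3}`; for `u ≤ -1` it is
`≤ C ∫_{-∞}^u (|u'|+|v|)^{-4} du' ≤ C (|u|+|v|)^{-3} ≤ C ‖w‖^{-3}`. Third part of `IsC`: Kkt. -/
def S_KS1 : Prop := ∀ κ : ℝ → ℝ, IsKer κ → ∃ c C : ℝ, 1 ≤ C ∧ IsC κ c C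

/-- **KFo.** Fourier inversion. For `c₁ > 0`: `kt(X(c₁+iv))/(c₁+iv) = ∫_{-∞}^∞ e^{ξ(c₁+iv)} kk(ξ/X) dξ` (integration by parts,
`kk(ξ/X)` is `1` for `ξ ≤ 0` and `0` for `ξ ≥ X`), i.e. the Fourier transform of `g(ξ) = e^{c₁ξ} kk(ξ/X)` (continuous,
integrable); the left side is integrable in `v` (Kkt: `≤ C(1+e^{Xc₁})/|c₁+iv|^2`); Fourier inversion
(`Continuous.fourier_inversion` / `MeasureTheory.Integrable.fourierInv_fourier_eq`): `∫ (..) e^{-iωv} dv = 2π g(ω)`; multiply by `e^{-ωc₁}`. -/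
def S_KFo : Prop := ∀ κ : ℝ → ℝ, IsKer κ → ∀ X c₁ ω : ℝ, 0 < X → 0 < c₁ →
  Integrable (fun v : ℝ => kt κ (X * (c₁ + v * Complex.I)) / (c₁ + v * Complex.I)) ∧
  ∫ v : ℝ, kt κ (X * (c₁ + v * Complex.I)) / (c₁ + v * Complex.I) *
      Complex.exp (-(ω * (c₁ + v * Complex.I))) = 2 * Real.pi * kk κ (ω / X)

/-- **KDn.** The right cut-off. Write `q(z) = kt(X(z-a))/(z-a)`, `Θ(z) = S1(X(z-a))`; for `3/2 ≤ y ≤ 5/2` put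
`e(y) = ∫ Θ(y+iv) e^{-iωv} dv` (`|Θ| ≤ C(1+e^{X y})/(X|v|)³` for `X|v| ≥ 1`, continuous in `v`). Then
`e'(y) = ∫ Re q e^{-iωv} dv` (KHh; dominated convergence), and integration by parts in `v` (`∂_v Θ = -Im q`):
`iω e(y) = -∫ Im q e^{-iωv} dv`. So `e' + ωe = ∫ q e^{-iωv} dv = e^{ω(y-a)} 2π kk(ω/X)` (KFo with `c₁ = y-a`). `Θ` is real, so the integral is
`Re(e^{-ωs} ∫ (cy'' e + 2 cy' e') e^{-ωy} dy)` over `[3/2,5/2]`; `cy''` and `cy'` vanish at both ends, integrate the first term by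
parts: `= Re(e^{-ωs} ∫ cy' (e' + ωe) e^{-ωy} dy) = 2π kk(ω/X) e^{-ωa} Re(e^{-ωs}) ∫ cy'`, and `∫_{3/2}^{5/2} cy' = -1`. -/
def S_KDn : Prop := ∀ (κ : ℝ → ℝ) (c C : ℝ), IsKer κ → IsC κ c C → ∀ (X a ω : ℝ) (s : ℂ), 1 ≤ X → 0 < a → a ≤ 1 →
  0 < ω →
  Integrable (fun z : ℂ => if 3 / 2 ≤ z.re then deriv (deriv cy) z.re * S1 κ c (X * (z - a)) +
    2 * (deriv cy z.re * (kt κ (X * (z - a)) / (z - a)).re) else 0) ∧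
  ∫ z : ℂ, (if 3 / 2 ≤ z.re then deriv (deriv cy) z.re * S1 κ c (X * (z - a)) +
      2 * (deriv cy z.re * (kt κ (X * (z - a)) / (z - a)).re) else 0) * (Complex.exp (-(ω * (s + z)))).re =
    -(2 * Real.pi * (kk κ (ω / X) * Real.exp (-(ω * a)) * (Complex.exp (-(ω * s))).re))

/-! ### The identity -/

/-- The right part of the cut-off terms. -/
def Cr (κ : ℝ → ℝ) (c X a H : ℝ) (z : ℂ) : ℝ :=
  if 3 / 2 ≤ z.re then cv H z.im * (deriv (deriv cy) z.re * S1 κ c (X * (z - a)) +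
    2 * (deriv cy z.re * (kt κ (X * (z - a)) / (z - a)).re)) else 0

/-- **Idn.** The identity: Gr for `f(z) = ζ(s₁+z)`, `R = 3H` (`1 - s₁` is not in the ball: `|Im| = t ≥ 10H`), the support of
`cy ⊗ cv` is in `|y| ≤ 5/2`, `|v| ≤ 2H`, inside the ball as `H ≥ 4`; `cy`, `cv H`, `cn` are `IsB`.
(i) `b = cy ⊗ cv`, `H(z) = Hh(X(z-a)) + log X - c`; (ii) `b = cy ⊗ cv`, `p = a`; (iii) minus `b = cn ⊗ cn`, `p = a`; (iv) `b = cn ⊗ cn`,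
`p = 0`. `b(a) = 1` in (ii) and (iii) (`0 < a ≤ 1/16`), so `log‖f(a)‖` cancels, and (iv) gives `-2π log‖f(0)‖`. The sum of the left
sides is `∫ log‖f‖ Cu`: `DD` is linear in `(g,q)`, `S1(X(z-a)) = log X + log‖z-a‖ + Re Hh(X(z-a)) - c` for `z ≠ a`, and its `q` is
`1/(z-a) + X Hh'(X(z-a)) = kt(X(z-a))/(z-a)` (KHh). The right sides give `2π (∑ m Φ(ρ-s₁) - log‖ζ(s₁)‖)`.
`analyticOrderNatAt f (ρ-s₁) = analyticOrderNatAt ζ ρ` (translation). -/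
def S_Idn : Prop := ∀ κ : ℝ → ℝ, IsKer κ → ∀ c X a H t : ℝ, 0 < X → 0 < a → a ≤ 1 / 16 → 4 ≤ H → 10 * H ≤ t →
  riemannZeta (1 / 2 + t * Complex.I) ≠ 0 → riemannZeta (1 / 2 + t * Complex.I + a) ≠ 0 →
  ∀ Z : Finset ℂ, (∀ ρ, ρ ∈ Z ↔ riemannZeta ρ = 0 ∧ ‖ρ - (1 / 2 + t * Complex.I)‖ ≤ 3 * H) →
  Integrable (fun z => Real.log ‖riemannZeta (1 / 2 + t * Complex.I + z)‖ * Cu κ c X a H z) ∧
  Real.log ‖riemannZeta (1 / 2 + t * Complex.I)‖ =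
    ∑ ρ ∈ Z, mz ρ * Phi κ c X a H (ρ - (1 / 2 + t * Complex.I)) -
      1 / (2 * Real.pi) * ∫ z, Real.log ‖riemannZeta (1 / 2 + t * Complex.I + z)‖ * Cu κ c X a H z

/-- **TR.** The right part is the Dirichlet polynomial. On the support `Re(s₁+z) ≥ 2`, use Zeu; replace `cv H` by `1`: where they
differ `|v| ≥ H` and the integrand is `≤ 1 · C (1+e^{5X/2})/(X|v|)³` (`IsC`, `1 ≤ X`), the error is `≤ C' e^{5X/2} H^{-2}`. Then exchange sum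
and integral (`∑ n^{-2}` converges) and use KDn with `ω = log n`, `s = s₁` (for `n ≥ 2`; the terms `n = 0, 1` vanish because `Λ = 0`):
`= -2π ∑ Λ(n)/log n kk(log n/X) n^{-a} Re n^{-s₁}`, and `kk = 0` for `n > e^X`. -/
def S_TR : Prop := ∀ (κ : ℝ → ℝ) (c C : ℝ), IsKer κ → IsC κ c C → ∃ C' : ℝ, 1 ≤ C' ∧ ∀ X a H t : ℝ, 1 ≤ X →
  0 < a → a ≤ 1 / 16 → 4 ≤ H → 10 * H ≤ t →
  Integrable (fun z => Real.log ‖riemannZeta (1 / 2 + t * Complex.I + z)‖ * Cr κ c X a H z) ∧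
  |(∫ z, Real.log ‖riemannZeta (1 / 2 + t * Complex.I + z)‖ * Cr κ c X a H z) +
    2 * Real.pi * (Dx (wk κ X a) (Real.exp X) t).re| ≤ C' * Real.exp (5 / 2 * X) / H ^ 2

/-- **TL.** The other cut-off terms, `L' = log t`: `Cu - Cr` is the sum of
(1) `cv (cy'' Θ + 2 cy' Re q)` on `-3/10 ≤ y ≤ -1/5`: there `w = X(z-a)` has `Re w ≤ -X/5 ≤ -1`, `‖w‖ ≥ X max(1/5, |v|)`, so it is
`≤ C'/(X max(1/5,|v|))³` (`q = X kt(w)/w`);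
(2) `cy (cv'' Θ - 2 cv' Im q)`, `H ≤ |v| ≤ 2H`: `≤ C' (1+e^{5X/2})/(XH)³`;
(3) `DD cn cn (log‖z‖ - log‖z-a‖)`, zero unless `1/8 ≤ max(|y|,|v|) ≤ 1/4`: `≤ C' a` (`a ≤ 1/16`).
Integrate against `|log‖ζ(s₁+z)‖|` over the boxes `|v - k| ≤ 1/2`, `|k| ≤ 2H+1`, with Zl1 (`log|t+k| ≤ 2 log t`): total
`≤ C' log t (X^{-3} ∑ max(1,|k|)^{-3} + H e^{5X/2} H^{-3} + a)`. -/
def S_TL : Prop := ∀ (κ : ℝ → ℝ) (c C : ℝ), IsKer κ → IsC κ c C → ∃ C' : ℝ, 1 ≤ C' ∧ ∀ X a H t : ℝ, 5 ≤ X →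
  0 < a → a ≤ 1 / 16 → 4 ≤ H → 10 * H ≤ t →
  |∫ z, Real.log ‖riemannZeta (1 / 2 + t * Complex.I + z)‖ * (Cu κ c X a H z - Cr κ c X a H z)| ≤
    C' * Real.log t * (1 / X ^ 3 + a + Real.exp (5 / 2 * X) / H ^ 2)

/-! ### The zeros -/

/-- **Pair.** A pair of zeros `s₁ ± y + iv` contributes at most `0`. By symmetry `y ≥ 0`. For `z ≠ a` each term is
`S1(X(z-a)) - log‖z-a‖ + log‖z‖`. Let `P = |z-a|²|z+conj a..|²`, precisely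
`P = ((a-y)²+v²)((a+y)²+v²) = |z|⁴ + a²(a²+2v²-2y²)`; the logarithms give `-½ log(P/|z|⁴)`.
Case 1, `y ≤ a/4`: `P/|z|⁴ ≥ 1 + s`, `s = (7/8) a²/(a²+v²) ≤ 1`, `log(1+s) ≥ s/2`, gain `≥ (7/32) a²/(a²+v²)`; `Re w ≤ -3λ/4 ≤ -1`,
`‖w‖² ≥ X² (9/16)(a²+v²)`, `‖w‖ ≥ 1`: both `|S1| ≤ C/‖w‖³ ≤ C/‖w‖² ≤ C (16/9) λ^{-2} a²/(a²+v²)` (`X a ≥ λ`): fine for `λ² ≥ 17 C`.
Case 2, `y > a/4`: put `r = |v| L`. `A + C₀ log(1+r) ≥ yL > aL/4 ≥ λL/(4X) ≥ λm₀/4`, so `r ≥ r₀(m₀)` is large (impossible if `C₀ = 0`),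
`X|v| = rX/L ≥ λr/(4(A+C₀ log(1+r))) ≥ max(1, (1+r)^{1/2})`, `y ≤ |v|(A+C₀ log(1+r))/r ≤ |v|/10`, `a ≤ 2λ/X`, so `a/|v| ≤ 2λ/(X|v|) ≤ 1/2`.
Gain: `P/|z|⁴ ≥ 1 + 1.9 a²/v²`, `½ log ≥ 0.4 a²/v² ≥ 0.4 λ²/(X|v|)²`. Loss: `|S1| ≤ C(1+e^{Xy})/(X|v|)³`,
`e^{Xy} ≤ exp((X/L)(A+C₀ log(1+r))) ≤ e^A (1+r)^{1/4}` (`m₀ ≥ 4C₀`, `m₀ ≥ 1`). Fine if `10 C e^A (1+r)^{1/4} ≤ λ² (1+r)^{1/2}`. -/
def S_Pair : Prop := ∀ (κ : ℝ → ℝ) (c C : ℝ), IsKer κ → 1 ≤ C → IsC κ c C → ∃ lam₀ : ℝ, 1 ≤ lam₀ ∧ ∀ lam : ℝ,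
  lam₀ ≤ lam → ∀ A C₀ : ℝ, 0 ≤ A → 0 ≤ C₀ → ∃ m₀ : ℝ, 1 ≤ m₀ ∧ ∀ L X a y v : ℝ, 1 ≤ X → m₀ * X ≤ L →
  lam / X ≤ a → a ≤ 2 * lam / X → |y| * L ≤ A + C₀ * Real.log (1 + |v| * L) → ¬(y = 0 ∧ v = 0) →
  2 * (Real.log X - c) + (Hh κ (X * (((y : ℂ) + v * Complex.I) - a))).re +
    (Hh κ (X * ((-(y : ℂ) + v * Complex.I) - a))).re + 2 * Real.log ‖(y : ℂ) + v * Complex.I‖ ≤ 0

/-- **ZN.** Near zeros, `|Im ρ - t| ≤ 1/8`. They lie in the strip (`0 < Re ρ` since `Re ρ ≥ 1/5`; `Re ρ < 1`); by the definition of `GG`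
applied to `ρ` and to `1 - conj ρ` (Zsy) `|y| L ≤ A + C₀ log(1+|v|L)`, so `|y| ≤ 1/16` for `T ≥ T₀`; hence all cut-offs are `1` and
`Phi(z) = Re Hh(X(z-a)) + log X - c + log‖z‖`. The set of near zeros is stable under `ρ ↦ 1 - conj ρ`, i.e. `z ↦ -conj z`, with the same
multiplicities (Zsy): `∑ m Φ(z) = ½ ∑ m (Φ(z) + Φ(-conj z)) ≤ 0` by Pair (`z ≠ 0` as `ζ(s₁) ≠ 0`). -/
def S_ZN : Prop := ∀ (κ : ℝ → ℝ) (c C : ℝ), IsKer κ → 1 ≤ C → IsC κ c C → ∃ lam₀ : ℝ, 1 ≤ lam₀ ∧ ∀ lam : ℝ,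
  lam₀ ≤ lam → ∀ A C₀ : ℝ, 0 ≤ A → 0 ≤ C₀ → ∃ m₀ T₀ : ℝ, 1 ≤ m₀ ∧ 3 ≤ T₀ ∧ ∀ T : ℝ, T₀ ≤ T → ∀ t ∈ GG T A C₀,
  riemannZeta (1 / 2 + t * Complex.I) ≠ 0 → ∀ X a : ℝ, 1 ≤ X → m₀ * X ≤ Real.log T → lam / X ≤ a →
  a ≤ 2 * lam / X → ∀ Z : Finset ℂ,
    (∀ ρ, ρ ∈ Z ↔ riemannZeta ρ = 0 ∧ 1 / 5 ≤ ρ.re ∧ |ρ.im - t| ≤ 1 / 8) →
    ∑ ρ ∈ Z, mz ρ * Phi κ c X a (Real.sqrt T) (ρ - (1 / 2 + t * Complex.I)) ≤ 0

/-- **ZF.** Far zeros, `|v| > 1/8`, `H = √T`. `Φ = cy cv Θ + cn cn log(‖z‖/‖z-a‖)` (`z ≠ a`), the second term is `≤ C' a` and vanishes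
unless `|v| ≤ 1/4` (there are `≤ C' log T` such zeros, Zct); `|Θ| ≤ C(1+e^{Xy})/(X|v|)³` (`X|v| ≥ 1`). On `GG` (a zero with `Re ρ ≥ 1/5`
is in the strip): `Xy ≤ (X/L)(A + C₀ log(1+|v|L))`, so `e^{Xy} ≤ e^A (1+|v|)^{1/4} (1+L)^{C₀X/L}` (`m₀ ≥ 1`, `m₀ ≥ 4C₀`, `1+|v|L ≤ (1+|v|)(1+L)`) and
`(1+L)^{C₀X/L} ≤ X`: i.e. `C₀ X log(1+L) ≤ L log X`: if `X ≤ √L` since `log X ≥ 1`, `C₀ √L log(1+L) ≤ L` (`T ≥ T₀`); if `X ≥ √L` since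
`log X ≥ ½ log L`, `log(1+L) ≤ 2 log L`, `4C₀X ≤ L`. Zct in the boxes `|v-k| ≤ 1/2` (`|k| ≤ 3√T+1`; the zeros with `cy cv ≠ 0` have `Re ≥ 1/5`):
`∑ m |Φ| ≤ C' L (a + X^{-3} X ∑_k (1+|k|)^{1/4}/max(1/8,|k|-1/2)³)`. -/
def S_ZF : Prop := ∀ (κ : ℝ → ℝ) (c C : ℝ), IsKer κ → 1 ≤ C → IsC κ c C → ∀ A C₀ : ℝ, 0 ≤ A → 0 ≤ C₀ →
  ∃ m₀ T₀ C' : ℝ, 1 ≤ m₀ ∧ 3 ≤ T₀ ∧ 1 ≤ C' ∧ ∀ T : ℝ, T₀ ≤ T → ∀ t ∈ GG T A C₀, ∀ X a : ℝ, 8 ≤ X →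
  m₀ * X ≤ Real.log T → 0 < a → a ≤ 1 / 16 → ∀ Z : Finset ℂ,
    (∀ ρ ∈ Z, riemannZeta ρ = 0 ∧ 1 / 8 < |ρ.im - t|) →
    ∑ ρ ∈ Z, mz ρ * |Phi κ c X a (Real.sqrt T) (ρ - (1 / 2 + t * Complex.I))| ≤
      C' * Real.log T * (a + 1 / X)

/-! ### Conclusion -/

/-- **PWa.** The inequality for almost all `a`: Idn with `H = √T` (`t ≥ T ≥ 10√T`), TR, TL, ZN, ZF. Zeros in the ball with `Re ρ < 1/5` have
`Phi = 0` (`cy = 0` for `y ≤ -3/10`, `cn = 0` for `|y| ≥ 1/4`), so the sum over `Z` is the sum over the near zeros plus far zeros.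
`e^{5X/2}/H² ≤ T^{5/(2m₀)-1} ≤ T^{-1/2} ≤ 1/X`-ish for `m₀ ≥ 5`; `a ≤ 2λ/X`; `log t ≤ 2 log T`. -/
def S_PWa : Prop := ∀ (κ : ℝ → ℝ) (c C : ℝ), IsKer κ → 1 ≤ C → IsC κ c C → ∃ lam : ℝ, 1 ≤ lam ∧
  ∀ A C₀ : ℝ, 0 ≤ A → 0 ≤ C₀ → ∃ m₀ T₀ K : ℝ, 1 ≤ m₀ ∧ 3 ≤ T₀ ∧ 0 ≤ K ∧ ∀ T : ℝ, T₀ ≤ T → ∀ t ∈ GG T A C₀,
  riemannZeta (1 / 2 + t * Complex.I) ≠ 0 → ∀ X a : ℝ, Real.log (Real.log T) ≤ X → m₀ * X ≤ Real.log T →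
  lam / X ≤ a → a ≤ 2 * lam / X → riemannZeta (1 / 2 + t * Complex.I + a) ≠ 0 →
    Real.log ‖riemannZeta (1 / 2 + t * Complex.I)‖ ≤ (Dx (wk κ X a) (Real.exp X) t).re + K * (Real.log T / X)

/-- **PW, final statement of part (a).** Kex, KS1, PWa with `X = log x`; `c x n = wk κ (log x) (λ/log x) n` (between `0` and `1` for `n ≥ 1`;
put `0` for `n = 0`, this term is zero anyway). If `ζ(s₁) = 0` the inequality is trivial. Otherwise PWa holds for all `a ∈ (λ/X, 2λ/X)` except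
finitely many (zeros of zeta on a segment); both sides are continuous in `a`, let `a → λ/X`. -/
def S_PW : Prop := ∃ c : ℝ → ℕ → ℝ, (∀ x n, 0 ≤ c x n ∧ c x n ≤ 1) ∧ ∀ A C₀ : ℝ, 0 ≤ A → 0 ≤ C₀ →
  ∃ m₀ T₀ K : ℝ, 1 ≤ m₀ ∧ 3 ≤ T₀ ∧ 0 ≤ K ∧ ∀ T : ℝ, T₀ ≤ T → ∀ t ∈ GG T A C₀, ∀ x : ℝ, Real.log T ≤ x →
    x ≤ T ^ (1 / m₀) →
    ‖riemannZeta (1 / 2 + t * Complex.I)‖ ≤
      Real.exp ((Dx (c x) x t).re + K * (Real.log T / Real.log x))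

end Pool.Agent.Work.MP_56b8f5_nt.HZ
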