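import Pool.Agent.Work.MP_56b8f5_nt.HZ.B_HarT

/-!
MP_56b8f5_nt, block HZ, part B: Harper's bound on a set, uniformly in `0 < k ≤ k₀`, and its consequences: Gaussian upper
bound for the measure of the large values, concentration of the moments.
-/

set_option autoImplicit false

open MeasureTheory Set Filter Topology

noncomputable section

namespace Pool.Agent.Work.MP_56b8f5_nt.HZB

open Pool.Agent.Work.MP_56b8f5_nt.SH

/-- **HarU.** As HarT, uniformly in `0 < k ≤ k₀`. -/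
def S_HarU : Prop := ∀ k₀ K b₀ : ℝ, 0 < k₀ → 0 ≤ K → 0 < b₀ → ∃ C T₀ : ℝ, 1 ≤ C ∧ 3 ≤ T₀ ∧
  ∀ T : ℝ, T₀ ≤ T → ∀ v : ℝ → ℕ → ℝ, (∀ x n, 0 ≤ v x n ∧ v x n ≤ 1) →
  ∀ E : Set ℝ, MeasurableSet E → E ⊆ Icc T (2 * T) → Hyp v K b₀ T E →
  ∀ k : ℝ, 0 < k → k ≤ k₀ →
    ∫ t in E, ‖riemannZeta (1 / 2 + t * Complex.I)‖ ^ (2 * k : ℝ) ≤
      C * (T * Real.log T ^ (k ^ 2 : ℝ))

open AuxHarT in
theorem pf_HarU (hInt : S_IntD) (hSp : S_SpS) (hMer : S_Mer) (hFst : S_Fst) (hPwZ : S_PwZ)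
    (hLevE : S_LevE) (hLevB : S_LevB) (hNmL : S_NmL) (hNmP : S_NmP) (hNmS : S_NmS)
    (hSpl : S_Spl) : S_HarU := by
  intro k₀ K b₀ hk₀ hK hb₀
  obtain ⟨C₀, hC₀, hZ⟩ := hPwZ
  obtain ⟨C₁, hC₁, hM⟩ := hMer
  obtain ⟨b1, hb1, hb1', hL⟩ := hNmL k₀ hk₀.le
  obtain ⟨b2, hb2, hb2', hS⟩ := hNmS k₀ K C₁ hk₀.le hK hC₁
  obtain ⟨b, hb, hbb0, hbb1, hbb2⟩ : ∃ b : ℝ, 0 < b ∧ b ≤ b₀ ∧ b ≤ b1 ∧ b ≤ b2 :=
    ⟨min b₀ (min b1 b2), by positivity, min_le_left _ _,
      (min_le_right _ _).trans (min_le_left _ _), (min_le_right _ _).trans (min_le_right _ _)⟩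
  have hb1e : b ≤ 1 := hbb1.trans hb1'
  obtain ⟨T1, hT1⟩ := hLevE b hb hb1e
  obtain ⟨T2, hT2⟩ := hFst
  set Y₀ : ℝ := Real.exp (k₀ ^ 2 * C₁ + Real.exp (3 * k₀)) with hY₀
  have hY₀1 : 1 ≤ Y₀ := Real.one_le_exp (by positivity)
  have h21 : 1 ≤ Real.exp (2 * k₀ * (C₀ + 20 * K / b)) := Real.one_le_exp (by positivity)
  refine ⟨(Real.exp (2 * k₀ * (C₀ + 20 * K / b)) * 2 + Real.exp (2 * k₀ * C₀) * 8) *
    (Real.exp 4 * 3 * Y₀), max 3 (max T1 T2), ?_, le_max_left _ _, ?_⟩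
  · have h22 : 1 ≤ Real.exp 4 := Real.one_le_exp (by norm_num)
    have h23 : 0 < Real.exp (2 * k₀ * C₀) := Real.exp_pos _
    have h24 : 1 ≤ Real.exp 4 * 3 * Y₀ := by nlinarith
    nlinarith
  intro T hT v hv E hE hET hHyp k hk hkk
  set Y : ℝ := Real.exp (k ^ 2 * C₁ + Real.exp (3 * k)) with hY
  have hTT1 : T1 ≤ T := (le_max_left _ _).trans ((le_max_right _ _).trans hT)
  have hTT2 : T2 ≤ T := (le_max_right _ _).trans ((le_max_right _ _).trans hT)
  obtain ⟨M, hLev⟩ := hT1 T hTT1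
  obtain ⟨hCf, hZ'⟩ := hZ v hv
  have hBig := hLev.big
  have hTp : 1 ≤ T := hBig.1
  obtain ⟨hlog, hall, hlt⟩ := hLevB T b M hLev hb1e
  obtain ⟨hL1', hL2⟩ := hL T b M hb hbb1 hLev
  have hL1 : ∀ J ≤ M, ∑ i ∈ Finset.range J, 2 * (lv k T i : ℝ) * yv T i ≤ Real.log T / 4 := by
    intro J hJ
    refine le_trans (Finset.sum_le_sum fun i _ => ?_) (hL1' J hJ)
    have h25 : lv k T i ≤ lv k₀ T i := by
      unfold lv
      refine Nat.ceil_le_ceil ?_
      have := (hall i).2.2.2.2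
      gcongr
    have h26 : (lv k T i : ℝ) ≤ (lv k₀ T i : ℝ) := by exact_mod_cast h25
    have := (hall i).2.1
    gcongr
  have hM1 : 1 ≤ M := hLev.one
  -- the majorant
  set H : ℝ → ℝ := fun t => Gt v k K C₀ T (M - 1) t * ‖ev t (Pv v T (M - 1 + 1) 0)‖ ^ (2 * 0) +
    ∑ j ∈ Finset.range (M - 1), ∑ l ∈ Finset.Ico (j + 1) M,
      (Vv T (j + 1) ^ (2 * nv T (j + 1)))⁻¹ *
        (Gt v k K C₀ T j t * ‖ev t (Pv v T (j + 1) l)‖ ^ (2 * nv T (j + 1))) with hH
  have hHc : Continuous H := by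
    rw [hH]
    refine Continuous.add ((continuous_Gt v k K C₀ T (M - 1)).mul ((continuous_ev _).norm.pow _))
      (continuous_finset_sum _ fun j _ => continuous_finset_sum _ fun l _ => ?_)
    exact continuous_const.mul ((continuous_Gt v k K C₀ T j).mul ((continuous_ev _).norm.pow _))
  have hH0 : ∀ t, 0 ≤ H t := by
    intro t
    rw [hH]
    refine add_nonneg (mul_nonneg (Gt_nonneg v k K C₀ T (M - 1) t) (by positivity))
      (Finset.sum_nonneg fun j _ => Finset.sum_nonneg fun l _ => ?_)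
    have := (hall (j + 1)).2.2.2.2
    exact mul_nonneg (by positivity) (mul_nonneg (Gt_nonneg v k K C₀ T j t) (by positivity))
  have hpt : ∀ t ∈ E, ‖riemannZeta (1 / 2 + t * Complex.I)‖ ^ (2 * k : ℝ) ≤ H t := by
    intro t ht
    have h1 := hSpl v k K C₀ T b M t ‖riemannZeta (1 / 2 + t * Complex.I)‖ hk hLev hb1e
      (fun l _ => hT2 T hTT2 _ _ (hCf T l) t) (norm_nonneg _)
      (fun l hl => hZ' K b₀ T E hBig hHyp l (((hlt l hl).2.1).trans hbb0) t ht)
    refine h1.trans (le_of_eq ?_)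
    rw [hH]
    simp only [Nat.mul_zero, pow_zero, mul_one]
    congr 1
    refine Finset.sum_congr rfl fun j _ => Finset.sum_congr rfl fun l _ => ?_
    rw [div_pow]
    ring
  have hzc : Continuous fun t : ℝ => ‖riemannZeta (1 / 2 + t * Complex.I)‖ ^ (2 * k : ℝ) :=
    continuous_zeta.norm.rpow_const fun t => Or.inr (by linarith)
  have hTle : T ≤ 2 * T := by linarith
  have hint1 : IntegrableOn (fun t : ℝ => ‖riemannZeta (1 / 2 + t * Complex.I)‖ ^ (2 * k : ℝ)) E :=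
    (hzc.continuousOn.integrableOn_compact isCompact_Icc).mono_set hET
  have hint2 : IntegrableOn H (Icc T (2 * T)) :=
    hHc.continuousOn.integrableOn_compact isCompact_Icc
  have hstep1 : ∫ t in E, ‖riemannZeta (1 / 2 + t * Complex.I)‖ ^ (2 * k : ℝ) ≤
      ∫ t in T..(2 * T), H t := by
    calc ∫ t in E, ‖riemannZeta (1 / 2 + t * Complex.I)‖ ^ (2 * k : ℝ) ≤ ∫ t in E, H t :=
          setIntegral_mono_on hint1 (hint2.mono_set hET) hE hpt
      _ ≤ ∫ t in Icc T (2 * T), H t :=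
          setIntegral_mono_set hint2 (ae_of_all _ hH0) (HasSubset.Subset.eventuallyLE hET)
      _ = ∫ t in T..(2 * T), H t := by
          rw [intervalIntegral.integral_of_le hTle, integral_Icc_eq_integral_Ioc]
  have hstep2 : ∫ t in T..(2 * T), H t =
      (∫ t in T..(2 * T), Gt v k K C₀ T (M - 1) t * ‖ev t (Pv v T (M - 1 + 1) 0)‖ ^ (2 * 0)) +
      ∑ j ∈ Finset.range (M - 1), ∑ l ∈ Finset.Ico (j + 1) M,
        (Vv T (j + 1) ^ (2 * nv T (j + 1)))⁻¹ *
          ∫ t in T..(2 * T), Gt v k K C₀ T j t * ‖ev t (Pv v T (j + 1) l)‖ ^ (2 * nv T (j + 1)) := by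
    rw [hH]
    rw [intervalIntegral.integral_add]
    · congr 1
      rw [intervalIntegral.integral_finset_sum]
      · refine Finset.sum_congr rfl fun j _ => ?_
        rw [intervalIntegral.integral_finset_sum]
        · refine Finset.sum_congr rfl fun l _ => ?_
          rw [intervalIntegral.integral_const_mul]
        · intro l _
          exact (continuous_const.mul ((continuous_Gt v k K C₀ T j).mul
            ((continuous_ev _).norm.pow _))).intervalIntegrable _ _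
      · intro j _
        exact (continuous_finset_sum _ fun l _ => continuous_const.mul
          ((continuous_Gt v k K C₀ T j).mul ((continuous_ev _).norm.pow _))).intervalIntegrable _ _
    · exact ((continuous_Gt v k K C₀ T (M - 1)).mul
        ((continuous_ev _).norm.pow _)).intervalIntegrable _ _
    · exact (continuous_finset_sum _ fun j _ => continuous_finset_sum _ fun l _ =>
        continuous_const.mul ((continuous_Gt v k K C₀ T j).mul
          ((continuous_ev _).norm.pow _))).intervalIntegrable _ _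
  set X : ℝ := Real.exp (k ^ 2 * (Real.log (Real.log T) + C₁) + Real.exp (3 * k)) with hX
  have hXe : X = Y * Real.log T ^ (k ^ 2 : ℝ) := by
    rw [hX, hY, Real.rpow_def_of_pos hlog, ← Real.exp_add]
    congr 1
    ring
  -- main term
  have hmain : ∫ t in T..(2 * T), Gt v k K C₀ T (M - 1) t *
      ‖ev t (Pv v T (M - 1 + 1) 0)‖ ^ (2 * 0) ≤
      Real.exp (2 * k * (C₀ + 20 * K / b)) * (Real.exp 4 * (3 * T * X)) * 2 := by
    have h1 := intG hInt hSp hNmP hM hLevB hCf (C₀ := C₀) (K := K) hk hLev hb1e (M - 1) 0 0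
      (by omega) (by
        have h2 := hL1 (M - 1 + 1) (by omega)
        have h3 : 2 * ((0 : ℕ) : ℝ) * yv T (M - 1 + 1) = 0 := by simp
        rw [h3, add_zero]
        linarith)
    refine h1.trans ?_
    have h2 : (2 * 4 ^ 0 * ((Nat.factorial 0 : ℕ) * se (Sp T (M - 1 + 1)) ^ 0) : ℝ) = 2 := by simp
    rw [h2]
    refine mul_le_mul_of_nonneg_right (mul_le_mul_of_nonneg_right (Real.exp_le_exp.2 ?_) ?_)
      (by norm_num)
    · refine mul_le_mul_of_nonneg_left ?_ (by linarith)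
      have h3 := (hall (M - 1)).1
      have h4 : K / be T (M - 1) ≤ 20 * K / b := by
        rw [div_le_div_iff₀ h3 hb]
        have h5 := hLev.lo
        nlinarith
      linarith
    · have : 0 ≤ 3 * T := by linarith
      positivity
  -- other terms
  have hoth : ∑ j ∈ Finset.range (M - 1), ∑ l ∈ Finset.Ico (j + 1) M,
        (Vv T (j + 1) ^ (2 * nv T (j + 1)))⁻¹ *
          ∫ t in T..(2 * T), Gt v k K C₀ T j t * ‖ev t (Pv v T (j + 1) l)‖ ^ (2 * nv T (j + 1)) ≤
      Real.exp (2 * k * C₀) * (Real.exp 4 * (3 * T * X)) * 8 := by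
    have h1 : ∑ j ∈ Finset.range (M - 1), ∑ _l ∈ Finset.Ico (j + 1) M,
        Real.exp (2 * k * (K / be T j)) *
        (2 * 4 ^ nv T (j + 1) * ((nv T (j + 1)).factorial * C₁ ^ nv T (j + 1)) /
          Vv T (j + 1) ^ (2 * nv T (j + 1))) ≤ 8 := by
      refine le_trans (Finset.sum_le_sum fun j _ => Finset.sum_le_sum fun l _ => ?_)
        (hS T b M hb hbb2 hLev)
      have h27 := (hall (j + 1)).2.2.2.2
      have h28 := (hall j).1
      have h29 : 0 ≤ K / be T j := by positivity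
      refine mul_le_mul_of_nonneg_right (Real.exp_le_exp.2 ?_) (by positivity)
      nlinarith
    have h0 : 0 ≤ Real.exp (2 * k * C₀) * (Real.exp 4 * (3 * T * X)) := by
      have : 0 ≤ 3 * T := by linarith
      positivity
    refine le_trans ?_ (mul_le_mul_of_nonneg_left h1 h0)
    rw [Finset.mul_sum]
    refine Finset.sum_le_sum fun j hj => ?_
    rw [Finset.mul_sum]
    refine Finset.sum_le_sum fun l _ => ?_
    rw [Finset.mem_range] at hj
    have h2 := intG hInt hSp hNmP hM hLevB hCf (C₀ := C₀) (K := K) hk hLev hb1e j (nv T (j + 1)) l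
      (by omega) (by
        have h3 := hL1 (j + 1) (by omega)
        have h4 := hL2 (j + 1) (by omega)
        linarith)
    have hV : 0 < Vv T (j + 1) := (hall (j + 1)).2.2.2.2
    refine (mul_le_mul_of_nonneg_left h2 (by positivity)).trans ?_
    obtain ⟨-, hm2, -⟩ := hM T hBig
    have hse : 0 ≤ se (Sp T (j + 1)) := by
      unfold se
      exact Finset.sum_nonneg fun p _ => by positivity
    have h5 : se (Sp T (j + 1)) ^ nv T (j + 1) ≤ C₁ ^ nv T (j + 1) :=
      pow_le_pow_left₀ hse (hm2 (j + 1) (by omega)) _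
    have h6 : (2 * 4 ^ nv T (j + 1) * ((nv T (j + 1)).factorial * se (Sp T (j + 1)) ^ nv T (j + 1)) : ℝ)
        ≤ 2 * 4 ^ nv T (j + 1) * ((nv T (j + 1)).factorial * C₁ ^ nv T (j + 1)) := by
      gcongr
    have h7 : 0 ≤ Real.exp (2 * k * (C₀ + K / be T j)) * (Real.exp 4 * (3 * T * X)) := by
      have : 0 ≤ 3 * T := by linarith
      positivity
    have h8 := mul_le_mul_of_nonneg_left h6 h7
    refine (mul_le_mul_of_nonneg_left h8 (by positivity)).trans (le_of_eq ?_)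
    have h9 : Real.exp (2 * k * (C₀ + K / be T j)) =
        Real.exp (2 * k * C₀) * Real.exp (2 * k * (K / be T j)) := by
      rw [← Real.exp_add]; congr 1; ring
    rw [h9]
    ring
  refine hstep1.trans ?_
  rw [hstep2]
  refine (add_le_add hmain hoth).trans ?_
  have hYY : Y ≤ Y₀ := by
    rw [hY, hY₀]
    refine Real.exp_le_exp.2 (add_le_add ?_ (Real.exp_le_exp.2 (by linarith)))
    have : k ^ 2 ≤ k₀ ^ 2 := by nlinarith
    nlinarith
  have hK1 : Real.exp (2 * k * (C₀ + 20 * K / b)) ≤ Real.exp (2 * k₀ * (C₀ + 20 * K / b)) := by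
    refine Real.exp_le_exp.2 ?_
    have : 0 ≤ C₀ + 20 * K / b := by positivity
    nlinarith
  have hK2 : Real.exp (2 * k * C₀) ≤ Real.exp (2 * k₀ * C₀) := by
    refine Real.exp_le_exp.2 ?_
    nlinarith
  have hLp : 0 ≤ Real.log T ^ (k ^ 2 : ℝ) := Real.rpow_nonneg hlog.le _
  have hT0 : 0 ≤ T := by linarith
  rw [hXe]
  have e1 : Real.exp (2 * k * (C₀ + 20 * K / b)) * (Real.exp 4 * (3 * T * (Y * Real.log T ^ (k ^ 2 : ℝ)))) * 2 +
      Real.exp (2 * k * C₀) * (Real.exp 4 * (3 * T * (Y * Real.log T ^ (k ^ 2 : ℝ)))) * 8 =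
      (Real.exp (2 * k * (C₀ + 20 * K / b)) * 2 + Real.exp (2 * k * C₀) * 8) *
        (Real.exp 4 * 3 * Y) * (T * Real.log T ^ (k ^ 2 : ℝ)) := by ring
  rw [e1]
  have hYp : 0 < Y := Real.exp_pos _
  gcongr


end Pool.Agent.Work.MP_56b8f5_nt.HZB
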