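import Pool.Agent.Work.MP_56b8f5_nt.HZ.StmtsA
import Pool.Agent.Work.MP_56b8f5_nt.HZ.B_HarU
import Pool.Agent.Work.MP_56b8f5_nt.HZ.StmtsC

/-!
MP_56b8f5_nt, block HZ: the final statement.
-/

set_option autoImplicit false

open MeasureTheory Set Filter Topology

noncomputable section

namespace Pool.Agent.Work.MP_56b8f5_nt.HZ

open Pool.Agent.Work.MP_56b8f5_nt.EM Pool.Agent.Work.MP_56b8f5_nt.WM Pool.Agent.Work.MP_56b8f5_nt.SH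

/-- **Main.** Harper's bound without the Riemann hypothesis, and its converse, uniformly in `0 < k ≤ B`. First part: `S_PW` (part (a)) and `HZB.S_HarU`
(part (b), `b₀ = 1/m₀`, `E = GG T A C`, `chi t n = n^{-(1/2+it)}`), `S_GGm`. Second part: `S_Cmp` with `M = 0` (see `I_Mes`). Third part: `S_LowE` (part (d)) at scale
`T' = 2T`, `β = k`, a weight `w` with support in `[1/2, 1]`, `0 < W0 w`, a system from `SH.S_Sys` with `ε = min ε₀ (1/(B+1))`, `c = ρ/2`, `η = η₀`, `L = log(2T)`,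
`E = {u | 2Tu ∈ GG T A 400}`: by `S_Cmp` `∫_{Eᶜ} w(u) Nb(2Tu)² du ≤ (1/2T) ∫_{[T,2T] ∖ GG} Nb² ≤ C e^{-A/200} (log 2T)^{k²}` (`e^{st} ≤ log 2T`), which is `≤ δ₀ (log 2T)^{k²}` for
`A ≥ A₀`. `∫_E w az(2Tu)^{2k} du ≤ (1/2T) ∫_{GG} |ζ|^{2k}`. -/
def S_Main : Prop :=
  (∀ B A C : ℝ, 0 < B → 0 ≤ A → 0 ≤ C → ∃ K T₀ : ℝ, 3 ≤ T₀ ∧ ∀ T : ℝ, T₀ ≤ T → ∀ k : ℝ, 0 < k → k ≤ B →
    ∫ t in GG T A C, ‖riemannZeta (1 / 2 + t * Complex.I)‖ ^ (2 * k : ℝ) ≤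
      K * (T * Real.log T ^ (k ^ 2 : ℝ))) ∧
  (∃ C₁ T₀ : ℝ, 3 ≤ T₀ ∧ ∀ T : ℝ, T₀ ≤ T → ∀ A : ℝ, 1 ≤ A →
    (1 - C₁ * Real.exp (-(A / 200))) * T ≤ volume.real (GG T A 400)) ∧
  ∀ B : ℝ, 0 < B → ∃ A₀ c T₀ : ℝ, 0 < c ∧ 3 ≤ T₀ ∧ ∀ T : ℝ, T₀ ≤ T → ∀ A : ℝ, A₀ ≤ A → ∀ k : ℝ, 0 < k → k ≤ B →
    c * (T * Real.log T ^ (k ^ 2 : ℝ)) ≤
      ∫ t in GG T A 400, ‖riemannZeta (1 / 2 + t * Complex.I)‖ ^ (2 * k : ℝ)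

end Pool.Agent.Work.MP_56b8f5_nt.HZ
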