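import Pool.Agent.Work.MP_56b8f5_nt.HZ.StmtsB

/-!
MP_56b8f5_nt, block HZ, part B: item B13 (Fst), the first level is trivial.
-/

set_option autoImplicit false

open MeasureTheory Set Filter Topology

noncomputable section

namespace Pool.Agent.Work.MP_56b8f5_nt.HZB

open Pool.Agent.Work.MP_56b8f5_nt.SH

namespace AuxFst

lemma ev_single (t : ℝ) (n : ℕ) (x : ℂ) : ev t (MonoidAlgebra.single n x) = x * chi t n := by
  unfold ev
  rw [MonoidAlgebra.lift_single, smul_eq_mul]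

lemma norm_chi (t : ℝ) (n : ℕ) (hn : 0 < n) : ‖chi t n‖ = (Real.sqrt n)⁻¹ := by
  change ‖(n : ℂ) ^ (-(1 / 2 + t * Complex.I))‖ = _
  rw [Complex.norm_natCast_cpow_of_pos hn]
  have : (-(1 / 2 + (t : ℂ) * Complex.I)).re = -(1 / 2 : ℝ) := by
    simp
  rw [this, Real.rpow_neg (Nat.cast_nonneg n), Real.sqrt_eq_rpow]

lemma term (t : ℝ) (p : ℕ) (hp : p.Prime) (x y : ℝ) (hx0 : 0 ≤ x) (hx : x ≤ 1) (hy0 : 0 ≤ y)
    (hy : y ≤ 1 / 2) :
    ‖(x : ℂ) * chi t p + (y : ℂ) * chi t (p ^ 2)‖ ≤ 3 / 2 * (Real.sqrt p)⁻¹ := by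
  have hp0 : 0 < p := hp.pos
  have hs1 : 1 ≤ Real.sqrt p := by
    rw [Real.one_le_sqrt]
    exact_mod_cast hp.one_le
  have hi1 : (Real.sqrt p)⁻¹ ≤ 1 := inv_le_one_of_one_le₀ hs1
  have hi0 : 0 ≤ (Real.sqrt p)⁻¹ := by positivity
  have h1 : ‖(x : ℂ) * chi t p‖ ≤ (Real.sqrt p)⁻¹ := by
    rw [norm_mul, norm_chi t p hp0, Complex.norm_real, Real.norm_eq_abs, abs_of_nonneg hx0]
    nlinarith
  have h2 : ‖(y : ℂ) * chi t (p ^ 2)‖ ≤ 1 / 2 * (Real.sqrt p)⁻¹ := by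
    rw [norm_mul, map_pow, norm_pow, norm_chi t p hp0, Complex.norm_real, Real.norm_eq_abs,
      abs_of_nonneg hy0]
    have h3 : (Real.sqrt p)⁻¹ ^ 2 ≤ (Real.sqrt p)⁻¹ := by nlinarith
    have h4 : 0 ≤ (Real.sqrt p)⁻¹ ^ 2 := by positivity
    nlinarith
  calc _ ≤ ‖(x : ℂ) * chi t p‖ + ‖(y : ℂ) * chi t (p ^ 2)‖ := norm_add_le _ _
    _ ≤ _ := by linarith

lemma sum_inv_sqrt (N : ℕ) : ∑ n ∈ Finset.range (N + 1), (Real.sqrt n)⁻¹ ≤ 2 * Real.sqrt N := by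
  induction N with
  | zero => simp
  | succ k ih =>
    rw [Finset.sum_range_succ]
    have h0 : (0 : ℝ) ≤ k := Nat.cast_nonneg k
    have ha : Real.sqrt k ^ 2 = k := Real.sq_sqrt h0
    have hb : Real.sqrt ((k + 1 : ℕ) : ℝ) ^ 2 = (k : ℝ) + 1 := by
      rw [Real.sq_sqrt (Nat.cast_nonneg _)]
      push_cast
      ring
    have hbp : 0 < Real.sqrt ((k + 1 : ℕ) : ℝ) := by
      apply Real.sqrt_pos.mpr
      positivity
    have hab : Real.sqrt k ≤ Real.sqrt ((k + 1 : ℕ) : ℝ) := by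
      apply Real.sqrt_le_sqrt
      push_cast
      linarith
    have ha0 : 0 ≤ Real.sqrt k := Real.sqrt_nonneg _
    have key : (Real.sqrt ((k + 1 : ℕ) : ℝ))⁻¹ ≤
        2 * Real.sqrt ((k + 1 : ℕ) : ℝ) - 2 * Real.sqrt k := by
      rw [inv_le_iff_one_le_mul₀' hbp]
      nlinarith
    linarith

lemma sum_Sp (T : ℝ) (hT : 0 < Real.log T) :
    ∑ p ∈ Sp T 0, (Real.sqrt p)⁻¹ ≤ 2 * Real.sqrt (Real.log T) := by
  have he : Real.exp (yv T 0) = Real.log T := by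
    unfold yv
    rw [pow_zero, one_mul, Real.exp_log hT]
  calc ∑ p ∈ Sp T 0, (Real.sqrt p)⁻¹
      ≤ ∑ p ∈ Finset.range (⌊Real.exp (yv T 0)⌋₊ + 1), (Real.sqrt p)⁻¹ := by
        apply Finset.sum_le_sum_of_subset_of_nonneg
        · exact Finset.filter_subset _ _
        · intro i _ _
          positivity
    _ ≤ 2 * Real.sqrt (⌊Real.exp (yv T 0)⌋₊ : ℝ) := sum_inv_sqrt _
    _ ≤ 2 * Real.sqrt (Real.log T) := by
        have : (⌊Real.exp (yv T 0)⌋₊ : ℝ) ≤ Real.log T := by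
          rw [he]
          exact Nat.floor_le hT.le
        have := Real.sqrt_le_sqrt this
        linarith

lemma up (T : ℝ) (hT : 0 < Real.log T) (a b : ℕ → ℝ) (h : Cf a b) (t : ℝ) :
    ‖ev t (pw a b (Sp T 0))‖ ≤ 3 * Real.sqrt (Real.log T) := by
  unfold pw
  rw [map_sum]
  calc ‖∑ p ∈ Sp T 0, ev t (MonoidAlgebra.single p (a p : ℂ) +
        MonoidAlgebra.single (p ^ 2) (b p : ℂ))‖
      ≤ ∑ p ∈ Sp T 0, ‖ev t (MonoidAlgebra.single p (a p : ℂ) +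
        MonoidAlgebra.single (p ^ 2) (b p : ℂ))‖ := norm_sum_le _ _
    _ ≤ ∑ p ∈ Sp T 0, 3 / 2 * (Real.sqrt p)⁻¹ := by
        apply Finset.sum_le_sum
        intro p hp
        have hp' : p.Prime := ((Finset.mem_filter.mp hp).2).1
        rw [map_add, ev_single, ev_single]
        exact term t p hp' (a p) (b p) (h p).1 (h p).2.1 (h p).2.2.1 (h p).2.2.2
    _ = 3 / 2 * ∑ p ∈ Sp T 0, (Real.sqrt p)⁻¹ := by rw [Finset.mul_sum]
    _ ≤ _ := by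
        have := sum_Sp T hT
        linarith

lemma grow : ∀ᶠ L : ℝ in atTop, 3 * Real.sqrt L ≤ (Real.log L / L) ^ (-(3 / 4) : ℝ) := by
  have h1 := (isLittleO_log_rpow_atTop (show (0 : ℝ) < 1 / 3 by norm_num)).bound
    (show (0 : ℝ) < 1 / 81 by norm_num)
  filter_upwards [h1, eventually_gt_atTop (1 : ℝ)] with L hL hL1
  have hL0 : 0 < L := by linarith
  have hlog : 0 < Real.log L := Real.log_pos hL1
  have hp : 0 < L ^ (1 / 3 : ℝ) := Real.rpow_pos_of_pos hL0 _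
  rw [Real.norm_eq_abs, Real.norm_eq_abs, abs_of_pos hlog, abs_of_pos hp] at hL
  have hq : 0 < Real.log L / L := div_pos hlog hL0
  have h2 : Real.log L / L ≤ (81 : ℝ)⁻¹ * L ^ (-(2 / 3) : ℝ) := by
    rw [div_le_iff₀ hL0]
    have : L ^ (-(2 / 3) : ℝ) * L = L ^ (1 / 3 : ℝ) := by
      nth_rw 2 [← Real.rpow_one L]
      rw [← Real.rpow_add hL0]
      norm_num
    rw [mul_assoc, this]
    linarith
  have h3 : ((81 : ℝ)⁻¹ * L ^ (-(2 / 3) : ℝ)) ^ (-(3 / 4) : ℝ) ≤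
      (Real.log L / L) ^ (-(3 / 4) : ℝ) :=
    Real.rpow_le_rpow_of_nonpos hq h2 (by norm_num)
  refine le_trans ?_ h3
  rw [Real.mul_rpow (by norm_num) (Real.rpow_nonneg hL0.le _), ← Real.rpow_mul hL0.le,
    Real.sqrt_eq_rpow]
  have h4 : ((81 : ℝ)⁻¹) ^ (-(3 / 4) : ℝ) = 27 := by
    rw [Real.inv_rpow (by norm_num), ← Real.rpow_neg (by norm_num), neg_neg,
      show (81 : ℝ) = 3 ^ (4 : ℝ) by norm_num, ← Real.rpow_mul (by norm_num)]
    norm_num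
  rw [h4]
  have h5 : (-(2 / 3) : ℝ) * -(3 / 4) = 1 / 2 := by norm_num
  rw [h5]
  have : 0 ≤ L ^ (1 / 2 : ℝ) := Real.rpow_nonneg hL0.le _
  linarith

end AuxFst

open AuxFst

theorem pf_Fst : S_Fst := by
  have h1 := Real.tendsto_log_atTop.eventually grow
  have h2 := h1.and (Real.tendsto_log_atTop.eventually (eventually_gt_atTop (0 : ℝ)))
  obtain ⟨T₀, hT₀⟩ := eventually_atTop.mp h2
  refine ⟨T₀, ?_⟩
  intro T hT a b hab t
  obtain ⟨hg, hp⟩ := hT₀ T hT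
  refine le_trans (up T hp a b hab t) ?_
  unfold Vv be yv
  rw [pow_zero, one_mul]
  exact hg

end Pool.Agent.Work.MP_56b8f5_nt.HZB
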