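import Pool.Agent.Work.MP_56b8f5_nt.HZ.StmtsB

/-!
MP_56b8f5_nt, block HZ, part B: item B3 (N2M), the diagonal norm is multiplicative on coprime supports.
-/

set_option autoImplicit false

open MeasureTheory Set Filter Topology

noncomputable section

namespace Pool.Agent.Work.MP_56b8f5_nt.HZB

open Pool.Agent.Work.MP_56b8f5_nt.SH

namespace AuxN2M

lemma cop {S S' : Finset ℕ} {α β : DA} (hd : Disjoint S S') (hα : Sup S α) (hβ : Sup S' β)
    {a b : ℕ} (ha : a ∈ α.coeff.support) (hb : b ∈ β.coeff.support) : Nat.Coprime a b := by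
  by_contra h
  obtain ⟨p, hp, h1, h2⟩ := Nat.Prime.not_coprime_iff_dvd.1 h
  exact Finset.disjoint_left.1 hd ((hα a ha).2 p hp h1) ((hβ b hb).2 p hp h2)

lemma inj {S S' : Finset ℕ} {α β : DA} (hd : Disjoint S S') (hα : Sup S α) (hβ : Sup S' β)
    {a b a' b' : ℕ} (ha : a ∈ α.coeff.support) (hb : b ∈ β.coeff.support)
    (ha' : a' ∈ α.coeff.support) (hb' : b' ∈ β.coeff.support) (h : a * b = a' * b') :
    a = a' ∧ b = b' := by
  have h1 : a ∣ a' := (cop hd hα hβ ha hb').dvd_of_dvd_mul_right (h ▸ Dvd.intro b rfl)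
  have h2 : a' ∣ a := (cop hd hα hβ ha' hb).dvd_of_dvd_mul_right (h ▸ Dvd.intro b' rfl)
  have h3 : a = a' := Nat.dvd_antisymm h1 h2
  subst h3
  exact ⟨rfl, Nat.eq_of_mul_eq_mul_left (Nat.pos_of_ne_zero (hα a ha).1) h⟩

lemma coeff_eq {S S' : Finset ℕ} {α β : DA} (hd : Disjoint S S') (hα : Sup S α) (hβ : Sup S' β)
    {a b : ℕ} (ha : a ∈ α.coeff.support) (hb : b ∈ β.coeff.support) :
    (α * β).coeff (a * b) = α.coeff a * β.coeff b := by
  rw [MonoidAlgebra.coeff_mul]
  unfold Finsupp.sum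
  beta_reduce
  rw [Finset.sum_eq_single a, Finset.sum_eq_single b]
  · rw [if_pos rfl]
  · intro y hy hne
    rw [if_neg]
    intro h
    exact hne (inj hd hα hβ ha hy ha hb h).2
  · intro h
    exact absurd hb h
  · intro x hx hne
    refine Finset.sum_eq_zero fun y hy => ?_
    rw [if_neg]
    intro h
    exact hne (inj hd hα hβ hx hy ha hb h).1
  · intro h
    exact absurd ha h

end AuxN2M

open AuxN2M in
theorem pf_N2M : S_N2M := by
  intro S S' α β hd hα hβ
  have h1 : N2 (α * β) = ∑ n ∈ (α.coeff.support ×ˢ β.coeff.support).image (fun x => x.1 * x.2),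
      ‖(α * β).coeff n‖ ^ 2 / (n : ℝ) := by
    unfold N2
    refine Finsupp.sum_of_support_subset _ ?_ _ ?_
    · intro n hn
      obtain ⟨x, hx, y, hy, rfl⟩ := Finset.mem_mul.1 (MonoidAlgebra.support_coeff_mul_subset α β hn)
      exact Finset.mem_image.2 ⟨(x, y), Finset.mem_product.2 ⟨hx, hy⟩, rfl⟩
    · intro n _
      simp
  rw [h1, Finset.sum_image]
  · rw [Finset.sum_product]
    unfold N2 Finsupp.sum
    rw [Finset.sum_mul_sum]
    refine Finset.sum_congr rfl fun a ha => Finset.sum_congr rfl fun b hb => ?_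
    beta_reduce
    rw [coeff_eq hd hα hβ ha hb, norm_mul, mul_pow, Nat.cast_mul, mul_div_mul_comm]
  · rintro ⟨a, b⟩ hx ⟨a', b'⟩ hx' h
    obtain ⟨ha, hb⟩ := Finset.mem_product.1 hx
    obtain ⟨ha', hb'⟩ := Finset.mem_product.1 hx'
    obtain ⟨h2, h3⟩ := inj hd hα hβ ha hb ha' hb' h
    simp only at h2 h3
    rw [h2, h3]

end Pool.Agent.Work.MP_56b8f5_nt.HZB
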