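import Pool.Agent.Work.MP_56b8f5_nt.SH.Defs

/-!
MP_56b8f5_nt (eighth moment of the Riemann zeta function), block HZ, part B (Harper's splitting on a set where a
pointwise upper bound for `log |zeta|` by short Dirichlet polynomials holds): definitions.

Dirichlet polynomials `DA`, the characters `chi t n = n^{-1/2-it}`, the evaluation `ev t : DA →ₐ[ℂ] ℂ`, the truncated
exponential `TE`, the sums `se S = ∑_{p ∈ S} 1/p`, `s2 S = ∑_{p ∈ S} 1/p²` and the predicate `Sup S α` are those of block SH.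
-/

set_option autoImplicit false

open MeasureTheory Set Filter Topology

noncomputable section

namespace Pool.Agent.Work.MP_56b8f5_nt.HZB

open Pool.Agent.Work.MP_56b8f5_nt.SH

/-! ### Dirichlet polynomials -/

/-- The diagonal norm `∑_n |α_n|²/n`. -/
def N2 (α : DA) : ℝ := α.coeff.sum fun n x => ‖x‖ ^ 2 / (n : ℝ)

/-- `0 ≤ α_n ≤ β_n` (real numbers) for all `n`. -/
def Mj (α β : DA) : Prop :=
  ∀ n, ∃ x y : ℝ, 0 ≤ x ∧ x ≤ y ∧ α.coeff n = (x : ℂ) ∧ β.coeff n = (y : ℂ)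

/-- `∑_{p ∈ S} (a_p p + b_p p²)` as a Dirichlet polynomial. -/
def pw (a b : ℕ → ℝ) (S : Finset ℕ) : DA :=
  ∑ p ∈ S, (MonoidAlgebra.single p (a p : ℂ) + MonoidAlgebra.single (p ^ 2) (b p : ℂ))

/-- The truncated exponential `∑_{m ≤ l} (k α)^m/m!`. -/
def tx (l : ℕ) (k : ℝ) (α : DA) : DA :=
  ∑ m ∈ Finset.range (l + 1), ((k ^ m / (m.factorial : ℝ) : ℝ) : ℂ) • α ^ m

/-- All `n` in the support are positive and at most `e^Y`. -/
def Ln (Y : ℝ) (α : DA) : Prop := ∀ n ∈ α.coeff.support, n ≠ 0 ∧ Real.log n ≤ Y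

/-- Admissible coefficients: `0 ≤ a_p ≤ 1`, `0 ≤ b_p ≤ 1/2`. -/
def Cf (a b : ℕ → ℝ) : Prop := ∀ p, 0 ≤ a p ∧ a p ≤ 1 ∧ 0 ≤ b p ∧ b p ≤ 1 / 2

/-! ### Levels -/

/-- The logarithm of the length of level `i`: `x_i = e^{y_i}`, `x_0 = log T`, `x_{i+1} = x_i^20`. -/
def yv (T : ℝ) (i : ℕ) : ℝ := 20 ^ i * Real.log (Real.log T)

/-- `β_i = log x_i / log T`. -/
def be (T : ℝ) (i : ℕ) : ℝ := yv T i / Real.log T

/-- The primes of level `i`: `x_{i-1} < p ≤ x_i` (`p ≤ x_0` for `i = 0`). -/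
def Sp (T : ℝ) (i : ℕ) : Finset ℕ :=
  (Finset.range (⌊Real.exp (yv T i)⌋₊ + 1)).filter
    (fun p => p.Prime ∧ (0 < i → yv T (i - 1) < Real.log p))

/-- `T` is so large that `log log T ≥ 1`. -/
def Big (T : ℝ) : Prop := 1 ≤ T ∧ Real.exp 1 ≤ Real.log T

/-- `M` levels, the last one has `b/20 ≤ β_{M-1} ≤ b`. -/
structure Lev (T b : ℝ) (M : ℕ) : Prop where
  one : 1 ≤ M
  big : Big T
  up : be T (M - 1) ≤ b
  lo : b / 20 ≤ be T (M - 1)

/-- The barrier `V_i = β_i^{-3/4}`. -/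
def Vv (T : ℝ) (i : ℕ) : ℝ := be T i ^ (-(3 / 4) : ℝ)

/-- The degree of the truncated exponential of level `i`. -/
def lv (k T : ℝ) (i : ℕ) : ℕ := ⌈10 * (k + 1) * Vv T i⌉₊

/-- The exponent of the high moment of level `i`. -/
def nv (T : ℝ) (i : ℕ) : ℕ := ⌊1 / (20 * be T i)⌋₊

/-- The coefficients at the primes and at the squares of primes for the length `x_l`. -/
def av (v : ℝ → ℕ → ℝ) (T : ℝ) (l p : ℕ) : ℝ := v (Real.exp (yv T l)) p

/-- see `av` -/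
def bv (v : ℝ → ℕ → ℝ) (T : ℝ) (l p : ℕ) : ℝ :=
  if (p : ℝ) ^ 2 ≤ Real.exp (yv T l) then v (Real.exp (yv T l)) (p ^ 2) / 2 else 0

/-- The part of level `i` of the polynomial of length `x_l`. -/
def Pv (v : ℝ → ℕ → ℝ) (T : ℝ) (i l : ℕ) : DA := pw (av v T l) (bv v T l) (Sp T i)

/-- The majorant of level `j`. -/
def Gt (v : ℝ → ℕ → ℝ) (k K C₀ T : ℝ) (j : ℕ) (t : ℝ) : ℝ :=
  Real.exp (2 * k * (C₀ + K / be T j)) *
    ∏ i ∈ Finset.range (j + 1), ((1 + 2 * Real.exp (-(lv k T i : ℝ))) ^ 2 *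
      ‖ev t (tx (lv k T i) k (Pv v T i j))‖ ^ 2)

/-- The pointwise upper bound for `|zeta(1/2+it)|` on the set `E`, by Dirichlet polynomials of every length `x` between
`log T` and `T^b₀`, with error `K log T/log x` in the exponent; `0 ≤ v x n ≤ 1`. -/
def Hyp (v : ℝ → ℕ → ℝ) (K b₀ T : ℝ) (E : Set ℝ) : Prop :=
  ∀ t ∈ E, ∀ x : ℝ, Real.log T ≤ x → x ≤ T ^ b₀ →
    ‖riemannZeta (1 / 2 + t * Complex.I)‖ ≤
      Real.exp ((∑ n ∈ Finset.Icc 1 ⌊x⌋₊,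
        ((ArithmeticFunction.vonMangoldt n / Real.log n * v x n : ℝ) : ℂ) * chi t n).re +
        K * (Real.log T / Real.log x))

end Pool.Agent.Work.MP_56b8f5_nt.HZB
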