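import Pool.Agent.Work.MP_56b8f5_nt.HZ.StmtsC

/-!
MP_56b8f5_nt, block HZ, part (c), item FoB: the form of `M Q`.
-/

set_option autoImplicit false

open MeasureTheory Set Filter Topology

noncomputable section

namespace Pool.Agent.Work.MP_56b8f5_nt.HZ

open Pool.Agent.Work.MP_56b8f5_nt.EM Pool.Agent.Work.MP_56b8f5_nt.WM Pool.Agent.Work.MP_56b8f5_nt.SH
open Pool.Agent.Work.MP_56b8f5_nt.HZG

namespace I_FoB

/-! ### The majorant -/

/-- The exponents of the tilt. -/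
def bs (S₀ : Finset ℕ) (β : ℝ) (p : ℕ) : ℝ := if p ∈ S₀ then β else 0

/-- The majorant. -/
def hh (Y β : ℝ) (S₀ : Finset ℕ) (τ : ℝ) (n : ℕ) : ℝ :=
  ∑ d ∈ n.divisors, fp (cp Y τ) d * pe (bs S₀ β) (n / d)

lemma cp_nonneg {Y : ℝ} (hY : 1 < Y) (τ : ℝ) (p : ℕ) : 0 ≤ cp Y τ p := by
  unfold cp
  exact le_min (by norm_num) (mul_nonneg (by positivity)
    (div_nonneg (Real.log_natCast_nonneg p) (Real.log_pos hY).le))

lemma cp_le (Y τ : ℝ) (p : ℕ) : cp Y τ p ≤ 2 := min_le_left _ _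

lemma cp_cont (Y : ℝ) (p : ℕ) : Continuous (fun τ => cp Y τ p) := by
  unfold cp
  exact continuous_const.min ((continuous_const.add continuous_abs).mul continuous_const)

lemma fp_nonneg {c : ℕ → ℝ} (hc : ∀ p, 0 ≤ c p) (n : ℕ) : 0 ≤ fp c n :=
  Finset.prod_nonneg fun p _ => hc p

lemma fp_le {c : ℕ → ℝ} (hc : ∀ p, 0 ≤ c p ∧ c p ≤ 2) (n : ℕ) :
    fp c n ≤ 2 ^ n.primeFactors.card := by
  unfold fp
  calc ∏ p ∈ n.primeFactors, c p ≤ ∏ _p ∈ n.primeFactors, (2 : ℝ) :=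
        Finset.prod_le_prod (fun p _ => (hc p).1) fun p _ => (hc p).2
    _ = _ := by rw [Finset.prod_const]

lemma bs_nonneg {β : ℝ} (hβ : 0 ≤ β) (S₀ : Finset ℕ) (p : ℕ) : 0 ≤ bs S₀ β p := by
  unfold bs
  split_ifs
  · exact hβ
  · exact le_rfl

lemma pe_nonneg {a : ℕ → ℝ} (ha : ∀ p, 0 ≤ a p) (n : ℕ) : 0 ≤ pe a n := by
  unfold pe
  split_ifs
  · exact le_rfl
  · exact Finset.prod_nonneg fun p _ => div_nonneg (pow_nonneg (ha p) _) (by positivity)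

lemma pe_ne {a : ℕ → ℝ} {n p : ℕ} (h : pe a n ≠ 0) (hp : p.Prime) (hd : p ∣ n) : a p ≠ 0 := by
  intro h0
  apply h
  unfold pe
  by_cases hn : n = 0
  · rw [if_pos hn]
  rw [if_neg hn]
  have hf : n.factorization p ≠ 0 := (hp.factorization_pos_of_dvd hn hd).ne'
  refine Finset.prod_eq_zero (i := p) ?_ ?_
  · exact Finsupp.mem_support_iff.2 hf
  · simp only [h0]
    rw [zero_pow hf, zero_div]

lemma hh_nonneg {Y β : ℝ} (hY : 1 < Y) (hβ : 0 ≤ β) (S₀ : Finset ℕ) (τ : ℝ) (n : ℕ) :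
    0 ≤ hh Y β S₀ τ n :=
  Finset.sum_nonneg fun d _ => mul_nonneg (fp_nonneg (cp_nonneg hY τ) d)
    (pe_nonneg (bs_nonneg hβ S₀) _)

/-- A bound for the majorant. -/
def hb (β : ℝ) (S₀ : Finset ℕ) (n : ℕ) : ℝ :=
  ∑ d ∈ n.divisors, 2 ^ d.primeFactors.card * pe (bs S₀ β) (n / d)

lemma hh_le {Y β : ℝ} (hY : 1 < Y) (hβ : 0 ≤ β) (S₀ : Finset ℕ) (τ : ℝ) (n : ℕ) :
    hh Y β S₀ τ n ≤ hb β S₀ n :=
  Finset.sum_le_sum fun d _ => mul_le_mul_of_nonneg_right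
    (fp_le (fun p => ⟨cp_nonneg hY τ p, cp_le Y τ p⟩) d) (pe_nonneg (bs_nonneg hβ S₀) _)

lemma hh_cont (Y β : ℝ) (S₀ : Finset ℕ) (n : ℕ) : Continuous (fun τ => hh Y β S₀ τ n) := by
  unfold hh fp
  exact continuous_finsetSum _ fun d _ =>
    (continuous_finsetProd _ fun p _ => cp_cont Y p).mul continuous_const

/-! ### Integrals with a weight -/

/-- A bounded continuous function is integrable against an integrable continuous weight. -/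
lemma int_bdd {W f : ℝ → ℝ} (hW : Continuous W) (hWi : Integrable W) (hf : Continuous f) {K : ℝ}
    (hK : ∀ τ, |f τ| ≤ K) : Integrable (fun τ => W τ * f τ) := by
  refine (hWi.norm.mul_const K).mono' (hW.mul hf).aestronglyMeasurable (ae_of_all _ fun τ => ?_)
  rw [norm_mul]
  exact mul_le_mul_of_nonneg_left (hK τ) (norm_nonneg _)

/-- Cauchy-Schwarz. -/
lemma cs {W f : ℝ → ℝ} (hW0 : ∀ τ, 0 ≤ W τ) (hWi : Integrable W)
    (h1 : Integrable (fun τ => W τ * f τ)) (h2 : Integrable (fun τ => W τ * f τ ^ 2)) :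
    (∫ τ, W τ * f τ) ^ 2 ≤ (∫ τ, W τ) * ∫ τ, W τ * f τ ^ 2 := by
  have h : ∀ x : ℝ, 0 ≤ (∫ τ, W τ) * (x * x) + (-2 * ∫ τ, W τ * f τ) * x +
      ∫ τ, W τ * f τ ^ 2 := by
    intro x
    have e : (∫ τ, W τ) * (x * x) + (-2 * ∫ τ, W τ * f τ) * x + ∫ τ, W τ * f τ ^ 2 =
        ∫ τ, W τ * (f τ - x) ^ 2 := by
      have e1 : (fun τ => W τ * (f τ - x) ^ 2) =
          fun τ => W τ * (x * x) + (W τ * f τ * (-2 * x) + W τ * f τ ^ 2) := by
        funext τ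
        ring
      have h4 : Integrable (fun τ => W τ * f τ * (-2 * x) + W τ * f τ ^ 2) :=
        (h1.mul_const _).add h2
      rw [e1, integral_add (hWi.mul_const _) h4,
        integral_add (h1.mul_const _) h2, integral_mul_const, integral_mul_const]
      ring
    rw [e]
    exact integral_nonneg fun τ => mul_nonneg (hW0 τ) (sq_nonneg _)
  have h3 := discrim_le_zero h
  unfold discrim at h3
  nlinarith

/-! ### The coefficients -/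

lemma muP_zero (P : ℝ → ℝ) (Y : ℝ) : muP P Y 0 = 0 := by
  unfold muP
  rw [ArithmeticFunction.map_zero]
  simp

lemma muP_ne {P : ℝ → ℝ} (hP : IsP P) {Y : ℝ} (hY : 1 < Y) {n : ℕ} (h : muP P Y n ≠ 0) :
    n ≠ 0 ∧ (n : ℝ) ≤ Y := by
  have h0 : n ≠ 0 := by
    rintro rfl
    exact h (muP_zero P Y)
  refine ⟨h0, ?_⟩
  by_contra hn
  push Not at hn
  apply h
  unfold muP
  have hY0 : 0 < Y := by linarith
  have h1 : 1 ≤ Real.log n / Real.log Y := by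
    rw [le_div_iff₀ (Real.log_pos hY), one_mul]
    exact Real.log_le_log hY0 hn.le
  rw [hP.zero _ h1, Complex.ofReal_zero, mul_zero]

lemma D_ne {P : ℝ → ℝ} (hP : IsP P) {Y R β : ℝ} {S₀ : Finset ℕ} {q : ℕ → ℂ} {Nq N : ℕ}
    (hY : 3 ≤ Y) (hS : ∀ p ∈ S₀, p.Prime ∧ (p : ℝ) ≤ Y)
    (hq : ∀ n, ‖q n‖ ≤ R * pe (bs S₀ β) n) (hqs : ∀ n, q n ≠ 0 → 1 ≤ n ∧ n ≤ Nq)
    (hN : Y * Nq ≤ N) (n : ℕ) (h : cvl (muP P Y) q n ≠ 0) : n ≤ N ∧ Smo ⌊Y⌋₊ n := by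
  have hY0 : 0 ≤ Y := by linarith
  obtain ⟨d, hd, hne⟩ := Finset.exists_ne_zero_of_sum_ne_zero h
  have h1 : muP P Y d ≠ 0 := left_ne_zero_of_mul hne
  have h2 : q (n / d) ≠ 0 := right_ne_zero_of_mul hne
  obtain ⟨hd1, hn0⟩ := Nat.mem_divisors.1 hd
  obtain ⟨hd0, hdY⟩ := muP_ne hP (by linarith) h1
  obtain ⟨h3, h4⟩ := hqs _ h2
  have hnd : d * (n / d) = n := Nat.mul_div_cancel' hd1
  refine ⟨?_, hn0, fun p hp hpn => ?_⟩
  · have : (n : ℝ) ≤ N := by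
      calc (n : ℝ) = (d : ℝ) * ((n / d : ℕ) : ℝ) := by exact_mod_cast hnd.symm
        _ ≤ Y * Nq := mul_le_mul hdY (by exact_mod_cast h4) (Nat.cast_nonneg _) hY0
        _ ≤ N := hN
    exact_mod_cast this
  · rw [← hnd] at hpn
    rcases (Nat.Prime.dvd_mul hp).1 hpn with hpd | hpd
    · exact Nat.le_floor ((Nat.cast_le.2 (Nat.le_of_dvd (Nat.pos_of_ne_zero hd0) hpd)).trans hdY)
    · have h5 : pe (bs S₀ β) (n / d) ≠ 0 := by
        intro h0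
        have := hq (n / d)
        rw [h0, mul_zero] at this
        exact h2 (norm_le_zero_iff.1 this)
      have h6 := pe_ne h5 hp hpd
      have h7 : p ∈ S₀ := by
        by_contra h8
        exact h6 (if_neg h8)
      exact Nat.le_floor (hS p h7).2

/-! ### The representation -/

/-- The exponential in terms of a power. -/
lemma exp_eq {Y : ℝ} (τ : ℝ) {d : ℕ} (hd : d ≠ 0) :
    Complex.exp (-((1 + τ * Complex.I) * ((Real.log d / Real.log Y : ℝ) : ℂ))) =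
      (d : ℂ) ^ (-((1 + τ * Complex.I) / Real.log Y)) := by
  rw [Complex.cpow_def_of_ne_zero (Nat.cast_ne_zero.2 hd)]
  congr 1
  rw [← Complex.ofReal_natCast, ← Complex.ofReal_log (Nat.cast_nonneg _)]
  push_cast
  ring

lemma int_exp {ω : ℝ → ℂ} (hc : Continuous ω) (hi : Integrable (fun τ => ‖ω τ‖)) (ξ : ℝ) (a : ℂ) :
    Integrable (fun τ : ℝ => ω τ * Complex.exp (-((1 + τ * Complex.I) * ξ)) * a) := by
  have hcont : Continuous (fun τ : ℝ => ω τ * Complex.exp (-((1 + τ * Complex.I) * ξ)) * a) := by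
    fun_prop
  refine (hi.mul_const (Real.exp (-ξ) * ‖a‖)).mono' hcont.aestronglyMeasurable
    (ae_of_all _ fun τ => ?_)
  rw [norm_mul, norm_mul, Complex.norm_exp, mul_assoc]
  have e : (-((1 + (τ : ℂ) * Complex.I) * (ξ : ℂ))).re = -ξ := by
    simp
  rw [e]

lemma rep (hDv : S_Dv) {P : ℝ → ℝ} {ω : ℝ → ℂ} (hc : Continuous ω)
    (hi : Integrable (fun τ => ‖ω τ‖))
    (hω : ∀ ξ : ℝ, (P ξ : ℂ) = ∫ τ : ℝ, ω τ * Complex.exp (-((1 + τ * Complex.I) * ξ)))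
    {Y R β : ℝ} {S₀ : Finset ℕ} {q : ℕ → ℂ} (hY : 3 ≤ Y) (hβ : 0 ≤ β)
    (hq : ∀ n, ‖q n‖ ≤ R * pe (bs S₀ β) n) {n : ℕ} (hn : n ≠ 0) :
    ‖∑ d ∈ n.divisors, cvl (muP P Y) q d‖ ≤ R * ∫ τ, ‖ω τ‖ * hh Y β S₀ τ n := by
  have hY1 : 1 < Y := by linarith
  rw [hDv.2.1 (muP P Y) q n hn]
  have e1 : cvl (fun m => ∑ d ∈ m.divisors, muP P Y d) q n =
      ∫ τ : ℝ, ∑ e ∈ n.divisors, ∑ d ∈ e.divisors,
        ω τ * Complex.exp (-((1 + τ * Complex.I) * ((Real.log d / Real.log Y : ℝ) : ℂ))) *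
          (((ArithmeticFunction.moebius d : ℤ) : ℂ) * q (n / e)) := by
    rw [integral_finsetSum _ fun e _ => integrable_finsetSum _ fun d _ => int_exp hc hi _ _]
    unfold cvl
    refine Finset.sum_congr rfl fun e _ => ?_
    rw [integral_finsetSum _ fun d _ => int_exp hc hi _ _, Finset.sum_mul]
    refine Finset.sum_congr rfl fun d _ => ?_
    rw [integral_mul_const, ← hω]
    unfold muP
    ring
  have e2 : ∀ τ : ℝ, ∑ e ∈ n.divisors, ∑ d ∈ e.divisors,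
        ω τ * Complex.exp (-((1 + τ * Complex.I) * ((Real.log d / Real.log Y : ℝ) : ℂ))) *
          (((ArithmeticFunction.moebius d : ℤ) : ℂ) * q (n / e)) =
      ω τ * ∑ e ∈ n.divisors,
        (∏ p ∈ e.primeFactors, (1 - (p : ℂ) ^ (-((1 + τ * Complex.I) / Real.log Y)))) *
          q (n / e) := by
    intro τ
    rw [Finset.mul_sum]
    refine Finset.sum_congr rfl fun e he => ?_
    have he0 : e ≠ 0 := (Nat.pos_of_mem_divisors he).ne'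
    rw [← hDv.1 e _ he0, Finset.sum_mul, Finset.mul_sum]
    refine Finset.sum_congr rfl fun d hd => ?_
    rw [exp_eq τ (Nat.pos_of_mem_divisors hd).ne']
    ring
  rw [e1, ← integral_const_mul]
  refine norm_integral_le_of_norm_le ?_ (ae_of_all _ fun τ => ?_)
  · refine Integrable.const_mul ?_ R
    exact int_bdd hc.norm hi (hh_cont Y β S₀ n) (K := hb β S₀ n) fun τ => by
      rw [abs_of_nonneg (hh_nonneg hY1 hβ S₀ τ n)]
      exact hh_le hY1 hβ S₀ τ n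
  · rw [e2 τ, norm_mul]
    calc ‖ω τ‖ * ‖∑ e ∈ n.divisors,
          (∏ p ∈ e.primeFactors, (1 - (p : ℂ) ^ (-((1 + τ * Complex.I) / Real.log Y)))) *
            q (n / e)‖ ≤ ‖ω τ‖ * (R * hh Y β S₀ τ n) := by
          refine mul_le_mul_of_nonneg_left ?_ (norm_nonneg _)
          refine (norm_sum_le _ _).trans ?_
          unfold hh
          rw [Finset.mul_sum]
          refine Finset.sum_le_sum fun e _ => ?_
          rw [norm_mul, norm_prod]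
          have h1 : ∏ p ∈ e.primeFactors,
              ‖1 - (p : ℂ) ^ (-((1 + τ * Complex.I) / Real.log Y))‖ ≤ fp (cp Y τ) e :=
            Finset.prod_le_prod (fun p _ => norm_nonneg _) fun p hp =>
              hDv.2.2 Y τ p hY1 (Nat.prime_of_mem_primeFactors hp).one_lt.le
          calc _ ≤ fp (cp Y τ) e * (R * pe (bs S₀ β) (n / e)) :=
                mul_le_mul h1 (hq _) (norm_nonneg _) (fp_nonneg (cp_nonneg hY1 τ) _)
            _ = _ := by ring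
      _ = _ := by ring

/-! ### The bound for the exponential factor -/

lemma exp_bd {B CM x : ℝ} (hB : 0 ≤ B) (τ : ℝ) (hx : x ≤ CM + 2 * Real.log (2 + |τ|)) :
    Real.exp ((2 + 2 * B) * x) ≤
      Real.exp ((2 + 2 * B) * CM) * 2 ^ ⌈4 + 4 * B⌉₊ * (1 + |τ|) ^ ⌈4 + 4 * B⌉₊ := by
  have ht : 0 ≤ |τ| := abs_nonneg τ
  have h1 : (2 + 2 * B) * x ≤ (2 + 2 * B) * CM + Real.log (2 + |τ|) * (4 + 4 * B) := by
    have := mul_le_mul_of_nonneg_left hx (by linarith : 0 ≤ 2 + 2 * B)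
    linarith
  have h2 : Real.exp (Real.log (2 + |τ|) * (4 + 4 * B)) = (2 + |τ|) ^ (4 + 4 * B) := by
    rw [Real.rpow_def_of_pos (by linarith)]
  have h3 : (2 + |τ|) ^ (4 + 4 * B) ≤ (2 + |τ|) ^ ((⌈4 + 4 * B⌉₊ : ℕ) : ℝ) :=
    Real.rpow_le_rpow_of_exponent_le (by linarith) (Nat.le_ceil _)
  rw [Real.rpow_natCast] at h3
  have h4 : (2 + |τ|) ^ ⌈4 + 4 * B⌉₊ ≤ (2 * (1 + |τ|)) ^ ⌈4 + 4 * B⌉₊ :=
    pow_le_pow_left₀ (by linarith) (by linarith) _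
  rw [mul_pow] at h4
  calc Real.exp ((2 + 2 * B) * x) ≤
        Real.exp ((2 + 2 * B) * CM + Real.log (2 + |τ|) * (4 + 4 * B)) := Real.exp_le_exp.2 h1
    _ = Real.exp ((2 + 2 * B) * CM) * (2 + |τ|) ^ (4 + 4 * B) := by rw [Real.exp_add, h2]
    _ ≤ Real.exp ((2 + 2 * B) * CM) * (2 ^ ⌈4 + 4 * B⌉₊ * (1 + |τ|) ^ ⌈4 + 4 * B⌉₊) :=
        mul_le_mul_of_nonneg_left (h3.trans h4) (Real.exp_nonneg _)
    _ = _ := by ring

open Classical in
lemma fin_bd {B CE CM : ℝ} (hB : 0 ≤ B) (hCE : 1 ≤ CE)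
    (hE : ∀ (Y : ℕ) (c : ℕ → ℝ) (S₀ : Finset ℕ) (β : ℝ),
      (∀ p, 0 ≤ c p ∧ c p ≤ 2) → (∀ p ∈ S₀, p.Prime ∧ p ≤ Y) → 0 ≤ β → β ≤ B →
      Summable (fun n : ℕ => (if Smo Y n then
        (∑ d ∈ n.divisors, fp c d * pe (fun p => if p ∈ S₀ then β else 0) (n / d)) ^ 2 /
          (n : ℝ) else 0)) ∧
      ∑' n : ℕ, (if Smo Y n then
        (∑ d ∈ n.divisors, fp c d * pe (fun p => if p ∈ S₀ then β else 0) (n / d)) ^ 2 /
          (n : ℝ) else 0) ≤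
        CE * Real.exp (β ^ 2 * ∑ p ∈ S₀, 1 / (p : ℝ) + (2 + 2 * B) * ∑ p ∈ pr Y, c p / (p : ℝ)))
    (hM : ∀ Y τ : ℝ, 3 ≤ Y → ∑ p ∈ pr ⌊Y⌋₊, cp Y τ p / (p : ℝ) ≤ CM + 2 * Real.log (2 + |τ|))
    {Y β : ℝ} {S₀ : Finset ℕ} (hY : 3 ≤ Y) (hβ : 0 ≤ β) (hβB : β ≤ B)
    (hS : ∀ p ∈ S₀, p.Prime ∧ (p : ℝ) ≤ Y) (τ : ℝ) (F : Finset ℕ) :
    ∑ n ∈ F, (if Smo ⌊Y⌋₊ n then hh Y β S₀ τ n ^ 2 / (n : ℝ) else 0) ≤
      CE * Real.exp ((2 + 2 * B) * CM) * 2 ^ ⌈4 + 4 * B⌉₊ *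
        Real.exp (β ^ 2 * ∑ p ∈ S₀, 1 / (p : ℝ)) * (1 + |τ|) ^ ⌈4 + 4 * B⌉₊ := by
  have hY1 : 1 < Y := by linarith
  obtain ⟨h1, h2⟩ := hE ⌊Y⌋₊ (cp Y τ) S₀ β (fun p => ⟨cp_nonneg hY1 τ p, cp_le Y τ p⟩)
    (fun p hp => ⟨(hS p hp).1, Nat.le_floor (hS p hp).2⟩) hβ hβB
  have h3 : ∑ n ∈ F, (if Smo ⌊Y⌋₊ n then hh Y β S₀ τ n ^ 2 / (n : ℝ) else 0) ≤
      ∑' n : ℕ, (if Smo ⌊Y⌋₊ n then (∑ d ∈ n.divisors, fp (cp Y τ) d *
        pe (fun p => if p ∈ S₀ then β else 0) (n / d)) ^ 2 / (n : ℝ) else 0) :=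
    h1.sum_le_tsum F fun n _ => by
      split_ifs
      · positivity
      · exact le_rfl
  refine (h3.trans h2).trans ?_
  rw [Real.exp_add]
  have h4 := exp_bd hB τ (hM Y τ hY)
  have h5 : 0 ≤ CE * Real.exp (β ^ 2 * ∑ p ∈ S₀, 1 / (p : ℝ)) :=
    mul_nonneg (by linarith) (Real.exp_nonneg _)
  calc CE * (Real.exp (β ^ 2 * ∑ p ∈ S₀, 1 / (p : ℝ)) *
        Real.exp ((2 + 2 * B) * ∑ p ∈ pr ⌊Y⌋₊, cp Y τ p / (p : ℝ))) =
      CE * Real.exp (β ^ 2 * ∑ p ∈ S₀, 1 / (p : ℝ)) *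
        Real.exp ((2 + 2 * B) * ∑ p ∈ pr ⌊Y⌋₊, cp Y τ p / (p : ℝ)) := by ring
    _ ≤ CE * Real.exp (β ^ 2 * ∑ p ∈ S₀, 1 / (p : ℝ)) *
        (Real.exp ((2 + 2 * B) * CM) * 2 ^ ⌈4 + 4 * B⌉₊ * (1 + |τ|) ^ ⌈4 + 4 * B⌉₊) :=
        mul_le_mul_of_nonneg_left h4 h5
    _ = _ := by ring

end I_FoB

open I_FoB in
/-- The form of `M Q`. -/
theorem FoB_pf (hFoV : S_FoV) (hOm : S_Om) (hDv : S_Dv) (hEm : S_Em) (hMsu : S_Msu) :
    S_FoB := by
  classical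
  intro B hB P hP
  obtain ⟨ω, hc, hint, hω⟩ := hOm P hP.smooth hP.supp
  obtain ⟨CE, hCE1, hE⟩ := hEm B hB
  obtain ⟨CM, hCM1, hM1, hM2⟩ := hMsu
  have hi : Integrable (fun τ => ‖ω τ‖) := by
    have := hint 0
    simpa using this
  have hiA := hint ⌈4 + 4 * B⌉₊
  set A0 : ℝ := ∫ τ, ‖ω τ‖ with hA0
  set A1 : ℝ := ∫ τ : ℝ, (1 + |τ|) ^ ⌈4 + 4 * B⌉₊ * ‖ω τ‖ with hA1
  have hA0' : 0 ≤ A0 := integral_nonneg fun τ => norm_nonneg _
  have hA1' : 0 ≤ A1 := integral_nonneg fun τ => mul_nonneg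
    (pow_nonneg (add_nonneg zero_le_one (abs_nonneg _)) _) (norm_nonneg _)
  set K0 : ℝ := CE * Real.exp ((2 + 2 * B) * CM) * 2 ^ ⌈4 + 4 * B⌉₊ with hK0
  have hK0' : 0 ≤ K0 := by
    have : 0 ≤ CE := by linarith
    positivity
  refine ⟨max 1 (A0 * (K0 * A1) * CM), le_max_left _ _, ?_⟩
  intro Y R β S₀ q Nq N hY hR hβ hβB hS hq hqs hN
  have hY1 : 1 < Y := by linarith
  have hlY : 0 < Real.log Y := Real.log_pos hY1
  have hq' : ∀ n, ‖q n‖ ≤ R * pe (bs S₀ β) n := hq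
  obtain ⟨hV, hsum⟩ := hFoV ⌊Y⌋₊ N (cvl (muP P Y) q)
    (fun n hn => D_ne hP hY hS hq' hqs hN n hn)
  set E : ℝ := Real.exp (β ^ 2 * ∑ p ∈ S₀, 1 / (p : ℝ)) with hEdef
  have hE0 : 0 < E := Real.exp_pos _
  have hint1 : ∀ n, Integrable (fun τ => ‖ω τ‖ * hh Y β S₀ τ n) := fun n =>
    int_bdd hc.norm hi (hh_cont Y β S₀ n) (K := hb β S₀ n) fun τ => by
      rw [abs_of_nonneg (hh_nonneg hY1 hβ S₀ τ n)]
      exact hh_le hY1 hβ S₀ τ n
  have hint2 : ∀ n, Integrable (fun τ => ‖ω τ‖ * hh Y β S₀ τ n ^ 2) := fun n =>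
    int_bdd hc.norm hi ((hh_cont Y β S₀ n).pow 2) (K := hb β S₀ n ^ 2) fun τ => by
      rw [abs_of_nonneg (sq_nonneg _)]
      exact pow_le_pow_left₀ (hh_nonneg hY1 hβ S₀ τ n) (hh_le hY1 hβ S₀ τ n) 2
  have hint3 : ∀ n : ℕ, Integrable (fun τ => ‖ω τ‖ *
      (if Smo ⌊Y⌋₊ n then hh Y β S₀ τ n ^ 2 / (n : ℝ) else 0)) := by
    intro n
    split_ifs
    · have e : (fun τ => ‖ω τ‖ * (hh Y β S₀ τ n ^ 2 / (n : ℝ))) =
          fun τ => ‖ω τ‖ * hh Y β S₀ τ n ^ 2 / (n : ℝ) := by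
        funext τ
        ring
      rw [e]
      exact (hint2 n).div_const _
    · simp
  have key : Fo N (cvl (muP P Y) q) / VV ⌊Y⌋₊ ≤ R ^ 2 * A0 * (K0 * E * A1) := by
    refine hasSum_le_of_sum_le hsum fun F => ?_
    calc _ ≤ ∑ n ∈ F, R ^ 2 * A0 * ∫ τ, ‖ω τ‖ *
          (if Smo ⌊Y⌋₊ n then hh Y β S₀ τ n ^ 2 / (n : ℝ) else 0) := by
          refine Finset.sum_le_sum fun n _ => ?_
          split_ifs with hs
          · have h1 := rep hDv hc hi hω hY hβ hq' hs.1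
            have h2 := pow_le_pow_left₀ (norm_nonneg _) h1 2
            have h3 := cs (fun τ => norm_nonneg (ω τ)) hi (hint1 n) (hint2 n)
            have h4 : ∫ τ, ‖ω τ‖ * (hh Y β S₀ τ n ^ 2 / (n : ℝ)) =
                (∫ τ, ‖ω τ‖ * hh Y β S₀ τ n ^ 2) / (n : ℝ) := by
              rw [← integral_div]
              congr 1
              funext τ
              ring
            rw [h4]
            calc _ ≤ (R * ∫ τ, ‖ω τ‖ * hh Y β S₀ τ n) ^ 2 / (n : ℝ) :=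
                  div_le_div_of_nonneg_right h2 (Nat.cast_nonneg _)
              _ = R ^ 2 * (∫ τ, ‖ω τ‖ * hh Y β S₀ τ n) ^ 2 / (n : ℝ) := by rw [mul_pow]
              _ ≤ R ^ 2 * (A0 * ∫ τ, ‖ω τ‖ * hh Y β S₀ τ n ^ 2) / (n : ℝ) :=
                  div_le_div_of_nonneg_right (mul_le_mul_of_nonneg_left h3 (sq_nonneg _))
                    (Nat.cast_nonneg _)
              _ = _ := by ring
          · simp
      _ = R ^ 2 * A0 * ∫ τ, ‖ω τ‖ *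
          ∑ n ∈ F, (if Smo ⌊Y⌋₊ n then hh Y β S₀ τ n ^ 2 / (n : ℝ) else 0) := by
          rw [← Finset.mul_sum, ← integral_finsetSum _ fun n _ => hint3 n]
          congr 2
          funext τ
          rw [Finset.mul_sum]
      _ ≤ R ^ 2 * A0 * (K0 * E * A1) := by
          refine mul_le_mul_of_nonneg_left ?_ (by positivity)
          rw [hA1, ← integral_const_mul]
          refine integral_mono ?_ (hiA.const_mul _) fun τ => ?_
          · have e : (fun τ => ‖ω τ‖ * ∑ n ∈ F,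
                (if Smo ⌊Y⌋₊ n then hh Y β S₀ τ n ^ 2 / (n : ℝ) else 0)) =
                fun τ => ∑ n ∈ F, ‖ω τ‖ *
                  (if Smo ⌊Y⌋₊ n then hh Y β S₀ τ n ^ 2 / (n : ℝ) else 0) := by
              funext τ
              rw [Finset.mul_sum]
            rw [e]
            exact integrable_finsetSum _ fun n _ => hint3 n
          · have h5 := fin_bd hB hCE1 hE hM1 hY hβ hβB hS τ F
            calc _ ≤ ‖ω τ‖ * (K0 * E * (1 + |τ|) ^ ⌈4 + 4 * B⌉₊) :=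
                  mul_le_mul_of_nonneg_left h5 (norm_nonneg _)
              _ = K0 * E * ((1 + |τ|) ^ ⌈4 + 4 * B⌉₊ * ‖ω τ‖) := by ring
  have hV2 := hM2 Y hY
  have hX : 0 ≤ R ^ 2 * A0 * (K0 * E * A1) := by positivity
  calc Fo N (cvl (muP P Y) q) = Fo N (cvl (muP P Y) q) / VV ⌊Y⌋₊ * VV ⌊Y⌋₊ := by
        rw [div_mul_cancel₀ _ hV.ne']
    _ ≤ R ^ 2 * A0 * (K0 * E * A1) * VV ⌊Y⌋₊ := mul_le_mul_of_nonneg_right key hV.le
    _ ≤ R ^ 2 * A0 * (K0 * E * A1) * (CM / Real.log Y) := mul_le_mul_of_nonneg_left hV2 hX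
    _ = A0 * (K0 * A1) * CM * (R ^ 2 / Real.log Y * E) := by ring
    _ ≤ max 1 (A0 * (K0 * A1) * CM) * (R ^ 2 / Real.log Y * E) :=
        mul_le_mul_of_nonneg_right (le_max_right _ _) (by positivity)
    _ = _ := by ring

end Pool.Agent.Work.MP_56b8f5_nt.HZ
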