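import Pool.Agent.Work.MP_56b8f5_nt.HZ.StmtsA

/-!
MP_56b8f5_nt, block HZ, item PW: the final statement of part (a).
-/

set_option autoImplicit false

open MeasureTheory Set Filter Topology

noncomputable section

namespace Pool.Agent.Work.MP_56b8f5_nt.HZ

open Pool.Agent.Work.MP_56b8f5_nt.EM Pool.Agent.Work.MP_56b8f5_nt.WM Pool.Agent.Work.MP_56b8f5_nt.SH

namespace I_PW

/-- The zeros of zeta are isolated. -/
lemma ev_ne {z₀ : ℂ} (h0 : z₀ ≠ 1) : ∀ᶠ z in 𝓝[≠] z₀, riemannZeta z ≠ 0 := by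
  by_contra hcon
  have hfr : ∃ᶠ z in 𝓝[≠] z₀, riemannZeta z = 0 := by
    rw [not_eventually] at hcon
    exact hcon.mono fun z hz => not_not.1 hz
  have hopen : IsOpen ({1}ᶜ : Set ℂ) := isOpen_compl_singleton
  have han : AnalyticOnNhd ℂ riemannZeta ({1}ᶜ : Set ℂ) := by
    refine DifferentiableOn.analyticOnNhd ?_ hopen
    intro z hz
    exact (differentiableAt_riemannZeta hz).differentiableWithinAt
  have hconn : IsPreconnected ({1}ᶜ : Set ℂ) :=
    (isConnected_compl_singleton_of_one_lt_rank (by simp) (1 : ℂ)).isPreconnected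
  have hz := han.eqOn_zero_of_preconnected_of_frequently_eq_zero hconn h0 hfr
  have h2 : riemannZeta 2 = 0 := hz (by norm_num : (2 : ℂ) ∈ ({1}ᶜ : Set ℂ))
  exact riemannZeta_ne_zero_of_one_lt_re (by norm_num : 1 < (2 : ℂ).re) h2

lemma cont_Dx (κ : ℝ → ℝ) (X x t : ℝ) : Continuous fun a : ℝ => (Dx (wk κ X a) x t).re := by
  unfold Dx wk
  refine Complex.continuous_re.comp (continuous_finsetSum _ fun n hn => ?_)
  have hn1 : 1 ≤ n := (Finset.mem_Icc.1 hn).1
  have hn0 : (0 : ℝ) < n := by exact_mod_cast hn1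
  refine Continuous.mul (Complex.continuous_ofReal.comp ?_) continuous_const
  refine continuous_const.mul (continuous_const.mul ?_)
  exact (Real.continuous_const_rpow hn0.ne').comp continuous_neg

open Classical in
/-- The coefficients. -/
def cc (κ : ℝ → ℝ) (lam x : ℝ) (n : ℕ) : ℝ :=
  if n = 0 ∨ Real.log x ≤ 0 then 0 else wk κ (Real.log x) (lam / Real.log x) n

lemma cc_mem (hKkt : S_Kkt) {κ : ℝ → ℝ} (hκ : IsKer κ) {lam : ℝ} (hlam : 1 ≤ lam) (x : ℝ) (n : ℕ) :
    0 ≤ cc κ lam x n ∧ cc κ lam x n ≤ 1 := by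
  unfold cc
  split_ifs with h
  · exact ⟨le_rfl, zero_le_one⟩
  · rw [not_or] at h
    obtain ⟨hn, hx⟩ := h
    have hx' : 0 < Real.log x := not_le.1 hx
    have hn1 : (1 : ℝ) ≤ n := by exact_mod_cast Nat.one_le_iff_ne_zero.2 hn
    obtain ⟨h1, h2, -⟩ := (hKkt κ hκ).2.2.1 (Real.log n / Real.log x)
    have h3 : (0 : ℝ) ≤ (n : ℝ) ^ (-(lam / Real.log x)) := Real.rpow_nonneg (by linarith) _
    have h4 : (n : ℝ) ^ (-(lam / Real.log x)) ≤ 1 := by
      refine Real.rpow_le_one_of_one_le_of_nonpos hn1 ?_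
      have : 0 ≤ lam / Real.log x := by positivity
      linarith
    unfold wk
    exact ⟨mul_nonneg h1 h3, mul_le_one₀ h2 h3 h4⟩

lemma Dx_cc (κ : ℝ → ℝ) (lam x t : ℝ) (hx : 0 < Real.log x) :
    Dx (cc κ lam x) x t = Dx (wk κ (Real.log x) (lam / Real.log x)) x t := by
  unfold Dx
  refine Finset.sum_congr rfl fun n hn => ?_
  have hn1 : 1 ≤ n := (Finset.mem_Icc.1 hn).1
  have h : cc κ lam x n = wk κ (Real.log x) (lam / Real.log x) n := by
    unfold cc
    rw [if_neg]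
    rw [not_or]
    exact ⟨by omega, not_le.2 hx⟩
  rw [h]

end I_PW

open I_PW

theorem PW_pf (hKex : S_Kex) (hKS1 : S_KS1) (hPWa : S_PWa) (hKkt : S_Kkt) : S_PW := by
  obtain ⟨κ, hκ⟩ := hKex
  obtain ⟨c, C, hC1, hC⟩ := hKS1 κ hκ
  obtain ⟨lam, hlam, hmain⟩ := hPWa κ c C hκ hC1 hC
  refine ⟨cc κ lam, cc_mem hKkt hκ hlam, fun A C₀ hA hC₀ => ?_⟩
  obtain ⟨m₀, T₀, K, hm₀, hT₀, hK, hmain⟩ := hmain A C₀ hA hC₀
  refine ⟨m₀, T₀, K, hm₀, hT₀, hK, fun T hT t ht x hx1 hx2 => ?_⟩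
  by_cases hz : riemannZeta (1 / 2 + t * Complex.I) = 0
  · rw [hz, norm_zero]
    exact (Real.exp_pos _).le
  have hT3 : 3 ≤ T := hT₀.trans hT
  have hT0 : 0 < T := by linarith
  have hlog3 : 1 < Real.log T := by
    rw [Real.lt_log_iff_exp_lt hT0]
    exact lt_of_lt_of_le (Real.exp_one_lt_d9.trans (by norm_num)) hT3
  have hx0 : 0 < x := by linarith
  have hx3 : 1 < x := by linarith
  obtain ⟨X, hX⟩ : ∃ X, X = Real.log x := ⟨_, rfl⟩
  have hX0 : 0 < X := by rw [hX]; exact Real.log_pos hx3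
  have hexp : Real.exp X = x := by rw [hX, Real.exp_log hx0]
  have hXL : Real.log (Real.log T) ≤ X := by
    rw [hX]
    exact Real.log_le_log (by linarith) hx1
  have hm0 : 0 < m₀ := by linarith
  have hmX : m₀ * X ≤ Real.log T := by
    have h1 : X ≤ 1 / m₀ * Real.log T := by
      rw [hX, ← Real.log_rpow hT0]
      exact Real.log_le_log hx0 hx2
    calc m₀ * X ≤ m₀ * (1 / m₀ * Real.log T) := mul_le_mul_of_nonneg_left h1 hm0.le
      _ = Real.log T := by field_simp
  obtain ⟨a₀, ha₀⟩ : ∃ a₀, a₀ = lam / X := ⟨_, rfl⟩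
  have hlamX : 0 < lam / X := by positivity
  have hkey : Real.log ‖riemannZeta (1 / 2 + t * Complex.I)‖ ≤
      (Dx (wk κ X a₀) (Real.exp X) t).re + K * (Real.log T / X) := by
    have hcont : Tendsto (fun a : ℝ => (Dx (wk κ X a) (Real.exp X) t).re + K * (Real.log T / X))
        (𝓝[>] a₀) (𝓝 ((Dx (wk κ X a₀) (Real.exp X) t).re + K * (Real.log T / X))) := by
      have h1 : Continuous (fun a : ℝ => (Dx (wk κ X a) (Real.exp X) t).re +
          K * (Real.log T / X)) := (cont_Dx κ X (Real.exp X) t).add continuous_const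
      exact (h1.tendsto a₀).mono_left nhdsWithin_le_nhds
    refine ge_of_tendsto hcont ?_
    have hne : (1 / 2 + t * Complex.I + (a₀ : ℂ) : ℂ) ≠ 1 := by
      intro h
      have h1 := congrArg Complex.im h
      simp only [Complex.add_im, Complex.mul_im, Complex.ofReal_re, Complex.ofReal_im,
        Complex.I_re, Complex.I_im, Complex.one_im] at h1
      have h2 : (1 / 2 : ℂ).im = 0 := by norm_num
      rw [h2] at h1
      have h3 : t = 0 := by linarith
      have h4 := ht.1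
      linarith
    have hmap : Tendsto (fun a : ℝ => (1 / 2 + t * Complex.I + (a : ℂ) : ℂ)) (𝓝[>] a₀)
        (𝓝[≠] (1 / 2 + t * Complex.I + (a₀ : ℂ))) := by
      refine tendsto_nhdsWithin_iff.2 ⟨?_, ?_⟩
      · have h1 : Continuous fun a : ℝ => (1 / 2 + t * Complex.I + (a : ℂ) : ℂ) := by fun_prop
        exact (h1.tendsto a₀).mono_left nhdsWithin_le_nhds
      · filter_upwards [self_mem_nhdsWithin] with a ha
        intro h
        have h1 : (a : ℂ) = (a₀ : ℂ) := add_left_cancel h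
        have h2 : a = a₀ := by exact_mod_cast h1
        exact absurd h2 (ne_of_gt ha)
    have hlt : a₀ < 2 * lam / X := by
      rw [ha₀, mul_div_assoc]
      linarith
    filter_upwards [hmap.eventually (ev_ne hne), self_mem_nhdsWithin,
      nhdsWithin_le_nhds (Iic_mem_nhds hlt)] with a h1 h2 h3
    refine hmain T hT t ht hz X a hXL hmX ?_ h3 h1
    rw [← ha₀]
    exact le_of_lt h2
  have hpos : 0 < ‖riemannZeta (1 / 2 + t * Complex.I)‖ := norm_pos_iff.2 hz
  rw [Real.log_le_iff_le_exp hpos] at hkey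
  rw [Dx_cc κ lam x t (by rw [← hX]; exact hX0), ← hX, ← ha₀]
  rw [hexp] at hkey
  exact hkey

end Pool.Agent.Work.MP_56b8f5_nt.HZ
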