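import Pool.Agent.Work.MP_56b8f5_nt.HZ.BDefs
import Pool.Agent.Work.MP_56b8f5_nt.WM.Stmts

/-!
MP_56b8f5_nt (eighth moment of the Riemann zeta function), block HZ, part B (captain helper26): Harper's splitting.

Final theorem `S_HarT`: if on a set `E` in `[T, 2T]` the function `log |zeta(1/2+it)|` is at most the real part of
a Dirichlet polynomial of length `x` with coefficients `Λ(n) v(n)/(√n log n)`, `0 ≤ v ≤ 1`, plus `K log T/log x`, for every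
`x` between `log T` and `T^b₀`, then `∫_E |zeta|^(2k) ≤ C T (log T)^(k²)` (Harper 2013, there on RH with `E = [T, 2T]`). The levels
start at `x_0 = log T` (and not at `T^(1/(log log T)^2)`), where the barrier is trivially satisfied, so no
crude bound for the moments is needed. Complex moduli are used instead of real parts.

Every docstring is the complete proof. All items are independent (hypotheses).
-/

set_option autoImplicit false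

open MeasureTheory Set Filter Topology

noncomputable section

namespace Pool.Agent.Work.MP_56b8f5_nt.HZB

open Pool.Agent.Work.MP_56b8f5_nt.SH

/-! ### Group 1: Dirichlet polynomials -/

/-- **B1 (EvT).** `ev t` is an algebra homomorphism; `k^m/m! · z^m = (kz)^m/m!`. EASY. -/
def S_EvT : Prop := ∀ (t : ℝ) (l : ℕ) (k : ℝ) (α : DA),
  ev t (tx l k α) = TE l ((k : ℂ) * ev t α)

/-- **B2 (MVa), mean value.** Let `N = √T`, so that the support of `α` is contained in `[1, N]`. Expand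
`|ev t α|² = ∑_{h,l} α_h conj(α_l) (hl)^{-1/2} e^{it log(l/h)}`. The terms `h = l` give `T N2 α`. For `h ≠ l`:
`|∫_T^{2T} e^{itλ} dt| ≤ 2/|λ|`, `|λ| = |log(l/h)| ≥ 1/max(h,l) ≥ 1/N` (`log(1+1/h) ≥ 1/(h+1)`), so these terms are at
most `2N (∑ |α_n| n^{-1/2})² ≤ 2N · N · N2 α = 2 T N2 α` (Cauchy-Schwarz, the support has at most `N` elements). MEDIUM. -/
def S_MVa : Prop := ∀ T : ℝ, 1 ≤ T → ∀ α : DA, Ln (Real.log T / 2) α →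
  ∫ t in T..(2 * T), ‖ev t α‖ ^ 2 ≤ 3 * T * N2 α

/-- **B3 (N2M), coprime supports.** The map `(a, b) ↦ a b` is injective on `supp α × supp β` (`a b = a' b'` with `a, a'` composed
of primes of `S`, `b, b'` of primes of `S'`: `a` is prime to `b'`, so `a ∣ a'`, and `a' ∣ a`), hence `αβ` is the sum of the
`single (ab) (α_a β_b)` with distinct `ab`. EASY-MEDIUM. -/
def S_N2M : Prop := ∀ (S S' : Finset ℕ) (α β : DA), Disjoint S S' → Sup S α → Sup S' β →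
  N2 (α * β) = N2 α * N2 β

/-- **B4 (SupL).** Closure properties of `Sup`. EASY. -/
def S_SupL : Prop :=
  (∀ (S : Finset ℕ) (a b : ℕ → ℝ), (∀ p ∈ S, p.Prime) → Sup S (pw a b S)) ∧
  (∀ (S : Finset ℕ) (α β : DA), Sup S α → Sup S β → Sup S (α + β) ∧ Sup S (α * β)) ∧
  (∀ (S : Finset ℕ) (α : DA) (n : ℕ), Sup S α → Sup S (α ^ n)) ∧
  (∀ (S : Finset ℕ) (α : DA) (l : ℕ) (k : ℝ), Sup S α → Sup S (tx l k α)) ∧
  (∀ (S S' : Finset ℕ) (α : DA), Sup S α → S ⊆ S' → Sup S' α) ∧ Sup ∅ (1 : DA)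

/-- **B5 (LnL).** Closure properties of `Ln`. (`tx`: the power `m ≤ l` has length `m Y ≤ l Y`.) EASY. -/
def S_LnL : Prop :=
  (∀ (Y Y' : ℝ) (α : DA), Ln Y α → Y ≤ Y' → Ln Y' α) ∧ Ln 0 (1 : DA) ∧
  (∀ (Y : ℝ) (α β : DA), Ln Y α → Ln Y β → Ln Y (α + β)) ∧
  (∀ (Y Y' : ℝ) (α β : DA), Ln Y α → Ln Y' β → Ln (Y + Y') (α * β)) ∧
  (∀ (Y : ℝ) (α : DA) (n : ℕ), Ln Y α → Ln (n * Y) (α ^ n)) ∧
  (∀ (Y k : ℝ) (α : DA) (l : ℕ), 0 ≤ Y → Ln Y α → Ln (l * Y) (tx l k α)) ∧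
  (∀ (Y : ℝ) (a b : ℕ → ℝ) (S : Finset ℕ), (∀ p ∈ S, p.Prime ∧ Real.log p ≤ Y) →
    Ln (2 * Y) (pw a b S))

/-- **B6 (MjL), majorants.** The last part: `tx l k (α + β) = ∑_{i+j ≤ l} k^i α^i/i! · k^j β^j/j!` (binomial theorem), while
`tx l k α * tx l k β` is the sum over all `i, j ≤ l`; all coefficients are real and nonnegative. EASY-MEDIUM. -/
def S_MjL : Prop :=
  (∀ α β : DA, Mj α β → N2 α ≤ N2 β) ∧
  (∀ α β γ : DA, Mj α β → Mj β γ → Mj α γ) ∧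
  (∀ α β γ δ : DA, Mj α β → Mj γ δ → Mj (α * γ) (β * δ)) ∧
  (∀ (a b : ℕ → ℝ) (S : Finset ℕ), (∀ p, 0 ≤ a p ∧ 0 ≤ b p) → Mj (pw a b S) (pw a b S)) ∧
  (∀ (l : ℕ) (k : ℝ) (α : DA), 0 ≤ k → Mj α α → Mj (tx l k α) (tx l k α)) ∧
  (∀ (l : ℕ) (k : ℝ) (α β : DA), 0 ≤ k → Mj α α → Mj β β →
    Mj (tx l k (α + β)) (tx l k α * tx l k β))

/-- **B7 (Loc), one prime.** `γ = tx l k (a q + b q²) = ∑_e c_e q^e` where `∑_e c_e X^e = ∑_{m ≤ l} k^m (a X + b X²)^m/m!`, `c_e ≥ 0`,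
`c_0 = 1`, `c_1 ≤ k a ≤ k`, `∑_e c_e = ∑_{m ≤ l} (k(a+b))^m/m! ≤ e^{3k/2}` (`X = 1`). So `N2 γ = ∑ c_e²/q^e ≤ 1 + k²/q + (∑ c_e)²/q²`
`≤ 1 + k²/q + e^{3k}/q²`, and `1 + x ≤ e^x`. (`γ` is the image of the polynomial under `X ↦ single q 1`, the `q^e` are
distinct.) MEDIUM. -/
def S_Loc : Prop := ∀ (q l : ℕ) (k a b : ℝ), q.Prime → 0 ≤ k → 0 ≤ a → a ≤ 1 → 0 ≤ b → b ≤ 1 / 2 →
  N2 (tx l k (MonoidAlgebra.single q (a : ℂ) + MonoidAlgebra.single (q ^ 2) (b : ℂ))) ≤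
    Real.exp (k ^ 2 / q + Real.exp (3 * k) / (q : ℝ) ^ 2)

/-- **B8 (N2E).** Induction on `S`. `S = ∅`: `tx l k 0 = 1`, `N2 1 = 1`. Step: `pw a b (insert q S) = (a_q q + b_q q²) + pw a b S`; by B6
`tx` of the sum is majorised by the product of the two `tx`, which have coprime supports (B4, B3), then B7 and the induction
hypothesis. USES: S_N2M, S_SupL, S_MjL, S_Loc. EASY-MEDIUM. -/
def S_N2E : Prop := ∀ (S : Finset ℕ) (l : ℕ) (k : ℝ) (a b : ℕ → ℝ), (∀ p ∈ S, p.Prime) → 0 ≤ k →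
  Cf a b → N2 (tx l k (pw a b S)) ≤ Real.exp (k ^ 2 * se S + Real.exp (3 * k) * s2 S)

/-- **B9 (N2A), high moments.** For `e ∈ {1, 2}` and `A = ∑_{q ∈ S} c_q [q^e]`, `c_q` real: `N2 (A^n) ≤ n! (∑ c_q² q^{-e})^n` by
induction on `S`: `A = c_q [q^e] + A'`, `A^n = ∑_j C(n,j) c_q^j [q^{ej}] A'^{n-j}`; the supports of the terms for different `j` are
disjoint (exact power of `q`) and `N2 ([q^{ej}] A'^{n-j}) = q^{-ej} N2 (A'^{n-j})`; so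
`N2 (A^n) = ∑_j C(n,j)² c_q^{2j} q^{-ej} N2 (A'^{n-j})` and `C(n,j)² (n-j)! = n! C(n,j)/j! ≤ n! C(n,j)`; binomial theorem. Finally
`c_q² q^{-e} ≤ 1/q` in both cases. MEDIUM. -/
def S_N2A : Prop := ∀ (S : Finset ℕ) (n : ℕ) (a b : ℕ → ℝ), (∀ p ∈ S, p.Prime) → Cf a b →
  N2 (pw a (fun _ => 0) S ^ n) ≤ n.factorial * se S ^ n ∧
  N2 (pw (fun _ => 0) b S ^ n) ≤ n.factorial * se S ^ n

/-- **B10 (IntD), the integral.** Put `D = ∏_{i<J} tx (l i) k (pw a b (S i))`, `A = pw a' 0 (S J)`, `B = pw 0 b' (S J)`, so that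
`pw a' b' (S J) = A + B` and `|x+y|^{2n} ≤ 4^n (|x|^{2n} + |y|^{2n})`. So the integral is at most
`4^n (∫ |ev t (D A^n)|² + ∫ |ev t (D B^n)|²)`; lengths by B5 (`∑ 2 l_i y_i + 2 n y_J ≤ log T/2`), B2, then `N2 (D A^n) = N2 D · N2 (A^n)` and
`N2 D = ∏ N2` by B3 (supports by B4, the `S i`, `i ≤ J`, are pairwise disjoint), B8, B9. USES: S_MVa, S_N2M, S_SupL, S_LnL, S_N2E, S_N2A.
Continuity of `t ↦ ev t α`: `ev t α = α.coeff.sum fun n x => x * chi t n` (`MonoidAlgebra.lift_apply`). MEDIUM. -/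
def S_IntD : Prop := ∀ (k T : ℝ) (J n : ℕ) (S : ℕ → Finset ℕ) (l : ℕ → ℕ) (a b a' b' : ℕ → ℝ)
    (y : ℕ → ℝ), 0 ≤ k → 1 ≤ T → (∀ i ≤ J, 0 ≤ y i ∧ ∀ p ∈ S i, p.Prime ∧ Real.log p ≤ y i) →
  (∀ i ≤ J, ∀ i' ≤ J, i ≠ i' → Disjoint (S i) (S i')) → Cf a b → Cf a' b' →
  (∑ i ∈ Finset.range J, 2 * (l i : ℝ) * y i) + 2 * (n : ℝ) * y J ≤ Real.log T / 2 →
  ∫ t in T..(2 * T), (∏ i ∈ Finset.range J, ‖ev t (tx (l i) k (pw a b (S i)))‖ ^ 2) *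
      ‖ev t (pw a' b' (S J))‖ ^ (2 * n) ≤
    3 * T * Real.exp (k ^ 2 * ∑ i ∈ Finset.range J, se (S i) +
      Real.exp (3 * k) * ∑ i ∈ Finset.range J, s2 (S i)) *
      (2 * 4 ^ n * (n.factorial * se (S J) ^ n))

/-! ### Group 2: levels -/

/-- **B11 (SpS).** The sets of primes `Sp T i`. (`p ∈ range (⌊e^y⌋+1)` iff `log p ≤ y`; `yv T` is strictly increasing as
`log log T > 0`; for the last part take the least `i` with `log p ≤ yv T i`.) EASY. -/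
def S_SpS : Prop := ∀ T : ℝ, Big T →
  (∀ i, ∀ p ∈ Sp T i, p.Prime ∧ Real.log p ≤ yv T i) ∧
  (∀ i i', i ≠ i' → Disjoint (Sp T i) (Sp T i')) ∧
  (∀ l : ℕ, ∀ p : ℕ, p.Prime → (Real.log p ≤ yv T l ↔ ∃ i ≤ l, p ∈ Sp T i))

/-- **B12 (Mer).** From `WM.S_Mert` (proved: `WM/I_Mert.lean`; `S1 x = ∑_{p ≤ x} 1/p`). With `x_j = e^{yv T j} ≥ log T ≥ e`, `N = ⌊x_j⌋ ≥ 2`:
the union of the `Sp T i`, `i ≤ j`, is the set of the primes `≤ N` (B11), so the first sum is `S1 N ≤ log C + log log N ≤ log C + log (yv T j)`.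
For `i ≥ 1`: `se (Sp T i) = S1 ⌊x_i⌋ - S1 ⌊x_{i-1}⌋ ≤ 2 log C + log (yv T i) - log log ⌊x_{i-1}⌋` and `log ⌊x⌋ ≥ (log x)/2` for `x ≥ e`
(`⌊x⌋ ≥ √x`), `yv T i = 20 yv T (i-1)`: at most `2 log C + log 40`. Third: `∑_p 1/p² ≤ ∑_{n ≥ 2} 1/(n(n-1)) = 1`. USES: S_SpS, WM.S_Mert. MEDIUM. -/
def S_Mer : Prop := ∃ C₁ : ℝ, 1 ≤ C₁ ∧ ∀ T : ℝ, Big T →
  (∀ j : ℕ, ∑ i ∈ Finset.range (j + 1), se (Sp T i) ≤ Real.log (yv T j) + C₁) ∧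
  (∀ i : ℕ, 1 ≤ i → se (Sp T i) ≤ C₁) ∧
  (∀ j : ℕ, ∑ i ∈ Finset.range (j + 1), s2 (Sp T i) ≤ 1)

/-- **B13 (Fst), the first level is trivial.** `|ev t (pw a b S)| ≤ ∑_{p ∈ S} (p^{-1/2} + 1/(2p)) ≤ (3/2) ∑_{n ≤ log T} n^{-1/2} ≤ 3 (log T)^{1/2}`
(`|chi t p| = p^{-1/2}`, `chi t (p²) = (chi t p)²`), and `Vv T 0 = (log T/log log T)^{3/4} ≥ 3 (log T)^{1/2}` for large `T`. EASY-MEDIUM. -/
def S_Fst : Prop := ∃ T₀ : ℝ, ∀ T : ℝ, T₀ ≤ T → ∀ a b : ℕ → ℝ, Cf a b → ∀ t : ℝ,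
  ‖ev t (pw a b (Sp T 0))‖ ≤ Vv T 0

/-- **B14 (PwZ), from the hypothesis to the levels.** First part: trivial. Second: `x = e^{yv T l}`: `log T ≤ x` as `yv T l ≥ log log T`,
`x ≤ T^b₀` as `yv T l ≤ b₀ log T`, `log T/log x = 1/be T l`. The sum over `n ≤ x` is over the prime powers `n = p^r ≤ x`, `Λ(n)/log n = 1/r`.
`r = 1`: the primes `p ≤ x`, that is the union of the `Sp T i`, `i ≤ l` (B11). `r = 2`: the primes with `p² ≤ x`, which are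
among these, coefficient `v(p²)/2`, `chi t (p²)`. `r ≥ 3`: at most `∑_p ∑_{r ≥ 3} p^{-r/2} ≤ ∑_p 4 p^{-3/2} =: C₀` in absolute value
(`1/(1 - 2^{-1/2}) ≤ 4`). (Split the set of `n ≤ x` with `Λ(n) ≠ 0` into primes, squares of primes and the rest; the rest is
contained in the image of the pairs `(p, r)`, `r ≥ 3`, `p^r ≤ x`.) USES: S_SpS. MEDIUM. -/
def S_PwZ : Prop := ∃ C₀ : ℝ, 0 ≤ C₀ ∧ ∀ (v : ℝ → ℕ → ℝ), (∀ x n, 0 ≤ v x n ∧ v x n ≤ 1) →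
  (∀ (T : ℝ) (l : ℕ), Cf (av v T l) (bv v T l)) ∧
  ∀ (K b₀ T : ℝ) (E : Set ℝ), Big T → Hyp v K b₀ T E →
  ∀ l : ℕ, be T l ≤ b₀ → ∀ t ∈ E, ‖riemannZeta (1 / 2 + t * Complex.I)‖ ≤
    Real.exp ((∑ i ∈ Finset.range (l + 1), ev t (Pv v T i l)).re + C₀ + K / be T l)

/-- **B15 (LevE).** `L = log T`. For large `T`: `log L ≥ 1` and `log L ≤ b L`. Let `M ≥ 1` be the largest number with `20^{M-1} log L ≤ b L`.
EASY. -/
def S_LevE : Prop := ∀ b : ℝ, 0 < b → b ≤ 1 → ∃ T₀ : ℝ, ∀ T : ℝ, T₀ ≤ T → ∃ M : ℕ, Lev T b M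

/-- **B16 (LevB).** `be T i = 20^i log log T/log T`, so `be T i = be T (M-1)/20^{M-1-i}` for `i < M`. EASY. -/
def S_LevB : Prop := ∀ (T b : ℝ) (M : ℕ), Lev T b M → b ≤ 1 → 0 < Real.log T ∧
  (∀ i, 0 < be T i ∧ 0 < yv T i ∧ yv T i = be T i * Real.log T ∧ be T (i + 1) = 20 * be T i ∧
    0 < Vv T i) ∧
  ∀ i < M, be T i ≤ b * (1 / 20) ^ (M - 1 - i) ∧ be T i ≤ b ∧ 1 ≤ Vv T i ∧
    yv T i ≤ Real.log T ∧ ((M : ℝ) - i ≤ Vv T i)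

/-- **B17 (NmL), lengths.** `lv k T i ≤ 10 (k+1) V_i + 1 ≤ 11 (k+1) V_i`, so `2 lv yv ≤ 22 (k+1) β_i^{1/4} log T`; by B16
`β_i^{1/4} ≤ b^{1/4} (20^{-1/4})^{M-1-i}` and the geometric sum is at most `2` (`20^{1/4} ≥ 2`): the sum is at most
`44 (k+1) b^{1/4} log T ≤ (log T)/4` if `b ≤ (1/(176 (k+1)))^4`. Second: `2 n y ≤ 2 y/(20 β) = (log T)/10`. USES: S_LevB. EASY-MEDIUM. -/
def S_NmL : Prop := ∀ k : ℝ, 0 ≤ k → ∃ b₁ : ℝ, 0 < b₁ ∧ b₁ ≤ 1 ∧ ∀ (T b : ℝ) (M : ℕ), 0 < b → b ≤ b₁ →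
  Lev T b M → (∀ J ≤ M, ∑ i ∈ Finset.range J, 2 * (lv k T i : ℝ) * yv T i ≤ Real.log T / 4) ∧
  ∀ J < M, 2 * (nv T J : ℝ) * yv T J ≤ Real.log T / 4

/-- **B18 (NmP).** `1 + 2x ≤ e^{2x}`, so the product is at most `exp (4 ∑ e^{-lv})`, and `lv k T i ≥ V_i ≥ M - i` (B16), so the sum is at most
`∑_{r ≥ 1} e^{-r} ≤ 1`. USES: S_LevB. EASY. -/
def S_NmP : Prop := ∀ (k T b : ℝ) (M : ℕ), 0 ≤ k → Lev T b M → b ≤ 1 → ∀ j < M,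
  ∏ i ∈ Finset.range (j + 1), (1 + 2 * Real.exp (-(lv k T i : ℝ))) ^ 2 ≤ Real.exp 4

/-- **B19 (NmS), the sum over the levels.** Let `β = be T (j+1) ≤ b`, `n = nv T (j+1)`, so `n ≤ 1/(20β)` and `n ≥ 1/(40β)` (`β ≤ 1/40`), and
`be T j = β/20`, `V^{-2n} = β^{3n/2}`. `n! ≤ n^n`: `4^n n! C₁^n V^{-2n} ≤ (4 n C₁ β^{3/2})^n ≤ (C₁ β^{1/2})^n ≤ (C₁ b^{1/2})^n ≤ exp (-(40kK+1)/β)` if
`b₁` is so small that `C₁ b₁^{1/2} ≤ exp (-40 (40kK+1))` and `b₁ ≤ 1/40`; and `exp (2k K/be T j) = exp (40kK/β)`. So each term is at most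
`2 exp (-1/β) ≤ 2 exp (-20^{M-2-j})` (B16, `b ≤ 1`), there are `M-1-j` values of `l`, and `∑_{r ≥ 0} (r+1) e^{-20^r} ≤ 4`
(`20^r ≥ 2r`, `(r+1) e^{-2r} ≤ 2^{-r} · 2`...). USES: S_LevB. MEDIUM. -/
def S_NmS : Prop := ∀ k K C₁ : ℝ, 0 ≤ k → 0 ≤ K → 1 ≤ C₁ → ∃ b₁ : ℝ, 0 < b₁ ∧ b₁ ≤ 1 ∧
  ∀ (T b : ℝ) (M : ℕ), 0 < b → b ≤ b₁ → Lev T b M →
  ∑ j ∈ Finset.range (M - 1), ∑ _l ∈ Finset.Ico (j + 1) M, Real.exp (2 * k * (K / be T j)) *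
    (2 * 4 ^ nv T (j + 1) * ((nv T (j + 1)).factorial * C₁ ^ nv T (j + 1)) /
      Vv T (j + 1) ^ (2 * nv T (j + 1))) ≤ 8

/-! ### Group 3: the splitting -/

/-- **B20 (Tay).** The tail: `∑_{m > l} |w|^m/m! ≤ (10/9) |w|^{l+1}/(l+1)! ≤ (10/9) (e|w|/(l+1))^{l+1} ≤ (10/9) (e/10)^{l+1} ≤ 0.31 · 0.272^l`
(for `l = 0` we have `w = 0`), and `|e^w| ≥ e^{-l/10}`, so `|TE l w| ≥ |e^w| (1 - 0.31 · (0.272 e^{1/10})^l) ≥ |e^w| (1 - 0.31 e^{-l})`; and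
`(1 - 0.31 x)(1 + 2x) ≥ 1` for `0 ≤ x ≤ 1`. (`m! ≥ (m/e)^m`.) EASY-MEDIUM. -/
def S_Tay : Prop := ∀ (l : ℕ) (w : ℂ), ‖w‖ ≤ (l : ℝ) / 10 →
  Real.exp w.re ≤ (1 + 2 * Real.exp (-(l : ℝ))) * ‖TE l w‖

/-- **B21 (Spl), the splitting.** Call `j + 1 < M` bad if `V_{j+1} < |ev t (Pv v T (j+1) l)|` for some `l` with `j + 1 ≤ l < M`. If no `j + 1` is bad put
`j = M - 1`, otherwise let `j + 1` be the least bad one and `l` a witness. In both cases `|ev t (Pv v T i j)| ≤ V_i` for all `i ≤ j` (`i = 0` by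
hypothesis). So with `w = k ev t (Pv v T i j)`: `|w| ≤ k V_i ≤ lv/10`, and B20, B1 give
`exp (2k Re ev t (Pv v T i j)) = (exp (Re w))² ≤ (1 + 2 e^{-lv})² |ev t (tx ..)|²`; with the bound for `z` at level `j`: `z^{2k} ≤ Gt .. j t`. In the
first case this is the first term, in the second case multiply by `(|ev t (Pv v T (j+1) l)|/V_{j+1})^{2n} ≥ 1`; all other terms are
nonnegative. USES: S_EvT, S_LevB, S_Tay. MEDIUM. -/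
def S_Spl : Prop := ∀ (v : ℝ → ℕ → ℝ) (k K C₀ T b : ℝ) (M : ℕ) (t z : ℝ), 0 < k → Lev T b M → b ≤ 1 →
  (∀ l < M, ‖ev t (Pv v T 0 l)‖ ≤ Vv T 0) → 0 ≤ z →
  (∀ l < M, z ≤ Real.exp ((∑ i ∈ Finset.range (l + 1), ev t (Pv v T i l)).re + C₀ + K / be T l)) →
  z ^ (2 * k) ≤ Gt v k K C₀ T (M - 1) t + ∑ j ∈ Finset.range (M - 1), ∑ l ∈ Finset.Ico (j + 1) M,
    Gt v k K C₀ T j t * (‖ev t (Pv v T (j + 1) l)‖ / Vv T (j + 1)) ^ (2 * nv T (j + 1))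

/-- **B22 (HarT), HARPER'S BOUND on `E`.** Let `C₀` be from B14, `C₁` from B12, `b` the minimum of `b₀`, `1` and the `b₁` of B17 and B19; `M` from B15, `T` also
larger than the `T₀` of B13. For `t ∈ E` B21 applies with `z = |zeta(1/2+it)|` (B14 for `l < M`, `be T l ≤ b ≤ b₀` by B16; B13). Integrate over `E`; all
terms are nonnegative and continuous, so extend to `[T, 2T]`. Main term: `exp (2k (C₀ + 20K/b)) e⁴` (B16 `lo`, B18) times B10 with `J = M`, `n = 0`,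
`S = Sp T` (B11), lengths by B17: `3T exp (k² (log (yv T (M-1)) + C₁) + e^{3k}) · 2 ≤ C T (log T)^{k²}` as `0 < yv ≤ log T`. The other terms: B10 with
`J = j + 1`, `n = nv T (j+1)`, `a, b` of level `j`, `a', b'` of level `l`: at most
`exp (2k (C₀ + K/be T j)) e⁴ · 3T exp (k² (log (yv T j) + C₁) + e^{3k}) · 2 · 4^n n! C₁^n/V_{j+1}^{2n}`; sum by B19. (Measurability on `E`: `E` is
measurable and `zeta(1/2+it)` is continuous; bound the integral over `E` by the integral of the majorant.)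
USES: S_IntD, S_SpS, S_Mer, S_Fst, S_PwZ, S_LevE, S_LevB, S_NmL, S_NmP, S_NmS, S_Spl. MEDIUM. -/
def S_HarT : Prop := ∀ k K b₀ : ℝ, 0 < k → 0 ≤ K → 0 < b₀ → ∃ C T₀ : ℝ, 3 ≤ T₀ ∧
  ∀ T : ℝ, T₀ ≤ T → ∀ v : ℝ → ℕ → ℝ, (∀ x n, 0 ≤ v x n ∧ v x n ≤ 1) →
  ∀ E : Set ℝ, MeasurableSet E → E ⊆ Icc T (2 * T) → Hyp v K b₀ T E →
    ∫ t in E, ‖riemannZeta (1 / 2 + t * Complex.I)‖ ^ (2 * k : ℝ) ≤
      C * (T * Real.log T ^ (k ^ 2 : ℝ))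

end Pool.Agent.Work.MP_56b8f5_nt.HZB
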