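import Pool.Agent.Work.MP_56b8f5_nt.HZ.StmtsB

/-!
MP_56b8f5_nt, block HZ, part B, item B10 (IntD): the mean value of a product of truncated exponentials
and a high power.
-/

set_option autoImplicit false

open MeasureTheory Set Filter Topology

noncomputable section

namespace Pool.Agent.Work.MP_56b8f5_nt.HZB

open Pool.Agent.Work.MP_56b8f5_nt.SH

namespace AuxIntD

theorem cont_chi (m : ℕ) : Continuous (fun t : ℝ => chi t m) := by
  change Continuous (fun t : ℝ => (m : ℂ) ^ (-(1 / 2 + (t : ℂ) * Complex.I)))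
  rcases Nat.eq_zero_or_pos m with rfl | hm
  · have h0 : (fun t : ℝ => ((0 : ℕ) : ℂ) ^ (-(1 / 2 + (t : ℂ) * Complex.I))) = fun _ => 0 := by
      funext t
      rw [Nat.cast_zero, Complex.zero_cpow]
      intro h
      have h1 := congrArg Complex.re h
      simp at h1
    rw [h0]
    exact continuous_const
  · refine Continuous.const_cpow (by fun_prop) (Or.inl (by exact_mod_cast hm.ne'))

theorem ev_eq (t : ℝ) (α : DA) : ev t α = ∑ a ∈ α.coeff.support, α.coeff a * chi t a := by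
  unfold ev
  rw [MonoidAlgebra.lift_apply, Finsupp.sum]
  rfl

theorem cont_ev (α : DA) : Continuous (fun t : ℝ => ev t α) := by
  simp only [ev_eq]
  exact continuous_finsetSum _ fun a _ => continuous_const.mul (cont_chi a)

theorem N2_nonneg (α : DA) : 0 ≤ N2 α := by
  unfold N2
  rw [Finsupp.sum]
  exact Finset.sum_nonneg fun _ _ => by positivity

theorem N2_one : N2 (1 : DA) = 1 := by
  unfold N2
  rw [MonoidAlgebra.one_def, MonoidAlgebra.coeff_single, Finsupp.sum_single_index]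
  · simp
  · simp

theorem pow_bd (x y : ℂ) (n : ℕ) :
    ‖x + y‖ ^ (2 * n) ≤ 4 ^ n * (‖x‖ ^ (2 * n) + ‖y‖ ^ (2 * n)) := by
  have h1 : ‖x + y‖ ≤ 2 * max ‖x‖ ‖y‖ := by
    have := norm_add_le x y
    have h2 := le_max_left ‖x‖ ‖y‖
    have h3 := le_max_right ‖x‖ ‖y‖
    linarith
  have hx : 0 ≤ ‖x‖ ^ (2 * n) := by positivity
  have hy : 0 ≤ ‖y‖ ^ (2 * n) := by positivity
  calc ‖x + y‖ ^ (2 * n) ≤ (2 * max ‖x‖ ‖y‖) ^ (2 * n) := by gcongr
    _ = 4 ^ n * (max ‖x‖ ‖y‖) ^ (2 * n) := by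
        rw [mul_pow, pow_mul]
        norm_num
    _ ≤ _ := by
        refine mul_le_mul_of_nonneg_left ?_ (by positivity)
        rcases le_total ‖x‖ ‖y‖ with h | h
        · rw [max_eq_right h]
          linarith
        · rw [max_eq_left h]
          linarith

theorem pw_split (a b : ℕ → ℝ) (S : Finset ℕ) :
    pw a b S = pw a (fun _ => 0) S + pw (fun _ => 0) b S := by
  unfold pw
  rw [← Finset.sum_add_distrib]
  refine Finset.sum_congr rfl fun p _ => ?_
  simp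

/-- The product of the truncated exponentials. -/
def Dd (k : ℝ) (l : ℕ → ℕ) (a b : ℕ → ℝ) (S : ℕ → Finset ℕ) (J : ℕ) : DA :=
  ∏ i ∈ Finset.range J, tx (l i) k (pw a b (S i))

theorem Dd_props (hM : S_N2M) (hS : S_SupL) (hL : S_LnL) (hE : S_N2E) (k : ℝ) (l : ℕ → ℕ)
    (a b : ℕ → ℝ) (S : ℕ → Finset ℕ) (y : ℕ → ℝ) (hk : 0 ≤ k) (hab : Cf a b) (J : ℕ)
    (h1 : ∀ i < J, 0 ≤ y i ∧ ∀ p ∈ S i, p.Prime ∧ Real.log p ≤ y i)
    (h2 : ∀ i < J, ∀ i' < J, i ≠ i' → Disjoint (S i) (S i')) :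
    Sup ((Finset.range J).biUnion S) (Dd k l a b S J) ∧
    Ln (∑ i ∈ Finset.range J, 2 * (l i : ℝ) * y i) (Dd k l a b S J) ∧
    N2 (Dd k l a b S J) ≤ Real.exp (k ^ 2 * ∑ i ∈ Finset.range J, se (S i) +
      Real.exp (3 * k) * ∑ i ∈ Finset.range J, s2 (S i)) := by
  obtain ⟨s1, s2', s3, s4, s5, s6⟩ := hS
  obtain ⟨l1, l2, l3, l4, l5, l6, l7⟩ := hL
  induction J with
  | zero =>
    refine ⟨?_, ?_, ?_⟩
    · simpa [Dd] using s6
    · simpa [Dd] using l2
    · simp [Dd, N2_one]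
  | succ J ih =>
    obtain ⟨i1, i2, i3⟩ := ih (fun i hi => h1 i (by omega))
      (fun i hi i' hi' => h2 i (by omega) i' (by omega))
    have hJ := h1 J (by omega)
    have hD : Dd k l a b S (J + 1) = Dd k l a b S J * tx (l J) k (pw a b (S J)) :=
      Finset.prod_range_succ _ _
    have hU : (Finset.range (J + 1)).biUnion S = (Finset.range J).biUnion S ∪ S J := by
      rw [Finset.range_add_one, Finset.biUnion_insert, Finset.union_comm]
    have t1 : Sup (S J) (tx (l J) k (pw a b (S J))) :=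
      s4 _ _ _ _ (s1 _ _ _ fun p hp => (hJ.2 p hp).1)
    have t2 : Ln (2 * (l J : ℝ) * y J) (tx (l J) k (pw a b (S J))) := by
      have h := l6 (2 * y J) k (pw a b (S J)) (l J) (by linarith [hJ.1])
        (l7 (y J) a b (S J) hJ.2)
      have e : 2 * (l J : ℝ) * y J = (l J : ℝ) * (2 * y J) := by ring
      rw [e]
      exact h
    have hdis : Disjoint ((Finset.range J).biUnion S) (S J) := by
      rw [Finset.disjoint_biUnion_left]
      intro i hi
      have := Finset.mem_range.mp hi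
      exact h2 i (by omega) J (by omega) (by omega)
    refine ⟨?_, ?_, ?_⟩
    · rw [hU, hD]
      exact (s2' _ _ _ (s5 _ _ _ i1 Finset.subset_union_left)
        (s5 _ _ _ t1 Finset.subset_union_right)).2
    · rw [hD, Finset.sum_range_succ]
      exact l4 _ _ _ _ i2 t2
    · rw [hD, hM _ _ _ _ hdis i1 t1, Finset.sum_range_succ, Finset.sum_range_succ]
      have h3 := hE (S J) (l J) k a b (fun p hp => (hJ.2 p hp).1) hk hab
      refine (mul_le_mul i3 h3 (N2_nonneg _) (Real.exp_pos _).le).trans (le_of_eq ?_)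
      rw [← Real.exp_add]
      congr 1
      ring

end AuxIntD

open AuxIntD

theorem pf_IntD (hV : S_MVa) (hM : S_N2M) (hS : S_SupL) (hL : S_LnL) (hE : S_N2E) (hA : S_N2A) :
    S_IntD := by
  intro k T J n S l a b a' b' y hk hT h1 h2 hab hab' hlen
  obtain ⟨p1, p2, p3⟩ := Dd_props hM hS hL hE k l a b S y hk hab J (fun i hi => h1 i hi.le)
    (fun i hi i' hi' => h2 i hi.le i' hi'.le)
  obtain ⟨s1, s2', s3, s4, s5, s6⟩ := hS
  obtain ⟨l1, l2, l3, l4, l5, l6, l7⟩ := hL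
  have hJ := h1 J le_rfl
  have hpr : ∀ p ∈ S J, p.Prime := fun p hp => (hJ.2 p hp).1
  have hdis : Disjoint ((Finset.range J).biUnion S) (S J) := by
    rw [Finset.disjoint_biUnion_left]
    intro i hi
    have := Finset.mem_range.mp hi
    exact h2 i (by omega) J le_rfl (by omega)
  obtain ⟨q1, q2⟩ := hA (S J) n a' b' hpr hab'
  have hDe : ∀ t : ℝ, ∏ i ∈ Finset.range J, ‖ev t (tx (l i) k (pw a b (S i)))‖ ^ 2 =
      ‖ev t (Dd k l a b S J)‖ ^ 2 := by
    intro t
    rw [Dd, map_prod, norm_prod, Finset.prod_pow]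
  generalize hDg : Dd k l a b S J = D at p1 p2 p3 hDe
  generalize hX : Real.exp (k ^ 2 * ∑ i ∈ Finset.range J, se (S i) +
    Real.exp (3 * k) * ∑ i ∈ Finset.range J, s2 (S i)) = X at p3 ⊢
  have hX0 : 0 ≤ X := by rw [← hX]; exact (Real.exp_pos _).le
  generalize hF : (n.factorial : ℝ) * se (S J) ^ n = F at q1 q2 ⊢
  have hT0 : 0 ≤ 3 * T := by linarith
  have key : ∀ A : DA, Sup (S J) A → Ln (2 * y J) A → N2 (A ^ n) ≤ F →
      ∫ t in T..(2 * T), ‖ev t (D * A ^ n)‖ ^ 2 ≤ 3 * T * (X * F) := by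
    intro A hA1 hA2 hA3
    have hl : Ln (Real.log T / 2) (D * A ^ n) := by
      refine l1 _ _ _ (l4 _ _ _ _ p2 (l5 _ _ n hA2)) ?_
      linarith
    refine (hV T hT _ hl).trans ?_
    rw [hM _ _ _ _ hdis p1 (s3 _ _ n hA1)]
    exact mul_le_mul_of_nonneg_left (mul_le_mul p3 hA3 (N2_nonneg _) hX0) hT0
  have kA := key (pw a' (fun _ => 0) (S J)) (s1 _ _ _ hpr) (l7 _ _ _ _ hJ.2) q1
  have kB := key (pw (fun _ => 0) b' (S J)) (s1 _ _ _ hpr) (l7 _ _ _ _ hJ.2) q2
  have hsp := pw_split a' b' (S J)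
  generalize pw a' (fun _ => 0) (S J) = A at kA hsp
  generalize pw (fun _ => 0) b' (S J) = B at kB hsp
  have hT2 : T ≤ 2 * T := by linarith
  have cA : Continuous fun t : ℝ => ‖ev t (D * A ^ n)‖ ^ 2 := (cont_ev _).norm.pow 2
  have cB : Continuous fun t : ℝ => ‖ev t (D * B ^ n)‖ ^ 2 := (cont_ev _).norm.pow 2
  simp only [hDe, hsp]
  have cL : Continuous fun t : ℝ => ‖ev t D‖ ^ 2 * ‖ev t (A + B)‖ ^ (2 * n) :=
    ((cont_ev _).norm.pow 2).mul ((cont_ev _).norm.pow (2 * n))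
  have hmono : ∫ t in T..(2 * T), ‖ev t D‖ ^ 2 * ‖ev t (A + B)‖ ^ (2 * n) ≤
      ∫ t in T..(2 * T), 4 ^ n * (‖ev t (D * A ^ n)‖ ^ 2 + ‖ev t (D * B ^ n)‖ ^ 2) := by
    refine intervalIntegral.integral_mono_on hT2 (cL.intervalIntegrable _ _)
      ((continuous_const.mul (cA.add cB)).intervalIntegrable _ _) ?_
    intro t _
    rw [map_add, map_mul, map_mul, map_pow, map_pow, norm_mul, norm_mul, norm_pow, norm_pow]
    have h := mul_le_mul_of_nonneg_left (pow_bd (ev t A) (ev t B) n)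
      (by positivity : 0 ≤ ‖ev t D‖ ^ 2)
    refine h.trans (le_of_eq ?_)
    rw [mul_pow, mul_pow, ← pow_mul, ← pow_mul, mul_comm n 2]
    ring
  refine hmono.trans ?_
  rw [intervalIntegral.integral_const_mul, intervalIntegral.integral_add
    (cA.intervalIntegrable _ _) (cB.intervalIntegrable _ _)]
  have h4 : (0 : ℝ) ≤ 4 ^ n := by positivity
  calc 4 ^ n * (_ + _) ≤ 4 ^ n * (3 * T * (X * F) + 3 * T * (X * F)) :=
        mul_le_mul_of_nonneg_left (add_le_add kA kB) h4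
    _ = _ := by ring

end Pool.Agent.Work.MP_56b8f5_nt.HZB
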