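import Pool.Agent.Work.MP_56b8f5_nt.HZ.B_HarU

/-!
MP_56b8f5_nt, block HZ, part B: consequences of Harper's bound uniform in `k`: Gaussian upper bound for the measure of the
large values, Gaussian concentration of the moments.
-/

set_option autoImplicit false

open MeasureTheory Set Filter Topology

noncomputable section

namespace Pool.Agent.Work.MP_56b8f5_nt.HZB

open Pool.Agent.Work.MP_56b8f5_nt.SH

/-- **LD.** Gaussian upper bound for the large values, uniformly in `0 ≤ V ≤ k₀ log log T`. -/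
def S_LD : Prop := ∀ k₀ K b₀ : ℝ, 0 < k₀ → 0 ≤ K → 0 < b₀ → ∃ C T₀ : ℝ, 1 ≤ C ∧ 3 ≤ T₀ ∧
  ∀ T : ℝ, T₀ ≤ T → ∀ v : ℝ → ℕ → ℝ, (∀ x n, 0 ≤ v x n ∧ v x n ≤ 1) →
  ∀ E : Set ℝ, MeasurableSet E → E ⊆ Icc T (2 * T) → Hyp v K b₀ T E →
  ∀ V : ℝ, 0 ≤ V → V ≤ k₀ * Real.log (Real.log T) →
    volume.real {t | t ∈ E ∧ Real.exp V ≤ ‖riemannZeta (1 / 2 + t * Complex.I)‖} ≤
      C * (T * Real.exp (-(V ^ 2 / Real.log (Real.log T))))

/-- **Cc.** Concentration: for `0 ≤ R < k √(log log T)` the part of the `2k`-th moment over `E` which comes from the `t` with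
`|log |zeta| - k log log T| > R √(log log T)` is at most `C e^{-R²}` times the full order. -/
def S_Cc : Prop := ∀ k₀ K b₀ : ℝ, 0 < k₀ → 0 ≤ K → 0 < b₀ → ∃ C T₀ : ℝ, 1 ≤ C ∧ 3 ≤ T₀ ∧
  ∀ T : ℝ, T₀ ≤ T → ∀ v : ℝ → ℕ → ℝ, (∀ x n, 0 ≤ v x n ∧ v x n ≤ 1) →
  ∀ E : Set ℝ, MeasurableSet E → E ⊆ Icc T (2 * T) → Hyp v K b₀ T E →
  ∀ k R : ℝ, 0 < k → k ≤ k₀ → 0 ≤ R → R < k * Real.sqrt (Real.log (Real.log T)) →
    ∫ t in {t | t ∈ E ∧ (‖riemannZeta (1 / 2 + t * Complex.I)‖ <
        Real.exp (k * Real.log (Real.log T) - R * Real.sqrt (Real.log (Real.log T))) ∨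
        Real.exp (k * Real.log (Real.log T) + R * Real.sqrt (Real.log (Real.log T))) <
          ‖riemannZeta (1 / 2 + t * Complex.I)‖)},
      ‖riemannZeta (1 / 2 + t * Complex.I)‖ ^ (2 * k : ℝ) ≤
      C * Real.exp (-R ^ 2) * (T * Real.log T ^ (k ^ 2 : ℝ))

namespace AuxLD

open AuxHarT

lemma cont_rpow (k : ℝ) (hk : 0 ≤ k) :
    Continuous fun t : ℝ => ‖riemannZeta (1 / 2 + t * Complex.I)‖ ^ (2 * k : ℝ) :=
  continuous_zeta.norm.rpow_const fun t => Or.inr (by linarith)

lemma intOn (k : ℝ) (hk : 0 ≤ k) {T : ℝ} {E : Set ℝ} (hET : E ⊆ Icc T (2 * T)) :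
    IntegrableOn (fun t : ℝ => ‖riemannZeta (1 / 2 + t * Complex.I)‖ ^ (2 * k : ℝ)) E :=
  ((cont_rpow k hk).continuousOn.integrableOn_compact isCompact_Icc).mono_set hET

lemma loglog_pos {T : ℝ} (hT : Real.exp (Real.exp 1) ≤ T) :
    0 < Real.log T ∧ 1 ≤ Real.log (Real.log T) := by
  have h1 : Real.exp 1 ≤ Real.log T := by
    rw [Real.le_log_iff_exp_le (lt_of_lt_of_le (Real.exp_pos _) hT)]
    exact hT
  have h2 : 0 < Real.log T := (Real.exp_pos _).trans_le h1
  refine ⟨h2, ?_⟩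
  rw [Real.le_log_iff_exp_le h2]
  exact h1

end AuxLD

open AuxLD AuxHarT in
theorem pf_LD (h : S_HarU) : S_LD := by
  intro k₀ K b₀ hk₀ hK hb₀
  obtain ⟨C, T₀, hC, hT₀, hmain⟩ := h k₀ K b₀ hk₀ hK hb₀
  refine ⟨C, max T₀ (Real.exp (Real.exp 1)), hC, hT₀.trans (le_max_left _ _), ?_⟩
  intro T hT v hv E hE hET hHyp V hV hVk
  have hTT₀ : T₀ ≤ T := (le_max_left _ _).trans hT
  have hT3 : 3 ≤ T := hT₀.trans hTT₀
  obtain ⟨hlog, hll⟩ := loglog_pos ((le_max_right _ _).trans hT)
  set LL := Real.log (Real.log T) with hLL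
  have hLLp : 0 < LL := by linarith
  rcases hV.eq_or_lt with hV0 | hV0
  · rw [← hV0]
    have h1 : volume.real {t | t ∈ E ∧ Real.exp 0 ≤ ‖riemannZeta (1 / 2 + t * Complex.I)‖} ≤
        volume.real (Icc T (2 * T)) := by
      refine measureReal_mono (fun t ht => hET ht.1) ?_
      rw [Real.volume_Icc]
      exact ENNReal.ofReal_ne_top
    refine h1.trans ?_
    rw [Real.volume_real_Icc_of_le (by linarith)]
    have h2 : (0 : ℝ) ^ 2 / LL = 0 := by simp
    rw [h2, neg_zero, Real.exp_zero, mul_one]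
    nlinarith
  · set k := V / LL with hk
    have hkp : 0 < k := div_pos hV0 hLLp
    have hkk : k ≤ k₀ := by
      rw [hk, div_le_iff₀ hLLp]
      exact hVk
    have h1 := hmain T hTT₀ v hv E hE hET hHyp k hkp hkk
    set F : Set ℝ := {t | t ∈ E ∧ Real.exp V ≤ ‖riemannZeta (1 / 2 + t * Complex.I)‖} with hF
    have hFm : MeasurableSet F :=
      hE.inter (isClosed_le continuous_const continuous_zeta.norm).measurableSet
    have hFE : F ⊆ E := fun t ht => ht.1
    have hfin : volume F ≠ ⊤ := by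
      have h3 : volume F ≤ volume (Icc T (2 * T)) := measure_mono (hFE.trans hET)
      rw [Real.volume_Icc] at h3
      exact (h3.trans_lt ENNReal.ofReal_lt_top).ne
    have h2 : Real.exp (2 * k * V) * volume.real F ≤
        ∫ t in F, ‖riemannZeta (1 / 2 + t * Complex.I)‖ ^ (2 * k : ℝ) := by
      have h4 : ∫ _t in F, Real.exp (2 * k * V) = Real.exp (2 * k * V) * volume.real F := by
        rw [setIntegral_const, smul_eq_mul, mul_comm]
      rw [← h4]
      refine setIntegral_mono_on (integrableOn_const hfin) (intOn k hkp.le (hFE.trans hET)) hFm ?_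
      intro t ht
      have h5 : Real.exp (2 * k * V) = Real.exp V ^ (2 * k : ℝ) := by
        rw [← Real.exp_mul]
        congr 1
        ring
      rw [h5]
      exact Real.rpow_le_rpow (Real.exp_pos _).le ht.2 (by linarith)
    have h3 : ∫ t in F, ‖riemannZeta (1 / 2 + t * Complex.I)‖ ^ (2 * k : ℝ) ≤
        ∫ t in E, ‖riemannZeta (1 / 2 + t * Complex.I)‖ ^ (2 * k : ℝ) :=
      setIntegral_mono_set (intOn k hkp.le hET) (ae_of_all _ fun t => by positivity)
        (HasSubset.Subset.eventuallyLE hFE)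
    have h4 : Real.exp (2 * k * V) * volume.real F ≤ C * (T * Real.log T ^ (k ^ 2 : ℝ)) :=
      (h2.trans h3).trans h1
    have h5 : Real.log T ^ (k ^ 2 : ℝ) = Real.exp (LL * k ^ 2) := by
      rw [Real.rpow_def_of_pos hlog]
    rw [h5] at h4
    have h6 : LL * k ^ 2 = 2 * k * V + -(V ^ 2 / LL) := by
      rw [hk]
      field_simp
      ring
    rw [h6, Real.exp_add] at h4
    have h7 : 0 < Real.exp (2 * k * V) := Real.exp_pos _
    have h8 : Real.exp (2 * k * V) * volume.real F ≤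
        Real.exp (2 * k * V) * (C * (T * Real.exp (-(V ^ 2 / LL)))) := by
      refine h4.trans (le_of_eq ?_)
      ring
    exact le_of_mul_le_mul_left h8 h7

open AuxLD AuxHarT in
theorem pf_Cc (h : S_HarU) : S_Cc := by
  intro k₀ K b₀ hk₀ hK hb₀
  obtain ⟨C, T₀, hC, hT₀, hmain⟩ := h (2 * k₀) K b₀ (by linarith) hK hb₀
  refine ⟨2 * C, max T₀ (Real.exp (Real.exp 1)), by linarith, hT₀.trans (le_max_left _ _), ?_⟩
  intro T hT v hv E hE hET hHyp k R hk hkk hR hRk
  have hTT₀ : T₀ ≤ T := (le_max_left _ _).trans hT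
  have hT3 : 3 ≤ T := hT₀.trans hTT₀
  obtain ⟨hlog, hll⟩ := loglog_pos ((le_max_right _ _).trans hT)
  set LL := Real.log (Real.log T) with hLL
  have hLLp : 0 < LL := by linarith
  set s := Real.sqrt LL with hs
  have hsp : 0 < s := Real.sqrt_pos.2 hLLp
  have hss : s ^ 2 = LL := Real.sq_sqrt hLLp.le
  set η := R / s with hη
  have hη0 : 0 ≤ η := div_nonneg hR hsp.le
  have hηk : η < k := by
    rw [hη, div_lt_iff₀ hsp]
    exact hRk
  have hRη : R = η * s := by
    rw [hη, div_mul_cancel₀ _ hsp.ne']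
  set z : ℝ → ℝ := fun t => ‖riemannZeta (1 / 2 + t * Complex.I)‖ with hz
  -- the two parts
  set G : ℝ → ℝ := fun t => Real.exp (2 * η * (k * LL - R * s)) * z t ^ (2 * (k - η) : ℝ) +
    Real.exp (-(2 * η * (k * LL + R * s))) * z t ^ (2 * (k + η) : ℝ) with hG
  have hG0 : ∀ t, 0 ≤ G t := fun t => by
    simp only [hG, hz]
    positivity
  have hGi : IntegrableOn G E :=
    ((intOn (k - η) (by linarith) hET).const_mul _).add
      ((intOn (k + η) (by linarith) hET).const_mul _)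
  set F : Set ℝ := {t | t ∈ E ∧ (z t < Real.exp (k * LL - R * s) ∨ Real.exp (k * LL + R * s) < z t)}
    with hF
  have hFE : F ⊆ E := fun t ht => ht.1
  have hFm : MeasurableSet F := by
    refine hE.inter (MeasurableSet.union ?_ ?_)
    · exact (isOpen_lt continuous_zeta.norm continuous_const).measurableSet
    · exact (isOpen_lt continuous_const continuous_zeta.norm).measurableSet
  have hpt : ∀ t ∈ F, z t ^ (2 * k : ℝ) ≤ G t := by
    intro t ht
    have hz0 : 0 ≤ z t := norm_nonneg _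
    rcases ht.2 with h1 | h1
    · have h2 : z t ^ (2 * k : ℝ) ≤ Real.exp (2 * η * (k * LL - R * s)) * z t ^ (2 * (k - η) : ℝ) := by
        have h3 : z t ^ (2 * k : ℝ) = z t ^ (2 * η : ℝ) * z t ^ (2 * (k - η) : ℝ) := by
          rw [← Real.rpow_add_of_nonneg hz0 (by linarith) (by linarith)]
          congr 1
          ring
        rw [h3]
        refine mul_le_mul_of_nonneg_right ?_ (Real.rpow_nonneg hz0 _)
        have h4 : Real.exp (2 * η * (k * LL - R * s)) = Real.exp (k * LL - R * s) ^ (2 * η : ℝ) := by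
          rw [← Real.exp_mul]
          congr 1
          ring
        rw [h4]
        exact Real.rpow_le_rpow hz0 h1.le (by linarith)
      have h3 : 0 ≤ Real.exp (-(2 * η * (k * LL + R * s))) * z t ^ (2 * (k + η) : ℝ) := by positivity
      simp only [hG]
      linarith
    · have hzp : 0 < z t := (Real.exp_pos _).trans h1
      have h2 : z t ^ (2 * k : ℝ) ≤ Real.exp (-(2 * η * (k * LL + R * s))) * z t ^ (2 * (k + η) : ℝ) := by
        have h3 : z t ^ (2 * (k + η) : ℝ) = z t ^ (2 * η : ℝ) * z t ^ (2 * k : ℝ) := by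
          rw [← Real.rpow_add hzp]
          congr 1
          ring
        rw [h3, ← mul_assoc]
        refine le_mul_of_one_le_left (Real.rpow_nonneg hz0 _) ?_
        have h4 : Real.exp (2 * η * (k * LL + R * s)) = Real.exp (k * LL + R * s) ^ (2 * η : ℝ) := by
          rw [← Real.exp_mul]
          congr 1
          ring
        have h5 : Real.exp (2 * η * (k * LL + R * s)) ≤ z t ^ (2 * η : ℝ) := by
          rw [h4]
          exact Real.rpow_le_rpow (Real.exp_pos _).le h1.le (by linarith)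
        calc (1 : ℝ) = Real.exp (-(2 * η * (k * LL + R * s))) * Real.exp (2 * η * (k * LL + R * s)) := by
              rw [← Real.exp_add]; simp
          _ ≤ _ := mul_le_mul_of_nonneg_left h5 (Real.exp_pos _).le
      have h3 : 0 ≤ Real.exp (2 * η * (k * LL - R * s)) * z t ^ (2 * (k - η) : ℝ) := by positivity
      simp only [hG]
      linarith
  have h1 : ∫ t in F, z t ^ (2 * k : ℝ) ≤ ∫ t in E, G t := by
    calc ∫ t in F, z t ^ (2 * k : ℝ) ≤ ∫ t in F, G t :=
          setIntegral_mono_on (intOn k hk.le (hFE.trans hET)) (hGi.mono_set hFE) hFm hpt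
      _ ≤ ∫ t in E, G t :=
          setIntegral_mono_set hGi (ae_of_all _ hG0) (HasSubset.Subset.eventuallyLE hFE)
  have h2 : ∫ t in E, G t = Real.exp (2 * η * (k * LL - R * s)) * (∫ t in E, z t ^ (2 * (k - η) : ℝ)) +
      Real.exp (-(2 * η * (k * LL + R * s))) * ∫ t in E, z t ^ (2 * (k + η) : ℝ) := by
    simp only [hG]
    rw [integral_add ((intOn (k - η) (by linarith) hET).const_mul _)
      ((intOn (k + η) (by linarith) hET).const_mul _), integral_const_mul, integral_const_mul]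
  have h3 := hmain T hTT₀ v hv E hE hET hHyp (k - η) (by linarith) (by linarith)
  have h4 := hmain T hTT₀ v hv E hE hET hHyp (k + η) (by linarith) (by linarith)
  refine h1.trans ?_
  rw [h2]
  have e0 : ∀ x : ℝ, Real.log T ^ (x : ℝ) = Real.exp (LL * x) := fun x => by
    rw [Real.rpow_def_of_pos hlog]
  rw [e0] at h3 h4 ⊢
  have h5 := mul_le_mul_of_nonneg_left h3 (Real.exp_pos (2 * η * (k * LL - R * s))).le
  have h6 := mul_le_mul_of_nonneg_left h4 (Real.exp_pos (-(2 * η * (k * LL + R * s)))).le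
  refine (add_le_add h5 h6).trans (le_of_eq ?_)
  have hRR : R ^ 2 = η ^ 2 * LL := by
    rw [hRη, mul_pow, hss]
  have hRs : R * s = η * LL := by
    rw [hRη, mul_assoc, ← sq, hss]
  have e1 : Real.exp (2 * η * (k * LL - R * s)) * (C * (T * Real.exp (LL * (k - η) ^ 2))) =
      C * T * Real.exp (-R ^ 2 + LL * k ^ 2) := by
    have : -R ^ 2 + LL * k ^ 2 = 2 * η * (k * LL - R * s) + LL * (k - η) ^ 2 := by
      rw [hRR, hRs]; ring
    rw [this, Real.exp_add]
    ring
  have e2 : Real.exp (-(2 * η * (k * LL + R * s))) * (C * (T * Real.exp (LL * (k + η) ^ 2))) =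
      C * T * Real.exp (-R ^ 2 + LL * k ^ 2) := by
    have : -R ^ 2 + LL * k ^ 2 = -(2 * η * (k * LL + R * s)) + LL * (k + η) ^ 2 := by
      rw [hRR, hRs]; ring
    rw [this, Real.exp_add]
    ring
  rw [e1, e2, Real.exp_add]
  ring

end Pool.Agent.Work.MP_56b8f5_nt.HZB
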