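import Pool.Agent.Work.MP_56b8f5_nt.HZ.StmtsB

/-!
MP_56b8f5_nt, block HZ, part B, item B16 (LevB).
-/

set_option autoImplicit false

open MeasureTheory Set Filter Topology

noncomputable section

namespace Pool.Agent.Work.MP_56b8f5_nt.HZB

open Pool.Agent.Work.MP_56b8f5_nt.SH

namespace AuxLevB

theorem two_pow_le (r : ℕ) : (r : ℝ) + 1 ≤ 2 ^ r := by
  have h : r + 1 ≤ 2 ^ r := Nat.lt_two_pow_self
  exact_mod_cast h

theorem two_le : (2 : ℝ) ≤ (20 : ℝ) ^ (3 / 4 : ℝ) := by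
  have h1 : ((2 : ℝ) ^ (4 : ℝ)) ^ (3 / 4 : ℝ) = 8 := by
    rw [← Real.rpow_mul (by norm_num)]
    norm_num
  have h2 : ((2 : ℝ) ^ (4 : ℝ)) = 16 := by norm_num
  rw [h2] at h1
  calc (2 : ℝ) ≤ (16 : ℝ) ^ (3 / 4 : ℝ) := by rw [h1]; norm_num
    _ ≤ (20 : ℝ) ^ (3 / 4 : ℝ) := Real.rpow_le_rpow (by norm_num) (by norm_num) (by norm_num)

theorem pow_le (r : ℕ) (x : ℝ) (hx : 0 < x) (hxr : x ≤ (1 / 20) ^ r) :
    (r : ℝ) + 1 ≤ x ^ (-(3 / 4) : ℝ) := by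
  have h1 : ((1 / 20 : ℝ) ^ r) ^ (-(3 / 4) : ℝ) ≤ x ^ (-(3 / 4) : ℝ) :=
    Real.rpow_le_rpow_of_nonpos hx hxr (by norm_num)
  have h2 : ((1 / 20 : ℝ) ^ r) ^ (-(3 / 4) : ℝ) = ((20 : ℝ) ^ (3 / 4 : ℝ)) ^ r := by
    rw [← Real.rpow_natCast, ← Real.rpow_mul (by norm_num), ← Real.rpow_natCast,
      ← Real.rpow_mul (by norm_num), one_div, Real.inv_rpow (by norm_num),
      ← Real.rpow_neg (by norm_num)]
    congr 1
    ring
  rw [h2] at h1
  calc (r : ℝ) + 1 ≤ 2 ^ r := two_pow_le r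
    _ ≤ ((20 : ℝ) ^ (3 / 4 : ℝ)) ^ r := pow_le_pow_left₀ (by norm_num) two_le r
    _ ≤ _ := h1

end AuxLevB

theorem pf_LevB : S_LevB := by
  intro T b M h hb1
  have hL : 0 < Real.log T := lt_of_lt_of_le (Real.exp_pos 1) h.big.2
  have hLL : 1 ≤ Real.log (Real.log T) := by
    rw [Real.le_log_iff_exp_le hL]
    exact h.big.2
  have hy : ∀ i, 0 < yv T i := fun i => by
    unfold yv
    have : 0 < Real.log (Real.log T) := by linarith
    positivity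
  have hbe : ∀ i, 0 < be T i := fun i => div_pos (hy i) hL
  have hyb : ∀ i, yv T i = be T i * Real.log T := fun i => by
    unfold be
    rw [div_mul_cancel₀ _ hL.ne']
  refine ⟨hL, fun i => ⟨hbe i, hy i, hyb i, ?_, Real.rpow_pos_of_pos (hbe i) _⟩, ?_⟩
  · unfold be yv
    rw [pow_succ]
    ring
  intro i hi
  have e : be T (M - 1) = be T i * 20 ^ (M - 1 - i) := by
    have e1 : M - 1 = i + (M - 1 - i) := by omega
    unfold be yv
    conv_lhs => rw [e1, pow_add]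
    ring
  have h1 : be T i ≤ b * (1 / 20) ^ (M - 1 - i) := by
    have h2 : be T i = be T (M - 1) * (1 / 20) ^ (M - 1 - i) := by
      rw [e, mul_assoc, ← mul_pow]
      norm_num
    rw [h2]
    exact mul_le_mul_of_nonneg_right h.up (by positivity)
  have hb0 : 0 ≤ b := (hbe _).le.trans h.up
  have h20 : ((1 : ℝ) / 20) ^ (M - 1 - i) ≤ 1 := pow_le_one₀ (by norm_num) (by norm_num)
  have h2 : be T i ≤ b := h1.trans (mul_le_of_le_one_right hb0 h20)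
  have h3 : be T i ≤ (1 / 20) ^ (M - 1 - i) :=
    h1.trans (mul_le_of_le_one_left (by positivity) hb1)
  have h4 := AuxLevB.pow_le (M - 1 - i) (be T i) (hbe i) h3
  have h5 : (M : ℝ) - i = ((M - 1 - i : ℕ) : ℝ) + 1 := by
    have e1 : M = i + (M - 1 - i) + 1 := by omega
    have e2 : (M : ℝ) = (i : ℝ) + ((M - 1 - i : ℕ) : ℝ) + 1 := by exact_mod_cast e1
    linarith
  refine ⟨h1, h2, ?_, ?_, ?_⟩
  · have : (0 : ℝ) ≤ ((M - 1 - i : ℕ) : ℝ) := Nat.cast_nonneg _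
    unfold Vv
    linarith
  · rw [hyb]
    exact mul_le_of_le_one_left hL.le (h2.trans hb1)
  · rw [h5]
    exact h4

end Pool.Agent.Work.MP_56b8f5_nt.HZB
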