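import Pool.Agent.Work.MP_56b8f5_nt.HZ.StmtsB

/-!
MP_56b8f5_nt, block HZ, part B, item LnL: closure properties of `Ln`.
-/

set_option autoImplicit false

open MeasureTheory Set Filter Topology

noncomputable section

namespace Pool.Agent.Work.MP_56b8f5_nt.HZB

open Pool.Agent.Work.MP_56b8f5_nt.SH

namespace AuxLnL

theorem mono (Y Y' : ℝ) (α : DA) (h : Ln Y α) (hY : Y ≤ Y') : Ln Y' α := fun n hn =>
  ⟨(h n hn).1, (h n hn).2.trans hY⟩

theorem zero (Y : ℝ) : Ln Y (0 : DA) := by
  intro n hn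
  simp at hn

theorem single (Y : ℝ) (n : ℕ) (c : ℂ) (hn : n ≠ 0) (h : Real.log n ≤ Y) :
    Ln Y (MonoidAlgebra.single n c : DA) := by
  intro k hk
  have h1 : k = n := by
    have := Finsupp.support_single_subset hk
    exact Finset.mem_singleton.1 this
  subst h1
  exact ⟨hn, h⟩

theorem one : Ln 0 (1 : DA) := by
  rw [MonoidAlgebra.one_def]
  exact single 0 1 1 one_ne_zero (by simp)

theorem add (Y : ℝ) (α β : DA) (h : Ln Y α) (h' : Ln Y β) : Ln Y (α + β) := by
  intro n hn
  have h1 : n ∈ α.coeff.support ∪ β.coeff.support := Finsupp.support_add hn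
  rcases Finset.mem_union.1 h1 with h2 | h2
  · exact h n h2
  · exact h' n h2

theorem smul (Y : ℝ) (c : ℂ) (α : DA) (h : Ln Y α) : Ln Y (c • α) := by
  intro n hn
  exact h n (Finsupp.support_smul hn)

theorem sum {ι : Type} (Y : ℝ) (s : Finset ι) (f : ι → DA) (h : ∀ i ∈ s, Ln Y (f i)) :
    Ln Y (∑ i ∈ s, f i) := by
  classical
  induction s using Finset.induction_on with
  | empty => simpa using zero Y
  | insert a s ha ih =>
    rw [Finset.sum_insert ha]
    exact add Y _ _ (h a (Finset.mem_insert_self a s)) (ih fun i hi => h i (Finset.mem_insert_of_mem hi))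

theorem mul (Y Y' : ℝ) (α β : DA) (h : Ln Y α) (h' : Ln Y' β) : Ln (Y + Y') (α * β) := by
  intro n hn
  have h1 := MonoidAlgebra.support_coeff_mul_subset α β hn
  obtain ⟨a, ha, b, hb, rfl⟩ := Finset.mem_mul.1 h1
  obtain ⟨ha0, ha1⟩ := h a ha
  obtain ⟨hb0, hb1⟩ := h' b hb
  refine ⟨mul_ne_zero ha0 hb0, ?_⟩
  rw [Nat.cast_mul, Real.log_mul (by exact_mod_cast ha0) (by exact_mod_cast hb0)]
  exact add_le_add ha1 hb1

theorem pow (Y : ℝ) (α : DA) (n : ℕ) (h : Ln Y α) : Ln (n * Y) (α ^ n) := by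
  induction n with
  | zero => simpa using one
  | succ n ih =>
    rw [pow_succ, Nat.cast_succ, add_mul, one_mul]
    exact mul _ _ _ _ ih h

end AuxLnL

open AuxLnL in
theorem pf_LnL : S_LnL := by
  refine ⟨mono, one, add, mul, fun Y α n h => pow Y α n h, fun Y k α l hY h => ?_,
    fun Y a b S hS => ?_⟩
  · refine sum _ _ _ fun m hm => smul _ _ _ ?_
    refine mono _ _ _ (pow Y α m h) ?_
    have hm' : m ≤ l := Nat.lt_succ_iff.1 (Finset.mem_range.1 hm)
    exact mul_le_mul_of_nonneg_right (by exact_mod_cast hm') hY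
  · refine sum _ _ _ fun p hp => ?_
    obtain ⟨h1, h2⟩ := hS p hp
    have h0 : p ≠ 0 := h1.ne_zero
    have hl : 0 ≤ Real.log p := Real.log_natCast_nonneg p
    refine add _ _ _ (single _ _ _ h0 (by linarith)) (single _ _ _ (pow_ne_zero 2 h0) ?_)
    rw [Nat.cast_pow, Real.log_pow]
    push_cast
    linarith

end Pool.Agent.Work.MP_56b8f5_nt.HZB
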