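import Pool.Agent.Work.MP_56b8f5_nt.HZ.StmtsB

/-!
MP_56b8f5_nt, block HZ, part B, item Mer (helper83): Mertens for the levels.
-/

set_option autoImplicit false

open MeasureTheory Set Filter Topology

noncomputable section

namespace Pool.Agent.Work.MP_56b8f5_nt.HZB

open Pool.Agent.Work.MP_56b8f5_nt.SH

namespace AuxMer

theorem loglog {T : ℝ} (h : Big T) : 1 ≤ Real.log (Real.log T) := by
  rw [← Real.log_exp 1]
  exact Real.log_le_log (Real.exp_pos 1) h.2

theorem yv_one {T : ℝ} (h : Big T) (i : ℕ) : 1 ≤ yv T i := by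
  unfold yv
  have h1 := loglog h
  have h2 : (1 : ℝ) ≤ 20 ^ i := one_le_pow₀ (by norm_num)
  nlinarith

theorem mem_pr {T : ℝ} (h : Big T) (j p : ℕ) :
    p ∈ WM.pr ⌊Real.exp (yv T j)⌋₊ ↔ p.Prime ∧ Real.log p ≤ yv T j := by
  unfold WM.pr
  rw [Finset.mem_filter, Finset.mem_range, Nat.lt_succ_iff]
  constructor
  · rintro ⟨h1, h2⟩
    refine ⟨h2, ?_⟩
    rw [Nat.le_floor_iff (Real.exp_pos _).le] at h1
    rw [← Real.log_exp (yv T j)]
    exact Real.log_le_log (by exact_mod_cast h2.pos) h1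
  · rintro ⟨h2, h1⟩
    refine ⟨?_, h2⟩
    rw [Nat.le_floor_iff (Real.exp_pos _).le]
    rw [← Real.exp_log (show (0 : ℝ) < p by exact_mod_cast h2.pos)]
    exact Real.exp_le_exp.2 h1

theorem sum_eq (hS : S_SpS) {T : ℝ} (h : Big T) (f : ℕ → ℝ) (j : ℕ) :
    ∑ i ∈ Finset.range (j + 1), ∑ p ∈ Sp T i, f p =
      ∑ p ∈ WM.pr ⌊Real.exp (yv T j)⌋₊, f p := by
  classical
  obtain ⟨h1, h2, h3⟩ := hS T h
  have hU : WM.pr ⌊Real.exp (yv T j)⌋₊ = (Finset.range (j + 1)).biUnion (Sp T) := by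
    ext p
    rw [mem_pr h, Finset.mem_biUnion]
    constructor
    · rintro ⟨hp, hl⟩
      obtain ⟨i, hi, hpi⟩ := (h3 j p hp).1 hl
      exact ⟨i, Finset.mem_range.2 (by omega), hpi⟩
    · rintro ⟨i, hi, hpi⟩
      have hp := (h1 i p hpi).1
      exact ⟨hp, (h3 j p hp).2 ⟨i, by rw [Finset.mem_range] at hi; omega, hpi⟩⟩
  rw [hU, Finset.sum_biUnion]
  intro a _ b _ hab
  exact h2 a b hab

theorem floor_ge {y : ℝ} (hy : 1 ≤ y) : Real.exp (y / 2) ≤ (⌊Real.exp y⌋₊ : ℝ) := by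
  have h1 : Real.exp y - 1 < (⌊Real.exp y⌋₊ : ℝ) := Nat.sub_one_lt_floor _
  have h2 : Real.exp y = Real.exp (y / 2) * Real.exp (y / 2) := by
    rw [← Real.exp_add]; ring_nf
  have h3 : (1.625 : ℝ) ≤ Real.exp (y / 2) := by
    have h4 := Real.quadratic_le_exp_of_nonneg (show (0 : ℝ) ≤ y / 2 by linarith)
    nlinarith
  nlinarith

theorem floor_two {y : ℝ} (hy : 1 ≤ y) : 2 ≤ ⌊Real.exp y⌋₊ := by
  apply Nat.le_floor
  have := Real.add_one_le_exp y
  push_cast
  linarith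

theorem sq_sum (N : ℕ) (hN : 1 ≤ N) :
    ∑ n ∈ Finset.Icc 2 N, 1 / (n : ℝ) ^ 2 ≤ 1 - 1 / (N : ℝ) := by
  induction N, hN using Nat.le_induction with
  | base => simp
  | succ N hN ih =>
    rw [Finset.sum_Icc_succ_top (by omega)]
    have h0 : (0 : ℝ) < N := by exact_mod_cast hN
    push_cast
    have h1 : 1 / ((N : ℝ) + 1) ^ 2 ≤ 1 / (N : ℝ) - 1 / ((N : ℝ) + 1) := by
      rw [div_sub_div _ _ h0.ne' (by positivity), div_le_div_iff₀ (by positivity) (by positivity)]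
      nlinarith
    linarith

end AuxMer

open AuxMer in
theorem pf_Mer (hS : S_SpS) (hM : WM.S_Mert) : S_Mer := by
  obtain ⟨C, hC1, hC⟩ := hM
  have hC0 : 0 < C := by linarith
  have hlC : 0 ≤ Real.log C := Real.log_nonneg hC1
  have hl40 : 0 ≤ Real.log 40 := Real.log_nonneg (by norm_num)
  refine ⟨2 * Real.log C + Real.log 40 + 1, by linarith, ?_⟩
  intro T hT
  have hse : ∀ j : ℕ, ∑ i ∈ Finset.range (j + 1), se (Sp T i) =
      WM.S1 ⌊Real.exp (yv T j)⌋₊ := fun j => sum_eq hS hT (fun p => 1 / (p : ℝ)) j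
  have hup : ∀ j : ℕ, WM.S1 ⌊Real.exp (yv T j)⌋₊ ≤ Real.log (yv T j) + Real.log C := by
    intro j
    have hy := yv_one hT j
    have h2 := floor_two hy
    have h3 := (hC _ h2).1
    have hN : (0 : ℝ) < (⌊Real.exp (yv T j)⌋₊ : ℝ) := by
      have : 0 < ⌊Real.exp (yv T j)⌋₊ := by omega
      exact_mod_cast this
    have h4 : Real.log (⌊Real.exp (yv T j)⌋₊ : ℝ) ≤ yv T j := by
      conv_rhs => rw [← Real.log_exp (yv T j)]
      exact Real.log_le_log hN (Nat.floor_le (Real.exp_pos _).le)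
    have h5 : Real.exp (WM.S1 ⌊Real.exp (yv T j)⌋₊) ≤ C * yv T j :=
      h3.trans (mul_le_mul_of_nonneg_left h4 hC0.le)
    have h6 := Real.log_le_log (Real.exp_pos _) h5
    rw [Real.log_exp, Real.log_mul hC0.ne' (by linarith)] at h6
    linarith
  have hlo : ∀ j : ℕ, Real.log (yv T j / 2) - Real.log C ≤ WM.S1 ⌊Real.exp (yv T j)⌋₊ := by
    intro j
    have hy := yv_one hT j
    have h2 := floor_two hy
    have h3 := (hC _ h2).2
    have h4 : yv T j / 2 ≤ Real.log (⌊Real.exp (yv T j)⌋₊ : ℝ) := by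
      conv_lhs => rw [← Real.log_exp (yv T j / 2)]
      exact Real.log_le_log (Real.exp_pos _) (floor_ge hy)
    have h5 := Real.log_le_log (by linarith) (h4.trans h3)
    rw [Real.log_mul hC0.ne' (Real.exp_pos _).ne', Real.log_exp] at h5
    linarith
  refine ⟨fun j => ?_, fun i hi => ?_, fun j => ?_⟩
  · rw [hse j]
    have := hup j
    linarith
  · obtain ⟨i, rfl⟩ : ∃ k, i = k + 1 := ⟨i - 1, by omega⟩
    have h1 := hse (i + 1)
    rw [Finset.sum_range_succ, hse i] at h1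
    have h2 := hup (i + 1)
    have h3 := hlo i
    have hy := yv_one hT i
    have h4 : yv T (i + 1) = 20 * yv T i := by
      unfold yv
      rw [pow_succ]
      ring
    have h5 : Real.log (yv T (i + 1)) = Real.log 40 + Real.log (yv T i / 2) := by
      rw [← Real.log_mul (by norm_num) (by linarith), h4]
      congr 1
      ring
    linarith
  · have h1 : ∑ i ∈ Finset.range (j + 1), s2 (Sp T i) =
        ∑ p ∈ WM.pr ⌊Real.exp (yv T j)⌋₊, 1 / (p : ℝ) ^ 2 :=
      sum_eq hS hT (fun p => 1 / (p : ℝ) ^ 2) j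
    rw [h1]
    have h2 := floor_two (yv_one hT j)
    set N := ⌊Real.exp (yv T j)⌋₊
    calc ∑ p ∈ WM.pr N, 1 / (p : ℝ) ^ 2 ≤ ∑ n ∈ Finset.Icc 2 N, 1 / (n : ℝ) ^ 2 := by
          apply Finset.sum_le_sum_of_subset_of_nonneg
          · intro p hp
            unfold WM.pr at hp
            rw [Finset.mem_filter, Finset.mem_range] at hp
            rw [Finset.mem_Icc]
            exact ⟨hp.2.two_le, by omega⟩
          · intro n _ _
            positivity
      _ ≤ 1 - 1 / (N : ℝ) := sq_sum N (by omega)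
      _ ≤ 1 := by
          have : (0 : ℝ) ≤ 1 / (N : ℝ) := by positivity
          linarith

end Pool.Agent.Work.MP_56b8f5_nt.HZB
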