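import Pool.Agent.Work.MP_56b8f5_nt.HZ.StmtsB

/-!
Block HZ, part B, item MjL: majorants.
-/

set_option autoImplicit false

open MeasureTheory Set Filter Topology

noncomputable section

namespace Pool.Agent.Work.MP_56b8f5_nt.HZB

open Pool.Agent.Work.MP_56b8f5_nt.SH

namespace AuxMjL

open Finset

/-- `z` and `w` are real with `0 ≤ z ≤ w`. -/
def Lc (z w : ℂ) : Prop := ∃ x y : ℝ, 0 ≤ x ∧ x ≤ y ∧ z = (x : ℂ) ∧ w = (y : ℂ)

lemma Lc.zero : Lc 0 0 := ⟨0, 0, le_rfl, le_rfl, by simp, by simp⟩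

lemma Lc.add {z w z' w' : ℂ} (h : Lc z w) (h' : Lc z' w') : Lc (z + z') (w + w') := by
  obtain ⟨x, y, h1, h2, rfl, rfl⟩ := h
  obtain ⟨x', y', h1', h2', rfl, rfl⟩ := h'
  exact ⟨x + x', y + y', add_nonneg h1 h1', add_le_add h2 h2', by push_cast; rfl,
    by push_cast; rfl⟩

lemma Lc.mul {z w z' w' : ℂ} (h : Lc z w) (h' : Lc z' w') : Lc (z * z') (w * w') := by
  obtain ⟨x, y, h1, h2, rfl, rfl⟩ := h
  obtain ⟨x', y', h1', h2', rfl, rfl⟩ := h'
  exact ⟨x * x', y * y', mul_nonneg h1 h1', mul_le_mul h2 h2' h1' (h1.trans h2),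
    by push_cast; rfl, by push_cast; rfl⟩

lemma Lc.sum {ι : Type*} {s : Finset ι} {f g : ι → ℂ} (h : ∀ i ∈ s, Lc (f i) (g i)) :
    Lc (∑ i ∈ s, f i) (∑ i ∈ s, g i) := by
  classical
  induction s using Finset.induction_on with
  | empty => simpa using Lc.zero
  | @insert a s ha ih =>
    rw [sum_insert ha, sum_insert ha]
    exact (h a (mem_insert_self a s)).add (ih fun i hi => h i (mem_insert_of_mem hi))

lemma Lc.sum_subset {ι : Type*} {s t : Finset ι} (hst : s ⊆ t) {f : ι → ℂ}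
    (h : ∀ i ∈ t, Lc (f i) (f i)) : Lc (∑ i ∈ s, f i) (∑ i ∈ t, f i) := by
  classical
  rw [← sum_sdiff hst, add_comm]
  obtain ⟨x, -, hx, -, hx1, -⟩ := Lc.sum (s := s) (f := f) (g := f) fun i hi => h i (hst hi)
  obtain ⟨y, -, hy, -, hy1, -⟩ := Lc.sum (s := t \ s) (f := f) (g := f)
    fun i hi => h i (mem_sdiff.1 hi).1
  rw [hx1, hy1]
  exact ⟨x, x + y, hx, by linarith, rfl, by push_cast; rfl⟩

lemma mj_iff {α β : DA} : Mj α β ↔ ∀ n, Lc (α.coeff n) (β.coeff n) := Iff.rfl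

lemma coeff_mul' (α γ : DA) {A C : Finset ℕ} (hA : α.coeff.support ⊆ A)
    (hC : γ.coeff.support ⊆ C) (n : ℕ) :
    (α * γ).coeff n = ∑ a ∈ A, ∑ c ∈ C, if a * c = n then α.coeff a * γ.coeff c else 0 := by
  rw [MonoidAlgebra.coeff_mul, Finsupp.sum_of_support_subset _ hA _ (by simp)]
  refine sum_congr rfl fun a _ => ?_
  rw [Finsupp.sum_of_support_subset _ hC _ (by simp)]

lemma N2_eq (α : DA) {A : Finset ℕ} (hA : α.coeff.support ⊆ A) :
    N2 α = ∑ n ∈ A, ‖α.coeff n‖ ^ 2 / (n : ℝ) := by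
  unfold N2
  rw [Finsupp.sum_of_support_subset _ hA _ (by simp)]

lemma N2_mono {α β : DA} (h : Mj α β) : N2 α ≤ N2 β := by
  classical
  rw [N2_eq α (A := α.coeff.support ∪ β.coeff.support) subset_union_left,
    N2_eq β (A := α.coeff.support ∪ β.coeff.support) subset_union_right]
  refine sum_le_sum fun n _ => ?_
  obtain ⟨x, y, h1, h2, h3, h4⟩ := h n
  rw [h3, h4, Complex.norm_real, Complex.norm_real, Real.norm_of_nonneg h1,
    Real.norm_of_nonneg (h1.trans h2)]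
  exact div_le_div_of_nonneg_right (pow_le_pow_left₀ h1 h2 2) (Nat.cast_nonneg n)

lemma mj_trans {α β γ : DA} (h : Mj α β) (h' : Mj β γ) : Mj α γ := by
  intro n
  obtain ⟨x, y, h1, h2, h3, h4⟩ := h n
  obtain ⟨x', y', h1', h2', h3', h4'⟩ := h' n
  have h5 : y = x' := by
    have : (y : ℂ) = (x' : ℂ) := h4.symm.trans h3'
    exact_mod_cast this
  exact ⟨x, y', h1, by rw [h5] at h2; exact h2.trans h2', h3, h4'⟩

lemma mj_mul {α β γ δ : DA} (h : Mj α β) (h' : Mj γ δ) : Mj (α * γ) (β * δ) := by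
  classical
  rw [mj_iff]
  intro n
  rw [coeff_mul' α γ (A := α.coeff.support ∪ β.coeff.support)
      (C := γ.coeff.support ∪ δ.coeff.support) subset_union_left subset_union_left,
    coeff_mul' β δ (A := α.coeff.support ∪ β.coeff.support)
      (C := γ.coeff.support ∪ δ.coeff.support) subset_union_right subset_union_right]
  refine Lc.sum fun a _ => Lc.sum fun c _ => ?_
  split_ifs
  · exact Lc.mul (h a) (h' c)
  · exact Lc.zero

lemma mj_add {α β γ δ : DA} (h : Mj α β) (h' : Mj γ δ) : Mj (α + γ) (β + δ) := by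
  rw [mj_iff]
  intro n
  rw [MonoidAlgebra.coeff_add, MonoidAlgebra.coeff_add, Finsupp.add_apply, Finsupp.add_apply]
  exact Lc.add (h n) (h' n)

lemma mj_zero : Mj 0 0 := fun _ => Lc.zero

lemma coeff_sum' {ι : Type*} (s : Finset ι) (f : ι → DA) (n : ℕ) :
    (∑ i ∈ s, f i).coeff n = ∑ i ∈ s, (f i).coeff n := by
  rw [MonoidAlgebra.coeff_sum, Finsupp.finset_sum_apply]

lemma mj_sum {ι : Type*} {s : Finset ι} {f g : ι → DA} (h : ∀ i ∈ s, Mj (f i) (g i)) :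
    Mj (∑ i ∈ s, f i) (∑ i ∈ s, g i) := by
  rw [mj_iff]
  intro n
  rw [coeff_sum', coeff_sum']
  exact Lc.sum fun i hi => h i hi n

lemma mj_sum_subset {ι : Type*} {s t : Finset ι} (hst : s ⊆ t) {f : ι → DA}
    (h : ∀ i ∈ t, Mj (f i) (f i)) : Mj (∑ i ∈ s, f i) (∑ i ∈ t, f i) := by
  rw [mj_iff]
  intro n
  rw [coeff_sum', coeff_sum']
  exact Lc.sum_subset hst fun i hi => h i hi n

lemma mj_single (m : ℕ) {x : ℝ} (hx : 0 ≤ x) :
    Mj (MonoidAlgebra.single m (x : ℂ)) (MonoidAlgebra.single m (x : ℂ)) := by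
  classical
  rw [mj_iff]
  intro n
  rw [MonoidAlgebra.coeff_single_apply]
  split_ifs
  · exact ⟨x, x, hx, le_rfl, rfl, rfl⟩
  · exact Lc.zero

lemma mj_one : Mj 1 1 := by
  have h := mj_single 1 (x := 1) zero_le_one
  rw [Complex.ofReal_one] at h
  exact h

lemma mj_smul {c : ℝ} (hc : 0 ≤ c) {α β : DA} (h : Mj α β) :
    Mj ((c : ℂ) • α) ((c : ℂ) • β) := by
  rw [mj_iff]
  intro n
  rw [MonoidAlgebra.coeff_smul_apply, MonoidAlgebra.coeff_smul_apply, smul_eq_mul, smul_eq_mul]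
  exact Lc.mul ⟨c, c, hc, le_rfl, rfl, rfl⟩ (h n)

lemma mj_pow {α β : DA} (h : Mj α β) (n : ℕ) : Mj (α ^ n) (β ^ n) := by
  induction n with
  | zero => rw [pow_zero, pow_zero]; exact mj_one
  | succ n ih => rw [pow_succ, pow_succ]; exact mj_mul ih h

lemma cf_nonneg {k : ℝ} (hk : 0 ≤ k) (m : ℕ) : 0 ≤ k ^ m / (m.factorial : ℝ) := by positivity

lemma mj_tx (l : ℕ) {k : ℝ} (hk : 0 ≤ k) {α : DA} (h : Mj α α) : Mj (tx l k α) (tx l k α) := by
  unfold tx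
  exact mj_sum fun m _ => mj_smul (cf_nonneg hk m) (mj_pow h m)

/-- the terms of the product -/
def F (k : ℝ) (α β : DA) (i j : ℕ) : DA :=
  (((k ^ i / (i.factorial : ℝ) : ℝ) : ℂ) • α ^ i) * (((k ^ j / (j.factorial : ℝ) : ℝ) : ℂ) • β ^ j)

lemma coef_eq (k : ℝ) {m i : ℕ} (hi : i ≤ m) :
    k ^ m / (m.factorial : ℝ) * (m.choose i : ℝ) =
      k ^ i / (i.factorial : ℝ) * (k ^ (m - i) / ((m - i).factorial : ℝ)) := by
  have h1 : (m.choose i : ℝ) * (i.factorial : ℝ) * ((m - i).factorial : ℝ) = (m.factorial : ℝ) := by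
    exact_mod_cast Nat.choose_mul_factorial_mul_factorial hi
  have h2 : k ^ m = k ^ i * k ^ (m - i) := by rw [← pow_add, Nat.add_sub_cancel' hi]
  have h3 : (m.factorial : ℝ) ≠ 0 := by positivity
  have h4 : (i.factorial : ℝ) ≠ 0 := by positivity
  have h5 : ((m - i).factorial : ℝ) ≠ 0 := by positivity
  rw [h2]
  field_simp
  rw [← h1]
  ring

lemma tx_add (l : ℕ) (k : ℝ) (α β : DA) :
    tx l k (α + β) = ∑ m ∈ range (l + 1), ∑ i ∈ range (m + 1), F k α β i (m - i) := by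
  unfold tx
  refine sum_congr rfl fun m _ => ?_
  rw [add_pow, smul_sum]
  refine sum_congr rfl fun i hi => ?_
  have hi' : i ≤ m := Nat.lt_succ_iff.1 (mem_range.1 hi)
  unfold F
  rw [smul_mul_smul_comm, ← Complex.ofReal_mul, ← coef_eq k hi', mul_comm (α ^ i * β ^ (m - i)),
    ← nsmul_eq_mul, ← Nat.cast_smul_eq_nsmul ℂ, smul_smul]
  push_cast
  rfl

lemma tx_mul (l : ℕ) (k : ℝ) (α β : DA) :
    tx l k α * tx l k β = ∑ i ∈ range (l + 1), ∑ j ∈ range (l + 1), F k α β i j := by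
  unfold tx F
  rw [sum_mul_sum]

lemma mj_F {k : ℝ} (hk : 0 ≤ k) {α β : DA} (hα : Mj α α) (hβ : Mj β β) (i j : ℕ) :
    Mj (F k α β i j) (F k α β i j) :=
  mj_mul (mj_smul (cf_nonneg hk i) (mj_pow hα i)) (mj_smul (cf_nonneg hk j) (mj_pow hβ j))

lemma mj_tx_add (l : ℕ) {k : ℝ} (hk : 0 ≤ k) {α β : DA} (hα : Mj α α) (hβ : Mj β β) :
    Mj (tx l k (α + β)) (tx l k α * tx l k β) := by
  rw [tx_add, tx_mul, sum_range_diag_flip (l + 1) (F k α β)]
  refine mj_sum fun i _ => mj_sum_subset ?_ fun j _ => mj_F hk hα hβ i j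
  intro j hj
  rw [Finset.mem_range] at hj ⊢
  omega

lemma mj_pw (a b : ℕ → ℝ) (S : Finset ℕ) (h : ∀ p, 0 ≤ a p ∧ 0 ≤ b p) :
    Mj (pw a b S) (pw a b S) := by
  unfold pw
  exact mj_sum fun p _ => mj_add (mj_single p (h p).1) (mj_single (p ^ 2) (h p).2)

end AuxMjL

/-- Item MjL. -/
theorem pf_MjL : S_MjL :=
  ⟨fun _ _ h => AuxMjL.N2_mono h, fun _ _ _ h h' => AuxMjL.mj_trans h h',
    fun _ _ _ _ h h' => AuxMjL.mj_mul h h', fun a b S h => AuxMjL.mj_pw a b S h,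
    fun l _ _ hk h => AuxMjL.mj_tx l hk h, fun l _ _ _ hk hα hβ => AuxMjL.mj_tx_add l hk hα hβ⟩

end Pool.Agent.Work.MP_56b8f5_nt.HZB
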