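import Pool.Agent.Work.MP_56b8f5_nt.HZ.StmtsB

/-!
Item N2A of block HZ-B: high moments of linear Dirichlet polynomials.
-/

set_option autoImplicit false

open MeasureTheory Set Filter Topology

noncomputable section

namespace Pool.Agent.Work.MP_56b8f5_nt.HZB

open Pool.Agent.Work.MP_56b8f5_nt.SH

namespace AuxN2A

theorem N2_add {α β : DA} (h : Disjoint α.coeff.support β.coeff.support) :
    N2 (α + β) = N2 α + N2 β := by
  unfold N2
  rw [MonoidAlgebra.coeff_add]
  exact Finsupp.sum_add_index_of_disjoint h _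

theorem N2_zero : N2 (0 : DA) = 0 := by simp [N2]

theorem N2_sum {ι : Type*} [DecidableEq ι] (I : Finset ι) (α : ι → DA)
    (h : ∀ i ∈ I, ∀ j ∈ I, i ≠ j → Disjoint (α i).coeff.support (α j).coeff.support) :
    N2 (∑ i ∈ I, α i) = ∑ i ∈ I, N2 (α i) := by
  induction I using Finset.induction_on with
  | empty => simp [N2_zero]
  | insert a s ha ih =>
    rw [Finset.sum_insert ha, Finset.sum_insert ha, N2_add, ih]
    · intro i hi j hj
      exact h i (Finset.mem_insert_of_mem hi) j (Finset.mem_insert_of_mem hj)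
    · rw [Finset.disjoint_left]
      intro m hm hm2
      rw [MonoidAlgebra.coeff_sum] at hm2
      have := Finsupp.support_finsetSum hm2
      rw [Finset.mem_biUnion] at this
      obtain ⟨i, hi, him⟩ := this
      exact (Finset.disjoint_left.1 (h a (Finset.mem_insert_self a s) i
        (Finset.mem_insert_of_mem hi) (fun e => ha (e ▸ hi)))) hm him

theorem N2_single (g : ℕ) (x : ℂ) : N2 (MonoidAlgebra.single g x) = ‖x‖ ^ 2 / (g : ℝ) := by
  unfold N2
  rw [MonoidAlgebra.coeff_single, Finsupp.sum_single_index]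
  simp

theorem N2_single_mul (g : ℕ) (hg : g ≠ 0) (x : ℂ) (β : DA) :
    N2 (MonoidAlgebra.single g x * β) = ‖x‖ ^ 2 / (g : ℝ) * N2 β := by
  classical
  have hβ : β = ∑ n ∈ β.coeff.support, MonoidAlgebra.single n (β.coeff n) := by
    conv_lhs => rw [← MonoidAlgebra.sum_coeff_single β]
    rfl
  have e1 : MonoidAlgebra.single g x * β =
      ∑ n ∈ β.coeff.support, MonoidAlgebra.single (g * n) (x * β.coeff n) := by
    conv_lhs => rw [hβ]
    rw [Finset.mul_sum]
    exact Finset.sum_congr rfl fun n _ => MonoidAlgebra.single_mul_single _ _ _ _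
  rw [e1, N2_sum]
  · unfold N2
    rw [Finsupp.sum, Finset.mul_sum]
    refine Finset.sum_congr rfl fun n _ => ?_
    have := N2_single (g * n) (x * β.coeff n)
    unfold N2 at this
    rw [this, norm_mul]
    push_cast
    rw [mul_pow, mul_div_mul_comm]
  · intro i _ j _ hij
    rw [Finset.disjoint_left]
    intro m hm hm2
    rw [MonoidAlgebra.coeff_single] at hm hm2
    have h1 := Finsupp.support_single_subset hm
    have h2 := Finsupp.support_single_subset hm2
    rw [Finset.mem_singleton] at h1 h2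
    exact hij (Nat.eq_of_mul_eq_mul_left (Nat.pos_of_ne_zero hg) (h1.symm.trans h2))

theorem N2_nonneg (α : DA) : 0 ≤ N2 α := by
  unfold N2
  exact Finset.sum_nonneg fun n _ => by positivity

/-- The polynomial `∑ c_q [q^e]`. -/
def AA (c : ℕ → ℝ) (e : ℕ) (S : Finset ℕ) : DA :=
  ∑ q ∈ S, MonoidAlgebra.single (q ^ e) (c q : ℂ)

/-- No element of the support is divisible by `q`. -/
def ND (q : ℕ) (α : DA) : Prop := ∀ m ∈ α.coeff.support, ¬ q ∣ m

theorem ND_mul {q : ℕ} (hq : q.Prime) {α β : DA} (ha : ND q α) (hb : ND q β) : ND q (α * β) := by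
  classical
  intro m hm
  have := MonoidAlgebra.support_coeff_mul_subset α β hm
  rw [Finset.mem_mul] at this
  obtain ⟨a, ha', b, hb', rfl⟩ := this
  rw [hq.dvd_mul]
  exact not_or.2 ⟨ha a ha', hb b hb'⟩

theorem ND_pow {q : ℕ} (hq : q.Prime) {α : DA} (ha : ND q α) (n : ℕ) : ND q (α ^ n) := by
  induction n with
  | zero =>
    intro m hm
    rw [pow_zero, MonoidAlgebra.one_def, MonoidAlgebra.coeff_single] at hm
    have h1 := Finsupp.support_single_subset hm
    rw [Finset.mem_singleton] at h1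
    rw [h1]
    exact fun h => hq.one_lt.ne' (Nat.dvd_one.1 h)
  | succ k ih => rw [pow_succ]; exact ND_mul hq ih ha

theorem ND_AA {q : ℕ} (hq : q.Prime) (c : ℕ → ℝ) (e : ℕ) (S : Finset ℕ)
    (hS : ∀ p ∈ S, p.Prime) (hqS : q ∉ S) : ND q (AA c e S) := by
  intro m hm hqm
  unfold AA at hm
  rw [MonoidAlgebra.coeff_sum] at hm
  have := Finsupp.support_finsetSum hm
  rw [Finset.mem_biUnion] at this
  obtain ⟨p, hp, hpm⟩ := this
  rw [MonoidAlgebra.coeff_single] at hpm
  have h1 := Finsupp.support_single_subset hpm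
  rw [Finset.mem_singleton] at h1
  rw [h1] at hqm
  have h2 := hq.dvd_of_dvd_pow hqm
  rw [Nat.prime_dvd_prime_iff_eq hq (hS p hp)] at h2
  exact hqS (h2 ▸ hp)

theorem term_eq (q e n m : ℕ) (c : ℝ) (β : DA) :
    (MonoidAlgebra.single (q ^ e) (c : ℂ) : DA) ^ m * β * ((n.choose m : ℕ) : DA) =
      MonoidAlgebra.single (q ^ (e * m)) ((c ^ m * (n.choose m : ℝ) : ℝ) : ℂ) * β := by
  have h : ((n.choose m : ℕ) : DA) = MonoidAlgebra.single 1 ((n.choose m : ℕ) : ℂ) := rfl
  rw [MonoidAlgebra.single_pow, mul_right_comm, h, MonoidAlgebra.single_mul_single, mul_one,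
    ← pow_mul]
  push_cast
  rfl

theorem disj {q : ℕ} (hq : q.Prime) {e : ℕ} (he : 1 ≤ e) {i j : ℕ} (hij : i < j) {x y : ℂ}
    {α β : DA} (ha : ND q α) :
    Disjoint (MonoidAlgebra.single (q ^ (e * i)) x * α).coeff.support
      (MonoidAlgebra.single (q ^ (e * j)) y * β).coeff.support := by
  classical
  rw [Finset.disjoint_left]
  intro m hm hm2
  have h1 := MonoidAlgebra.support_coeff_mul_subset _ _ hm
  have h2 := MonoidAlgebra.support_coeff_mul_subset _ _ hm2
  rw [Finset.mem_mul] at h1 h2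
  obtain ⟨a, ha1, b, hb1, hab⟩ := h1
  obtain ⟨a', ha2, b', hb2, hab'⟩ := h2
  rw [MonoidAlgebra.coeff_single] at ha1 ha2
  have e1 := Finsupp.support_single_subset ha1
  have e2 := Finsupp.support_single_subset ha2
  rw [Finset.mem_singleton] at e1 e2
  subst e1 e2
  apply ha b hb1
  obtain ⟨k, rfl⟩ : ∃ k, j = i + (k + 1) := ⟨j - i - 1, by omega⟩
  have h3 : q ^ (e * i) * b = q ^ (e * i) * (q ^ (e * (k + 1)) * b') := by
    rw [hab, ← hab', ← mul_assoc, ← pow_add, mul_add]
  have h4 := Nat.eq_of_mul_eq_mul_left (pow_pos hq.pos _) h3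
  rw [h4]
  exact Dvd.dvd.mul_right (dvd_pow_self q (by positivity)) _

theorem main (c : ℕ → ℝ) {e : ℕ} (he : 1 ≤ e) (S : Finset ℕ) (hS : ∀ p ∈ S, p.Prime) (n : ℕ) :
    N2 (AA c e S ^ n) ≤ n.factorial * (∑ q ∈ S, c q ^ 2 / (q : ℝ) ^ e) ^ n := by
  induction S using Finset.induction_on generalizing n with
  | empty =>
    have h0 : AA c e ∅ = 0 := by simp [AA]
    rw [h0, Finset.sum_empty]
    rcases Nat.eq_zero_or_pos n with rfl | hn
    · have := N2_single 1 1
      rw [← MonoidAlgebra.one_def] at this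
      simp only [pow_zero, this]
      simp
    · rw [zero_pow hn.ne', zero_pow hn.ne', N2_zero, mul_zero]
  | insert q S hqS ih =>
    have hq : q.Prime := hS q (Finset.mem_insert_self _ _)
    have hS' : ∀ p ∈ S, p.Prime := fun p hp => hS p (Finset.mem_insert_of_mem hp)
    have ih' := ih hS'
    have e0 : AA c e (insert q S) = MonoidAlgebra.single (q ^ e) (c q : ℂ) + AA c e S := by
      unfold AA; rw [Finset.sum_insert hqS]
    have hT : 0 ≤ ∑ q ∈ S, c q ^ 2 / (q : ℝ) ^ e := Finset.sum_nonneg fun _ _ => by positivity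
    set Tt : ℝ := ∑ q ∈ S, c q ^ 2 / (q : ℝ) ^ e with hTt
    rw [e0, add_pow, Finset.sum_insert hqS, ← hTt]
    simp only [term_eq]
    rw [N2_sum, add_pow, Finset.mul_sum]
    · refine Finset.sum_le_sum fun m hm => ?_
      rw [N2_single_mul _ (pow_ne_zero _ hq.ne_zero)]
      have h1 := ih' (n - m)
      have hm' : m ≤ n := Nat.lt_succ_iff.1 (Finset.mem_range.1 hm)
      have h2 : ((n.choose m : ℕ) : ℝ) * ((n - m).factorial : ℝ) ≤ (n.factorial : ℝ) := by
        have h3 := Nat.choose_mul_factorial_mul_factorial hm'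
        have h4 : n.choose m * (n - m).factorial ≤ n.factorial := by
          rw [← h3]
          have := Nat.factorial_pos m
          nlinarith [Nat.zero_le (n.choose m * (n - m).factorial)]
        exact_mod_cast h4
      have h5 : ‖((c q ^ m * (n.choose m : ℝ) : ℝ) : ℂ)‖ ^ 2 / ((q ^ (e * m) : ℕ) : ℝ) =
          (n.choose m : ℝ) ^ 2 * (c q ^ 2 / (q : ℝ) ^ e) ^ m := by
        rw [Complex.norm_real, Real.norm_eq_abs, sq_abs]
        push_cast
        rw [pow_mul, div_pow]
        ring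
      rw [h5]
      have h6 : 0 ≤ (c q ^ 2 / (q : ℝ) ^ e) ^ m := by positivity
      calc (n.choose m : ℝ) ^ 2 * (c q ^ 2 / (q : ℝ) ^ e) ^ m * N2 (AA c e S ^ (n - m))
          ≤ (n.choose m : ℝ) ^ 2 * (c q ^ 2 / (q : ℝ) ^ e) ^ m *
            (((n - m).factorial : ℝ) * Tt ^ (n - m)) :=
            mul_le_mul_of_nonneg_left h1 (by positivity)
        _ = ((n.choose m : ℝ) * ((n - m).factorial : ℝ)) * ((c q ^ 2 / (q : ℝ) ^ e) ^ m *
            Tt ^ (n - m) * (n.choose m : ℝ)) := by ring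
        _ ≤ (n.factorial : ℝ) * ((c q ^ 2 / (q : ℝ) ^ e) ^ m *
            Tt ^ (n - m) * (n.choose m : ℝ)) :=
            mul_le_mul_of_nonneg_right h2 (by positivity)
    · intro i _ j _ hij
      rcases lt_or_gt_of_ne hij with h | h
      · exact disj hq he h (ND_pow hq (ND_AA hq c e S hS' hqS) _)
      · exact (disj hq he h (ND_pow hq (ND_AA hq c e S hS' hqS) _)).symm

end AuxN2A

open AuxN2A in
theorem pf_N2A : S_N2A := by
  intro S n a b hS hab
  have hse : ∀ (c : ℕ → ℝ) (e : ℕ), 1 ≤ e → (∀ p, 0 ≤ c p ∧ c p ≤ 1) →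
      N2 (AA c e S ^ n) ≤ n.factorial * se S ^ n := by
    intro c e he hc
    refine (main c he S hS n).trans ?_
    apply mul_le_mul_of_nonneg_left _ (by positivity)
    apply pow_le_pow_left₀ (Finset.sum_nonneg fun _ _ => by positivity)
    unfold se
    refine Finset.sum_le_sum fun p hp => ?_
    have hp1 : (1 : ℝ) ≤ p := by exact_mod_cast (hS p hp).one_lt.le
    have h1 : c p ^ 2 ≤ 1 := by nlinarith [(hc p).1, (hc p).2]
    have h2 : (p : ℝ) ≤ (p : ℝ) ^ e := le_self_pow₀ hp1 (by omega)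
    exact div_le_div₀ zero_le_one h1 (by linarith) h2
  constructor
  · have e1 : pw a (fun _ => 0) S = AA a 1 S := by
      unfold pw AA
      refine Finset.sum_congr rfl fun p _ => ?_
      simp
    rw [e1]
    exact hse a 1 le_rfl fun p => ⟨(hab p).1, (hab p).2.1⟩
  · have e1 : pw (fun _ => 0) b S = AA b 2 S := by
      unfold pw AA
      refine Finset.sum_congr rfl fun p _ => ?_
      simp
    rw [e1]
    exact hse b 2 (by norm_num) fun p => ⟨(hab p).2.2.1, by linarith [(hab p).2.2.2]⟩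

end Pool.Agent.Work.MP_56b8f5_nt.HZB
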