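import Pool.Agent.Work.MP_56b8f5_nt.HZ.StmtsB

/-!
MP_56b8f5_nt, block HZ, part B, item N2E: the diagonal norm of a truncated exponential.
-/

set_option autoImplicit false

open MeasureTheory Set Filter Topology

noncomputable section

namespace Pool.Agent.Work.MP_56b8f5_nt.HZB

open Pool.Agent.Work.MP_56b8f5_nt.SH

namespace AuxN2E

/-- the truncated exponential of `0` is `1` -/
theorem tx_zero (l : ℕ) (k : ℝ) : tx l k (0 : DA) = 1 := by
  unfold tx
  rw [Finset.sum_eq_single 0]
  · simp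
  · intro m _ hm
    rw [zero_pow hm, smul_zero]
  · intro h
    exact absurd (Finset.mem_range.2 (Nat.succ_pos l)) h

/-- the diagonal norm of `1` is `1` -/
theorem N2_one : N2 (1 : DA) = 1 := by
  unfold N2
  rw [MonoidAlgebra.one_def]
  rw [MonoidAlgebra.coeff_single]
  rw [Finsupp.sum_single_index]
  · simp
  · simp

theorem pw_single (a b : ℕ → ℝ) (q : ℕ) : pw a b {q} =
    MonoidAlgebra.single q (a q : ℂ) + MonoidAlgebra.single (q ^ 2) (b q : ℂ) := by
  simp [pw]

theorem pw_insert (a b : ℕ → ℝ) (q : ℕ) (S : Finset ℕ) (hq : q ∉ S) :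
    pw a b (insert q S) = pw a b {q} + pw a b S := by
  rw [pw_single]
  unfold pw
  rw [Finset.sum_insert hq]

end AuxN2E

/-- B8 (N2E). -/
theorem pf_N2E (h1 : S_N2M) (h2 : S_SupL) (h3 : S_MjL) (h4 : S_Loc) : S_N2E := by
  obtain ⟨s1, -, -, s4, -, -⟩ := h2
  obtain ⟨m1, -, -, m4, -, m6⟩ := h3
  intro S l k a b hS hk hc
  induction S using Finset.induction_on with
  | empty =>
    have e : pw a b ∅ = 0 := by simp [pw]
    rw [e, AuxN2E.tx_zero, AuxN2E.N2_one]
    simp [se, s2]
  | insert q S hq ih =>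
    have hS' : ∀ p ∈ S, p.Prime := fun p hp => hS p (Finset.mem_insert_of_mem hp)
    have hqp : q.Prime := hS q (Finset.mem_insert_self q S)
    have hq1 : ∀ p ∈ ({q} : Finset ℕ), p.Prime := by
      intro p hp
      rw [Finset.mem_singleton] at hp
      rw [hp]
      exact hqp
    have hab : ∀ p, 0 ≤ a p ∧ 0 ≤ b p := fun p => ⟨(hc p).1, (hc p).2.2.1⟩
    have ih' := ih hS'
    have hM := m1 _ _ (m6 l k (pw a b {q}) (pw a b S) hk (m4 a b {q} hab) (m4 a b S hab))
    have hdis : Disjoint ({q} : Finset ℕ) S := Finset.disjoint_singleton_left.2 hq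
    have hE := h1 {q} S (tx l k (pw a b {q})) (tx l k (pw a b S)) hdis
      (s4 _ _ l k (s1 {q} a b hq1)) (s4 _ _ l k (s1 S a b hS'))
    have hL := h4 q l k (a q) (b q) hqp hk (hc q).1 (hc q).2.1 (hc q).2.2.1 (hc q).2.2.2
    rw [← AuxN2E.pw_single] at hL
    have hnn : 0 ≤ N2 (tx l k (pw a b S)) := by
      unfold N2 Finsupp.sum
      exact Finset.sum_nonneg fun n _ => by positivity
    rw [AuxN2E.pw_insert a b q S hq]
    calc N2 (tx l k (pw a b {q} + pw a b S))
        ≤ N2 (tx l k (pw a b {q})) * N2 (tx l k (pw a b S)) := by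
          rw [← hE]
          exact hM
      _ ≤ Real.exp (k ^ 2 / q + Real.exp (3 * k) / (q : ℝ) ^ 2) *
          Real.exp (k ^ 2 * se S + Real.exp (3 * k) * s2 S) :=
          mul_le_mul hL ih' hnn (Real.exp_pos _).le
      _ = Real.exp (k ^ 2 * se (insert q S) + Real.exp (3 * k) * s2 (insert q S)) := by
          rw [← Real.exp_add]
          congr 1
          unfold se s2
          rw [Finset.sum_insert hq, Finset.sum_insert hq]
          ring

end Pool.Agent.Work.MP_56b8f5_nt.HZB
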