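import Pool.Agent.Work.MP_56b8f5_nt.HZ.StmtsB

/-!
MP_56b8f5_nt, block HZ, part B, item NmL: the lengths.
-/

set_option autoImplicit false

open MeasureTheory Set Filter Topology

noncomputable section

namespace Pool.Agent.Work.MP_56b8f5_nt.HZB

open Pool.Agent.Work.MP_56b8f5_nt.SH

namespace AuxNmL

theorem geo (M J : ℕ) (h : J ≤ M) :
    ∑ i ∈ Finset.range J, (1 / 2 : ℝ) ^ (M - 1 - i) ≤ 2 * (1 / 2) ^ (M - J) := by
  induction J with
  | zero =>
    rw [Finset.range_zero, Finset.sum_empty]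
    positivity
  | succ J ih =>
    rw [Finset.sum_range_succ]
    have h1 := ih (by omega)
    obtain ⟨n, hn⟩ : ∃ n, n = M - 1 - J := ⟨_, rfl⟩
    have h2 : M - J = n + 1 := by omega
    have h3 : M - (J + 1) = n := by omega
    rw [h2, pow_succ] at h1
    rw [h3, ← hn]
    linarith

/-- One term. -/
theorem term (k β L y c₁ : ℝ) (n : ℕ) (hk : 0 ≤ k) (hβ : 0 < β) (hL : 0 < L) (hy : y = β * L)
    (hc : 0 < c₁) (hb : β ≤ c₁ ^ 4 * (1 / 20) ^ n) (hV : 1 ≤ β ^ (-(3 / 4) : ℝ)) :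
    2 * ((⌈10 * (k + 1) * β ^ (-(3 / 4) : ℝ)⌉₊ : ℕ) : ℝ) * y ≤
      22 * (k + 1) * c₁ * L * (1 / 2) ^ n := by
  obtain ⟨V, hVd⟩ : ∃ V : ℝ, V = β ^ (-(3 / 4) : ℝ) := ⟨_, rfl⟩
  rw [← hVd] at hV ⊢
  have h1 : ((⌈10 * (k + 1) * V⌉₊ : ℕ) : ℝ) ≤ 11 * (k + 1) * V := by
    have h2 : ((⌈10 * (k + 1) * V⌉₊ : ℕ) : ℝ) < 10 * (k + 1) * V + 1 :=
      Nat.ceil_lt_add_one (by positivity)
    have h3 : 1 ≤ (k + 1) * V := by nlinarith
    linarith
  have h4 : V * β = β ^ (1 / 4 : ℝ) := by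
    rw [hVd]
    conv_lhs => rw [← Real.rpow_one β, ← Real.rpow_mul hβ.le, ← Real.rpow_add hβ]
    norm_num
  have h5 : β ^ (1 / 4 : ℝ) ≤ c₁ * (1 / 2) ^ n := by
    have h6 : β ≤ (c₁ * (1 / 2) ^ n) ^ 4 := by
      calc β ≤ c₁ ^ 4 * (1 / 20) ^ n := hb
        _ ≤ c₁ ^ 4 * (1 / 16) ^ n := by
          have : (1 / 20 : ℝ) ^ n ≤ (1 / 16) ^ n :=
            pow_le_pow_left₀ (by norm_num) (by norm_num) n
          exact mul_le_mul_of_nonneg_left this (by positivity)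
        _ = (c₁ * (1 / 2) ^ n) ^ 4 := by
          rw [mul_pow, ← pow_mul, mul_comm n 4, pow_mul]
          norm_num
    have h7 : (0 : ℝ) ≤ c₁ * (1 / 2) ^ n := by positivity
    calc β ^ (1 / 4 : ℝ) ≤ ((c₁ * (1 / 2) ^ n) ^ 4) ^ (1 / 4 : ℝ) :=
          Real.rpow_le_rpow hβ.le h6 (by norm_num)
      _ = c₁ * (1 / 2) ^ n := by
          rw [← Real.rpow_natCast, ← Real.rpow_mul h7]
          norm_num
  calc 2 * ((⌈10 * (k + 1) * V⌉₊ : ℕ) : ℝ) * y ≤ 2 * (11 * (k + 1) * V) * y := by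
        have : 0 ≤ y := by rw [hy]; positivity
        gcongr
    _ = 22 * (k + 1) * L * (V * β) := by rw [hy]; ring
    _ ≤ 22 * (k + 1) * L * (c₁ * (1 / 2) ^ n) := by
        rw [h4]
        exact mul_le_mul_of_nonneg_left h5 (by positivity)
    _ = _ := by ring

end AuxNmL

theorem pf_NmL (h : S_LevB) : S_NmL := by
  intro k hk
  obtain ⟨c₁, hc⟩ : ∃ c₁ : ℝ, c₁ = 1 / (176 * (k + 1)) := ⟨_, rfl⟩
  have hk1 : (0 : ℝ) < 176 * (k + 1) := by positivity
  have hc0 : 0 < c₁ := by rw [hc]; positivity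
  have hc1 : c₁ ≤ 1 := by
    rw [hc, div_le_one hk1]
    linarith
  have hb1 : c₁ ^ 4 ≤ 1 := pow_le_one₀ hc0.le hc1
  refine ⟨c₁ ^ 4, by positivity, hb1, ?_⟩
  intro T b M hb0 hb hLev
  obtain ⟨hL, hall, hM⟩ := h T b M hLev (hb.trans hb1)
  constructor
  · intro J hJ
    have hterm : ∀ i ∈ Finset.range J, 2 * (lv k T i : ℝ) * yv T i ≤
        22 * (k + 1) * c₁ * Real.log T * (1 / 2) ^ (M - 1 - i) := by
      intro i hi
      have hiM : i < M := lt_of_lt_of_le (Finset.mem_range.mp hi) hJ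
      obtain ⟨h1, -, h3, -, -⟩ := hall i
      obtain ⟨g1, -, g3, -, -⟩ := hM i hiM
      refine AuxNmL.term k (be T i) (Real.log T) (yv T i) c₁ (M - 1 - i) hk h1 hL h3 hc0 ?_ g3
      exact g1.trans (mul_le_mul_of_nonneg_right hb (by positivity))
    calc ∑ i ∈ Finset.range J, 2 * (lv k T i : ℝ) * yv T i
        ≤ ∑ i ∈ Finset.range J, 22 * (k + 1) * c₁ * Real.log T * (1 / 2) ^ (M - 1 - i) :=
          Finset.sum_le_sum hterm
      _ = 22 * (k + 1) * c₁ * Real.log T * ∑ i ∈ Finset.range J, (1 / 2 : ℝ) ^ (M - 1 - i) := by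
          rw [Finset.mul_sum]
      _ ≤ 22 * (k + 1) * c₁ * Real.log T * 2 := by
          refine mul_le_mul_of_nonneg_left ?_ (by positivity)
          refine (AuxNmL.geo M J hJ).trans ?_
          have : (1 / 2 : ℝ) ^ (M - J) ≤ 1 := pow_le_one₀ (by norm_num) (by norm_num)
          linarith
      _ = Real.log T / 4 := by
          rw [hc]
          field_simp
          norm_num
  · intro J hJ
    obtain ⟨h1, h2, h3, -, -⟩ := hall J
    have hn : (nv T J : ℝ) ≤ 1 / (20 * be T J) := Nat.floor_le (by positivity)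
    calc 2 * (nv T J : ℝ) * yv T J ≤ 2 * (1 / (20 * be T J)) * yv T J := by gcongr
      _ = Real.log T / 10 := by
          rw [h3]
          field_simp
          norm_num
      _ ≤ Real.log T / 4 := by linarith

end Pool.Agent.Work.MP_56b8f5_nt.HZB
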