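import Pool.Agent.Work.MP_56b8f5_nt.HZ.StmtsB

/-!
MP_56b8f5_nt, block HZ, part B, item B18 (NmP).
-/

set_option autoImplicit false

open MeasureTheory Set Filter Topology

noncomputable section

namespace Pool.Agent.Work.MP_56b8f5_nt.HZB

open Pool.Agent.Work.MP_56b8f5_nt.SH

namespace AuxNmP

lemma geom (M n : ℕ) (hn : n ≤ M) :
    ∑ i ∈ Finset.range n, (1 / 2 : ℝ) ^ (M - i) ≤ (1 / 2 : ℝ) ^ (M - n) := by
  induction n with
  | zero => simp
  | succ n ih =>
    rw [Finset.sum_range_succ]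
    have h1 := ih (by omega)
    have h2 : M - n = (M - (n + 1)) + 1 := by omega
    rw [h2, pow_succ] at h1 ⊢
    linarith

end AuxNmP

theorem pf_NmP (hB : S_LevB) : S_NmP := by
  intro k T b M hk hLev hb j hj
  obtain ⟨-, hall, hlt⟩ := hB T b M hLev hb
  have h1 : ∀ i ∈ Finset.range (j + 1), (1 + 2 * Real.exp (-(lv k T i : ℝ))) ^ 2 ≤
      Real.exp (4 * (1 / 2 : ℝ) ^ (M - i)) := by
    intro i hi
    rw [Finset.mem_range] at hi
    have hiM : i < M := by omega
    have h2 := (hlt i hiM).2.2.2.2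
    have hV := (hall i).2.2.2.2
    have h3 : Vv T i ≤ (lv k T i : ℝ) := by
      have h4 : 10 * (k + 1) * Vv T i ≤ (lv k T i : ℝ) := Nat.le_ceil _
      nlinarith [mul_nonneg hk hV.le]
    have h5 : ((M - i : ℕ) : ℝ) ≤ (lv k T i : ℝ) := by
      rw [Nat.cast_sub hiM.le]
      linarith
    have h6 : Real.exp (-(lv k T i : ℝ)) ≤ (1 / 2 : ℝ) ^ (M - i) := by
      have h7 : Real.exp (-(lv k T i : ℝ)) ≤ Real.exp (-((M - i : ℕ) : ℝ)) :=
        Real.exp_le_exp.2 (by linarith)
      refine h7.trans ?_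
      have h8 : Real.exp (-((M - i : ℕ) : ℝ)) = Real.exp (-1) ^ (M - i) := by
        rw [← Real.exp_nat_mul]
        congr 1
        ring
      rw [h8]
      refine pow_le_pow_left₀ (Real.exp_pos _).le ?_ _
      rw [Real.exp_neg, one_div]
      refine inv_anti₀ (by norm_num) ?_
      have := Real.add_one_le_exp (1 : ℝ)
      linarith
    have h9 : 1 + 2 * Real.exp (-(lv k T i : ℝ)) ≤ Real.exp (2 * (1 / 2 : ℝ) ^ (M - i)) := by
      have h10 := Real.add_one_le_exp (2 * (1 / 2 : ℝ) ^ (M - i))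
      linarith
    calc (1 + 2 * Real.exp (-(lv k T i : ℝ))) ^ 2 ≤ Real.exp (2 * (1 / 2 : ℝ) ^ (M - i)) ^ 2 :=
          pow_le_pow_left₀ (by positivity) h9 2
      _ = Real.exp (4 * (1 / 2 : ℝ) ^ (M - i)) := by
          rw [← Real.exp_nat_mul]
          congr 1
          push_cast
          ring
  refine (Finset.prod_le_prod (fun i _ => by positivity) h1).trans ?_
  rw [← Real.exp_sum, ← Finset.mul_sum]
  refine Real.exp_le_exp.2 ?_
  have h2 := AuxNmP.geom M (j + 1) (by omega)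
  have h3 : (1 / 2 : ℝ) ^ (M - (j + 1)) ≤ 1 := pow_le_one₀ (by norm_num) (by norm_num)
  linarith

end Pool.Agent.Work.MP_56b8f5_nt.HZB
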