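import Pool.Agent.Work.MP_56b8f5_nt.HZ.StmtsB

/-!
MP_56b8f5_nt, block HZ, part B, item NmS: the sum over the levels.
-/

set_option autoImplicit false

open MeasureTheory Set Filter Topology

noncomputable section

namespace Pool.Agent.Work.MP_56b8f5_nt.HZB

open Pool.Agent.Work.MP_56b8f5_nt.SH

namespace AuxNmS

theorem Vpow (β : ℝ) (hβ : 0 < β) (n : ℕ) :
    (β ^ (-(3 / 4) : ℝ)) ^ (2 * n) = ((β * Real.sqrt β) ^ n)⁻¹ := by
  have h1 : (β ^ (-(3 / 4) : ℝ)) ^ 2 = (β * Real.sqrt β)⁻¹ := by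
    rw [← Real.rpow_natCast, ← Real.rpow_mul hβ.le, Real.sqrt_eq_rpow]
    have h2 : β * β ^ (1 / 2 : ℝ) = β ^ (3 / 2 : ℝ) := by
      nth_rewrite 1 [← Real.rpow_one β]
      rw [← Real.rpow_add hβ]
      norm_num
    rw [h2, ← Real.rpow_neg hβ.le]
    norm_num
  rw [pow_mul, h1, inv_pow]

theorem term (k K C₁ β : ℝ) (hk : 0 ≤ k) (hK : 0 ≤ K) (hC : 1 ≤ C₁) (hβ : 0 < β)
    (hβ1 : β ≤ 1 / 40) (hs : C₁ * Real.sqrt β ≤ Real.exp (-(40 * (40 * k * K + 1)))) :
    Real.exp (2 * k * (K / (β / 20))) *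
      (2 * 4 ^ ⌊1 / (20 * β)⌋₊ * ((⌊1 / (20 * β)⌋₊).factorial * C₁ ^ ⌊1 / (20 * β)⌋₊) /
        (β ^ (-(3 / 4) : ℝ)) ^ (2 * ⌊1 / (20 * β)⌋₊)) ≤ 2 * β := by
  set n := ⌊1 / (20 * β)⌋₊ with hn
  have hnup : (n : ℝ) ≤ 1 / (20 * β) := Nat.floor_le (by positivity)
  have hnlo : 1 / (40 * β) ≤ n := by
    have h1 := Nat.lt_floor_add_one (1 / (20 * β))
    have h2 : 1 ≤ 1 / (40 * β) := by
      rw [le_div_iff₀ (by positivity)]
      linarith
    have h3 : 1 / (20 * β) = 1 / (40 * β) + 1 / (40 * β) := by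
      field_simp
      norm_num
    rw [← hn] at h1
    linarith
  have hnb : 4 * (n : ℝ) * β ≤ 1 := by
    have h1 : (n : ℝ) * β ≤ 1 / (20 * β) * β := mul_le_mul_of_nonneg_right hnup hβ.le
    have h2 : 1 / (20 * β) * β = 1 / 20 := by field_simp
    rw [h2] at h1
    linarith
  have hsq : 0 ≤ Real.sqrt β := Real.sqrt_nonneg β
  have hfac : ((n.factorial : ℕ) : ℝ) ≤ (n : ℝ) ^ n := by
    exact_mod_cast Nat.factorial_le_pow n
  have h1 : 4 ^ n * (((n.factorial : ℕ) : ℝ) * C₁ ^ n) * (β * Real.sqrt β) ^ n ≤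
      (C₁ * Real.sqrt β) ^ n := by
    calc 4 ^ n * (((n.factorial : ℕ) : ℝ) * C₁ ^ n) * (β * Real.sqrt β) ^ n
        ≤ 4 ^ n * ((n : ℝ) ^ n * C₁ ^ n) * (β * Real.sqrt β) ^ n := by gcongr
      _ = ((4 * (n : ℝ) * β) * (C₁ * Real.sqrt β)) ^ n := by
          rw [← mul_pow, ← mul_pow, ← mul_pow]
          congr 1
          ring
      _ ≤ (1 * (C₁ * Real.sqrt β)) ^ n := by gcongr
      _ = _ := by rw [one_mul]
  have h2 : (C₁ * Real.sqrt β) ^ n ≤ Real.exp (-((40 * k * K + 1) / β)) := by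
    calc (C₁ * Real.sqrt β) ^ n ≤ (Real.exp (-(40 * (40 * k * K + 1)))) ^ n := by gcongr
      _ = Real.exp (-(40 * (40 * k * K + 1) * n)) := by
          rw [← Real.exp_nat_mul]
          congr 1
          ring
      _ ≤ _ := by
          apply Real.exp_le_exp.mpr
          have h3 : (40 * k * K + 1) / β = 40 * (40 * k * K + 1) * (1 / (40 * β)) := by
            field_simp
          rw [h3]
          have h4 : 0 ≤ 40 * (40 * k * K + 1) := by positivity
          have := mul_le_mul_of_nonneg_left hnlo h4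
          linarith
  have h3 : Real.exp (-(1 / β)) ≤ β := by
    have h4 : 1 / β ≤ Real.exp (1 / β) := by
      have := Real.add_one_le_exp (1 / β)
      linarith
    rw [Real.exp_neg]
    calc (Real.exp (1 / β))⁻¹ ≤ (1 / β)⁻¹ := inv_anti₀ (by positivity) h4
      _ = β := by rw [one_div, inv_inv]
  rw [Vpow β hβ n]
  have e1 : (2 * 4 ^ n * (((n.factorial : ℕ) : ℝ) * C₁ ^ n) / ((β * Real.sqrt β) ^ n)⁻¹) =
      2 * (4 ^ n * (((n.factorial : ℕ) : ℝ) * C₁ ^ n) * (β * Real.sqrt β) ^ n) := by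
    rw [div_inv_eq_mul]
    ring
  rw [e1]
  have e2 : 2 * k * (K / (β / 20)) = 40 * k * K / β := by
    field_simp
    ring
  rw [e2]
  calc Real.exp (40 * k * K / β) *
        (2 * (4 ^ n * (((n.factorial : ℕ) : ℝ) * C₁ ^ n) * (β * Real.sqrt β) ^ n))
      ≤ Real.exp (40 * k * K / β) * (2 * Real.exp (-((40 * k * K + 1) / β))) := by
        gcongr
        exact h1.trans h2
    _ = 2 * Real.exp (-(1 / β)) := by
        have e3 : -(1 / β) = 40 * k * K / β + -((40 * k * K + 1) / β) := by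
          field_simp
          ring
        rw [e3, Real.exp_add]
        ring
    _ ≤ 2 * β := by linarith

theorem geo (N : ℕ) : ∑ r ∈ Finset.range N, ((r : ℝ) + 1) * (2 * (1 / 20 : ℝ) ^ r) ≤ 8 := by
  have h1 : ∀ r : ℕ, ((r : ℝ) + 1) * (2 * (1 / 20 : ℝ) ^ r) ≤ 2 * (1 / 2 : ℝ) ^ r := by
    intro r
    have h2 : ((r : ℝ) + 1) ≤ 2 ^ r := by
      have := Nat.lt_two_pow_self (n := r)
      exact_mod_cast this
    calc ((r : ℝ) + 1) * (2 * (1 / 20 : ℝ) ^ r) ≤ 2 ^ r * (2 * (1 / 20 : ℝ) ^ r) := by gcongr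
      _ = 2 * (1 / 10 : ℝ) ^ r := by
          have : (2 : ℝ) ^ r * (1 / 20) ^ r = (1 / 10) ^ r := by
            rw [← mul_pow]
            norm_num
          linear_combination 2 * this
      _ ≤ _ := by
          gcongr
          norm_num
  calc ∑ r ∈ Finset.range N, ((r : ℝ) + 1) * (2 * (1 / 20 : ℝ) ^ r)
      ≤ ∑ r ∈ Finset.range N, 2 * (1 / 2 : ℝ) ^ r := Finset.sum_le_sum fun r _ => h1 r
    _ = 2 * ∑ r ∈ Finset.range N, (1 / 2 : ℝ) ^ r := by rw [Finset.mul_sum]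
    _ ≤ 2 * 2 := by
        have := sum_geometric_two_le N
        linarith
    _ ≤ 8 := by norm_num

end AuxNmS

open AuxNmS in
theorem pf_NmS (h : S_LevB) : S_NmS := by
  intro k K C₁ hk hK hC
  have hE : 0 < Real.exp (-(40 * (40 * k * K + 1))) / C₁ :=
    div_pos (Real.exp_pos _) (by linarith)
  refine ⟨min (1 / 40) ((Real.exp (-(40 * (40 * k * K + 1))) / C₁) ^ 2),
    lt_min (by norm_num) (by positivity), (min_le_left _ _).trans (by norm_num), ?_⟩
  intro T b M hb hb1 hL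
  have hb40 : b ≤ 1 / 40 := hb1.trans (min_le_left _ _)
  have hb2 : b ≤ (Real.exp (-(40 * (40 * k * K + 1))) / C₁) ^ 2 := hb1.trans (min_le_right _ _)
  obtain ⟨-, hall, hM⟩ := h T b M hL (by linarith)
  have hterm : ∀ j ∈ Finset.range (M - 1), ∑ _l ∈ Finset.Ico (j + 1) M,
      Real.exp (2 * k * (K / be T j)) *
      (2 * 4 ^ nv T (j + 1) * ((nv T (j + 1)).factorial * C₁ ^ nv T (j + 1)) /
        Vv T (j + 1) ^ (2 * nv T (j + 1))) ≤
      (((M - 1 - 1 - j : ℕ) : ℝ) + 1) * (2 * (1 / 20 : ℝ) ^ (M - 1 - 1 - j)) := by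
    intro j hj
    rw [Finset.mem_range] at hj
    have hj1 : j + 1 < M := by omega
    obtain ⟨h1, h2, -, -, -⟩ := hM (j + 1) hj1
    obtain ⟨hpos, -, -, -, -⟩ := hall (j + 1)
    obtain ⟨-, -, -, hstep, -⟩ := hall j
    have hbe : be T j = be T (j + 1) / 20 := by
      rw [hstep]
      ring
    have hsq : C₁ * Real.sqrt (be T (j + 1)) ≤ Real.exp (-(40 * (40 * k * K + 1))) := by
      have h3 : Real.sqrt (be T (j + 1)) ≤ Real.exp (-(40 * (40 * k * K + 1))) / C₁ := by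
        apply Real.sqrt_le_iff.mpr
        exact ⟨hE.le, h2.trans hb2⟩
      calc C₁ * Real.sqrt (be T (j + 1))
          ≤ C₁ * (Real.exp (-(40 * (40 * k * K + 1))) / C₁) :=
            mul_le_mul_of_nonneg_left h3 (by linarith)
        _ = _ := by
            have : C₁ ≠ 0 := by
              have : 0 < C₁ := by linarith
              exact this.ne'
            field_simp
    have ht := term k K C₁ (be T (j + 1)) hk hK hC hpos (h2.trans hb40) hsq
    rw [Finset.sum_const, Nat.card_Ico, nsmul_eq_mul, hbe]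
    have hcard : ((M - (j + 1) : ℕ) : ℝ) = ((M - 1 - 1 - j : ℕ) : ℝ) + 1 := by
      have : M - (j + 1) = (M - 1 - 1 - j) + 1 := by omega
      rw [this]
      push_cast
      ring
    rw [hcard]
    have hle : 2 * be T (j + 1) ≤ 2 * (1 / 20 : ℝ) ^ (M - 1 - 1 - j) := by
      have e : M - 1 - (j + 1) = M - 1 - 1 - j := by omega
      rw [e] at h1
      have h4 : b * (1 / 20 : ℝ) ^ (M - 1 - 1 - j) ≤ 1 * (1 / 20 : ℝ) ^ (M - 1 - 1 - j) := by
        gcongr
        linarith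
      linarith
    refine mul_le_mul_of_nonneg_left (le_trans ?_ hle) (by positivity)
    exact ht
  calc _ ≤ ∑ j ∈ Finset.range (M - 1),
        (((M - 1 - 1 - j : ℕ) : ℝ) + 1) * (2 * (1 / 20 : ℝ) ^ (M - 1 - 1 - j)) :=
        Finset.sum_le_sum hterm
    _ = ∑ r ∈ Finset.range (M - 1), ((r : ℝ) + 1) * (2 * (1 / 20 : ℝ) ^ r) :=
        Finset.sum_range_reflect (fun r : ℕ => ((r : ℝ) + 1) * (2 * (1 / 20 : ℝ) ^ r)) (M - 1)
    _ ≤ 8 := geo _

end Pool.Agent.Work.MP_56b8f5_nt.HZB
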