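import Pool.Agent.Work.MP_56b8f5_nt.HZ.StmtsB

/-!
MP_56b8f5_nt, block HZ, part B, item SpS: the sets of primes of the levels.
-/

set_option autoImplicit false

open MeasureTheory Set Filter Topology

noncomputable section

namespace Pool.Agent.Work.MP_56b8f5_nt.HZB

open Pool.Agent.Work.MP_56b8f5_nt.SH

namespace AuxSpS

theorem mem_Sp (T : ℝ) (i p : ℕ) :
    p ∈ Sp T i ↔ p.Prime ∧ Real.log p ≤ yv T i ∧ (0 < i → yv T (i - 1) < Real.log p) := by
  unfold Sp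
  rw [Finset.mem_filter, Finset.mem_range, Nat.lt_succ_iff, Nat.le_floor_iff (Real.exp_pos _).le]
  constructor
  · rintro ⟨h1, h2, h3⟩
    have hp : (0 : ℝ) < p := by exact_mod_cast h2.pos
    exact ⟨h2, (Real.log_le_iff_le_exp hp).mpr h1, h3⟩
  · rintro ⟨h2, h1, h3⟩
    have hp : (0 : ℝ) < p := by exact_mod_cast h2.pos
    exact ⟨(Real.log_le_iff_le_exp hp).mp h1, h2, h3⟩

theorem yv_mono {T : ℝ} (hT : Big T) {i j : ℕ} (h : i ≤ j) : yv T i ≤ yv T j := by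
  have h1 : (0 : ℝ) < Real.exp 1 := Real.exp_pos 1
  have h2 : 1 ≤ Real.log (Real.log T) := by
    rw [Real.le_log_iff_exp_le (lt_of_lt_of_le h1 hT.2)]
    exact hT.2
  unfold yv
  have h3 : (20 : ℝ) ^ i ≤ 20 ^ j := pow_le_pow_right₀ (by norm_num) h
  exact mul_le_mul_of_nonneg_right h3 (by linarith)

theorem disj_lt {T : ℝ} (hT : Big T) {i j : ℕ} (h : i < j) : Disjoint (Sp T i) (Sp T j) := by
  rw [Finset.disjoint_left]
  intro p hp hq
  obtain ⟨-, h1, -⟩ := (mem_Sp T i p).mp hp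
  obtain ⟨-, -, h2⟩ := (mem_Sp T j p).mp hq
  have h3 := h2 (by omega)
  have h4 : yv T i ≤ yv T (j - 1) := yv_mono hT (by omega)
  linarith

end AuxSpS

theorem pf_SpS : S_SpS := by
  intro T hT
  refine ⟨fun i p hp => ?_, fun i i' h => ?_, fun l p hp => ⟨fun h => ?_, ?_⟩⟩
  · obtain ⟨h1, h2, -⟩ := (AuxSpS.mem_Sp T i p).mp hp
    exact ⟨h1, h2⟩
  · rcases lt_or_gt_of_ne h with h1 | h1
    · exact AuxSpS.disj_lt hT h1
    · exact (AuxSpS.disj_lt hT h1).symm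
  · classical
    have hex : ∃ i, Real.log p ≤ yv T i := ⟨l, h⟩
    refine ⟨Nat.find hex, Nat.find_min' hex h, ?_⟩
    rw [AuxSpS.mem_Sp]
    refine ⟨hp, Nat.find_spec hex, fun h0 => ?_⟩
    exact not_le.mp (Nat.find_min hex (Nat.sub_lt h0 one_pos))
  · rintro ⟨i, hi, hpi⟩
    obtain ⟨-, h2, -⟩ := (AuxSpS.mem_Sp T i p).mp hpi
    exact h2.trans (AuxSpS.yv_mono hT hi)

end Pool.Agent.Work.MP_56b8f5_nt.HZB
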