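import Pool.Agent.Work.MP_56b8f5_nt.HZ.StmtsB
import Pool.Agent.Work.MP_56b8f5_nt.SH.I_KMul

/-!
MP_56b8f5_nt, block HZ, part B, item SupL: closure properties of `Sup`.
-/

set_option autoImplicit false

open MeasureTheory Set Filter Topology

noncomputable section

namespace Pool.Agent.Work.MP_56b8f5_nt.HZB

open Pool.Agent.Work.MP_56b8f5_nt.SH

namespace AuxSupL

lemma sup_single (S : Finset ℕ) {q : ℕ} (i : ℕ) (c : ℂ) (hq : q.Prime) (hqS : q ∈ S) :
    Sup S (MonoidAlgebra.single (q ^ i) c : DA) := by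
  intro n hn
  rw [MonoidAlgebra.coeff_single] at hn
  have h1 : n = q ^ i := by
    have := Finsupp.support_single_subset hn
    simpa using this
  subst h1
  refine ⟨pow_ne_zero _ hq.ne_zero, fun p hp hd => ?_⟩
  rw [(Nat.prime_dvd_prime_iff_eq hp hq).mp (hp.dvd_of_dvd_pow hd)]
  exact hqS

end AuxSupL

theorem pf_SupL : S_SupL := by
  refine ⟨?_, ?_, ?_, ?_, ?_, ?_⟩
  · intro S a b hS
    refine I_KMul.sup_sum S _ _ fun p hp => I_KMul.sup_add S _ _ ?_ ?_
    · have h := AuxSupL.sup_single S 1 (a p : ℂ) (hS p hp) hp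
      rwa [pow_one] at h
    · exact AuxSupL.sup_single S 2 (b p : ℂ) (hS p hp) hp
  · intro S α β hα hβ
    exact ⟨I_KMul.sup_add S _ _ hα hβ, I_KMul.sup_mul S _ _ hα hβ⟩
  · intro S α n hα
    exact I_KMul.sup_pow S α hα n
  · intro S α l k hα
    exact I_KMul.sup_sum S _ _ fun m _ => I_KMul.sup_smul S _ _ (I_KMul.sup_pow S α hα m)
  · intro S S' α hα hSS n hn
    exact ⟨(hα n hn).1, fun p hp hd => hSS ((hα n hn).2 p hp hd)⟩
  · exact I_KMul.sup_one ∅

end Pool.Agent.Work.MP_56b8f5_nt.HZB
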