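import Pool.Agent.Work.MP_56b8f5_nt.HZ.StmtsB

/-!
MP_56b8f5_nt, block HZ, part B: item Tay.
-/

set_option autoImplicit false

open MeasureTheory Set Filter Topology

noncomputable section

namespace Pool.Agent.Work.MP_56b8f5_nt.HZB

open Pool.Agent.Work.MP_56b8f5_nt.SH

namespace AuxTay

theorem exp21 : Real.exp (21 / 10) ≤ 10 := by
  have h1 : Real.exp 1 < 2.7182818286 := Real.exp_one_lt_d9
  have h2 : Real.exp (1 / 10) ≤ 10 / 9 := by
    have h3 := Real.add_one_le_exp (-(1 / 10) : ℝ)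
    rw [Real.exp_neg] at h3
    have h4 : 0 < Real.exp (1 / 10) := Real.exp_pos _
    have h5 : (9 / 10 : ℝ) ≤ (Real.exp (1 / 10))⁻¹ := by linarith
    have h6 := mul_le_mul_of_nonneg_right h5 h4.le
    rw [inv_mul_cancel₀ h4.ne'] at h6
    linarith
  have e : Real.exp (21 / 10) = Real.exp 1 * Real.exp 1 * Real.exp (1 / 10) := by
    rw [← Real.exp_add, ← Real.exp_add]; norm_num
  rw [e]
  have h0 : 0 < Real.exp 1 := Real.exp_pos _
  have h3 : Real.exp 1 * Real.exp 1 ≤ 7.4 := by nlinarith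
  have h4 : 0 < Real.exp (1 / 10) := Real.exp_pos _
  nlinarith

theorem rem_le (l : ℕ) (w : ℂ) (hw : ‖w‖ ≤ (l : ℝ) / 10) :
    ‖Complex.exp w - ∑ m ∈ Finset.range (l + 1), w ^ m / (m.factorial : ℂ)‖ ≤
      2 * (Real.exp 1 / 10) ^ (l + 1) := by
  have h1 : ‖w‖ / ((l + 1).succ : ℝ) ≤ 1 / 2 := by
    rw [div_le_iff₀ (by positivity)]
    push_cast
    linarith [Nat.cast_nonneg (α := ℝ) l]
  refine (Complex.exp_bound' h1).trans ?_
  have h2 : ‖w‖ ^ (l + 1) ≤ (((l : ℝ) + 1) / 10) ^ (l + 1) := by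
    refine pow_le_pow_left₀ (norm_nonneg w) (hw.trans ?_) _
    linarith
  have h3 := Real.pow_div_factorial_le_exp ((l : ℝ) + 1) (by positivity) (l + 1)
  have h4 : (0 : ℝ) < ((l + 1).factorial : ℝ) := by positivity
  calc ‖w‖ ^ (l + 1) / ((l + 1).factorial : ℝ) * 2
      ≤ (((l : ℝ) + 1) / 10) ^ (l + 1) / ((l + 1).factorial : ℝ) * 2 := by
        gcongr
    _ = 2 * ((1 / 10) ^ (l + 1) * (((l : ℝ) + 1) ^ (l + 1) / ((l + 1).factorial : ℝ))) := by
        rw [div_pow, div_pow]; ring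
    _ ≤ 2 * ((1 / 10) ^ (l + 1) * Real.exp ((l : ℝ) + 1)) := by
        gcongr
    _ = 2 * (Real.exp 1 / 10) ^ (l + 1) := by
        have e : Real.exp ((l : ℝ) + 1) = Real.exp 1 ^ (l + 1) := by
          rw [← Real.exp_nat_mul]; push_cast; ring_nf
        rw [e, div_pow, div_pow]; ring

theorem small (l : ℕ) : 3 * (2 * (Real.exp 1 / 10) ^ (l + 1)) ≤
    2 * Real.exp (-(l : ℝ)) * Real.exp (-((l : ℝ) / 10)) := by
  have e : Real.exp (-(l : ℝ)) * Real.exp (-((l : ℝ) / 10)) = (Real.exp (11 / 10))⁻¹ ^ l := by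
    rw [← Real.exp_add, ← Real.exp_neg, ← Real.exp_nat_mul]
    congr 1
    ring
  rw [mul_assoc, e]
  have h1 : 0 < Real.exp (11 / 10) := Real.exp_pos _
  have h2 : Real.exp 1 / 10 ≤ (Real.exp (11 / 10))⁻¹ := by
    rw [le_inv_comm₀ (by positivity) h1, inv_div, le_div_iff₀ (Real.exp_pos _), ← Real.exp_add]
    have := exp21
    norm_num
    exact this
  have h3 : (Real.exp 1 / 10) ^ l ≤ (Real.exp (11 / 10))⁻¹ ^ l :=
    pow_le_pow_left₀ (by positivity) h2 _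
  have h4 : Real.exp 1 / 10 ≤ 1 / 3 := by
    have := Real.exp_one_lt_d9
    linarith
  rw [pow_succ]
  have h5 : 0 ≤ (Real.exp 1 / 10) ^ l := by positivity
  nlinarith

end AuxTay

theorem pf_Tay : S_Tay := by
  intro l w hw
  have h1 := AuxTay.rem_le l w hw
  have h2 := AuxTay.small l
  have h3 : ‖Complex.exp w‖ = Real.exp w.re := Complex.norm_exp w
  have h4 : Real.exp (-((l : ℝ) / 10)) ≤ Real.exp w.re := by
    apply Real.exp_le_exp.2
    have := Complex.abs_re_le_norm w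
    have := neg_abs_le w.re
    linarith
  have h5 : ‖Complex.exp w‖ ≤ ‖TE l w‖ +
      ‖Complex.exp w - ∑ m ∈ Finset.range (l + 1), w ^ m / (m.factorial : ℂ)‖ := by
    have e : TE l w = ∑ m ∈ Finset.range (l + 1), w ^ m / (m.factorial : ℂ) := by
      unfold TE
      rfl
    rw [e]
    have := norm_add_le (∑ m ∈ Finset.range (l + 1), w ^ m / (m.factorial : ℂ))
      (Complex.exp w - ∑ m ∈ Finset.range (l + 1), w ^ m / (m.factorial : ℂ))
    rwa [add_sub_cancel] at this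
  have h6 : 0 < Real.exp (-(l : ℝ)) := Real.exp_pos _
  have h7 : Real.exp (-(l : ℝ)) ≤ 1 := by
    rw [Real.exp_le_one_iff]
    exact neg_nonpos.2 (Nat.cast_nonneg l)
  set D := ‖Complex.exp w - ∑ m ∈ Finset.range (l + 1), w ^ m / (m.factorial : ℂ)‖ with hD
  have hD0 : 0 ≤ D := norm_nonneg _
  have h8 : 3 * D ≤ 2 * Real.exp (-(l : ℝ)) * Real.exp w.re := by
    calc 3 * D ≤ 3 * (2 * (Real.exp 1 / 10) ^ (l + 1)) := by linarith
      _ ≤ 2 * Real.exp (-(l : ℝ)) * Real.exp (-((l : ℝ) / 10)) := h2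
      _ ≤ 2 * Real.exp (-(l : ℝ)) * Real.exp w.re := by gcongr
  rw [h3] at h5
  nlinarith

end Pool.Agent.Work.MP_56b8f5_nt.HZB
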