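import Pool.Agent.Work.MP_56b8f5_nt.HZ.B_EvT
import Pool.Agent.Work.MP_56b8f5_nt.HZ.B_Fst
import Pool.Agent.Work.MP_56b8f5_nt.HZ.B_HarT
import Pool.Agent.Work.MP_56b8f5_nt.HZ.B_HarU
import Pool.Agent.Work.MP_56b8f5_nt.HZ.B_IntD
import Pool.Agent.Work.MP_56b8f5_nt.HZ.B_LD
import Pool.Agent.Work.MP_56b8f5_nt.HZ.B_LevB
import Pool.Agent.Work.MP_56b8f5_nt.HZ.B_LevE
import Pool.Agent.Work.MP_56b8f5_nt.HZ.B_LnL
import Pool.Agent.Work.MP_56b8f5_nt.HZ.B_Loc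
import Pool.Agent.Work.MP_56b8f5_nt.HZ.B_MVa
import Pool.Agent.Work.MP_56b8f5_nt.HZ.B_Mer
import Pool.Agent.Work.MP_56b8f5_nt.HZ.B_MjL
import Pool.Agent.Work.MP_56b8f5_nt.HZ.B_N2A
import Pool.Agent.Work.MP_56b8f5_nt.HZ.B_N2E
import Pool.Agent.Work.MP_56b8f5_nt.HZ.B_N2M
import Pool.Agent.Work.MP_56b8f5_nt.HZ.B_NmL
import Pool.Agent.Work.MP_56b8f5_nt.HZ.B_NmP
import Pool.Agent.Work.MP_56b8f5_nt.HZ.B_NmS
import Pool.Agent.Work.MP_56b8f5_nt.HZ.B_PwZ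
import Pool.Agent.Work.MP_56b8f5_nt.HZ.B_SpS
import Pool.Agent.Work.MP_56b8f5_nt.HZ.B_Spl
import Pool.Agent.Work.MP_56b8f5_nt.HZ.B_SupL
import Pool.Agent.Work.MP_56b8f5_nt.HZ.B_Tay
import Pool.Agent.Work.MP_56b8f5_nt.WM.I_Mert

/-!
MP_56b8f5_nt, block HZ, part B: the assembly. `HarU_all`: Harper's bound on a set where the pointwise inequality `Hyp` holds,
uniformly in the exponent; `LD_all`: Gaussian upper bound for the measure of the large values; `Cc_all`: concentration.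
-/

set_option autoImplicit false

namespace Pool.Agent.Work.MP_56b8f5_nt.HZB

theorem N2E_all : S_N2E := pf_N2E pf_N2M pf_SupL pf_MjL pf_Loc

theorem IntD_all : S_IntD := pf_IntD pf_MVa pf_N2M pf_SupL pf_LnL N2E_all pf_N2A

theorem Mer_all : S_Mer := pf_Mer pf_SpS WM.Mert_pf

theorem Spl_all : S_Spl := pf_Spl pf_EvT pf_LevB pf_Tay

theorem HarU_all : S_HarU :=
  pf_HarU IntD_all pf_SpS Mer_all pf_Fst (pf_PwZ pf_SpS) pf_LevE pf_LevB (pf_NmL pf_LevB)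
    (pf_NmP pf_LevB) (pf_NmS pf_LevB) Spl_all

theorem LD_all : S_LD := pf_LD HarU_all

theorem Cc_all : S_Cc := pf_Cc HarU_all

end Pool.Agent.Work.MP_56b8f5_nt.HZB
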