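import Pool.Agent.Work.MP_56b8f5_nt.HZ.StmtsC

/-!
MP_56b8f5_nt, block HZ, part (c), item DsM: products of Dirichlet polynomials and the twisted coefficients.
-/

set_option autoImplicit false

open MeasureTheory Set Filter Topology

noncomputable section

namespace Pool.Agent.Work.MP_56b8f5_nt.HZ

open Pool.Agent.Work.MP_56b8f5_nt.EM Pool.Agent.Work.MP_56b8f5_nt.WM Pool.Agent.Work.MP_56b8f5_nt.SH
open Pool.Agent.Work.MP_56b8f5_nt.HZG

namespace I_DsM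

theorem mul_part (N N' : ℕ) (D E : ℕ → ℂ) (hD : ∀ n, D n ≠ 0 → 1 ≤ n ∧ n ≤ N)
    (hE : ∀ n, E n ≠ 0 → 1 ≤ n ∧ n ≤ N') (s : ℂ) :
    Ds N D s * Ds N' E s = Ds (N * N') (cvl D E) s := by
  unfold Ds cvl
  rw [Finset.sum_mul_sum, ← Finset.sum_product']
  have hR : ∀ n ∈ Finset.Icc 1 (N * N'),
      (∑ d ∈ n.divisors, D d * E (n / d)) * (n : ℂ) ^ (-s) =
        ∑ p ∈ n.divisorsAntidiagonal, (D p.1 * (p.1 : ℂ) ^ (-s)) * (E p.2 * (p.2 : ℂ) ^ (-s)) := by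
    intro n _
    rw [← Nat.sum_divisorsAntidiagonal (fun a b => D a * E b), Finset.sum_mul]
    refine Finset.sum_congr rfl fun p hp => ?_
    rw [Nat.mem_divisorsAntidiagonal] at hp
    rw [← hp.1, Nat.cast_mul, Complex.natCast_mul_natCast_cpow]
    ring
  rw [Finset.sum_congr rfl hR, Finset.sum_sigma']
  symm
  refine Finset.sum_bij_ne_zero (fun x _ _ => x.2) ?_ ?_ ?_ ?_
  · rintro ⟨n, a, b⟩ h1 h2
    simp only [Finset.mem_sigma, Finset.mem_Icc, Nat.mem_divisorsAntidiagonal] at h1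
    have ha : D a ≠ 0 := fun h => h2 (by simp [h])
    have hb : E b ≠ 0 := fun h => h2 (by simp [h])
    simp only [Finset.mem_product, Finset.mem_Icc]
    exact ⟨hD a ha, hE b hb⟩
  · rintro ⟨n, a, b⟩ h1 _ ⟨n', a', b'⟩ h1' _ h
    simp only [Finset.mem_sigma, Finset.mem_Icc, Nat.mem_divisorsAntidiagonal] at h1 h1'
    simp only [Prod.mk.injEq] at h
    obtain ⟨rfl, rfl⟩ := h
    have : n = n' := by rw [← h1.2.1, ← h1'.2.1]
    subst this
    rfl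
  · rintro ⟨a, b⟩ h1 h2
    simp only [Finset.mem_product, Finset.mem_Icc] at h1
    have hab : 1 ≤ a * b := Nat.one_le_iff_ne_zero.2 (Nat.mul_ne_zero (by omega) (by omega))
    refine ⟨⟨a * b, (a, b)⟩, ?_, ?_, rfl⟩
    · refine Finset.mem_sigma.2 ⟨Finset.mem_Icc.2 ⟨hab, Nat.mul_le_mul h1.1.2 h1.2.2⟩, ?_⟩
      exact Nat.mem_divisorsAntidiagonal.2 ⟨rfl, Nat.one_le_iff_ne_zero.1 hab⟩
    · exact h2
  · rintro ⟨n, a, b⟩ _ _
    rfl

theorem twist_part (N : ℕ) (q : ℕ → ℝ) (b τ v : ℝ) :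
    Ds N (qt q b τ) ((1 / 2 + b : ℝ) + v * Complex.I) =
      Ds N (fun n => (q n : ℂ)) (1 / 2 + ((v + τ : ℝ) : ℂ) * Complex.I) := by
  unfold Ds qt
  refine Finset.sum_congr rfl fun n hn => ?_
  have hn0 : (n : ℂ) ≠ 0 := by
    rw [Finset.mem_Icc] at hn
    exact Nat.cast_ne_zero.2 (by omega)
  rw [mul_assoc, ← Complex.cpow_add _ _ hn0]
  congr 2
  push_cast
  ring

end I_DsM

theorem DsM_pf : S_DsM := ⟨I_DsM.mul_part, I_DsM.twist_part⟩

end Pool.Agent.Work.MP_56b8f5_nt.HZ
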