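import Pool.Agent.Work.MP_56b8f5_nt.HZ.StmtsC

/-!
MP_56b8f5_nt, block HZ, item Dv: divisor sums.
-/

set_option autoImplicit false

open MeasureTheory Set Filter Topology

noncomputable section

namespace Pool.Agent.Work.MP_56b8f5_nt.HZ

open Pool.Agent.Work.MP_56b8f5_nt.EM Pool.Agent.Work.MP_56b8f5_nt.WM Pool.Agent.Work.MP_56b8f5_nt.SH
open Pool.Agent.Work.MP_56b8f5_nt.HZG

namespace I_Dv

/-- An arithmetic function from an arbitrary function. -/
def af (a : ℕ → ℂ) : ArithmeticFunction ℂ := ⟨fun n => if n = 0 then 0 else a n, if_pos rfl⟩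

theorem af_apply (a : ℕ → ℂ) {n : ℕ} (hn : n ≠ 0) : af a n = a n := if_neg hn

theorem cvl_eq (a E : ℕ → ℂ) {n : ℕ} (hn : n ≠ 0) : cvl a E n = (af a * af E) n := by
  rw [ArithmeticFunction.mul_apply, Nat.sum_divisorsAntidiagonal (fun x y => af a x * af E y)]
  refine Finset.sum_congr rfl fun d hd => ?_
  have hd' := Nat.mem_divisors.1 hd
  have h1 : d ≠ 0 := fun h => hn (by rw [h] at hd'; exact Nat.zero_dvd.1 hd'.1)
  have h2 : n / d ≠ 0 := by
    rw [Nat.div_ne_zero_iff]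
    exact ⟨h1, Nat.le_of_dvd (Nat.pos_of_ne_zero hn) hd'.1⟩
  rw [af_apply a h1, af_apply E h2]

theorem sum_eq (a : ℕ → ℂ) {n : ℕ} (hn : n ≠ 0) :
    ∑ d ∈ n.divisors, a d = ((ArithmeticFunction.zeta : ArithmeticFunction ℂ) * af a) n := by
  rw [ArithmeticFunction.coe_zeta_mul_apply]
  refine Finset.sum_congr rfl fun d hd => ?_
  have hd' := Nat.mem_divisors.1 hd
  have h1 : d ≠ 0 := fun h => hn (by rw [h] at hd'; exact Nat.zero_dvd.1 hd'.1)
  rw [af_apply a h1]

theorem part2 (a E : ℕ → ℂ) (n : ℕ) (hn : n ≠ 0) : ∑ d ∈ n.divisors, cvl a E d =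
    cvl (fun m => ∑ d ∈ m.divisors, a d) E n := by
  rw [sum_eq _ hn, cvl_eq _ _ hn]
  have e1 : af (cvl a E) = af a * af E := by
    ext m
    rcases eq_or_ne m 0 with rfl | hm
    · simp
    · rw [af_apply _ hm, cvl_eq _ _ hm]
  have e2 : af (fun m => ∑ d ∈ m.divisors, a d) =
      (ArithmeticFunction.zeta : ArithmeticFunction ℂ) * af a := by
    ext m
    rcases eq_or_ne m 0 with rfl | hm
    · simp
    · rw [af_apply _ hm, sum_eq _ hm]
  rw [e1, e2, mul_assoc]

/-- The power function. -/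
def pw (w : ℂ) : ArithmeticFunction ℂ := af (fun n => (n : ℂ) ^ (-w))

theorem pw_mult (w : ℂ) : (pw w).IsMultiplicative := by
  rw [ArithmeticFunction.IsMultiplicative.iff_ne_zero]
  constructor
  · show af _ 1 = 1
    rw [af_apply _ one_ne_zero, Nat.cast_one, Complex.one_cpow]
  · intro m n hm hn _
    show af _ (m * n) = af _ m * af _ n
    rw [af_apply _ (mul_ne_zero hm hn), af_apply _ hm, af_apply _ hn, Nat.cast_mul,
      Complex.natCast_mul_natCast_cpow]

theorem part1 (n : ℕ) (w : ℂ) (hn : n ≠ 0) :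
    ∑ d ∈ n.divisors, ((ArithmeticFunction.moebius d : ℤ) : ℂ) * (d : ℂ) ^ (-w) =
    ∏ p ∈ n.primeFactors, (1 - (p : ℂ) ^ (-w)) := by
  set r : ℕ := ∏ p ∈ n.primeFactors, p with hr
  have hr0 : r ≠ 0 := Finset.prod_ne_zero_iff.2 fun p hp => (Nat.prime_of_mem_primeFactors hp).ne_zero
  have hrf : r.primeFactors = n.primeFactors :=
    Nat.primeFactors_prod fun p hp => Nat.prime_of_mem_primeFactors hp
  have hsq : Squarefree r := by
    rw [hr]
    refine Finset.squarefree_prod_of_pairwise_isCoprime (fun p hp q hq hpq => ?_)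
      fun p hp => (Nat.prime_of_mem_primeFactors hp).squarefree
    exact Nat.coprime_iff_isRelPrime.1 ((Nat.coprime_primes
      (Nat.prime_of_mem_primeFactors hp) (Nat.prime_of_mem_primeFactors hq)).2 hpq)
  have h1 := ArithmeticFunction.IsMultiplicative.prodPrimeFactors_one_sub_of_squarefree (pw w)
    (pw_mult w) hsq
  have h2 : ∏ p ∈ n.primeFactors, (1 - (p : ℂ) ^ (-w)) = ∏ p ∈ r.primeFactors, (1 - pw w p) := by
    rw [hrf]
    refine Finset.prod_congr rfl fun p hp => ?_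
    show _ = 1 - af _ p
    rw [af_apply _ (Nat.prime_of_mem_primeFactors hp).ne_zero]
  rw [h2, h1]
  have h3 : r ∣ n := Nat.prod_primeFactors_dvd n
  symm
  have h4 : ∑ d ∈ r.divisors, ((ArithmeticFunction.moebius d : ℤ) : ℂ) * pw w d =
      ∑ d ∈ r.divisors, ((ArithmeticFunction.moebius d : ℤ) : ℂ) * (d : ℂ) ^ (-w) := by
    refine Finset.sum_congr rfl fun d hd => ?_
    have hd' := Nat.mem_divisors.1 hd
    have h5 : d ≠ 0 := fun h => hr0 (by rw [h] at hd'; exact Nat.zero_dvd.1 hd'.1)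
    show _ * af _ d = _
    rw [af_apply _ h5]
  rw [h4]
  refine Finset.sum_subset (Nat.divisors_subset_of_dvd hn h3) fun d hd hd2 => ?_
  have hd' := Nat.mem_divisors.1 hd
  have h5 : ¬ Squarefree d := by
    intro hs
    apply hd2
    rw [Nat.mem_divisors]
    refine ⟨?_, hr0⟩
    rw [← Nat.prod_primeFactors_of_squarefree hs, hr]
    exact Finset.prod_dvd_prod_of_subset _ _ _ (Nat.primeFactors_mono hd'.1 hn)
  rw [ArithmeticFunction.moebius_eq_zero_of_not_squarefree h5]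
  simp

theorem one_sub_exp (z : ℂ) (hz : 0 ≤ z.re) : ‖1 - Complex.exp (-z)‖ ≤ ‖z‖ := by
  have hs : Convex ℝ {z : ℂ | 0 ≤ z.re} := convex_halfSpace_re_ge 0
  have h := hs.norm_image_sub_le_of_norm_hasDerivWithin_le (f := fun z : ℂ => Complex.exp (-z))
    (f' := fun z => Complex.exp (-z) * (-1)) (C := 1) (x := z) (y := 0)
    (fun x _ => ((Complex.hasDerivAt_exp (-x)).comp x (hasDerivAt_neg x)).hasDerivWithinAt)
    (fun x hx => by
      rw [norm_mul, norm_neg, norm_one, mul_one, Complex.norm_exp, Complex.neg_re]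
      exact Real.exp_le_one_iff.2 (neg_nonpos.2 hx))
    hz (by simp)
  simpa using h

theorem part3 (Y τ : ℝ) (p : ℕ) (hY : 1 < Y) (hp : 1 ≤ p) :
    ‖1 - (p : ℂ) ^ (-((1 + τ * Complex.I) / Real.log Y))‖ ≤ cp Y τ p := by
  have hL : 0 < Real.log Y := Real.log_pos hY
  have hl : 0 ≤ Real.log p := Real.log_nonneg (by exact_mod_cast hp)
  have hp0 : (p : ℂ) ≠ 0 := by exact_mod_cast (by omega : p ≠ 0)
  set z : ℂ := (1 + τ * Complex.I) * ((Real.log p / Real.log Y : ℝ) : ℂ) with hz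
  have e1 : (p : ℂ) ^ (-((1 + τ * Complex.I) / Real.log Y)) = Complex.exp (-z) := by
    rw [Complex.cpow_def_of_ne_zero hp0, ← Complex.natCast_log, hz]
    congr 1
    push_cast
    ring
  have hre : z.re = Real.log p / Real.log Y := by
    rw [hz, Complex.re_mul_ofReal]
    simp
  have hre0 : 0 ≤ z.re := by rw [hre]; positivity
  rw [e1]
  refine le_min ?_ ?_
  · have h1 : ‖Complex.exp (-z)‖ ≤ 1 := by
      rw [Complex.norm_exp, Complex.neg_re]
      exact Real.exp_le_one_iff.2 (neg_nonpos.2 hre0)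
    calc ‖1 - Complex.exp (-z)‖ ≤ ‖(1 : ℂ)‖ + ‖Complex.exp (-z)‖ := norm_sub_le _ _
      _ ≤ 2 := by rw [norm_one]; linarith
  · refine (one_sub_exp z hre0).trans ?_
    rw [hz, norm_mul, Complex.norm_real, Real.norm_of_nonneg (by positivity)]
    refine mul_le_mul_of_nonneg_right ?_ (by positivity)
    calc ‖(1 : ℂ) + τ * Complex.I‖ ≤ ‖(1 : ℂ)‖ + ‖(τ : ℂ) * Complex.I‖ := norm_add_le _ _
      _ = 1 + |τ| := by simp

end I_Dv

theorem Dv_pf : S_Dv :=
  ⟨I_Dv.part1, fun a E n hn => I_Dv.part2 a E n hn, I_Dv.part3⟩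

end Pool.Agent.Work.MP_56b8f5_nt.HZ
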