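import Pool.Agent.Work.MP_56b8f5_nt.HZ.StmtsC

/-!
MP_56b8f5_nt, block HZ, item FoP: positivity of the form `Fo`, and the form with the kernel `k2 log gcd`.
-/

set_option autoImplicit false

open MeasureTheory Set Filter Topology

noncomputable section

namespace Pool.Agent.Work.MP_56b8f5_nt.HZ

open Pool.Agent.Work.MP_56b8f5_nt.EM Pool.Agent.Work.MP_56b8f5_nt.WM Pool.Agent.Work.MP_56b8f5_nt.SH
open Pool.Agent.Work.MP_56b8f5_nt.HZG

namespace I_FoP

/-- the sums `∑_{d | a ≤ N} D(a)/a` -/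
def yy (N : ℕ) (D : ℕ → ℂ) (d : ℕ) : ℂ := ∑ a ∈ Finset.Icc 1 N, if d ∣ a then D a / (a : ℂ) else 0

lemma sum_gcd (N : ℕ) (g : ℕ → ℝ) {a b : ℕ} (ha : 1 ≤ a) (haN : a ≤ N) :
    ∑ d ∈ Finset.Icc 1 N, (if d ∣ a then (if d ∣ b then g d else 0) else 0) =
      ∑ d ∈ (Nat.gcd a b).divisors, g d := by
  have h1 : ∀ d ∈ Finset.Icc 1 N, (if d ∣ a then (if d ∣ b then g d else 0) else 0) =
      if d ∣ a ∧ d ∣ b then g d else 0 := by
    intro d _
    by_cases h1 : d ∣ a <;> by_cases h2 : d ∣ b <;> simp [h1, h2]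
  rw [Finset.sum_congr rfl h1, ← Finset.sum_filter]
  refine Finset.sum_congr ?_ fun _ _ => rfl
  ext d
  rw [Finset.mem_filter, Finset.mem_Icc, Nat.mem_divisors, Nat.dvd_gcd_iff]
  constructor
  · rintro ⟨_, h⟩
    exact ⟨h, (Nat.gcd_pos_of_pos_left b ha).ne'⟩
  · rintro ⟨h, _⟩
    exact ⟨⟨Nat.pos_of_dvd_of_pos h.1 ha, (Nat.le_of_dvd ha h.1).trans haN⟩, h⟩

lemma gen (N : ℕ) (D : ℕ → ℂ) (g : ℕ → ℝ) (K : ℕ → ℕ → ℝ)
    (hK : ∀ a b : ℕ, 1 ≤ a → 1 ≤ b → K a b = (∑ d ∈ (Nat.gcd a b).divisors, g d) / ((a : ℝ) * b)) :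
    (∑ a ∈ Finset.Icc 1 N, ∑ b ∈ Finset.Icc 1 N, D a * (starRingEnd ℂ) (D b) * ((K a b : ℝ) : ℂ)).re =
      ∑ d ∈ Finset.Icc 1 N, g d * ‖yy N D d‖ ^ 2 := by
  have key : ∑ a ∈ Finset.Icc 1 N, ∑ b ∈ Finset.Icc 1 N,
      D a * (starRingEnd ℂ) (D b) * ((K a b : ℝ) : ℂ) =
      ((∑ d ∈ Finset.Icc 1 N, g d * ‖yy N D d‖ ^ 2 : ℝ) : ℂ) := by
    have h1 : ∀ d, ((g d * ‖yy N D d‖ ^ 2 : ℝ) : ℂ) =
        ∑ a ∈ Finset.Icc 1 N, ∑ b ∈ Finset.Icc 1 N, D a * (starRingEnd ℂ) (D b) / ((a : ℂ) * b) *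
          (((if d ∣ a then (if d ∣ b then g d else 0) else 0 : ℝ)) : ℂ) := by
      intro d
      push_cast
      rw [← Complex.mul_conj', yy, map_sum, Finset.sum_mul_sum, Finset.mul_sum]
      refine Finset.sum_congr rfl fun a _ => ?_
      rw [Finset.mul_sum]
      refine Finset.sum_congr rfl fun b _ => ?_
      by_cases h1 : d ∣ a
      · by_cases h2 : d ∣ b
        · simp only [h1, h2, if_true, map_div₀, Complex.conj_natCast]
          ring
        · simp [h1, h2]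
      · simp [h1]
    rw [Complex.ofReal_sum, Finset.sum_congr rfl fun d _ => h1 d]
    symm
    rw [Finset.sum_comm]
    refine Finset.sum_congr rfl fun a ha => ?_
    rw [Finset.sum_comm]
    refine Finset.sum_congr rfl fun b hb => ?_
    rw [Finset.mem_Icc] at ha hb
    rw [← Finset.mul_sum, ← Complex.ofReal_sum, sum_gcd N g ha.1 ha.2, hK a b ha.1 hb.1]
    push_cast
    have hb0 : (b : ℂ) ≠ 0 := by exact_mod_cast (by omega : b ≠ 0)
    have ha0 : (a : ℂ) ≠ 0 := by exact_mod_cast (by omega : a ≠ 0)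
    field_simp
  rw [key, Complex.ofReal_re]

lemma k2_eq (a b : ℕ) : k2 a b =
    (∑ d ∈ (Nat.gcd a b).divisors, ((Nat.totient d : ℕ) : ℝ)) / ((a : ℝ) * b) := by
  rw [← Nat.cast_sum, Nat.sum_totient]
  rfl

lemma Fo_eq (N : ℕ) (D : ℕ → ℂ) :
    Fo N D = ∑ d ∈ Finset.Icc 1 N, ((Nat.totient d : ℕ) : ℝ) * ‖yy N D d‖ ^ 2 :=
  gen N D (fun d => ((Nat.totient d : ℕ) : ℝ)) k2 fun a b _ _ => k2_eq a b

/-- the totient as an arithmetic function -/
def tot : ArithmeticFunction ℝ := ⟨fun n => ((Nat.totient n : ℕ) : ℝ), by simp⟩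

lemma tot_apply (n : ℕ) : tot n = ((Nat.totient n : ℕ) : ℝ) := rfl

/-- the arithmetic function `φ log + Λ * φ` -/
def gg (n : ℕ) : ℝ := ((Nat.totient n : ℕ) : ℝ) * Real.log n + (ArithmeticFunction.vonMangoldt * tot) n

lemma sum_gg {n : ℕ} (hn : n ≠ 0) : ∑ d ∈ n.divisors, gg d = n * Real.log n := by
  unfold gg
  rw [Finset.sum_add_distrib]
  have h1 : ∑ d ∈ n.divisors, (ArithmeticFunction.vonMangoldt * tot) d =
      ∑ d ∈ n.divisors, ((Nat.totient d : ℕ) : ℝ) * Real.log ((n / d : ℕ) : ℝ) := by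
    rw [← ArithmeticFunction.coe_mul_zeta_apply]
    have h2 : ArithmeticFunction.vonMangoldt * tot *
        ((ArithmeticFunction.zeta : ArithmeticFunction ℕ) : ArithmeticFunction ℝ) =
        tot * ArithmeticFunction.log := by
      rw [mul_comm ArithmeticFunction.vonMangoldt tot, mul_assoc,
        ArithmeticFunction.vonMangoldt_mul_zeta]
    rw [h2, ArithmeticFunction.mul_apply,
      Nat.sum_divisorsAntidiagonal (fun a b => tot a * ArithmeticFunction.log b)]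
    rfl
  rw [h1, ← Finset.sum_add_distrib]
  have h3 : ∀ d ∈ n.divisors, ((Nat.totient d : ℕ) : ℝ) * Real.log d +
      ((Nat.totient d : ℕ) : ℝ) * Real.log ((n / d : ℕ) : ℝ) =
      ((Nat.totient d : ℕ) : ℝ) * Real.log n := by
    intro d hd
    have hdn := (Nat.mem_divisors.1 hd).1
    have hd0 : d ≠ 0 := fun h => hn (by rw [h] at hdn; exact Nat.eq_zero_of_zero_dvd hdn)
    have hq0 : n / d ≠ 0 := (Nat.div_pos (Nat.le_of_dvd (by omega) hdn) (by omega)).ne'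
    rw [← mul_add, ← Real.log_mul (by exact_mod_cast hd0) (by exact_mod_cast hq0),
      ← Nat.cast_mul, Nat.mul_div_cancel' hdn]
  rw [Finset.sum_congr rfl h3, ← Finset.sum_mul, ← Nat.cast_sum, Nat.sum_totient]

lemma conv_le {n : ℕ} (hn : n ≠ 0) : (ArithmeticFunction.vonMangoldt * tot) n ≤
    ((Nat.totient n : ℕ) : ℝ) * Real.log n := by
  rw [ArithmeticFunction.mul_apply,
    Nat.sum_divisorsAntidiagonal (fun a b => ArithmeticFunction.vonMangoldt a * tot b)]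
  have h1 : Real.log n = ∑ d ∈ n.divisors, ArithmeticFunction.vonMangoldt d := by
    rw [ArithmeticFunction.vonMangoldt_sum]
  rw [h1, Finset.mul_sum]
  refine Finset.sum_le_sum fun d hd => ?_
  have hdn := (Nat.mem_divisors.1 hd).1
  have hd0 : 0 < d := Nat.pos_of_dvd_of_pos hdn (by omega)
  have h2 : Nat.totient (n / d) ≤ Nat.totient n := by
    have h3 := Nat.totient_super_multiplicative d (n / d)
    rw [Nat.mul_div_cancel' hdn] at h3
    have h4 := Nat.totient_pos.2 hd0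
    nlinarith
  rw [tot_apply, mul_comm]
  have h5 : ((Nat.totient (n / d) : ℕ) : ℝ) ≤ ((Nat.totient n : ℕ) : ℝ) := by exact_mod_cast h2
  exact mul_le_mul_of_nonneg_right h5 ArithmeticFunction.vonMangoldt_nonneg

end I_FoP

open I_FoP

/-- **FoP.** -/
theorem FoP_pf : S_FoP := by
  refine ⟨?_, ?_, ?_⟩
  · intro N D
    rw [Fo_eq]
    positivity
  · intro N D E
    rw [Fo_eq, Fo_eq, Fo_eq, Finset.mul_sum, Finset.mul_sum, ← Finset.sum_add_distrib]
    refine Finset.sum_le_sum fun d _ => ?_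
    have h1 : yy N (fun n => D n + E n) d = yy N D d + yy N E d := by
      unfold yy
      rw [← Finset.sum_add_distrib]
      refine Finset.sum_congr rfl fun a _ => ?_
      split_ifs
      · rw [add_div]
      · rw [add_zero]
    rw [h1]
    have h2 := norm_add_le (yy N D d) (yy N E d)
    have h3 := norm_nonneg (yy N D d + yy N E d)
    have h4 : ‖yy N D d + yy N E d‖ ^ 2 ≤ 2 * ‖yy N D d‖ ^ 2 + 2 * ‖yy N E d‖ ^ 2 := by
      nlinarith [sq_nonneg (‖yy N D d‖ - ‖yy N E d‖)]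
    have h5 : (0 : ℝ) ≤ ((Nat.totient d : ℕ) : ℝ) := Nat.cast_nonneg _
    nlinarith
  · intro N D hN
    rw [gen N D gg (fun a b => k2 a b * Real.log (Nat.gcd a b)) (by
      intro a b ha hb
      have hg : Nat.gcd a b ≠ 0 := (Nat.gcd_pos_of_pos_left b ha).ne'
      rw [sum_gg hg]
      unfold k2
      ring)]
    rw [Fo_eq, Finset.mul_sum]
    refine Finset.sum_le_sum fun d hd => ?_
    rw [Finset.mem_Icc] at hd
    have h1 := conv_le (n := d) (by omega)
    have h2 : Real.log d ≤ Real.log N :=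
      Real.log_le_log (by exact_mod_cast (by omega : 0 < d)) (by exact_mod_cast hd.2)
    have h3 : (0 : ℝ) ≤ ((Nat.totient d : ℕ) : ℝ) := Nat.cast_nonneg _
    have h4 : gg d ≤ 2 * Real.log N * ((Nat.totient d : ℕ) : ℝ) := by
      unfold gg
      nlinarith
    rw [← mul_assoc]
    exact mul_le_mul_of_nonneg_right h4 (by positivity)

end Pool.Agent.Work.MP_56b8f5_nt.HZ
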