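import Pool.Agent.Work.MP_56b8f5_nt.HZ.I_G1a

/-!
MP_56b8f5_nt, block HZ, item G1: localised convexity of the mean square.
-/

set_option autoImplicit false

open MeasureTheory Set Filter Topology

noncomputable section

namespace Pool.Agent.Work.MP_56b8f5_nt.HZG

namespace G1

/-- the localised function -/
def ft (H : ℂ → ℂ) (τ : ℝ) (s : ℂ) : ℂ :=
  H s * ((s + 1)⁻¹ * Complex.exp ((s - (τ : ℂ) * Complex.I) ^ 2))

/-- the squared size without the Gaussian -/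
def g (H : ℂ → ℂ) (x v : ℝ) : ℝ :=
  ‖H ((x : ℂ) + (v : ℂ) * Complex.I)‖ ^ 2 * (‖(x : ℂ) + (v : ℂ) * Complex.I + 1‖ ^ 2)⁻¹ *
    Real.exp (2 * x ^ 2)

/-- the Gaussian -/
def k (τ v : ℝ) : ℝ := Real.exp (-(2 * (v - τ) ^ 2))

theorem g_nonneg (H : ℂ → ℂ) (x v : ℝ) : 0 ≤ g H x v := by unfold g; positivity

theorem k_nonneg (τ v : ℝ) : 0 ≤ k τ v := (Real.exp_pos _).le

theorem exp_norm (x v τ : ℝ) :
    ‖Complex.exp (((x : ℂ) + (v : ℂ) * Complex.I - (τ : ℂ) * Complex.I) ^ 2)‖ =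
      Real.exp (x ^ 2 - (v - τ) ^ 2) := by
  rw [Complex.norm_exp]
  congr 1
  have : (x : ℂ) + (v : ℂ) * Complex.I - (τ : ℂ) * Complex.I = ⟨x, v - τ⟩ := by
    apply Complex.ext <;> simp
  rw [this, sq, Complex.mul_re]
  ring

theorem ft_sq (H : ℂ → ℂ) (τ x v : ℝ) :
    ‖ft H τ ((x : ℂ) + (v : ℂ) * Complex.I)‖ ^ 2 = g H x v * k τ v := by
  unfold ft g k
  rw [norm_mul, norm_mul, norm_inv, exp_norm, mul_pow, mul_pow, inv_pow, ← Real.exp_nat_mul]
  rw [mul_assoc, mul_assoc, ← Real.exp_add]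
  congr 3
  push_cast
  ring

theorem re_pos_ne {s : ℂ} (h : 1 / 2 ≤ s.re) : s + 1 ≠ 0 := by
  intro h0
  have := congrArg Complex.re h0
  simp at this
  linarith

theorem norm_add_one {s : ℂ} (h : 1 / 2 ≤ s.re) : 1 ≤ ‖s + 1‖ := by
  have h1 := Complex.re_le_norm (s + 1)
  have h2 : (s + 1).re = s.re + 1 := by simp
  linarith

theorem ft_diff {H : ℂ → ℂ} (hH : DiffContOnCl ℂ H (Complex.re ⁻¹' Ioo (1 / 2) 2)) (τ : ℝ) :
    DiffContOnCl ℂ (ft H τ) (Complex.re ⁻¹' Ioo (1 / 2) 2) := by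
  unfold ft
  refine DiffContOnCl.smul (c := H) (f := fun s : ℂ => (s + 1)⁻¹ *
    Complex.exp ((s - (τ : ℂ) * Complex.I) ^ 2)) hH ?_
  apply DifferentiableOn.diffContOnCl
  rw [G1a.clo (by norm_num)]
  intro s hs
  have hne : s + 1 ≠ 0 := re_pos_ne hs.1
  refine DifferentiableAt.differentiableWithinAt ?_
  refine DifferentiableAt.mul (DifferentiableAt.inv (by fun_prop) hne) (by fun_prop)

/-- `(1+y)^n e^{-y²} ≤ n! e^2` -/
theorem pow_exp (n : ℕ) {y : ℝ} (hy : 0 ≤ y) :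
    (1 + y) ^ n * Real.exp (-y ^ 2) ≤ n.factorial * Real.exp 2 := by
  have h1 : (1 + y) ^ n / n.factorial ≤ Real.exp (1 + y) :=
    Real.pow_div_factorial_le_exp (1 + y) (by linarith) n
  have hf : (0 : ℝ) < n.factorial := by positivity
  rw [div_le_iff₀ hf] at h1
  calc (1 + y) ^ n * Real.exp (-y ^ 2) ≤ (Real.exp (1 + y) * n.factorial) * Real.exp (-y ^ 2) :=
        mul_le_mul_of_nonneg_right h1 (Real.exp_pos _).le
    _ = n.factorial * Real.exp (1 + y - y ^ 2) := by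
        rw [sub_eq_add_neg, Real.exp_add (1 + y)]
        ring
    _ ≤ n.factorial * Real.exp 2 := by
        refine mul_le_mul_of_nonneg_left (Real.exp_le_exp.2 ?_) hf.le
        nlinarith [sq_nonneg (y - 1 / 2)]

theorem ft_bd {H : ℂ → ℂ} {T : ℝ} (_hT : 0 ≤ T)
    (hb : ∀ s : ℂ, 1 / 2 ≤ s.re → s.re ≤ 2 → ‖H s‖ ≤ T ^ 10 * (1 + |s.im|) ^ 10) (τ : ℝ) (s : ℂ)
    (h1 : 1 / 2 ≤ s.re) (h2 : s.re ≤ 2) :
    ‖ft H τ s‖ ≤ (T ^ 10 * Real.exp 4 * (1 + |τ|) ^ 12 * ((12).factorial * Real.exp 2)) /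
      (1 + s.im ^ 2) := by
  rw [le_div_iff₀ (by positivity)]
  have hs : s = (s.re : ℂ) + (s.im : ℂ) * Complex.I := (Complex.re_add_im s).symm
  have he : ‖Complex.exp ((s - (τ : ℂ) * Complex.I) ^ 2)‖ =
      Real.exp (s.re ^ 2 - (s.im - τ) ^ 2) := by
    conv_lhs => rw [hs]
    exact exp_norm _ _ _
  have hinv : ‖(s + 1)⁻¹‖ ≤ 1 := by
    rw [norm_inv]
    exact inv_le_one_of_one_le₀ (norm_add_one h1)
  have hexp : Real.exp (s.re ^ 2 - (s.im - τ) ^ 2) ≤ Real.exp 4 * Real.exp (-|s.im - τ| ^ 2) := by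
    rw [← Real.exp_add]
    apply Real.exp_le_exp.2
    rw [sq_abs]
    nlinarith
  have h3 : ‖ft H τ s‖ ≤ (T ^ 10 * (1 + |s.im|) ^ 10) *
      (Real.exp 4 * Real.exp (-|s.im - τ| ^ 2)) := by
    unfold ft
    rw [norm_mul, norm_mul, he]
    refine mul_le_mul (hb s h1 h2) ?_ (by positivity) (by positivity)
    calc ‖(s + 1)⁻¹‖ * Real.exp (s.re ^ 2 - (s.im - τ) ^ 2) ≤
          1 * Real.exp (s.re ^ 2 - (s.im - τ) ^ 2) :=
          mul_le_mul_of_nonneg_right hinv (Real.exp_pos _).le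
      _ ≤ _ := by rw [one_mul]; exact hexp
  have h4 : (1 + s.im ^ 2) ≤ (1 + |s.im|) ^ 2 := by
    have := sq_abs s.im
    nlinarith [abs_nonneg s.im]
  have h5 : 1 + |s.im| ≤ (1 + |τ|) * (1 + |s.im - τ|) := by
    have : |s.im| ≤ |s.im - τ| + |τ| := by
      calc |s.im| = |(s.im - τ) + τ| := by congr 1; ring
        _ ≤ _ := abs_add_le _ _
    nlinarith [abs_nonneg τ, abs_nonneg (s.im - τ)]
  have h6 := pow_exp 12 (abs_nonneg (s.im - τ))
  calc ‖ft H τ s‖ * (1 + s.im ^ 2) ≤ ((T ^ 10 * (1 + |s.im|) ^ 10) *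
        (Real.exp 4 * Real.exp (-|s.im - τ| ^ 2))) * (1 + |s.im|) ^ 2 :=
        mul_le_mul h3 h4 (by positivity) (by positivity)
    _ = T ^ 10 * Real.exp 4 * ((1 + |s.im|) ^ 12 * Real.exp (-|s.im - τ| ^ 2)) := by ring
    _ ≤ T ^ 10 * Real.exp 4 * (((1 + |τ|) * (1 + |s.im - τ|)) ^ 12 *
        Real.exp (-|s.im - τ| ^ 2)) := by
        refine mul_le_mul_of_nonneg_left (mul_le_mul_of_nonneg_right
          (pow_le_pow_left₀ (by positivity) h5 12) (Real.exp_pos _).le) (by positivity)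
    _ = T ^ 10 * Real.exp 4 * (1 + |τ|) ^ 12 * ((1 + |s.im - τ|) ^ 12 *
        Real.exp (-|s.im - τ| ^ 2)) := by ring
    _ ≤ _ := mul_le_mul_of_nonneg_left h6 (by positivity)

/-- continuity of `g` in `v` -/
theorem g_cont {H : ℂ → ℂ} (hH : DiffContOnCl ℂ H (Complex.re ⁻¹' Ioo (1 / 2) 2)) {x : ℝ}
    (h1 : 1 / 2 ≤ x) (h2 : x ≤ 2) : Continuous (g H x) := by
  unfold g
  have hc := G1a.line_cont0 (by norm_num : (1 / 2 : ℝ) < 2) hH h1 h2
  refine ((hc.norm.pow 2).mul (Continuous.inv₀ (by fun_prop) fun v => ?_)).mul continuous_const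
  have hne : (x : ℂ) + (v : ℂ) * Complex.I + 1 ≠ 0 := re_pos_ne (by simpa using h1)
  have := norm_pos_iff.2 hne
  positivity

theorem k_cont : Continuous (fun p : ℝ × ℝ => k p.1 p.2) := by
  unfold k
  fun_prop

/-- the weight -/
def w (T v : ℝ) : ENNReal := ∫⁻ τ in Icc (T / 3) (4 * T), ENNReal.ofReal (k τ v)

theorem w_low {T v : ℝ} (hT : 3 ≤ T) (hv : v ∈ Icc (T / 3) (4 * T)) :
    ENNReal.ofReal (Real.exp (-2)) ≤ w T v := by
  have key : ∀ a : ℝ, T / 3 ≤ a → a + 1 ≤ 4 * T → (∀ τ ∈ Icc a (a + 1), (v - τ) ^ 2 ≤ 1) →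
      ENNReal.ofReal (Real.exp (-2)) ≤ w T v := by
    intro a ha1 ha2 ha
    unfold w
    calc ENNReal.ofReal (Real.exp (-2)) = ∫⁻ τ in Icc a (a + 1), ENNReal.ofReal (Real.exp (-2)) := by
          rw [setLIntegral_const, Real.volume_Icc]
          simp
      _ ≤ ∫⁻ τ in Icc a (a + 1), ENNReal.ofReal (k τ v) := by
          refine setLIntegral_mono' measurableSet_Icc fun τ hτ => ?_
          refine ENNReal.ofReal_le_ofReal (Real.exp_le_exp.2 ?_)
          have := ha τ hτ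
          linarith
      _ ≤ _ := lintegral_mono_set (Icc_subset_Icc ha1 ha2)
  by_cases h : v ≤ 2 * T
  · refine key v hv.1 (by linarith) fun τ hτ => ?_
    nlinarith [hτ.1, hτ.2]
  · push Not at h
    refine key (v - 1) (by linarith) (by linarith [hv.2]) fun τ hτ => ?_
    nlinarith [hτ.1, hτ.2]

theorem w_up (T v : ℝ) : w T v ≤ ENNReal.ofReal 2 := by
  have hi : Integrable (fun τ : ℝ => k τ v) := by
    have h := (integrable_exp_neg_mul_sq (by norm_num : (0 : ℝ) < 2)).comp_sub_left v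
    refine h.congr (Eventually.of_forall fun τ => ?_)
    simp only [k]
    congr 1
    ring
  have hint : ∫ τ : ℝ, k τ v = Real.sqrt (Real.pi / 2) := by
    rw [← integral_gaussian 2, ← integral_sub_left_eq_self (fun τ : ℝ => Real.exp (-2 * τ ^ 2))
      volume v]
    congr 1
    funext τ
    simp only [k]
    congr 1
    ring
  calc w T v ≤ ∫⁻ τ : ℝ, ENNReal.ofReal (k τ v) := by
        unfold w
        exact setLIntegral_le_lintegral _ _
    _ = ENNReal.ofReal (∫ τ : ℝ, k τ v) :=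
        (ofReal_integral_eq_lintegral_ofReal hi (Eventually.of_forall fun τ => k_nonneg τ v)).symm
    _ ≤ ENNReal.ofReal 2 := by
        rw [hint]
        apply ENNReal.ofReal_le_ofReal
        rw [Real.sqrt_le_left (by norm_num)]
        linarith [Real.pi_le_four]

theorem w_far {T v : ℝ} (hT : 3 ≤ T) (hv : v ∉ Icc (T / 4) (5 * T)) :
    w T v ≤ ENNReal.ofReal (4 * T * Real.exp (-(2 * (v ^ 2 + T ^ 2) / 225))) := by
  unfold w
  calc ∫⁻ τ in Icc (T / 3) (4 * T), ENNReal.ofReal (k τ v) ≤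
      ∫⁻ τ in Icc (T / 3) (4 * T), ENNReal.ofReal (Real.exp (-(2 * (v ^ 2 + T ^ 2) / 225))) := by
        refine setLIntegral_mono' measurableSet_Icc fun τ hτ => ?_
        refine ENNReal.ofReal_le_ofReal (Real.exp_le_exp.2 ?_)
        have h1 : (v ^ 2 + T ^ 2) / 225 ≤ (v - τ) ^ 2 := by
          rw [mem_Icc, not_and_or, not_le, not_le] at hv
          rcases hv with hv | hv
          · rcases le_total 0 v with h0 | h0
            · have h3 : T / 12 ≤ τ - v := by linarith [hτ.1]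
              nlinarith
            · have h3 : T / 3 - v ≤ τ - v := by linarith [hτ.1]
              nlinarith
          · have h3 : v - 4 * T ≤ v - τ := by linarith [hτ.2]
            have h4 : v / 5 ≤ v - 4 * T := by linarith
            nlinarith
        linarith
    _ = ENNReal.ofReal (Real.exp (-(2 * (v ^ 2 + T ^ 2) / 225))) *
        ENNReal.ofReal (4 * T - T / 3) := by
        rw [setLIntegral_const, Real.volume_Icc]
    _ ≤ _ := by
        rw [← ENNReal.ofReal_mul (Real.exp_pos _).le]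
        apply ENNReal.ofReal_le_ofReal
        rw [mul_comm]
        exact mul_le_mul_of_nonneg_right (by linarith) (Real.exp_pos _).le

/-- the mean of the localised mean squares -/
def M (H : ℂ → ℂ) (T x : ℝ) : ENNReal :=
  ∫⁻ τ in Icc (T / 3) (4 * T), ∫⁻ v : ℝ, ENNReal.ofReal (g H x v * k τ v)

theorem meas2 {H : ℂ → ℂ} (hH : DiffContOnCl ℂ H (Complex.re ⁻¹' Ioo (1 / 2) 2)) {x : ℝ}
    (h1 : 1 / 2 ≤ x) (h2 : x ≤ 2) :
    Measurable (fun p : ℝ × ℝ => ENNReal.ofReal (g H x p.2 * k p.1 p.2)) :=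
  (((g_cont hH h1 h2).comp continuous_snd).mul k_cont).measurable.ennreal_ofReal

theorem M_eq {H : ℂ → ℂ} (hH : DiffContOnCl ℂ H (Complex.re ⁻¹' Ioo (1 / 2) 2)) {x : ℝ}
    (h1 : 1 / 2 ≤ x) (h2 : x ≤ 2) (T : ℝ) :
    M H T x = ∫⁻ v : ℝ, ENNReal.ofReal (g H x v) * w T v := by
  unfold M w
  rw [lintegral_lintegral_swap (meas2 hH h1 h2).aemeasurable]
  congr 1
  funext v
  rw [← lintegral_const_mul]
  · congr 1
    funext τ
    rw [ENNReal.ofReal_mul (g_nonneg H x v)]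
  · have : Continuous (fun τ : ℝ => k τ v) := by unfold k; fun_prop
    exact this.measurable.ennreal_ofReal

/-- convexity for the means -/
theorem M_conv {H : ℂ → ℂ} {T : ℝ} (hT : 0 ≤ T)
    (hH : DiffContOnCl ℂ H (Complex.re ⁻¹' Ioo (1 / 2) 2))
    (hb : ∀ s : ℂ, 1 / 2 ≤ s.re → s.re ≤ 2 → ‖H s‖ ≤ T ^ 10 * (1 + |s.im|) ^ 10) {σ : ℝ}
    (h1 : 1 / 2 ≤ σ) (h2 : σ ≤ 2) :
    M H T σ ≤ M H T (1 / 2) ^ (1 - (σ - 1 / 2) / (3 / 2) : ℝ) *
      M H T 2 ^ ((σ - 1 / 2) / (3 / 2) : ℝ) := by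
  have hθ0 : 0 ≤ (σ - 1 / 2) / (3 / 2) := by
    apply div_nonneg <;> linarith
  have hθ1 : (σ - 1 / 2) / (3 / 2) ≤ 1 := by
    rw [div_le_one (by norm_num)]
    linarith
  have hstep : ∀ τ : ℝ, ∫⁻ v : ℝ, ENNReal.ofReal (g H σ v * k τ v) ≤
      (∫⁻ v : ℝ, ENNReal.ofReal (g H (1 / 2) v * k τ v)) ^ (1 - (σ - 1 / 2) / (3 / 2) : ℝ) *
      (∫⁻ v : ℝ, ENNReal.ofReal (g H 2 v * k τ v)) ^ ((σ - 1 / 2) / (3 / 2) : ℝ) := by
    intro τ
    have h := iG1a (ft H τ) (1 / 2) 2 σ _ (by norm_num) h1 h2 (ft_diff hH τ)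
      (ft_bd hT hb τ)
    simp only [ft_sq] at h
    have e : (2 : ℝ) - 1 / 2 = 3 / 2 := by norm_num
    rw [e] at h
    exact h
  unfold M
  refine (lintegral_mono fun τ => hstep τ).trans ?_
  refine ENNReal.lintegral_mul_norm_pow_le ?_ ?_ (by linarith) hθ0 (by ring)
  · exact (meas2 hH le_rfl (by norm_num)).lintegral_prod_right'.aemeasurable
  · exact (meas2 hH (by norm_num) le_rfl).lintegral_prod_right'.aemeasurable

theorem norm_sub_le_add {s : ℂ} (h : 0 ≤ s.re) : ‖s - 1‖ ≤ ‖s + 1‖ := by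
  rw [← sq_le_sq₀ (norm_nonneg _) (norm_nonneg _), ← Complex.normSq_eq_norm_sq,
    ← Complex.normSq_eq_norm_sq, Complex.normSq_apply, Complex.normSq_apply]
  simp only [Complex.sub_re, Complex.sub_im, Complex.add_re, Complex.add_im, Complex.one_re,
    Complex.one_im]
  nlinarith

theorem norm_add_le_sub {s : ℂ} (_h1 : 0 ≤ s.re) (h2 : s.re ≤ 2) (h : 1 ≤ s.im) :
    ‖s + 1‖ ≤ 4 * ‖s - 1‖ := by
  rw [← sq_le_sq₀ (norm_nonneg _) (by positivity), mul_pow, ← Complex.normSq_eq_norm_sq,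
    ← Complex.normSq_eq_norm_sq, Complex.normSq_apply, Complex.normSq_apply]
  simp only [Complex.sub_re, Complex.sub_im, Complex.add_re, Complex.add_im, Complex.one_re,
    Complex.one_im]
  nlinarith [sq_nonneg (s.re - 1)]

/-- `g ≤ e^8 |F|²` -/
theorem g_le_F {F H : ℂ → ℂ} {T x v : ℝ} (hT : 4 ≤ T) (h1 : 1 / 2 ≤ x) (h2 : x ≤ 2)
    (hF : ∀ s : ℂ, 1 / 2 ≤ s.re → s.re ≤ 2 → T / 4 ≤ s.im → s.im ≤ 5 * T → F s = H s / (s - 1))
    (hv : v ∈ Icc (T / 4) (5 * T)) :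
    g H x v ≤ Real.exp 8 * ‖F ((x : ℂ) + (v : ℂ) * Complex.I)‖ ^ 2 := by
  set s : ℂ := (x : ℂ) + (v : ℂ) * Complex.I with hs
  have hre : s.re = x := by simp [hs]
  have him : s.im = v := by simp [hs]
  rw [hF s (by rw [hre]; exact h1) (by rw [hre]; exact h2) (by rw [him]; exact hv.1)
    (by rw [him]; exact hv.2), norm_div, div_pow]
  have hne : 0 < ‖s - 1‖ := by
    rw [norm_pos_iff]
    intro h0
    have := congrArg Complex.im h0
    simp only [Complex.sub_im, Complex.one_im, Complex.zero_im, him] at this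
    linarith [hv.1]
  have hne2 : 0 < ‖s + 1‖ := lt_of_lt_of_le one_pos (norm_add_one (by rw [hre]; exact h1))
  unfold g
  rw [← hs]
  have h3 : (‖s + 1‖ ^ 2)⁻¹ ≤ (‖s - 1‖ ^ 2)⁻¹ := by
    apply inv_anti₀ (by positivity)
    exact pow_le_pow_left₀ (norm_nonneg _) (norm_sub_le_add (by rw [hre]; linarith)) 2
  have h4 : Real.exp (2 * x ^ 2) ≤ Real.exp 8 := Real.exp_le_exp.2 (by nlinarith)
  calc ‖H s‖ ^ 2 * (‖s + 1‖ ^ 2)⁻¹ * Real.exp (2 * x ^ 2) ≤
        ‖H s‖ ^ 2 * (‖s - 1‖ ^ 2)⁻¹ * Real.exp 8 := by gcongr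
    _ = _ := by
        rw [div_eq_mul_inv]
        ring

/-- `|F|²/16 ≤ g` -/
theorem F_le_g {F H : ℂ → ℂ} {T x v : ℝ} (hT : 4 ≤ T) (h1 : 1 / 2 ≤ x) (h2 : x ≤ 2)
    (hF : ∀ s : ℂ, 1 / 2 ≤ s.re → s.re ≤ 2 → T / 4 ≤ s.im → s.im ≤ 5 * T → F s = H s / (s - 1))
    (hv : v ∈ Icc (T / 4) (5 * T)) :
    ‖F ((x : ℂ) + (v : ℂ) * Complex.I)‖ ^ 2 ≤ 16 * g H x v := by
  set s : ℂ := (x : ℂ) + (v : ℂ) * Complex.I with hs
  have hre : s.re = x := by simp [hs]
  have him : s.im = v := by simp [hs]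
  rw [hF s (by rw [hre]; exact h1) (by rw [hre]; exact h2) (by rw [him]; exact hv.1)
    (by rw [him]; exact hv.2), norm_div, div_pow]
  have hne : 0 < ‖s - 1‖ := by
    rw [norm_pos_iff]
    intro h0
    have := congrArg Complex.im h0
    simp only [Complex.sub_im, Complex.one_im, Complex.zero_im, him] at this
    linarith [hv.1]
  have hne2 : 0 < ‖s + 1‖ := lt_of_lt_of_le one_pos (norm_add_one (by rw [hre]; exact h1))
  unfold g
  rw [← hs]
  have h3 : (‖s - 1‖ ^ 2)⁻¹ ≤ 16 * (‖s + 1‖ ^ 2)⁻¹ := by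
    have h5 : ‖s + 1‖ ^ 2 ≤ 16 * ‖s - 1‖ ^ 2 := by
      have := pow_le_pow_left₀ (norm_nonneg _) (norm_add_le_sub (s := s) (by rw [hre]; linarith)
        (by rw [hre]; exact h2) (by rw [him]; linarith [hv.1])) 2
      rw [mul_pow] at this
      linarith
    rw [inv_le_iff_one_le_mul₀ (by positivity), mul_comm, ← mul_assoc,
      ← div_eq_mul_inv, le_div_iff₀ (by positivity)]
    linarith
  have h4 : 1 ≤ Real.exp (2 * x ^ 2) := Real.one_le_exp (by positivity)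
  calc ‖H s‖ ^ 2 / ‖s - 1‖ ^ 2 = ‖H s‖ ^ 2 * (‖s - 1‖ ^ 2)⁻¹ * 1 := by
        rw [div_eq_mul_inv, mul_one]
    _ ≤ ‖H s‖ ^ 2 * (16 * (‖s + 1‖ ^ 2)⁻¹) * Real.exp (2 * x ^ 2) := by gcongr
    _ = _ := by ring

/-- `g` far away -/
theorem g_far {H : ℂ → ℂ} {T x v : ℝ} (_hT : 0 ≤ T) (h1 : 1 / 2 ≤ x) (h2 : x ≤ 2)
    (hb : ∀ s : ℂ, 1 / 2 ≤ s.re → s.re ≤ 2 → ‖H s‖ ≤ T ^ 10 * (1 + |s.im|) ^ 10) :
    g H x v ≤ T ^ 20 * (1 + |v|) ^ 20 * Real.exp 8 := by
  set s : ℂ := (x : ℂ) + (v : ℂ) * Complex.I with hs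
  have hre : s.re = x := by simp [hs]
  have him : s.im = v := by simp [hs]
  have hH := hb s (by rw [hre]; exact h1) (by rw [hre]; exact h2)
  rw [him] at hH
  have hinv : (‖s + 1‖ ^ 2)⁻¹ ≤ 1 := by
    apply inv_le_one_of_one_le₀
    exact one_le_pow₀ (norm_add_one (by rw [hre]; exact h1))
  have h4 : Real.exp (2 * x ^ 2) ≤ Real.exp 8 := Real.exp_le_exp.2 (by nlinarith)
  unfold g
  rw [← hs]
  calc ‖H s‖ ^ 2 * (‖s + 1‖ ^ 2)⁻¹ * Real.exp (2 * x ^ 2) ≤
        (T ^ 10 * (1 + |v|) ^ 10) ^ 2 * 1 * Real.exp 8 := by gcongr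
    _ = _ := by ring

/-- `(1+y)^n e^{-2y²/225} ≤ n! e^30` -/
theorem pow_exp2 (n : ℕ) {y : ℝ} (hy : 0 ≤ y) :
    (1 + y) ^ n * Real.exp (-(2 * y ^ 2 / 225)) ≤ n.factorial * Real.exp 30 := by
  have h1 : (1 + y) ^ n / (n.factorial : ℝ) ≤ Real.exp (1 + y) :=
    Real.pow_div_factorial_le_exp (1 + y) (by linarith) n
  have hf : (0 : ℝ) < n.factorial := by positivity
  rw [div_le_iff₀ hf] at h1
  calc (1 + y) ^ n * Real.exp (-(2 * y ^ 2 / 225)) ≤
        (Real.exp (1 + y) * n.factorial) * Real.exp (-(2 * y ^ 2 / 225)) :=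
        mul_le_mul_of_nonneg_right h1 (Real.exp_pos _).le
    _ = n.factorial * Real.exp (1 + y - 2 * y ^ 2 / 225) := by
        rw [sub_eq_add_neg, Real.exp_add (1 + y)]
        ring
    _ ≤ n.factorial * Real.exp 30 := by
        refine mul_le_mul_of_nonneg_left (Real.exp_le_exp.2 ?_) hf.le
        nlinarith [sq_nonneg (y - 225 / 4)]

/-- the constant of the tail -/
def KT : ℝ := Real.exp 8 * 4 * ((22).factorial * Real.exp 30) * Real.pi

theorem KT_pos : 0 < KT := by unfold KT; positivity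

theorem exists_T : ∃ T₀ : ℝ, 225 ≤ T₀ ∧ ∀ T : ℝ, T₀ ≤ T →
    KT * (T ^ 21 * Real.exp (-(2 * T ^ 2 / 225))) ≤ (T ^ 50)⁻¹ := by
  have h1 := Real.tendsto_pow_mul_exp_neg_atTop_nhds_zero 71
  have h2 : ∀ᶠ T in atTop, T ^ 71 * Real.exp (-T) < 1 / KT :=
    h1.eventually (gt_mem_nhds (by have := KT_pos; positivity))
  obtain ⟨T₁, hT₁⟩ := eventually_atTop.1 h2
  refine ⟨max 225 T₁, le_max_left _ _, fun T hT => ?_⟩
  have hT225 : 225 ≤ T := (le_max_left _ _).trans hT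
  have h3 := hT₁ T ((le_max_right _ _).trans hT)
  have hK := KT_pos
  rw [lt_div_iff₀ hK] at h3
  have h4 : Real.exp (-(2 * T ^ 2 / 225)) ≤ Real.exp (-T) := by
    apply Real.exp_le_exp.2
    have : T ≤ 2 * T ^ 2 / 225 := by
      rw [le_div_iff₀ (by norm_num)]
      nlinarith
    linarith
  have hTp : 0 < T := by linarith
  rw [← mul_le_mul_iff_left₀ (pow_pos hTp 50), inv_mul_cancel₀ (pow_pos hTp 50).ne']
  calc KT * (T ^ 21 * Real.exp (-(2 * T ^ 2 / 225))) * T ^ 50 =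
        KT * T ^ 71 * Real.exp (-(2 * T ^ 2 / 225)) := by ring
    _ ≤ KT * T ^ 71 * Real.exp (-T) := mul_le_mul_of_nonneg_left h4 (by positivity)
    _ ≤ 1 := by
        have : KT * T ^ 71 * Real.exp (-T) = T ^ 71 * Real.exp (-T) * KT := by ring
        rw [this]
        exact h3.le

/-- the tail -/
theorem tail {H : ℂ → ℂ} {T x : ℝ} (hT : 225 ≤ T)
    (hK : KT * (T ^ 21 * Real.exp (-(2 * T ^ 2 / 225))) ≤ (T ^ 50)⁻¹)
    (h1 : 1 / 2 ≤ x) (h2 : x ≤ 2)
    (hb : ∀ s : ℂ, 1 / 2 ≤ s.re → s.re ≤ 2 → ‖H s‖ ≤ T ^ 10 * (1 + |s.im|) ^ 10) :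
    ∫⁻ v in (Icc (T / 4) (5 * T))ᶜ, ENNReal.ofReal (g H x v) * w T v ≤
      ENNReal.ofReal ((T ^ 50)⁻¹) := by
  set c : ℝ := Real.exp 8 * 4 * ((22).factorial * Real.exp 30) *
    (T ^ 21 * Real.exp (-(2 * T ^ 2 / 225))) with hc
  have hc0 : 0 ≤ c := by positivity
  have hpt : ∀ v ∈ (Icc (T / 4) (5 * T))ᶜ, ENNReal.ofReal (g H x v) * w T v ≤
      ENNReal.ofReal (c / (1 + v ^ 2)) := by
    intro v hv
    calc ENNReal.ofReal (g H x v) * w T v ≤
          ENNReal.ofReal (T ^ 20 * (1 + |v|) ^ 20 * Real.exp 8) *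
          ENNReal.ofReal (4 * T * Real.exp (-(2 * (v ^ 2 + T ^ 2) / 225))) :=
          mul_le_mul' (ENNReal.ofReal_le_ofReal (g_far (by linarith) h1 h2 hb))
            (w_far (by linarith) hv)
      _ = ENNReal.ofReal (T ^ 20 * (1 + |v|) ^ 20 * Real.exp 8 *
          (4 * T * Real.exp (-(2 * (v ^ 2 + T ^ 2) / 225)))) := by
          rw [← ENNReal.ofReal_mul (by positivity)]
      _ ≤ _ := by
          apply ENNReal.ofReal_le_ofReal
          rw [le_div_iff₀ (by positivity)]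
          have h4 : (1 + v ^ 2) ≤ (1 + |v|) ^ 2 := by
            have := sq_abs v
            nlinarith [abs_nonneg v]
          have h5 := pow_exp2 22 (abs_nonneg v)
          rw [sq_abs] at h5
          have h6 : Real.exp (-(2 * (v ^ 2 + T ^ 2) / 225)) =
              Real.exp (-(2 * v ^ 2 / 225)) * Real.exp (-(2 * T ^ 2 / 225)) := by
            rw [← Real.exp_add]
            congr 1
            ring
          rw [h6]
          calc T ^ 20 * (1 + |v|) ^ 20 * Real.exp 8 * (4 * T * (Real.exp (-(2 * v ^ 2 / 225)) *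
                Real.exp (-(2 * T ^ 2 / 225)))) * (1 + v ^ 2) ≤
                T ^ 20 * (1 + |v|) ^ 20 * Real.exp 8 * (4 * T * (Real.exp (-(2 * v ^ 2 / 225)) *
                Real.exp (-(2 * T ^ 2 / 225)))) * (1 + |v|) ^ 2 :=
                mul_le_mul_of_nonneg_left h4 (by positivity)
            _ = Real.exp 8 * 4 * ((1 + |v|) ^ 22 * Real.exp (-(2 * v ^ 2 / 225))) *
                (T ^ 21 * Real.exp (-(2 * T ^ 2 / 225))) := by ring
            _ ≤ Real.exp 8 * 4 * ((22).factorial * Real.exp 30) *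
                (T ^ 21 * Real.exp (-(2 * T ^ 2 / 225))) := by gcongr
            _ = c := hc.symm
  calc ∫⁻ v in (Icc (T / 4) (5 * T))ᶜ, ENNReal.ofReal (g H x v) * w T v ≤
      ∫⁻ v in (Icc (T / 4) (5 * T))ᶜ, ENNReal.ofReal (c / (1 + v ^ 2)) :=
        setLIntegral_mono' measurableSet_Icc.compl hpt
    _ ≤ ∫⁻ v : ℝ, ENNReal.ofReal (c / (1 + v ^ 2)) := setLIntegral_le_lintegral _ _
    _ = ENNReal.ofReal (∫ v : ℝ, c / (1 + v ^ 2)) :=
        (ofReal_integral_eq_lintegral_ofReal (G1a.int_den c)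
          (Eventually.of_forall fun v => by positivity)).symm
    _ = ENNReal.ofReal (c * Real.pi) := by
        congr 1
        simp_rw [div_eq_mul_inv]
        rw [integral_const_mul, integral_univ_inv_one_add_sq]
    _ ≤ _ := by
        apply ENNReal.ofReal_le_ofReal
        refine le_trans (le_of_eq ?_) hK
        rw [hc, KT]
        ring

/-- continuity of `F` on the segments -/
theorem F_int {F H : ℂ → ℂ} {T x a b : ℝ} (hT : 4 ≤ T) (h1 : 1 / 2 ≤ x) (h2 : x ≤ 2)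
    (hH : DiffContOnCl ℂ H (Complex.re ⁻¹' Ioo (1 / 2) 2))
    (hF : ∀ s : ℂ, 1 / 2 ≤ s.re → s.re ≤ 2 → T / 4 ≤ s.im → s.im ≤ 5 * T → F s = H s / (s - 1))
    (ha : T / 4 ≤ a) (hab : a ≤ b) (hb : b ≤ 5 * T) :
    ∫⁻ v in Icc a b, ENNReal.ofReal (‖F ((x : ℂ) + (v : ℂ) * Complex.I)‖ ^ 2) =
      ENNReal.ofReal (MS F x a b) := by
  have hc : ContinuousOn (fun v : ℝ => ‖F ((x : ℂ) + (v : ℂ) * Complex.I)‖ ^ 2) (Icc a b) := by
    have hl := G1a.line_cont0 (by norm_num : (1 / 2 : ℝ) < 2) hH h1 h2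
    have h3 : ContinuousOn (fun v : ℝ => ‖H ((x : ℂ) + (v : ℂ) * Complex.I) /
        ((x : ℂ) + (v : ℂ) * Complex.I - 1)‖ ^ 2) (Icc a b) := by
      refine ((hl.continuousOn.div (by fun_prop) fun v hv => ?_).norm).pow 2
      intro h0
      have := congrArg Complex.im h0
      simp at this
      linarith [hv.1]
    refine h3.congr fun v hv => ?_
    simp only
    rw [hF]
    · simpa using h1
    · simpa using h2
    · simp only [Complex.add_im, Complex.ofReal_im, Complex.mul_im, Complex.ofReal_re,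
        Complex.I_im, mul_one, Complex.I_re, mul_zero, add_zero, zero_add]
      exact ha.trans hv.1
    · simp only [Complex.add_im, Complex.ofReal_im, Complex.mul_im, Complex.ofReal_re,
        Complex.I_im, mul_one, Complex.I_re, mul_zero, add_zero, zero_add]
      exact hv.2.trans hb
  unfold MS
  rw [intervalIntegral.integral_of_le hab, ← integral_Icc_eq_integral_Ioc]
  exact (ofReal_integral_eq_lintegral_ofReal hc.integrableOn_Icc
    (Eventually.of_forall fun v => by positivity)).symm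

theorem MS_nonneg {F : ℂ → ℂ} {x a b : ℝ} (h : a ≤ b) : 0 ≤ MS F x a b :=
  intervalIntegral.integral_nonneg h fun _ _ => by positivity

theorem M_up {F H : ℂ → ℂ} {T x : ℝ} (hT : 225 ≤ T)
    (hK : KT * (T ^ 21 * Real.exp (-(2 * T ^ 2 / 225))) ≤ (T ^ 50)⁻¹)
    (h1 : 1 / 2 ≤ x) (h2 : x ≤ 2)
    (hH : DiffContOnCl ℂ H (Complex.re ⁻¹' Ioo (1 / 2) 2))
    (hb : ∀ s : ℂ, 1 / 2 ≤ s.re → s.re ≤ 2 → ‖H s‖ ≤ T ^ 10 * (1 + |s.im|) ^ 10)
    (hF : ∀ s : ℂ, 1 / 2 ≤ s.re → s.re ≤ 2 → T / 4 ≤ s.im → s.im ≤ 5 * T → F s = H s / (s - 1)) :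
    M H T x ≤ ENNReal.ofReal (2 * Real.exp 8 * (MS F x (T / 4) (5 * T) + (T ^ 50)⁻¹)) := by
  have hTp : 0 < T := by linarith
  rw [M_eq hH h1 h2, ← lintegral_add_compl _ (measurableSet_Icc (a := T / 4) (b := 5 * T))]
  have hA : ∫⁻ v in Icc (T / 4) (5 * T), ENNReal.ofReal (g H x v) * w T v ≤
      ENNReal.ofReal (2 * Real.exp 8 * MS F x (T / 4) (5 * T)) := by
    calc ∫⁻ v in Icc (T / 4) (5 * T), ENNReal.ofReal (g H x v) * w T v ≤
        ∫⁻ v in Icc (T / 4) (5 * T), ENNReal.ofReal (2 * Real.exp 8) *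
          ENNReal.ofReal (‖F ((x : ℂ) + (v : ℂ) * Complex.I)‖ ^ 2) := by
          refine setLIntegral_mono' measurableSet_Icc fun v hv => ?_
          calc ENNReal.ofReal (g H x v) * w T v ≤
              ENNReal.ofReal (Real.exp 8 * ‖F ((x : ℂ) + (v : ℂ) * Complex.I)‖ ^ 2) *
                ENNReal.ofReal 2 :=
                mul_le_mul' (ENNReal.ofReal_le_ofReal (g_le_F (by linarith) h1 h2 hF hv))
                  (w_up T v)
            _ = _ := by
                rw [← ENNReal.ofReal_mul (by positivity), ← ENNReal.ofReal_mul (by positivity)]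
                congr 1
                ring
      _ = ENNReal.ofReal (2 * Real.exp 8) * ∫⁻ v in Icc (T / 4) (5 * T),
          ENNReal.ofReal (‖F ((x : ℂ) + (v : ℂ) * Complex.I)‖ ^ 2) :=
          lintegral_const_mul' _ _ ENNReal.ofReal_ne_top
      _ = _ := by
          rw [F_int (by linarith) h1 h2 hH hF le_rfl (by linarith) le_rfl,
            ← ENNReal.ofReal_mul (by positivity)]
  have hB := tail hT hK h1 h2 hb
  refine (add_le_add hA hB).trans ?_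
  rw [← ENNReal.ofReal_add (mul_nonneg (by positivity) (MS_nonneg (by linarith))) (by positivity)]
  apply ENNReal.ofReal_le_ofReal
  have h8 : 1 ≤ 2 * Real.exp 8 := by
    have := Real.one_le_exp (by norm_num : (0 : ℝ) ≤ 8)
    linarith
  have h9 : (T ^ 50)⁻¹ ≤ 2 * Real.exp 8 * (T ^ 50)⁻¹ :=
    le_mul_of_one_le_left (by positivity) h8
  linarith

theorem M_low {F H : ℂ → ℂ} {T x : ℝ} (hT : 225 ≤ T) (h1 : 1 / 2 ≤ x) (h2 : x ≤ 2)
    (hH : DiffContOnCl ℂ H (Complex.re ⁻¹' Ioo (1 / 2) 2))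
    (hF : ∀ s : ℂ, 1 / 2 ≤ s.re → s.re ≤ 2 → T / 4 ≤ s.im → s.im ≤ 5 * T → F s = H s / (s - 1)) :
    ENNReal.ofReal (Real.exp (-2) / 16 * MS F x (T / 3) (4 * T)) ≤ M H T x := by
  rw [M_eq hH h1 h2]
  calc ENNReal.ofReal (Real.exp (-2) / 16 * MS F x (T / 3) (4 * T)) =
        ENNReal.ofReal (Real.exp (-2) / 16) * ∫⁻ v in Icc (T / 3) (4 * T),
          ENNReal.ofReal (‖F ((x : ℂ) + (v : ℂ) * Complex.I)‖ ^ 2) := by
        rw [F_int (by linarith) h1 h2 hH hF (by linarith) (by linarith) (by linarith),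
          ← ENNReal.ofReal_mul (by positivity)]
    _ = ∫⁻ v in Icc (T / 3) (4 * T), ENNReal.ofReal (Real.exp (-2) / 16) *
          ENNReal.ofReal (‖F ((x : ℂ) + (v : ℂ) * Complex.I)‖ ^ 2) :=
        (lintegral_const_mul' _ _ ENNReal.ofReal_ne_top).symm
    _ ≤ ∫⁻ v in Icc (T / 3) (4 * T), ENNReal.ofReal (g H x v) * w T v := by
        refine setLIntegral_mono' measurableSet_Icc fun v hv => ?_
        calc ENNReal.ofReal (Real.exp (-2) / 16) *
              ENNReal.ofReal (‖F ((x : ℂ) + (v : ℂ) * Complex.I)‖ ^ 2) ≤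
              ENNReal.ofReal (Real.exp (-2) / 16) * ENNReal.ofReal (16 * g H x v) := by
              gcongr
              exact F_le_g (by linarith) h1 h2 hF ⟨by linarith [hv.1], by linarith [hv.2]⟩
          _ = ENNReal.ofReal (g H x v) * ENNReal.ofReal (Real.exp (-2)) := by
              rw [← ENNReal.ofReal_mul (by positivity), ← ENNReal.ofReal_mul (g_nonneg H x v)]
              congr 1
              ring
          _ ≤ _ := by
              gcongr
              exact w_low (by linarith) hv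
    _ ≤ _ := setLIntegral_le_lintegral _ _

end G1

/-- **G1.** -/
theorem iG1 : S_G1 := by
  obtain ⟨T₀, hT₀, hK⟩ := G1.exists_T
  refine ⟨16 * Real.exp 2 * (2 * Real.exp 8), T₀, ?_, by linarith, ?_⟩
  · have h2 := Real.one_le_exp (by norm_num : (0 : ℝ) ≤ 2)
    have h8 := Real.one_le_exp (by norm_num : (0 : ℝ) ≤ 8)
    nlinarith
  intro T hT F H hH hb hF σ h1 h2
  have hT225 : 225 ≤ T := hT₀.trans hT
  have hTp : 0 < T := by linarith
  have hKT := hK T hT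
  set θ : ℝ := (σ - 1 / 2) / (3 / 2) with hθ
  have hθ0 : 0 ≤ θ := by
    apply div_nonneg <;> linarith
  have hθ1 : θ ≤ 1 := by
    rw [hθ, div_le_one (by norm_num)]
    linarith
  have hA0 : 0 ≤ MS F (1 / 2) (T / 4) (5 * T) + (T ^ 50)⁻¹ :=
    add_nonneg (G1.MS_nonneg (by linarith)) (by positivity)
  have hB0 : 0 ≤ MS F 2 (T / 4) (5 * T) + (T ^ 50)⁻¹ :=
    add_nonneg (G1.MS_nonneg (by linarith)) (by positivity)
  have hlow := G1.M_low (F := F) hT225 h1 h2 hH hF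
  have hconv := G1.M_conv (T := T) hTp.le hH hb h1 h2
  rw [← hθ] at hconv
  have hup1 := G1.M_up (F := F) (x := 1 / 2) hT225 hKT le_rfl (by norm_num) hH hb hF
  have hup2 := G1.M_up (F := F) (x := 2) hT225 hKT (by norm_num) le_rfl hH hb hF
  have h3 : ENNReal.ofReal (Real.exp (-2) / 16 * MS F σ (T / 3) (4 * T)) ≤
      ENNReal.ofReal ((2 * Real.exp 8 * (MS F (1 / 2) (T / 4) (5 * T) + (T ^ 50)⁻¹)) ^ (1 - θ) *
        (2 * Real.exp 8 * (MS F 2 (T / 4) (5 * T) + (T ^ 50)⁻¹)) ^ θ) := by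
    rw [ENNReal.ofReal_mul (Real.rpow_nonneg (by positivity) _),
      ← ENNReal.ofReal_rpow_of_nonneg (by positivity) (by linarith),
      ← ENNReal.ofReal_rpow_of_nonneg (by positivity) hθ0]
    refine hlow.trans (hconv.trans ?_)
    exact mul_le_mul' (ENNReal.rpow_le_rpow (by simpa using hup1) (by linarith))
      (ENNReal.rpow_le_rpow hup2 hθ0)
  rw [ENNReal.ofReal_le_ofReal_iff (by positivity)] at h3
  rw [Real.mul_rpow (by positivity) hA0, Real.mul_rpow (by positivity) hB0] at h3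
  have h4 : (2 * Real.exp 8) ^ (1 - θ) * (2 * Real.exp 8) ^ θ = 2 * Real.exp 8 := by
    rw [← Real.rpow_add (by positivity)]
    simp
  have h5 : Real.exp (-2) / 16 * MS F σ (T / 3) (4 * T) ≤
      2 * Real.exp 8 * ((MS F (1 / 2) (T / 4) (5 * T) + (T ^ 50)⁻¹) ^ (1 - θ) *
        (MS F 2 (T / 4) (5 * T) + (T ^ 50)⁻¹) ^ θ) := by
    calc _ ≤ _ := h3
      _ = ((2 * Real.exp 8) ^ (1 - θ) * (2 * Real.exp 8) ^ θ) *
          ((MS F (1 / 2) (T / 4) (5 * T) + (T ^ 50)⁻¹) ^ (1 - θ) *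
          (MS F 2 (T / 4) (5 * T) + (T ^ 50)⁻¹) ^ θ) := by ring
      _ = _ := by rw [h4]
  have h6 : MS F σ (T / 3) (4 * T) =
      16 * Real.exp 2 * (Real.exp (-2) / 16 * MS F σ (T / 3) (4 * T)) := by
    have : Real.exp 2 * Real.exp (-2) = 1 := by
      rw [← Real.exp_add]
      simp
    linear_combination (-(MS F σ (T / 3) (4 * T))) * this
  rw [h6]
  calc 16 * Real.exp 2 * (Real.exp (-2) / 16 * MS F σ (T / 3) (4 * T)) ≤
        16 * Real.exp 2 * (2 * Real.exp 8 * ((MS F (1 / 2) (T / 4) (5 * T) +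
          (T ^ 50)⁻¹) ^ (1 - θ) * (MS F 2 (T / 4) (5 * T) + (T ^ 50)⁻¹) ^ θ)) :=
        mul_le_mul_of_nonneg_left h5 (by positivity)
    _ = _ := by ring

end Pool.Agent.Work.MP_56b8f5_nt.HZG
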