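import Pool.Agent.Work.MP_56b8f5_nt.HZ.StmtsG

/-!
MP_56b8f5_nt, block HZ, items G2a and G2: area mean value and detection with a weight.
-/

set_option autoImplicit false

open MeasureTheory Set Filter Topology

noncomputable section

namespace Pool.Agent.Work.MP_56b8f5_nt.HZG

namespace G2

/-- the mean over circles -/
theorem circ {f : ℂ → ℂ} {c : ℂ} {r u : ℝ} (hf : DiffContOnCl ℂ f (Metric.ball c r)) (hu0 : 0 < u)
    (hur : u < r) :
    2 * Real.pi * ‖f c‖ ^ 2 ≤
      ∫ θ in (-Real.pi)..Real.pi, ‖f (c + u * Complex.exp (θ * Complex.I))‖ ^ 2 := by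
  have hF : DiffContOnCl ℂ (fun z => f z ^ 2) (Metric.ball c |u|) := by
    rw [abs_of_pos hu0]
    have h1 : DiffContOnCl ℂ f (Metric.ball c u) := hf.mono (Metric.ball_subset_ball hur.le)
    have h2 := h1.smul h1
    have e : (fun z => f z ^ 2) = f • f := by
      funext z
      simp only [Pi.smul_apply', smul_eq_mul]
      ring
    rw [e]
    exact h2
  have h1 : Real.circleAverage (fun z => f z ^ 2) c u = f c ^ 2 := hF.circleAverage
  rw [Real.circleAverage_eq_integral_add (-Real.pi)] at h1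
  have h2 : ∫ θ in (0 : ℝ)..2 * Real.pi, (fun z => f z ^ 2) (circleMap c u (θ + -Real.pi)) =
      ∫ θ in (-Real.pi)..Real.pi, (fun z => f z ^ 2) (circleMap c u θ) := by
    rw [intervalIntegral.integral_comp_add_right (fun θ => (fun z => f z ^ 2) (circleMap c u θ))]
    congr 1 <;> ring
  rw [h2] at h1
  have h3 : ‖f c‖ ^ 2 ≤ (2 * Real.pi)⁻¹ *
      ∫ θ in (-Real.pi)..Real.pi, ‖f (c + u * Complex.exp (θ * Complex.I))‖ ^ 2 := by
    rw [← norm_pow, ← h1, norm_smul, Real.norm_eq_abs, abs_of_pos (by positivity)]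
    gcongr
    refine (intervalIntegral.norm_integral_le_integral_norm (by linarith [Real.pi_pos])).trans ?_
    refine le_of_eq ?_
    congr 1
    funext θ
    simp only [norm_pow, circleMap]
  calc 2 * Real.pi * ‖f c‖ ^ 2 ≤ 2 * Real.pi * ((2 * Real.pi)⁻¹ *
        ∫ θ in (-Real.pi)..Real.pi, ‖f (c + u * Complex.exp (θ * Complex.I))‖ ^ 2) := by gcongr
    _ = _ := by
        rw [← mul_assoc, mul_inv_cancel₀ (by positivity), one_mul]

theorem circ_l {f : ℂ → ℂ} {c : ℂ} {r u : ℝ} (hf : DiffContOnCl ℂ f (Metric.ball c r)) (hu0 : 0 < u)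
    (hur : u < r) :
    ENNReal.ofReal (2 * Real.pi * ‖f c‖ ^ 2) ≤
      ∫⁻ θ in Ioo (-Real.pi) Real.pi,
        ENNReal.ofReal (‖f (c + u * Complex.exp (θ * Complex.I))‖ ^ 2) := by
  have hc : Continuous (fun θ : ℝ => ‖f (c + u * Complex.exp (θ * Complex.I))‖ ^ 2) := by
    refine Continuous.pow (Continuous.norm ?_) 2
    have h := hf.continuousOn
    rw [closure_ball c (hu0.trans hur).ne'] at h
    refine h.comp_continuous (by fun_prop) fun θ => ?_
    rw [Metric.mem_closedBall, dist_eq_norm, add_sub_cancel_left, norm_mul,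
      Complex.norm_exp_ofReal_mul_I, mul_one, Complex.norm_real, Real.norm_eq_abs, abs_of_pos hu0]
    exact hur.le
  have h1 := circ hf hu0 hur
  rw [intervalIntegral.integral_of_le (by linarith [Real.pi_pos]),
    integral_Ioc_eq_integral_Ioo] at h1
  refine (ENNReal.ofReal_le_ofReal h1).trans (le_of_eq ?_)
  refine ofReal_integral_eq_lintegral_ofReal ?_ (Eventually.of_forall fun θ => by positivity)
  exact (hc.integrableOn_Icc).mono_set Ioo_subset_Icc_self

theorem ball_l {f : ℂ → ℂ} {c : ℂ} {r : ℝ} (hr : 0 < r) (hm : Measurable f)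
    (hf : DiffContOnCl ℂ f (Metric.ball c r)) :
    ENNReal.ofReal (Real.pi * r ^ 2 * ‖f c‖ ^ 2) ≤
      ∫⁻ z in Metric.ball c r, ENNReal.ofReal (‖f z‖ ^ 2) := by
  have hgm : Measurable (fun z : ℂ => ENNReal.ofReal (‖f z‖ ^ 2)) :=
    (hm.norm.pow_const 2).ennreal_ofReal
  have h1 : ∫⁻ z in Metric.ball c r, ENNReal.ofReal (‖f z‖ ^ 2) =
      ∫⁻ z : ℂ, (Metric.ball (0 : ℂ) r).indicator (fun z => ENNReal.ofReal (‖f (c + z)‖ ^ 2)) z := by
    rw [← lintegral_indicator Metric.isOpen_ball.measurableSet,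
      ← lintegral_add_left_eq_self (μ := volume)
        (f := (Metric.ball c r).indicator (fun z => ENNReal.ofReal (‖f z‖ ^ 2))) c]
    refine lintegral_congr fun z => ?_
    simp only [Set.indicator, Metric.mem_ball, dist_eq_norm, add_sub_cancel_left, sub_zero]
  rw [h1, ← Complex.lintegral_comp_polarCoord_symm]
  set P : ℝ × ℝ → ENNReal := fun p => ENNReal.ofReal p.1 *
    ENNReal.ofReal (‖f (c + p.1 * Complex.exp (p.2 * Complex.I))‖ ^ 2) with hP
  have hPm : Measurable P := by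
    refine (measurable_fst.ennreal_ofReal).mul ?_
    refine hgm.comp ?_
    have : Continuous (fun p : ℝ × ℝ => c + (p.1 : ℂ) * Complex.exp (p.2 * Complex.I)) := by
      fun_prop
    exact this.measurable
  have hsub : (Set.Ioo 0 r) ×ˢ (Set.Ioo (-Real.pi) Real.pi) ⊆ polarCoord.target := by
    intro p hp
    simp only [polarCoord_target, Set.mem_prod, Set.mem_Ioo, Set.mem_Ioi] at hp ⊢
    exact ⟨hp.1.1, hp.2⟩
  have hmeas : MeasurableSet ((Set.Ioo (0 : ℝ) r) ×ˢ (Set.Ioo (-Real.pi) Real.pi)) :=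
    measurableSet_Ioo.prod measurableSet_Ioo
  have h2 : ∫⁻ p in (Set.Ioo 0 r) ×ˢ (Set.Ioo (-Real.pi) Real.pi), P p ≤
      ∫⁻ p in polarCoord.target, ENNReal.ofReal p.1 • (Metric.ball (0 : ℂ) r).indicator
      (fun z => ENNReal.ofReal (‖f (c + z)‖ ^ 2)) (Complex.polarCoord.symm p) := by
    refine le_trans (le_of_eq ?_) (lintegral_mono_set hsub)
    refine setLIntegral_congr_fun hmeas fun p hp => ?_
    have e1 : (Complex.polarCoord.symm p : ℂ) = p.1 * Complex.exp (p.2 * Complex.I) := by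
      rw [Complex.polarCoord_symm_apply, Complex.exp_mul_I]
      push_cast; rfl
    have e2 : ‖(p.1 : ℂ) * Complex.exp (p.2 * Complex.I)‖ = p.1 := by
      rw [norm_mul, Complex.norm_exp_ofReal_mul_I, mul_one, Complex.norm_real,
        Real.norm_eq_abs, abs_of_pos hp.1.1]
    simp only [hP, smul_eq_mul]
    rw [e1, Set.indicator_of_mem]
    rw [mem_ball_zero_iff, e2]
    exact hp.1.2
  refine le_trans ?_ h2
  have h3 : ∫⁻ p in (Set.Ioo 0 r) ×ˢ (Set.Ioo (-Real.pi) Real.pi), P p =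
      ∫⁻ u in Set.Ioo 0 r, ∫⁻ θ in Set.Ioo (-Real.pi) Real.pi, P (u, θ) :=
    setLIntegral_prod P hPm.aemeasurable
  rw [h3]
  have h4 : ∀ u ∈ Set.Ioo 0 r, ENNReal.ofReal (u * (2 * Real.pi * ‖f c‖ ^ 2)) ≤
      ∫⁻ θ in Set.Ioo (-Real.pi) Real.pi, P (u, θ) := by
    intro u hu
    simp only [hP]
    rw [lintegral_const_mul' _ _ ENNReal.ofReal_ne_top, ENNReal.ofReal_mul hu.1.le]
    exact mul_le_mul_right (circ_l hf hu.1 hu.2) _
  refine le_trans (le_of_eq ?_) (setLIntegral_mono' measurableSet_Ioo h4)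
  have h5 : ∫ u in Set.Ioo 0 r, u * (2 * Real.pi * ‖f c‖ ^ 2) = Real.pi * r ^ 2 * ‖f c‖ ^ 2 := by
    rw [← integral_Ioc_eq_integral_Ioo, ← intervalIntegral.integral_of_le hr.le,
      intervalIntegral.integral_mul_const, integral_id]
    ring
  rw [← h5]
  refine ofReal_integral_eq_lintegral_ofReal ?_ ?_
  · exact (Continuous.integrableOn_Icc (by fun_prop)).mono_set Set.Ioo_subset_Icc_self
  · refine (ae_restrict_iff' measurableSet_Ioo).2 (Eventually.of_forall fun u hu => ?_)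
    have := hu.1
    show 0 ≤ u * (2 * Real.pi * ‖f c‖ ^ 2)
    positivity

theorem ball_rect {g : ℂ → ENNReal} (hg : Measurable g) {c : ℂ} {r a b t1 t2 : ℝ}
    (hsub : ∀ z ∈ Metric.ball c r, a ≤ z.re ∧ z.re ≤ b ∧ t1 ≤ z.im ∧ z.im ≤ t2) :
    ∫⁻ z in Metric.ball c r, g z ≤
      ∫⁻ σ in Icc a b, ∫⁻ t in Icc t1 t2, g ((σ : ℂ) + (t : ℂ) * Complex.I) := by
  set R : Set ℂ := Complex.measurableEquivRealProd ⁻¹' ((Set.Icc a b) ×ˢ (Set.Icc t1 t2)) with hR
  have hsub2 : Metric.ball c r ⊆ R := by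
    intro z hz
    obtain ⟨h1, h2, h3, h4⟩ := hsub z hz
    simp only [hR, Set.mem_preimage, Complex.measurableEquivRealProd_apply, Set.mem_prod,
      Set.mem_Icc]
    exact ⟨⟨h1, h2⟩, ⟨h3, h4⟩⟩
  set g' : ℝ × ℝ → ENNReal := fun p => g ((p.1 : ℂ) + (p.2 : ℂ) * Complex.I) with hg'
  have hg'm : Measurable g' := by
    refine hg.comp ?_
    have : Continuous (fun p : ℝ × ℝ => (p.1 : ℂ) + (p.2 : ℂ) * Complex.I) := by fun_prop
    exact this.measurable
  have hgeq : ∀ z : ℂ, g z = g' (Complex.measurableEquivRealProd z) := by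
    intro z
    simp only [hg', Complex.measurableEquivRealProd_apply, Complex.re_add_im]
  calc ∫⁻ z in Metric.ball c r, g z ≤ ∫⁻ z in R, g z := lintegral_mono_set hsub2
    _ = ∫⁻ p in (Set.Icc a b) ×ˢ (Set.Icc t1 t2), g' p := by
        simp_rw [hgeq]
        rw [hR]
        exact Complex.volume_preserving_equiv_real_prod.setLIntegral_comp_preimage_emb
          Complex.measurableEquivRealProd.measurableEmbedding g' _
    _ = ∫⁻ σ in Set.Icc a b, ∫⁻ t in Set.Icc t1 t2, g' (σ, t) :=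
        setLIntegral_prod g' hg'm.aemeasurable

/-- measurability of the integrand -/
theorem J_meas {α : Type*} [MeasurableSpace α] {G : ℝ → ℝ → ENNReal}
    (hG : Measurable (fun p : ℝ × ℝ => G p.1 p.2)) {S : Set ℝ} (hS : MeasurableSet S)
    {B : ℝ → ENNReal} (hB : Measurable B) {t σ τ : α → ℝ} (ht : Measurable t) (hσ : Measurable σ)
    (hτ : Measurable τ) :
    Measurable (fun x => S.indicator (fun v => G (σ x) v) (t x - τ x) * B (t x)) := by
  have hd : Measurable (fun x => t x - τ x) := ht.sub hτ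
  have h1 : Measurable (((fun x => t x - τ x) ⁻¹' S).indicator (fun x => G (σ x) (t x - τ x))) :=
    Measurable.indicator (hG.comp (hσ.prodMk hd)) (hd hS)
  exact h1.mul (hB.comp ht)

/-- Tonelli -/
theorem ton {G : ℝ → ℝ → ENNReal} (hG : Measurable (fun p : ℝ × ℝ => G p.1 p.2)) {S : Set ℝ}
    (hS : MeasurableSet S) {B : ℝ → ENNReal} (hB : Measurable B) (a b R : ℝ) :
    ∫⁻ t : ℝ, ∫⁻ σ in Icc a b, ∫⁻ τ in Icc (-R) R,
        S.indicator (fun v => G σ v) (t - τ) * B t =
      ∫⁻ τ in Icc (-R) R, ∫⁻ σ in Icc a b, ∫⁻ v in S, G σ v * B (v + τ) := by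
  have s1 : ∫⁻ t : ℝ, ∫⁻ σ in Icc a b, ∫⁻ τ in Icc (-R) R,
      S.indicator (fun v => G σ v) (t - τ) * B t =
      ∫⁻ σ in Icc a b, ∫⁻ t : ℝ, ∫⁻ τ in Icc (-R) R,
      S.indicator (fun v => G σ v) (t - τ) * B t := by
    refine lintegral_lintegral_swap ?_
    have h8 : Measurable (fun p : (ℝ × ℝ) × ℝ =>
        S.indicator (fun v => G p.1.2 v) (p.1.1 - p.2) * B p.1.1) :=
      J_meas hG hS hB (measurable_fst.comp measurable_fst) (measurable_snd.comp measurable_fst)
        measurable_snd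
    exact (Measurable.lintegral_prod_right' h8).aemeasurable
  have s2 : ∀ σ : ℝ, ∫⁻ t : ℝ, ∫⁻ τ in Icc (-R) R,
      S.indicator (fun v => G σ v) (t - τ) * B t =
      ∫⁻ τ in Icc (-R) R, ∫⁻ t : ℝ, S.indicator (fun v => G σ v) (t - τ) * B t := by
    intro σ
    refine lintegral_lintegral_swap ?_
    have h8 : Measurable (fun p : ℝ × ℝ =>
        S.indicator (fun v => G σ v) (p.1 - p.2) * B p.1) :=
      J_meas hG hS hB measurable_fst (measurable_const (a := σ)) measurable_snd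
    exact h8.aemeasurable
  have s3 : ∀ σ τ : ℝ, ∫⁻ t : ℝ, S.indicator (fun v => G σ v) (t - τ) * B t =
      ∫⁻ v in S, G σ v * B (v + τ) := by
    intro σ τ
    rw [← lintegral_indicator hS, ← lintegral_add_right_eq_self (μ := volume)
      (fun t : ℝ => S.indicator (fun v => G σ v) (t - τ) * B t) τ]
    refine lintegral_congr fun v => ?_
    rw [add_sub_cancel_right]
    by_cases hv : v ∈ S
    · rw [Set.indicator_of_mem hv, Set.indicator_of_mem hv]
    · rw [Set.indicator_of_notMem hv, Set.indicator_of_notMem hv, zero_mul]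
  have s4 : ∫⁻ σ in Icc a b, ∫⁻ τ in Icc (-R) R, ∫⁻ v in S, G σ v * B (v + τ) =
      ∫⁻ τ in Icc (-R) R, ∫⁻ σ in Icc a b, ∫⁻ v in S, G σ v * B (v + τ) := by
    refine lintegral_lintegral_swap ?_
    have h8 : Measurable (fun p : (ℝ × ℝ) × ℝ => G p.1.1 p.2 * B (p.2 + p.1.2)) := by
      refine Measurable.mul ?_ ?_
      · exact hG.comp ((measurable_fst.comp measurable_fst).prodMk measurable_snd)
      · exact hB.comp (measurable_snd.add (measurable_snd.comp measurable_fst))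
    exact (Measurable.lintegral_prod_right' h8).aemeasurable
  rw [s1]
  simp_rw [s2, s3]
  exact s4

end G2

/-- **G2a.** -/
theorem iG2a : S_G2a := by
  intro f c r a b t R hr hm hf ha hb hR
  have hgm : Measurable (fun z : ℂ => ENNReal.ofReal (‖f z‖ ^ 2)) :=
    (hm.norm.pow_const 2).ennreal_ofReal
  have h1 := G2.ball_l hr hm hf
  have h2 := G2.ball_rect (c := c) (r := r) (a := a) (b := b) (t1 := t - R) (t2 := t + R) hgm
    (fun z hz => by
      rw [Metric.mem_ball, dist_eq_norm] at hz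
      have h1 := (Complex.abs_re_le_norm (z - c)).trans_lt hz
      have h2 := (Complex.abs_im_le_norm (z - c)).trans_lt hz
      rw [Complex.sub_re, abs_lt] at h1
      rw [Complex.sub_im, abs_lt] at h2
      have h3 := abs_le.1 (le_refl |t - c.im|)
      refine ⟨?_, ?_, ?_, ?_⟩ <;> linarith [h1.1, h1.2, h2.1, h2.2, h3.1, h3.2])
  have h3 := h1.trans h2
  have hp : 0 < Real.pi * r ^ 2 := by positivity
  have h4 : ENNReal.ofReal (‖f c‖ ^ 2) = ENNReal.ofReal (1 / (Real.pi * r ^ 2)) *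
      ENNReal.ofReal (Real.pi * r ^ 2 * ‖f c‖ ^ 2) := by
    rw [← ENNReal.ofReal_mul (by positivity)]
    congr 1
    field_simp
  rw [h4]
  exact mul_le_mul_right h3 _

/-- **G2.** -/
theorem iG2 : S_G2 := by
  intro f Z E S B r W a b hr hm hBm hE hS hZ hEZ hES
  set R : ℝ := W + r with hRdef
  have hgm : Measurable (fun z : ℂ => ENNReal.ofReal (‖f z‖ ^ 2)) :=
    (hm.norm.pow_const 2).ennreal_ofReal
  set G : ℝ → ℝ → ENNReal := fun σ v => ENNReal.ofReal (‖f ((σ : ℂ) + (v : ℂ) * Complex.I)‖ ^ 2)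
    with hG
  have hGm2 : Measurable (fun p : ℝ × ℝ => G p.1 p.2) := by
    refine hgm.comp ?_
    have : Continuous (fun p : ℝ × ℝ => (p.1 : ℂ) + (p.2 : ℂ) * Complex.I) := by fun_prop
    exact this.measurable
  have hGm1 : ∀ σ : ℝ, Measurable (G σ) := fun σ => hGm2.comp (measurable_const.prodMk measurable_id)
  set K : ENNReal := ENNReal.ofReal (1 / (Real.pi * r ^ 2)) with hK
  have hKtop : K ≠ ⊤ := ENNReal.ofReal_ne_top
  -- pointwise
  have hpt : ∀ t ∈ E, B t ≤ K * ∫⁻ σ in Icc a b, ∫⁻ τ in Icc (-R) R,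
      S.indicator (fun v => G σ v) (t - τ) * B t := by
    intro t ht
    obtain ⟨ρ, hρ, hρt⟩ := hEZ t ht
    obtain ⟨h1, h2, h3, h4⟩ := hZ ρ hρ
    have h5 := iG2a f ρ r a b t R hr hm h3 h1 h2 (by rw [hRdef]; linarith)
    have h6 : (1 : ENNReal) ≤ ENNReal.ofReal (‖f ρ‖ ^ 2) := by
      rw [← ENNReal.ofReal_one]
      exact ENNReal.ofReal_le_ofReal (one_le_pow₀ h4)
    have h7 : ∀ σ : ℝ, ∫⁻ v in Icc (t - R) (t + R), G σ v =
        ∫⁻ τ in Icc (-R) R, S.indicator (fun v => G σ v) (t - τ) := by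
      intro σ
      have e1 : ∫⁻ v in Icc (t - R) (t + R), G σ v =
          ∫⁻ v in Icc (t - R) (t + R), S.indicator (fun v => G σ v) v := by
        refine setLIntegral_congr_fun measurableSet_Icc fun v hv => ?_
        rw [Set.indicator_of_mem]
        refine hES t ht v ?_
        rw [abs_le]
        constructor <;> linarith [hv.1, hv.2]
      rw [e1, ← lintegral_indicator measurableSet_Icc, ← lintegral_indicator measurableSet_Icc,
        ← lintegral_sub_left_eq_self (μ := volume) _ t]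
      refine lintegral_congr fun τ => ?_
      by_cases hτ : τ ∈ Icc (-R) R
      · rw [Set.indicator_of_mem hτ, Set.indicator_of_mem]
        exact ⟨by linarith [hτ.2], by linarith [hτ.1]⟩
      · rw [Set.indicator_of_notMem hτ, Set.indicator_of_notMem]
        intro h
        exact hτ ⟨by linarith [h.2], by linarith [h.1]⟩
    calc B t = 1 * B t := (one_mul _).symm
      _ ≤ (K * ∫⁻ σ in Icc a b, ∫⁻ v in Icc (t - R) (t + R), G σ v) * B t := by
          gcongr
          exact h6.trans h5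
      _ = K * ((∫⁻ σ in Icc a b, ∫⁻ τ in Icc (-R) R,
            S.indicator (fun v => G σ v) (t - τ)) * B t) := by
          rw [mul_assoc]
          congr 2
          refine lintegral_congr fun σ => h7 σ
      _ ≤ K * ∫⁻ σ in Icc a b, ∫⁻ τ in Icc (-R) R,
            S.indicator (fun v => G σ v) (t - τ) * B t := by
          gcongr
          refine (lintegral_mul_const_le _ _).trans (lintegral_mono fun σ => ?_)
          exact lintegral_mul_const_le _ _
  calc ∫⁻ t in E, B t ≤ ∫⁻ t in E, K * ∫⁻ σ in Icc a b, ∫⁻ τ in Icc (-R) R,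
        S.indicator (fun v => G σ v) (t - τ) * B t := setLIntegral_mono' hE hpt
    _ ≤ ∫⁻ t : ℝ, K * ∫⁻ σ in Icc a b, ∫⁻ τ in Icc (-R) R,
        S.indicator (fun v => G σ v) (t - τ) * B t := setLIntegral_le_lintegral _ _
    _ = K * ∫⁻ t : ℝ, ∫⁻ σ in Icc a b, ∫⁻ τ in Icc (-R) R,
        S.indicator (fun v => G σ v) (t - τ) * B t := lintegral_const_mul' _ _ hKtop
    _ = K * ∫⁻ τ in Icc (-R) R, ∫⁻ σ in Icc a b, ∫⁻ v in S, G σ v * B (v + τ) := by
        rw [G2.ton hGm2 hS hBm a b R]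
    _ = _ := rfl

end Pool.Agent.Work.MP_56b8f5_nt.HZG
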