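import Pool.Agent.Work.MP_56b8f5_nt.HZ.StmtsC

/-!
MP_56b8f5_nt, block HZ, item GGm: the set of good heights is closed, hence measurable.
-/

set_option autoImplicit false

open MeasureTheory Set Filter Topology

noncomputable section

namespace Pool.Agent.Work.MP_56b8f5_nt.HZ

theorem GGm_pf : S_GGm := by
  intro T A C hT
  have hL : 0 ≤ Real.log T := Real.log_nonneg hT
  have h1 : IsClosed {t : ℝ | T ≤ t} := isClosed_le continuous_const continuous_id
  have h2 : IsClosed {t : ℝ | t ≤ 2 * T} := isClosed_le continuous_id continuous_const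
  have h3 : IsClosed {t : ℝ | ∀ ρ : ℂ, riemannZeta ρ = 0 → 0 < ρ.re → ρ.re < 1 →
      (ρ.re - 1 / 2) * Real.log T ≤ A + C * Real.log (1 + |ρ.im - t| * Real.log T)} := by
    have h4 : ∀ ρ : ℂ, IsClosed {t : ℝ | (ρ.re - 1 / 2) * Real.log T ≤
        A + C * Real.log (1 + |ρ.im - t| * Real.log T)} := by
      intro ρ
      refine isClosed_le continuous_const (continuous_const.add (continuous_const.mul ?_))
      refine Continuous.log (by fun_prop) fun t => ?_
      have h5 : 0 ≤ |ρ.im - t| * Real.log T := mul_nonneg (abs_nonneg _) hL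
      exact (by linarith : 0 < 1 + |ρ.im - t| * Real.log T).ne'
    simp only [Set.ofPred_forall]
    exact isClosed_iInter fun ρ => isClosed_iInter fun _ => isClosed_iInter fun _ =>
      isClosed_iInter fun _ => h4 ρ
  exact (h1.inter (h2.inter h3)).measurableSet

end Pool.Agent.Work.MP_56b8f5_nt.HZ
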