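import Pool.Agent.Work.MP_56b8f5_nt.HZ.StmtsA

/-!
MP_56b8f5_nt, block HZ, item Gr: Green's formula for `log |f|`.
-/

set_option autoImplicit false

open MeasureTheory Set Filter Topology

noncomputable section

namespace Pool.Agent.Work.MP_56b8f5_nt.HZ

open Pool.Agent.Work.MP_56b8f5_nt.EM Pool.Agent.Work.MP_56b8f5_nt.WM Pool.Agent.Work.MP_56b8f5_nt.SH

namespace I_Gr

theorem dd_zero {b₁ b₂ : ℝ → ℝ} (g : ℂ → ℝ) (q : ℂ → ℂ) {z : ℂ}
    (h : ¬ (z.re ∈ tsupport b₁ ∧ z.im ∈ tsupport b₂)) : DD b₁ b₂ g q z = 0 := by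
  have key : ∀ (b : ℝ → ℝ) (x : ℝ), x ∉ tsupport b →
      b x = 0 ∧ deriv b x = 0 ∧ deriv (deriv b) x = 0 := by
    intro b x hx
    have h1 : tsupport (deriv b) ⊆ tsupport b :=
      closure_minimal support_deriv_subset (isClosed_tsupport b)
    refine ⟨image_eq_zero_of_notMem_tsupport hx, ?_, ?_⟩
    · by_contra h
      exact hx (support_deriv_subset h)
    · by_contra h
      exact hx (h1 (support_deriv_subset h))
  rcases not_and_or.1 h with h | h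
  · obtain ⟨h1, h2, h3⟩ := key b₁ _ h
    simp [DD, h1, h2, h3]
  · obtain ⟨h1, h2, h3⟩ := key b₂ _ h
    simp [DD, h1, h2, h3]

theorem asm {f : ℂ → ℂ} {R : ℝ} {Z : Finset ℂ} {m : ℂ → ℝ} {G : ℂ → ℂ} {W : ℂ → ℝ} {c : ℂ → ℝ}
    {c₀ : ℝ} (hW : ∀ z, W z ≠ 0 → ‖z‖ < R)
    (hlog : ∀ z, ‖z‖ < R → z ∉ Z →
      Real.log ‖f z‖ = ∑ ρ ∈ Z, m ρ * Real.log ‖z - ρ‖ + (G z).re)
    (hc : ∀ ρ ∈ Z, Integrable (fun z => Real.log ‖z - ρ‖ * W z) ∧
      ∫ z, Real.log ‖z - ρ‖ * W z = c ρ)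
    (hG : Integrable (fun z => (G z).re * W z) ∧ ∫ z, (G z).re * W z = c₀) :
    Integrable (fun z => Real.log ‖f z‖ * W z) ∧
      ∫ z, Real.log ‖f z‖ * W z = ∑ ρ ∈ Z, m ρ * c ρ + c₀ := by
  have hae : (fun z => Real.log ‖f z‖ * W z) =ᵐ[volume]
      fun z => ∑ ρ ∈ Z, m ρ * (Real.log ‖z - ρ‖ * W z) + (G z).re * W z := by
    have h0 : ∀ᵐ z : ℂ, z ∉ (Z : Set ℂ) :=
      compl_mem_ae_iff.2 (Z.finite_toSet.measure_zero volume)
    filter_upwards [h0] with z hz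
    by_cases hWz : W z = 0
    · simp [hWz]
    · rw [hlog z (hW z hWz) (by simpa using hz), add_mul, Finset.sum_mul]
      congr 1
      exact Finset.sum_congr rfl fun ρ _ => mul_assoc _ _ _
  have hint : Integrable (fun z => ∑ ρ ∈ Z, m ρ * (Real.log ‖z - ρ‖ * W z)) :=
    integrable_finsetSum _ fun ρ hρ => (hc ρ hρ).1.const_mul _
  refine ⟨(hint.add hG.1).congr hae.symm, ?_⟩
  rw [integral_congr_ae hae, integral_add hint hG.1,
    integral_finsetSum _ fun ρ hρ => (hc ρ hρ).1.const_mul _, hG.2]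
  congr 1
  exact Finset.sum_congr rfl fun ρ hρ => by rw [integral_const_mul, (hc ρ hρ).2]

/-- `log ‖z - ρ‖` is the real part of an analytic function on the ball if `ρ` is outside. -/
theorem outer {R : ℝ} {ρ : ℂ} (hR : 0 < R) (hρ : R ≤ ‖ρ‖) : ∃ G : ℂ → ℂ,
    DifferentiableOn ℂ G (Metric.ball 0 R) ∧ ∀ z : ℂ, ‖z‖ < R → Real.log ‖z - ρ‖ = (G z).re := by
  have hρ0 : ρ ≠ 0 := by
    intro h
    rw [h, norm_zero] at hρ
    linarith
  have hn : 0 < ‖ρ‖ := norm_pos_iff.2 hρ0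
  have hslit : ∀ z : ℂ, ‖z‖ < R → 1 - z / ρ ∈ Complex.slitPlane := by
    intro z hz
    left
    have h1 : ‖z / ρ‖ < 1 := by
      rw [norm_div, div_lt_one hn]
      exact hz.trans_le hρ
    have h2 := (Complex.re_le_norm (z / ρ)).trans_lt h1
    rw [Complex.sub_re, Complex.one_re]
    linarith
  refine ⟨fun z => (Real.log ‖ρ‖ : ℂ) + Complex.log (1 - z / ρ), ?_, ?_⟩
  · intro z hz
    have hz' : ‖z‖ < R := by simpa using hz
    have h1 : DifferentiableAt ℂ (fun z : ℂ => 1 - z / ρ) z :=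
      (differentiableAt_const _).sub (differentiableAt_id.div_const ρ)
    exact ((differentiableAt_const _).add (h1.clog (hslit z hz'))).differentiableWithinAt
  · intro z hz
    have h0 : (1 - z / ρ) ≠ 0 := Complex.slitPlane_ne_zero (hslit z hz)
    have h1 : z - ρ = -(ρ * (1 - z / ρ)) := by
      field_simp
      ring
    rw [h1, norm_neg, norm_mul, Real.log_mul hn.ne' (norm_ne_zero_iff.2 h0), Complex.add_re,
      Complex.ofReal_re, Complex.log_re]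

end I_Gr

open I_Gr in
theorem Gr_pf (hGrB : S_GrB) (hGrC : S_GrC) (hGrF : S_GrF) : S_Gr := by
  intro R f hR hf hf0 Z hZ b₁ b₂ hb₁ hb₂ hsupp
  obtain ⟨G, hG, hGlog⟩ := hGrF R f hR hf hf0 Z hZ
  have hlog : ∀ z, ‖z‖ < R → z ∉ Z →
      Real.log ‖f z‖ = ∑ ρ ∈ Z, (analyticOrderNatAt f ρ : ℝ) * Real.log ‖z - ρ‖ + (G z).re := by
    intro z hz hzZ
    refine hGlog z hz fun h => hzZ ((hZ z).2 ⟨h, hz.le⟩)
  have hW : ∀ (g : ℂ → ℝ) (q : ℂ → ℂ) (z : ℂ), DD b₁ b₂ g q z ≠ 0 → ‖z‖ < R := by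
    intro g q z h
    by_contra hz
    exact h (dd_zero g q fun h' => hz (hsupp z h'.1 h'.2))
  refine ⟨fun H hH => ?_, fun p hp hfp => ?_⟩
  · have hHo : DifferentiableOn ℂ H (Metric.ball 0 R) := hH.differentiableOn
    obtain ⟨h1, h2, -⟩ := hGrB R hR b₁ b₂ hb₁ hb₂ hsupp G H hG hHo
    have hc : ∀ ρ ∈ Z, Integrable (fun z => Real.log ‖z - ρ‖ *
        DD b₁ b₂ (fun z => (H z).re) (deriv H) z) ∧
        ∫ z, Real.log ‖z - ρ‖ * DD b₁ b₂ (fun z => (H z).re) (deriv H) z =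
          2 * Real.pi * (b₁ ρ.re * b₂ ρ.im * (H ρ).re) := by
      intro ρ hρ
      rcases lt_or_ge ‖ρ‖ R with hρR | hρR
      · exact h2 ρ hρR
      · obtain ⟨G', hG', hG'log⟩ := outer hR hρR
        obtain ⟨⟨h3, h4⟩, -⟩ := hGrB R hR b₁ b₂ hb₁ hb₂ hsupp G' H hG' hHo
        have he : (fun z => Real.log ‖z - ρ‖ * DD b₁ b₂ (fun z => (H z).re) (deriv H) z) =
            fun z => (G' z).re * DD b₁ b₂ (fun z => (H z).re) (deriv H) z := by
          funext z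
          by_cases h : DD b₁ b₂ (fun z => (H z).re) (deriv H) z = 0
          · rw [h, mul_zero, mul_zero]
          · rw [hG'log z (hW _ _ z h)]
        have hb : b₁ ρ.re * b₂ ρ.im = 0 := by
          by_contra h
          have h5 := left_ne_zero_of_mul h
          have h6 := right_ne_zero_of_mul h
          exact absurd (hsupp ρ (subset_tsupport _ h5) (subset_tsupport _ h6)) (not_lt.2 hρR)
        rw [he, hb, zero_mul, mul_zero]
        exact ⟨h3, h4⟩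
    obtain ⟨h5, h6⟩ := asm (m := fun ρ => (analyticOrderNatAt f ρ : ℝ)) (hW _ _) hlog hc h1
    refine ⟨h5, h6.trans ?_⟩
    rw [add_zero, Finset.mul_sum]
    exact Finset.sum_congr rfl fun ρ _ => by ring
  · obtain ⟨-, -, h1⟩ := hGrB R hR b₁ b₂ hb₁ hb₂ hsupp G G hG hG
    have hc : ∀ ρ ∈ Z, Integrable (fun z => Real.log ‖z - ρ‖ *
        DD b₁ b₂ (fun z => Real.log ‖z - p‖) (fun z => 1 / (z - p)) z) ∧
        ∫ z, Real.log ‖z - ρ‖ * DD b₁ b₂ (fun z => Real.log ‖z - p‖) (fun z => 1 / (z - p)) z =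
          2 * Real.pi * (b₁ ρ.re * b₂ ρ.im * Real.log ‖ρ - p‖ -
            b₁ p.re * b₂ p.im * Real.log ‖p - ρ‖) := by
      intro ρ hρ
      have hne : ρ ≠ p := by
        rintro rfl
        exact hfp ((hZ ρ).1 hρ).1
      exact hGrC b₁ b₂ hb₁ hb₂ p ρ hne
    obtain ⟨h5, h6⟩ := asm (m := fun ρ => (analyticOrderNatAt f ρ : ℝ)) (hW _ _) hlog hc (h1 p hp)
    refine ⟨h5, h6.trans ?_⟩
    rw [hGlog p hp hfp]
    have h7 : ∑ ρ ∈ Z, (analyticOrderNatAt f ρ : ℝ) *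
        (2 * Real.pi * (b₁ ρ.re * b₂ ρ.im * Real.log ‖ρ - p‖ -
          b₁ p.re * b₂ p.im * Real.log ‖p - ρ‖)) =
        2 * Real.pi * (∑ ρ ∈ Z, (analyticOrderNatAt f ρ : ℝ) *
          (b₁ ρ.re * b₂ ρ.im * Real.log ‖ρ - p‖)) -
        2 * Real.pi * (b₁ p.re * b₂ p.im *
          ∑ ρ ∈ Z, (analyticOrderNatAt f ρ : ℝ) * Real.log ‖p - ρ‖) := by
      rw [Finset.mul_sum, Finset.mul_sum, Finset.mul_sum, ← Finset.sum_sub_distrib]
      exact Finset.sum_congr rfl fun ρ _ => by ring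
    rw [h7]
    ring

end Pool.Agent.Work.MP_56b8f5_nt.HZ
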