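import Pool.Agent.Work.MP_56b8f5_nt.HZ.StmtsA

/-! Block HZ, item GrA: approximate identity in the plane. -/

set_option autoImplicit false

open MeasureTheory Set Filter Topology

noncomputable section

namespace Pool.Agent.Work.MP_56b8f5_nt.HZ

namespace I_GrA

/-- The kernel. -/
def kr (w : ℂ) : ℝ := 2 / (‖w‖ ^ 2 + 1) ^ 2

lemma kr_nonneg (w : ℂ) : 0 ≤ kr w := by unfold kr; positivity

lemma integrable_kr : Integrable kr := by
  have h1 := (integrable_rpow_neg_one_add_norm_sq (E := ℂ) (μ := (volume : Measure ℂ)) (r := 4)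
    (by rw [Complex.finrank_real_complex]; norm_num)).const_mul 2
  refine h1.congr (Filter.Eventually.of_forall fun w => ?_)
  have h2 : (0 : ℝ) ≤ 1 + ‖w‖ ^ 2 := by positivity
  show 2 * (1 + ‖w‖ ^ 2) ^ (-(4 : ℝ) / 2) = 2 / (‖w‖ ^ 2 + 1) ^ 2
  rw [show (-(4 : ℝ) / 2) = -((2 : ℕ) : ℝ) by norm_num, Real.rpow_neg h2, Real.rpow_natCast,
    add_comm, div_eq_mul_inv]

lemma integral_half : ∫ y in Ioi (0 : ℝ), y * (2 / (y ^ 2 + 1) ^ 2) = 1 := by
  have h1 : ∀ y ∈ Ici (0 : ℝ), HasDerivAt (fun y : ℝ => -(1 / (y ^ 2 + 1)))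
      (y * (2 / (y ^ 2 + 1) ^ 2)) y := by
    intro y _
    have h2 : HasDerivAt (fun y : ℝ => y ^ 2 + 1) (2 * y) y := by
      simpa using (hasDerivAt_pow 2 y).add_const 1
    have h3 : (y ^ 2 + 1) ≠ 0 := by positivity
    have h4 := (h2.inv h3).neg
    have e1 : (fun y : ℝ => -(1 / (y ^ 2 + 1))) = fun y : ℝ => -((y ^ 2 + 1)⁻¹) := by
      funext y
      rw [one_div]
    rw [e1]
    refine h4.congr_deriv ?_
    field_simp
  have h2 : Tendsto (fun y : ℝ => -(1 / (y ^ 2 + 1))) atTop (𝓝 0) := by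
    have h3 : Tendsto (fun y : ℝ => y ^ 2 + 1) atTop atTop :=
      tendsto_atTop_add_const_right _ _ (tendsto_pow_atTop (by norm_num))
    have h4 := h3.inv_tendsto_atTop
    have h5 := h4.neg
    simpa [one_div] using h5
  have h3 := integral_Ioi_of_hasDerivAt_of_nonneg (g := fun y : ℝ => -(1 / (y ^ 2 + 1)))
    (g' := fun y : ℝ => y * (2 / (y ^ 2 + 1) ^ 2)) (a := 0) (l := 0)
    (h1 0 (by simp)).continuousAt.continuousWithinAt (fun y hy => h1 y (mem_Ici.2 (le_of_lt (mem_Ioi.1 hy))))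
    (fun y hy => by have : (0 : ℝ) < y := hy; positivity) h2
  rw [h3]
  norm_num

lemma integral_kr : ∫ w, kr w = 2 * Real.pi := by
  have h1 := integral_fun_norm_addHaar (volume : Measure ℂ) (fun y : ℝ => 2 / (y ^ 2 + 1) ^ 2)
  have h2 : (∫ w : ℂ, kr w) = ∫ x : ℂ, 2 / (‖x‖ ^ 2 + 1) ^ 2 := rfl
  rw [h2, h1, Complex.finrank_real_complex]
  have h3 : (volume : Measure ℂ).real (Metric.ball 0 1) = Real.pi := by
    simp [Measure.real, Complex.volume_ball]
  rw [h3]
  have h4 : (∫ y in Ioi (0 : ℝ), y ^ (2 - 1) • (2 / (y ^ 2 + 1) ^ 2)) = 1 := by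
    simpa using integral_half
  rw [h4]
  simp

end I_GrA

open I_GrA in
theorem GrA_pf : S_GrA := by
  intro F p hF hFs
  obtain ⟨C, hC⟩ := hF.bounded_above_of_compact_support hFs
  have h1 : ∀ ε : ℝ, 0 < ε → ∫ z, F z * De ε (z - p) = ∫ w, F (ε • w + p) * kr w := by
    intro ε hε
    have e1 : ∫ z, F z * De ε (z - p) = ∫ z, F (z + p) * De ε z := by
      rw [← integral_add_right_eq_self (fun z => F z * De ε (z - p)) p]
      simp
    rw [e1]
    have e2 := Measure.integral_comp_smul (volume : Measure ℂ) (fun z => F (z + p) * De ε z) ε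
    rw [Complex.finrank_real_complex] at e2
    have e3 : |(ε ^ 2)⁻¹| = (ε ^ 2)⁻¹ := abs_of_pos (by positivity)
    rw [e3, smul_eq_mul] at e2
    have e4 : ∫ z, F (z + p) * De ε z = ε ^ 2 * ∫ w, F (ε • w + p) * De ε (ε • w) := by
      rw [e2, ← mul_assoc, mul_inv_cancel₀ (by positivity), one_mul]
    rw [e4, ← integral_const_mul]
    refine integral_congr_ae (Filter.Eventually.of_forall fun w => ?_)
    show ε ^ 2 * (F (ε • w + p) * De ε (ε • w)) = F (ε • w + p) * kr w
    have e5 : ε ^ 2 * De ε (ε • w) = kr w := by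
      unfold De kr
      rw [norm_smul, Real.norm_eq_abs, mul_pow, sq_abs]
      field_simp
    rw [← e5]
    ring
  have h2 : Tendsto (fun ε : ℝ => ∫ w, F (ε • w + p) * kr w) (𝓝[>] 0)
      (𝓝 (∫ w, F p * kr w)) := by
    refine tendsto_integral_filter_of_dominated_convergence (fun w => C * kr w) ?_ ?_ ?_ ?_
    · refine Filter.Eventually.of_forall fun ε => ?_
      exact ((hF.comp ((continuous_const_smul ε).add continuous_const)).aestronglyMeasurable).mul
        integrable_kr.aestronglyMeasurable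
    · refine Filter.Eventually.of_forall fun ε => Filter.Eventually.of_forall fun w => ?_
      rw [norm_mul, Real.norm_of_nonneg (kr_nonneg w)]
      exact mul_le_mul_of_nonneg_right (hC _) (kr_nonneg w)
    · exact integrable_kr.const_mul C
    · refine Filter.Eventually.of_forall fun w => ?_
      refine Tendsto.mul_const _ ?_
      have h3 : Tendsto (fun ε : ℝ => F (ε • w + p)) (𝓝 0) (𝓝 (F ((0 : ℝ) • w + p))) := by
        apply Continuous.tendsto
        exact hF.comp ((continuous_id.smul continuous_const).add continuous_const)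
      rw [zero_smul, zero_add] at h3
      exact h3.mono_left nhdsWithin_le_nhds
  rw [integral_const_mul, integral_kr, mul_comm] at h2
  refine h2.congr' ?_
  filter_upwards [self_mem_nhdsWithin] with ε hε
  exact (h1 ε hε).symm

end Pool.Agent.Work.MP_56b8f5_nt.HZ
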