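import Pool.Agent.Work.MP_56b8f5_nt.HZ.StmtsA

/-!
Block HZ, part (a), item GrB: bilinear Green identities.
-/

set_option autoImplicit false

open MeasureTheory Set Filter Topology

noncomputable section

namespace Pool.Agent.Work.MP_56b8f5_nt.HZ

open Pool.Agent.Work.MP_56b8f5_nt.EM Pool.Agent.Work.MP_56b8f5_nt.WM Pool.Agent.Work.MP_56b8f5_nt.SH

namespace I_GrB

/-! ### Continuous functions which vanish outside `K` -/

/-- Continuous and zero outside `K`. -/
structure CK (K : Set ℂ) (A : ℂ → ℝ) : Prop where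
  cont : Continuous A
  zero : ∀ z ∉ K, A z = 0

lemma CK.add {K : Set ℂ} {A B : ℂ → ℝ} (hA : CK K A) (hB : CK K B) :
    CK K fun z => A z + B z :=
  ⟨hA.cont.add hB.cont, fun z hz => by rw [hA.zero z hz, hB.zero z hz, add_zero]⟩

lemma CK.sub {K : Set ℂ} {A B : ℂ → ℝ} (hA : CK K A) (hB : CK K B) :
    CK K fun z => A z - B z :=
  ⟨hA.cont.sub hB.cont, fun z hz => by rw [hA.zero z hz, hB.zero z hz, sub_zero]⟩

lemma CK.const_mul {K : Set ℂ} {A : ℂ → ℝ} (c : ℝ) (hA : CK K A) : CK K fun z => c * A z :=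
  ⟨continuous_const.mul hA.cont, fun z hz => by rw [hA.zero z hz, mul_zero]⟩

lemma CK.mul_cont {K : Set ℂ} {A f : ℂ → ℝ} (hf : Continuous f) (hA : CK K A) :
    CK K fun z => f z * A z :=
  ⟨hf.mul hA.cont, fun z hz => by rw [hA.zero z hz, mul_zero]⟩

lemma CK.abs {K : Set ℂ} {A : ℂ → ℝ} (hA : CK K A) : CK K fun z => |A z| :=
  ⟨hA.cont.abs, fun z hz => by rw [hA.zero z hz, abs_zero]⟩

lemma CK.mul_on {K U : Set ℂ} {A u : ℂ → ℝ} (hK : IsClosed K) (hU : IsOpen U) (hKU : K ⊆ U)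
    (hu : ContinuousOn u U) (hA : CK K A) : CK K fun z => u z * A z := by
  refine ⟨continuous_iff_continuousAt.2 fun z => ?_, fun z hz => by rw [hA.zero z hz, mul_zero]⟩
  by_cases hz : z ∈ U
  · exact (hu.continuousAt (hU.mem_nhds hz)).mul hA.cont.continuousAt
  · have h1 : z ∈ Kᶜ := fun h => hz (hKU h)
    have h2 : (fun z => u z * A z) =ᶠ[𝓝 z] fun _ => 0 := by
      filter_upwards [hK.isOpen_compl.mem_nhds h1] with w hw
      rw [hA.zero w hw, mul_zero]
    exact (continuousAt_const (y := (0 : ℝ))).congr h2.symm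

lemma CK.hcs {K : Set ℂ} {A : ℂ → ℝ} (hK : IsCompact K) (hA : CK K A) : HasCompactSupport A :=
  HasCompactSupport.intro hK hA.zero

lemma CK.integrable {K : Set ℂ} {A : ℂ → ℝ} (hK : IsCompact K) (hA : CK K A) : Integrable A :=
  hA.cont.integrable_of_hasCompactSupport (hA.hcs hK)

/-! ### Local integrability -/

lemma inv_on_ball (r : ℝ) : IntegrableOn (fun z : ℂ => ‖z‖⁻¹) (Metric.ball 0 r) := by
  refine (integrableOn_fun_norm_addHaar (E := ℂ) volume (f := fun y : ℝ => y⁻¹) (r := r)).2 ?_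
  rw [Complex.finrank_real_complex]
  have h1 : IntegrableOn (fun _ : ℝ => (1 : ℝ)) (Ioo 0 r) := by
    refine integrableOn_const ?_ (by simp)
    rw [Real.volume_Ioo]
    exact ENNReal.ofReal_ne_top
  refine h1.congr_fun (fun y hy => ?_) measurableSet_Ioo
  have : y ≠ 0 := hy.1.ne'
  simp [this]

lemma inv_on_ball' (p : ℂ) (r : ℝ) :
    IntegrableOn (fun z : ℂ => ‖z - p‖⁻¹) (Metric.ball p r) := by
  have h1 : Integrable ((Metric.ball (0 : ℂ) r).indicator fun z : ℂ => ‖z‖⁻¹) :=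
    (inv_on_ball r).integrable_indicator measurableSet_ball
  have h2 := h1.comp_sub_right p
  rw [← integrable_indicator_iff measurableSet_ball]
  refine h2.congr (Eventually.of_forall fun z => ?_)
  by_cases hz : z ∈ Metric.ball p r
  · have hz' : z - p ∈ Metric.ball (0 : ℂ) r := by
      rw [mem_ball_zero_iff, ← dist_eq_norm]; exact hz
    simp only [indicator_of_mem hz, indicator_of_mem hz']
  · have hz' : z - p ∉ Metric.ball (0 : ℂ) r := by
      rw [mem_ball_zero_iff, ← dist_eq_norm]; exact hz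
    simp only [indicator_of_notMem hz, indicator_of_notMem hz']

lemma int_inv {K : Set ℂ} {A : ℂ → ℝ} (hK : IsCompact K) (hA : CK K A) (p : ℂ) :
    Integrable fun z => ‖z - p‖⁻¹ * |A z| := by
  obtain ⟨r, hr⟩ := hK.isBounded.subset_ball p
  obtain ⟨M, hM⟩ := (hA.cont.norm).bddAbove_range_of_hasCompactSupport (hA.hcs hK).norm
  have hM' : ∀ z, |A z| ≤ M := fun z => hM ⟨z, rfl⟩
  have h1 : Integrable ((Metric.ball p r).indicator fun z : ℂ => ‖z - p‖⁻¹ * M) :=
    (integrable_indicator_iff measurableSet_ball).2 ((inv_on_ball' p r).mul_const M)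
  refine h1.mono' ?_ (Eventually.of_forall fun z => ?_)
  · exact ((measurable_id.sub_const p).norm.inv.mul hA.cont.abs.measurable).aestronglyMeasurable
  · rw [norm_mul, norm_inv, norm_norm, Real.norm_eq_abs, abs_abs]
    by_cases hz : z ∈ Metric.ball p r
    · rw [indicator_of_mem hz]
      exact mul_le_mul_of_nonneg_left (hM' z) (inv_nonneg.2 (norm_nonneg _))
    · rw [indicator_of_notMem hz, hA.zero z (fun h => hz (hr h)), abs_zero, mul_zero]

lemma log_le (x : ℝ) (hx : 0 ≤ x) : |Real.log x| ≤ x⁻¹ + x := by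
  rcases hx.eq_or_lt with h | h
  · rw [← h]; simp
  · have h1 := Real.log_le_sub_one_of_pos h
    have h2 := Real.log_le_sub_one_of_pos (inv_pos.2 h)
    rw [Real.log_inv] at h2
    have h3 : 0 < x⁻¹ := inv_pos.2 h
    rw [abs_le]
    constructor <;> linarith

lemma int_log {K : Set ℂ} {A : ℂ → ℝ} (hK : IsCompact K) (hA : CK K A) (p : ℂ) :
    Integrable fun z => |Real.log ‖z - p‖| * |A z| := by
  have h1 := int_inv hK hA p
  have h2 : CK K fun z => ‖z - p‖ * |A z| :=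
    CK.mul_cont ((continuous_id.sub continuous_const).norm) hA.abs
  refine (h1.add (h2.integrable hK)).mono' ?_ (Eventually.of_forall fun z => ?_)
  · exact (((measurable_id.sub_const p).norm.log.abs).mul
      hA.cont.abs.measurable).aestronglyMeasurable
  · rw [norm_mul, Real.norm_eq_abs, Real.norm_eq_abs, abs_abs, abs_abs, Pi.add_apply, ← add_mul]
    exact mul_le_mul_of_nonneg_right (log_le _ (norm_nonneg _)) (abs_nonneg _)

/-! ### The Laplacian -/

lemma L2_zero {F : ℂ → ℝ} {z : ℂ} (h : F =ᶠ[𝓝 z] fun _ => 0) : L2 F z = 0 := by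
  have h1 : ∀ v : ℂ, (fun w => lineDeriv ℝ F w v) =ᶠ[𝓝 z] fun _ => 0 := by
    intro v
    filter_upwards [eventually_eventually_nhds.2 h] with w hw
    have h2 : F =ᶠ[𝓝 w] fun _ => 0 := hw
    rw [h2.lineDeriv_eq]
    simp [lineDeriv]
  unfold L2
  rw [(h1 1).lineDeriv_eq, (h1 Complex.I).lineDeriv_eq]
  simp [lineDeriv]

lemma lineDeriv_sub (f : ℂ → ℝ) (p z v : ℂ) :
    lineDeriv ℝ (fun w => f (w - p)) z v = lineDeriv ℝ f (z - p) v := by
  unfold lineDeriv
  congr 1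
  funext t
  exact congrArg f (add_sub_right_comm z (t • v) p)

lemma L2_sub (f : ℂ → ℝ) (p z : ℂ) : L2 (fun w => f (w - p)) z = L2 f (z - p) := by
  unfold L2
  simp only [lineDeriv_sub f p]
  rw [lineDeriv_sub (fun w => lineDeriv ℝ f w 1) p, lineDeriv_sub (fun w => lineDeriv ℝ f w Complex.I) p]

/-! ### The cut-offs -/

/-- Continuous and zero outside the support of `b`. -/
structure Zb (b c : ℝ → ℝ) : Prop where
  cont : Continuous c
  zero : ∀ x ∉ tsupport b, c x = 0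

lemma deriv_smooth {b : ℝ → ℝ} (hb : ContDiff ℝ ((⊤ : ℕ∞) : WithTop ℕ∞) b) :
    ContDiff ℝ ((⊤ : ℕ∞) : WithTop ℕ∞) (deriv b) := by
  have h1 : ContDiff ℝ (((⊤ : ℕ∞) : WithTop ℕ∞) + 1) b := hb
  exact (contDiff_succ_iff_deriv.1 h1).2.2

lemma Zb.self {b : ℝ → ℝ} (hb : IsB b) : Zb b b :=
  ⟨hb.smooth.continuous, fun _ hx => image_eq_zero_of_notMem_tsupport hx⟩

lemma Zb.deriv1 {b : ℝ → ℝ} (hb : IsB b) : Zb b (deriv b) :=
  ⟨(deriv_smooth hb.smooth).continuous, fun x hx => by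
    by_contra h0
    exact hx (support_deriv_subset (show x ∈ Function.support (deriv b) from h0))⟩

lemma Zb.deriv2 {b : ℝ → ℝ} (hb : IsB b) : Zb b (deriv (deriv b)) :=
  ⟨(deriv_smooth (deriv_smooth hb.smooth)).continuous, fun x hx => by
    by_contra h0
    have h1 : x ∈ tsupport (deriv b) :=
      support_deriv_subset (show x ∈ Function.support (deriv (deriv b)) from h0)
    have h2 : tsupport (deriv b) ⊆ tsupport b :=
      closure_minimal support_deriv_subset (isClosed_tsupport b)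
    exact hx (h2 h1)⟩

/-- The compact set of the cut-offs. -/
def KK (b₁ b₂ : ℝ → ℝ) : Set ℂ := {z | z.re ∈ tsupport b₁ ∧ z.im ∈ tsupport b₂}

lemma KK_closed (b₁ b₂ : ℝ → ℝ) : IsClosed (KK b₁ b₂) :=
  ((isClosed_tsupport b₁).preimage Complex.continuous_re).inter
    ((isClosed_tsupport b₂).preimage Complex.continuous_im)

lemma prodZ {b₁ b₂ c₁ c₂ : ℝ → ℝ} (h₁ : Zb b₁ c₁) (h₂ : Zb b₂ c₂) :
    CK (KK b₁ b₂) fun z : ℂ => c₁ z.re * c₂ z.im := by
  refine ⟨(h₁.cont.comp Complex.continuous_re).mul (h₂.cont.comp Complex.continuous_im),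
    fun z hz => ?_⟩
  by_cases h : z.re ∈ tsupport b₁
  · have h' : z.im ∉ tsupport b₂ := fun h2 => hz ⟨h, h2⟩
    rw [h₂.zero _ h', mul_zero]
  · rw [h₁.zero _ h, zero_mul]

section main

variable {R : ℝ} {b₁ b₂ : ℝ → ℝ}

lemma KK_sub (hs : ∀ z : ℂ, z.re ∈ tsupport b₁ → z.im ∈ tsupport b₂ → ‖z‖ < R) :
    KK b₁ b₂ ⊆ Metric.ball 0 R := fun z hz => by
  rw [mem_ball_zero_iff]; exact hs z hz.1 hz.2

lemma KK_compact (hs : ∀ z : ℂ, z.re ∈ tsupport b₁ → z.im ∈ tsupport b₂ → ‖z‖ < R) :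
    IsCompact (KK b₁ b₂) :=
  Metric.isCompact_of_isClosed_isBounded (KK_closed b₁ b₂)
    (Metric.isBounded_ball.subset (KK_sub hs))

/-- The coefficients of `DD`. -/
def a0 (b₁ b₂ : ℝ → ℝ) (z : ℂ) : ℝ :=
  deriv (deriv b₁) z.re * b₂ z.im + b₁ z.re * deriv (deriv b₂) z.im

/-- see `a0` -/
def a1 (b₁ b₂ : ℝ → ℝ) (z : ℂ) : ℝ := deriv b₁ z.re * b₂ z.im

/-- see `a0` -/
def a2 (b₁ b₂ : ℝ → ℝ) (z : ℂ) : ℝ := b₁ z.re * deriv b₂ z.im

lemma DD_eq (b₁ b₂ : ℝ → ℝ) (g : ℂ → ℝ) (q : ℂ → ℂ) (z : ℂ) :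
    DD b₁ b₂ g q z = a0 b₁ b₂ z * g z +
      2 * (a1 b₁ b₂ z * (q z).re - a2 b₁ b₂ z * (q z).im) := rfl

lemma ck0 (hb₁ : IsB b₁) (hb₂ : IsB b₂) : CK (KK b₁ b₂) (a0 b₁ b₂) :=
  (prodZ (Zb.deriv2 hb₁) (Zb.self hb₂)).add (prodZ (Zb.self hb₁) (Zb.deriv2 hb₂))

lemma ck1 (hb₁ : IsB b₁) (hb₂ : IsB b₂) : CK (KK b₁ b₂) (a1 b₁ b₂) :=
  prodZ (Zb.deriv1 hb₁) (Zb.self hb₂)

lemma ck2 (hb₁ : IsB b₁) (hb₂ : IsB b₂) : CK (KK b₁ b₂) (a2 b₁ b₂) :=
  prodZ (Zb.self hb₁) (Zb.deriv1 hb₂)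

lemma ckb (hb₁ : IsB b₁) (hb₂ : IsB b₂) : CK (KK b₁ b₂) fun z => b₁ z.re * b₂ z.im :=
  prodZ (Zb.self hb₁) (Zb.self hb₂)

lemma DD_off (hb₁ : IsB b₁) (hb₂ : IsB b₂) (g : ℂ → ℝ) (q : ℂ → ℂ) {z : ℂ}
    (hz : z ∉ KK b₁ b₂) : DD b₁ b₂ g q z = 0 := by
  rw [DD_eq, (ck0 hb₁ hb₂).zero z hz, (ck1 hb₁ hb₂).zero z hz, (ck2 hb₁ hb₂).zero z hz]
  ring

/-- `L2 (b g) = DD + b L2 g` everywhere. -/
lemma L2_prod (hP : S_GrP) (hb₁ : IsB b₁) (hb₂ : IsB b₂)
    (hs : ∀ z : ℂ, z.re ∈ tsupport b₁ → z.im ∈ tsupport b₂ → ‖z‖ < R)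
    {g : ℂ → ℝ} {q : ℂ → ℂ} (hg : ContDiffOn ℝ 2 g (Metric.ball 0 R))
    (hq : ∀ z ∈ Metric.ball (0 : ℂ) R, ∀ h : ℂ, lineDeriv ℝ g z h = (q z * h).re) (z : ℂ) :
    L2 (fun z : ℂ => b₁ z.re * b₂ z.im * g z) z =
      DD b₁ b₂ g q z + b₁ z.re * b₂ z.im * L2 g z := by
  obtain ⟨-, -, -, h4, h5⟩ := hP b₁ b₂ hb₁ hb₂ (Metric.ball 0 R) Metric.isOpen_ball
    (fun z h1 h2 => KK_sub hs ⟨h1, h2⟩) g q hg hq
  by_cases hz : z ∈ Metric.ball (0 : ℂ) R
  · exact h4 z hz
  · have hz' : z ∉ KK b₁ b₂ := fun h => hz (KK_sub hs h)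
    rw [h5 z hz, (ckb hb₁ hb₂).zero z hz', zero_mul, add_zero]
    refine L2_zero ?_
    filter_upwards [(KK_closed b₁ b₂).isOpen_compl.mem_nhds hz'] with w hw
    rw [(ckb hb₁ hb₂).zero w hw, zero_mul]

end main

end I_GrB

open I_GrB in
/-- Item GrB. -/
theorem GrB_pf (hI : S_GrI) (hP : S_GrP) (hL : S_GrL) (hA : S_GrA) : S_GrB := by
  intro R hR b₁ b₂ hb₁ hb₂ hs G H hG hH
  obtain ⟨hL1, hL2, hL3, hL4⟩ := hL
  have hU : IsOpen (Metric.ball (0 : ℂ) R) := Metric.isOpen_ball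
  have hKc : IsCompact (KK b₁ b₂) := KK_compact hs
  have hKcl : IsClosed (KK b₁ b₂) := KK_closed b₁ b₂
  have hKU : KK b₁ b₂ ⊆ Metric.ball 0 R := KK_sub hs
  have hKU' : ∀ z : ℂ, z.re ∈ tsupport b₁ → z.im ∈ tsupport b₂ → z ∈ Metric.ball (0 : ℂ) R :=
    fun z h1 h2 => hKU ⟨h1, h2⟩
  obtain ⟨hG1, hG2, hG3⟩ := hL4 _ G hU hG
  obtain ⟨hH1, hH2, hH3⟩ := hL4 _ H hU hH
  have hGc : ContinuousOn (fun z => (G z).re) (Metric.ball 0 R) := hG1.continuousOn
  have hHc : ContinuousOn (fun z => (H z).re) (Metric.ball 0 R) := hH1.continuousOn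
  have hHd : ContinuousOn (deriv H) (Metric.ball 0 R) := (hH.deriv hU).continuousOn
  -- the product `b Re H`
  obtain ⟨hp1, hp2, hp3, -, -⟩ := hP b₁ b₂ hb₁ hb₂ _ hU hKU' _ _ hH1 hH2
  have hLH : ∀ z, L2 (fun z : ℂ => b₁ z.re * b₂ z.im * (H z).re) z =
      DD b₁ b₂ (fun z => (H z).re) (deriv H) z := by
    intro z
    rw [L2_prod hP hb₁ hb₂ hs hH1 hH2 z]
    by_cases hz : z ∈ Metric.ball (0 : ℂ) R
    · rw [hH3 z hz, mul_zero, add_zero]
    · rw [(ckb hb₁ hb₂).zero z (fun h => hz (hKU h)), zero_mul, add_zero]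
  refine ⟨?_, ?_, ?_⟩
  · -- (a)
    obtain ⟨i1, -, i3⟩ := hI _ hU _ _ hG1 hp1 hp2 hp3
    simp only [hLH] at i1 i3
    refine ⟨i1, i3.trans ?_⟩
    refine integral_eq_zero_of_ae (Eventually.of_forall fun z => ?_)
    by_cases hz : z ∈ Metric.ball (0 : ℂ) R
    · simp only [hG3 z hz, mul_zero, Pi.zero_apply]
    · simp only [(ckb hb₁ hb₂).zero z (fun h => hz (hKU h)), zero_mul, Pi.zero_apply]
  · -- (b)
    intro z₀ hz₀
    set D : ℂ → ℝ := DD b₁ b₂ (fun z => (H z).re) (deriv H) with hD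
    have hDck : CK (KK b₁ b₂) D := by
      have h0 := CK.mul_on hKcl hU hKU hHc (ck0 hb₁ hb₂)
      have h1 := CK.mul_on hKcl hU hKU (Complex.continuous_re.comp_continuousOn hHd) (ck1 hb₁ hb₂)
      have h2 := CK.mul_on hKcl hU hKU (Complex.continuous_im.comp_continuousOn hHd) (ck2 hb₁ hb₂)
      have h3 := h0.add (CK.const_mul 2 (h1.sub h2))
      have h4 : D = fun z => (H z).re * a0 b₁ b₂ z +
          2 * ((Complex.re ∘ deriv H) z * a1 b₁ b₂ z - (Complex.im ∘ deriv H) z * a2 b₁ b₂ z) := by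
        funext z
        rw [hD, DD_eq]
        simp only [Function.comp_apply]
        ring
      rw [h4]
      exact h3
    have hint : Integrable fun z => Real.log ‖z - z₀‖ * D z := by
      refine (int_log hKc hDck z₀).mono' ?_ (Eventually.of_forall fun z => ?_)
      · exact (((measurable_id.sub_const z₀).norm.log).mul
          hDck.cont.measurable).aestronglyMeasurable
      · rw [norm_mul, Real.norm_eq_abs, Real.norm_eq_abs]
    refine ⟨hint, ?_⟩
    have e1 : ∀ ε : ℝ, 0 < ε → ∫ z, Le ε (z - z₀) * D z =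
        ∫ z, (b₁ z.re * b₂ z.im * (H z).re) * De ε (z - z₀) := by
      intro ε hε
      obtain ⟨l1, l2, l3⟩ := hL1 ε hε
      have hu : ContDiffOn ℝ 2 (fun z => Le ε (z - z₀)) (Metric.ball 0 R) :=
        (l1.comp (contDiff_id.sub contDiff_const)).contDiffOn
      obtain ⟨-, -, i3⟩ := hI _ hU _ _ hu hp1 hp2 hp3
      simp only [hLH, L2_sub (Le ε) z₀, l3] at i3
      exact i3
    have t1 : Tendsto (fun ε : ℝ => ∫ z, Le ε (z - z₀) * D z) (𝓝[>] 0)
        (𝓝 (∫ z, Real.log ‖z - z₀‖ * D z)) := by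
      have hbd : Integrable fun z => |Real.log ‖z - z₀‖| * |D z| +
          Real.log (‖z - z₀‖ ^ 2 + 1) * |D z| := by
        refine (int_log hKc hDck z₀).add (CK.integrable hKc (CK.mul_cont ?_ hDck.abs))
        refine Continuous.log ?_ (fun z => by positivity)
        exact ((continuous_id.sub continuous_const).norm.pow 2).add continuous_const
      refine tendsto_integral_filter_of_dominated_convergence _ ?_ ?_ hbd ?_
      · filter_upwards [self_mem_nhdsWithin] with ε hε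
        have hc : Continuous fun z => Le ε (z - z₀) :=
          (hL1 ε hε).1.continuous.comp (continuous_id.sub continuous_const)
        exact (hc.mul hDck.cont).aestronglyMeasurable
      · have h1 : ∀ᶠ ε : ℝ in 𝓝[>] (0 : ℝ), ε ≤ 1 :=
          mem_nhdsWithin_of_mem_nhds (Iic_mem_nhds one_pos)
        filter_upwards [self_mem_nhdsWithin, h1] with ε hε hε1
        filter_upwards [compl_mem_ae_iff.2 (measure_singleton z₀)] with z hz
        have hz' : z - z₀ ≠ 0 := sub_ne_zero.2 hz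
        rw [norm_mul, Real.norm_eq_abs, Real.norm_eq_abs, ← add_mul]
        exact mul_le_mul_of_nonneg_right (hL3 ε (z - z₀) hε hε1 hz').1 (abs_nonneg _)
      · filter_upwards [compl_mem_ae_iff.2 (measure_singleton z₀)] with z hz
        have hz' : z - z₀ ≠ 0 := sub_ne_zero.2 hz
        exact (hL2 (z - z₀) hz').1.mul_const _
    have t2 : Tendsto (fun ε : ℝ => ∫ z, Le ε (z - z₀) * D z) (𝓝[>] 0)
        (𝓝 (2 * Real.pi * (b₁ z₀.re * b₂ z₀.im * (H z₀).re))) := by
      have t3 := hA (fun z => b₁ z.re * b₂ z.im * (H z).re) z₀ hp1.continuous hp2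
      refine t3.congr' ?_
      filter_upwards [self_mem_nhdsWithin] with ε hε
      exact (e1 ε hε).symm
    exact tendsto_nhds_unique t1 t2
  · -- (c)
    intro p hp
    have hbG : CK (KK b₁ b₂) fun z => (G z).re * (b₁ z.re * b₂ z.im) :=
      CK.mul_on hKcl hU hKU hGc (ckb hb₁ hb₂)
    have hA0 := CK.mul_on hKcl hU hKU hGc (ck0 hb₁ hb₂)
    have hA1 := CK.mul_on hKcl hU hKU hGc (ck1 hb₁ hb₂)
    have hA2 := CK.mul_on hKcl hU hKU hGc (ck2 hb₁ hb₂)
    have e1 : ∀ ε : ℝ, 0 < ε →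
        Integrable (fun z => (G z).re *
          DD b₁ b₂ (fun z => Le ε (z - p)) (fun z => Qe ε (z - p)) z) ∧
        ∫ z, (G z).re * DD b₁ b₂ (fun z => Le ε (z - p)) (fun z => Qe ε (z - p)) z =
          -∫ z, ((G z).re * (b₁ z.re * b₂ z.im)) * De ε (z - p) := by
      intro ε hε
      obtain ⟨l1, l2, l3⟩ := hL1 ε hε
      have hg : ContDiffOn ℝ 2 (fun z => Le ε (z - p)) (Metric.ball 0 R) :=
        (l1.comp (contDiff_id.sub contDiff_const)).contDiffOn
      have hq : ∀ z ∈ Metric.ball (0 : ℂ) R, ∀ h : ℂ,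
          lineDeriv ℝ (fun z => Le ε (z - p)) z h = (Qe ε (z - p) * h).re := by
        intro z _ h
        rw [lineDeriv_sub (Le ε) p z h, l2]
      obtain ⟨q1, q2, q3, -, -⟩ := hP b₁ b₂ hb₁ hb₂ _ hU hKU' _ (fun z => Qe ε (z - p)) hg hq
      obtain ⟨i1, -, i3⟩ := hI _ hU _ _ hG1 q1 q2 q3
      have hLL : ∀ z, L2 (fun z : ℂ => b₁ z.re * b₂ z.im * Le ε (z - p)) z =
          DD b₁ b₂ (fun z => Le ε (z - p)) (fun z => Qe ε (z - p)) z +
            b₁ z.re * b₂ z.im * De ε (z - p) := by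
        intro z
        rw [L2_prod hP hb₁ hb₂ hs (q := fun z => Qe ε (z - p)) hg hq z, L2_sub (Le ε) p z, l3]
      simp only [hLL] at i1 i3
      have hDe : Continuous fun z : ℂ => De ε (z - p) := by
        unfold De
        refine continuous_const.div ?_ (fun z => by positivity)
        exact ((((continuous_id.sub continuous_const).norm.pow 2).add continuous_const).pow 2)
      have j1 : Integrable fun z => ((G z).re * (b₁ z.re * b₂ z.im)) * De ε (z - p) := by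
        have := (CK.mul_cont hDe hbG).integrable hKc
        refine this.congr (Eventually.of_forall fun z => ?_)
        ring
      have j2 : Integrable (fun z => (G z).re *
          DD b₁ b₂ (fun z => Le ε (z - p)) (fun z => Qe ε (z - p)) z) := by
        refine (i1.sub j1).congr (Eventually.of_forall fun z => ?_)
        simp only [Pi.sub_apply]
        ring
      refine ⟨j2, ?_⟩
      have i4 : ∫ z, b₁ z.re * b₂ z.im * Le ε (z - p) * L2 (fun z => (G z).re) z = 0 := by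
        refine integral_eq_zero_of_ae (Eventually.of_forall fun z => ?_)
        by_cases hz : z ∈ Metric.ball (0 : ℂ) R
        · simp only [hG3 z hz, mul_zero, Pi.zero_apply]
        · simp only [(ckb hb₁ hb₂).zero z (fun h => hz (hKU h)), zero_mul, Pi.zero_apply]
      rw [i4] at i3
      have i5 : ∫ z, (G z).re * (DD b₁ b₂ (fun z => Le ε (z - p)) (fun z => Qe ε (z - p)) z +
            b₁ z.re * b₂ z.im * De ε (z - p)) =
          (∫ z, (G z).re * DD b₁ b₂ (fun z => Le ε (z - p)) (fun z => Qe ε (z - p)) z) +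
            ∫ z, ((G z).re * (b₁ z.re * b₂ z.im)) * De ε (z - p) := by
        rw [← integral_add j2 j1]
        refine integral_congr_ae (Eventually.of_forall fun z => ?_)
        ring
      rw [i5] at i3
      linarith
    have hmi : Measurable fun z : ℂ => (1 : ℂ) / (z - p) :=
      measurable_const.div (measurable_id.sub_const p)
    have hbd : Integrable fun z => (|Real.log ‖z - p‖| * |(G z).re * a0 b₁ b₂ z| +
        Real.log (‖z - p‖ ^ 2 + 1) * |(G z).re * a0 b₁ b₂ z|) +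
        2 * (‖z - p‖⁻¹ * |(G z).re * a1 b₁ b₂ z| + ‖z - p‖⁻¹ * |(G z).re * a2 b₁ b₂ z|) := by
      refine ((int_log hKc hA0 p).add (CK.integrable hKc (CK.mul_cont ?_ hA0.abs))).add
        (((int_inv hKc hA1 p).add (int_inv hKc hA2 p)).const_mul 2)
      refine Continuous.log ?_ (fun z => by positivity)
      exact ((continuous_id.sub continuous_const).norm.pow 2).add continuous_const
    have hle : ∀ (z : ℂ) (g : ℝ) (q : ℂ), |g| ≤ |Real.log ‖z - p‖| + Real.log (‖z - p‖ ^ 2 + 1) →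
        ‖q‖ ≤ 1 / ‖z - p‖ →
        ‖(G z).re * (a0 b₁ b₂ z * g + 2 * (a1 b₁ b₂ z * q.re - a2 b₁ b₂ z * q.im))‖ ≤
          (|Real.log ‖z - p‖| * |(G z).re * a0 b₁ b₂ z| +
            Real.log (‖z - p‖ ^ 2 + 1) * |(G z).re * a0 b₁ b₂ z|) +
          2 * (‖z - p‖⁻¹ * |(G z).re * a1 b₁ b₂ z| + ‖z - p‖⁻¹ * |(G z).re * a2 b₁ b₂ z|) := by
      intro z g q hg hq
      rw [one_div] at hq
      have h1 : |q.re| ≤ ‖z - p‖⁻¹ := (Complex.abs_re_le_norm q).trans hq
      have h2 : |q.im| ≤ ‖z - p‖⁻¹ := (Complex.abs_im_le_norm q).trans hq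
      rw [Real.norm_eq_abs]
      have h3 : (G z).re * (a0 b₁ b₂ z * g + 2 * (a1 b₁ b₂ z * q.re - a2 b₁ b₂ z * q.im)) =
          ((G z).re * a0 b₁ b₂ z) * g + 2 * (((G z).re * a1 b₁ b₂ z) * q.re -
            ((G z).re * a2 b₁ b₂ z) * q.im) := by ring
      rw [h3]
      have h4 : |((G z).re * a0 b₁ b₂ z) * g| ≤ |Real.log ‖z - p‖| * |(G z).re * a0 b₁ b₂ z| +
            Real.log (‖z - p‖ ^ 2 + 1) * |(G z).re * a0 b₁ b₂ z| := by
        rw [abs_mul, ← add_mul, mul_comm]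
        exact mul_le_mul_of_nonneg_right hg (abs_nonneg _)
      have h5 : |((G z).re * a1 b₁ b₂ z) * q.re| ≤ ‖z - p‖⁻¹ * |(G z).re * a1 b₁ b₂ z| := by
        rw [abs_mul, mul_comm]
        exact mul_le_mul_of_nonneg_right h1 (abs_nonneg _)
      have h6 : |((G z).re * a2 b₁ b₂ z) * q.im| ≤ ‖z - p‖⁻¹ * |(G z).re * a2 b₁ b₂ z| := by
        rw [abs_mul, mul_comm]
        exact mul_le_mul_of_nonneg_right h2 (abs_nonneg _)
      refine (abs_add_le _ _).trans (add_le_add h4 ?_)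
      rw [abs_mul, abs_two]
      exact mul_le_mul_of_nonneg_left ((abs_sub _ _).trans (add_le_add h5 h6)) zero_le_two
    have hint : Integrable (fun z => (G z).re *
        DD b₁ b₂ (fun z => Real.log ‖z - p‖) (fun z => 1 / (z - p)) z) := by
      refine hbd.mono' ?_ (Eventually.of_forall fun z => ?_)
      · have h3 : (fun z => (G z).re *
            DD b₁ b₂ (fun z => Real.log ‖z - p‖) (fun z => 1 / (z - p)) z) =
            fun z => ((G z).re * a0 b₁ b₂ z) * Real.log ‖z - p‖ +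
              2 * (((G z).re * a1 b₁ b₂ z) * ((1 : ℂ) / (z - p)).re -
              ((G z).re * a2 b₁ b₂ z) * ((1 : ℂ) / (z - p)).im) := by
          funext z
          rw [DD_eq]
          ring
        rw [h3]
        exact ((hA0.cont.measurable.mul (measurable_id.sub_const p).norm.log).add
          (((hA1.cont.measurable.mul (Complex.measurable_re.comp hmi)).sub
            (hA2.cont.measurable.mul (Complex.measurable_im.comp hmi))).const_mul
              2)).aestronglyMeasurable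
      · rw [DD_eq]
        refine hle z _ _ ?_ ?_
        · have : 0 ≤ Real.log (‖z - p‖ ^ 2 + 1) :=
            Real.log_nonneg (by nlinarith [norm_nonneg (z - p)])
          linarith
        · rw [norm_div, norm_one]
    refine ⟨hint, ?_⟩
    have t1 : Tendsto (fun ε : ℝ => ∫ z, (G z).re *
        DD b₁ b₂ (fun z => Le ε (z - p)) (fun z => Qe ε (z - p)) z) (𝓝[>] 0)
        (𝓝 (∫ z, (G z).re *
          DD b₁ b₂ (fun z => Real.log ‖z - p‖) (fun z => 1 / (z - p)) z)) := by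
      refine tendsto_integral_filter_of_dominated_convergence _ ?_ ?_ hbd ?_
      · filter_upwards [self_mem_nhdsWithin] with ε hε
        exact (e1 ε hε).1.aestronglyMeasurable
      · have h1 : ∀ᶠ ε : ℝ in 𝓝[>] (0 : ℝ), ε ≤ 1 :=
          mem_nhdsWithin_of_mem_nhds (Iic_mem_nhds one_pos)
        filter_upwards [self_mem_nhdsWithin, h1] with ε hε hε1
        filter_upwards [compl_mem_ae_iff.2 (measure_singleton p)] with z hz
        have hz' : z - p ≠ 0 := sub_ne_zero.2 hz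
        obtain ⟨h2, h3⟩ := hL3 ε (z - p) hε hε1 hz'
        rw [DD_eq]
        exact hle z _ _ h2 h3
      · filter_upwards [compl_mem_ae_iff.2 (measure_singleton p)] with z hz
        have hz' : z - p ≠ 0 := sub_ne_zero.2 hz
        obtain ⟨h2, h3⟩ := hL2 (z - p) hz'
        have h4 : Tendsto (fun ε : ℝ => (Qe ε (z - p)).re) (𝓝[>] 0) (𝓝 ((1 : ℂ) / (z - p)).re) :=
          (Complex.continuous_re.tendsto _).comp h3
        have h5 : Tendsto (fun ε : ℝ => (Qe ε (z - p)).im) (𝓝[>] 0) (𝓝 ((1 : ℂ) / (z - p)).im) :=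
          (Complex.continuous_im.tendsto _).comp h3
        simp only [DD_eq]
        exact ((h2.const_mul _).add (((h4.const_mul _).sub (h5.const_mul _)).const_mul 2)).const_mul _
    have t2 : Tendsto (fun ε : ℝ => ∫ z, (G z).re *
        DD b₁ b₂ (fun z => Le ε (z - p)) (fun z => Qe ε (z - p)) z) (𝓝[>] 0)
        (𝓝 (-(2 * Real.pi * (b₁ p.re * b₂ p.im * (G p).re)))) := by
      have t3 := (hA (fun z => (G z).re * (b₁ z.re * b₂ z.im)) p hbG.cont (hbG.hcs hKc)).neg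
      have h6 : 2 * Real.pi * ((G p).re * (b₁ p.re * b₂ p.im)) =
          2 * Real.pi * (b₁ p.re * b₂ p.im * (G p).re) := by ring
      rw [h6] at t3
      refine t3.congr' ?_
      filter_upwards [self_mem_nhdsWithin] with ε hε
      exact (e1 ε hε).2.symm
    exact tendsto_nhds_unique t1 t2

end Pool.Agent.Work.MP_56b8f5_nt.HZ
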