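import Pool.Agent.Work.MP_56b8f5_nt.HZ.StmtsA

/-!
MP_56b8f5_nt, block HZ, item GrC: Green's identity for two logarithms. Author helper78.
-/

set_option autoImplicit false

open MeasureTheory Set Filter Topology

noncomputable section

namespace Pool.Agent.Work.MP_56b8f5_nt.HZ

open Pool.Agent.Work.MP_56b8f5_nt.EM Pool.Agent.Work.MP_56b8f5_nt.WM Pool.Agent.Work.MP_56b8f5_nt.SH

namespace I_GrC

/-! ### Local integrability -/

theorem li_pow (w : ℂ) (α : ℝ) (hα : α < 2) :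
    LocallyIntegrable (fun z : ℂ => ‖z - w‖ ^ (-α)) := by
  have h0 : ∀ r : ℝ, IntegrableOn (fun z : ℂ => ‖z‖ ^ (-α)) (Metric.ball 0 r) := by
    intro r
    refine integrableOn_ball_of_norm_le_rpow (C := 1) (α := α) ?_ ?_ ?_ ?_
    · simp [Complex.finrank_real_complex]
    · simpa [Complex.finrank_real_complex] using hα
    · refine Eventually.of_forall fun z => ?_
      rw [one_mul, Real.norm_eq_abs, abs_of_nonneg (Real.rpow_nonneg (norm_nonneg _) _)]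
    · exact (measurable_norm.pow_const _).aestronglyMeasurable
  rw [locallyIntegrable_iff]
  intro K hK
  obtain ⟨R, hR_pos, hR⟩ := hK.isBounded.exists_pos_norm_lt
  have h1 := ((integrable_indicator_iff Metric.isOpen_ball.measurableSet).2
    (h0 (R + ‖w‖))).comp_sub_right w
  refine (h1.integrableOn (s := K)).congr_fun (fun z hz => ?_) hK.measurableSet
  have hz1 : ‖z - w‖ < R + ‖w‖ := (norm_sub_le z w).trans_lt (by linarith [hR z hz])
  simp only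
  rw [indicator_of_mem]
  simpa using hz1

theorem abs_log_le (x : ℝ) (hx : 0 ≤ x) : |Real.log x| ≤ 4 * x ^ (-(1 / 4 : ℝ)) + x := by
  rcases hx.eq_or_lt with h | h
  · rw [← h, Real.log_zero, abs_zero]
    have : (0 : ℝ) ≤ 0 ^ (-(1 / 4 : ℝ)) := Real.rpow_nonneg le_rfl _
    linarith
  · have h1 : Real.log x ≤ x - 1 := Real.log_le_sub_one_of_pos h
    have h2 : 0 < x ^ (-(1 / 4 : ℝ)) := Real.rpow_pos_of_pos h _
    have h3 : Real.log (x ^ (-(1 / 4 : ℝ))) ≤ x ^ (-(1 / 4 : ℝ)) - 1 :=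
      Real.log_le_sub_one_of_pos h2
    rw [Real.log_rpow h] at h3
    rw [abs_le]
    constructor <;> linarith

theorem li_norm (w : ℂ) : LocallyIntegrable (fun z : ℂ => ‖z - w‖) :=
  (continuous_id.sub continuous_const).norm.locallyIntegrable

theorem li_norm_sq (w : ℂ) : LocallyIntegrable (fun z : ℂ => ‖z - w‖ ^ 2) :=
  ((continuous_id.sub continuous_const).norm.pow 2).locallyIntegrable

theorem meas_log (w : ℂ) : Measurable (fun z : ℂ => Real.log ‖z - w‖) :=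
  Real.measurable_log.comp (measurable_id.sub_const w).norm

theorem li_const_mul {f : ℂ → ℝ} (hf : LocallyIntegrable f) (c : ℝ) :
    LocallyIntegrable (fun z => c * f z) := hf.smul c

theorem li_log (w : ℂ) : LocallyIntegrable (fun z : ℂ => Real.log ‖z - w‖) := by
  refine ((li_const_mul (li_pow w (1 / 4) (by norm_num)) 4).add (li_norm w)).mono
    (meas_log w).aestronglyMeasurable (Eventually.of_forall fun z => ?_)
  rw [Real.norm_eq_abs]
  exact (abs_log_le _ (norm_nonneg _)).trans (le_abs_self _)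

theorem li_logsq (w : ℂ) : LocallyIntegrable (fun z : ℂ => Real.log ‖z - w‖ ^ 2) := by
  refine ((li_const_mul (li_pow w (1 / 2) (by norm_num)) 32).add
    (li_const_mul (li_norm_sq w) 2)).mono
    ((meas_log w).pow_const 2).aestronglyMeasurable (Eventually.of_forall fun z => ?_)
  rw [Real.norm_eq_abs, abs_pow]
  refine le_trans ?_ (le_abs_self _)
  have h1 := abs_log_le ‖z - w‖ (norm_nonneg _)
  have h2 : |Real.log ‖z - w‖| ^ 2 ≤ (4 * ‖z - w‖ ^ (-(1 / 4 : ℝ)) + ‖z - w‖) ^ 2 :=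
    pow_le_pow_left₀ (abs_nonneg _) h1 2
  have h3 : (‖z - w‖ ^ (-(1 / 4 : ℝ))) ^ 2 = ‖z - w‖ ^ (-(1 / 2 : ℝ)) := by
    rw [← Real.rpow_natCast, ← Real.rpow_mul (norm_nonneg _)]
    norm_num
  simp only [Pi.add_apply]
  rw [← h3]
  nlinarith [sq_nonneg (4 * ‖z - w‖ ^ (-(1 / 4 : ℝ)) - ‖z - w‖)]

theorem li_loglog (z₀ p : ℂ) :
    LocallyIntegrable (fun z : ℂ => |Real.log ‖z - z₀‖| * |Real.log ‖z - p‖|) := by
  refine ((li_logsq z₀).add (li_logsq p)).mono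
    ((meas_log z₀).abs.mul (meas_log p).abs).aestronglyMeasurable
    (Eventually.of_forall fun z => ?_)
  rw [Real.norm_eq_abs, abs_mul, abs_abs, abs_abs]
  refine le_trans ?_ (le_abs_self _)
  simp only [Pi.add_apply]
  nlinarith [sq_nonneg (|Real.log ‖z - z₀‖| - |Real.log ‖z - p‖|),
    sq_abs (Real.log ‖z - z₀‖), sq_abs (Real.log ‖z - p‖),
    sq_nonneg (Real.log ‖z - z₀‖), sq_nonneg (Real.log ‖z - p‖)]

theorem real_aux (a b d : ℝ) (ha : 0 ≤ a) (hb : 0 ≤ b) (hd : 0 ≤ d) (hab : a ≤ b + d) :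
    |Real.log a| * (1 / b) ≤ 4 * (a ^ (-(5 / 4 : ℝ)) + b ^ (-(5 / 4 : ℝ))) +
      (1 + d * b ^ (-(1 : ℝ))) := by
  have hpa : ∀ s : ℝ, 0 ≤ a ^ s := fun s => Real.rpow_nonneg ha s
  have hpb : ∀ s : ℝ, 0 ≤ b ^ s := fun s => Real.rpow_nonneg hb s
  rcases hb.eq_or_lt with h | hb0
  · rw [← h, div_zero, mul_zero]
    have := Real.rpow_nonneg (le_refl (0 : ℝ)) (-(5 / 4 : ℝ))
    have h2 := Real.rpow_nonneg (le_refl (0 : ℝ)) (-(1 : ℝ))
    have := hpa (-(5 / 4 : ℝ))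
    positivity
  have e1 : 1 / b = b ^ (-(1 : ℝ)) := by rw [Real.rpow_neg_one, one_div]
  have h1 : a ^ (-(1 / 4 : ℝ)) * b ^ (-(1 : ℝ)) ≤ a ^ (-(5 / 4 : ℝ)) + b ^ (-(5 / 4 : ℝ)) := by
    rcases ha.eq_or_lt with h | ha0
    · rw [← h, Real.zero_rpow (by norm_num), zero_mul]
      have := hpb (-(5 / 4 : ℝ))
      have h2 := Real.rpow_nonneg (le_refl (0 : ℝ)) (-(5 / 4 : ℝ))
      positivity
    rcases le_total a b with hle | hle
    · have h2 : b ^ (-(1 : ℝ)) ≤ a ^ (-(1 : ℝ)) :=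
        Real.rpow_le_rpow_of_nonpos ha0 hle (by norm_num)
      have h3 : a ^ (-(1 / 4 : ℝ)) * a ^ (-(1 : ℝ)) = a ^ (-(5 / 4 : ℝ)) := by
        rw [← Real.rpow_add ha0]
        norm_num
      calc a ^ (-(1 / 4 : ℝ)) * b ^ (-(1 : ℝ)) ≤ a ^ (-(1 / 4 : ℝ)) * a ^ (-(1 : ℝ)) :=
            mul_le_mul_of_nonneg_left h2 (hpa _)
        _ ≤ _ := by rw [h3]; linarith [hpb (-(5 / 4 : ℝ))]
    · have h2 : a ^ (-(1 / 4 : ℝ)) ≤ b ^ (-(1 / 4 : ℝ)) :=
        Real.rpow_le_rpow_of_nonpos hb0 hle (by norm_num)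
      have h3 : b ^ (-(1 / 4 : ℝ)) * b ^ (-(1 : ℝ)) = b ^ (-(5 / 4 : ℝ)) := by
        rw [← Real.rpow_add hb0]
        norm_num
      calc a ^ (-(1 / 4 : ℝ)) * b ^ (-(1 : ℝ)) ≤ b ^ (-(1 / 4 : ℝ)) * b ^ (-(1 : ℝ)) :=
            mul_le_mul_of_nonneg_right h2 (hpb _)
        _ ≤ _ := by rw [h3]; linarith [hpa (-(5 / 4 : ℝ))]
  have h4 : a * b ^ (-(1 : ℝ)) ≤ 1 + d * b ^ (-(1 : ℝ)) := by
    have h5 : b * b ^ (-(1 : ℝ)) = 1 := by
      rw [Real.rpow_neg_one, mul_inv_cancel₀ hb0.ne']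
    calc a * b ^ (-(1 : ℝ)) ≤ (b + d) * b ^ (-(1 : ℝ)) :=
          mul_le_mul_of_nonneg_right hab (hpb _)
      _ = 1 + d * b ^ (-(1 : ℝ)) := by rw [add_mul, h5]
  rw [e1]
  calc |Real.log a| * b ^ (-(1 : ℝ)) ≤ (4 * a ^ (-(1 / 4 : ℝ)) + a) * b ^ (-(1 : ℝ)) :=
        mul_le_mul_of_nonneg_right (abs_log_le a ha) (hpb _)
    _ = 4 * (a ^ (-(1 / 4 : ℝ)) * b ^ (-(1 : ℝ))) + a * b ^ (-(1 : ℝ)) := by ring
    _ ≤ _ := by linarith

theorem li_loginv (z₀ p : ℂ) :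
    LocallyIntegrable (fun z : ℂ => |Real.log ‖z - z₀‖| * (1 / ‖z - p‖)) := by
  have h1 := ((li_const_mul ((li_pow z₀ (5 / 4) (by norm_num)).add
    (li_pow p (5 / 4) (by norm_num))) 4).add
    ((continuous_const (y := (1 : ℝ))).locallyIntegrable.add
      (li_const_mul (li_pow p 1 (by norm_num)) ‖z₀ - p‖)))
  refine h1.mono ((meas_log z₀).abs.mul
    (measurable_const.div (measurable_id.sub_const p).norm)).aestronglyMeasurable
    (Eventually.of_forall fun z => ?_)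
  rw [Real.norm_eq_abs, abs_mul, abs_abs, abs_of_nonneg (by positivity : 0 ≤ 1 / ‖z - p‖)]
  refine le_trans ?_ (le_abs_self _)
  have h2 : ‖z - z₀‖ ≤ ‖z - p‖ + ‖z₀ - p‖ := by
    calc ‖z - z₀‖ = ‖(z - p) - (z₀ - p)‖ := by congr 1; ring
      _ ≤ _ := norm_sub_le _ _
  exact real_aux _ _ _ (norm_nonneg _) (norm_nonneg _) (norm_nonneg _) h2

/-! ### The cut-off functions -/

/-- product of functions of the real and imaginary part -/
def bx (b₁ b₂ : ℝ → ℝ) (z : ℂ) : ℝ := b₁ z.re * b₂ z.im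

theorem bx_cont {b₁ b₂ : ℝ → ℝ} (h₁ : Continuous b₁) (h₂ : Continuous b₂) :
    Continuous (bx b₁ b₂) :=
  (h₁.comp Complex.continuous_re).mul (h₂.comp Complex.continuous_im)

theorem bx_supp {b₁ b₂ : ℝ → ℝ} (h₁ : HasCompactSupport b₁) (h₂ : HasCompactSupport b₂) :
    HasCompactSupport (bx b₁ b₂) := by
  refine HasCompactSupport.intro (K := tsupport b₁ ×ℂ tsupport b₂)
    (IsCompact.reProdIm h₁ h₂) fun z hz => ?_
  rw [Complex.mem_reProdIm, not_and_or] at hz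
  unfold bx
  rcases hz with h | h
  · rw [image_eq_zero_of_notMem_tsupport h, zero_mul]
  · rw [image_eq_zero_of_notMem_tsupport h, mul_zero]

theorem isB_cont {b : ℝ → ℝ} (h : IsB b) : Continuous b := h.smooth.continuous

theorem isB_deriv {b : ℝ → ℝ} (h : IsB b) : IsB (deriv b) where
  smooth := by
    have h1 : ContDiff ℝ (((⊤ : ℕ∞) : WithTop ℕ∞) + 1) b := by simpa using h.smooth
    exact ((contDiff_succ_iff_deriv).1 h1).2.2
  supp := h.supp.deriv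

/-- a continuous function with compact support -/
structure CC (f : ℂ → ℝ) : Prop where
  cont : Continuous f
  supp : HasCompactSupport f

theorem CC.bx {b₁ b₂ : ℝ → ℝ} (h₁ : IsB b₁) (h₂ : IsB b₂) : CC (bx b₁ b₂) :=
  ⟨bx_cont (isB_cont h₁) (isB_cont h₂), bx_supp h₁.supp h₂.supp⟩

theorem CC.add {f g : ℂ → ℝ} (hf : CC f) (hg : CC g) : CC (fun z => f z + g z) :=
  ⟨hf.cont.add hg.cont, hf.supp.add hg.supp⟩

theorem CC.abs {f : ℂ → ℝ} (hf : CC f) : CC (fun z => |f z|) :=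
  ⟨hf.cont.abs, hf.supp.comp_left (g := fun x => |x|) abs_zero⟩

theorem CC.mul_right {f g : ℂ → ℝ} (hf : CC f) (hg : Continuous g) : CC (fun z => f z * g z) :=
  ⟨hf.cont.mul hg, hf.supp.mul_right⟩

theorem CC.mul_left {f g : ℂ → ℝ} (hf : CC f) (hg : Continuous g) : CC (fun z => g z * f z) :=
  ⟨hg.mul hf.cont, hf.supp.mul_left⟩

theorem CC.int {f g : ℂ → ℝ} (hf : CC f) (hg : LocallyIntegrable g) :
    Integrable (fun z => g z * f z) :=
  hg.integrable_smul_right_of_hasCompactSupport hf.cont hf.supp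

/-- the coefficient of `g` in `DD` -/
def E1 (b₁ b₂ : ℝ → ℝ) (z : ℂ) : ℝ := bx (deriv (deriv b₁)) b₂ z + bx b₁ (deriv (deriv b₂)) z

theorem DD_eq (b₁ b₂ : ℝ → ℝ) (g : ℂ → ℝ) (q : ℂ → ℂ) (z : ℂ) :
    DD b₁ b₂ g q z = E1 b₁ b₂ z * g z +
      2 * (bx (deriv b₁) b₂ z * (q z).re - bx b₁ (deriv b₂) z * (q z).im) := rfl

theorem DD_abs_le (b₁ b₂ : ℝ → ℝ) (g : ℂ → ℝ) (q : ℂ → ℂ) (z : ℂ) (G Q : ℝ) (hg : |g z| ≤ G)
    (hq : ‖q z‖ ≤ Q) : |DD b₁ b₂ g q z| ≤ |E1 b₁ b₂ z| * G +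
      2 * ((|bx (deriv b₁) b₂ z| + |bx b₁ (deriv b₂) z|) * Q) := by
  rw [DD_eq]
  have h1 : |(q z).re| ≤ Q := (Complex.abs_re_le_norm _).trans hq
  have h2 : |(q z).im| ≤ Q := (Complex.abs_im_le_norm _).trans hq
  have e1 : |E1 b₁ b₂ z * g z| ≤ |E1 b₁ b₂ z| * G := by
    rw [abs_mul]
    exact mul_le_mul_of_nonneg_left hg (abs_nonneg _)
  have e2 : |bx (deriv b₁) b₂ z * (q z).re| ≤ |bx (deriv b₁) b₂ z| * Q := by
    rw [abs_mul]
    exact mul_le_mul_of_nonneg_left h1 (abs_nonneg _)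
  have e3 : |bx b₁ (deriv b₂) z * (q z).im| ≤ |bx b₁ (deriv b₂) z| * Q := by
    rw [abs_mul]
    exact mul_le_mul_of_nonneg_left h2 (abs_nonneg _)
  rw [abs_le] at e1 e2 e3 ⊢
  constructor <;> nlinarith [e1.1, e1.2, e2.1, e2.2, e3.1, e3.2]

theorem DD_CC {b₁ b₂ : ℝ → ℝ} (h₁ : IsB b₁) (h₂ : IsB b₂) {g : ℂ → ℝ} {q : ℂ → ℂ}
    (hg : Continuous g) (hq : Continuous q) : CC (DD b₁ b₂ g q) := by
  have a1 : CC (fun z => E1 b₁ b₂ z * g z) :=
    ((CC.bx (isB_deriv (isB_deriv h₁)) h₂).add (CC.bx h₁ (isB_deriv (isB_deriv h₂)))).mul_right hg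
  have a2 : CC (fun z => 2 * (bx (deriv b₁) b₂ z * (q z).re)) :=
    ((CC.bx (isB_deriv h₁) h₂).mul_right (Complex.continuous_re.comp hq)).mul_left
      continuous_const
  have a3 : CC (fun z => -2 * (bx b₁ (deriv b₂) z * (q z).im)) :=
    ((CC.bx h₁ (isB_deriv h₂)).mul_right (Complex.continuous_im.comp hq)).mul_left
      continuous_const
  have a4 := (a1.add a2).add a3
  have e : DD b₁ b₂ g q = fun z => E1 b₁ b₂ z * g z + 2 * (bx (deriv b₁) b₂ z * (q z).re) +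
      -2 * (bx b₁ (deriv b₂) z * (q z).im) := by
    funext z
    rw [DD_eq]
    ring
  rw [e]
  exact a4

/-! ### The regularised logarithm -/

theorem lineDeriv_sub (f : ℂ → ℝ) (p z h : ℂ) :
    lineDeriv ℝ (fun w => f (w - p)) z h = lineDeriv ℝ f (z - p) h := by
  unfold lineDeriv
  have e : (fun t : ℝ => f (z + t • h - p)) = fun t : ℝ => f (z - p + t • h) := by
    funext t
    rw [sub_add_eq_add_sub]
  rw [e]

theorem L2_sub (f : ℂ → ℝ) (p z : ℂ) : L2 (fun w => f (w - p)) z = L2 f (z - p) := by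
  unfold L2
  have e : ∀ h : ℂ, (fun w => lineDeriv ℝ (fun w => f (w - p)) w h) =
      fun w => (fun u => lineDeriv ℝ f u h) (w - p) := by
    intro h
    funext w
    exact lineDeriv_sub f p w h
  rw [e, e]
  exact congrArg₂ (· + ·) (lineDeriv_sub (fun u => lineDeriv ℝ f u 1) p z 1)
    (lineDeriv_sub (fun u => lineDeriv ℝ f u Complex.I) p z Complex.I)

theorem Le_cont (hGrL : S_GrL) {ε : ℝ} (hε : 0 < ε) (p : ℂ) :
    Continuous (fun z => Le ε (z - p)) :=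
  (hGrL.1 ε hε).1.continuous.comp (continuous_id.sub continuous_const)

theorem den_pos {ε : ℝ} (hε : 0 < ε) (z : ℂ) : 0 < ‖z‖ ^ 2 + ε ^ 2 := by positivity

theorem Qe_cont {ε : ℝ} (hε : 0 < ε) (p : ℂ) : Continuous (fun z => Qe ε (z - p)) := by
  have h1 : Continuous (Qe ε) := by
    unfold Qe
    refine Complex.continuous_conj.div (Complex.continuous_ofReal.comp
      ((continuous_norm.pow 2).add continuous_const)) fun z => ?_
    rw [Ne, Complex.ofReal_eq_zero]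
    exact (den_pos hε z).ne'
  exact h1.comp (continuous_id.sub continuous_const)

theorem De_cont {ε : ℝ} (hε : 0 < ε) (p : ℂ) : Continuous (fun z => De ε (z - p)) := by
  have h1 : Continuous (De ε) := by
    unfold De
    refine continuous_const.div (((continuous_norm.pow 2).add continuous_const).pow 2)
      fun z => ?_
    exact (pow_pos (den_pos hε z) 2).ne'
  exact h1.comp (continuous_id.sub continuous_const)

theorem De_nonneg {ε : ℝ} (hε : 0 < ε) (z : ℂ) : 0 ≤ De ε z := by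
  unfold De
  positivity

/-- the function which is paired with the logarithm, for the regularised `g` -/
def MM' (b₁ b₂ : ℝ → ℝ) (δ : ℝ) (p z : ℂ) : ℝ :=
  DD b₁ b₂ (fun z => Le δ (z - p)) (fun z => Qe δ (z - p)) z + bx b₁ b₂ z * De δ (z - p)

theorem MM'_CC (hGrL : S_GrL) {b₁ b₂ : ℝ → ℝ} (h₁ : IsB b₁) (h₂ : IsB b₂) {δ : ℝ} (hδ : 0 < δ)
    (p : ℂ) : CC (MM' b₁ b₂ δ p) :=
  (DD_CC h₁ h₂ (Le_cont hGrL hδ p) (Qe_cont hδ p)).add ((CC.bx h₁ h₂).mul_right (De_cont hδ p))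

theorem stepA (hGrI : S_GrI) (hGrP : S_GrP) (hGrL : S_GrL) {b₁ b₂ : ℝ → ℝ} (h₁ : IsB b₁)
    (h₂ : IsB b₂) {ε δ : ℝ} (hε : 0 < ε) (hδ : 0 < δ) (p z₀ : ℂ) :
    ∫ z, Le ε (z - z₀) * MM' b₁ b₂ δ p z =
      ∫ z, (bx b₁ b₂ z * Le δ (z - p)) * De ε (z - z₀) := by
  have hs : ContDiff ℝ 2 (fun z : ℂ => Le δ (z - p)) :=
    (hGrL.1 δ hδ).1.comp (contDiff_id.sub contDiff_const)
  have hs' : ContDiff ℝ 2 (fun z : ℂ => Le ε (z - z₀)) :=
    (hGrL.1 ε hε).1.comp (contDiff_id.sub contDiff_const)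
  obtain ⟨c1, c2, -, c4, -⟩ := hGrP b₁ b₂ h₁ h₂ univ isOpen_univ (fun _ _ _ => mem_univ _)
    (fun z => Le δ (z - p)) (fun z => Qe δ (z - p)) hs.contDiffOn
    (fun z _ h => by rw [lineDeriv_sub, (hGrL.1 δ hδ).2.1])
  obtain ⟨-, -, d3⟩ := hGrI univ isOpen_univ (fun z => Le ε (z - z₀)) _ hs'.contDiffOn c1 c2
    (subset_univ _)
  have e1 : ∀ z, L2 (fun z : ℂ => b₁ z.re * b₂ z.im * Le δ (z - p)) z = MM' b₁ b₂ δ p z := by
    intro z
    rw [c4 z (mem_univ z), L2_sub, (hGrL.1 δ hδ).2.2]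
    rfl
  have e2 : ∀ z, L2 (fun z : ℂ => Le ε (z - z₀)) z = De ε (z - z₀) := by
    intro z
    rw [L2_sub, (hGrL.1 ε hε).2.2]
  simp only [e1, e2] at d3
  exact d3

theorem log_one_cont (p : ℂ) : Continuous (fun z : ℂ => Real.log (‖z - p‖ ^ 2 + 1)) := by
  refine Continuous.log (((continuous_id.sub continuous_const).norm.pow 2).add
    continuous_const) fun z => ?_
  positivity

theorem log_one_nonneg (z : ℂ) : 0 ≤ Real.log (‖z‖ ^ 2 + 1) :=
  Real.log_nonneg (by nlinarith [sq_nonneg ‖z‖])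

theorem ae_ne (p : ℂ) : ∀ᵐ z : ℂ, z - p ≠ 0 := by
  have h : ∀ᵐ z : ℂ, z ≠ p := Measure.ae_ne volume p
  filter_upwards [h] with z hz
  exact sub_ne_zero.2 hz

theorem stepB (hGrI : S_GrI) (hGrP : S_GrP) (hGrL : S_GrL) (hGrA : S_GrA) {b₁ b₂ : ℝ → ℝ}
    (h₁ : IsB b₁) (h₂ : IsB b₂) {δ : ℝ} (hδ : 0 < δ) (p z₀ : ℂ) :
    ∫ z, Real.log ‖z - z₀‖ * MM' b₁ b₂ δ p z =
      2 * Real.pi * (bx b₁ b₂ z₀ * Le δ (z₀ - p)) := by
  have hM := MM'_CC hGrL h₁ h₂ hδ p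
  have hI : ∀ᶠ ε : ℝ in 𝓝[>] 0, ε ∈ Ioc (0 : ℝ) 1 := Ioc_mem_nhdsGT one_pos
  -- the left side
  have hL : Tendsto (fun ε : ℝ => ∫ z, Le ε (z - z₀) * MM' b₁ b₂ δ p z) (𝓝[>] 0)
      (𝓝 (∫ z, Real.log ‖z - z₀‖ * MM' b₁ b₂ δ p z)) := by
    refine tendsto_integral_filter_of_dominated_convergence
      (fun z => (|Real.log ‖z - z₀‖| + Real.log (‖z - z₀‖ ^ 2 + 1)) * |MM' b₁ b₂ δ p z|) ?_ ?_ ?_ ?_
    · filter_upwards [hI] with ε hε
      exact ((Le_cont hGrL hε.1 z₀).mul hM.cont).aestronglyMeasurable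
    · filter_upwards [hI] with ε hε
      filter_upwards [ae_ne z₀] with z hz
      rw [Real.norm_eq_abs, abs_mul]
      exact mul_le_mul_of_nonneg_right (hGrL.2.2.1 ε _ hε.1 hε.2 hz).1 (abs_nonneg _)
    · have k1 : LocallyIntegrable (fun z : ℂ => |Real.log ‖z - z₀‖|) :=
        (li_log z₀).mono (meas_log z₀).abs.aestronglyMeasurable
          (Eventually.of_forall fun z => by simp)
      exact hM.abs.int (k1.add (log_one_cont z₀).locallyIntegrable)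
    · filter_upwards [ae_ne z₀] with z hz
      exact ((hGrL.2.1 _ hz).1).mul_const _
  have hR := hGrA (fun z => bx b₁ b₂ z * Le δ (z - p)) z₀
    ((CC.bx h₁ h₂).mul_right (Le_cont hGrL hδ p)).cont
    ((CC.bx h₁ h₂).mul_right (Le_cont hGrL hδ p)).supp
  refine tendsto_nhds_unique hL (hR.congr' ?_)
  filter_upwards [hI] with ε hε
  exact (stepA hGrI hGrP hGrL h₁ h₂ hε.1 hδ p z₀).symm

/-! ### The second limit -/

theorem li_abs_log (w : ℂ) : LocallyIntegrable (fun z : ℂ => |Real.log ‖z - w‖|) :=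
  (li_log w).mono (meas_log w).abs.aestronglyMeasurable (Eventually.of_forall fun z => by simp)

/-- the dominating function -/
def Bd (b₁ b₂ : ℝ → ℝ) (p z₀ z : ℂ) : ℝ := |Real.log ‖z - z₀‖| *
  (|E1 b₁ b₂ z| * (|Real.log ‖z - p‖| + Real.log (‖z - p‖ ^ 2 + 1)) +
    2 * ((|bx (deriv b₁) b₂ z| + |bx b₁ (deriv b₂) z|) * (1 / ‖z - p‖)))

theorem Bd_int {b₁ b₂ : ℝ → ℝ} (h₁ : IsB b₁) (h₂ : IsB b₂) (p z₀ : ℂ) :
    Integrable (Bd b₁ b₂ p z₀) := by
  have a0 : CC (fun z => |E1 b₁ b₂ z|) :=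
    ((CC.bx (isB_deriv (isB_deriv h₁)) h₂).add (CC.bx h₁ (isB_deriv (isB_deriv h₂)))).abs
  have a1 := a0.int (li_loglog z₀ p)
  have a2 := (a0.mul_right (log_one_cont p)).int (li_abs_log z₀)
  have a3 := ((((CC.bx (isB_deriv h₁) h₂).abs).add ((CC.bx h₁ (isB_deriv h₂)).abs)).mul_left
    (continuous_const (y := (2 : ℝ)))).int (li_loginv z₀ p)
  have e : Bd b₁ b₂ p z₀ = fun z => |Real.log ‖z - z₀‖| * |Real.log ‖z - p‖| * |E1 b₁ b₂ z| +
      |Real.log ‖z - z₀‖| * (|E1 b₁ b₂ z| * Real.log (‖z - p‖ ^ 2 + 1)) +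
      |Real.log ‖z - z₀‖| * (1 / ‖z - p‖) *
        (2 * (|bx (deriv b₁) b₂ z| + |bx b₁ (deriv b₂) z|)) := by
    funext z
    unfold Bd
    ring
  rw [e]
  exact (a1.add a2).add a3

theorem DDlog_meas {b₁ b₂ : ℝ → ℝ} (h₁ : IsB b₁) (h₂ : IsB b₂) (p : ℂ) :
    Measurable (DD b₁ b₂ (fun z => Real.log ‖z - p‖) (fun z => 1 / (z - p))) := by
  have m1 : Measurable (E1 b₁ b₂) :=
    ((CC.bx (isB_deriv (isB_deriv h₁)) h₂).add
      (CC.bx h₁ (isB_deriv (isB_deriv h₂)))).cont.measurable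
  have m2 : Measurable (bx (deriv b₁) b₂) := (CC.bx (isB_deriv h₁) h₂).cont.measurable
  have m3 : Measurable (bx b₁ (deriv b₂)) := (CC.bx h₁ (isB_deriv h₂)).cont.measurable
  have m4 : Measurable (fun z : ℂ => 1 / (z - p)) :=
    measurable_const.div (measurable_id.sub_const p)
  have e : DD b₁ b₂ (fun z => Real.log ‖z - p‖) (fun z => 1 / (z - p)) = fun z =>
      E1 b₁ b₂ z * Real.log ‖z - p‖ +
      2 * (bx (deriv b₁) b₂ z * (1 / (z - p)).re - bx b₁ (deriv b₂) z * (1 / (z - p)).im) := by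
    funext z
    rw [DD_eq]
  rw [e]
  exact (m1.mul (meas_log p)).add (measurable_const.mul
    ((m2.mul (Complex.measurable_re.comp m4)).sub (m3.mul (Complex.measurable_im.comp m4))))

theorem lim_int {b₁ b₂ : ℝ → ℝ} (h₁ : IsB b₁) (h₂ : IsB b₂) (p z₀ : ℂ) :
    Integrable (fun z => Real.log ‖z - z₀‖ *
      DD b₁ b₂ (fun z => Real.log ‖z - p‖) (fun z => 1 / (z - p)) z) := by
  refine (Bd_int h₁ h₂ p z₀).mono' ((meas_log z₀).mul (DDlog_meas h₁ h₂ p)).aestronglyMeasurable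
    (Eventually.of_forall fun z => ?_)
  rw [Real.norm_eq_abs, abs_mul]
  refine mul_le_mul_of_nonneg_left ?_ (abs_nonneg _)
  apply DD_abs_le
  · linarith [log_one_nonneg (z - p)]
  · rw [norm_div, norm_one]

theorem stepC1 (hGrL : S_GrL) {b₁ b₂ : ℝ → ℝ} (h₁ : IsB b₁) (h₂ : IsB b₂) (p z₀ : ℂ) :
    Tendsto (fun δ : ℝ => ∫ z, Real.log ‖z - z₀‖ *
        DD b₁ b₂ (fun z => Le δ (z - p)) (fun z => Qe δ (z - p)) z) (𝓝[>] 0)
      (𝓝 (∫ z, Real.log ‖z - z₀‖ *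
        DD b₁ b₂ (fun z => Real.log ‖z - p‖) (fun z => 1 / (z - p)) z)) := by
  have hI : ∀ᶠ ε : ℝ in 𝓝[>] 0, ε ∈ Ioc (0 : ℝ) 1 := Ioc_mem_nhdsGT one_pos
  refine tendsto_integral_filter_of_dominated_convergence (Bd b₁ b₂ p z₀) ?_ ?_
    (Bd_int h₁ h₂ p z₀) ?_
  · filter_upwards [hI] with δ hδ
    exact (meas_log z₀).aestronglyMeasurable.mul
      (DD_CC h₁ h₂ (Le_cont hGrL hδ.1 p) (Qe_cont hδ.1 p)).cont.aestronglyMeasurable
  · filter_upwards [hI] with δ hδ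
    filter_upwards [ae_ne p] with z hz
    rw [Real.norm_eq_abs, abs_mul]
    refine mul_le_mul_of_nonneg_left ?_ (abs_nonneg _)
    have h3 := hGrL.2.2.1 δ _ hδ.1 hδ.2 hz
    exact DD_abs_le _ _ _ _ _ _ _ h3.1 h3.2
  · filter_upwards [ae_ne p] with z hz
    have h3 := hGrL.2.1 _ hz
    refine Tendsto.const_mul _ ?_
    have h4 : Tendsto (fun δ : ℝ => E1 b₁ b₂ z * Le δ (z - p) +
        2 * (bx (deriv b₁) b₂ z * (Qe δ (z - p)).re - bx b₁ (deriv b₂) z * (Qe δ (z - p)).im))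
        (𝓝[>] 0) (𝓝 (E1 b₁ b₂ z * Real.log ‖z - p‖ +
        2 * (bx (deriv b₁) b₂ z * (1 / (z - p)).re - bx b₁ (deriv b₂) z * (1 / (z - p)).im))) := by
      have r1 := (Complex.continuous_re.tendsto _).comp h3.2
      have r2 := (Complex.continuous_im.tendsto _).comp h3.2
      exact (h3.1.const_mul _).add (((r1.const_mul _).sub (r2.const_mul _)).const_mul _)
    exact h4

theorem stepC2 (hGrA : S_GrA) {b₁ b₂ : ℝ → ℝ} (h₁ : IsB b₁) (h₂ : IsB b₂) (p z₀ : ℂ)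
    (hne : z₀ ≠ p) :
    Tendsto (fun δ : ℝ => ∫ z, Real.log ‖z - z₀‖ * (bx b₁ b₂ z * De δ (z - p))) (𝓝[>] 0)
      (𝓝 (2 * Real.pi * (bx b₁ b₂ p * Real.log ‖p - z₀‖))) := by
  set r : ℝ := ‖z₀ - p‖ / 2 with hr
  have hr0 : 0 < r := by
    have : 0 < ‖z₀ - p‖ := norm_pos_iff.2 (sub_ne_zero.2 hne)
    positivity
  have hI : ∀ᶠ ε : ℝ in 𝓝[>] 0, ε ∈ Ioc (0 : ℝ) 1 := Ioc_mem_nhdsGT one_pos
  set φ : ℂ → ℝ := fun z => Real.log (max ‖z - z₀‖ r) with hφ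
  have hφc : Continuous φ := by
    refine Continuous.log ((continuous_id.sub continuous_const).norm.max continuous_const)
      fun z => ?_
    exact (lt_max_of_lt_right hr0).ne'
  have hF : CC (fun z => bx b₁ b₂ z * φ z) := (CC.bx h₁ h₂).mul_right hφc
  have h1 := hGrA _ p hF.cont hF.supp
  have hFp : bx b₁ b₂ p * φ p = bx b₁ b₂ p * Real.log ‖p - z₀‖ := by
    simp only [hφ]
    rw [max_eq_left]
    rw [hr, norm_sub_rev p z₀]
    linarith [norm_nonneg (z₀ - p)]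
  simp only [hFp] at h1
  -- the difference
  set D : ℂ → ℝ := fun z => Real.log ‖z - z₀‖ * bx b₁ b₂ z - bx b₁ b₂ z * φ z with hD
  have hDint : Integrable D := by
    exact ((CC.bx h₁ h₂).int (li_log z₀)).sub (hF.cont.integrable_of_hasCompactSupport hF.supp)
  have hD0 : ∀ z, ‖z - p‖ < r → D z = 0 := by
    intro z hz
    have h2 : r ≤ ‖z - z₀‖ := by
      have h3 : ‖z₀ - p‖ ≤ ‖z - p‖ + ‖z - z₀‖ := by
        calc ‖z₀ - p‖ = ‖(z - p) - (z - z₀)‖ := by congr 1; ring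
          _ ≤ _ := norm_sub_le _ _
      have h4 : ‖z₀ - p‖ = 2 * r := by rw [hr]; ring
      linarith
    simp only [hD, hφ]
    rw [max_eq_left h2]
    ring
  have hbound : ∀ δ : ℝ, 0 < δ → ∀ z, ‖D z * De δ (z - p)‖ ≤ |D z| * (2 * δ ^ 2 / r ^ 4) := by
    intro δ hδ z
    rw [norm_mul, Real.norm_eq_abs, Real.norm_eq_abs, abs_of_nonneg (De_nonneg hδ _)]
    by_cases hz : ‖z - p‖ < r
    · rw [hD0 z hz, abs_zero, zero_mul, zero_mul]
    · rw [not_lt] at hz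
      refine mul_le_mul_of_nonneg_left ?_ (abs_nonneg _)
      unfold De
      have h5 : r ^ 4 ≤ (‖z - p‖ ^ 2 + δ ^ 2) ^ 2 := by
        have h6 : r ^ 2 ≤ ‖z - p‖ ^ 2 + δ ^ 2 := by
          nlinarith [pow_le_pow_left₀ hr0.le hz 2, sq_nonneg δ]
        calc r ^ 4 = (r ^ 2) ^ 2 := by ring
          _ ≤ _ := pow_le_pow_left₀ (by positivity) h6 2
      gcongr
  have hlim0 : Tendsto (fun δ : ℝ => ∫ z, D z * De δ (z - p)) (𝓝[>] 0) (𝓝 0) := by
    refine squeeze_zero_norm' (a := fun δ : ℝ => ∫ z, |D z| * (2 * δ ^ 2 / r ^ 4)) ?_ ?_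
    · filter_upwards [hI] with δ hδ
      exact norm_integral_le_of_norm_le (hDint.abs.mul_const _)
        (Eventually.of_forall (hbound δ hδ.1))
    · have e : (fun δ : ℝ => ∫ z, |D z| * (2 * δ ^ 2 / r ^ 4)) =
          fun δ : ℝ => (∫ z, |D z|) * (2 * δ ^ 2 / r ^ 4) := by
        funext δ
        rw [integral_mul_const]
      rw [e]
      have h7 : Continuous (fun δ : ℝ => (∫ z, |D z|) * (2 * δ ^ 2 / r ^ 4)) := by fun_prop
      have h8 := h7.tendsto 0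
      simp only [ne_eq, OfNat.ofNat_ne_zero, not_false_eq_true, zero_pow, mul_zero, zero_div] at h8
      exact h8.mono_left nhdsWithin_le_nhds
  have hsum := h1.add hlim0
  rw [add_zero] at hsum
  refine hsum.congr' ?_
  filter_upwards [hI] with δ hδ
  have i1 : Integrable (fun z => bx b₁ b₂ z * φ z * De δ (z - p)) :=
    (hF.mul_right (De_cont hδ.1 p)).cont.integrable_of_hasCompactSupport
      (hF.mul_right (De_cont hδ.1 p)).supp
  have i2 : Integrable (fun z => D z * De δ (z - p)) := by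
    refine (hDint.abs.mul_const (2 * δ ^ 2 / r ^ 4)).mono'
      (hDint.aestronglyMeasurable.mul (De_cont hδ.1 p).aestronglyMeasurable)
      (Eventually.of_forall (hbound δ hδ.1))
  rw [← integral_add i1 i2]
  refine integral_congr_ae (Eventually.of_forall fun z => ?_)
  simp only [hD]
  ring

end I_GrC

open I_GrC in
theorem GrC_pf (hGrI : S_GrI) (hGrP : S_GrP) (hGrL : S_GrL) (hGrA : S_GrA) : S_GrC := by
  intro b₁ b₂ h₁ h₂ p z₀ hne
  refine ⟨lim_int h₁ h₂ p z₀, ?_⟩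
  have hI : ∀ᶠ ε : ℝ in 𝓝[>] 0, ε ∈ Ioc (0 : ℝ) 1 := Ioc_mem_nhdsGT one_pos
  have hR : Tendsto (fun δ : ℝ => 2 * Real.pi * (bx b₁ b₂ z₀ * Le δ (z₀ - p))) (𝓝[>] 0)
      (𝓝 (2 * Real.pi * (bx b₁ b₂ z₀ * Real.log ‖z₀ - p‖))) :=
    (((hGrL.2.1 _ (sub_ne_zero.2 hne)).1).const_mul _).const_mul _
  have hL := (stepC1 hGrL h₁ h₂ p z₀).add (stepC2 hGrA h₁ h₂ p z₀ hne)
  have hkey := tendsto_nhds_unique hL (hR.congr' ?_)
  · have e1 : bx b₁ b₂ z₀ = b₁ z₀.re * b₂ z₀.im := rfl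
    have e2 : bx b₁ b₂ p = b₁ p.re * b₂ p.im := rfl
    rw [e1, e2] at hkey
    linarith
  · filter_upwards [hI] with δ hδ
    rw [← stepB hGrI hGrP hGrL hGrA h₁ h₂ hδ.1 p z₀]
    have i1 : Integrable (fun z => Real.log ‖z - z₀‖ *
        DD b₁ b₂ (fun z => Le δ (z - p)) (fun z => Qe δ (z - p)) z) :=
      (DD_CC h₁ h₂ (Le_cont hGrL hδ.1 p) (Qe_cont hδ.1 p)).int (li_log z₀)
    have i2 : Integrable (fun z => Real.log ‖z - z₀‖ * (bx b₁ b₂ z * De δ (z - p))) :=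
      ((CC.bx h₁ h₂).mul_right (De_cont hδ.1 p)).int (li_log z₀)
    rw [← integral_add i1 i2]
    refine integral_congr_ae (Eventually.of_forall fun z => ?_)
    simp only [MM']
    ring

end Pool.Agent.Work.MP_56b8f5_nt.HZ
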