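import Pool.Agent.Work.MP_56b8f5_nt.HZ.StmtsA

/-!
MP_56b8f5_nt, block HZ, item GrF: factorisation of an analytic function on a disc.
-/

set_option autoImplicit false

open MeasureTheory Set Filter Topology

noncomputable section

namespace Pool.Agent.Work.MP_56b8f5_nt.HZ

namespace I_GrF

/-- one zero -/
theorem one (K : Set ℂ) (f : ℂ → ℂ) (hf : AnalyticOnNhd ℂ f K) (ρ : ℂ) (hρ : ρ ∈ K)
    (ht : analyticOrderAt f ρ ≠ ⊤) : ∃ g : ℂ → ℂ, AnalyticOnNhd ℂ g K ∧
    (∀ z, f z = (z - ρ) ^ analyticOrderNatAt f ρ * g z) ∧ g ρ ≠ 0 ∧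
    ∀ z ∈ K, z ≠ ρ → analyticOrderAt g z = analyticOrderAt f z := by
  classical
  obtain ⟨g₀, h1, h2, h3⟩ := (hf ρ hρ).analyticOrderAt_ne_top.1 ht
  set n := analyticOrderNatAt f ρ with hn
  set g : ℂ → ℂ := Function.update (fun z => f z / (z - ρ) ^ n) ρ (g₀ ρ) with hg
  have hgρ : g ρ = g₀ ρ := by rw [hg, Function.update_self]
  have hgz : ∀ z, z ≠ ρ → g z = f z / (z - ρ) ^ n := fun z hz => by
    rw [hg, Function.update_of_ne hz]
  have hfg : ∀ z, f z = (z - ρ) ^ n * g z := by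
    intro z
    rcases eq_or_ne z ρ with rfl | hz
    · rw [hgρ]
      have := h3.self_of_nhds
      simpa using this
    · rw [hgz z hz, mul_div_cancel₀]
      exact pow_ne_zero _ (sub_ne_zero.2 hz)
  have hnear : g =ᶠ[𝓝 ρ] g₀ := by
    filter_upwards [h3] with z hz
    rcases eq_or_ne z ρ with rfl | hz'
    · exact hgρ
    · rw [hgz z hz', hz, smul_eq_mul, mul_div_cancel_left₀]
      exact pow_ne_zero _ (sub_ne_zero.2 hz')
  have han : AnalyticOnNhd ℂ g K := by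
    intro z hz
    rcases eq_or_ne z ρ with rfl | hz'
    · exact h1.congr hnear.symm
    · have h4 : AnalyticAt ℂ (fun z => f z / (z - ρ) ^ n) z :=
        (hf z hz).div ((analyticAt_id.sub analyticAt_const).pow n)
          (pow_ne_zero _ (sub_ne_zero.2 hz'))
      refine h4.congr ?_
      filter_upwards [isOpen_ne.mem_nhds hz'] with w hw
      exact (hgz w hw).symm
  refine ⟨g, han, hfg, by rw [hgρ]; exact h2, ?_⟩
  intro z hz hz'
  have h5 : f = (fun w => (w - ρ) ^ n) * g := funext hfg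
  have h6 : AnalyticAt ℂ (fun w : ℂ => (w - ρ) ^ n) z := (analyticAt_id.sub analyticAt_const).pow n
  have h7 : analyticOrderAt (fun w : ℂ => (w - ρ) ^ n) z = 0 :=
    h6.analyticOrderAt_eq_zero.2 (pow_ne_zero _ (sub_ne_zero.2 hz'))
  rw [h5, analyticOrderAt_mul h6 (han z hz), h7, zero_add]

/-- finitely many zeros -/
theorem many (K : Set ℂ) (Z : Finset ℂ) : ∀ f : ℂ → ℂ, AnalyticOnNhd ℂ f K →
    (∀ ρ ∈ Z, ρ ∈ K ∧ analyticOrderAt f ρ ≠ ⊤) → ∃ g : ℂ → ℂ, AnalyticOnNhd ℂ g K ∧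
    (∀ z, f z = (∏ ρ ∈ Z, (z - ρ) ^ analyticOrderNatAt f ρ) * g z) ∧ ∀ ρ ∈ Z, g ρ ≠ 0 := by
  classical
  induction Z using Finset.induction_on with
  | empty =>
    intro f hf _
    exact ⟨f, hf, fun z => by simp, by simp⟩
  | @insert ρ Z hρ ih =>
    intro f hf hZ
    obtain ⟨f1, h1, h2, h3, h4⟩ := one K f hf ρ (hZ ρ (Finset.mem_insert_self _ _)).1
      (hZ ρ (Finset.mem_insert_self _ _)).2
    have hne : ∀ ρ' ∈ Z, ρ' ≠ ρ := fun ρ' h => by rintro rfl; exact hρ h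
    obtain ⟨g, g1, g2, g3⟩ := ih f1 h1 (fun ρ' h => by
      have h5 := hZ ρ' (Finset.mem_insert_of_mem h)
      exact ⟨h5.1, by rw [h4 ρ' h5.1 (hne ρ' h)]; exact h5.2⟩)
    have e : ∀ z, ∏ ρ' ∈ Z, (z - ρ') ^ analyticOrderNatAt f1 ρ' =
        ∏ ρ' ∈ Z, (z - ρ') ^ analyticOrderNatAt f ρ' := by
      intro z
      refine Finset.prod_congr rfl fun ρ' h => ?_
      have h5 := hZ ρ' (Finset.mem_insert_of_mem h)
      unfold analyticOrderNatAt
      rw [h4 ρ' h5.1 (hne ρ' h)]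
    refine ⟨g, g1, fun z => ?_, fun ρ' h => ?_⟩
    · rw [Finset.prod_insert hρ, ← e, mul_assoc, ← g2, ← h2]
    · rcases Finset.mem_insert.1 h with rfl | h
      · intro h6
        apply h3
        rw [g2, h6, mul_zero]
      · exact g3 ρ' h

/-- the logarithm of a zero free function on a disc -/
theorem lg (R : ℝ) (hR : 0 < R) (g : ℂ → ℂ) (hg : DifferentiableOn ℂ g (Metric.ball 0 R))
    (h0 : ∀ z ∈ Metric.ball (0 : ℂ) R, g z ≠ 0) : ∃ G : ℂ → ℂ,
    DifferentiableOn ℂ G (Metric.ball 0 R) ∧ ∀ z ∈ Metric.ball (0 : ℂ) R, g z = Complex.exp (G z) := by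
  have hd : DifferentiableOn ℂ (fun z => deriv g z / g z) (Metric.ball 0 R) :=
    (hg.deriv Metric.isOpen_ball).div hg h0
  obtain ⟨F, hF⟩ := hd.isExactOn_ball
  have hgd : ∀ z ∈ Metric.ball (0 : ℂ) R, HasDerivAt g (deriv g z) z := fun z hz =>
    (hg.differentiableAt (Metric.isOpen_ball.mem_nhds hz)).hasDerivAt
  have hq : ∀ z ∈ Metric.ball (0 : ℂ) R,
      HasDerivAt (fun w => g w * Complex.exp (-F w)) 0 z := by
    intro z hz
    have h1 := (hgd z hz).mul ((hF z hz).neg.cexp)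
    have e : deriv g z * Complex.exp (-F z) +
        g z * (Complex.exp (-F z) * -(deriv g z / g z)) = 0 := by
      have := h0 z hz
      field_simp
      ring
    rw [← e]
    exact h1
  have h0m : (0 : ℂ) ∈ Metric.ball (0 : ℂ) R := Metric.mem_ball_self hR
  have hc : ∀ z ∈ Metric.ball (0 : ℂ) R, g z * Complex.exp (-F z) = g 0 * Complex.exp (-F 0) := by
    intro z hz
    exact Metric.isOpen_ball.is_const_of_deriv_eq_zero (convex_ball (0 : ℂ) R).isPreconnected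
      (fun w hw => (hq w hw).differentiableAt.differentiableWithinAt)
      (fun w hw => (hq w hw).deriv) hz h0m
  have hne : g 0 * Complex.exp (-F 0) ≠ 0 := mul_ne_zero (h0 0 h0m) (Complex.exp_ne_zero _)
  refine ⟨fun z => F z + Complex.log (g 0 * Complex.exp (-F 0)), ?_, ?_⟩
  · exact fun z hz => ((hF z hz).differentiableAt.add_const _).differentiableWithinAt
  · intro z hz
    rw [Complex.exp_add, Complex.exp_log hne, ← hc z hz, Complex.exp_neg]
    field_simp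

end I_GrF

open I_GrF in
theorem GrF_pf : S_GrF := by
  intro R f hR hf hf0 Z hZ
  have hK0 : (0 : ℂ) ∈ Metric.closedBall (0 : ℂ) R := Metric.mem_closedBall_self hR.le
  have h0 : analyticOrderAt f 0 ≠ ⊤ := by
    rw [(hf 0 hK0).analyticOrderAt_eq_zero.2 hf0]
    exact ENat.zero_ne_top
  have hmem : ∀ z : ℂ, z ∈ Metric.closedBall (0 : ℂ) R ↔ ‖z‖ ≤ R := fun z => by
    rw [mem_closedBall_zero_iff]
  obtain ⟨g, g1, g2, g3⟩ := many (Metric.closedBall 0 R) Z f hf (fun ρ hρ => by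
    have h1 := (hZ ρ).1 hρ
    have h2 := (hmem ρ).2 h1.2
    exact ⟨h2, hf.analyticOrderAt_ne_top_of_isPreconnected
      (convex_closedBall (0 : ℂ) R).isPreconnected hK0 h2 h0⟩)
  have hgz : ∀ z : ℂ, ‖z‖ ≤ R → g z ≠ 0 := by
    intro z hz h
    have h1 : f z = 0 := by rw [g2, h, mul_zero]
    exact g3 z ((hZ z).2 ⟨h1, hz⟩) h
  have hball : ∀ z : ℂ, z ∈ Metric.ball (0 : ℂ) R ↔ ‖z‖ < R := fun z => by
    rw [mem_ball_zero_iff]
  obtain ⟨G, hG, hG2⟩ := lg R hR g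
    (fun z hz => ((g1 z (Metric.ball_subset_closedBall hz)).differentiableAt).differentiableWithinAt)
    (fun z hz => hgz z ((hball z).1 hz).le)
  refine ⟨G, hG, fun z hz hfz => ?_⟩
  rw [g2 z] at hfz ⊢
  have hP := left_ne_zero_of_mul hfz
  rw [norm_mul, Real.log_mul (norm_ne_zero_iff.2 hP) (norm_ne_zero_iff.2 (hgz z hz.le)),
    hG2 z ((hball z).2 hz), Complex.norm_exp, Real.log_exp, norm_prod, Real.log_prod]
  · congr 1
    refine Finset.sum_congr rfl fun ρ _ => ?_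
    rw [norm_pow, Real.log_pow]
  · intro ρ hρ
    exact norm_ne_zero_iff.2 (Finset.prod_ne_zero_iff.1 hP ρ hρ)

end Pool.Agent.Work.MP_56b8f5_nt.HZ
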