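import Pool.Agent.Work.MP_56b8f5_nt.HZ.StmtsA

/-!
MP_56b8f5_nt, block HZ, item GrI: Green's second identity.
-/

set_option autoImplicit false

open MeasureTheory Set Filter Topology

noncomputable section

namespace Pool.Agent.Work.MP_56b8f5_nt.HZ

namespace I_GrI

theorem intg {U : Set ℂ} (hU : IsOpen U) {F G : ℂ → ℝ} (hF : ContinuousOn F U)
    (hG : Continuous G) (hc : HasCompactSupport G) (hs : tsupport G ⊆ U) :
    Integrable (fun z => F z * G z) := by
  have hcont : Continuous (fun z => F z * G z) := by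
    apply continuous_of_tsupport
    intro x hx
    have h1 : x ∈ tsupport G := closure_mono (Function.support_mul_subset_right F G) hx
    exact (hF.continuousAt (hU.mem_nhds (hs h1))).mul hG.continuousAt
  have hsup : HasCompactSupport (fun z => F z * G z) := hc.mul_left
  exact hcont.integrable_of_hasCompactSupport hsup

/-- the Laplacian by Frechet derivatives -/
theorem L2_eq {U : Set ℂ} (hU : IsOpen U) {u : ℂ → ℝ} (hu : ContDiffOn ℝ 2 u U) {z : ℂ}
    (hz : z ∈ U) : L2 u z = fderiv ℝ (fun w => fderiv ℝ u w 1) z 1 +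
      fderiv ℝ (fun w => fderiv ℝ u w Complex.I) z Complex.I := by
  have h1 : ContDiffOn ℝ 1 (fderiv ℝ u) U := hu.fderiv_of_isOpen hU (by norm_num)
  have key : ∀ h : ℂ, lineDeriv ℝ (fun w => lineDeriv ℝ u w h) z h =
      fderiv ℝ (fun w => fderiv ℝ u w h) z h := by
    intro h
    have h2 : (fun w => lineDeriv ℝ u w h) =ᶠ[𝓝 z] (fun w => fderiv ℝ u w h) := by
      filter_upwards [hU.mem_nhds hz] with w hw
      exact ((hu.differentiableOn (by norm_num)).differentiableAt
        (hU.mem_nhds hw)).lineDeriv_eq_fderiv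
    rw [h2.lineDeriv_eq]
    have h3 : ContDiffOn ℝ 1 (fun w => fderiv ℝ u w h) U := h1.clm_apply contDiffOn_const
    exact ((h3.differentiableOn (by norm_num)).differentiableAt
        (hU.mem_nhds hz)).lineDeriv_eq_fderiv
  unfold L2
  rw [key 1, key Complex.I]

end I_GrI

open I_GrI in
/-- GrI. -/
theorem GrI_pf : S_GrI := by
  intro U hU u Φ hu hΦ hc hs
  have hu1 : ContDiffOn ℝ 1 (fderiv ℝ u) U := hu.fderiv_of_isOpen hU (by norm_num)
  have hΦ1 : ContDiff ℝ 1 (fderiv ℝ Φ) := hΦ.fderiv_right (by norm_num)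
  have hdu : ∀ h : ℂ, ContDiffOn ℝ 1 (fun w => fderiv ℝ u w h) U := fun h =>
    hu1.clm_apply contDiffOn_const
  have hdΦ : ∀ h : ℂ, ContDiff ℝ 1 (fun w => fderiv ℝ Φ w h) := fun h =>
    hΦ1.clm_apply contDiff_const
  have hddu : ∀ h : ℂ, ContinuousOn (fun z => fderiv ℝ (fun w => fderiv ℝ u w h) z h) U :=
    fun h => ((hdu h).continuousOn_fderiv_of_isOpen hU le_rfl).clm_apply continuousOn_const
  have hddΦ : ∀ h : ℂ, Continuous (fun z => fderiv ℝ (fun w => fderiv ℝ Φ w h) z h) :=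
    fun h => ((hdΦ h).continuous_fderiv (by norm_num)).clm_apply continuous_const
  have hcΦ : ∀ h : ℂ, HasCompactSupport (fun w => fderiv ℝ Φ w h) := fun h =>
    hc.fderiv_apply (𝕜 := ℝ) h
  have hsΦ : ∀ h : ℂ, tsupport (fun w => fderiv ℝ Φ w h) ⊆ tsupport Φ := fun h =>
    tsupport_fderiv_apply_subset ℝ h
  have hccΦ : ∀ h : ℂ, HasCompactSupport (fun z => fderiv ℝ (fun w => fderiv ℝ Φ w h) z h) :=
    fun h => (hcΦ h).fderiv_apply (𝕜 := ℝ) h
  have hssΦ : ∀ h : ℂ, tsupport (fun z => fderiv ℝ (fun w => fderiv ℝ Φ w h) z h) ⊆ tsupport Φ :=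
    fun h => (tsupport_fderiv_apply_subset ℝ h).trans (hsΦ h)
  -- integrability
  have i1 : ∀ h : ℂ, Integrable (fun z => u z * fderiv ℝ (fun w => fderiv ℝ Φ w h) z h) :=
    fun h => intg hU hu.continuousOn (hddΦ h) (hccΦ h) ((hssΦ h).trans hs)
  have i2 : ∀ h : ℂ, Integrable (fun z => fderiv ℝ u z h * fderiv ℝ Φ z h) :=
    fun h => intg hU (hdu h).continuousOn (hdΦ h).continuous (hcΦ h) ((hsΦ h).trans hs)
  have i3 : ∀ h : ℂ, Integrable (fun z => u z * fderiv ℝ Φ z h) :=
    fun h => intg hU hu.continuousOn (hdΦ h).continuous (hcΦ h) ((hsΦ h).trans hs)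
  have i4 : ∀ h : ℂ, Integrable (fun z => fderiv ℝ (fun w => fderiv ℝ u w h) z h * Φ z) :=
    fun h => intg hU (hddu h) hΦ.continuous hc hs
  have i5 : ∀ h : ℂ, Integrable (fun z => fderiv ℝ u z h * Φ z) :=
    fun h => intg hU (hdu h).continuousOn hΦ.continuous hc hs
  -- integration by parts
  have p1 : ∀ h : ℂ, ∫ z, u z * fderiv ℝ (fun w => fderiv ℝ Φ w h) z h =
      - ∫ z, fderiv ℝ u z h * fderiv ℝ Φ z h := fun h =>
    integral_mul_fderiv_eq_neg_fderiv_mul_of_integrable (i2 h) (i1 h) (i3 h)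
      (fun x hx => (hu.differentiableOn (by norm_num)).differentiableAt
        (hU.mem_nhds (hs (hsΦ h hx))))
      (fun x _ => ((hdΦ h).differentiable (by norm_num)) x)
  have p2 : ∀ h : ℂ, ∫ z, fderiv ℝ u z h * fderiv ℝ Φ z h =
      - ∫ z, fderiv ℝ (fun w => fderiv ℝ u w h) z h * Φ z := fun h =>
    integral_mul_fderiv_eq_neg_fderiv_mul_of_integrable (i4 h) (i2 h) (i5 h)
      (fun x hx => ((hdu h).differentiableOn (by norm_num)).differentiableAt
        (hU.mem_nhds (hs hx)))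
      (fun x _ => (hΦ.differentiable (by norm_num)) x)
  have e1 : (fun z => u z * L2 Φ z) = fun z => u z * fderiv ℝ (fun w => fderiv ℝ Φ w 1) z 1 +
      u z * fderiv ℝ (fun w => fderiv ℝ Φ w Complex.I) z Complex.I := by
    funext z
    rw [L2_eq isOpen_univ (contDiffOn_univ.2 hΦ) (mem_univ z), mul_add]
  have e2 : (fun z => Φ z * L2 u z) = fun z => fderiv ℝ (fun w => fderiv ℝ u w 1) z 1 * Φ z +
      fderiv ℝ (fun w => fderiv ℝ u w Complex.I) z Complex.I * Φ z := by
    funext z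
    by_cases hz : z ∈ U
    · rw [L2_eq hU hu hz]
      ring
    · have h0 : Φ z = 0 := by
        by_contra h
        exact hz (hs (subset_tsupport _ h))
      rw [h0]
      ring
  refine ⟨?_, ?_, ?_⟩
  · rw [e1]
    exact (i1 1).add (i1 Complex.I)
  · rw [e2]
    exact (i4 1).add (i4 Complex.I)
  · rw [e1, e2, integral_add (i1 1) (i1 Complex.I), integral_add (i4 1) (i4 Complex.I),
      p1 1, p1 Complex.I, p2 1, p2 Complex.I, neg_neg, neg_neg]

end Pool.Agent.Work.MP_56b8f5_nt.HZ
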