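import Pool.Agent.Work.MP_56b8f5_nt.HZ.StmtsA

/-!
MP_56b8f5_nt, block HZ, item GrP: the product rule for the Laplacian with cut-offs.
-/

set_option autoImplicit false

open MeasureTheory Set Filter Topology

noncomputable section

namespace Pool.Agent.Work.MP_56b8f5_nt.HZ

open Pool.Agent.Work.MP_56b8f5_nt.EM Pool.Agent.Work.MP_56b8f5_nt.WM Pool.Agent.Work.MP_56b8f5_nt.SH

namespace I_GrP

theorem lineOne (b₁ b₂ : ℝ → ℝ) (hb : Differentiable ℝ b₁) (F : ℂ → ℝ) (F' : ℝ) (w : ℂ)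
    (hF : HasLineDerivAt ℝ F F' w 1) :
    HasLineDerivAt ℝ (fun z : ℂ => b₁ z.re * b₂ z.im * F z)
      (deriv b₁ w.re * b₂ w.im * F w + b₁ w.re * b₂ w.im * F') w 1 := by
  unfold HasLineDerivAt at hF ⊢
  have hre : ∀ t : ℝ, (w + t • (1 : ℂ)).re = w.re + t := by intro t; simp
  have him : ∀ t : ℝ, (w + t • (1 : ℂ)).im = w.im := by intro t; simp
  have h1 : HasDerivAt (fun t : ℝ => b₁ (w.re + t)) (deriv b₁ w.re) 0 := by
    have h2 : HasDerivAt b₁ (deriv b₁ (w.re + 0)) (w.re + 0) := (hb _).hasDerivAt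
    have h3 := h2.comp_const_add (w.re) 0
    rw [add_zero] at h3
    exact h3
  have h4 : HasDerivAt (fun t : ℝ => b₁ (w.re + t) * b₂ w.im * F (w + t • (1 : ℂ)))
      (deriv b₁ w.re * b₂ w.im * F (w + (0 : ℝ) • (1 : ℂ)) + b₁ (w.re + 0) * b₂ w.im * F') 0 :=
    (h1.mul_const (b₂ w.im)).mul hF
  rw [zero_smul, add_zero, add_zero] at h4
  refine h4.congr_of_eventuallyEq (Eventually.of_forall fun t => ?_)
  beta_reduce
  rw [hre, him]

theorem lineI (b₁ b₂ : ℝ → ℝ) (hb : Differentiable ℝ b₂) (F : ℂ → ℝ) (F' : ℝ) (w : ℂ)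
    (hF : HasLineDerivAt ℝ F F' w Complex.I) :
    HasLineDerivAt ℝ (fun z : ℂ => b₁ z.re * b₂ z.im * F z)
      (b₁ w.re * deriv b₂ w.im * F w + b₁ w.re * b₂ w.im * F') w Complex.I := by
  unfold HasLineDerivAt at hF ⊢
  have hre : ∀ t : ℝ, (w + t • Complex.I).re = w.re := by intro t; simp
  have him : ∀ t : ℝ, (w + t • Complex.I).im = w.im + t := by intro t; simp
  have h1 : HasDerivAt (fun t : ℝ => b₂ (w.im + t)) (deriv b₂ w.im) 0 := by
    have h2 : HasDerivAt b₂ (deriv b₂ (w.im + 0)) (w.im + 0) := (hb _).hasDerivAt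
    have h3 := h2.comp_const_add (w.im) 0
    rw [add_zero] at h3
    exact h3
  have h4 : HasDerivAt (fun t : ℝ => b₁ w.re * b₂ (w.im + t) * F (w + t • Complex.I))
      (b₁ w.re * deriv b₂ w.im * F (w + (0 : ℝ) • Complex.I) + b₁ w.re * b₂ (w.im + 0) * F') 0 :=
    (h1.const_mul (b₁ w.re)).mul hF
  rw [zero_smul, add_zero, add_zero] at h4
  refine h4.congr_of_eventuallyEq (Eventually.of_forall fun t => ?_)
  beta_reduce
  rw [hre, him]

theorem hasLine {U : Set ℂ} (hU : IsOpen U) {g : ℂ → ℝ} (hg : ContDiffOn ℝ 2 g U) {w : ℂ} (hw : w ∈ U)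
    (h : ℂ) : HasLineDerivAt ℝ g (lineDeriv ℝ g w h) w h := by
  have h1 : DifferentiableAt ℝ g w :=
    (hg.contDiffAt (hU.mem_nhds hw)).differentiableAt (by norm_num)
  exact h1.lineDifferentiableAt.hasLineDerivAt

theorem hasLine2 {U : Set ℂ} (hU : IsOpen U) {g : ℂ → ℝ} (hg : ContDiffOn ℝ 2 g U) {w : ℂ} (hw : w ∈ U)
    (h k : ℂ) : HasLineDerivAt ℝ (fun z => lineDeriv ℝ g z h)
      (lineDeriv ℝ (fun z => lineDeriv ℝ g z h) w k) w k := by
  have h1 : ContDiffAt ℝ 2 g w := hg.contDiffAt (hU.mem_nhds hw)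
  have h2 : ContDiffAt ℝ 1 (fderiv ℝ g) w := h1.fderiv_right (m := 1) (by norm_num)
  have h3 : DifferentiableAt ℝ (fun z => fderiv ℝ g z h) w :=
    (h2.differentiableAt (by norm_num)).clm_apply (differentiableAt_const h)
  have h4 : (fun z => lineDeriv ℝ g z h) =ᶠ[𝓝 w] fun z => fderiv ℝ g z h := by
    filter_upwards [hU.mem_nhds hw] with z hz
    exact ((hg.contDiffAt (hU.mem_nhds hz)).differentiableAt (by norm_num)).lineDeriv_eq_fderiv
  have h5 : DifferentiableAt ℝ (fun z => lineDeriv ℝ g z h) w := h3.congr_of_eventuallyEq h4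
  exact h5.lineDifferentiableAt.hasLineDerivAt

theorem hasLine_add {F G : ℂ → ℝ} {F' G' : ℝ} {w h : ℂ} (hF : HasLineDerivAt ℝ F F' w h)
    (hG : HasLineDerivAt ℝ G G' w h) : HasLineDerivAt ℝ (fun z => F z + G z) (F' + G') w h := by
  unfold HasLineDerivAt at hF hG ⊢
  exact hF.add hG

end I_GrP

open I_GrP in
theorem GrP_pf : S_GrP := by
  intro b₁ b₂ hb₁ hb₂ U hU hUb g q hg hq
  have hd₁ : Differentiable ℝ b₁ := hb₁.smooth.differentiable (by simp)
  have hd₂ : Differentiable ℝ b₂ := hb₂.smooth.differentiable (by simp)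
  have hd₁' : Differentiable ℝ (deriv b₁) := by
    have h1 : ContDiff ℝ ((⊤ : ℕ∞) : WithTop ℕ∞) (deriv b₁) := by
      have h2 := hb₁.smooth
      rw [show ((⊤ : ℕ∞) : WithTop ℕ∞) = ((⊤ : ℕ∞) : WithTop ℕ∞) + 1 from rfl,
        contDiff_succ_iff_deriv] at h2
      exact h2.2.2
    exact h1.differentiable (by simp)
  have hd₂' : Differentiable ℝ (deriv b₂) := by
    have h1 : ContDiff ℝ ((⊤ : ℕ∞) : WithTop ℕ∞) (deriv b₂) := by
      have h2 := hb₂.smooth
      rw [show ((⊤ : ℕ∞) : WithTop ℕ∞) = ((⊤ : ℕ∞) : WithTop ℕ∞) + 1 from rfl,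
        contDiff_succ_iff_deriv] at h2
      exact h2.2.2
    exact h1.differentiable (by simp)
  have hcase : ∀ z ∉ U, z.re ∉ tsupport b₁ ∨ z.im ∉ tsupport b₂ := by
    intro z hz
    by_contra h
    push Not at h
    exact hz (hUb z h.1 h.2)
  have hK : IsCompact (tsupport b₁ ×ℂ tsupport b₂) := hb₁.supp.isCompact.reProdIm hb₂.supp.isCompact
  have hKU : (tsupport b₁ ×ℂ tsupport b₂) ⊆ U := fun z hz => hUb z hz.1 hz.2
  have hzero : ∀ z : ℂ, z ∉ (tsupport b₁ ×ℂ tsupport b₂) → b₁ z.re * b₂ z.im * g z = 0 := by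
    intro z hz
    have : z.re ∉ tsupport b₁ ∨ z.im ∉ tsupport b₂ := by
      by_contra h
      push Not at h
      exact hz ⟨h.1, h.2⟩
    rcases this with h | h
    · rw [image_eq_zero_of_notMem_tsupport h, zero_mul, zero_mul]
    · rw [image_eq_zero_of_notMem_tsupport h, mul_zero, zero_mul]
  refine ⟨?_, ?_, ?_, ?_, ?_⟩
  · rw [contDiff_iff_contDiffAt]
    intro z
    by_cases hz : z ∈ U
    · have h1 : ContDiffAt ℝ 2 (fun z : ℂ => b₁ z.re) z :=
        ((hb₁.smooth.of_le (WithTop.coe_le_coe.2 (le_top : (2 : ℕ∞) ≤ ⊤))).comp Complex.reCLM.contDiff).contDiffAt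
      have h2 : ContDiffAt ℝ 2 (fun z : ℂ => b₂ z.im) z :=
        ((hb₂.smooth.of_le (WithTop.coe_le_coe.2 (le_top : (2 : ℕ∞) ≤ ⊤))).comp Complex.imCLM.contDiff).contDiffAt
      exact (h1.mul h2).mul (hg.contDiffAt (hU.mem_nhds hz))
    · have h1 : (fun z : ℂ => b₁ z.re * b₂ z.im * g z) =ᶠ[𝓝 z] fun _ => 0 := by
        have h2 : (tsupport b₁ ×ℂ tsupport b₂)ᶜ ∈ 𝓝 z :=
          hK.isClosed.isOpen_compl.mem_nhds (fun h => hz (hKU h))
        filter_upwards [h2] with w hw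
        exact hzero w hw
      exact (contDiffAt_const (c := (0 : ℝ))).congr_of_eventuallyEq h1
  · exact HasCompactSupport.intro hK hzero
  · refine (closure_minimal ?_ hK.isClosed).trans hKU
    intro z hz
    by_contra h
    exact hz (hzero z h)
  · intro z hz
    have hev : U ∈ 𝓝 z := hU.mem_nhds hz
    have e1 : (fun w => lineDeriv ℝ (fun z : ℂ => b₁ z.re * b₂ z.im * g z) w 1) =ᶠ[𝓝 z]
        fun w => deriv b₁ w.re * b₂ w.im * g w + b₁ w.re * b₂ w.im * lineDeriv ℝ g w 1 := by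
      filter_upwards [hev] with w hw
      exact (lineOne b₁ b₂ hd₁ g _ w (hasLine hU hg hw 1)).lineDeriv
    have e2 : (fun w => lineDeriv ℝ (fun z : ℂ => b₁ z.re * b₂ z.im * g z) w Complex.I) =ᶠ[𝓝 z]
        fun w => b₁ w.re * deriv b₂ w.im * g w + b₁ w.re * b₂ w.im * lineDeriv ℝ g w Complex.I := by
      filter_upwards [hev] with w hw
      exact (lineI b₁ b₂ hd₂ g _ w (hasLine hU hg hw Complex.I)).lineDeriv
    have f1 := (hasLine_add (lineOne (deriv b₁) b₂ hd₁' g _ z (hasLine hU hg hz 1))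
      (lineOne b₁ b₂ hd₁ (fun w => lineDeriv ℝ g w 1) _ z (hasLine2 hU hg hz 1 1))).lineDeriv
    have f2 := (hasLine_add (lineI b₁ (deriv b₂) hd₂' g _ z (hasLine hU hg hz Complex.I))
      (lineI b₁ b₂ hd₂ (fun w => lineDeriv ℝ g w Complex.I) _ z
        (hasLine2 hU hg hz Complex.I Complex.I))).lineDeriv
    have q1 : lineDeriv ℝ g z 1 = (q z).re := by rw [hq z hz 1, mul_one]
    have q2 : lineDeriv ℝ g z Complex.I = -(q z).im := by
      rw [hq z hz Complex.I, Complex.mul_re, Complex.I_re, Complex.I_im]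
      ring
    unfold L2 DD
    rw [e1.lineDeriv_eq, e2.lineDeriv_eq, f1, f2]
    rw [q1, q2]
    ring
  · intro z hz
    unfold DD
    rcases hcase z hz with h | h
    · have a0 : b₁ z.re = 0 := image_eq_zero_of_notMem_tsupport h
      have h' : z.re ∉ tsupport (deriv b₁) := fun h1 => h (tsupport_deriv_subset h1)
      have a1 : deriv b₁ z.re = 0 := image_eq_zero_of_notMem_tsupport h'
      have h'' : z.re ∉ tsupport (deriv (deriv b₁)) := fun h1 => h' (tsupport_deriv_subset h1)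
      have a2 : deriv (deriv b₁) z.re = 0 := image_eq_zero_of_notMem_tsupport h''
      rw [a0, a1, a2]
      ring
    · have a0 : b₂ z.im = 0 := image_eq_zero_of_notMem_tsupport h
      have h' : z.im ∉ tsupport (deriv b₂) := fun h1 => h (tsupport_deriv_subset h1)
      have a1 : deriv b₂ z.im = 0 := image_eq_zero_of_notMem_tsupport h'
      have h'' : z.im ∉ tsupport (deriv (deriv b₂)) := fun h1 => h' (tsupport_deriv_subset h1)
      have a2 : deriv (deriv b₂) z.im = 0 := image_eq_zero_of_notMem_tsupport h''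
      rw [a0, a1, a2]
      ring

end Pool.Agent.Work.MP_56b8f5_nt.HZ
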