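import Pool.Agent.Work.MP_56b8f5_nt.HZ.StmtsA

/-!
MP_56b8f5_nt, block HZ, part (a), item KDn: the right cut-off gives the Dirichlet polynomial.

Proof: integration by parts in `y` for fixed `v` turns the integrand into
`cy' (Re q E + ω Θ E)`, `E = Re e(z)`, `e(z) = e^{-ω(s+z)}`; for fixed `y` one has
`Re q E + ω Θ E = Re (q e) - ∂_v (Θ Im e)`, so the integral over `v` is
`Re (e^{-ω(s+a)} ∫ kt(X(c₁+iv))/(c₁+iv) e^{-ω(c₁+iv)} dv)`, `c₁ = y - a` (KFo), and `∫ cy' = -1`.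
-/

set_option autoImplicit false

open MeasureTheory Set Filter Topology

noncomputable section

namespace Pool.Agent.Work.MP_56b8f5_nt.HZ

open Pool.Agent.Work.MP_56b8f5_nt.EM Pool.Agent.Work.MP_56b8f5_nt.WM Pool.Agent.Work.MP_56b8f5_nt.SH

namespace I_KDn

/-! ### the cut-off -/

theorem cy_contDiff : ContDiff ℝ 2 cy := by
  have h : ContDiff ℝ 2 Real.smoothTransition := by
    have := Real.smoothTransition.contDiff (n := 2)
    exact_mod_cast this
  unfold cy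
  exact (h.comp (by fun_prop)).mul (h.comp (by fun_prop))

theorem cy_d1 (y : ℝ) : HasDerivAt cy (deriv cy y) y :=
  ((cy_contDiff.differentiable (by norm_num)) y).hasDerivAt

theorem cy_d2 (y : ℝ) : HasDerivAt (deriv cy) (deriv (deriv cy) y) y :=
  (cy_contDiff.differentiable_deriv_two y).hasDerivAt

theorem cy_c1 : Continuous (deriv cy) := cy_contDiff.continuous_deriv (by norm_num)

theorem cy_c2 : Continuous (deriv (deriv cy)) := by
  have h1 : ContDiff ℝ (1 + 1) cy := by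
    have : (1 : WithTop ℕ∞) + 1 = 2 := by norm_num
    rw [this]
    exact cy_contDiff
  have h2 := (contDiff_succ_iff_deriv.1 h1).2.2
  exact h2.continuous_deriv le_rfl

theorem cy_left : cy (3 / 2) = 1 := by
  unfold cy
  rw [Real.smoothTransition.one_of_one_le (by norm_num),
    Real.smoothTransition.one_of_one_le (by norm_num), mul_one]

theorem cy_right (y : ℝ) (hy : 5 / 2 ≤ y) : cy y = 0 := by
  unfold cy
  rw [Real.smoothTransition.zero_of_nonpos (x := 5 / 2 - y) (by linarith), mul_zero]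

theorem cy_le (y : ℝ) : cy y ≤ 1 := by
  unfold cy
  exact mul_le_one₀ (Real.smoothTransition.le_one _) (Real.smoothTransition.nonneg _)
    (Real.smoothTransition.le_one _)

theorem cy_nonneg (y : ℝ) : 0 ≤ cy y := by
  unfold cy
  exact mul_nonneg (Real.smoothTransition.nonneg _) (Real.smoothTransition.nonneg _)

theorem cy_dl : deriv cy (3 / 2) = 0 := by
  refine IsLocalMax.deriv_eq_zero (Filter.Eventually.of_forall fun y => ?_)
  show cy y ≤ cy (3 / 2)
  rw [cy_left]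
  exact cy_le y

theorem cy_dr : deriv cy (5 / 2) = 0 := by
  refine IsLocalMin.deriv_eq_zero (Filter.Eventually.of_forall fun y => ?_)
  show cy (5 / 2) ≤ cy y
  rw [cy_right _ le_rfl]
  exact cy_nonneg y

theorem cy_out (y : ℝ) (hy : 5 / 2 < y) : deriv cy y = 0 ∧ deriv (deriv cy) y = 0 := by
  have h1 : cy =ᶠ[𝓝 y] fun _ => (0 : ℝ) := by
    filter_upwards [Ioi_mem_nhds hy] with x hx
    exact cy_right x (le_of_lt hx)
  have h2 := h1.deriv
  have h3 : deriv cy =ᶠ[𝓝 y] fun _ => (0 : ℝ) := by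
    filter_upwards [h2] with x hx
    rw [hx, deriv_const]
  refine ⟨h3.eq_of_nhds, ?_⟩
  rw [h3.deriv_eq, deriv_const]

/-! ### the functions -/

/-- the harmonic function -/
def Th (κ : ℝ → ℝ) (c X a : ℝ) (z : ℂ) : ℝ := S1 κ c (X * (z - a))

/-- its gradient -/
def QKD (κ : ℝ → ℝ) (X a : ℝ) (z : ℂ) : ℂ := kt κ (X * (z - a)) / (z - a)

/-- the exponential -/
def ee (ω : ℝ) (s z : ℂ) : ℂ := Complex.exp (-(ω * (s + z)))

theorem ne_of_re {y a v : ℝ} (h : a < y) : (y : ℂ) + v * Complex.I - a ≠ 0 := by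
  intro h0
  have := congrArg Complex.re h0
  simp at this
  linarith

section deriv

variable {κ : ℝ → ℝ} {c X a : ℝ}

/-- the gradient of `Th` along a path -/
theorem hasDerivAt_path (hd : ∀ w : ℂ, w ≠ 0 → HasFDerivAt (S1 κ c)
    (Complex.reCLM.comp ((ContinuousLinearMap.mul ℝ ℂ) (kt κ w / w))) w) (hX : 0 < X)
    (γ : ℝ → ℂ) (h : ℂ) (t : ℝ) (hγ : HasDerivAt γ h t) (hne : γ t - a ≠ 0) :
    HasDerivAt (fun r : ℝ => Th κ c X a (γ r)) (QKD κ X a (γ t) * h).re t := by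
  have hX0 : (X : ℂ) ≠ 0 := by exact_mod_cast hX.ne'
  have h1 : HasDerivAt (fun r : ℝ => (X : ℂ) * (γ r - a)) ((X : ℂ) * h) t :=
    (hγ.sub_const (a : ℂ)).const_mul (X : ℂ)
  have h2 := (hd ((X : ℂ) * (γ t - a)) (mul_ne_zero hX0 hne)).comp_hasDerivAt t h1
  refine h2.congr_deriv ?_
  simp only [ContinuousLinearMap.comp_apply, ContinuousLinearMap.mul_apply',
    Complex.reCLM_apply]
  congr 1
  unfold QKD
  field_simp

theorem Th_y (hd : ∀ w : ℂ, w ≠ 0 → HasFDerivAt (S1 κ c)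
    (Complex.reCLM.comp ((ContinuousLinearMap.mul ℝ ℂ) (kt κ w / w))) w) (hX : 0 < X)
    (y v : ℝ) (hy : a < y) :
    HasDerivAt (fun r : ℝ => Th κ c X a ((r : ℂ) + v * Complex.I))
      (QKD κ X a ((y : ℂ) + v * Complex.I)).re y := by
  have h1 : HasDerivAt (fun r : ℝ => (r : ℂ) + v * Complex.I) 1 y :=
    (Complex.ofRealCLM.hasDerivAt (x := y)).add_const _
  have h2 := hasDerivAt_path hd hX _ 1 y h1 (ne_of_re hy)
  rw [mul_one] at h2
  exact h2

theorem Th_v (hd : ∀ w : ℂ, w ≠ 0 → HasFDerivAt (S1 κ c)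
    (Complex.reCLM.comp ((ContinuousLinearMap.mul ℝ ℂ) (kt κ w / w))) w) (hX : 0 < X)
    (y v : ℝ) (hy : a < y) :
    HasDerivAt (fun r : ℝ => Th κ c X a ((y : ℂ) + r * Complex.I))
      (-(QKD κ X a ((y : ℂ) + v * Complex.I)).im) v := by
  have h1 : HasDerivAt (fun r : ℝ => (y : ℂ) + r * Complex.I) (1 * Complex.I) v :=
    ((Complex.ofRealCLM.hasDerivAt (x := v)).mul_const Complex.I).const_add _
  have h2 := hasDerivAt_path hd hX _ _ v h1 (ne_of_re hy)
  refine h2.congr_deriv ?_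
  simp

theorem ee_y (ω : ℝ) (s : ℂ) (y v : ℝ) :
    HasDerivAt (fun r : ℝ => (ee ω s ((r : ℂ) + v * Complex.I)).re)
      (-(ω * (ee ω s ((y : ℂ) + v * Complex.I)).re)) y := by
  have h1 : HasDerivAt (fun r : ℝ => -(ω * (s + ((r : ℂ) + v * Complex.I)))) (-(ω * 1)) y :=
    ((((Complex.ofRealCLM.hasDerivAt (x := y)).add_const _).const_add _).const_mul _).neg
  have h2 := (Complex.reCLM.hasFDerivAt).comp_hasDerivAt y h1.cexp
  refine h2.congr_deriv ?_
  simp [ee]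
  ring

theorem ee_v (ω : ℝ) (s : ℂ) (y v : ℝ) :
    HasDerivAt (fun r : ℝ => (ee ω s ((y : ℂ) + r * Complex.I)).im)
      (-(ω * (ee ω s ((y : ℂ) + v * Complex.I)).re)) v := by
  have h1 : HasDerivAt (fun r : ℝ => -(ω * (s + ((y : ℂ) + r * Complex.I))))
      (-(ω * (1 * Complex.I))) v :=
    (((((Complex.ofRealCLM.hasDerivAt (x := v)).mul_const Complex.I).const_add _).const_add
      _).const_mul _).neg
  have h2 := (Complex.imCLM.hasFDerivAt).comp_hasDerivAt v h1.cexp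
  refine h2.congr_deriv ?_
  simp [ee]
  ring

end deriv

/-! ### measurability and bounds -/

theorem meas_Th {κ : ℝ → ℝ} {c X a : ℝ} (hH : Continuous (Hh κ)) : Measurable (Th κ c X a) := by
  have h1 : Measurable (S1 κ c) := by
    unfold S1
    exact ((Real.measurable_log.comp measurable_norm).add
      (Complex.measurable_re.comp hH.measurable)).sub_const c
  have h2 : Measurable (fun z : ℂ => (X : ℂ) * (z - a)) :=
    (Continuous.measurable (by fun_prop))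
  exact h1.comp h2

theorem meas_QKD {κ : ℝ → ℝ} {X a : ℝ} (hk : Continuous (kt κ)) : Measurable (QKD κ X a) := by
  have h2 : Measurable (fun z : ℂ => (X : ℂ) * (z - a)) :=
    (Continuous.measurable (by fun_prop))
  exact (hk.measurable.comp h2).div (measurable_id.sub_const _)

theorem cont_ee (ω : ℝ) (s : ℂ) : Continuous (ee ω s) := by
  unfold ee
  fun_prop

theorem bound_ee (ω : ℝ) (s : ℂ) (hω : 0 < ω) (y v : ℝ) (hy : 3 / 2 ≤ y) :
    ‖ee ω s ((y : ℂ) + v * Complex.I)‖ ≤ Real.exp (-(ω * s.re)) := by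
  unfold ee
  rw [Complex.norm_exp]
  refine Real.exp_le_exp.2 ?_
  have h : (-((ω : ℂ) * (s + ((y : ℂ) + v * Complex.I)))).re = -(ω * (s.re + y)) := by
    simp
  rw [h]
  nlinarith

theorem bounds {κ : ℝ → ℝ} {c C X a : ℝ} (hd : ∀ w : ℂ, w ≠ 0 → HasFDerivAt (S1 κ c)
    (Complex.reCLM.comp ((ContinuousLinearMap.mul ℝ ℂ) (kt κ w / w))) w)
    (hC : IsC κ c C) (hX : 1 ≤ X) (ha : 0 < a) (ha1 : a ≤ 1) :
    ∃ B : ℝ, 0 ≤ B ∧ ∀ y v : ℝ, 3 / 2 ≤ y → y ≤ 5 / 2 →
      |Th κ c X a ((y : ℂ) + v * Complex.I)| ≤ B * (1 + v ^ 2)⁻¹ ∧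
      ‖QKD κ X a ((y : ℂ) + v * Complex.I)‖ ≤ B * (1 + v ^ 2)⁻¹ := by
  have hC0 : 0 ≤ C := by
    have h1 := (hC Complex.I).1 (by simp)
    have h2 : |S1 κ c Complex.I| ≤ C * (1 + 1) := by simpa using h1
    have h3 := abs_nonneg (S1 κ c Complex.I)
    linarith
  have hcont : ContinuousOn (fun p : ℝ × ℝ => Th κ c X a ((p.1 : ℂ) + p.2 * Complex.I))
      (Icc (3 / 2) (5 / 2) ×ˢ Icc (-1) 1) := by
    intro p hp
    have hne := ne_of_re (y := p.1) (a := a) (v := p.2) (by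
      have := hp.1.1
      linarith)
    have hX0 : (X : ℂ) ≠ 0 := by
      exact_mod_cast (by linarith : X ≠ 0)
    have h1 := (hd ((X : ℂ) * (((p.1 : ℂ) + p.2 * Complex.I) - a))
      (mul_ne_zero hX0 hne)).continuousAt
    have h2 : ContinuousAt (fun p : ℝ × ℝ => (X : ℂ) * (((p.1 : ℂ) + p.2 * Complex.I) - a)) p := by
      fun_prop
    exact (ContinuousAt.comp (f := fun p : ℝ × ℝ => (X : ℂ) * (((p.1 : ℂ) + p.2 * Complex.I) - a))
      (x := p) h1 h2).continuousWithinAt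
  obtain ⟨B₁, hB₁⟩ := (isCompact_Icc.prod isCompact_Icc).exists_bound_of_continuousOn hcont
  set E : ℝ := 1 + Real.exp (5 / 2 * X) with hE
  have hE0 : 0 < E := by positivity
  have hX0 : 0 < X := by linarith
  refine ⟨2 * |B₁| + 2 * (C * E) + 16 * (X * (C * E)), by positivity, ?_⟩
  intro y v hy1 hy2
  have hre : ((X : ℂ) * (((y : ℂ) + v * Complex.I) - a)).re = X * (y - a) := by simp
  have him : ((X : ℂ) * (((y : ℂ) + v * Complex.I) - a)).im = X * v := by simp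
  have hexp : 1 + Real.exp ((X : ℂ) * (((y : ℂ) + v * Complex.I) - a)).re ≤ E := by
    rw [hre, hE]
    have : Real.exp (X * (y - a)) ≤ Real.exp (5 / 2 * X) := Real.exp_le_exp.2 (by nlinarith)
    linarith
  have hv : 0 < 1 + v ^ 2 := by positivity
  have hp1 : 0 ≤ 2 * |B₁| := by positivity
  have hp2 : 0 ≤ 2 * (C * E) := by positivity
  have hp3 : 0 ≤ 16 * (X * (C * E)) := by positivity
  constructor
  · rcases le_total |v| 1 with h | h
    · have h1 := hB₁ (y, v) ⟨⟨hy1, hy2⟩, abs_le.1 h⟩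
      have h2 : |Th κ c X a ((y : ℂ) + v * Complex.I)| ≤ |B₁| :=
        le_trans h1 (le_abs_self B₁)
      have h3 : v ^ 2 ≤ 1 := by
        have := abs_le.1 h
        nlinarith
      rw [← div_eq_mul_inv, le_div_iff₀ hv]
      have h4 := abs_nonneg (Th κ c X a ((y : ℂ) + v * Complex.I))
      nlinarith [abs_nonneg B₁]
    · have h1 : 1 ≤ |((X : ℂ) * (((y : ℂ) + v * Complex.I) - a)).im| := by
        rw [him, abs_mul, abs_of_pos hX0]
        nlinarith
      have h2 := (hC ((X : ℂ) * (((y : ℂ) + v * Complex.I) - a))).1 h1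
      have h3 : |((X : ℂ) * (((y : ℂ) + v * Complex.I) - a)).im| ^ 3 ≥ (1 + v ^ 2) / 2 := by
        rw [him, abs_mul, abs_of_pos hX0]
        have e1 : |v| ≤ X * |v| := by nlinarith [abs_nonneg v]
        have e2 : |v| ^ 3 ≤ (X * |v|) ^ 3 := pow_le_pow_left₀ (abs_nonneg v) e1 3
        have e3 : |v| ^ 2 ≤ |v| ^ 3 := pow_le_pow_right₀ h (by norm_num)
        have e4 : |v| ^ 2 = v ^ 2 := sq_abs v
        have e5 : 1 ≤ v ^ 2 := by
          rw [← e4]
          nlinarith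
        linarith
      show |S1 κ c ((X : ℂ) * (((y : ℂ) + v * Complex.I) - a))| ≤ _
      have h4 : C * (1 + Real.exp ((X : ℂ) * (((y : ℂ) + v * Complex.I) - a)).re) /
          |((X : ℂ) * (((y : ℂ) + v * Complex.I) - a)).im| ^ 3 ≤ C * E / ((1 + v ^ 2) / 2) := by
        refine div_le_div₀ (by positivity) (mul_le_mul_of_nonneg_left hexp hC0) (by positivity) h3
      refine h2.trans (h4.trans ?_)
      rw [← div_eq_mul_inv, div_le_div_iff₀ (by positivity) hv]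
      have e6 : (0 : ℝ) ≤ (1 + v ^ 2) / 2 := by positivity
      nlinarith [mul_nonneg hp1 e6, mul_nonneg hp3 e6]
  · have hne := ne_of_re (y := y) (a := a) (v := v) (by linarith)
    have hX0' : (X : ℂ) ≠ 0 := by exact_mod_cast hX0.ne'
    have hw : (X : ℂ) * (((y : ℂ) + v * Complex.I) - a) ≠ 0 := mul_ne_zero hX0' hne
    have h1 := (hC ((X : ℂ) * (((y : ℂ) + v * Complex.I) - a))).2.2 hw
    have h2 : QKD κ X a ((y : ℂ) + v * Complex.I) = X *
        (kt κ ((X : ℂ) * (((y : ℂ) + v * Complex.I) - a)) /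
          ((X : ℂ) * (((y : ℂ) + v * Complex.I) - a))) := by
      unfold QKD
      field_simp
    rw [h2, norm_mul, Complex.norm_real, Real.norm_eq_abs, abs_of_pos hX0]
    have h3 : (1 + v ^ 2) / 16 ≤ ‖(X : ℂ) * (((y : ℂ) + v * Complex.I) - a)‖ ^ 4 := by
      have e1 : ‖(X : ℂ) * (((y : ℂ) + v * Complex.I) - a)‖ ^ 2 =
          (X * (y - a)) ^ 2 + (X * v) ^ 2 := by
        rw [Complex.sq_norm, Complex.normSq_apply, hre, him]
        ring
      have e2 : (1 + v ^ 2) / 4 ≤ ‖(X : ℂ) * (((y : ℂ) + v * Complex.I) - a)‖ ^ 2 := by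
        rw [e1]
        have f1 : 1 / 2 ≤ X * (y - a) := by nlinarith
        have f2 : 1 / 4 ≤ (X * (y - a)) ^ 2 := by nlinarith
        have f3 : v ^ 2 ≤ (X * v) ^ 2 := by
          rw [mul_pow]
          have : 1 ≤ X ^ 2 := by nlinarith
          nlinarith [sq_nonneg v]
        nlinarith [sq_nonneg v]
      have e3 : ((1 + v ^ 2) / 4) ^ 2 ≤ (‖(X : ℂ) * (((y : ℂ) + v * Complex.I) - a)‖ ^ 2) ^ 2 :=
        pow_le_pow_left₀ (by positivity) e2 2
      have e4 : (1 + v ^ 2) / 16 ≤ ((1 + v ^ 2) / 4) ^ 2 := by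
        nlinarith [sq_nonneg v, sq_nonneg (v ^ 2)]
      calc (1 + v ^ 2) / 16 ≤ ((1 + v ^ 2) / 4) ^ 2 := e4
        _ ≤ (‖(X : ℂ) * (((y : ℂ) + v * Complex.I) - a)‖ ^ 2) ^ 2 := e3
        _ = ‖(X : ℂ) * (((y : ℂ) + v * Complex.I) - a)‖ ^ 4 := by ring
    have h4 : C * (1 + Real.exp ((X : ℂ) * (((y : ℂ) + v * Complex.I) - a)).re) /
        ‖(X : ℂ) * (((y : ℂ) + v * Complex.I) - a)‖ ^ 4 ≤ C * E / ((1 + v ^ 2) / 16) :=
      div_le_div₀ (by positivity) (mul_le_mul_of_nonneg_left hexp hC0) (by positivity) h3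
    have h5 := mul_le_mul_of_nonneg_left (h1.trans h4) hX0.le
    refine h5.trans ?_
    rw [← div_eq_mul_inv, le_div_iff₀ hv]
    have e7 : X * (C * E / ((1 + v ^ 2) / 16)) * (1 + v ^ 2) = 16 * (X * (C * E)) := by
      field_simp
    rw [e7]
    linarith

/-- integrability of functions supported in the strip -/
theorem dom (h : ℝ × ℝ → ℝ) (hm : Measurable h) (B : ℝ)
    (hb : ∀ y v : ℝ, 3 / 2 ≤ y → y ≤ 5 / 2 → |h (y, v)| ≤ B * (1 + v ^ 2)⁻¹) :
    Integrable ({p : ℝ × ℝ | 3 / 2 ≤ p.1 ∧ p.1 ≤ 5 / 2}.indicator h)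
      ((volume : Measure ℝ).prod (volume : Measure ℝ)) := by
  have hW : MeasurableSet {p : ℝ × ℝ | 3 / 2 ≤ p.1 ∧ p.1 ≤ 5 / 2} :=
    (measurableSet_le measurable_const measurable_fst).inter
      (measurableSet_le measurable_fst measurable_const)
  have h1 : Integrable (fun y : ℝ => (Icc (3 / 2 : ℝ) (5 / 2)).indicator (fun _ => (1 : ℝ)) y)
      volume := by
    refine (integrable_indicator_iff measurableSet_Icc).2 ?_
    exact integrableOn_const (by simp)
  have h2 : Integrable (fun v : ℝ => B * (1 + v ^ 2)⁻¹) volume :=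
    integrable_inv_one_add_sq.const_mul B
  have h3 := h1.mul_prod h2
  refine h3.mono' (hm.indicator hW).aestronglyMeasurable (Filter.Eventually.of_forall ?_)
  rintro ⟨y, v⟩
  by_cases hy : 3 / 2 ≤ y ∧ y ≤ 5 / 2
  · have e1 : ({p : ℝ × ℝ | 3 / 2 ≤ p.1 ∧ p.1 ≤ 5 / 2}.indicator h) (y, v) = h (y, v) :=
      indicator_of_mem (s := {p : ℝ × ℝ | 3 / 2 ≤ p.1 ∧ p.1 ≤ 5 / 2}) hy h
    have e2 : (Icc (3 / 2 : ℝ) (5 / 2)).indicator (fun _ => (1 : ℝ)) y = 1 :=
      indicator_of_mem (s := Icc (3 / 2 : ℝ) (5 / 2)) hy _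
    show ‖_‖ ≤ (Icc (3 / 2 : ℝ) (5 / 2)).indicator (fun _ => (1 : ℝ)) y * (B * (1 + v ^ 2)⁻¹)
    rw [e1, e2, one_mul]
    exact hb y v hy.1 hy.2
  · have e1 : ({p : ℝ × ℝ | 3 / 2 ≤ p.1 ∧ p.1 ≤ 5 / 2}.indicator h) (y, v) = 0 :=
      indicator_of_notMem (s := {p : ℝ × ℝ | 3 / 2 ≤ p.1 ∧ p.1 ≤ 5 / 2}) hy h
    have e2 : (Icc (3 / 2 : ℝ) (5 / 2)).indicator (fun _ => (1 : ℝ)) y = 0 :=
      indicator_of_notMem (s := Icc (3 / 2 : ℝ) (5 / 2)) hy _
    show ‖_‖ ≤ (Icc (3 / 2 : ℝ) (5 / 2)).indicator (fun _ => (1 : ℝ)) y * (B * (1 + v ^ 2)⁻¹)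
    rw [e1, e2, zero_mul, norm_zero]

/-- Slices of the indicator. -/
theorem slice (h : ℝ × ℝ → ℝ) (y v : ℝ) :
    ({p : ℝ × ℝ | 3 / 2 ≤ p.1 ∧ p.1 ≤ 5 / 2}.indicator h) (y, v) =
      (Icc (3 / 2 : ℝ) (5 / 2)).indicator (fun y => h (y, v)) y := by
  by_cases hy : 3 / 2 ≤ y ∧ y ≤ 5 / 2
  · rw [indicator_of_mem (s := {p : ℝ × ℝ | 3 / 2 ≤ p.1 ∧ p.1 ≤ 5 / 2}) hy h,
      indicator_of_mem (s := Icc (3 / 2 : ℝ) (5 / 2)) hy _]
  · rw [indicator_of_notMem (s := {p : ℝ × ℝ | 3 / 2 ≤ p.1 ∧ p.1 ≤ 5 / 2}) hy h,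
      indicator_of_notMem (s := Icc (3 / 2 : ℝ) (5 / 2)) hy _]

theorem tendsto_aux (B : ℝ) : Tendsto (fun v : ℝ => B * (1 + v ^ 2)⁻¹) atTop (𝓝 0) ∧
    Tendsto (fun v : ℝ => B * (1 + v ^ 2)⁻¹) atBot (𝓝 0) := by
  have h1 : Tendsto (fun v : ℝ => 1 + v ^ 2) atTop atTop :=
    tendsto_atTop_add_const_left _ _ (tendsto_pow_atTop (by norm_num))
  have h2 : Tendsto (fun v : ℝ => B * (1 + v ^ 2)⁻¹) atTop (𝓝 0) := by
    have := (tendsto_inv_atTop_zero.comp h1).const_mul B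
    rw [mul_zero] at this
    exact this
  refine ⟨h2, ?_⟩
  have h3 := h2.comp (tendsto_abs_atBot_atTop (G := ℝ))
  refine h3.congr fun v => ?_
  show B * (1 + |v| ^ 2)⁻¹ = _
  rw [sq_abs]

/-- integrability of a function of one variable -/
theorem int1 (h : ℝ → ℂ) (hm : Measurable h) (B : ℝ)
    (hb : ∀ v : ℝ, ‖h v‖ ≤ B * (1 + v ^ 2)⁻¹) : Integrable h :=
  (integrable_inv_one_add_sq.const_mul B).mono' hm.aestronglyMeasurable
    (Filter.Eventually.of_forall hb)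

theorem int1r (h : ℝ → ℝ) (hm : Measurable h) (B : ℝ)
    (hb : ∀ v : ℝ, |h v| ≤ B * (1 + v ^ 2)⁻¹) : Integrable h :=
  (integrable_inv_one_add_sq.const_mul B).mono' hm.aestronglyMeasurable
    (Filter.Eventually.of_forall hb)

section main

variable {κ : ℝ → ℝ} {c X a B ω : ℝ} {s : ℂ}

/-- the integral over a vertical line -/
theorem vert (hd : ∀ w : ℂ, w ≠ 0 → HasFDerivAt (S1 κ c)
    (Complex.reCLM.comp ((ContinuousLinearMap.mul ℝ ℂ) (kt κ w / w))) w)
    (hH : Continuous (Hh κ)) (hk : Continuous (kt κ)) (hX : 1 ≤ X) (ha1 : a ≤ 1)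
    (hω : 0 < ω) (hB0 : 0 ≤ B)
    (hB : ∀ y v : ℝ, 3 / 2 ≤ y → y ≤ 5 / 2 →
      |Th κ c X a ((y : ℂ) + v * Complex.I)| ≤ B * (1 + v ^ 2)⁻¹ ∧
      ‖QKD κ X a ((y : ℂ) + v * Complex.I)‖ ≤ B * (1 + v ^ 2)⁻¹)
    (hF : ∀ c₁ : ℝ, 0 < c₁ →
      ∫ v : ℝ, kt κ (X * (c₁ + v * Complex.I)) / (c₁ + v * Complex.I) *
        Complex.exp (-(ω * (c₁ + v * Complex.I))) = 2 * Real.pi * kk κ (ω / X))
    (y : ℝ) (hy1 : 3 / 2 ≤ y) (hy2 : y ≤ 5 / 2) :
    ∫ v : ℝ, ((QKD κ X a ((y : ℂ) + v * Complex.I)).re * (ee ω s ((y : ℂ) + v * Complex.I)).re +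
      ω * (Th κ c X a ((y : ℂ) + v * Complex.I) * (ee ω s ((y : ℂ) + v * Complex.I)).re)) =
    2 * Real.pi * (kk κ (ω / X) * Real.exp (-(ω * a)) * (Complex.exp (-(ω * s))).re) := by
  have hay : a < y := by linarith
  have hX0 : 0 < X := by linarith
  set D : ℝ := Real.exp (-(ω * s.re)) with hD
  have hD0 : 0 < D := Real.exp_pos _
  have hpath : Measurable (fun v : ℝ => (y : ℂ) + v * Complex.I) :=
    Continuous.measurable (by fun_prop)
  have mT : Measurable (fun v : ℝ => Th κ c X a ((y : ℂ) + v * Complex.I)) :=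
    (meas_Th hH).comp hpath
  have mQ : Measurable (fun v : ℝ => QKD κ X a ((y : ℂ) + v * Complex.I)) :=
    (meas_QKD hk).comp hpath
  have mE : Measurable (fun v : ℝ => ee ω s ((y : ℂ) + v * Complex.I)) :=
    (cont_ee ω s).measurable.comp hpath
  have bE : ∀ v : ℝ, ‖ee ω s ((y : ℂ) + v * Complex.I)‖ ≤ D := fun v => bound_ee ω s hω y v hy1
  -- the complex integral
  have i1 : Integrable (fun v : ℝ => QKD κ X a ((y : ℂ) + v * Complex.I) *
      ee ω s ((y : ℂ) + v * Complex.I)) := by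
    refine int1 _ (mQ.mul mE) (B * D) fun v => ?_
    rw [norm_mul]
    calc ‖QKD κ X a ((y : ℂ) + v * Complex.I)‖ * ‖ee ω s ((y : ℂ) + v * Complex.I)‖
        ≤ (B * (1 + v ^ 2)⁻¹) * D :=
          mul_le_mul (hB y v hy1 hy2).2 (bE v) (norm_nonneg _) (by positivity)
      _ = B * D * (1 + v ^ 2)⁻¹ := by ring
  -- the boundary term
  have i2 : Integrable (fun v : ℝ => -(QKD κ X a ((y : ℂ) + v * Complex.I)).im *
      (ee ω s ((y : ℂ) + v * Complex.I)).im + Th κ c X a ((y : ℂ) + v * Complex.I) *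
      (-(ω * (ee ω s ((y : ℂ) + v * Complex.I)).re))) := by
    refine int1r _ (((Complex.measurable_im.comp mQ).neg.mul (Complex.measurable_im.comp mE)).add
      (mT.mul (((Complex.measurable_re.comp mE).const_mul ω).neg))) (B * D + B * (ω * D))
      fun v => ?_
    have h1 := (hB y v hy1 hy2).1
    have h2 := (hB y v hy1 hy2).2
    have h3 := Complex.abs_im_le_norm (QKD κ X a ((y : ℂ) + v * Complex.I))
    have h4 := Complex.abs_im_le_norm (ee ω s ((y : ℂ) + v * Complex.I))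
    have h5 := Complex.abs_re_le_norm (ee ω s ((y : ℂ) + v * Complex.I))
    have h6 := bE v
    have hv : 0 < (1 + v ^ 2)⁻¹ := by positivity
    refine (abs_add_le _ _).trans ?_
    have k1 : |-(QKD κ X a ((y : ℂ) + v * Complex.I)).im *
        (ee ω s ((y : ℂ) + v * Complex.I)).im| ≤ (B * (1 + v ^ 2)⁻¹) * D := by
      rw [abs_mul, abs_neg]
      exact mul_le_mul (h3.trans h2) (h4.trans h6) (abs_nonneg _) (by positivity)
    have k2 : |Th κ c X a ((y : ℂ) + v * Complex.I) *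
        (-(ω * (ee ω s ((y : ℂ) + v * Complex.I)).re))| ≤ (B * (1 + v ^ 2)⁻¹) * (ω * D) := by
      rw [abs_mul, abs_neg, abs_mul, abs_of_pos hω]
      exact mul_le_mul h1 (mul_le_mul_of_nonneg_left (h5.trans h6) hω.le) (by positivity)
        (by positivity)
    calc _ ≤ (B * (1 + v ^ 2)⁻¹) * D + (B * (1 + v ^ 2)⁻¹) * (ω * D) := add_le_add k1 k2
      _ = (B * D + B * (ω * D)) * (1 + v ^ 2)⁻¹ := by ring
  have z2 : ∫ v : ℝ, (-(QKD κ X a ((y : ℂ) + v * Complex.I)).im *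
      (ee ω s ((y : ℂ) + v * Complex.I)).im + Th κ c X a ((y : ℂ) + v * Complex.I) *
      (-(ω * (ee ω s ((y : ℂ) + v * Complex.I)).re))) = 0 := by
    have hb : ∀ v : ℝ, ‖Th κ c X a ((y : ℂ) + v * Complex.I) *
        (ee ω s ((y : ℂ) + v * Complex.I)).im‖ ≤ (B * D) * (1 + v ^ 2)⁻¹ := by
      intro v
      rw [norm_mul, Real.norm_eq_abs, Real.norm_eq_abs]
      calc _ ≤ (B * (1 + v ^ 2)⁻¹) * D :=
            mul_le_mul (hB y v hy1 hy2).1 ((Complex.abs_im_le_norm _).trans (bE v))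
              (abs_nonneg _) (by positivity)
        _ = B * D * (1 + v ^ 2)⁻¹ := by ring
    have t1 := squeeze_zero_norm hb (tendsto_aux (B * D)).1
    have t2 := squeeze_zero_norm hb (tendsto_aux (B * D)).2
    have h1 := integral_of_hasDerivAt_of_tendsto
      (f := fun v : ℝ => Th κ c X a ((y : ℂ) + v * Complex.I) *
        (ee ω s ((y : ℂ) + v * Complex.I)).im)
      (fun v => (Th_v hd hX0 y v hay).mul (ee_v ω s y v)) i2 t2 t1
    rw [sub_zero] at h1
    exact h1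
  have e1 : ∀ v : ℝ, (QKD κ X a ((y : ℂ) + v * Complex.I)).re *
      (ee ω s ((y : ℂ) + v * Complex.I)).re +
      ω * (Th κ c X a ((y : ℂ) + v * Complex.I) * (ee ω s ((y : ℂ) + v * Complex.I)).re) =
      (QKD κ X a ((y : ℂ) + v * Complex.I) * ee ω s ((y : ℂ) + v * Complex.I)).re -
      (-(QKD κ X a ((y : ℂ) + v * Complex.I)).im *
      (ee ω s ((y : ℂ) + v * Complex.I)).im + Th κ c X a ((y : ℂ) + v * Complex.I) *
      (-(ω * (ee ω s ((y : ℂ) + v * Complex.I)).re))) := by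
    intro v
    rw [Complex.mul_re]
    ring
  have e2 : ∫ v : ℝ, (QKD κ X a ((y : ℂ) + v * Complex.I) *
      ee ω s ((y : ℂ) + v * Complex.I)).re =
      (∫ v : ℝ, QKD κ X a ((y : ℂ) + v * Complex.I) * ee ω s ((y : ℂ) + v * Complex.I)).re :=
    integral_re i1
  have e3 : ∫ v : ℝ, QKD κ X a ((y : ℂ) + v * Complex.I) * ee ω s ((y : ℂ) + v * Complex.I) =
      Complex.exp (-(ω * (s + a))) * (2 * Real.pi * kk κ (ω / X)) := by
    rw [← hF (y - a) (by linarith), ← integral_const_mul]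
    refine integral_congr_ae (Filter.Eventually.of_forall fun v => ?_)
    have f1 : (y : ℂ) + v * Complex.I - a = ((y - a : ℝ) : ℂ) + v * Complex.I := by
      push_cast
      ring
    show QKD κ X a ((y : ℂ) + v * Complex.I) * ee ω s ((y : ℂ) + v * Complex.I) =
      Complex.exp (-(ω * (s + a))) * (kt κ (X * (((y - a : ℝ) : ℂ) + v * Complex.I)) /
        (((y - a : ℝ) : ℂ) + v * Complex.I) *
        Complex.exp (-(ω * (((y - a : ℝ) : ℂ) + v * Complex.I))))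
    have f2 : ee ω s ((y : ℂ) + v * Complex.I) = Complex.exp (-(ω * (s + a))) *
        Complex.exp (-(ω * (((y - a : ℝ) : ℂ) + v * Complex.I))) := by
      unfold ee
      rw [← Complex.exp_add]
      congr 1
      push_cast
      ring
    unfold QKD
    rw [f1, f2]
    ring
  have e4 : (Complex.exp (-(ω * (s + a))) * (2 * Real.pi * kk κ (ω / X))).re =
      2 * Real.pi * (kk κ (ω / X) * Real.exp (-(ω * a)) * (Complex.exp (-(ω * s))).re) := by
    have f1 : Complex.exp (-(ω * (s + a))) =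
        Complex.exp (-(ω * s)) * ((Real.exp (-(ω * a)) : ℝ) : ℂ) := by
      rw [Complex.ofReal_exp, ← Complex.exp_add]
      congr 1
      push_cast
      ring
    have f2 : (2 * Real.pi * kk κ (ω / X) : ℂ) = ((2 * Real.pi * kk κ (ω / X) : ℝ) : ℂ) := by
      push_cast
      ring
    rw [f1, f2, Complex.re_mul_ofReal, Complex.re_mul_ofReal]
    ring
  calc _ = ∫ v : ℝ, ((QKD κ X a ((y : ℂ) + v * Complex.I) *
        ee ω s ((y : ℂ) + v * Complex.I)).re -
      (-(QKD κ X a ((y : ℂ) + v * Complex.I)).im *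
      (ee ω s ((y : ℂ) + v * Complex.I)).im + Th κ c X a ((y : ℂ) + v * Complex.I) *
      (-(ω * (ee ω s ((y : ℂ) + v * Complex.I)).re)))) :=
        integral_congr_ae (Filter.Eventually.of_forall e1)
    _ = _ := by
        have i1r : Integrable (fun v : ℝ => (QKD κ X a ((y : ℂ) + v * Complex.I) *
          ee ω s ((y : ℂ) + v * Complex.I)).re) := i1.re
        rw [integral_sub i1r i2, z2, sub_zero, e2, e3, e4]

/-- the total derivative in `y` -/
def g0 (κ : ℝ → ℝ) (c X a ω : ℝ) (s : ℂ) (p : ℝ × ℝ) : ℝ :=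
  deriv (deriv cy) p.1 * (Th κ c X a ((p.1 : ℂ) + p.2 * Complex.I) *
    (ee ω s ((p.1 : ℂ) + p.2 * Complex.I)).re) +
  deriv cy p.1 * ((QKD κ X a ((p.1 : ℂ) + p.2 * Complex.I)).re *
    (ee ω s ((p.1 : ℂ) + p.2 * Complex.I)).re +
    Th κ c X a ((p.1 : ℂ) + p.2 * Complex.I) *
      (-(ω * (ee ω s ((p.1 : ℂ) + p.2 * Complex.I)).re)))

/-- the remaining part -/
def k0 (κ : ℝ → ℝ) (c X a ω : ℝ) (s : ℂ) (p : ℝ × ℝ) : ℝ :=
  deriv cy p.1 * ((QKD κ X a ((p.1 : ℂ) + p.2 * Complex.I)).re *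
    (ee ω s ((p.1 : ℂ) + p.2 * Complex.I)).re +
    ω * (Th κ c X a ((p.1 : ℂ) + p.2 * Complex.I) *
      (ee ω s ((p.1 : ℂ) + p.2 * Complex.I)).re))

/-- the function itself -/
def f0 (κ : ℝ → ℝ) (c X a : ℝ) (p : ℝ × ℝ) : ℝ :=
  deriv (deriv cy) p.1 * Th κ c X a ((p.1 : ℂ) + p.2 * Complex.I) +
    2 * (deriv cy p.1 * (QKD κ X a ((p.1 : ℂ) + p.2 * Complex.I)).re)

theorem split (p : ℝ × ℝ) : f0 κ c X a p * (ee ω s ((p.1 : ℂ) + p.2 * Complex.I)).re =
    g0 κ c X a ω s p + k0 κ c X a ω s p := by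
  unfold f0 g0 k0
  ring

theorem cy_bd : ∃ M : ℝ, 0 ≤ M ∧ ∀ y : ℝ, 3 / 2 ≤ y → y ≤ 5 / 2 →
    |deriv cy y| ≤ M ∧ |deriv (deriv cy) y| ≤ M := by
  obtain ⟨M1, h1⟩ := (isCompact_Icc (a := (3 / 2 : ℝ)) (b := 5 / 2)).exists_bound_of_continuousOn
    cy_c1.continuousOn
  obtain ⟨M2, h2⟩ := (isCompact_Icc (a := (3 / 2 : ℝ)) (b := 5 / 2)).exists_bound_of_continuousOn
    cy_c2.continuousOn
  refine ⟨|M1| + |M2|, by positivity, fun y ha hb => ⟨?_, ?_⟩⟩
  · have := h1 y ⟨ha, hb⟩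
    rw [Real.norm_eq_abs] at this
    linarith [le_abs_self M1, abs_nonneg M2]
  · have := h2 y ⟨ha, hb⟩
    rw [Real.norm_eq_abs] at this
    linarith [le_abs_self M2, abs_nonneg M1]

end main

/-- a product of bounded quantities -/
theorem abs_mul_le {x y A B : ℝ} (hx : |x| ≤ A) (hy : |y| ≤ B) : |x * y| ≤ A * B := by
  rw [abs_mul]
  exact mul_le_mul hx hy (abs_nonneg _) ((abs_nonneg _).trans hx)

end I_KDn

open I_KDn in
/-- **KDn.** -/
theorem KDn_pf (h1 : S_Kkt) (h2 : S_KHh) (h3 : S_KFo) : S_KDn := by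
  intro κ c C hκ hC X a ω s hX ha ha1 hω
  have hX0 : 0 < X := by linarith
  have hd := (h2 κ hκ).2.2 c
  have hH : Continuous (Hh κ) := (h2 κ hκ).1.continuous
  have hk : Continuous (kt κ) := (h1 κ hκ).1.continuous
  obtain ⟨B, hB0, hB⟩ := bounds hd hC hX ha ha1
  obtain ⟨M, hM0, hM⟩ := cy_bd
  set D : ℝ := Real.exp (-(ω * s.re)) with hD
  have hD0 : 0 < D := Real.exp_pos _
  -- measurability
  have hpath : Measurable (fun p : ℝ × ℝ => (p.1 : ℂ) + p.2 * Complex.I) :=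
    Continuous.measurable (by fun_prop)
  have mT : Measurable (fun p : ℝ × ℝ => Th κ c X a ((p.1 : ℂ) + p.2 * Complex.I)) :=
    (meas_Th hH).comp hpath
  have mQ : Measurable (fun p : ℝ × ℝ => (QKD κ X a ((p.1 : ℂ) + p.2 * Complex.I)).re) :=
    Complex.measurable_re.comp ((meas_QKD hk).comp hpath)
  have mE : Measurable (fun p : ℝ × ℝ => (ee ω s ((p.1 : ℂ) + p.2 * Complex.I)).re) :=
    Complex.measurable_re.comp ((cont_ee ω s).measurable.comp hpath)
  have m1 : Measurable (fun p : ℝ × ℝ => deriv cy p.1) := cy_c1.measurable.comp measurable_fst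
  have m2 : Measurable (fun p : ℝ × ℝ => deriv (deriv cy) p.1) :=
    cy_c2.measurable.comp measurable_fst
  have mf : Measurable (f0 κ c X a) := (m2.mul mT).add ((m1.mul mQ).const_mul 2)
  have mg : Measurable (g0 κ c X a ω s) :=
    (m2.mul (mT.mul mE)).add (m1.mul ((mQ.mul mE).add (mT.mul ((mE.const_mul ω).neg))))
  have mk : Measurable (k0 κ c X a ω s) :=
    m1.mul ((mQ.mul mE).add ((mT.mul mE).const_mul ω))
  -- bounds
  have bE : ∀ y v : ℝ, 3 / 2 ≤ y → |(ee ω s ((y : ℂ) + v * Complex.I)).re| ≤ D := fun y v hy =>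
    (Complex.abs_re_le_norm _).trans (bound_ee ω s hω y v hy)
  have bQ : ∀ y v : ℝ, 3 / 2 ≤ y → y ≤ 5 / 2 →
      |(QKD κ X a ((y : ℂ) + v * Complex.I)).re| ≤ B * (1 + v ^ 2)⁻¹ := fun y v hy hy' =>
    (Complex.abs_re_le_norm _).trans (hB y v hy hy').2
  have bT : ∀ y v : ℝ, 3 / 2 ≤ y → y ≤ 5 / 2 →
      |Th κ c X a ((y : ℂ) + v * Complex.I)| ≤ B * (1 + v ^ 2)⁻¹ := fun y v hy hy' =>
    (hB y v hy hy').1
  have bf : ∀ y v : ℝ, 3 / 2 ≤ y → y ≤ 5 / 2 →
      |f0 κ c X a (y, v)| ≤ (3 * (M * B)) * (1 + v ^ 2)⁻¹ := by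
    intro y v hy hy'
    have k1 := abs_mul_le (hM y hy hy').2 (bT y v hy hy')
    have k2 := abs_mul_le (hM y hy hy').1 (bQ y v hy hy')
    have k3 : |2 * (deriv cy y * (QKD κ X a ((y : ℂ) + v * Complex.I)).re)| ≤
        2 * (M * (B * (1 + v ^ 2)⁻¹)) := by
      rw [abs_mul, abs_two]
      linarith
    refine (abs_add_le _ _).trans ((add_le_add k1 k3).trans (le_of_eq ?_))
    ring
  have bg : ∀ y v : ℝ, 3 / 2 ≤ y → y ≤ 5 / 2 →
      |g0 κ c X a ω s (y, v)| ≤ (M * (B * D) + M * (B * D + B * (ω * D))) * (1 + v ^ 2)⁻¹ := by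
    intro y v hy hy'
    have k1 := abs_mul_le (hM y hy hy').2 (abs_mul_le (bT y v hy hy') (bE y v hy))
    have k2 := abs_mul_le (bQ y v hy hy') (bE y v hy)
    have k3 : |-(ω * (ee ω s ((y : ℂ) + v * Complex.I)).re)| ≤ ω * D := by
      rw [abs_neg, abs_mul, abs_of_pos hω]
      exact mul_le_mul_of_nonneg_left (bE y v hy) hω.le
    have k4 := abs_mul_le (bT y v hy hy') k3
    have k5 := abs_mul_le (hM y hy hy').1 ((abs_add_le _ _).trans (add_le_add k2 k4))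
    refine (abs_add_le _ _).trans ((add_le_add k1 k5).trans (le_of_eq ?_))
    ring
  have bk : ∀ y v : ℝ, 3 / 2 ≤ y → y ≤ 5 / 2 →
      |k0 κ c X a ω s (y, v)| ≤ (M * (B * D + ω * (B * D))) * (1 + v ^ 2)⁻¹ := by
    intro y v hy hy'
    have k2 := abs_mul_le (bQ y v hy hy') (bE y v hy)
    have k3 := abs_mul_le (bT y v hy hy') (bE y v hy)
    have k4 : |ω * (Th κ c X a ((y : ℂ) + v * Complex.I) *
        (ee ω s ((y : ℂ) + v * Complex.I)).re)| ≤ ω * (B * (1 + v ^ 2)⁻¹ * D) := by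
      rw [abs_mul ω, abs_of_pos hω]
      exact mul_le_mul_of_nonneg_left k3 hω.le
    have k5 := abs_mul_le (hM y hy hy').1 ((abs_add_le _ _).trans (add_le_add k2 k4))
    refine k5.trans (le_of_eq ?_)
    ring
  have If := dom _ mf _ bf
  have Ig := dom _ mg _ bg
  have Ik := dom _ mk _ bk
  -- the integrals
  have Zg : ∫ p : ℝ × ℝ, ({p : ℝ × ℝ | 3 / 2 ≤ p.1 ∧ p.1 ≤ 5 / 2}.indicator
      (g0 κ c X a ω s)) p ∂((volume : Measure ℝ).prod (volume : Measure ℝ)) = 0 := by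
    rw [integral_prod_symm _ Ig]
    refine (integral_congr_ae (Filter.Eventually.of_forall fun v => ?_)).trans
      (integral_zero ℝ ℝ)
    show ∫ y : ℝ, ({p : ℝ × ℝ | 3 / 2 ≤ p.1 ∧ p.1 ≤ 5 / 2}.indicator
      (g0 κ c X a ω s)) (y, v) = 0
    simp_rw [slice]
    rw [integral_indicator measurableSet_Icc, integral_Icc_eq_integral_Ioc,
      ← intervalIntegral.integral_of_le (by norm_num)]
    have hI : IntervalIntegrable (fun y => g0 κ c X a ω s (y, v)) volume (3 / 2) (5 / 2) := by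
      rw [intervalIntegrable_iff_integrableOn_Icc_of_le (by norm_num)]
      refine Measure.integrableOn_of_bounded (M := (M * (B * D) + M * (B * D + B * (ω * D))) *
        (1 + v ^ 2)⁻¹) (by simp)
        ((mg.comp (measurable_id.prodMk measurable_const)).aestronglyMeasurable) ?_
      refine (ae_restrict_iff' measurableSet_Icc).2 (Filter.Eventually.of_forall fun y hy => ?_)
      exact bg y v hy.1 hy.2
    have hder : ∀ y ∈ uIcc (3 / 2 : ℝ) (5 / 2), HasDerivAt (fun r : ℝ => deriv cy r *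
        (Th κ c X a ((r : ℂ) + v * Complex.I) * (ee ω s ((r : ℂ) + v * Complex.I)).re))
        (g0 κ c X a ω s (y, v)) y := by
      intro y hy
      rw [uIcc_of_le (by norm_num)] at hy
      exact (cy_d2 y).mul ((Th_y hd hX0 y v (by linarith [hy.1])).mul (ee_y ω s y v))
    rw [intervalIntegral.integral_eq_sub_of_hasDerivAt hder hI, cy_dl, cy_dr]
    ring
  have Zk : ∫ p : ℝ × ℝ, ({p : ℝ × ℝ | 3 / 2 ≤ p.1 ∧ p.1 ≤ 5 / 2}.indicator
      (k0 κ c X a ω s)) p ∂((volume : Measure ℝ).prod (volume : Measure ℝ)) =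
      -(2 * Real.pi * (kk κ (ω / X) * Real.exp (-(ω * a)) * (Complex.exp (-(ω * s))).re)) := by
    set J : ℝ := 2 * Real.pi * (kk κ (ω / X) * Real.exp (-(ω * a)) *
      (Complex.exp (-(ω * s))).re) with hJ
    rw [integral_prod _ Ik]
    have e1 : ∀ y : ℝ, ∫ v : ℝ, ({p : ℝ × ℝ | 3 / 2 ≤ p.1 ∧ p.1 ≤ 5 / 2}.indicator
        (k0 κ c X a ω s)) (y, v) = (Icc (3 / 2 : ℝ) (5 / 2)).indicator
        (fun y => deriv cy y * J) y := by
      intro y
      simp_rw [slice]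
      by_cases hy : y ∈ Icc (3 / 2 : ℝ) (5 / 2)
      · simp_rw [indicator_of_mem hy]
        show ∫ v : ℝ, deriv cy y * ((QKD κ X a ((y : ℂ) + v * Complex.I)).re *
          (ee ω s ((y : ℂ) + v * Complex.I)).re + ω * (Th κ c X a ((y : ℂ) + v * Complex.I) *
          (ee ω s ((y : ℂ) + v * Complex.I)).re)) = deriv cy y * J
        rw [integral_const_mul, vert hd hH hk hX ha1 hω hB0 hB
          (fun c₁ hc => (h3 κ hκ X c₁ ω hX0 hc).2) y hy.1 hy.2]
      · simp_rw [indicator_of_notMem hy]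
        exact integral_zero ℝ ℝ
    simp_rw [e1]
    rw [integral_indicator measurableSet_Icc, integral_Icc_eq_integral_Ioc,
      ← intervalIntegral.integral_of_le (by norm_num), intervalIntegral.integral_mul_const,
      intervalIntegral.integral_eq_sub_of_hasDerivAt (fun y _ => cy_d1 y)
        (cy_c1.intervalIntegrable _ _), cy_left, cy_right _ le_rfl]
    ring
  -- transfer to the plane
  have hz : ∀ z : ℂ, (z.re : ℂ) + z.im * Complex.I = z := Complex.re_add_im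
  have hF : ∀ z : ℂ, (if 3 / 2 ≤ z.re then deriv (deriv cy) z.re * S1 κ c (X * (z - a)) +
      2 * (deriv cy z.re * (kt κ (X * (z - a)) / (z - a)).re) else 0) =
      ({p : ℝ × ℝ | 3 / 2 ≤ p.1 ∧ p.1 ≤ 5 / 2}.indicator (f0 κ c X a))
        (Complex.measurableEquivRealProd z) := by
    intro z
    rw [Complex.measurableEquivRealProd_apply]
    by_cases hy : 3 / 2 ≤ z.re
    · rw [if_pos hy]
      have e1 : f0 κ c X a (z.re, z.im) = deriv (deriv cy) z.re * S1 κ c (X * (z - a)) +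
          2 * (deriv cy z.re * (kt κ (X * (z - a)) / (z - a)).re) := by
        unfold f0 I_KDn.Th QKD
        rw [hz]
      by_cases hy' : z.re ≤ 5 / 2
      · rw [indicator_of_mem (s := {p : ℝ × ℝ | 3 / 2 ≤ p.1 ∧ p.1 ≤ 5 / 2}) ⟨hy, hy'⟩, e1]
      · rw [indicator_of_notMem (s := {p : ℝ × ℝ | 3 / 2 ≤ p.1 ∧ p.1 ≤ 5 / 2})
          (fun h => hy' h.2)]
        obtain ⟨d1, d2⟩ := cy_out z.re (not_le.1 hy')
        rw [d1, d2]
        ring
    · rw [if_neg hy, indicator_of_notMem (s := {p : ℝ × ℝ | 3 / 2 ≤ p.1 ∧ p.1 ≤ 5 / 2})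
        (fun h => hy h.1)]
  constructor
  · have h := (Complex.volume_preserving_equiv_real_prod.integrable_comp_emb
      Complex.measurableEquivRealProd.measurableEmbedding).2 If
    refine h.congr (Filter.Eventually.of_forall fun z => ?_)
    exact (hF z).symm
  · have e1 : ∀ z : ℂ, (if 3 / 2 ≤ z.re then deriv (deriv cy) z.re * S1 κ c (X * (z - a)) +
        2 * (deriv cy z.re * (kt κ (X * (z - a)) / (z - a)).re) else 0) *
        (Complex.exp (-(ω * (s + z)))).re =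
        (fun p : ℝ × ℝ => ({p : ℝ × ℝ | 3 / 2 ≤ p.1 ∧ p.1 ≤ 5 / 2}.indicator
          (g0 κ c X a ω s)) p + ({p : ℝ × ℝ | 3 / 2 ≤ p.1 ∧ p.1 ≤ 5 / 2}.indicator
          (k0 κ c X a ω s)) p) (Complex.measurableEquivRealProd z) := by
      intro z
      rw [hF z, Complex.measurableEquivRealProd_apply]
      by_cases hy : (z.re, z.im) ∈ {p : ℝ × ℝ | 3 / 2 ≤ p.1 ∧ p.1 ≤ 5 / 2}
      · simp only [indicator_of_mem hy]
        rw [← split]
        show _ = f0 κ c X a (z.re, z.im) * (ee ω s ((z.re : ℂ) + z.im * Complex.I)).re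
        rw [hz]
        rfl
      · simp only [indicator_of_notMem hy]
        ring
    rw [integral_congr_ae (Filter.Eventually.of_forall e1)]
    rw [Complex.volume_preserving_equiv_real_prod.integral_comp' (g := fun p : ℝ × ℝ =>
      ({p : ℝ × ℝ | 3 / 2 ≤ p.1 ∧ p.1 ≤ 5 / 2}.indicator
          (g0 κ c X a ω s)) p + ({p : ℝ × ℝ | 3 / 2 ≤ p.1 ∧ p.1 ≤ 5 / 2}.indicator
          (k0 κ c X a ω s)) p)]
    have e2 := integral_add Ig Ik
    rw [Zg, Zk, zero_add] at e2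
    exact e2

end Pool.Agent.Work.MP_56b8f5_nt.HZ
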