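import Pool.Agent.Work.MP_56b8f5_nt.HZ.StmtsA

/-!
MP_56b8f5_nt, block HZ, part (a), item KFo: Fourier inversion for the kernel.
-/

set_option autoImplicit false

open MeasureTheory Set Filter Topology

noncomputable section

namespace Pool.Agent.Work.MP_56b8f5_nt.HZ

open Pool.Agent.Work.MP_56b8f5_nt.EM Pool.Agent.Work.MP_56b8f5_nt.WM Pool.Agent.Work.MP_56b8f5_nt.SH

namespace I_KFo

/-- The function `e^{sξ} kk(ξ/X)`. -/
def g (κ : ℝ → ℝ) (X : ℝ) (s : ℂ) (ξ : ℝ) : ℂ := Complex.exp (s * ξ) * (kk κ (ξ / X) : ℂ)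

theorem exp_norm (s : ℂ) (ξ : ℝ) : ‖Complex.exp (s * ξ)‖ = Real.exp (s.re * ξ) := by
  rw [Complex.norm_exp, Complex.re_mul_ofReal]

theorem g_le {κ : ℝ → ℝ} (hk : ∀ ξ : ℝ, 0 ≤ kk κ ξ ∧ kk κ ξ ≤ 1) (X : ℝ) (s : ℂ) (ξ : ℝ) :
    ‖g κ X s ξ‖ ≤ Real.exp (s.re * ξ) := by
  unfold g
  rw [norm_mul, exp_norm, Complex.norm_real, Real.norm_of_nonneg (hk _).1]
  exact mul_le_of_le_one_right (Real.exp_pos _).le (hk _).2

theorem g_zero {κ : ℝ → ℝ} (hk : ∀ ξ : ℝ, 3 / 4 ≤ ξ → kk κ ξ = 0) {X : ℝ} (hX : 0 < X) (s : ℂ)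
    {ξ : ℝ} (h : X ≤ ξ) : g κ X s ξ = 0 := by
  unfold g
  have h1 : (3 : ℝ) / 4 ≤ ξ / X := by
    rw [le_div_iff₀ hX]
    linarith
  rw [hk _ h1, Complex.ofReal_zero, mul_zero]

theorem kk_cont {κ : ℝ → ℝ} (hk : ∀ ξ : ℝ, HasDerivAt (kk κ) (-(κ ξ)) ξ) : Continuous (kk κ) :=
  continuous_iff_continuousAt.mpr fun ξ => (hk ξ).continuousAt

theorem g_cont {κ : ℝ → ℝ} (hk : ∀ ξ : ℝ, HasDerivAt (kk κ) (-(κ ξ)) ξ) (X : ℝ) (s : ℂ) :
    Continuous (g κ X s) := by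
  have h1 := kk_cont hk
  unfold g
  fun_prop

theorem g_int {κ : ℝ → ℝ} (hk : ∀ ξ : ℝ, 0 ≤ kk κ ξ ∧ kk κ ξ ≤ 1 ∧ HasDerivAt (kk κ) (-(κ ξ)) ξ)
    (hz : ∀ ξ : ℝ, 3 / 4 ≤ ξ → kk κ ξ = 0) {X : ℝ} (hX : 0 < X) {s : ℂ} (hs : 0 < s.re) :
    Integrable (g κ X s) := by
  have h1 : Integrable ((Iic X).indicator fun ξ : ℝ => Real.exp (s.re * ξ)) :=
    (integrable_indicator_iff measurableSet_Iic).mpr (integrableOn_exp_mul_Iic hs X)
  refine h1.mono' (g_cont (fun ξ => (hk ξ).2.2) X s).aestronglyMeasurable ?_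
  refine Eventually.of_forall fun ξ => ?_
  by_cases h : ξ ≤ X
  · rw [indicator_of_mem (mem_Iic.mpr h)]
    exact g_le (fun ξ => ⟨(hk ξ).1, (hk ξ).2.1⟩) X s ξ
  · rw [indicator_of_notMem (by simpa using h), g_zero hz hX s (not_le.mp h).le, norm_zero]

theorem h_int {κ : ℝ → ℝ} (hκ : IsKer κ) {X : ℝ} (hX : 0 < X) (s : ℂ) :
    Integrable (fun ξ : ℝ => Complex.exp (s * ξ) * (κ (ξ / X) : ℂ) / (X * s)) := by
  have hc : Continuous κ := hκ.smooth.continuous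
  refine Continuous.integrable_of_hasCompactSupport (by fun_prop) ?_
  refine HasCompactSupport.of_support_subset_isCompact (isCompact_Icc (a := X / 4) (b := X)) ?_
  intro ξ hξ
  have h1 : κ (ξ / X) ≠ 0 := by
    intro h0
    apply hξ
    simp only [h0, Complex.ofReal_zero, mul_zero, zero_div]
  obtain ⟨h2, h3⟩ := hκ.supp _ h1
  rw [le_div_iff₀ hX] at h2
  rw [div_le_iff₀ hX] at h3
  exact ⟨by linarith, by linarith⟩

theorem g_deriv {κ : ℝ → ℝ} (hk : ∀ ξ : ℝ, HasDerivAt (kk κ) (-(κ ξ)) ξ) {X : ℝ} (hX : 0 < X)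
    {s : ℂ} (hs : s ≠ 0) (ξ : ℝ) :
    HasDerivAt (fun ξ : ℝ => g κ X s ξ / s)
      (g κ X s ξ - Complex.exp (s * ξ) * (κ (ξ / X) : ℂ) / (X * s)) ξ := by
  have e1 : HasDerivAt (fun ξ : ℝ => Complex.exp (s * ξ)) (Complex.exp (s * ξ) * (s * 1)) ξ :=
    ((Complex.ofRealCLM.hasDerivAt (x := ξ)).const_mul s).cexp
  have e0 : HasDerivAt (fun x : ℝ => x / X) (1 / X) ξ := (hasDerivAt_id ξ).div_const X
  have e2 : HasDerivAt (fun ξ : ℝ => kk κ (ξ / X)) (-(κ (ξ / X)) * (1 / X)) ξ :=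
    HasDerivAt.comp (h₂ := kk κ) (h := fun x : ℝ => x / X) ξ (hk (ξ / X)) e0
  have e3 : HasDerivAt (fun ξ : ℝ => (kk κ (ξ / X) : ℂ)) ((-(κ (ξ / X)) * (1 / X) : ℝ) : ℂ) ξ :=
    e2.ofReal_comp
  have e4 := (e1.mul e3).div_const s
  have hX' : (X : ℂ) ≠ 0 := by exact_mod_cast hX.ne'
  refine e4.congr_deriv ?_
  unfold g
  push_cast
  field_simp
  ring

theorem g_integral {κ : ℝ → ℝ} (hκ : IsKer κ)
    (hk : ∀ ξ : ℝ, 0 ≤ kk κ ξ ∧ kk κ ξ ≤ 1 ∧ HasDerivAt (kk κ) (-(κ ξ)) ξ)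
    (hz : ∀ ξ : ℝ, 3 / 4 ≤ ξ → kk κ ξ = 0) {X : ℝ} (hX : 0 < X) {s : ℂ} (hs : 0 < s.re) :
    ∫ ξ : ℝ, g κ X s ξ = kt κ (X * s) / s := by
  have hs0 : s ≠ 0 := by
    intro h
    rw [h, Complex.zero_re] at hs
    exact lt_irrefl _ hs
  have hX' : (X : ℂ) ≠ 0 := by exact_mod_cast hX.ne'
  have hI := g_int hk hz hX hs
  have hJ := h_int hκ hX s
  have h1 := integral_of_hasDerivAt_of_tendsto (f := fun ξ : ℝ => g κ X s ξ / s)
    (f' := fun ξ : ℝ => g κ X s ξ - Complex.exp (s * ξ) * (κ (ξ / X) : ℂ) / (X * s))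
    (m := 0) (n := 0) (g_deriv (fun ξ => (hk ξ).2.2) hX hs0) (hI.sub hJ) ?_ ?_
  · rw [integral_sub hI hJ, sub_zero, sub_eq_zero] at h1
    rw [h1]
    have h2 : ∀ ξ : ℝ, Complex.exp (s * ξ) * (κ (ξ / X) : ℂ) / (X * s) =
        (fun τ : ℝ => (κ τ : ℂ) * Complex.exp (τ * (X * s)) / (X * s)) (ξ / X) := by
      intro ξ
      have e : ((ξ / X : ℝ) : ℂ) * (X * s) = s * ξ := by
        push_cast
        field_simp
      simp only [e]
      ring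
    simp_rw [h2]
    rw [MeasureTheory.Measure.integral_comp_div
      (fun τ : ℝ => (κ τ : ℂ) * Complex.exp (τ * (X * s)) / (X * s)) X, integral_div,
      abs_of_pos hX]
    have h3 : ∫ τ : ℝ, (κ τ : ℂ) * Complex.exp (τ * (X * s)) = kt κ (X * s) := rfl
    rw [h3, Complex.real_smul]
    field_simp
  · have e1 : Tendsto (fun ξ : ℝ => Real.exp (s.re * ξ) / ‖s‖) atBot (𝓝 0) := by
      have e2 : Tendsto (fun ξ : ℝ => Real.exp (s.re * ξ)) atBot (𝓝 0) :=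
        Real.tendsto_exp_atBot.comp (Tendsto.const_mul_atBot hs tendsto_id)
      have e3 := e2.div_const ‖s‖
      rwa [zero_div] at e3
    refine squeeze_zero_norm (fun ξ => ?_) e1
    rw [norm_div]
    exact div_le_div_of_nonneg_right (g_le (fun ξ => ⟨(hk ξ).1, (hk ξ).2.1⟩) X s ξ)
      (norm_nonneg s)
  · refine tendsto_const_nhds.congr' ?_
    filter_upwards [eventually_ge_atTop X] with ξ hξ
    rw [g_zero hz hX s hξ, zero_div]

/-- The left side. -/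
def F (κ : ℝ → ℝ) (X c₁ v : ℝ) : ℂ := kt κ (X * (c₁ + v * Complex.I)) / (c₁ + v * Complex.I)

theorem sre (c₁ v : ℝ) : ((c₁ : ℂ) + v * Complex.I).re = c₁ := by simp

theorem sne {c₁ : ℝ} (hc : 0 < c₁) (v : ℝ) : (c₁ : ℂ) + v * Complex.I ≠ 0 := by
  intro h
  have h1 := congrArg Complex.re h
  rw [sre, Complex.zero_re] at h1
  exact hc.ne' h1

theorem F_int {κ : ℝ → ℝ} (hd : Differentiable ℂ (kt κ))
    (hb : ∃ C : ℝ, 1 ≤ C ∧ ∀ w : ℂ, ‖kt κ w‖ * (1 + ‖w‖) ^ 1 ≤ C * (1 + Real.exp w.re))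
    {X c₁ : ℝ} (hX : 0 < X) (hc : 0 < c₁) : Integrable (F κ X c₁) := by
  obtain ⟨C, hC1, hC⟩ := hb
  have hcont : Continuous (F κ X c₁) := by
    unfold F
    have h1 := hd.continuous
    refine Continuous.div (by fun_prop) (by fun_prop) (fun v => sne hc v)
  obtain ⟨m, hm⟩ : ∃ m : ℝ, m = min (c₁ ^ 2) 1 := ⟨_, rfl⟩
  have hm0 : 0 < m := by rw [hm]; positivity
  have hm1 : m ≤ c₁ ^ 2 := by rw [hm]; exact min_le_left _ _
  have hm2 : m ≤ 1 := by rw [hm]; exact min_le_right _ _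
  have hint : Integrable (fun v : ℝ =>
      (C * (1 + Real.exp (X * c₁)) / (X * m)) * (1 + v ^ 2)⁻¹) :=
    integrable_inv_one_add_sq.const_mul _
  refine hint.mono' hcont.aestronglyMeasurable (Eventually.of_forall fun v => ?_)
  unfold F
  obtain ⟨w, hw⟩ : ∃ w : ℂ, w = (c₁ : ℂ) + v * Complex.I := ⟨_, rfl⟩
  rw [← hw]
  have hw0 : w ≠ 0 := by rw [hw]; exact sne hc v
  have hwre : w.re = c₁ := by rw [hw]; exact sre c₁ v
  have hwn : 0 < ‖w‖ := norm_pos_iff.mpr hw0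
  have hwsq : ‖w‖ ^ 2 = c₁ ^ 2 + v ^ 2 := by
    rw [← Complex.normSq_eq_norm_sq, Complex.normSq_apply, hwre]
    have him : w.im = v := by rw [hw]; simp
    rw [him]
    ring
  have hXw : ‖(X : ℂ) * w‖ = X * ‖w‖ := by
    rw [norm_mul, Complex.norm_real, Real.norm_of_nonneg hX.le]
  have h1 := hC ((X : ℂ) * w)
  rw [pow_one, hXw, Complex.re_ofReal_mul, hwre] at h1
  have h2 : ‖kt κ ((X : ℂ) * w)‖ * (X * ‖w‖) ≤ C * (1 + Real.exp (X * c₁)) := by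
    refine le_trans ?_ h1
    exact mul_le_mul_of_nonneg_left (by linarith) (norm_nonneg _)
  have h3 : m * (1 + v ^ 2) ≤ ‖w‖ ^ 2 := by
    rw [hwsq]
    nlinarith [sq_nonneg v]
  have hA : 0 < C * (1 + Real.exp (X * c₁)) := by positivity
  rw [norm_div]
  calc ‖kt κ ((X : ℂ) * w)‖ / ‖w‖ = ‖kt κ ((X : ℂ) * w)‖ * (X * ‖w‖) / (X * ‖w‖ ^ 2) := by
        field_simp
    _ ≤ C * (1 + Real.exp (X * c₁)) / (X * ‖w‖ ^ 2) :=
        div_le_div_of_nonneg_right h2 (by positivity)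
    _ ≤ C * (1 + Real.exp (X * c₁)) / (X * (m * (1 + v ^ 2))) := by
        refine div_le_div_of_nonneg_left hA.le (by positivity) ?_
        exact mul_le_mul_of_nonneg_left h3 hX.le
    _ = _ := by
        field_simp

end I_KFo

open FourierTransform in
theorem KFo_pf (h : S_Kkt) : S_KFo := by
  intro κ hκ X c₁ ω hX hc
  obtain ⟨hd, hN, hk, -, hz⟩ := h κ hκ
  have hF := I_KFo.F_int hd (hN 1) hX hc
  refine ⟨hF, ?_⟩
  have hsre : ∀ v : ℝ, 0 < ((c₁ : ℂ) + v * Complex.I).re := fun v => by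
    rw [I_KFo.sre]
    exact hc
  have hgc := I_KFo.g_cont (fun ξ => (hk ξ).2.2) X (c₁ : ℂ)
  have hgi := I_KFo.g_int hk hz hX (s := (c₁ : ℂ)) (by rw [Complex.ofReal_re]; exact hc)
  have hfour : 𝓕 (I_KFo.g κ X c₁) = fun u : ℝ => I_KFo.F κ X c₁ (-(2 * Real.pi) * u) := by
    funext u
    rw [Real.fourier_real_eq_integral_exp_smul]
    unfold I_KFo.F
    rw [← I_KFo.g_integral hκ hk hz hX (hsre (-(2 * Real.pi) * u))]
    congr 1
    funext ξ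
    unfold I_KFo.g
    rw [smul_eq_mul, ← mul_assoc, ← Complex.exp_add]
    congr 2
    push_cast
    ring
  have hpi : -(2 * Real.pi) ≠ 0 := by
    have := Real.pi_pos
    linarith
  have hfi : Integrable (𝓕 (I_KFo.g κ X c₁)) := by
    rw [hfour]
    exact hF.comp_mul_left' hpi
  have hinv := congrFun (hgc.fourierInv_fourier_eq hgi hfi) ω
  rw [Real.fourierInv_eq', hfour] at hinv
  have h1 : ∀ v : ℝ, Complex.exp (((2 * Real.pi * inner ℝ v ω : ℝ) : ℂ) * Complex.I) •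
      I_KFo.F κ X c₁ (-(2 * Real.pi) * v) =
      (fun y : ℝ => Complex.exp (-(ω * y * Complex.I)) * I_KFo.F κ X c₁ y)
        (-(2 * Real.pi) * v) := by
    intro v
    have e1 : inner ℝ v ω = v * ω := by simp [mul_comm]
    simp only [smul_eq_mul]
    rw [e1]
    congr 2
    push_cast
    ring
  simp_rw [h1] at hinv
  rw [MeasureTheory.Measure.integral_comp_mul_left
    (fun y : ℝ => Complex.exp (-(ω * y * Complex.I)) * I_KFo.F κ X c₁ y)] at hinv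
  have h2 : ∀ v : ℝ, kt κ (X * (c₁ + v * Complex.I)) / (c₁ + v * Complex.I) *
      Complex.exp (-(ω * (c₁ + v * Complex.I))) =
      Complex.exp (-(ω * c₁)) * (Complex.exp (-(ω * v * Complex.I)) * I_KFo.F κ X c₁ v) := by
    intro v
    unfold I_KFo.F
    have e1 : Complex.exp (-(ω * (c₁ + v * Complex.I))) =
        Complex.exp (-(ω * c₁)) * Complex.exp (-(ω * v * Complex.I)) := by
      rw [← Complex.exp_add]
      congr 1
      ring
    rw [e1]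
    ring
  simp_rw [h2]
  rw [integral_const_mul]
  have h3 : |(-(2 * Real.pi))⁻¹| = (2 * Real.pi)⁻¹ := by
    rw [inv_neg, abs_neg, abs_of_pos (by positivity)]
  rw [h3, Complex.real_smul] at hinv
  have h4 : (((2 * Real.pi)⁻¹ : ℝ) : ℂ) ≠ 0 := by
    have : (2 * Real.pi)⁻¹ ≠ 0 := by positivity
    exact_mod_cast this
  have h5 : ∫ y : ℝ, Complex.exp (-(ω * y * Complex.I)) * I_KFo.F κ X c₁ y =
      2 * Real.pi * I_KFo.g κ X c₁ ω := by
    rw [← hinv]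
    have h7 : (Real.pi : ℂ) ≠ 0 := by exact_mod_cast Real.pi_pos.ne'
    generalize (∫ y : ℝ, Complex.exp (-(ω * y * Complex.I)) * I_KFo.F κ X c₁ y) = J
    push_cast
    field_simp
  rw [h5]
  unfold I_KFo.g
  have h6 : Complex.exp (-(ω * c₁)) * Complex.exp (c₁ * ω) = 1 := by
    rw [← Complex.exp_add]
    have : -((ω : ℂ) * c₁) + c₁ * ω = 0 := by ring
    rw [this, Complex.exp_zero]
  linear_combination (2 * Real.pi * (kk κ (ω / X) : ℂ)) * h6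

end Pool.Agent.Work.MP_56b8f5_nt.HZ
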