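import Pool.Agent.Work.MP_56b8f5_nt.HZ.StmtsA

/-!
MP_56b8f5_nt, block HZ, item KHh: the entire function `Hh` and the gradient of `S1`.
-/

set_option autoImplicit false

open MeasureTheory Set Filter Topology

noncomputable section

namespace Pool.Agent.Work.MP_56b8f5_nt.HZ

open Pool.Agent.Work.MP_56b8f5_nt.EM Pool.Agent.Work.MP_56b8f5_nt.WM Pool.Agent.Work.MP_56b8f5_nt.SH

namespace I_KHh

theorem exp_sub_one_le (z : ℂ) : ‖Complex.exp z - 1‖ ≤ ‖z‖ * Real.exp ‖z‖ := by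
  have h := Complex.norm_exp_sub_sum_le_norm_mul_exp z 1
  simpa using h

/-- The derivative of `Hh`, as an interval integral. -/
theorem hasDerivAt_Hh {κ : ℝ → ℝ} (hb : ∀ ξ, 0 ≤ kk κ ξ ∧ kk κ ξ ≤ 1) (hc : Continuous (kk κ)) (w : ℂ) :
    HasDerivAt (Hh κ) (∫ τ in (0 : ℝ)..1, Complex.exp (τ * w) * (kk κ τ : ℂ)) w := by
  have hkn : ∀ τ, ‖(kk κ τ : ℂ)‖ ≤ 1 := by
    intro τ
    rw [Complex.norm_real, Real.norm_eq_abs, abs_of_nonneg (hb τ).1]
    exact (hb τ).2
  have hkc : Continuous (fun τ : ℝ => (kk κ τ : ℂ)) := Complex.continuous_ofReal.comp hc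
  have hmeas : ∀ x : ℂ, Measurable (fun τ : ℝ => (Complex.exp (τ * x) - 1) / τ * (kk κ τ : ℂ)) := by
    intro x
    have h1 : Continuous (fun τ : ℝ => Complex.exp (τ * x) - 1) := by fun_prop
    exact (h1.measurable.div Complex.measurable_ofReal).mul hkc.measurable
  have hcont' : Continuous (fun τ : ℝ => Complex.exp (τ * w) * (kk κ τ : ℂ)) := by
    have h1 : Continuous (fun τ : ℝ => Complex.exp (τ * w)) := by fun_prop
    exact h1.mul hkc
  have hbound : ∀ τ : ℝ, τ ∈ Set.uIoc (0 : ℝ) 1 → ∀ x ∈ Metric.ball w 1,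
      ‖Complex.exp (τ * x) * (kk κ τ : ℂ)‖ ≤ Real.exp (‖w‖ + 1) := by
    intro τ hτ x hx
    rw [uIoc_of_le zero_le_one] at hτ
    rw [norm_mul, Complex.norm_exp]
    have hx1 : ‖x‖ ≤ ‖w‖ + 1 := by
      have : ‖x - w‖ < 1 := by simpa [dist_eq_norm] using hx
      calc ‖x‖ = ‖(x - w) + w‖ := by ring_nf
        _ ≤ ‖x - w‖ + ‖w‖ := norm_add_le _ _
        _ ≤ ‖w‖ + 1 := by linarith
    have h1 : ((τ : ℂ) * x).re ≤ ‖w‖ + 1 := by
      calc ((τ : ℂ) * x).re ≤ ‖(τ : ℂ) * x‖ := Complex.re_le_norm _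
        _ = |τ| * ‖x‖ := by rw [norm_mul, Complex.norm_real, Real.norm_eq_abs]
        _ ≤ 1 * ‖x‖ := by
            apply mul_le_mul_of_nonneg_right _ (norm_nonneg _)
            rw [abs_of_pos hτ.1]; exact hτ.2
        _ ≤ ‖w‖ + 1 := by linarith
    calc Real.exp ((τ : ℂ) * x).re * ‖(kk κ τ : ℂ)‖ ≤ Real.exp (‖w‖ + 1) * 1 := by
          apply mul_le_mul (Real.exp_le_exp.mpr h1) (hkn τ) (norm_nonneg _) (Real.exp_pos _).le
      _ = Real.exp (‖w‖ + 1) := mul_one _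
  have hint : IntervalIntegrable (fun τ : ℝ => (Complex.exp (τ * w) - 1) / τ * (kk κ τ : ℂ)) volume 0 1 := by
    have hg : IntervalIntegrable (fun _ : ℝ => ‖w‖ * Real.exp ‖w‖) volume 0 1 :=
      continuous_const.intervalIntegrable _ _
    refine hg.mono_fun (hmeas w).aestronglyMeasurable ?_
    rw [uIoc_of_le zero_le_one]
    filter_upwards [ae_restrict_mem measurableSet_Ioc] with τ hτ
    rw [norm_mul, norm_div, Complex.norm_real τ, Real.norm_eq_abs, abs_of_pos hτ.1]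
    have h1 : ‖Complex.exp (τ * w) - 1‖ ≤ τ * (‖w‖ * Real.exp ‖w‖) := by
      refine (exp_sub_one_le _).trans ?_
      rw [norm_mul, Complex.norm_real, Real.norm_eq_abs, abs_of_pos hτ.1, mul_assoc]
      apply mul_le_mul_of_nonneg_left _ hτ.1.le
      apply mul_le_mul_of_nonneg_left _ (norm_nonneg _)
      apply Real.exp_le_exp.mpr
      nlinarith [norm_nonneg w, hτ.2]
    have h2 : ‖Complex.exp (τ * w) - 1‖ / τ ≤ ‖w‖ * Real.exp ‖w‖ := by
      rw [div_le_iff₀ hτ.1]; linarith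
    have h3 : 0 ≤ ‖w‖ * Real.exp ‖w‖ := by positivity
    rw [Real.norm_eq_abs, abs_of_nonneg h3]
    calc ‖Complex.exp (τ * w) - 1‖ / τ * ‖(kk κ τ : ℂ)‖ ≤ (‖w‖ * Real.exp ‖w‖) * 1 :=
          mul_le_mul h2 (hkn τ) (norm_nonneg _) h3
      _ = ‖w‖ * Real.exp ‖w‖ := mul_one _
  have key := intervalIntegral.hasDerivAt_integral_of_dominated_loc_of_deriv_le
    (μ := volume) (a := 0) (b := 1)
    (F := fun (x : ℂ) (τ : ℝ) => (Complex.exp (τ * x) - 1) / τ * (kk κ τ : ℂ))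
    (F' := fun (x : ℂ) (τ : ℝ) => Complex.exp (τ * x) * (kk κ τ : ℂ))
    (x₀ := w) (s := Metric.ball w 1) (bound := fun _ => Real.exp (‖w‖ + 1))
    (Metric.ball_mem_nhds w one_pos)
    (Eventually.of_forall fun x => (hmeas x).aestronglyMeasurable)
    hint hcont'.aestronglyMeasurable
    (Eventually.of_forall fun τ hτ x hx => hbound τ hτ x hx)
    (continuous_const.intervalIntegrable _ _)
    (Eventually.of_forall fun τ hτ x _ => by
      rw [uIoc_of_le zero_le_one] at hτ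
      have hτ0 : (τ : ℂ) ≠ 0 := by exact_mod_cast hτ.1.ne'
      have h1 : HasDerivAt (fun x : ℂ => (τ : ℂ) * x) (τ : ℂ) x := by
        simpa using (hasDerivAt_id x).const_mul (τ : ℂ)
      have h2 := ((h1.cexp.sub_const 1).div_const (τ : ℂ)).mul_const (kk κ τ : ℂ)
      refine h2.congr_deriv ?_
      field_simp)
  exact key.2

theorem w_mul_deriv {κ : ℝ → ℝ} (hκ : IsKer κ) (hd : ∀ ξ, HasDerivAt (kk κ) (-(κ ξ)) ξ)
    (hc : Continuous (kk κ)) (h0 : kk κ 0 = 1) (h1 : kk κ 1 = 0) (w : ℂ) :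
    1 + w * (∫ τ in (0 : ℝ)..1, Complex.exp (τ * w) * (kk κ τ : ℂ)) = kt κ w := by
  have hκc : Continuous κ := hκ.smooth.continuous
  have hderiv : ∀ τ ∈ uIcc (0 : ℝ) 1, HasDerivAt (fun τ : ℝ => Complex.exp (τ * w) * (kk κ τ : ℂ))
      (w * (Complex.exp (τ * w) * (kk κ τ : ℂ)) - (κ τ : ℂ) * Complex.exp (τ * w)) τ := by
    intro τ _
    have e1 : HasDerivAt (fun τ : ℝ => (τ : ℂ) * w) w τ := by
      simpa using (Complex.ofRealCLM.hasDerivAt (x := τ)).mul_const w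
    have e2 := e1.cexp
    have e3 : HasDerivAt (fun τ : ℝ => (kk κ τ : ℂ)) ((-(κ τ) : ℝ) : ℂ) τ := (hd τ).ofReal_comp
    refine (e2.mul e3).congr_deriv ?_
    push_cast
    ring
  have c1 : Continuous (fun τ : ℝ => Complex.exp (τ * w) * (kk κ τ : ℂ)) := by
    have h1 : Continuous (fun τ : ℝ => Complex.exp (τ * w)) := by fun_prop
    exact h1.mul (Complex.continuous_ofReal.comp hc)
  have c2 : Continuous (fun τ : ℝ => (κ τ : ℂ) * Complex.exp (τ * w)) := by
    have h1 : Continuous (fun τ : ℝ => Complex.exp (τ * w)) := by fun_prop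
    exact (Complex.continuous_ofReal.comp hκc).mul h1
  have c3 : Continuous (fun τ : ℝ => w * (Complex.exp (τ * w) * (kk κ τ : ℂ))) := continuous_const.mul c1
  have key := intervalIntegral.integral_eq_sub_of_hasDerivAt hderiv
    ((c3.sub c2).intervalIntegrable _ _)
  rw [intervalIntegral.integral_sub (c3.intervalIntegrable _ _)
    (c2.intervalIntegrable _ _), intervalIntegral.integral_const_mul] at key
  simp only [h0, h1] at key
  have hkt : kt κ w = ∫ τ in (0 : ℝ)..1, (κ τ : ℂ) * Complex.exp (τ * w) := by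
    rw [intervalIntegral.integral_of_le zero_le_one, kt]
    refine (setIntegral_eq_integral_of_forall_compl_eq_zero ?_).symm
    intro τ hτ
    have : κ τ = 0 := by
      by_contra hne
      obtain ⟨a, b⟩ := hκ.supp τ hne
      exact hτ ⟨by linarith, by linarith⟩
    simp [this]
  rw [hkt]
  simp at key
  linear_combination key

end I_KHh

open I_KHh in
/-- **KHh.** -/
theorem KHh_pf (hKkt : S_Kkt) : S_KHh := by
  intro κ hκ
  obtain ⟨-, -, hkk, hlo, hhi⟩ := hKkt κ hκ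
  have hb : ∀ ξ, 0 ≤ kk κ ξ ∧ kk κ ξ ≤ 1 := fun ξ => ⟨(hkk ξ).1, (hkk ξ).2.1⟩
  have hd : ∀ ξ, HasDerivAt (kk κ) (-(κ ξ)) ξ := fun ξ => (hkk ξ).2.2
  have hc : Continuous (kk κ) := continuous_iff_continuousAt.mpr fun ξ => (hd ξ).continuousAt
  have hD := hasDerivAt_Hh hb hc
  have hW : ∀ w : ℂ, 1 + w * deriv (Hh κ) w = kt κ w := by
    intro w
    rw [(hD w).deriv]
    exact w_mul_deriv hκ hd hc (hlo 0 (by norm_num)) (hhi 1 (by norm_num)) w
  refine ⟨fun w => (hD w).differentiableAt, hW, ?_⟩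
  intro c w hw
  have hl : HasDerivAt (fun z : ℂ => Complex.log (z / w)) (1 / w) w := by
    have h1 : HasDerivAt (fun z : ℂ => z / w) (1 / w) w := by
      simpa using (hasDerivAt_id w).div_const w
    have h2 : w / w ∈ Complex.slitPlane := by
      rw [div_self hw]; exact Complex.one_mem_slitPlane
    refine (h1.clog h2).congr_deriv ?_
    rw [div_self hw]; simp
  have hF : HasDerivAt (fun z : ℂ => Complex.log (z / w) + Hh κ z) (kt κ w / w) w := by
    refine (hl.add (hD w)).congr_deriv ?_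
    rw [← hW w, (hD w).deriv]
    field_simp
  have hR := (hF.hasFDerivAt.restrictScalars ℝ)
  have hre := Complex.reCLM.hasFDerivAt.comp w hR
  have hfin := (hre.add_const (Real.log ‖w‖ - c))
  have hev : (S1 κ c) =ᶠ[𝓝 w] (fun z : ℂ =>
      (Complex.reCLM ∘ fun z : ℂ => Complex.log (z / w) + Hh κ z) z + (Real.log ‖w‖ - c)) := by
    filter_upwards [isOpen_ne.mem_nhds hw] with z hz
    have hw' : ‖w‖ ≠ 0 := norm_ne_zero_iff.mpr hw
    have hz' : ‖z‖ ≠ 0 := norm_ne_zero_iff.mpr hz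
    simp only [Function.comp, Complex.reCLM_apply, Complex.add_re, Complex.log_re, norm_div, S1,
      Real.log_div hz' hw']
    ring
  refine (hfin.congr_of_eventuallyEq hev).congr_fderiv ?_
  ext h
  simp [mul_comm]

end Pool.Agent.Work.MP_56b8f5_nt.HZ
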