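import Pool.Agent.Work.MP_56b8f5_nt.HZ.StmtsA

/-!
MP_56b8f5_nt, block HZ, item KS1: the constant `c` and the bounds for `S1`.
-/

set_option autoImplicit false

open MeasureTheory Set Filter Topology

noncomputable section

namespace Pool.Agent.Work.MP_56b8f5_nt.HZ

open Pool.Agent.Work.MP_56b8f5_nt.EM Pool.Agent.Work.MP_56b8f5_nt.WM Pool.Agent.Work.MP_56b8f5_nt.SH

namespace I_KS1

theorem mvt_le {f g f' g' : ℝ → ℝ} {a b : ℝ} (hab : a ≤ b)
    (hf : ∀ x ∈ Icc a b, HasDerivAt f (f' x) x) (hg : ∀ x ∈ Icc a b, HasDerivAt g (g' x) x)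
    (h : ∀ x ∈ Icc a b, |f' x| ≤ g' x) : |f b - f a| ≤ g b - g a := by
  have h1 := image_norm_le_of_norm_deriv_right_le_deriv_boundary' (f := fun x => f x - f a)
    (f' := f') (B := fun x => g x - g a) (B' := g') (a := a) (b := b)
    (fun x hx => ((hf x hx).continuousAt.sub continuousAt_const).continuousWithinAt)
    (fun x hx => ((hf x (Ico_subset_Icc_self hx)).sub_const (f a)).hasDerivWithinAt)
    (by simp)
    (fun x hx => ((hg x hx).continuousAt.sub continuousAt_const).continuousWithinAt)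
    (fun x hx => ((hg x (Ico_subset_Icc_self hx)).sub_const (g a)).hasDerivWithinAt)
    (fun x hx => by rw [Real.norm_eq_abs]; exact h x (Ico_subset_Icc_self hx))
    (right_mem_Icc.2 hab)
  rwa [Real.norm_eq_abs] at h1

variable {κ : ℝ → ℝ} {A : ℝ}

theorem q_bound (hA : ∀ w : ℂ, ‖kt κ w‖ * (1 + ‖w‖) ^ 3 ≤ A * (1 + Real.exp w.re)) (w : ℂ)
    (hw : w ≠ 0) : ‖kt κ w / w‖ ≤ A * (1 + Real.exp w.re) / ‖w‖ ^ 4 := by
  have h0 : 0 < ‖w‖ := norm_pos_iff.2 hw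
  rw [norm_div, div_le_div_iff₀ h0 (by positivity)]
  have h1 : ‖w‖ ^ 3 ≤ (1 + ‖w‖) ^ 3 := pow_le_pow_left₀ h0.le (by linarith) 3
  calc ‖kt κ w‖ * ‖w‖ ^ 4 = ‖kt κ w‖ * ‖w‖ ^ 3 * ‖w‖ := by ring
    _ ≤ ‖kt κ w‖ * (1 + ‖w‖) ^ 3 * ‖w‖ := by gcongr
    _ ≤ A * (1 + Real.exp w.re) * ‖w‖ := mul_le_mul_of_nonneg_right (hA w) h0.le

theorem re_eq (u v : ℝ) : ((u : ℂ) + v * Complex.I).re = u := by simp

theorem im_eq (u v : ℝ) : ((u : ℂ) + v * Complex.I).im = v := by simp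

theorem sq_eq (u v : ℝ) : ‖(u : ℂ) + v * Complex.I‖ ^ 2 = u ^ 2 + v ^ 2 := by
  rw [Complex.sq_norm, Complex.normSq_apply, re_eq, im_eq]
  ring

theorem ne_zero (u v : ℝ) (h : 0 < |v| - u) (hu : u ≤ 0) : (u : ℂ) + v * Complex.I ≠ 0 := by
  intro h0
  have h1 := re_eq u v
  have h2 := im_eq u v
  rw [h0] at h1 h2
  simp only [Complex.zero_re, Complex.zero_im] at h1 h2
  rw [← h1, ← h2] at h
  simp at h

theorem q_left (hA0 : 0 ≤ A)
    (hA : ∀ w : ℂ, ‖kt κ w‖ * (1 + ‖w‖) ^ 3 ≤ A * (1 + Real.exp w.re)) (u v : ℝ)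
    (hu : u ≤ 0) (h : 0 < |v| - u) :
    ‖kt κ ((u : ℂ) + v * Complex.I) / ((u : ℂ) + v * Complex.I)‖ ≤ 8 * A / (|v| - u) ^ 4 := by
  have hne := ne_zero u v h hu
  refine (q_bound hA _ hne).trans ?_
  rw [re_eq]
  have h1 : Real.exp u ≤ 1 := Real.exp_le_one_iff.2 hu
  have h2 := sq_eq u v
  have h3 : (|v| - u) ^ 2 ≤ 2 * (u ^ 2 + v ^ 2) := by
    have := sq_abs v
    nlinarith [sq_nonneg (|v| + u)]
  have h4 : (|v| - u) ^ 4 ≤ 4 * ‖(u : ℂ) + v * Complex.I‖ ^ 4 := by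
    calc (|v| - u) ^ 4 = ((|v| - u) ^ 2) ^ 2 := by ring
      _ ≤ (2 * (u ^ 2 + v ^ 2)) ^ 2 := pow_le_pow_left₀ (sq_nonneg _) h3 2
      _ = 4 * (‖(u : ℂ) + v * Complex.I‖ ^ 2) ^ 2 := by rw [h2]; ring
      _ = 4 * ‖(u : ℂ) + v * Complex.I‖ ^ 4 := by ring
  have h5 : 0 < ‖(u : ℂ) + v * Complex.I‖ := norm_pos_iff.2 hne
  rw [div_le_div_iff₀ (by positivity) (by positivity)]
  have h6 : A * (1 + Real.exp u) ≤ 2 * A := by nlinarith
  calc A * (1 + Real.exp u) * (|v| - u) ^ 4 ≤ 2 * A * (4 * ‖(u : ℂ) + v * Complex.I‖ ^ 4) :=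
        mul_le_mul h6 h4 (by positivity) (by positivity)
    _ = 8 * A * ‖(u : ℂ) + v * Complex.I‖ ^ 4 := by ring

theorem hder (hH : ∀ (c : ℝ) (w : ℂ), w ≠ 0 → HasFDerivAt (S1 κ c)
    (Complex.reCLM.comp ((ContinuousLinearMap.mul ℝ ℂ) (kt κ w / w))) w) (c u v : ℝ)
    (hne : (u : ℂ) + v * Complex.I ≠ 0) :
    HasDerivAt (fun x : ℝ => S1 κ c ((x : ℂ) + v * Complex.I))
      (kt κ ((u : ℂ) + v * Complex.I) / ((u : ℂ) + v * Complex.I)).re u := by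
  have h1 : HasDerivAt (fun x : ℝ => (x : ℂ) + v * Complex.I) 1 u :=
    (Complex.ofRealCLM.hasDerivAt (x := u)).add_const _
  have h2 := (hH c _ hne).comp_hasDerivAt u h1
  have h3 : (kt κ ((u : ℂ) + v * Complex.I) / ((u : ℂ) + v * Complex.I)).re =
      (Complex.reCLM.comp ((ContinuousLinearMap.mul ℝ ℂ) (kt κ ((u : ℂ) + v * Complex.I) /
        ((u : ℂ) + v * Complex.I)))) (1 : ℂ) := by
    rw [ContinuousLinearMap.comp_apply, ContinuousLinearMap.mul_apply', mul_one]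
    rfl
  rw [h3]
  exact h2

theorem vder (hH : ∀ (c : ℝ) (w : ℂ), w ≠ 0 → HasFDerivAt (S1 κ c)
    (Complex.reCLM.comp ((ContinuousLinearMap.mul ℝ ℂ) (kt κ w / w))) w) (c u v : ℝ)
    (hne : (u : ℂ) + v * Complex.I ≠ 0) :
    HasDerivAt (fun y : ℝ => S1 κ c ((u : ℂ) + y * Complex.I))
      (kt κ ((u : ℂ) + v * Complex.I) / ((u : ℂ) + v * Complex.I) * Complex.I).re v := by
  have h1 : HasDerivAt (fun y : ℝ => (u : ℂ) + y * Complex.I) (1 * Complex.I) v :=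
    ((Complex.ofRealCLM.hasDerivAt (x := v)).mul_const _).const_add _
  have h2 := (hH c _ hne).comp_hasDerivAt v h1
  rw [one_mul] at h2
  exact h2

theorem gder (B v u : ℝ) (h : 0 < |v| - u) :
    HasDerivAt (fun x : ℝ => B * ((|v| - x) ^ 3)⁻¹) (B * (3 / (|v| - u) ^ 4)) u := by
  have h1 : HasDerivAt (fun x : ℝ => |v| - x) (-1) u := (hasDerivAt_id u).const_sub _
  have h2 := ((h1.pow 3).inv (pow_ne_zero 3 h.ne')).const_mul B
  have h3 : (|v| - u) ≠ 0 := h.ne'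
  have h4 : B * (3 / (|v| - u) ^ 4) =
      B * (-(((3 : ℕ) : ℝ) * (|v| - u) ^ (3 - 1) * -1) / ((|v| - u) ^ 3) ^ 2) := by
    have h5 : ((3 : ℕ) : ℝ) = 3 := by norm_num
    rw [h5]
    field_simp
  rw [h4]
  exact h2

/-- the horizontal estimate on the left half plane -/
theorem hor (hA0 : 0 ≤ A)
    (hA : ∀ w : ℂ, ‖kt κ w‖ * (1 + ‖w‖) ^ 3 ≤ A * (1 + Real.exp w.re))
    (hH : ∀ (c : ℝ) (w : ℂ), w ≠ 0 → HasFDerivAt (S1 κ c)
      (Complex.reCLM.comp ((ContinuousLinearMap.mul ℝ ℂ) (kt κ w / w))) w) (c a u v : ℝ)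
    (hau : a ≤ u) (hu : u ≤ 0) (h : 0 < |v| - u) :
    |S1 κ c ((u : ℂ) + v * Complex.I) - S1 κ c ((a : ℂ) + v * Complex.I)| ≤
      8 * A / 3 * ((|v| - u) ^ 3)⁻¹ := by
  have h1 := mvt_le (f := fun x : ℝ => S1 κ c ((x : ℂ) + v * Complex.I))
    (f' := fun x : ℝ => (kt κ ((x : ℂ) + v * Complex.I) / ((x : ℂ) + v * Complex.I)).re)
    (g := fun x : ℝ => 8 * A / 3 * ((|v| - x) ^ 3)⁻¹)
    (g' := fun x : ℝ => 8 * A / 3 * (3 / (|v| - x) ^ 4)) hau ?_ ?_ ?_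
  · refine h1.trans ?_
    have h2 : 0 < |v| - a := by linarith
    have h3 : 0 ≤ 8 * A / 3 * ((|v| - a) ^ 3)⁻¹ := by positivity
    linarith
  · intro x hx
    exact hder hH c x v (ne_zero x v (by linarith [hx.2]) (by linarith [hx.2]))
  · intro x hx
    exact gder _ v x (by linarith [hx.2])
  · intro x hx
    refine (Complex.abs_re_le_norm _).trans ((q_left hA0 hA x v (by linarith [hx.2])
      (by linarith [hx.2])).trans (le_of_eq ?_))
    ring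

/-- the vertical estimate -/
theorem ver (hA0 : 0 ≤ A)
    (hA : ∀ w : ℂ, ‖kt κ w‖ * (1 + ‖w‖) ^ 3 ≤ A * (1 + Real.exp w.re))
    (hH : ∀ (c : ℝ) (w : ℂ), w ≠ 0 → HasFDerivAt (S1 κ c)
      (Complex.reCLM.comp ((ContinuousLinearMap.mul ℝ ℂ) (kt κ w / w))) w) (c v : ℝ) (n : ℕ)
    (hn : 1 ≤ n) :
    |S1 κ c (((-(n : ℝ) : ℝ) : ℂ) + v * Complex.I) - S1 κ c ((-(n : ℝ) : ℝ) : ℂ)| ≤
      8 * A * |v| * ((n : ℝ)⁻¹) := by
  have hn' : (1 : ℝ) ≤ n := by exact_mod_cast hn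
  have hpos : ∀ y : ℝ, 0 < |y| - (-(n : ℝ)) := fun y => by
    have := abs_nonneg y
    linarith
  have h1 := Convex.norm_image_sub_le_of_norm_hasDerivWithin_le (s := (univ : Set ℝ))
    (f := fun y : ℝ => S1 κ c (((-(n : ℝ) : ℝ) : ℂ) + y * Complex.I))
    (f' := fun y : ℝ => (kt κ (((-(n : ℝ) : ℝ) : ℂ) + y * Complex.I) /
      (((-(n : ℝ) : ℝ) : ℂ) + y * Complex.I) * Complex.I).re) (C := 8 * A * (n : ℝ)⁻¹)
    (x := 0) (y := v) ?_ ?_ convex_univ (mem_univ _) (mem_univ _)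
  · simp only [Complex.ofReal_zero, zero_mul, add_zero, sub_zero, Real.norm_eq_abs] at h1
    refine h1.trans (le_of_eq ?_)
    ring
  · intro y _
    exact (vder hH c _ y (ne_zero _ y (hpos y) (by linarith))).hasDerivWithinAt
  · intro y _
    rw [Real.norm_eq_abs]
    refine (Complex.abs_re_le_norm _).trans ?_
    rw [norm_mul, Complex.norm_I, mul_one]
    refine (q_left hA0 hA (-(n : ℝ)) y (by linarith) (hpos y)).trans ?_
    rw [div_eq_mul_inv]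
    refine mul_le_mul_of_nonneg_left ?_ (by positivity)
    refine inv_anti₀ (by linarith) ?_
    have h2 : (n : ℝ) ≤ |y| - (-(n : ℝ)) := by
      have := abs_nonneg y
      linarith
    calc (n : ℝ) = (n : ℝ) ^ 1 := (pow_one _).symm
      _ ≤ (n : ℝ) ^ 4 := pow_le_pow_right₀ hn' (by norm_num)
      _ ≤ (|y| - (-(n : ℝ))) ^ 4 := pow_le_pow_left₀ (by linarith) h2 4

/-- the limit along the negative axis -/
theorem lim (hA0 : 0 ≤ A)
    (hA : ∀ w : ℂ, ‖kt κ w‖ * (1 + ‖w‖) ^ 3 ≤ A * (1 + Real.exp w.re))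
    (hH : ∀ (c : ℝ) (w : ℂ), w ≠ 0 → HasFDerivAt (S1 κ c)
      (Complex.reCLM.comp ((ContinuousLinearMap.mul ℝ ℂ) (kt κ w / w))) w) :
    ∃ c : ℝ, Tendsto (fun n : ℕ => S1 κ 0 ((-((n + 1 : ℕ) : ℝ) : ℝ) : ℂ)) atTop (𝓝 c) := by
  have hc : CauchySeq (fun n : ℕ => S1 κ 0 ((-((n + 1 : ℕ) : ℝ) : ℝ) : ℂ)) := by
    refine cauchySeq_of_le_tendsto_0' (fun n : ℕ => 8 * A / 3 * ((n : ℝ) + 1)⁻¹) ?_ ?_
    · intro n m hnm
      have hnm' : (n : ℝ) ≤ m := by exact_mod_cast hnm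
      have hn0 : (0 : ℝ) ≤ n := Nat.cast_nonneg n
      have h1 := hor hA0 hA hH 0 (-((m + 1 : ℕ) : ℝ)) (-((n + 1 : ℕ) : ℝ)) 0
        (by push_cast; linarith) (by push_cast; linarith)
        (by rw [abs_zero]; push_cast; linarith)
      simp only [Complex.ofReal_zero, zero_mul, add_zero, abs_zero, zero_sub, neg_neg] at h1
      rw [Real.dist_eq]
      refine h1.trans (mul_le_mul_of_nonneg_left ?_ (by positivity))
      push_cast
      refine inv_anti₀ (by linarith) ?_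
      calc (n : ℝ) + 1 = ((n : ℝ) + 1) ^ 1 := (pow_one _).symm
        _ ≤ ((n : ℝ) + 1) ^ 3 := pow_le_pow_right₀ (by linarith) (by norm_num)
    · have h2 : Tendsto (fun n : ℕ => ((n : ℝ) + 1)⁻¹) atTop (𝓝 0) := by
        have := tendsto_one_div_add_atTop_nhds_zero_nat (𝕜 := ℝ)
        simpa [one_div] using this
      simpa using h2.const_mul (8 * A / 3)
  exact cauchySeq_tendsto_of_complete hc

/-- the estimate on the left half plane -/
theorem left (hA0 : 0 ≤ A)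
    (hA : ∀ w : ℂ, ‖kt κ w‖ * (1 + ‖w‖) ^ 3 ≤ A * (1 + Real.exp w.re))
    (hH : ∀ (c : ℝ) (w : ℂ), w ≠ 0 → HasFDerivAt (S1 κ c)
      (Complex.reCLM.comp ((ContinuousLinearMap.mul ℝ ℂ) (kt κ w / w))) w) (c : ℝ)
    (hc : Tendsto (fun n : ℕ => S1 κ 0 ((-((n + 1 : ℕ) : ℝ) : ℝ) : ℂ)) atTop (𝓝 c)) (u v : ℝ)
    (hu : u ≤ 0) (h : 0 < |v| - u) :
    |S1 κ 0 ((u : ℂ) + v * Complex.I) - c| ≤ 8 * A / 3 * ((|v| - u) ^ 3)⁻¹ := by
  have h1 : Tendsto (fun n : ℕ => 8 * A / 3 * ((|v| - u) ^ 3)⁻¹ +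
      8 * A * |v| * (((n + 1 : ℕ) : ℝ)⁻¹) +
      |S1 κ 0 ((-((n + 1 : ℕ) : ℝ) : ℝ) : ℂ) - c|) atTop
      (𝓝 (8 * A / 3 * ((|v| - u) ^ 3)⁻¹ + 8 * A * |v| * 0 + |c - c|)) := by
    refine ((tendsto_const_nhds).add (Tendsto.const_mul _ ?_)).add (hc.sub_const c).abs
    have := tendsto_one_div_add_atTop_nhds_zero_nat (𝕜 := ℝ)
    simpa [one_div] using this
  rw [mul_zero, add_zero, sub_self, abs_zero, add_zero] at h1
  refine ge_of_tendsto h1 ?_
  obtain ⟨n0, hn0⟩ := exists_nat_ge (-u)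
  filter_upwards [eventually_ge_atTop n0] with n hn
  have hn' : (n0 : ℝ) ≤ n := by exact_mod_cast hn
  have e1 := hor hA0 hA hH 0 (-((n + 1 : ℕ) : ℝ)) u v (by push_cast; linarith) hu h
  have e2 := ver hA0 hA hH 0 v (n + 1) (by omega)
  have e3 : S1 κ 0 ((u : ℂ) + v * Complex.I) - c =
      (S1 κ 0 ((u : ℂ) + v * Complex.I) -
        S1 κ 0 (((-((n + 1 : ℕ) : ℝ) : ℝ) : ℂ) + v * Complex.I)) +
      (S1 κ 0 (((-((n + 1 : ℕ) : ℝ) : ℝ) : ℂ) + v * Complex.I) -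
        S1 κ 0 ((-((n + 1 : ℕ) : ℝ) : ℝ) : ℂ)) +
      (S1 κ 0 ((-((n + 1 : ℕ) : ℝ) : ℝ) : ℂ) - c) := by ring
  rw [e3]
  refine (abs_add_three _ _ _).trans ?_
  exact add_le_add (add_le_add e1 e2) le_rfl

/-- the horizontal estimate on the right half plane -/
theorem right (hA0 : 0 ≤ A)
    (hA : ∀ w : ℂ, ‖kt κ w‖ * (1 + ‖w‖) ^ 3 ≤ A * (1 + Real.exp w.re))
    (hH : ∀ (c : ℝ) (w : ℂ), w ≠ 0 → HasFDerivAt (S1 κ c)
      (Complex.reCLM.comp ((ContinuousLinearMap.mul ℝ ℂ) (kt κ w / w))) w) (c u v : ℝ)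
    (hu : 0 ≤ u) (hv : 1 ≤ |v|) :
    |S1 κ c ((u : ℂ) + v * Complex.I) - S1 κ c (((0 : ℝ) : ℂ) + v * Complex.I)| ≤
      A / |v| ^ 3 * (u + Real.exp u) := by
  have hvpos : 0 < |v| := by linarith
  have hne : ∀ x : ℝ, (x : ℂ) + v * Complex.I ≠ 0 := by
    intro x h0
    have h2 := im_eq x v
    rw [h0, Complex.zero_im] at h2
    rw [← h2, abs_zero] at hv
    linarith
  have h1 := mvt_le (f := fun x : ℝ => S1 κ c ((x : ℂ) + v * Complex.I))
    (f' := fun x : ℝ => (kt κ ((x : ℂ) + v * Complex.I) / ((x : ℂ) + v * Complex.I)).re)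
    (g := fun x : ℝ => A / |v| ^ 3 * (x + Real.exp x))
    (g' := fun x : ℝ => A / |v| ^ 3 * (1 + Real.exp x)) hu ?_ ?_ ?_
  · refine h1.trans ?_
    have h2 : 0 ≤ A / |v| ^ 3 * (0 + Real.exp 0) := by positivity
    linarith
  · intro x _
    exact hder hH c x v (hne x)
  · intro x _
    exact ((hasDerivAt_id x).add (Real.hasDerivAt_exp x)).const_mul _
  · intro x _
    refine (Complex.abs_re_le_norm _).trans ((q_bound hA _ (hne x)).trans ?_)
    rw [re_eq]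
    have h3 : |v| ≤ ‖(x : ℂ) + v * Complex.I‖ := by
      have := Complex.abs_im_le_norm ((x : ℂ) + v * Complex.I)
      rwa [im_eq] at this
    have h4 : |v| ^ 3 ≤ ‖(x : ℂ) + v * Complex.I‖ ^ 4 := by
      calc |v| ^ 3 ≤ |v| ^ 4 := pow_le_pow_right₀ hv (by norm_num)
        _ ≤ _ := pow_le_pow_left₀ hvpos.le h3 4
    have h5 : 0 ≤ A * (1 + Real.exp x) := by positivity
    calc A * (1 + Real.exp x) / ‖(x : ℂ) + v * Complex.I‖ ^ 4 ≤
        A * (1 + Real.exp x) / |v| ^ 3 := div_le_div_of_nonneg_left h5 (by positivity) h4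
      _ = A / |v| ^ 3 * (1 + Real.exp x) := by ring

theorem S1_sub (c : ℝ) (w : ℂ) : S1 κ c w = S1 κ 0 w - c := by
  unfold S1
  ring

end I_KS1

open I_KS1 in
theorem KS1_pf (hKkt : S_Kkt) (hKHh : S_KHh) : S_KS1 := by
  intro κ hκ
  obtain ⟨-, hN, -, -, -⟩ := hKkt κ hκ
  obtain ⟨-, -, hH⟩ := hKHh κ hκ
  obtain ⟨A, hA1, hA⟩ := hN 3
  have hA0 : 0 ≤ A := by linarith
  obtain ⟨c, hc⟩ := lim hA0 hA hH
  refine ⟨c, 5 * A, by linarith, fun w => ⟨?_, ?_, ?_⟩⟩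
  · intro hv
    have hvpos : 0 < |w.im| := by linarith
    have hw : w = (w.re : ℂ) + w.im * Complex.I := (Complex.re_add_im w).symm
    rw [S1_sub]
    have h3 : 0 < |w.im| ^ 3 := by positivity
    have hl : ∀ u : ℝ, u ≤ 0 →
        |S1 κ 0 ((u : ℂ) + w.im * Complex.I) - c| ≤ 8 * A / 3 / |w.im| ^ 3 := by
      intro u hu
      refine (left hA0 hA hH c hc u w.im hu (by linarith)).trans ?_
      rw [div_eq_mul_inv (8 * A / 3)]
      refine mul_le_mul_of_nonneg_left (inv_anti₀ h3 ?_) (by positivity)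
      exact pow_le_pow_left₀ hvpos.le (by linarith) 3
    have he : 0 < Real.exp w.re := Real.exp_pos _
    rcases le_total w.re 0 with hu | hu
    · have h1 := hl w.re hu
      rw [← hw] at h1
      refine h1.trans ?_
      rw [div_le_div_iff_of_pos_right h3]
      nlinarith
    · have h1 := hl 0 le_rfl
      have h2 := right hA0 hA hH 0 w.re w.im hu hv
      rw [← hw] at h2
      have h4 : S1 κ 0 w - c = (S1 κ 0 w - S1 κ 0 (((0 : ℝ) : ℂ) + w.im * Complex.I)) +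
          (S1 κ 0 (((0 : ℝ) : ℂ) + w.im * Complex.I) - c) := by ring
      rw [h4]
      refine (abs_add_le _ _).trans ((add_le_add h2 h1).trans ?_)
      have h5 : w.re ≤ Real.exp w.re := by
        have := Real.add_one_le_exp w.re
        linarith
      rw [div_mul_eq_mul_div, ← add_div, div_le_div_iff_of_pos_right h3]
      nlinarith
  · intro hu
    have hw : w = (w.re : ℂ) + w.im * Complex.I := (Complex.re_add_im w).symm
    rw [S1_sub]
    have hv0 := abs_nonneg w.im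
    have h1 := left hA0 hA hH c hc w.re w.im (by linarith) (by linarith)
    rw [← hw] at h1
    refine h1.trans ?_
    have hne : w ≠ 0 := by
      intro h0
      rw [h0, Complex.zero_re] at hu
      linarith
    have hpos : 0 < ‖w‖ := norm_pos_iff.2 hne
    have h2 : ‖w‖ ≤ |w.im| - w.re := by
      have := Complex.norm_le_abs_re_add_abs_im w
      rw [abs_of_nonpos (by linarith : w.re ≤ 0)] at this
      linarith
    rw [div_eq_mul_inv (5 * A)]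
    refine mul_le_mul (by linarith) (inv_anti₀ (by positivity) ?_)
      (inv_nonneg.2 (pow_nonneg (by linarith) 3)) (by positivity)
    exact pow_le_pow_left₀ hpos.le h2 3
  · intro hne
    refine (q_bound hA w hne).trans ?_
    have hpos : 0 < ‖w‖ := norm_pos_iff.2 hne
    rw [div_le_div_iff_of_pos_right (by positivity)]
    have he : 0 < Real.exp w.re := Real.exp_pos _
    nlinarith

end Pool.Agent.Work.MP_56b8f5_nt.HZ
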