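import Pool.Agent.Work.MP_56b8f5_nt.HZ.StmtsA

set_option autoImplicit false

/-! Block HZ, item Kex: existence of the kernel. -/

open MeasureTheory Set Filter Topology

namespace Pool.Agent.Work.MP_56b8f5_nt.HZ

/-- a bump function with centre `1/2` and radii `1/8 < 1/4` -/
private noncomputable def I_Kex_bump : ContDiffBump (1 / 2 : ℝ) :=
  ⟨1 / 8, 1 / 4, by norm_num, by norm_num⟩

theorem Kex_pf : S_Kex := by
  refine ⟨fun x => I_Kex_bump.normed volume x, ?_, ?_, ?_, ?_⟩
  · exact I_Kex_bump.contDiff_normed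
  · exact fun x => I_Kex_bump.nonneg_normed x
  · intro x hx
    have h1 : x ∈ Function.support (I_Kex_bump.normed volume) := hx
    rw [I_Kex_bump.support_normed_eq] at h1
    rw [Metric.mem_ball, Real.dist_eq] at h1
    have h2 : I_Kex_bump.rOut = 1 / 4 := rfl
    rw [h2, abs_lt] at h1
    constructor <;> linarith [h1.1, h1.2]
  · exact I_Kex_bump.integral_normed

end Pool.Agent.Work.MP_56b8f5_nt.HZ
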