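import Pool.Agent.Work.MP_56b8f5_nt.HZ.StmtsC
import Pool.Agent.Work.MP_56b8f5_nt.WM.I_Mert

/-!
MP_56b8f5_nt, block HZ, item Msu: the sum over primes for the tilted measure (Mertens).
-/

set_option autoImplicit false

open MeasureTheory Set Filter Topology

noncomputable section

namespace Pool.Agent.Work.MP_56b8f5_nt.HZ

open Pool.Agent.Work.MP_56b8f5_nt.EM Pool.Agent.Work.MP_56b8f5_nt.WM Pool.Agent.Work.MP_56b8f5_nt.SH
open Pool.Agent.Work.MP_56b8f5_nt.HZG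

namespace I_Msu

theorem mem_pr {p z : ℕ} : p ∈ pr z ↔ p ≤ z ∧ p.Prime := by
  unfold pr
  rw [Finset.mem_filter, Finset.mem_range]
  constructor
  · rintro ⟨h1, h2⟩
    exact ⟨by omega, h2⟩
  · rintro ⟨h1, h2⟩
    exact ⟨by omega, h2⟩

/-- The logarithm of the integer part. -/
theorem log_floor {z : ℝ} (hz : 2 ≤ z) :
    2 ≤ ⌊z⌋₊ ∧ Real.log (⌊z⌋₊ : ℝ) ≤ Real.log z ∧ Real.log z ≤ 2 * Real.log (⌊z⌋₊ : ℝ) := by
  have h2 : 2 ≤ ⌊z⌋₊ := Nat.le_floor (by exact_mod_cast hz)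
  have h3 : (⌊z⌋₊ : ℝ) ≤ z := Nat.floor_le (by linarith)
  have h4 : z < (⌊z⌋₊ : ℝ) + 1 := Nat.lt_floor_add_one _
  have h5 : (2 : ℝ) ≤ (⌊z⌋₊ : ℝ) := by exact_mod_cast h2
  refine ⟨h2, Real.log_le_log (by linarith) h3, ?_⟩
  have h6 : z ≤ (⌊z⌋₊ : ℝ) ^ 2 := by nlinarith
  have h7 := Real.log_le_log (by linarith) h6
  rw [Real.log_pow] at h7
  exact_mod_cast h7

theorem cp_two (Y τ : ℝ) (p : ℕ) : cp Y τ p ≤ 2 := min_le_left _ _

theorem VV_le (N : ℕ) : VV N ≤ Real.exp (-WM.S1 N) := by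
  unfold VV WM.S1
  rw [← Finset.sum_neg_distrib, Real.exp_sum]
  apply Finset.prod_le_prod
  · intro p hp
    have h1 : (1 : ℝ) < p := by exact_mod_cast (mem_pr.1 hp).2.one_lt
    have h2 : 1 / (p : ℝ) ≤ 1 := by
      rw [div_le_one (by linarith)]
      exact h1.le
    linarith
  · intro p _
    have := Real.add_one_le_exp (-(1 / (p : ℝ)))
    linarith

theorem sum_two (Y τ : ℝ) (N : ℕ) : ∑ p ∈ pr N, cp Y τ p / (p : ℝ) ≤ 2 * WM.S1 N := by
  unfold WM.S1
  rw [Finset.mul_sum]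
  apply Finset.sum_le_sum
  intro p _
  have h := cp_two Y τ p
  rw [mul_one_div]
  gcongr

theorem split {Y τ : ℝ} (n N : ℕ) (hnN : n ≤ N) :
    ∑ p ∈ pr N, cp Y τ p / (p : ℝ) ≤
      (1 + |τ|) / Real.log Y * I_Mert.A n + 2 * (WM.S1 N - WM.S1 n) := by
  have hsub : pr n ⊆ pr N := by
    intro p hp
    rw [mem_pr] at hp ⊢
    exact ⟨hp.1.trans hnN, hp.2⟩
  have h1 : ∑ p ∈ pr N, cp Y τ p / (p : ℝ) =
      ∑ p ∈ pr N \ pr n, cp Y τ p / (p : ℝ) + ∑ p ∈ pr n, cp Y τ p / (p : ℝ) :=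
    (Finset.sum_sdiff hsub).symm
  have h2 : WM.S1 N = ∑ p ∈ pr N \ pr n, 1 / (p : ℝ) + WM.S1 n := by
    unfold WM.S1
    exact (Finset.sum_sdiff hsub).symm
  have h3 : ∑ p ∈ pr N \ pr n, cp Y τ p / (p : ℝ) ≤ 2 * ∑ p ∈ pr N \ pr n, 1 / (p : ℝ) := by
    rw [Finset.mul_sum]
    apply Finset.sum_le_sum
    intro p _
    have h := cp_two Y τ p
    rw [mul_one_div]
    gcongr
  have h4 : ∑ p ∈ pr n, cp Y τ p / (p : ℝ) ≤ (1 + |τ|) / Real.log Y * I_Mert.A n := by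
    unfold I_Mert.A
    rw [Finset.mul_sum]
    apply Finset.sum_le_sum
    intro p _
    have h : cp Y τ p ≤ (1 + |τ|) * (Real.log p / Real.log Y) := min_le_right _ _
    calc cp Y τ p / (p : ℝ) ≤ (1 + |τ|) * (Real.log p / Real.log Y) / (p : ℝ) := by gcongr
      _ = (1 + |τ|) / Real.log Y * (Real.log p / (p : ℝ)) := by ring
  rw [h1]
  linarith

end I_Msu

open I_Msu in
theorem Msu_pf : S_Msu := by
  obtain ⟨C1, hC1, hM⟩ := WM.Mert_pf
  obtain ⟨C0', hM'⟩ := Pool.Agent.Work.MP_e0c7e8_nt.Mert.mertens1.2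
  set C0 : ℝ := max C0' 0 with hC0d
  have hC0 : 0 ≤ C0 := le_max_right _ _
  have hA : ∀ n : ℕ, 2 ≤ n → I_Mert.A n ≤ Real.log n + C0 := by
    intro n hn
    have h1 := (hM' n (by exact_mod_cast (by omega : 1 ≤ n))).trans (le_max_left C0' 0)
    rw [Nat.floor_natCast, ← I_Mert.pr_eq] at h1
    have := (abs_le.1 h1).2
    unfold I_Mert.A
    linarith
  have hl2 : 0 < Real.log 2 := Real.log_pos (by norm_num)
  have hlC : 0 ≤ Real.log C1 := Real.log_nonneg hC1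
  have hlC2 : 0 ≤ Real.log (2 * C1 ^ 2) := Real.log_nonneg (by nlinarith)
  have hC0l : 0 ≤ C0 / Real.log 2 := div_nonneg hC0 hl2.le
  refine ⟨1 + C0 / Real.log 2 + 2 * Real.log (2 * C1 ^ 2) + 2 * Real.log C1 + 2 * C1,
    by linarith, ?_, ?_⟩
  · intro Y τ hY
    have hL : 1 < Real.log Y := by
      rw [Real.lt_log_iff_exp_lt (by linarith)]
      exact Real.exp_one_lt_three.trans_le hY
    have hL0 : 0 < Real.log Y := by linarith
    have ht : 0 ≤ |τ| := abs_nonneg τ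
    obtain ⟨hN2, hNl, -⟩ := log_floor (show (2 : ℝ) ≤ Y by linarith)
    have hNpos : 0 < Real.log (⌊Y⌋₊ : ℝ) := Real.log_pos (by exact_mod_cast (by omega : 1 < ⌊Y⌋₊))
    -- the upper bound for `S1 N`
    have hS1N : WM.S1 ⌊Y⌋₊ ≤ Real.log C1 + Real.log (Real.log Y) := by
      have h1 := (hM ⌊Y⌋₊ hN2).1
      have h2 : Real.exp (WM.S1 ⌊Y⌋₊) ≤ C1 * Real.log Y :=
        h1.trans (mul_le_mul_of_nonneg_left hNl (by linarith))
      rw [← Real.log_mul (by linarith) hL0.ne']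
      rw [Real.le_log_iff_exp_le (by positivity)]
      exact h2
    by_cases hcase : Real.log 2 ≤ Real.log Y / (1 + |τ|)
    · set z : ℝ := Real.exp (Real.log Y / (1 + |τ|)) with hz
      have hz2 : 2 ≤ z := by
        rw [hz, ← Real.log_le_iff_le_exp (by norm_num)]
        exact hcase
      have hzY : z ≤ Y := by
        rw [hz, ← Real.le_log_iff_exp_le (by linarith)]
        apply div_le_self hL0.le
        linarith
      obtain ⟨hn2, hnl, hnu⟩ := log_floor hz2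
      have hlz : Real.log z = Real.log Y / (1 + |τ|) := by rw [hz, Real.log_exp]
      have hnN : ⌊z⌋₊ ≤ ⌊Y⌋₊ := Nat.floor_le_floor hzY
      have hs := split (Y := Y) (τ := τ) ⌊z⌋₊ ⌊Y⌋₊ hnN
      have hnpos : 0 < Real.log (⌊z⌋₊ : ℝ) :=
        Real.log_pos (by exact_mod_cast (by omega : 1 < ⌊z⌋₊))
      -- small primes
      have h1 : (1 + |τ|) / Real.log Y * I_Mert.A ⌊z⌋₊ ≤ 1 + C0 / Real.log 2 := by
        have h2 : I_Mert.A ⌊z⌋₊ ≤ Real.log Y / (1 + |τ|) + C0 := by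
          have := hA ⌊z⌋₊ hn2
          linarith
        have h3 : (1 + |τ|) / Real.log Y ≤ 1 / Real.log 2 := by
          rw [div_le_div_iff₀ hL0 hl2]
          rw [le_div_iff₀ (by linarith)] at hcase
          linarith
        calc (1 + |τ|) / Real.log Y * I_Mert.A ⌊z⌋₊
            ≤ (1 + |τ|) / Real.log Y * (Real.log Y / (1 + |τ|) + C0) := by gcongr
          _ = 1 + C0 * ((1 + |τ|) / Real.log Y) := by
              have : (1 + |τ|) ≠ 0 := by positivity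
              field_simp
          _ ≤ 1 + C0 * (1 / Real.log 2) := by gcongr
          _ = 1 + C0 / Real.log 2 := by ring
      -- large primes
      have h5 : Real.log (Real.log Y) ≤ Real.log (2 * C1) + Real.log (2 + |τ|) + WM.S1 ⌊z⌋₊ := by
        have h6 := (hM ⌊z⌋₊ hn2).2
        have h7 : Real.log Y ≤ 2 * C1 * (2 + |τ|) * Real.exp (WM.S1 ⌊z⌋₊) := by
          have h8 : Real.log Y / (1 + |τ|) ≤ 2 * (C1 * Real.exp (WM.S1 ⌊z⌋₊)) := by linarith
          rw [div_le_iff₀ (by linarith)] at h8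
          have h9 : 0 ≤ C1 * Real.exp (WM.S1 ⌊z⌋₊) := by positivity
          nlinarith
        have h10 := Real.log_le_log hL0 h7
        rw [Real.log_mul (by positivity) (by positivity), Real.log_mul (by positivity) (by positivity),
          Real.log_exp] at h10
        exact h10
      have h11 : Real.log (2 * C1 ^ 2) = Real.log (2 * C1) + Real.log C1 := by
        rw [← Real.log_mul (by positivity) (by positivity)]
        congr 1
        ring
      linarith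
    · push Not at hcase
      have h1 := sum_two Y τ ⌊Y⌋₊
      have h2 : Real.log (Real.log Y) ≤ Real.log (2 + |τ|) := by
        apply Real.log_le_log hL0
        rw [div_lt_iff₀ (by linarith)] at hcase
        have := Real.log_two_lt_d9
        nlinarith
      linarith
  · intro Y hY
    have hL : 1 < Real.log Y := by
      rw [Real.lt_log_iff_exp_lt (by linarith)]
      exact Real.exp_one_lt_three.trans_le hY
    obtain ⟨hN2, -, hNu⟩ := log_floor (show (2 : ℝ) ≤ Y by linarith)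
    have h1 := (hM ⌊Y⌋₊ hN2).2
    have h2 := VV_le ⌊Y⌋₊
    have h3 : Real.exp (-WM.S1 ⌊Y⌋₊) * Real.exp (WM.S1 ⌊Y⌋₊) = 1 := by
      rw [← Real.exp_add, neg_add_cancel, Real.exp_zero]
    have h4 : Real.exp (-WM.S1 ⌊Y⌋₊) * Real.log Y ≤ 2 * C1 := by
      calc Real.exp (-WM.S1 ⌊Y⌋₊) * Real.log Y
          ≤ Real.exp (-WM.S1 ⌊Y⌋₊) * (2 * (C1 * Real.exp (WM.S1 ⌊Y⌋₊))) := by
            gcongr
            linarith
        _ = 2 * C1 * (Real.exp (-WM.S1 ⌊Y⌋₊) * Real.exp (WM.S1 ⌊Y⌋₊)) := by ring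
        _ = 2 * C1 := by rw [h3, mul_one]
    rw [le_div_iff₀ (by linarith)]
    have h5 : VV ⌊Y⌋₊ * Real.log Y ≤ Real.exp (-WM.S1 ⌊Y⌋₊) * Real.log Y := by gcongr
    linarith

end Pool.Agent.Work.MP_56b8f5_nt.HZ
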