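import Pool.Agent.Work.MP_56b8f5_nt.HZ.StmtsC

/-!
# Item Om: Fourier representation of the profile
-/

set_option autoImplicit false

open MeasureTheory Set Filter Topology
open scoped FourierTransform ContDiff SchwartzMap RealInnerProductSpace

noncomputable section

namespace Pool.Agent.Work.MP_56b8f5_nt.HZ

namespace I_Om

theorem intW (h : 𝓢(ℝ, ℂ)) (N : ℕ) : Integrable (fun x : ℝ => (1 + |x|) ^ N * ‖h x‖) := by
  have e : (fun x : ℝ => (1 + |x|) ^ N * ‖h x‖) =
      fun x : ℝ => ∑ m ∈ Finset.range (N + 1), (N.choose m : ℝ) * (‖x‖ ^ m * ‖h x‖) := by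
    funext x
    rw [add_comm, add_pow, Finset.sum_mul]
    refine Finset.sum_congr rfl fun m _ => ?_
    rw [one_pow, Real.norm_eq_abs]
    ring
  rw [e]
  exact integrable_finset_sum _ fun m _ => (h.integrable_pow_mul volume m).const_mul _

end I_Om

open I_Om in
/-- item Om -/
theorem Om_pf : S_Om := by
  intro P hP hc
  have hG1 : HasCompactSupport (fun ξ : ℝ => ((Real.exp ξ * P ξ : ℝ) : ℂ)) := by
    have h1 : HasCompactSupport (fun ξ : ℝ => Real.exp ξ * P ξ) := hc.mul_left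
    exact h1.comp_left (g := fun x : ℝ => (x : ℂ)) Complex.ofReal_zero
  have hG2 : ContDiff ℝ ∞ (fun ξ : ℝ => ((Real.exp ξ * P ξ : ℝ) : ℂ)) :=
    Complex.ofRealCLM.contDiff.comp (Real.contDiff_exp.mul hP)
  obtain ⟨g, hg⟩ : ∃ g : 𝓢(ℝ, ℂ), ∀ ξ, g ξ = ((Real.exp ξ * P ξ : ℝ) : ℂ) :=
    ⟨hG1.toSchwartzMap hG2, fun _ => rfl⟩
  obtain ⟨h, hh⟩ : ∃ h : 𝓢(ℝ, ℂ), 𝓕 g = h := ⟨_, rfl⟩
  have inv : ∀ ξ : ℝ, ((Real.exp ξ * P ξ : ℝ) : ℂ) =
      ∫ v : ℝ, Complex.exp ((↑(2 * Real.pi * (v * ξ)) * Complex.I)) * h v := by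
    intro ξ
    have e1 : 𝓕⁻ h = g := by
      rw [← hh]
      exact FourierPair.fourierInv_fourier_eq g
    rw [← hg, ← e1, SchwartzMap.fourierInv_coe, Real.fourierInv_eq']
    refine integral_congr_ae (Eventually.of_forall fun v => ?_)
    simp only [smul_eq_mul, RCLike.inner_apply, conj_trivial]
    rw [mul_comm ξ v]
  have hπ : (0 : ℝ) < 2 * Real.pi := by positivity
  have hπ' : (-(2 * Real.pi) : ℝ) ≠ 0 := by
    rw [neg_ne_zero]; exact hπ.ne'
  have hb : ∀ N : ℕ, Integrable (fun τ : ℝ =>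
      (1 + |τ|) ^ N * ‖((1 / (2 * Real.pi) : ℝ) : ℂ) * h (τ / (-(2 * Real.pi)))‖) := by
    intro N
    have h1 : Integrable (fun τ : ℝ => (2 * Real.pi) ^ N * (1 / (2 * Real.pi)) *
        ((1 + |τ / (-(2 * Real.pi))|) ^ N * ‖h (τ / (-(2 * Real.pi)))‖)) :=
      ((intW h N).comp_div hπ').const_mul _
    refine h1.mono' ?_ (Eventually.of_forall fun τ => ?_)
    · refine Continuous.aestronglyMeasurable ?_
      have := h.continuous
      fun_prop
    · rw [Real.norm_of_nonneg (by positivity), norm_mul, Complex.norm_real,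
        Real.norm_of_nonneg (by positivity)]
      have e2 : |τ / (-(2 * Real.pi))| = |τ| / (2 * Real.pi) := by
        rw [abs_div, abs_neg, abs_of_pos hπ]
      rw [e2]
      have e3 : (1 + |τ|) ^ N ≤ (2 * Real.pi) ^ N * (1 + |τ| / (2 * Real.pi)) ^ N := by
        rw [← mul_pow]
        refine pow_le_pow_left₀ (by positivity) ?_ N
        rw [mul_add, mul_div_cancel₀ _ hπ.ne']
        have := Real.pi_gt_three
        linarith
      calc (1 + |τ|) ^ N * (1 / (2 * Real.pi) * ‖h (τ / (-(2 * Real.pi)))‖)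
          ≤ ((2 * Real.pi) ^ N * (1 + |τ| / (2 * Real.pi)) ^ N) *
            (1 / (2 * Real.pi) * ‖h (τ / (-(2 * Real.pi)))‖) :=
            mul_le_mul_of_nonneg_right e3 (by positivity)
        _ = _ := by ring
  refine ⟨fun τ => ((1 / (2 * Real.pi) : ℝ) : ℂ) * h (τ / (-(2 * Real.pi))), ?_, hb, ?_⟩
  · have := h.continuous
    fun_prop
  · intro ξ
    have e4 : ∀ τ : ℝ, ((1 / (2 * Real.pi) : ℝ) : ℂ) * h (τ / (-(2 * Real.pi))) *
        Complex.exp (-((1 + τ * Complex.I) * ξ)) =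
        (((1 / (2 * Real.pi) : ℝ) : ℂ) * Complex.exp (-ξ)) *
          (fun v : ℝ => Complex.exp ((↑(2 * Real.pi * (v * ξ)) * Complex.I)) * h v)
            (τ / (-(2 * Real.pi))) := by
      intro τ
      have e5 : Complex.exp (-((1 + τ * Complex.I) * ξ)) = Complex.exp (-ξ) *
          Complex.exp ((↑(2 * Real.pi * (τ / (-(2 * Real.pi)) * ξ)) * Complex.I)) := by
        rw [← Complex.exp_add]
        congr 1
        have e6 : 2 * Real.pi * (τ / (-(2 * Real.pi)) * ξ) = -(τ * ξ) := by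
          field_simp
        rw [e6]
        push_cast
        ring
      rw [e5]
      ring
    simp_rw [e4]
    rw [integral_const_mul, Measure.integral_comp_div (fun v : ℝ =>
      Complex.exp ((↑(2 * Real.pi * (v * ξ)) * Complex.I)) * h v), ← inv ξ, abs_neg, abs_of_pos hπ]
    rw [Complex.real_smul]
    push_cast
    have e7 : Complex.exp (-(ξ : ℂ)) * Complex.exp ξ = 1 := by
      rw [← Complex.exp_add, neg_add_cancel, Complex.exp_zero]
    have e8 : (2 * (Real.pi : ℂ)) ≠ 0 := by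
      have : ((2 * Real.pi : ℝ) : ℂ) ≠ 0 := Complex.ofReal_ne_zero.2 hπ.ne'
      simpa using this
    calc (P ξ : ℂ) = (2 * (Real.pi : ℂ))⁻¹ * (2 * (Real.pi : ℂ)) *
          (Complex.exp (-(ξ : ℂ)) * Complex.exp ξ) * P ξ := by
            rw [inv_mul_cancel₀ e8, e7]; ring
      _ = _ := by
            rw [one_div]; ring

end Pool.Agent.Work.MP_56b8f5_nt.HZ
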