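import Pool.Agent.Work.MP_56b8f5_nt.HZ.StmtsC
import Pool.Agent.Work.MP_56b8f5_nt.SH.I_Pr2
import Pool.Agent.Work.MP_56b8f5_nt.SH.I_Cha

/-! MP_56b8f5_nt, block HZ: item Q2 (second moment of zeta times an arbitrary polynomial), helper54. -/

set_option autoImplicit false

open MeasureTheory Set Filter Topology

noncomputable section

namespace Pool.Agent.Work.MP_56b8f5_nt.HZ

open Pool.Agent.Work.MP_56b8f5_nt.EM Pool.Agent.Work.MP_56b8f5_nt.WM Pool.Agent.Work.MP_56b8f5_nt.SH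
open Pool.Agent.Work.MP_56b8f5_nt.HZG

namespace I_Q2

/-- The bilinear sum of a kernel. -/
def BS (N : ℕ) (D : ℕ → ℂ) (K : ℕ → ℕ → ℂ) : ℂ := ∑ a ∈ Finset.Icc 1 N, ∑ b ∈ Finset.Icc 1 N,
  D a * (starRingEnd ℂ) (D b) * K a b

theorem BS_congr {N : ℕ} {D : ℕ → ℂ} {K K' : ℕ → ℕ → ℂ}
    (h : ∀ a b, 1 ≤ a → 1 ≤ b → K a b = K' a b) : BS N D K = BS N D K' := by
  unfold BS
  refine Finset.sum_congr rfl fun a ha => Finset.sum_congr rfl fun b hb => ?_
  rw [h a b (Finset.mem_Icc.1 ha).1 (Finset.mem_Icc.1 hb).1]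

theorem BS_add (N : ℕ) (D : ℕ → ℂ) (K K' : ℕ → ℕ → ℂ) :
    BS N D (fun a b => K a b + K' a b) = BS N D K + BS N D K' := by
  unfold BS
  rw [← Finset.sum_add_distrib]
  refine Finset.sum_congr rfl fun a _ => ?_
  rw [← Finset.sum_add_distrib]
  refine Finset.sum_congr rfl fun b _ => ?_
  ring

theorem BS_smul (N : ℕ) (D : ℕ → ℂ) (K : ℕ → ℕ → ℂ) (c : ℂ) :
    BS N D (fun a b => c * K a b) = c * BS N D K := by
  unfold BS
  rw [Finset.mul_sum]
  refine Finset.sum_congr rfl fun a _ => ?_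
  rw [Finset.mul_sum]
  refine Finset.sum_congr rfl fun b _ => ?_
  ring

/-- The squared norm of the polynomial. -/
theorem normsq (hc : S_Cha) (N : ℕ) (D : ℕ → ℂ) (t : ℝ) :
    ((‖Ds N D (1 / 2 + (t : ℂ) * Complex.I)‖ ^ 2 : ℝ) : ℂ) =
      BS N D (fun a b => chi t a * chi (-t) b) := by
  have h1 : Ds N D (1 / 2 + (t : ℂ) * Complex.I) = ∑ n ∈ Finset.Icc 1 N, D n * chi t n := rfl
  have h2 : ((‖Ds N D (1 / 2 + (t : ℂ) * Complex.I)‖ ^ 2 : ℝ) : ℂ) =
      Ds N D (1 / 2 + (t : ℂ) * Complex.I) *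
        (starRingEnd ℂ) (Ds N D (1 / 2 + (t : ℂ) * Complex.I)) := by
    rw [Complex.mul_conj, Complex.normSq_eq_norm_sq]
  rw [h2, h1, map_sum, Finset.sum_mul_sum]
  unfold BS
  refine Finset.sum_congr rfl fun a _ => Finset.sum_congr rfl fun b _ => ?_
  beta_reduce
  rw [map_mul, hc.2.2.1 t b]
  ring

/-- The form of the logarithmic kernel. -/
theorem kh_form (hFoP : S_FoP) (N : ℕ) (hN : 1 ≤ N) (D : ℕ → ℂ) (L : ℝ) (hL : 0 < L) :
    -(BS N D (fun a b => (kh a b : ℂ))).re ≤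
      L * Fo N (fun n => ((1 - Real.log n / L : ℝ) : ℂ) * D n) + 4 * Real.log N * Fo N D := by
  obtain ⟨hp, -, hg⟩ := hFoP
  have hF1 : Fo N (fun n => ((1 - Real.log n / L : ℝ) : ℂ) * D n) =
      (BS N D (fun a b => (((1 - Real.log a / L) * (1 - Real.log b / L) * k2 a b : ℝ) : ℂ))).re := by
    unfold Fo BS
    congr 1
    refine Finset.sum_congr rfl fun a _ => Finset.sum_congr rfl fun b _ => ?_
    rw [map_mul, Complex.conj_ofReal]
    push_cast
    ring
  have hF2 : Fo N (fun n => ((Real.log n : ℝ) : ℂ) * D n) =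
      (BS N D (fun a b => ((Real.log a * Real.log b * k2 a b : ℝ) : ℂ))).re := by
    unfold Fo BS
    congr 1
    refine Finset.sum_congr rfl fun a _ => Finset.sum_congr rfl fun b _ => ?_
    rw [map_mul, Complex.conj_ofReal]
    push_cast
    ring
  have hF0 : Fo N D = (BS N D (fun a b => (k2 a b : ℂ))).re := rfl
  have hG : (BS N D (fun a b => ((k2 a b * Real.log (Nat.gcd a b) : ℝ) : ℂ))).re ≤
      2 * Real.log N * Fo N D := hg N D hN
  have key : BS N D (fun a b => (kh a b : ℂ)) =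
      ((-L : ℝ) : ℂ) * BS N D (fun a b => (((1 - Real.log a / L) * (1 - Real.log b / L) * k2 a b : ℝ) : ℂ)) +
      ((L : ℝ) : ℂ) * BS N D (fun a b => (k2 a b : ℂ)) +
      ((1 / L : ℝ) : ℂ) * BS N D (fun a b => ((Real.log a * Real.log b * k2 a b : ℝ) : ℂ)) +
      ((-2 : ℝ) : ℂ) * BS N D (fun a b => ((k2 a b * Real.log (Nat.gcd a b) : ℝ) : ℂ)) := by
    rw [← BS_smul, ← BS_smul, ← BS_smul, ← BS_smul, ← BS_add, ← BS_add, ← BS_add]
    refine BS_congr fun a b ha hb => ?_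
    have ha0 : (a : ℝ) ≠ 0 := by exact_mod_cast (by omega : a ≠ 0)
    have hb0 : (b : ℝ) ≠ 0 := by exact_mod_cast (by omega : b ≠ 0)
    have hg0 : ((Nat.gcd a b : ℕ) : ℝ) ≠ 0 := by
      have : 0 < Nat.gcd a b := Nat.gcd_pos_of_pos_left _ (by omega)
      exact_mod_cast this.ne'
    have e1 : Real.log ((a : ℝ) * b / (Nat.gcd a b : ℝ) ^ 2) =
        Real.log a + Real.log b - 2 * Real.log (Nat.gcd a b) := by
      rw [Real.log_div (mul_ne_zero ha0 hb0) (pow_ne_zero 2 hg0), Real.log_mul ha0 hb0,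
        Real.log_pow]
      push_cast
      ring
    have e2 : kh a b = -L * ((1 - Real.log a / L) * (1 - Real.log b / L) * k2 a b) +
        L * k2 a b + 1 / L * (Real.log a * Real.log b * k2 a b) +
        -2 * (k2 a b * Real.log (Nat.gcd a b)) := by
      unfold kh
      rw [e1]
      field_simp
      ring
    rw [e2]
    push_cast
    ring
  have key2 : (BS N D (fun a b => (kh a b : ℂ))).re =
      -L * Fo N (fun n => ((1 - Real.log n / L : ℝ) : ℂ) * D n) + L * Fo N D +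
      1 / L * Fo N (fun n => ((Real.log n : ℝ) : ℂ) * D n) +
      -2 * (BS N D (fun a b => ((k2 a b * Real.log (Nat.gcd a b) : ℝ) : ℂ))).re := by
    rw [hF1, hF2, hF0, key]
    simp only [Complex.add_re, Complex.re_ofReal_mul]
  have p1 : 0 ≤ L * Fo N D := mul_nonneg hL.le (hp N D)
  have p2 : 0 ≤ 1 / L * Fo N (fun n => ((Real.log n : ℝ) : ℂ) * D n) :=
    mul_nonneg (by positivity) (hp N _)
  rw [key2]
  linarith

theorem W0_01 {w : ℝ → ℝ} (hw : IsW w) : 0 ≤ W0 w ∧ W0 w ≤ 1 := by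
  refine ⟨integral_nonneg hw.nonneg, ?_⟩
  obtain ⟨c, hc, hsu⟩ := hw.supp
  have e1 : W0 w ≤ ∫ u : ℝ, Set.indicator (Set.Icc (0 : ℝ) 1) (fun _ => (1 : ℝ)) u := by
    apply integral_mono (SH.I_Pr2.intw hw)
    · exact (integrable_indicator_iff measurableSet_Icc).2
        (integrableOn_const (by simp))
    · intro u
      by_cases hu : w u = 0
      · rw [hu]
        exact Set.indicator_nonneg (fun _ _ => zero_le_one) _
      · have := hsu u hu
        rw [Set.indicator_of_mem (show u ∈ Set.Icc (0 : ℝ) 1 from ⟨by linarith, this.2⟩)]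
        exact hw.le_one u
  refine e1.trans ?_
  rw [integral_indicator measurableSet_Icc]
  simp

/-- The integral as a bilinear sum. -/
theorem int_eq (hc : S_Cha) {w : ℝ → ℝ} (hw : IsW w) (T : ℝ) (N : ℕ) (D : ℕ → ℂ) :
    ((∫ u : ℝ, w u * (az (T * u) ^ 2 * ‖Ds N D (1 / 2 + ((T * u : ℝ) : ℂ) * Complex.I)‖ ^ 2) : ℝ) : ℂ) =
      BS N D (fun a b => ∫ u : ℝ, (w u : ℂ) * (((az (T * u) ^ 2 : ℝ) : ℂ) *
        (chi (T * u) a * chi (-(T * u)) b))) := by
  have cchi : ∀ n : ℕ, Continuous fun u : ℝ => chi (T * u) n := fun n =>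
    (hc.2.2.2.2.2.2.1 n).comp (continuous_const.mul continuous_id)
  have cchi' : ∀ n : ℕ, Continuous fun u : ℝ => chi (-(T * u)) n := fun n =>
    (hc.2.2.2.2.2.2.1 n).comp (continuous_const.mul continuous_id).neg
  have cz : Continuous fun u : ℝ => riemannZeta (1 / 2 + ((T * u : ℝ) : ℂ) * Complex.I) :=
    SH.I_Pr2.czeta.comp (continuous_const.mul continuous_id)
  have cA : Continuous fun u : ℝ => az (T * u) ^ 2 := cz.norm.pow 2
  have cA' : Continuous fun u : ℝ => ((az (T * u) ^ 2 : ℝ) : ℂ) :=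
    Complex.continuous_ofReal.comp cA
  have hint : ∀ a b : ℕ, Integrable fun u : ℝ => (w u : ℂ) * (((az (T * u) ^ 2 : ℝ) : ℂ) *
      (chi (T * u) a * chi (-(T * u)) b)) := fun a b =>
    SH.I_Pr2.intwc hw (cA'.mul ((cchi a).mul (cchi' b)))
  rw [← integral_complex_ofReal]
  have e1 : ∀ u : ℝ, ((w u * (az (T * u) ^ 2 *
      ‖Ds N D (1 / 2 + ((T * u : ℝ) : ℂ) * Complex.I)‖ ^ 2) : ℝ) : ℂ) =
      ∑ a ∈ Finset.Icc 1 N, ∑ b ∈ Finset.Icc 1 N, D a * (starRingEnd ℂ) (D b) *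
        ((w u : ℂ) * (((az (T * u) ^ 2 : ℝ) : ℂ) * (chi (T * u) a * chi (-(T * u)) b))) := by
    intro u
    have h1 : ((w u * (az (T * u) ^ 2 *
      ‖Ds N D (1 / 2 + ((T * u : ℝ) : ℂ) * Complex.I)‖ ^ 2) : ℝ) : ℂ) =
      (w u : ℂ) * (((az (T * u) ^ 2 : ℝ) : ℂ) *
        ((‖Ds N D (1 / 2 + ((T * u : ℝ) : ℂ) * Complex.I)‖ ^ 2 : ℝ) : ℂ)) := by
      push_cast
      ring
    rw [h1, normsq hc N D (T * u)]
    unfold BS
    rw [Finset.mul_sum, Finset.mul_sum]
    refine Finset.sum_congr rfl fun a _ => ?_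
    rw [Finset.mul_sum, Finset.mul_sum]
    refine Finset.sum_congr rfl fun b _ => ?_
    ring
  simp_rw [e1]
  rw [integral_finsetSum _ (fun a _ => integrable_finsetSum _ fun b _ => (hint a b).const_mul _)]
  unfold BS
  refine Finset.sum_congr rfl fun a _ => ?_
  rw [integral_finsetSum _ (fun b _ => (hint a b).const_mul _)]
  refine Finset.sum_congr rfl fun b _ => ?_
  rw [integral_const_mul]

end I_Q2

open I_Q2 in
/-- **Q2.** -/
theorem Q2_pf (hFoP : S_FoP) (hPr2 : S_Pr2) : S_Q2 := by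
  intro w hw
  obtain ⟨C0, T0, hC0, hT0, h2⟩ := hPr2 w hw
  obtain ⟨hW0, hW1⟩ := W0_01 hw
  refine ⟨C0 + 5, max T0 3, by linarith, le_max_right _ _, ?_⟩
  intro T hT N hN hN8 D L hL
  obtain ⟨hpair, hZ0, hZ1⟩ := h2 T ((le_max_left _ _).trans hT)
  have hT3 : 3 ≤ T := (le_max_right _ _).trans hT
  have hTpos : 0 < T := by linarith
  have hN1 : (1 : ℝ) ≤ N := by exact_mod_cast hN
  set J : ℕ → ℕ → ℂ := fun a b => ∫ u : ℝ, (w u : ℂ) * (((az (T * u) ^ 2 : ℝ) : ℂ) *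
        (chi (T * u) a * chi (-(T * u)) b)) with hJ
  set K : ℕ → ℕ → ℂ := fun a b => ((Zw w T * k2 a b - W0 w * kh a b : ℝ) : ℂ) with hK
  set q : ℝ := T ^ (1 / 4 : ℝ) with hq
  have hqpos : 0 < q := Real.rpow_pos_of_pos hTpos _
  have hI := int_eq Cha_pf hw T N D
  -- the error
  have herr : ‖BS N D J - BS N D K‖ ≤ C0 / q * (∑ n ∈ Finset.Icc 1 N, ‖D n‖) ^ 2 := by
    have e1 : BS N D J - BS N D K = ∑ a ∈ Finset.Icc 1 N, ∑ b ∈ Finset.Icc 1 N,
        D a * (starRingEnd ℂ) (D b) * (J a b - K a b) := by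
      unfold BS
      rw [← Finset.sum_sub_distrib]
      refine Finset.sum_congr rfl fun a _ => ?_
      rw [← Finset.sum_sub_distrib]
      refine Finset.sum_congr rfl fun b _ => ?_
      ring
    rw [e1]
    have e2 : ∀ a ∈ Finset.Icc 1 N, ∀ b ∈ Finset.Icc 1 N,
        ‖D a * (starRingEnd ℂ) (D b) * (J a b - K a b)‖ ≤ C0 / q * (‖D a‖ * ‖D b‖) := by
      intro a ha b hb
      rw [Finset.mem_Icc] at ha hb
      have haN : (a : ℝ) ≤ N := by exact_mod_cast ha.2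
      have hbN : (b : ℝ) ≤ N := by exact_mod_cast hb.2
      have h3 := hpair a b (by omega) (by omega)
        ((pow_le_pow_left₀ (Nat.cast_nonneg a) haN 8).trans hN8)
        ((pow_le_pow_left₀ (Nat.cast_nonneg b) hbN 8).trans hN8)
      rw [norm_mul, norm_mul, RCLike.norm_conj]
      rw [mul_comm (C0 / q)]
      exact mul_le_mul_of_nonneg_left h3 (by positivity)
    calc ‖∑ a ∈ Finset.Icc 1 N, ∑ b ∈ Finset.Icc 1 N, D a * (starRingEnd ℂ) (D b) * (J a b - K a b)‖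
        ≤ ∑ a ∈ Finset.Icc 1 N, ∑ b ∈ Finset.Icc 1 N, C0 / q * (‖D a‖ * ‖D b‖) := by
          refine (norm_sum_le _ _).trans (Finset.sum_le_sum fun a ha => ?_)
          exact (norm_sum_le _ _).trans (Finset.sum_le_sum fun b hb => e2 a ha b hb)
      _ = C0 / q * (∑ n ∈ Finset.Icc 1 N, ‖D n‖) ^ 2 := by
          rw [sq, Finset.sum_mul_sum, Finset.mul_sum]
          refine Finset.sum_congr rfl fun a _ => ?_
          rw [Finset.mul_sum]
  -- the main term
  have hmain : (BS N D K).re = Zw w T * Fo N D + W0 w * (-(BS N D (fun a b => (kh a b : ℂ))).re) := by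
    have e1 : BS N D K = ((Zw w T : ℝ) : ℂ) * BS N D (fun a b => (k2 a b : ℂ)) +
        ((-W0 w : ℝ) : ℂ) * BS N D (fun a b => (kh a b : ℂ)) := by
      rw [← BS_smul, ← BS_smul, ← BS_add]
      refine BS_congr fun a b _ _ => ?_
      rw [hK]
      push_cast
      ring
    rw [e1]
    simp only [Complex.add_re, Complex.re_ofReal_mul]
    have : Fo N D = (BS N D (fun a b => (k2 a b : ℂ))).re := rfl
    rw [this]
    ring
  have hkh := kh_form hFoP N hN D L hL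
  obtain ⟨hp, -, -⟩ := hFoP
  set F0 : ℝ := Fo N D with hF0
  set F1 : ℝ := Fo N (fun n => ((1 - Real.log n / L : ℝ) : ℂ) * D n) with hF1
  have hF0n : 0 ≤ F0 := hp N D
  have hF1n : 0 ≤ F1 := hp N _
  have hlogN0 : 0 ≤ Real.log N := Real.log_nonneg hN1
  have hlogN : Real.log N ≤ Real.log T := by
    apply Real.log_le_log (by linarith)
    refine le_trans ?_ hN8
    exact le_self_pow₀ hN1 (by norm_num)
  have hlogT : 0 ≤ Real.log T := hlogN0.trans hlogN
  have hre : ∫ u : ℝ, w u * (az (T * u) ^ 2 *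
      ‖Ds N D (1 / 2 + ((T * u : ℝ) : ℂ) * Complex.I)‖ ^ 2) = (BS N D J).re := by
    rw [← hI, Complex.ofReal_re]
  rw [hre]
  have h3 : (BS N D J).re - (BS N D K).re ≤ C0 / q * (∑ n ∈ Finset.Icc 1 N, ‖D n‖) ^ 2 := by
    rw [← Complex.sub_re]
    exact (Complex.re_le_norm _).trans herr
  have hR : 0 ≤ L * F1 + 4 * Real.log N * F0 := by positivity
  have h4 : W0 w * (-(BS N D (fun a b => (kh a b : ℂ))).re) ≤ L * F1 + 4 * Real.log N * F0 :=
    (mul_le_mul_of_nonneg_left hkh hW0).trans (mul_le_of_le_one_left hR hW1)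
  have h5 : Zw w T * F0 ≤ C0 * Real.log T * F0 := mul_le_mul_of_nonneg_right hZ1 hF0n
  have h6 : C0 / q * (∑ n ∈ Finset.Icc 1 N, ‖D n‖) ^ 2 ≤
      (C0 + 5) / q * (∑ n ∈ Finset.Icc 1 N, ‖D n‖) ^ 2 := by
    apply mul_le_mul_of_nonneg_right _ (sq_nonneg _)
    exact div_le_div_of_nonneg_right (by linarith) hqpos.le
  have h7 : 4 * Real.log N * F0 ≤ 4 * Real.log T * F0 :=
    mul_le_mul_of_nonneg_right (by linarith) hF0n
  have h8 : C0 * Real.log T * F0 + (L * F1 + 4 * Real.log T * F0) ≤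
      (C0 + 5) * ((Real.log T + L) * (F0 + F1)) := by
    have a1 : 0 ≤ C0 * Real.log T * F1 := by positivity
    have a2 : 0 ≤ Real.log T * F1 := by positivity
    have a3 : 0 ≤ C0 * L * F0 := by positivity
    have a4 : 0 ≤ L * F0 := by positivity
    have a5 : 0 ≤ C0 * L * F1 := by positivity
    have a6 : 0 ≤ Real.log T * F0 := by positivity
    have a7 : 0 ≤ L * F1 := by positivity
    nlinarith
  linarith

end Pool.Agent.Work.MP_56b8f5_nt.HZ
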