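import Pool.Agent.Work.MP_56b8f5_nt.HZ.StmtsC
import Pool.Agent.Work.MP_56b8f5_nt.SH.I_KMul
import Pool.Agent.Work.MP_56b8f5_nt.SH.I_NmL
import Pool.Agent.Work.MP_56b8f5_nt.SH.I_Cha
import Pool.Agent.Work.MP_56b8f5_nt.WM.I_PeBas
import Pool.Agent.Work.MP_56b8f5_nt.WM.I_PeMul

/-!
MP_56b8f5_nt, block HZ, part (c), item Qc: the coefficients of the tilt.
-/

set_option autoImplicit false

open MeasureTheory Set Filter Topology

noncomputable section

namespace Pool.Agent.Work.MP_56b8f5_nt.HZ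

open Pool.Agent.Work.MP_56b8f5_nt.EM Pool.Agent.Work.MP_56b8f5_nt.WM Pool.Agent.Work.MP_56b8f5_nt.SH
open Pool.Agent.Work.MP_56b8f5_nt.HZG

namespace I_Qc

/-- The coefficient at `n` as an additive homomorphism. -/
def cf (n : ℕ) : DA →+ ℂ where
  toFun α := α.coeff n
  map_zero' := by simp
  map_add' α β := by rw [MonoidAlgebra.coeff_add, Finsupp.add_apply]

theorem cf_apply (n : ℕ) (α : DA) : cf n α = α.coeff n := rfl

theorem cf_smul (n : ℕ) (c : ℂ) (α : DA) : cf n (c • α) = c * cf n α := by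
  rw [cf_apply, cf_apply, MonoidAlgebra.coeff_smul, Finsupp.smul_apply, smul_eq_mul]

theorem cf_single (n m : ℕ) (c : ℂ) : cf n (MonoidAlgebra.single m c) = if m = n then c else 0 := by
  rw [cf_apply, MonoidAlgebra.coeff_single, Finsupp.single_apply]

theorem cf_mul (n : ℕ) (α β : DA) : cf n (α * β) = ∑ a ∈ α.coeff.support,
    ∑ b ∈ β.coeff.support, if a * b = n then cf a α * cf b β else 0 := by
  rw [I_KMul.mul_eq_sum, map_sum]
  refine Finset.sum_congr rfl fun a _ => ?_
  rw [map_sum]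
  exact Finset.sum_congr rfl fun b _ => cf_single _ _ _

theorem cf_mul_single (n p : ℕ) (α : DA) : cf n (α * MonoidAlgebra.single p 1) =
    ∑ a ∈ α.coeff.support, if a * p = n then cf a α else 0 := by
  rw [cf_mul]
  refine Finset.sum_congr rfl fun a _ => ?_
  have h1 : ((MonoidAlgebra.single p (1 : ℂ) : DA)).coeff.support = {p} := by
    rw [MonoidAlgebra.coeff_single, Finsupp.support_single _ one_ne_zero]
  rw [h1, Finset.sum_singleton, cf_single, if_pos rfl, mul_one]

theorem cf_mul_single_dvd {p : ℕ} (hp : p ≠ 0) (k : ℕ) (α : DA) :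
    cf (p * k) (α * MonoidAlgebra.single p 1) = cf k α := by
  rw [cf_mul_single]
  have h1 : ∀ a ∈ α.coeff.support, (if a * p = p * k then cf a α else 0) =
      if a = k then cf a α else 0 := by
    intro a _
    congr 1
    rw [mul_comm a p]
    exact propext (mul_right_inj' hp)
  rw [Finset.sum_congr rfl h1, Finset.sum_ite_eq' α.coeff.support k fun a => cf a α]
  split_ifs with h
  · rfl
  · rw [cf_apply]
    exact (Finsupp.notMem_support_iff.mp h).symm

theorem cf_mul_single_ndvd {p n : ℕ} (h : ¬ p ∣ n) (α : DA) :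
    cf n (α * MonoidAlgebra.single p 1) = 0 := by
  rw [cf_mul_single]
  refine Finset.sum_eq_zero fun a _ => if_neg ?_
  rintro rfl
  exact h (dvd_mul_left _ _)

/-- `a` times the indicator function of `S`. -/
def fn (S : Finset ℕ) (a : ℝ) (p : ℕ) : ℝ := if p ∈ S then a else 0

theorem fn_nonneg {S : Finset ℕ} {a : ℝ} (ha : 0 ≤ a) (p : ℕ) : 0 ≤ fn S a p := by
  unfold fn
  split_ifs
  · exact ha
  · exact le_rfl

theorem pe_mul_prime (f : ℕ → ℝ) {p k : ℕ} (hp : p.Prime) (hk : k ≠ 0) :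
    (((p * k).factorization p : ℕ) : ℝ) * pe f (p * k) = f p * pe f k := by
  have hn : p * k ≠ 0 := mul_ne_zero hp.ne_zero hk
  have hmem : p ∈ (p * k).primeFactors := Nat.mem_primeFactors.2 ⟨hp, dvd_mul_right _ _, hn⟩
  have hsub : k.primeFactors ⊆ (p * k).primeFactors :=
    Nat.primeFactors_mono (dvd_mul_left _ _) hn
  have hfac : (p * k).factorization = Finsupp.single p 1 + k.factorization := by
    rw [Nat.factorization_mul hp.ne_zero hk, hp.factorization]
  rw [I_PeBas.pe_eq f hn, I_PeBas.pe_eq' f hk _ hsub,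
    ← Finset.mul_prod_erase _ _ hmem, ← Finset.mul_prod_erase _ _ hmem]
  have h1 : ∀ q ∈ (p * k).primeFactors.erase p, I_PeBas.lf (f q) ((p * k).factorization q) =
      I_PeBas.lf (f q) (k.factorization q) := by
    intro q hq
    have hqp : q ≠ p := (Finset.mem_erase.1 hq).1
    rw [hfac, Finsupp.add_apply, Finsupp.single_apply, if_neg (Ne.symm hqp), zero_add]
  rw [Finset.prod_congr rfl h1]
  have h2 : (p * k).factorization p = k.factorization p + 1 := by
    rw [hfac, Finsupp.add_apply, Finsupp.single_apply, if_pos rfl, add_comm]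
  rw [h2, ← mul_assoc, ← mul_assoc]
  congr 1
  unfold I_PeBas.lf
  have h3 : ((k.factorization p).factorial : ℝ) ≠ 0 := (I_PeBas.fac_pos _).ne'
  have h4 : ((k.factorization p + 1 : ℕ) : ℝ) ≠ 0 := by positivity
  rw [Nat.factorial_succ, Nat.cast_mul, pow_succ]
  field_simp

theorem sum_fac (S : Finset ℕ) (a : ℝ) {n : ℕ} (hn : n ≠ 0) :
    (∑ p ∈ S, ((n.factorization p : ℕ) : ℝ)) * pe (fn S a) n =
      ((ArithmeticFunction.cardFactors n : ℕ) : ℝ) * pe (fn S a) n := by
  by_cases h : n.primeFactors ⊆ S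
  · congr 1
    rw [ArithmeticFunction.cardFactors_eq_sum_factorization, Finsupp.sum,
      Nat.support_factorization, Nat.cast_sum]
    refine (Finset.sum_subset h fun p _ hp => ?_).symm
    have h0 : n.factorization p = 0 := by
      rw [← Finsupp.notMem_support_iff, Nat.support_factorization]
      exact hp
    rw [h0, Nat.cast_zero]
  · obtain ⟨q, hq, hqS⟩ := Finset.not_subset.1 h
    rw [I_PeBas.pe_vanish (fn S a) n q (Nat.prime_of_mem_primeFactors hq)
      (Nat.dvd_of_mem_primeFactors hq) (if_neg hqS), mul_zero, mul_zero]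

/-- The coefficients of the powers of `pS S`. -/
theorem cf_pow (S : Finset ℕ) (hS : ∀ p ∈ S, p.Prime) (a : ℝ) (m : ℕ) : ∀ n : ℕ, n ≠ 0 →
    ((a ^ m : ℝ) : ℂ) * cf n (pS S ^ m) =
      (((if ArithmeticFunction.cardFactors n = m then (m.factorial : ℝ) * pe (fn S a) n else 0 :
        ℝ)) : ℂ) := by
  induction m with
  | zero =>
    intro n hn
    rw [pow_zero, pow_zero, Complex.ofReal_one, one_mul, MonoidAlgebra.one_def, cf_single]
    by_cases h : n = 1
    · subst h
      rw [if_pos rfl, if_pos ArithmeticFunction.cardFactors_one, I_PeBas.pe_one]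
      simp
    · rw [if_neg (Ne.symm h), if_neg, Complex.ofReal_zero]
      intro h1
      rcases ArithmeticFunction.cardFactors_eq_zero_iff_eq_zero_or_one.1 h1 with h2 | h2
      · exact hn h2
      · exact h h2
  | succ m ih =>
    intro n hn
    have h1 : cf n (pS S ^ (m + 1)) = ∑ p ∈ S, cf n (pS S ^ m * MonoidAlgebra.single p 1) := by
      rw [pow_succ]
      conv_lhs => rw [show pS S ^ m * pS S = ∑ p ∈ S, pS S ^ m * MonoidAlgebra.single p 1 by
        unfold pS
        rw [Finset.mul_sum]]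
      rw [map_sum]
    have h2 : ∀ p ∈ S, ((a ^ (m + 1) : ℝ) : ℂ) * cf n (pS S ^ m * MonoidAlgebra.single p 1) =
        (((if ArithmeticFunction.cardFactors n = m + 1 then (m.factorial : ℝ) *
          (((n.factorization p : ℕ) : ℝ) * pe (fn S a) n) else 0 : ℝ)) : ℂ) := by
      intro p hp
      have hpp := hS p hp
      by_cases hd : p ∣ n
      · obtain ⟨k, rfl⟩ := hd
        have hk : k ≠ 0 := fun h => hn (by rw [h, mul_zero])
        rw [cf_mul_single_dvd hpp.ne_zero, pow_succ, mul_comm (a ^ m) a, Complex.ofReal_mul,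
          mul_assoc, ih k hk, pe_mul_prime _ hpp hk]
        have h3 : ArithmeticFunction.cardFactors (p * k) =
            ArithmeticFunction.cardFactors k + 1 := by
          rw [ArithmeticFunction.cardFactors_mul hpp.ne_zero hk,
            ArithmeticFunction.cardFactors_apply_prime hpp, add_comm]
        have h4 : fn S a p = a := if_pos hp
        rw [h3, h4, ← Complex.ofReal_mul]
        congr 1
        by_cases h5 : ArithmeticFunction.cardFactors k = m
        · rw [if_pos h5, if_pos (by rw [h5])]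
          ring
        · rw [if_neg h5, if_neg (fun h6 => h5 (by omega)), mul_zero]
      · rw [cf_mul_single_ndvd hd, mul_zero]
        have h3 : n.factorization p = 0 := Nat.factorization_eq_zero_of_not_dvd hd
        rw [h3, Nat.cast_zero, zero_mul, mul_zero, ite_self, Complex.ofReal_zero]
    rw [h1, Finset.mul_sum, Finset.sum_congr rfl h2, ← Complex.ofReal_sum]
    congr 1
    by_cases h5 : ArithmeticFunction.cardFactors n = m + 1
    · simp only [if_pos h5]
      rw [← Finset.mul_sum, ← Finset.sum_mul, sum_fac S a hn, h5, Nat.factorial_succ]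
      push_cast
      ring
    · simp only [if_neg h5]
      exact Finset.sum_const_zero

/-- The truncated exponential of `a pS S`. -/
def QQ (S : Finset ℕ) (l : ℕ) (a : ℝ) : DA :=
  ∑ m ∈ Finset.range (l + 1), ((a ^ m / (m.factorial : ℝ) : ℝ) : ℂ) • pS S ^ m

/-- Domination: the coefficients are real, nonnegative and at most those of `pe f`. -/
def Dm (f : ℕ → ℝ) (α : DA) : Prop := ∀ n, ∃ x : ℝ, 0 ≤ x ∧ x ≤ pe f n ∧ cf n α = (x : ℂ)

theorem QQ_dm (S : Finset ℕ) (hS : ∀ p ∈ S, p.Prime) (l : ℕ) {a : ℝ} (ha : 0 ≤ a) :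
    Dm (fn S a) (QQ S l a) := by
  intro n
  have hpe := I_PeBas.pe_nonneg (fn_nonneg (S := S) ha) n
  rcases eq_or_ne n 0 with rfl | hn
  · refine ⟨0, le_rfl, hpe, ?_⟩
    have h1 : Sup S (QQ S l a) := I_KMul.sup_sum S _ _ fun m _ =>
      I_KMul.sup_smul S _ _ (I_KMul.sup_pow S _ (I_KMul.sup_pS S hS) m)
    rw [Complex.ofReal_zero]
    by_contra h2
    exact (h1 0 (Finsupp.mem_support_iff.2 h2)).1 rfl
  · have h1 : cf n (QQ S l a) = (((if ArithmeticFunction.cardFactors n ∈ Finset.range (l + 1) then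
        pe (fn S a) n else 0 : ℝ)) : ℂ) := by
      unfold QQ
      rw [map_sum]
      have h2 : ∀ m ∈ Finset.range (l + 1),
          cf n (((a ^ m / (m.factorial : ℝ) : ℝ) : ℂ) • pS S ^ m) =
            (((if ArithmeticFunction.cardFactors n = m then pe (fn S a) n else 0 : ℝ)) : ℂ) := by
        intro m _
        have h3 : (((m.factorial : ℕ) : ℝ)) ≠ 0 := (I_PeBas.fac_pos _).ne'
        rw [cf_smul, div_eq_inv_mul, Complex.ofReal_mul, mul_assoc, cf_pow S hS a m n hn,
          ← Complex.ofReal_mul]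
        congr 1
        split_ifs
        · rw [← mul_assoc, inv_mul_cancel₀ h3, one_mul]
        · rw [mul_zero]
      rw [Finset.sum_congr rfl h2, ← Complex.ofReal_sum, Finset.sum_ite_eq]
    rw [h1]
    refine ⟨_, ?_, ?_, rfl⟩
    · split_ifs
      · exact hpe
      · exact le_rfl
    · split_ifs
      · exact le_rfl
      · exact hpe

theorem cf_mul_anti {n : ℕ} (hn : n ≠ 0) (α β : DA) :
    cf n (α * β) = ∑ x ∈ n.divisorsAntidiagonal, cf x.1 α * cf x.2 β := by
  rw [cf_mul, ← Finset.sum_product' (f := fun a b => if a * b = n then cf a α * cf b β else 0),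
    ← Finset.sum_filter]
  refine Finset.sum_subset ?_ ?_
  · intro x hx
    rw [Finset.mem_filter] at hx
    rw [Nat.mem_divisorsAntidiagonal]
    exact ⟨hx.2, hn⟩
  · intro x hx hx2
    rw [Nat.mem_divisorsAntidiagonal] at hx
    rw [Finset.mem_filter, Finset.mem_product] at hx2
    by_cases h1 : x.1 ∈ α.coeff.support
    · by_cases h2 : x.2 ∈ β.coeff.support
      · exact absurd ⟨⟨h1, h2⟩, hx.1⟩ hx2
      · rw [cf_apply x.2, Finsupp.notMem_support_iff.mp h2, mul_zero]
    · rw [cf_apply x.1, Finsupp.notMem_support_iff.mp h1, zero_mul]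

theorem Dm.zero {f : ℕ → ℝ} {α : DA} (h : Dm f α) : cf 0 α = 0 := by
  obtain ⟨x, h1, h2, h3⟩ := h 0
  rw [I_PeBas.pe_zero] at h2
  rw [h3, le_antisymm h2 h1, Complex.ofReal_zero]

theorem Dm.mul {f g : ℕ → ℝ} (hf : ∀ p, 0 ≤ f p) {α β : DA}
    (h : Dm f α) (h' : Dm g β) : Dm (fun p => f p + g p) (α * β) := by
  intro n
  choose x hx0 hx1 hx2 using h
  choose y hy0 hy1 hy2 using h'
  rcases eq_or_ne n 0 with rfl | hn
  · refine ⟨0, le_rfl, by rw [I_PeBas.pe_zero], ?_⟩
    rw [cf_mul, Complex.ofReal_zero]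
    refine Finset.sum_eq_zero fun a ha => Finset.sum_eq_zero fun b hb => ?_
    split_ifs with hab
    · rcases Nat.mul_eq_zero.1 hab with h1 | h1
      · rw [h1, Dm.zero (fun n => ⟨x n, hx0 n, hx1 n, hx2 n⟩), zero_mul]
      · rw [h1, Dm.zero (fun n => ⟨y n, hy0 n, hy1 n, hy2 n⟩), mul_zero]
    · rfl
  · have hpe : pe (fun p => f p + g p) n = ∑ z ∈ n.divisorsAntidiagonal, pe f z.1 * pe g z.2 := by
      have h1 := congrArg (fun F : ArithmeticFunction ℝ => F n) (PeMul_pf.2 f g)
      exact h1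
    refine ⟨∑ z ∈ n.divisorsAntidiagonal, x z.1 * y z.2,
      Finset.sum_nonneg fun z _ => mul_nonneg (hx0 _) (hy0 _), ?_, ?_⟩
    · rw [hpe]
      exact Finset.sum_le_sum fun z _ =>
        mul_le_mul (hx1 _) (hy1 _) (hy0 _) (I_PeBas.pe_nonneg hf _)
    · rw [cf_mul_anti hn, Complex.ofReal_sum]
      refine Finset.sum_congr rfl fun z _ => ?_
      rw [hx2, hy2, Complex.ofReal_mul]

theorem dm_one : Dm (fun _ => 0) (1 : DA) := by
  intro n
  rw [MonoidAlgebra.one_def, cf_single]
  by_cases h : n = 1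
  · subst h
    exact ⟨1, zero_le_one, by rw [I_PeBas.pe_one], by simp⟩
  · refine ⟨0, le_rfl, I_PeBas.pe_nonneg (fun _ => le_rfl) n, ?_⟩
    rw [if_neg (Ne.symm h), Complex.ofReal_zero]

/-- The product. -/
def QP (M : ℕ) (S : ℕ → Finset ℕ) (l : ℕ → ℕ) (a : ℝ) : DA :=
  ∏ j ∈ Finset.range M, (QQ (S j) (l j) a * QQ (S j) (l j) a)

theorem QP_dm (M : ℕ) (S : ℕ → Finset ℕ) (l : ℕ → ℕ) {a : ℝ} (ha : 0 ≤ a)
    (hS : ∀ j < M, ∀ p ∈ S j, p.Prime) :
    Dm (fun p => ∑ j ∈ Finset.range M, (fn (S j) a p + fn (S j) a p)) (QP M S l a) := by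
  induction M with
  | zero =>
    simp only [QP, Finset.range_zero, Finset.prod_empty, Finset.sum_empty]
    exact dm_one
  | succ M ih =>
    have h1 := ih fun j hj => hS j (by omega)
    have h2 := QQ_dm (S M) (hS M (by omega)) (l M) ha
    have h3 := h1.mul (fun p => Finset.sum_nonneg fun j _ =>
      add_nonneg (fn_nonneg ha p) (fn_nonneg ha p)) (h2.mul (fn_nonneg ha) h2)
    unfold QP at h3 ⊢
    simp only [Finset.prod_range_succ, Finset.sum_range_succ]
    exact h3

theorem ev_QQ (t : ℝ) (S : Finset ℕ) (l : ℕ) (a : ℝ) :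
    ev t (QQ S l a) = TE l (a * PS S t) := by
  have h1 : ev t (pS S) = PS S t := by
    unfold pS PS
    rw [map_sum]
    refine Finset.sum_congr rfl fun p _ => ?_
    unfold ev
    rw [MonoidAlgebra.lift_single, one_smul]
  unfold QQ TE
  rw [map_sum]
  refine Finset.sum_congr rfl fun m _ => ?_
  rw [map_smul, map_pow, h1, smul_eq_mul, mul_pow]
  push_cast
  ring

theorem ev_QP (t : ℝ) (M : ℕ) (S : ℕ → Finset ℕ) (l : ℕ → ℕ) (a : ℝ) :
    ev t (QP M S l a) = NN M S l a a t := by
  unfold QP NN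
  rw [map_prod]
  refine Finset.prod_congr rfl fun j _ => ?_
  rw [map_mul, ev_QQ]

open I_NmL

theorem QQ_size (S : Finset ℕ) (y : ℝ) (hy : 1 ≤ y) (hS : ∀ p ∈ S, p.Prime ∧ Real.log p ≤ y)
    (l : ℕ) {a : ℝ} (ha : 0 ≤ a) :
    nm (QQ S l a) ≤ Real.exp (l * y + a) ∧ Bdd (Real.exp (l * y)) (QQ S l a) := by
  have hE : 1 ≤ Real.exp y := Real.one_le_exp (by linarith)
  have hle : ∀ p ∈ S, (p : ℝ) ≤ Real.exp y := by
    intro p hp
    have h1 : (0 : ℝ) < p := by exact_mod_cast (hS p hp).1.pos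
    rw [← Real.exp_log h1]
    exact Real.exp_le_exp.mpr (hS p hp).2
  have hcard : (S.card : ℝ) ≤ Real.exp y := by
    have h1 : S ⊆ Finset.Icc 1 ⌊Real.exp y⌋₊ := by
      intro p hp
      rw [Finset.mem_Icc]
      exact ⟨(hS p hp).1.one_lt.le, Nat.le_floor (hle p hp)⟩
    have h2 := Finset.card_le_card h1
    rw [Nat.card_Icc, Nat.add_sub_cancel] at h2
    exact le_trans (by exact_mod_cast h2) (Nat.floor_le (Real.exp_pos _).le)
  have hnm : nm (pS S) ≤ Real.exp y := by
    unfold pS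
    refine (nm_sum _ _).trans ?_
    simp only [nm_single, norm_one, Finset.sum_const, nsmul_eq_mul, mul_one]
    exact hcard
  have hbd : Bdd (Real.exp y) (pS S) := by
    unfold pS
    apply bdd_sum
    intro p hp
    exact bdd_single _ (hS p hp).1.ne_zero (hle p hp)
  have hpw : ∀ m ∈ Finset.range (l + 1), Real.exp y ^ m ≤ Real.exp (l * y) := by
    intro m hm
    rw [← Real.exp_nat_mul]
    apply Real.exp_le_exp.mpr
    have h1 : m ≤ l := by
      have := Finset.mem_range.mp hm
      omega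
    have h2 : (m : ℝ) ≤ l := by exact_mod_cast h1
    nlinarith
  constructor
  · unfold QQ
    refine (nm_sum _ _).trans ?_
    have h1 : ∀ m ∈ Finset.range (l + 1),
        nm (((a ^ m / (m.factorial : ℝ) : ℝ) : ℂ) • pS S ^ m) ≤
          a ^ m / (m.factorial : ℝ) * Real.exp (l * y) := by
      intro m hm
      rw [Algebra.smul_def]
      have hterm : algebraMap ℂ DA ((a ^ m / (m.factorial : ℝ) : ℝ) : ℂ) =
        MonoidAlgebra.single 1 (((a ^ m / (m.factorial : ℝ) : ℝ) : ℂ)) := rfl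
      rw [hterm]
      refine (nm_mul _ _).trans ?_
      have h2 : 0 ≤ a ^ m / (m.factorial : ℝ) := by positivity
      rw [nm_single, Complex.norm_real, Real.norm_of_nonneg h2]
      apply mul_le_mul_of_nonneg_left _ h2
      exact (nm_pow _ _).trans ((pow_le_pow_left₀ (nm_nonneg _) hnm m).trans (hpw m hm))
    refine (Finset.sum_le_sum h1).trans ?_
    rw [← Finset.sum_mul, add_comm ((l : ℝ) * y) a, Real.exp_add]
    exact mul_le_mul_of_nonneg_right (Real.sum_le_exp_of_nonneg ha (l + 1)) (Real.exp_pos _).le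
  · unfold QQ
    apply bdd_sum
    intro m hm
    rw [Algebra.smul_def]
    have hterm : algebraMap ℂ DA ((a ^ m / (m.factorial : ℝ) : ℝ) : ℂ) =
      MonoidAlgebra.single 1 (((a ^ m / (m.factorial : ℝ) : ℝ) : ℂ)) := rfl
    rw [hterm]
    have h1 := bdd_mul zero_le_one (bdd_single (B := 1) (((a ^ m / (m.factorial : ℝ) : ℝ) : ℂ))
      one_ne_zero (by simp)) (bdd_pow hE hbd m)
    rw [one_mul] at h1
    exact h1.mono (hpw m hm)

theorem QP_size (M : ℕ) (S : ℕ → Finset ℕ) (l : ℕ → ℕ) (y : ℕ → ℝ) {a : ℝ} (ha : 0 ≤ a)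
    (h : ∀ j < M, 1 ≤ y j ∧ (∀ p ∈ S j, p.Prime ∧ Real.log p ≤ y j)) :
    nm (QP M S l a) ≤ Real.exp (∑ j ∈ Finset.range M, (2 * ((l j : ℝ) * y j) + 2 * a)) ∧
      Bdd (Real.exp (2 * ∑ j ∈ Finset.range M, (l j : ℝ) * y j)) (QP M S l a) := by
  induction M with
  | zero =>
    simp only [QP, Finset.range_zero, Finset.prod_empty, Finset.sum_empty, mul_zero, Real.exp_zero]
    exact ⟨nm_one.le, bdd_one le_rfl⟩
  | succ M ih =>
    obtain ⟨i1, i2⟩ := ih fun j hj => h j (by omega)
    obtain ⟨hy, hp⟩ := h M (by omega)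
    obtain ⟨a1, a2⟩ := QQ_size (S M) (y M) hy hp (l M) ha
    have hal : QP (M + 1) S l a = QP M S l a * (QQ (S M) (l M) a * QQ (S M) (l M) a) := by
      unfold QP
      rw [Finset.prod_range_succ]
    have b1 : nm (QQ (S M) (l M) a * QQ (S M) (l M) a) ≤
        Real.exp (2 * ((l M : ℝ) * y M) + 2 * a) := by
      refine (nm_mul _ _).trans ((mul_le_mul a1 a1 (nm_nonneg _) (Real.exp_pos _).le).trans ?_)
      rw [← Real.exp_add]
      apply Real.exp_le_exp.mpr
      linarith
    have b2 : Bdd (Real.exp (2 * ((l M : ℝ) * y M))) (QQ (S M) (l M) a * QQ (S M) (l M) a) := by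
      refine (bdd_mul (Real.exp_pos _).le a2 a2).mono ?_
      rw [← Real.exp_add]
      apply Real.exp_le_exp.mpr
      linarith
    constructor
    · rw [hal, Finset.sum_range_succ, Real.exp_add]
      exact (nm_mul _ _).trans (mul_le_mul i1 b1 (nm_nonneg _) (Real.exp_pos _).le)
    · rw [hal, Finset.sum_range_succ, mul_add, Real.exp_add]
      exact bdd_mul (Real.exp_pos _).le i2 b2

end I_Qc

open I_Qc I_NmL

theorem Qc_pf : S_Qc := by
  intro B hB ε c η T M S l y hT hε hεB hs β hβ hβB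
  have hTpos : 0 < T := by linarith
  have hL : 0 ≤ Real.log T := Real.log_nonneg hT
  have hl0 : ∀ j < M, B + 1 ≤ (l j : ℝ) := by
    intro j hj
    have h1 := hs.ll j hj
    have h2 : ε * (l j : ℝ) ≤ 1 / (B + 1) * (l j : ℝ) :=
      mul_le_mul_of_nonneg_right hεB (Nat.cast_nonneg _)
    have h3 : 1 ≤ 1 / (B + 1) * (l j : ℝ) := h1.trans h2
    rw [div_mul_eq_mul_div, one_mul, le_div_iff₀ (by linarith), one_mul] at h3
    exact h3
  have hterm : ∀ j ∈ Finset.range M, 0 ≤ (l j : ℝ) * y j := by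
    intro j hj
    have := hs.yl j (Finset.mem_range.mp hj)
    positivity
  have hpr : ∀ j < M, 1 ≤ y j ∧ (∀ p ∈ S j, p.Prime ∧ Real.log p ≤ y j) :=
    fun j hj => ⟨hs.yl j hj, hs.pr j hj⟩
  have hβ2 : 0 ≤ β / 2 := by linarith
  refine ⟨?_, ?_, ?_⟩
  · obtain ⟨hnm, hbd⟩ := QP_size M S l y hβ2 hpr
    have hdm := QP_dm M S l hβ2 fun j hj p hp => (hs.pr j hj p hp).1
    set Q : DA := QP M S l (β / 2) with hQ
    set N : ℕ := ⌊Real.exp (Real.log T / 100)⌋₊ with hN
    have hN1 : (N : ℝ) ≤ Real.exp (Real.log T / 100) := Nat.floor_le (Real.exp_pos _).le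
    have hcq : ∀ n, cf n Q = (((cf n Q).re : ℝ) : ℂ) := by
      intro n
      obtain ⟨x, -, -, hx⟩ := hdm n
      rw [hx, Complex.ofReal_re]
    have hq0 : ∀ n, 0 ≤ (cf n Q).re := by
      intro n
      obtain ⟨x, hx0, -, hx⟩ := hdm n
      rw [hx, Complex.ofReal_re]
      exact hx0
    have hsupp : ∀ n ∈ Q.coeff.support, 1 ≤ n ∧ n ≤ N := by
      intro n hn
      obtain ⟨h1, h2⟩ := hbd n hn
      refine ⟨Nat.one_le_iff_ne_zero.2 h1, Nat.le_floor (h2.trans (Real.exp_le_exp.mpr ?_))⟩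
      linarith [hs.len]
    have hsub : Q.coeff.support ⊆ Finset.Icc 1 N := fun n hn => Finset.mem_Icc.2 (hsupp n hn)
    refine ⟨N, fun n => (cf n Q).re, ?_, hq0, ?_, ?_, ?_, ?_, ?_⟩
    · apply Nat.le_floor
      rw [Nat.cast_one]
      exact Real.one_le_exp (by positivity)
    · intro n hn
      apply hsupp
      rw [Finsupp.mem_support_iff]
      intro h1
      apply hn
      rw [cf_apply, h1, Complex.zero_re]
    · calc (N : ℝ) ^ 100 ≤ Real.exp (Real.log T / 100) ^ 100 :=
            pow_le_pow_left₀ (Nat.cast_nonneg _) hN1 100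
        _ = T := by
          rw [← Real.exp_nat_mul]
          rw [show ((100 : ℕ) : ℝ) * (Real.log T / 100) = Real.log T by push_cast; ring,
            Real.exp_log hTpos]
    · intro n
      obtain ⟨x, -, hx1, hx⟩ := hdm n
      have h1 : (cf n Q).re = x := by rw [hx, Complex.ofReal_re]
      show (cf n Q).re ≤ _
      rw [h1]
      refine hx1.trans (le_of_eq ?_)
      congr 1
      funext p
      by_cases hp : p ∈ (Finset.range M).biUnion S
      · rw [if_pos hp]
        obtain ⟨i, hi, hpi⟩ := Finset.mem_biUnion.1 hp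
        rw [Finset.sum_eq_single_of_mem i hi]
        · unfold fn
          rw [if_pos hpi]
          ring
        · intro j hj hji
          have h2 : p ∉ S j := fun h3 =>
            Finset.disjoint_left.1 (hs.dj j (Finset.mem_range.mp hj) i (Finset.mem_range.mp hi) hji)
              h3 hpi
          unfold fn
          rw [if_neg h2, add_zero]
      · rw [if_neg hp]
        refine Finset.sum_eq_zero fun j hj => ?_
        have h2 : p ∉ S j := fun h3 => hp (Finset.mem_biUnion.2 ⟨j, hj, h3⟩)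
        unfold fn
        rw [if_neg h2, add_zero]
    · have h1 : ∑ n ∈ Finset.Icc 1 N, (cf n Q).re = nm Q := by
        rw [nm_of_sub Q _ hsub]
        refine Finset.sum_congr rfl fun n _ => ?_
        have h2 : Q.coeff n = (((cf n Q).re : ℝ) : ℂ) := hcq n
        rw [h2, Complex.norm_real, Real.norm_of_nonneg (hq0 n)]
      show ∑ n ∈ Finset.Icc 1 N, (cf n Q).re ≤ _
      rw [h1, Real.rpow_def_of_pos hTpos]
      refine hnm.trans (Real.exp_le_exp.mpr ?_)
      have h3 : ∑ j ∈ Finset.range M, (2 * ((l j : ℝ) * y j) + 2 * (β / 2)) ≤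
          ∑ j ∈ Finset.range M, 3 * ((l j : ℝ) * y j) := by
        refine Finset.sum_le_sum fun j hj => ?_
        have hj' := Finset.mem_range.mp hj
        have h4 := hl0 j hj'
        have h5 := hs.yl j hj'
        have h6 : (l j : ℝ) * 1 ≤ (l j : ℝ) * y j :=
          mul_le_mul_of_nonneg_left h5 (Nat.cast_nonneg _)
        linarith
      refine h3.trans ?_
      rw [← Finset.mul_sum]
      linarith [hs.len]
    · intro t
      rw [← ev_QP, I_Cha.ev_eq]
      unfold Ds
      rw [← hQ, Finset.sum_subset hsub fun n _ hn => by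
        rw [Finsupp.notMem_support_iff.mp hn, zero_mul]]
      refine Finset.sum_congr rfl fun n _ => ?_
      have h2 : Q.coeff n = (((cf n Q).re : ℝ) : ℂ) := hcq n
      rw [h2]
      rfl
  · intro p hp
    obtain ⟨i, hi, hpi⟩ := Finset.mem_biUnion.1 hp
    have hi' := Finset.mem_range.mp hi
    obtain ⟨h1, h2⟩ := hs.pr i hi' p hpi
    refine ⟨h1, ?_⟩
    have h3 : (0 : ℝ) < p := by exact_mod_cast h1.pos
    rw [Real.rpow_def_of_pos hTpos, ← Real.exp_log h3]
    apply Real.exp_le_exp.mpr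
    have h4 := hl0 i hi'
    have h5 := hs.yl i hi'
    have h6 : 1 * y i ≤ (l i : ℝ) * y i :=
      mul_le_mul_of_nonneg_right (by linarith) (by linarith)
    have h7 := Finset.single_le_sum hterm hi
    linarith [hs.len]
  · unfold st se
    refine Finset.sum_biUnion ?_
    intro i hi j hj hij
    exact hs.dj i (Finset.mem_range.mp hi) j (Finset.mem_range.mp hj) hij

end Pool.Agent.Work.MP_56b8f5_nt.HZ
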