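import Pool.Agent.Work.MP_56b8f5_nt.HZ.StmtsC

/-!
MP_56b8f5_nt, block HZ, item Wt: a weight.
-/

set_option autoImplicit false

noncomputable section

namespace Pool.Agent.Work.MP_56b8f5_nt.HZ

open Pool.Agent.Work.MP_56b8f5_nt.EM Pool.Agent.Work.MP_56b8f5_nt.WM Pool.Agent.Work.MP_56b8f5_nt.SH

theorem Wt_pf : S_Wt := by
  refine ⟨fun u => Real.smoothTransition (48 * u - 1) * Real.smoothTransition (6 * (1 - u)),
    ⟨?_, ?_, ?_, 1 / 48, by norm_num, ?_⟩, ?_⟩
  · exact (Real.smoothTransition.contDiff.comp ((contDiff_const.mul contDiff_id).sub contDiff_const)).mul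
      (Real.smoothTransition.contDiff.comp (contDiff_const.mul (contDiff_const.sub contDiff_id)))
  · exact fun u => mul_nonneg (Real.smoothTransition.nonneg _) (Real.smoothTransition.nonneg _)
  · exact fun u => mul_le_one₀ (Real.smoothTransition.le_one _) (Real.smoothTransition.nonneg _)
      (Real.smoothTransition.le_one _)
  · intro u hu
    have h1 := left_ne_zero_of_mul hu
    have h2 := right_ne_zero_of_mul hu
    rw [Ne, Real.smoothTransition.zero_iff_nonpos, not_le] at h1 h2
    constructor <;> linarith
  · intro u h1 h2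
    show Real.smoothTransition (48 * u - 1) * Real.smoothTransition (6 * (1 - u)) = 1
    rw [Real.smoothTransition.one_of_one_le (by linarith),
      Real.smoothTransition.one_of_one_le (by linarith), mul_one]

end Pool.Agent.Work.MP_56b8f5_nt.HZ
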