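import Pool.Agent.Work.MP_56b8f5_nt.HZ.StmtsA

/-!
MP_56b8f5_nt, block HZ, item Zct: the number of zeros of zeta in a box (Jensen's inequality).
-/

set_option autoImplicit false

open MeasureTheory Set Filter Topology

noncomputable section

namespace Pool.Agent.Work.MP_56b8f5_nt.HZ

open Pool.Agent.Work.MP_56b8f5_nt.EM Pool.Agent.Work.MP_56b8f5_nt.WM Pool.Agent.Work.MP_56b8f5_nt.SH

namespace I_Zct

/-- `|ζ(2+it)| ≥ 1/3` -/
lemma zeta_two (s : ℂ) (hs : s.re = 2) : 1 / 3 ≤ ‖riemannZeta s‖ := by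
  have hs1 : 1 < s.re := by rw [hs]; norm_num
  have h1 := zeta_eq_tsum_one_div_nat_add_one_cpow hs1
  have hn : ∀ n : ℕ, ‖1 / ((n : ℂ) + 1) ^ s‖ = 1 / ((n : ℝ) + 1) ^ 2 := by
    intro n
    rw [norm_div, norm_one]
    have h2 : ((n : ℂ) + 1) = (((n : ℝ) + 1 : ℝ) : ℂ) := by push_cast; rfl
    rw [h2, Complex.norm_cpow_eq_rpow_re_of_pos (by positivity), hs]
    norm_num
  have hz := hasSum_zeta_two
  have hz1 : HasSum (fun n : ℕ => (1 : ℝ) / ((n : ℝ) + 1) ^ 2) (Real.pi ^ 2 / 6) := by
    have h3 := (hasSum_nat_add_iff' (f := fun n : ℕ => (1 : ℝ) / (n : ℝ) ^ 2) 1).2 hz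
    simpa using h3
  have hz2 : HasSum (fun n : ℕ => (1 : ℝ) / ((n : ℝ) + 1 + 1) ^ 2) (Real.pi ^ 2 / 6 - 1) := by
    have h3 := (hasSum_nat_add_iff' (f := fun n : ℕ => (1 : ℝ) / ((n : ℝ) + 1) ^ 2) 1).2 hz1
    simpa using h3
  have hsum : Summable (fun n : ℕ => 1 / ((n : ℂ) + 1) ^ s) := by
    refine Summable.of_norm ?_
    simp only [hn]
    exact hz1.summable
  have h4 : riemannZeta s = 1 + ∑' n : ℕ, 1 / ((n : ℂ) + 1 + 1) ^ s := by
    rw [h1, hsum.tsum_eq_zero_add]
    simp
  have h5 : ‖∑' n : ℕ, 1 / ((n : ℂ) + 1 + 1) ^ s‖ ≤ Real.pi ^ 2 / 6 - 1 := by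
    refine tsum_of_norm_bounded hz2 fun n => ?_
    have := hn (n + 1)
    push_cast at this
    exact this.le
  have h6 : Real.pi ^ 2 < 9.93 := by
    have := Real.pi_lt_d2
    have := Real.pi_pos
    nlinarith
  have h7 : (1 : ℝ) ≤ ‖riemannZeta s‖ + ‖∑' n : ℕ, 1 / ((n : ℂ) + 1 + 1) ^ s‖ := by
    have h8 : (1 : ℂ) = riemannZeta s - ∑' n : ℕ, 1 / ((n : ℂ) + 1 + 1) ^ s := by
      rw [h4]; ring
    calc (1 : ℝ) = ‖(1 : ℂ)‖ := norm_one.symm
      _ ≤ _ := by
        conv_lhs => rw [h8]
        exact norm_sub_le _ _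
  linarith

end I_Zct

open I_Zct

/-- **Zct.** -/
theorem Zct_pf (hZgr : S_Zgr) : S_Zct := by
  obtain ⟨C, hC, hg⟩ := hZgr
  have hlog : 0 < Real.log (1899 / 1870 : ℝ) := Real.log_pos (by norm_num)
  set K : ℝ := Real.log (3 * C) + 2 with hK
  have hK2 : 2 ≤ K := by
    have : 0 ≤ Real.log (3 * C) := Real.log_nonneg (by linarith)
    linarith
  refine ⟨max 1 (K / Real.log (1899 / 1870)), le_max_left _ _, ?_⟩
  intro t ht Z hZ
  set c : ℂ := 2 + t * Complex.I with hc
  have hcre : c.re = 2 := by simp [hc]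
  have hcim : c.im = t := by simp [hc]
  have hball : ∀ s ∈ Metric.closedBall c (1899 / 1000), 101 / 1000 ≤ s.re ∧ s.re ≤ 3899 / 1000 ∧
      |s.im - t| ≤ 1899 / 1000 := by
    intro s hs
    rw [Metric.mem_closedBall, Complex.dist_eq] at hs
    have h1 := (Complex.abs_re_le_norm (s - c)).trans hs
    have h2 := (Complex.abs_im_le_norm (s - c)).trans hs
    rw [Complex.sub_re, hcre] at h1
    rw [Complex.sub_im, hcim] at h2
    have h3 := abs_le.1 h1
    exact ⟨by linarith [h3.1], by linarith [h3.2], h2⟩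
  have him : ∀ s ∈ Metric.closedBall c (1899 / 1000), 1 ≤ |s.im| ∧ |s.im| ≤ |t| + 2 := by
    intro s hs
    have h1 := (hball s hs).2.2
    have h2 : |t| ≤ |s.im| + |s.im - t| := by
      have := abs_sub_abs_le_abs_sub t s.im
      rw [abs_sub_comm] at this
      linarith
    have h3 : |s.im| ≤ |t| + |s.im - t| := by
      have := abs_sub_abs_le_abs_sub s.im t
      linarith
    exact ⟨by linarith, by linarith⟩
  have hana : AnalyticOnNhd ℂ riemannZeta (Metric.closedBall c (1899 / 1000)) := by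
    have h1 : AnalyticOnNhd ℂ riemannZeta {(1 : ℂ)}ᶜ :=
      DifferentiableOn.analyticOnNhd (fun s hs =>
        (differentiableAt_riemannZeta hs).differentiableWithinAt) isOpen_compl_singleton
    refine h1.mono fun s hs => ?_
    intro h
    have h2 := (him s hs).1
    rw [Set.mem_singleton_iff.1 h] at h2
    norm_num at h2
  have hne : riemannZeta c ≠ 0 := by
    have := zeta_two c hcre
    intro h
    rw [h, norm_zero] at this
    norm_num at this
  have hMt : 1 ≤ C * (|t| + 2) := by nlinarith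
  have habs : |(1899 / 1000 : ℝ)| = 1899 / 1000 := abs_of_pos (by norm_num)
  have habr : |(1870 / 1000 : ℝ)| = 1870 / 1000 := abs_of_pos (by norm_num)
  have hJ := AnalyticOnNhd.sum_divisor_le (c := c) (r := 1870 / 1000) (R := 1899 / 1000)
    (M := C * (|t| + 2)) (f := riemannZeta) (by rw [habr]; norm_num)
    (by rw [habr, habs]; norm_num) hMt (by rw [habs]; exact hana) hne (by
      intro z hz
      rw [habs] at hz
      have hz' := Metric.sphere_subset_closedBall hz
      refine (hg z (by linarith [(hball z hz').1]) (by linarith [(hball z hz').2.1])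
        (him z hz').1).trans ?_
      have := (him z hz').2
      have hC0 : 0 ≤ C := by linarith
      gcongr)
  rw [habr] at hJ
  have hsub : Metric.closedBall c (1870 / 1000) ⊆ Metric.closedBall c (1899 / 1000) :=
    Metric.closedBall_subset_closedBall (by norm_num)
  have hana' := hana.mono hsub
  set D := MeromorphicOn.divisor riemannZeta (Metric.closedBall c (1870 / 1000)) with hD
  have hfin : (Function.support D).Finite := D.finiteSupport (isCompact_closedBall _ _)
  have hnn : ∀ u, 0 ≤ D u := fun u => MeromorphicOn.AnalyticOnNhd.divisor_nonneg hana' u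
  have hmem : ∀ ρ ∈ Z, ρ ∈ Metric.closedBall c (1870 / 1000) := by
    intro ρ hρ
    obtain ⟨h0, h1, h2⟩ := hZ ρ hρ
    have hre : ρ.re < 1 := by
      by_contra hcon
      exact riemannZeta_ne_zero_of_one_le_re (not_lt.1 hcon) h0
    rw [Metric.mem_closedBall, Complex.dist_eq]
    have h3 : ‖ρ - c‖ ^ 2 ≤ (1870 / 1000) ^ 2 := by
      rw [← Complex.normSq_eq_norm_sq, Complex.normSq_apply, Complex.sub_re, Complex.sub_im,
        hcre, hcim]
      have h4 := abs_le.1 h2
      nlinarith [h4.1, h4.2]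
    exact le_of_sq_le_sq h3 (by norm_num)
  have hord : ∀ ρ ∈ Z, mz ρ = ((D ρ : ℤ) : ℝ) := by
    intro ρ hρ
    rw [hD, MeromorphicOn.AnalyticOnNhd.divisor_apply hana' (hmem ρ hρ)]
    unfold mz analyticOrderNatAt
    cases h : analyticOrderAt riemannZeta ρ with
    | top => simp
    | coe n => simp
  have hsum : ∑ ρ ∈ Z, mz ρ ≤ ((∑ᶠ u, D u : ℤ) : ℝ) := by
    classical
    rw [finsum_eq_sum_of_support_subset (s := hfin.toFinset ∪ Z) D (by
      intro u hu
      simp only [Finset.coe_union, Set.Finite.coe_toFinset, Set.mem_union]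
      exact Or.inl hu)]
    rw [Int.cast_sum, Finset.sum_congr rfl hord]
    refine Finset.sum_le_sum_of_subset_of_nonneg Finset.subset_union_right fun u _ _ => ?_
    exact_mod_cast hnn u
  refine hsum.trans (hJ.trans ?_)
  have e1 : (1899 / 1000 : ℝ) / (1870 / 1000) = 1899 / 1870 := by norm_num
  rw [e1]
  have ht0 : 0 < |t| := by linarith
  have hlt : 1 ≤ Real.log |t| := by
    rw [Real.le_log_iff_exp_le ht0]
    have := Real.exp_one_lt_d9
    linarith
  have hnum : Real.log (C * (|t| + 2) / ‖riemannZeta c‖) ≤ K * Real.log |t| := by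
    have h1 := zeta_two c hcre
    have hC0 : 0 < C := by linarith
    have h2 : C * (|t| + 2) / ‖riemannZeta c‖ ≤ 3 * C * (|t| * |t|) := by
      rw [div_le_iff₀ (by linarith)]
      have h3 : |t| + 2 ≤ |t| * |t| := by nlinarith
      have h4 : C * (|t| + 2) ≤ C * (|t| * |t|) := by gcongr
      nlinarith [mul_nonneg hC0.le (mul_nonneg ht0.le ht0.le)]
    have h5 : 0 < C * (|t| + 2) / ‖riemannZeta c‖ := by
      have : 0 < ‖riemannZeta c‖ := by linarith
      positivity
    refine (Real.log_le_log h5 h2).trans ?_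
    have h7 : Real.log (3 * C * (|t| * |t|)) = Real.log (3 * C) + (Real.log |t| + Real.log |t|) := by
      rw [Real.log_mul (x := 3 * C) (y := |t| * |t|) (by positivity) (by positivity),
        Real.log_mul (x := |t|) (y := |t|) (by positivity) (by positivity)]
    have h6 : 0 ≤ Real.log (3 * C) := Real.log_nonneg (by linarith)
    rw [h7, hK]
    nlinarith
  have h9 : Real.log (C * (|t| + 2) / ‖riemannZeta c‖) / Real.log (1899 / 1870) ≤
      K / Real.log (1899 / 1870) * Real.log |t| := by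
    rw [div_mul_eq_mul_div]
    exact div_le_div_of_nonneg_right hnum hlog.le
  refine h9.trans ?_
  have := le_max_right 1 (K / Real.log (1899 / 1870))
  gcongr

end Pool.Agent.Work.MP_56b8f5_nt.HZ
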