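import Pool.Agent.Work.MP_56b8f5_nt.HZ.StmtsA

/-!
MP_56b8f5_nt, block HZ, part (a), item Zeu: `log |ζ(s)|` for `Re s ≥ 2`.
-/

set_option autoImplicit false

open MeasureTheory Set Filter Topology

noncomputable section

namespace Pool.Agent.Work.MP_56b8f5_nt.HZ

open Pool.Agent.Work.MP_56b8f5_nt.EM Pool.Agent.Work.MP_56b8f5_nt.WM Pool.Agent.Work.MP_56b8f5_nt.SH

namespace I_Zeu

lemma coef (n : ℕ) : 0 ≤ ArithmeticFunction.vonMangoldt n / Real.log n ∧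
    ArithmeticFunction.vonMangoldt n / Real.log n ≤ 1 := by
  have h0 : 0 ≤ Real.log (n : ℝ) := Real.log_natCast_nonneg n
  exact ⟨div_nonneg ArithmeticFunction.vonMangoldt_nonneg h0,
    div_le_one_of_le₀ ArithmeticFunction.vonMangoldt_le_log h0⟩

/-- The majorant. -/
def maj (n : ℕ) : ℝ := if n = 1 then 0 else 1 / (n : ℝ) ^ 2

lemma hasSum_maj : HasSum maj (Real.pi ^ 2 / 6 - 1) := by
  have h1 := hasSum_zeta_two
  have h2 : HasSum (fun n : ℕ => if n = 1 then (1 : ℝ) else 0) 1 := hasSum_ite_eq 1 1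
  have h3 := h1.sub h2
  refine h3.congr_fun ?_ |> fun h => h
  intro n
  unfold maj
  by_cases h : n = 1
  · subst h; simp
  · simp [h]

lemma term_le {s : ℂ} (hs : 2 ≤ s.re) (n : ℕ) :
    ‖((ArithmeticFunction.vonMangoldt n / Real.log n : ℝ) : ℂ) * (n : ℂ) ^ (-s)‖ ≤ maj n := by
  rcases Nat.eq_zero_or_pos n with h0 | h0
  · subst h0
    simp [maj]
  · unfold maj
    by_cases h1 : n = 1
    · subst h1
      simp
    · rw [if_neg h1, norm_mul, Complex.norm_real, Real.norm_eq_abs, abs_of_nonneg (coef n).1,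
        Complex.norm_natCast_cpow_of_pos h0, Complex.neg_re]
      have hn : (1 : ℝ) ≤ n := by exact_mod_cast h0
      have h2 : (n : ℝ) ^ (-s.re) ≤ (n : ℝ) ^ (-2 : ℝ) :=
        Real.rpow_le_rpow_of_exponent_le hn (by linarith)
      have h3 : (n : ℝ) ^ (-2 : ℝ) = 1 / (n : ℝ) ^ 2 := by
        rw [Real.rpow_neg (by linarith), Real.rpow_two, one_div]
      have h4 : 0 ≤ (n : ℝ) ^ (-s.re) := Real.rpow_nonneg (by linarith) _
      calc ArithmeticFunction.vonMangoldt n / Real.log n * (n : ℝ) ^ (-s.re)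
          ≤ 1 * (n : ℝ) ^ (-s.re) := mul_le_mul_of_nonneg_right (coef n).2 h4
        _ ≤ 1 / (n : ℝ) ^ 2 := by rw [one_mul, ← h3]; exact h2

lemma pi_bound : Real.pi ^ 2 / 6 - 1 ≤ 1 := by
  have h1 := Real.pi_lt_d2
  have h2 := Real.pi_pos
  nlinarith

end I_Zeu

theorem Zeu_pf : S_Zeu := by
  refine ⟨I_Zeu.coef, ?_⟩
  intro s hs
  have hsum : Summable (fun n : ℕ =>
      ‖((ArithmeticFunction.vonMangoldt n / Real.log n : ℝ) : ℂ) * (n : ℂ) ^ (-s)‖) :=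
    Summable.of_nonneg_of_le (fun n => norm_nonneg _) (I_Zeu.term_le hs) I_Zeu.hasSum_maj.summable
  have hL : LSeries (fun n : ℕ => ((ArithmeticFunction.vonMangoldt n : ℂ) / (Real.log n : ℂ))) s =
      ∑' n : ℕ, ((ArithmeticFunction.vonMangoldt n / Real.log n : ℝ) : ℂ) * (n : ℂ) ^ (-s) := by
    rw [LSeries_def₀ (by simp)]
    refine tsum_congr fun n => ?_
    rw [Complex.cpow_neg]
    push_cast
    rw [div_eq_mul_inv _ ((n : ℂ) ^ s)]
  have heq : Real.log ‖riemannZeta s‖ =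
      (∑' n : ℕ, ((ArithmeticFunction.vonMangoldt n / Real.log n : ℝ) : ℂ) * (n : ℂ) ^ (-s)).re := by
    rw [← hL]
    have h := riemannZeta_eq_exp_LSeries (s := s) (by linarith)
    rw [← h, Complex.norm_exp, Real.log_exp]
  refine ⟨hsum, heq, ?_⟩
  rw [heq]
  calc |(∑' n : ℕ, ((ArithmeticFunction.vonMangoldt n / Real.log n : ℝ) : ℂ) * (n : ℂ) ^ (-s)).re|
      ≤ ‖∑' n : ℕ, ((ArithmeticFunction.vonMangoldt n / Real.log n : ℝ) : ℂ) * (n : ℂ) ^ (-s)‖ :=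
        Complex.abs_re_le_norm _
    _ ≤ ∑' n : ℕ, ‖((ArithmeticFunction.vonMangoldt n / Real.log n : ℝ) : ℂ) * (n : ℂ) ^ (-s)‖ :=
        norm_tsum_le_tsum_norm hsum
    _ ≤ ∑' n : ℕ, I_Zeu.maj n := hsum.tsum_le_tsum (I_Zeu.term_le hs) I_Zeu.hasSum_maj.summable
    _ = Real.pi ^ 2 / 6 - 1 := I_Zeu.hasSum_maj.tsum_eq
    _ ≤ 1 := I_Zeu.pi_bound

end Pool.Agent.Work.MP_56b8f5_nt.HZ
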