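import Pool.Agent.Work.MP_56b8f5_nt.HZ.StmtsA
import Pool.Agent.Work.MP_37bd4f_nt.ZetaApprox

/-!
MP_56b8f5_nt, block HZ, item Zgr: growth of the zeta function for `Re s ≥ 1/10`.
-/

set_option autoImplicit false

noncomputable section

namespace Pool.Agent.Work.MP_56b8f5_nt.HZ

theorem Zgr_pf : S_Zgr := by
  refine ⟨55, by norm_num, fun s h1 h2 h3 => ?_⟩
  have hs : 0 < s.re := by linarith
  have hs1 : s ≠ 1 := by
    rintro rfl
    norm_num at h3
  have hz : riemannZeta₁ s = (s - 1) * riemannZeta s := by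
    rw [riemannZeta_eq_inv_sub_mul hs1]
    have : s - 1 ≠ 0 := sub_ne_zero.2 hs1
    field_simp
  have h0 := Pool.Agent.Work.MP_37bd4f_nt.zeta₁_norm_le hs
  rw [hz, norm_mul] at h0
  have hn1 : 1 ≤ ‖s - 1‖ := by
    have := Complex.abs_im_le_norm (s - 1)
    rw [Complex.sub_im, Complex.one_im, sub_zero] at this
    linarith
  have hn : ‖s‖ ≤ 5 * |s.im| := by
    have := Complex.norm_le_abs_re_add_abs_im s
    rw [abs_of_pos hs] at this
    linarith
  have hn0 : 0 < ‖s - 1‖ := by linarith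
  have h4 : ‖s‖ / s.re ≤ 50 * |s.im| := by
    rw [div_le_iff₀ hs]
    have : |s.im| * (1 / 10) ≤ |s.im| * s.re := mul_le_mul_of_nonneg_left h1 (abs_nonneg _)
    linarith
  have h5 : ‖s - 1‖ * ‖riemannZeta s‖ ≤ ‖s - 1‖ * (55 * |s.im|) := by
    have e : ‖s - 1‖ * ‖s‖ / s.re = ‖s - 1‖ * (‖s‖ / s.re) := by ring
    rw [e] at h0
    have h6 := mul_le_mul_of_nonneg_left h4 hn0.le
    have h7 : 5 * |s.im| ≤ ‖s - 1‖ * (5 * |s.im|) := by
      have : 0 ≤ 5 * |s.im| := by positivity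
      nlinarith
    nlinarith
  exact le_of_mul_le_mul_left h5 hn0

end Pool.Agent.Work.MP_56b8f5_nt.HZ
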