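import Pool.Agent.Work.MP_56b8f5_nt.HZ.StmtsC

/-!
MP_56b8f5_nt, block HZ, item Mes: the measure of `G(T;A,400)`.
-/

set_option autoImplicit false

open MeasureTheory Set Filter Topology

noncomputable section

namespace Pool.Agent.Work.MP_56b8f5_nt.HZ

open Pool.Agent.Work.MP_56b8f5_nt.EM Pool.Agent.Work.MP_56b8f5_nt.WM Pool.Agent.Work.MP_56b8f5_nt.SH
open Pool.Agent.Work.MP_56b8f5_nt.HZG

namespace I_Mes

theorem sys_zero {L : ℝ} (hL : 1 ≤ L) (S : ℕ → Finset ℕ) (l : ℕ → ℕ) (y : ℕ → ℝ) :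
    IsSys 1 0 1 L 0 S l y where
  pr := fun j hj => absurd hj (Nat.not_lt_zero j)
  dj := fun i hi => absurd hi (Nat.not_lt_zero i)
  yl := fun j hj => absurd hj (Nat.not_lt_zero j)
  ll := fun j hj => absurd hj (Nat.not_lt_zero j)
  sl := fun j hj => absurd hj (Nat.not_lt_zero j)
  len := by
    rw [Finset.range_zero, Finset.sum_empty]
    linarith
  sq := by
    rw [Finset.range_zero, Finset.sum_empty]
    exact zero_le_one
  dec := by
    rw [Finset.range_zero, Finset.sum_empty, mul_zero]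
    exact zero_le_one
  up := by
    unfold st
    rw [Finset.range_zero, Finset.sum_empty, Real.exp_zero]
    exact hL

end I_Mes

theorem Mes_pf (hC : S_Cmp) (hG : S_GGm) : S_Mes := by
  intro δ hδ
  obtain ⟨C, T₀, hC1, hT₀, h⟩ := hC 0 le_rfl
  have hC0 : 0 < C := by linarith
  refine ⟨max 1 (200 * Real.log (C / δ)), le_max_left _ _, T₀, hT₀, fun A hA T hT => ?_⟩
  have hA1 : 1 ≤ A := (le_max_left _ _).trans hA
  have hA2 : 200 * Real.log (C / δ) ≤ A := (le_max_right _ _).trans hA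
  have hT3 : 3 ≤ T := hT₀.trans hT
  have hL : 1 ≤ Real.log (2 * T) := by
    rw [Real.le_log_iff_exp_le (by linarith)]
    have := Real.exp_one_lt_d9
    linarith
  have h1 := h T hT 1 0 1 0 (fun _ => ∅) (fun _ => 0) (fun _ => 0) one_pos
    (by norm_num) (I_Mes.sys_zero hL _ _ _) 0 le_rfl le_rfl A hA1
  have hst : st 0 (fun _ => (∅ : Finset ℕ)) = 0 := by
    unfold st
    rw [Finset.range_zero, Finset.sum_empty]
  have hNb : ∀ t : ℝ, Nb 0 (fun _ => (∅ : Finset ℕ)) (fun _ => 0) 0 t ^ 2 = 1 := by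
    intro t
    unfold Nb NN
    rw [Finset.range_zero, Finset.prod_empty, norm_one, one_pow]
  simp only [hNb, hst, mul_zero, Real.exp_zero, mul_one] at h1
  rw [setIntegral_const, smul_eq_mul, mul_one] at h1
  have hsub : GG T A 400 ⊆ Icc T (2 * T) := fun t ht => ⟨ht.1, ht.2.1⟩
  have hfin : volume (Icc T (2 * T)) ≠ ⊤ := by
    rw [Real.volume_Icc]
    exact ENNReal.ofReal_ne_top
  rw [measureReal_sdiff hsub (hG T A 400 (by linarith)) hfin] at h1
  have hvol : volume.real (Icc T (2 * T)) = T := by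
    rw [Real.volume_real_Icc_of_le (by linarith)]
    ring
  rw [hvol] at h1
  have h2 : C * Real.exp (-(A / 200)) ≤ δ := by
    have h3 : Real.exp (-(A / 200)) ≤ δ / C := by
      have h4 : δ / C = Real.exp (-Real.log (C / δ)) := by
        rw [Real.exp_neg, Real.exp_log (by positivity), inv_div]
      rw [h4]
      exact Real.exp_le_exp.2 (by linarith)
    calc C * Real.exp (-(A / 200)) ≤ C * (δ / C) := mul_le_mul_of_nonneg_left h3 hC0.le
      _ = δ := by field_simp
  have h5 : C * Real.exp (-(A / 200)) * T ≤ δ * T := mul_le_mul_of_nonneg_right h2 (by linarith)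
  linarith

end Pool.Agent.Work.MP_56b8f5_nt.HZ
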