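import Pool.Agent.Work.MP_56b8f5_nt.SH.I_AtT

/-!
MP_56b8f5_nt, block HZ (Harper's bound without RH), part (d): lower bound for the moments over a set whose
complement has small tilted mass.

`S_LowE`: let `w` be a weight, `B ≥ 1`. There are `ε₀, ρ, η₀ > 0` such that for every `Λ ≥ 1` there are
`δ₀, c, T₀ > 0` with: for `T ≥ T₀`, every system of scales (`IsSys ε₀ (ρ/2) η (log T) M S l y`, `η ≤ η₀`,
`log T ≤ Λ e^{st}`), every `0 ≤ β ≤ B` and every measurable `E`: if the tilted mass of the complement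
`∫_{E^c} w(u) Nb β (Tu)² du` is at most `δ₀ (log T)^{β²}` then `∫_E w(u) |ζ(1/2+iTu)|^{2β} du ≥ c (log T)^{β²}`.

Proof. `φ = az(T·)`, `N = Nb β (T·)`, `N' = Nb (β-1) (T·)`, `Y = e^{β² st}`. By `S_Bad` with the trivial kernel
(`K = 1`): `∫ w N² ≤ C Y`, `∫ w φ² N'² ≤ C (1+Λ) Y`, the same over the bad sets with factors `τ_j`,
`c₀ Y ≤ ∫ w φ N' N`. Pointwise, with `A = 1/a`,
`φN'N ≤ ∑_j 1_{bad_j} (φ²N'² + N²)/2 + 1_{E^c} (t/2 φ²N'² + 1/(2t) N²) + a φ²N'² + a N² + D 1_E φ^{2β}`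
because on the good set `N = e^{β s + O(1)}`, `N' = e^{(β-1)s + O(1)}`.
-/

set_option autoImplicit false

open MeasureTheory Set Filter Topology

noncomputable section

namespace Pool.Agent.Work.MP_56b8f5_nt.HZ

open Pool.Agent.Work.MP_56b8f5_nt.EM Pool.Agent.Work.MP_56b8f5_nt.WM
open Pool.Agent.Work.MP_56b8f5_nt.SH

/-- **Part (d).** -/
def S_LowE : Prop := ∀ w : ℝ → ℝ, IsW w → 0 < W0 w → ∀ B : ℝ, 1 ≤ B → ∃ ε₀ ρ η₀ : ℝ,
  0 < ε₀ ∧ ε₀ ≤ 1 ∧ 0 < ρ ∧ ρ ≤ 1 / 2 ∧ 0 < η₀ ∧ ∀ Λ : ℝ, 1 ≤ Λ → ∃ δ₀ c T₀ : ℝ,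
  0 < δ₀ ∧ 0 < c ∧ 3 ≤ T₀ ∧ ∀ T : ℝ, T₀ ≤ T → ∀ η : ℝ, 0 < η → η ≤ η₀ →
  ∀ (M : ℕ) (S : ℕ → Finset ℕ) (l : ℕ → ℕ) (y : ℕ → ℝ), IsSys ε₀ (ρ / 2) η (Real.log T) M S l y →
    Real.log T ≤ Λ * Real.exp (st M S) →
  ∀ β : ℝ, 0 ≤ β → β ≤ B → ∀ E : Set ℝ, MeasurableSet E →
    ∫ u in Eᶜ, w u * Nb M S l β (T * u) ^ 2 ≤ δ₀ * Real.log T ^ (β ^ 2 : ℝ) →
    c * Real.log T ^ (β ^ 2 : ℝ) ≤ ∫ u in E, w u * az (T * u) ^ (2 * β : ℝ)

namespace LowE

/-- the pointwise inequality on the good set -/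
theorem point {B β s a φ N N' : ℝ} (hβ0 : 0 ≤ β) (hβB : β ≤ B) (ha0 : 0 < a) (ha1 : a ≤ 1)
    (hφ : 0 ≤ φ) (hN : 0 < N) (hN' : 0 < N') (h1 : |Real.log N - β * s| ≤ 1)
    (h2 : |Real.log N' - (β - 1) * s| ≤ 1) :
    φ * (N' * N) ≤ a * (φ ^ 2 * N' ^ 2) + a * N ^ 2 +
      a⁻¹ * Real.exp (2 + 2 * B * (2 - Real.log a)) * φ ^ (2 * β : ℝ) := by
  have hp0 : 0 ≤ φ ^ (2 * β : ℝ) := Real.rpow_nonneg hφ _
  have hD : 0 ≤ a⁻¹ * Real.exp (2 + 2 * B * (2 - Real.log a)) * φ ^ (2 * β : ℝ) := by positivity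
  by_cases hA : N < a * (φ * N')
  · -- φN' > A N
    have h3 : φ * (N' * N) ≤ a * (φ ^ 2 * N' ^ 2) := by
      have : φ * N' * N ≤ φ * N' * (a * (φ * N')) :=
        mul_le_mul_of_nonneg_left hA.le (mul_nonneg hφ hN'.le)
      nlinarith
    have h4 : 0 ≤ a * N ^ 2 := by positivity
    linarith
  · push Not at hA
    by_cases hB : φ * N' < a * N
    · have h3 : φ * (N' * N) ≤ a * N ^ 2 := by
        have : φ * N' * N ≤ a * N * N := mul_le_mul_of_nonneg_right hB.le hN.le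
        nlinarith
      have h4 : 0 ≤ a * (φ ^ 2 * N' ^ 2) := by positivity
      linarith
    · push Not at hB
      have hφN : 0 < φ * N' := lt_of_lt_of_le (mul_pos ha0 hN) hB
      have hφ0 : 0 < φ := by
        rcases hφ.lt_or_eq with h | h
        · exact h
        · rw [← h, zero_mul] at hφN
          exact absurd hφN (lt_irrefl _)
      -- log φ ≥ s + log a - 2
      have h5 : Real.log a + Real.log N ≤ Real.log φ + Real.log N' := by
        rw [← Real.log_mul ha0.ne' hN.ne', ← Real.log_mul hφ0.ne' hN'.ne']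
        exact Real.log_le_log (mul_pos ha0 hN) hB
      rw [abs_le] at h1 h2
      have h6 : s + Real.log a - 2 ≤ Real.log φ := by linarith
      have hla : Real.log a ≤ 0 := Real.log_nonpos ha0.le ha1
      have h7 : 2 * Real.log N ≤ 2 * β * Real.log φ + (2 + 2 * B * (2 - Real.log a)) := by
        have h8 : β * (s + Real.log a - 2) ≤ β * Real.log φ := mul_le_mul_of_nonneg_left h6 hβ0
        have h9 : β * (2 - Real.log a) ≤ B * (2 - Real.log a) :=
          mul_le_mul_of_nonneg_right hβB (by linarith)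
        nlinarith
      have h10 : N ^ 2 ≤ Real.exp (2 + 2 * B * (2 - Real.log a)) * φ ^ (2 * β : ℝ) := by
        rw [Real.rpow_def_of_pos hφ0, ← Real.exp_add]
        have h11 : N ^ 2 = Real.exp (2 * Real.log N) := by
          rw [two_mul, Real.exp_add, Real.exp_log hN]
          ring
        rw [h11]
        apply Real.exp_le_exp.2
        linarith
      have h12 : φ * (N' * N) ≤ a⁻¹ * N ^ 2 := by
        have h13 : φ * N' ≤ a⁻¹ * N := by
          rw [inv_mul_eq_div, le_div_iff₀ ha0]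
          linarith
        have := mul_le_mul_of_nonneg_right h13 hN.le
        nlinarith
      have h14 : a⁻¹ * N ^ 2 ≤ a⁻¹ * Real.exp (2 + 2 * B * (2 - Real.log a)) *
          φ ^ (2 * β : ℝ) := by
        rw [mul_assoc]
        exact mul_le_mul_of_nonneg_left h10 (inv_pos.2 ha0).le
      have h15 : 0 ≤ a * (φ ^ 2 * N' ^ 2) := by positivity
      have h16 : 0 ≤ a * N ^ 2 := by positivity
      linarith

theorem amgm {t x y : ℝ} (ht : 0 < t) : x * y ≤ t / 2 * x ^ 2 + 1 / (2 * t) * y ^ 2 := by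
  have h : 0 ≤ (t * x - y) ^ 2 / (2 * t) := by positivity
  have h2 : (t * x - y) ^ 2 / (2 * t) = t / 2 * x ^ 2 + 1 / (2 * t) * y ^ 2 - x * y := by
    field_simp
    ring
  linarith

theorem Ph_one (M : ℕ) (S : ℕ → Finset ℕ) (l : ℕ → ℕ) (V t : ℝ) : Ph M S l 1 V t = 1 := by
  unfold Ph
  rw [Finset.sum_range_one]
  have h0 : xi 1 0 = 0 := by
    unfold xi
    simp
  have hTE : ∀ j : ℕ, TE j 0 = 1 := by
    intro j
    unfold TE
    rw [Finset.sum_eq_single 0]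
    · simp
    · intro m _ hm
      rw [zero_pow hm, zero_div]
    · intro h
      exact absurd (Finset.mem_range.2 (Nat.succ_pos j)) h
  rw [h0]
  simp [hTE]

theorem Th_one (s : ℝ) : Th 1 s = 1 := by
  unfold Th
  rw [Finset.sum_range_one, Finset.sum_range_one]
  simp

/-- continuous functions times the weight are integrable -/
theorem int_c {w : ℝ → ℝ} (hw : IsW w) {f : ℝ → ℝ} (hf : Continuous f) :
    Integrable fun u => w u * f u := by
  obtain ⟨c, _, h2⟩ := hw.supp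
  refine (hw.smooth.continuous.mul hf).integrable_of_hasCompactSupport ?_
  refine HasCompactSupport.of_support_subset_isCompact (isCompact_Icc (a := c) (b := 1)) ?_
  intro u hu
  refine h2 u (fun h => hu ?_)
  change w u * f u = 0
  rw [h, zero_mul]

/-- the integrated inequality, abstract form -/
theorem abs_ineq {w φ N N' : ℝ → ℝ} (hw : IsW w) (hφc : Continuous φ) (hNc : Continuous N)
    (hNc' : Continuous N') (hφ : ∀ u, 0 ≤ φ u) (_hN : ∀ u, 0 ≤ N u) (_hN' : ∀ u, 0 ≤ N' u)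
    {M : ℕ} {bad : ℕ → Set ℝ} (hbm : ∀ j < M, MeasurableSet (bad j)) {E : Set ℝ}
    (hE : MeasurableSet E) {a t D b2 : ℝ} (ht : 0 < t) (ha : 0 ≤ a) (hD : 0 ≤ D) (hb2 : 0 ≤ b2)
    (hpt : ∀ u, (∀ j < M, u ∉ bad j) → φ u * (N' u * N u) ≤ a * (φ u ^ 2 * N' u ^ 2) +
      a * N u ^ 2 + D * φ u ^ b2) :
    ∫ u, w u * (φ u * (N' u * N u)) ≤
      ∑ j ∈ Finset.range M, ((∫ u in bad j, w u * (φ u ^ 2 * N' u ^ 2)) +
        ∫ u in bad j, w u * N u ^ 2) +
      (t / 2 * (∫ u, w u * (φ u ^ 2 * N' u ^ 2)) + 1 / (2 * t) * ∫ u in Eᶜ, w u * N u ^ 2) +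
      (a * (∫ u, w u * (φ u ^ 2 * N' u ^ 2)) + a * ∫ u, w u * N u ^ 2) +
      D * ∫ u in E, w u * φ u ^ b2 := by
  have i1 : Integrable fun u => w u * (φ u ^ 2 * N' u ^ 2) :=
    int_c hw ((hφc.pow 2).mul (hNc'.pow 2))
  have i2 : Integrable fun u => w u * N u ^ 2 := int_c hw (hNc.pow 2)
  have i3 : Integrable fun u => w u * φ u ^ b2 :=
    int_c hw (hφc.rpow_const fun u => Or.inr hb2)
  have i0 : Integrable fun u => w u * (φ u * (N' u * N u)) :=
    int_c hw (hφc.mul (hNc'.mul hNc))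
  set G1 : ℝ → ℝ := fun u => ∑ j ∈ Finset.range M,
    ((bad j).indicator (fun u => w u * (φ u ^ 2 * N' u ^ 2)) u +
      (bad j).indicator (fun u => w u * N u ^ 2) u) with hG1
  set G2 : ℝ → ℝ := fun u => t / 2 * (w u * (φ u ^ 2 * N' u ^ 2)) +
    1 / (2 * t) * (Eᶜ).indicator (fun u => w u * N u ^ 2) u with hG2
  set G3 : ℝ → ℝ := fun u => a * (w u * (φ u ^ 2 * N' u ^ 2)) + a * (w u * N u ^ 2) with hG3
  set G4 : ℝ → ℝ := fun u => D * E.indicator (fun u => w u * φ u ^ b2) u with hG4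
  have ib1 : ∀ j ∈ Finset.range M,
      Integrable ((bad j).indicator (fun u => w u * (φ u ^ 2 * N' u ^ 2))) := fun j hj =>
    i1.indicator (hbm j (Finset.mem_range.1 hj))
  have ib2 : ∀ j ∈ Finset.range M,
      Integrable ((bad j).indicator (fun u => w u * N u ^ 2)) := fun j hj =>
    i2.indicator (hbm j (Finset.mem_range.1 hj))
  have ie2 : Integrable ((Eᶜ).indicator (fun u => w u * N u ^ 2)) := i2.indicator hE.compl
  have ie3 : Integrable (E.indicator (fun u => w u * φ u ^ b2)) := i3.indicator hE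
  have j1 : Integrable G1 := integrable_finset_sum _ (fun j hj => (ib1 j hj).add (ib2 j hj))
  have j2 : Integrable G2 := (i1.const_mul _).add (ie2.const_mul _)
  have j3 : Integrable G3 := (i1.const_mul _).add (i2.const_mul _)
  have j4 : Integrable G4 := ie3.const_mul _
  have hp1 : ∀ u, 0 ≤ w u * (φ u ^ 2 * N' u ^ 2) := fun u =>
    mul_nonneg (hw.nonneg u) (by positivity)
  have hp2 : ∀ u, 0 ≤ w u * N u ^ 2 := fun u => mul_nonneg (hw.nonneg u) (by positivity)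
  have hp3 : ∀ u, 0 ≤ w u * φ u ^ b2 := fun u =>
    mul_nonneg (hw.nonneg u) (Real.rpow_nonneg (hφ u) _)
  have hG1p : ∀ u, 0 ≤ G1 u := fun u => Finset.sum_nonneg (fun j _ => add_nonneg
    (Set.indicator_nonneg (fun u _ => hp1 u) u) (Set.indicator_nonneg (fun u _ => hp2 u) u))
  have hG2p : ∀ u, 0 ≤ G2 u := fun u => add_nonneg (mul_nonneg (by positivity) (hp1 u))
    (mul_nonneg (by positivity) (Set.indicator_nonneg (fun u _ => hp2 u) u))
  have hG3p : ∀ u, 0 ≤ G3 u := fun u => add_nonneg (mul_nonneg ha (hp1 u))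
    (mul_nonneg ha (hp2 u))
  have hG4p : ∀ u, 0 ≤ G4 u := fun u =>
    mul_nonneg hD (Set.indicator_nonneg (fun u _ => hp3 u) u)
  have key : ∀ u, w u * (φ u * (N' u * N u)) ≤ G1 u + G2 u + G3 u + G4 u := by
    intro u
    by_cases hb : ∀ j < M, u ∉ bad j
    · by_cases hu : u ∈ E
      · have h3 : w u * (φ u * (N' u * N u)) ≤ G3 u + G4 u := by
          have h4 := mul_le_mul_of_nonneg_left (hpt u hb) (hw.nonneg u)
          refine h4.trans (le_of_eq ?_)
          simp only [hG3, hG4, Set.indicator_of_mem hu]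
          ring
        linarith [hG1p u, hG2p u]
      · have h3 : w u * (φ u * (N' u * N u)) ≤ G2 u := by
          have h4 := mul_le_mul_of_nonneg_left (amgm (x := φ u * N' u) (y := N u) ht) (hw.nonneg u)
          have hu' : u ∈ Eᶜ := hu
          calc w u * (φ u * (N' u * N u)) = w u * (φ u * N' u * N u) := by ring
            _ ≤ _ := h4
            _ = G2 u := by
              simp only [hG2, Set.indicator_of_mem hu']
              ring
        linarith [hG1p u, hG3p u, hG4p u]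
    · push Not at hb
      obtain ⟨j, hj, hju⟩ := hb
      have h3 : w u * (φ u * (N' u * N u)) ≤ G1 u := by
        have h5 : (bad j).indicator (fun u => w u * (φ u ^ 2 * N' u ^ 2)) u +
            (bad j).indicator (fun u => w u * N u ^ 2) u ≤ G1 u :=
          Finset.single_le_sum (f := fun j =>
            (bad j).indicator (fun u => w u * (φ u ^ 2 * N' u ^ 2)) u +
            (bad j).indicator (fun u => w u * N u ^ 2) u)
            (fun i _ => add_nonneg (Set.indicator_nonneg (fun u _ => hp1 u) u)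
              (Set.indicator_nonneg (fun u _ => hp2 u) u)) (Finset.mem_range.2 hj)
        rw [Set.indicator_of_mem hju, Set.indicator_of_mem hju] at h5
        refine le_trans ?_ h5
        have h6 : φ u * (N' u * N u) ≤ φ u ^ 2 * N' u ^ 2 + N u ^ 2 := by
          nlinarith [sq_nonneg (φ u * N' u - N u), sq_nonneg (φ u * N' u), sq_nonneg (N u)]
        have h7 := mul_le_mul_of_nonneg_left h6 (hw.nonneg u)
        linarith
      linarith [hG2p u, hG3p u, hG4p u]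
  have hI := integral_mono i0 (((j1.add j2).add j3).add j4) (fun u => key u)
  refine hI.trans (le_of_eq ?_)
  have e1 : ∫ u, G1 u = ∑ j ∈ Finset.range M, ((∫ u in bad j, w u * (φ u ^ 2 * N' u ^ 2)) +
      ∫ u in bad j, w u * N u ^ 2) := by
    have e1a := integral_finset_sum (μ := volume) (Finset.range M) (f := fun j u =>
      (bad j).indicator (fun u => w u * (φ u ^ 2 * N' u ^ 2)) u +
      (bad j).indicator (fun u => w u * N u ^ 2) u) (fun j hj => (ib1 j hj).add (ib2 j hj))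
    refine e1a.trans ?_
    refine Finset.sum_congr rfl (fun j hj => ?_)
    rw [integral_add (ib1 j hj) (ib2 j hj), integral_indicator (hbm j (Finset.mem_range.1 hj)),
      integral_indicator (hbm j (Finset.mem_range.1 hj))]
  have e2 : ∫ u, G2 u = t / 2 * (∫ u, w u * (φ u ^ 2 * N' u ^ 2)) +
      1 / (2 * t) * ∫ u in Eᶜ, w u * N u ^ 2 := by
    rw [hG2, integral_add (i1.const_mul _) (ie2.const_mul _), integral_const_mul,
      integral_const_mul, integral_indicator hE.compl]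
  have e3 : ∫ u, G3 u = a * (∫ u, w u * (φ u ^ 2 * N' u ^ 2)) + a * ∫ u, w u * N u ^ 2 := by
    rw [hG3, integral_add (i1.const_mul _) (i2.const_mul _), integral_const_mul,
      integral_const_mul]
  have e4 : ∫ u, G4 u = D * ∫ u in E, w u * φ u ^ b2 := by
    rw [hG4, integral_const_mul, integral_indicator hE]
  have e0 : ∫ u, (G1 + G2 + G3 + G4) u = (∫ u, G1 u) + (∫ u, G2 u) + (∫ u, G3 u) + ∫ u, G4 u := by
    rw [integral_add' ((j1.add j2).add j3) j4, integral_add' (j1.add j2) j3, integral_add' j1 j2]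
  rw [← e1, ← e2, ← e3, ← e4]
  exact e0

end LowE

open LowE SH.I_AtT in
/-- **Part (d).** -/
theorem LowE_pf (h1 : S_Cha) (hB : S_Bad) (hP : S_Pw) : S_LowE := by
  intro w hw hw0 B hB1
  have hPc : ∀ S : Finset ℕ, Continuous fun t : ℝ => PS S t := h1.2.2.2.2.2.2.2.2.1
  obtain ⟨ρ, hρ⟩ : ∃ ρ : ℝ, ρ = 1 / (9 * (B + 1)) := ⟨_, rfl⟩
  have hρ0 : 0 < ρ := by
    rw [hρ]
    positivity
  have hρ1 : ρ ≤ 1 / 2 := by
    rw [hρ]
    apply one_div_le_one_div_of_le (by norm_num)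
    linarith
  obtain ⟨ε₀, η₁, C₂, T₁, hε0, hε1, hη1, hC2, hT1, hBad⟩ :=
    hB w hw hw0 B ρ hB1 hρ0 (by linarith)
  have hC2p : 0 < C₂ := by linarith
  obtain ⟨η₀, hη0, hηη, hη100, hηW⟩ : ∃ η : ℝ, 0 < η ∧ η ≤ η₁ ∧ η ≤ 1 / 100 ∧
      C₂ * η ≤ W0 w / 32 := by
    refine ⟨min η₁ (min (1 / 100) (W0 w / (32 * C₂))), ?_, min_le_left _ _,
      (min_le_right _ _).trans (min_le_left _ _), ?_⟩
    · exact lt_min hη1 (lt_min (by norm_num) (by positivity))
    · calc C₂ * min η₁ (min (1 / 100) (W0 w / (32 * C₂))) ≤ C₂ * (W0 w / (32 * C₂)) :=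
            mul_le_mul_of_nonneg_left ((min_le_right _ _).trans (min_le_right _ _)) hC2p.le
        _ = W0 w / 32 := by
            field_simp
  refine ⟨ε₀, ρ, η₀, hε0, hε1, hρ0, hρ1, hη0, fun Λ hΛ => ?_⟩
  obtain ⟨c₀, hc₀⟩ : ∃ c₀ : ℝ, c₀ = W0 w / 2 := ⟨_, rfl⟩
  have hc₀p : 0 < c₀ := by
    rw [hc₀]
    exact half_pos hw0
  obtain ⟨C₀, hC₀⟩ : ∃ C₀ : ℝ, C₀ = C₂ * (1 + Λ) := ⟨_, rfl⟩
  have hC₀2 : C₂ ≤ C₀ := by
    rw [hC₀]
    nlinarith
  have hC₀p : 0 < C₀ := lt_of_lt_of_le hC2p hC₀2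
  obtain ⟨a, ha⟩ : ∃ a : ℝ, a = min 1 (c₀ / (8 * C₀)) := ⟨_, rfl⟩
  have ha0 : 0 < a := by
    rw [ha]
    exact lt_min one_pos (by positivity)
  have ha1 : a ≤ 1 := by
    rw [ha]
    exact min_le_left _ _
  have haC : a * C₀ ≤ c₀ / 8 := by
    calc a * C₀ ≤ c₀ / (8 * C₀) * C₀ := by
          refine mul_le_mul_of_nonneg_right ?_ hC₀p.le
          rw [ha]
          exact min_le_right _ _
      _ = c₀ / 8 := by
          field_simp
  obtain ⟨D, hD⟩ : ∃ D : ℝ, D = a⁻¹ * Real.exp (2 + 2 * B * (2 - Real.log a)) := ⟨_, rfl⟩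
  have hDp : 0 < D := by
    rw [hD]
    exact mul_pos (inv_pos.2 ha0) (Real.exp_pos _)
  obtain ⟨t, ht⟩ : ∃ t : ℝ, t = c₀ / (8 * C₀) := ⟨_, rfl⟩
  have htp : 0 < t := by
    rw [ht]
    positivity
  obtain ⟨ΛB, hΛB⟩ : ∃ ΛB : ℝ, ΛB = Λ ^ (B ^ 2 : ℝ) := ⟨_, rfl⟩
  have hΛp : 0 < Λ := by linarith
  have hΛBp : 0 < ΛB := by
    rw [hΛB]
    exact Real.rpow_pos_of_pos hΛp _
  refine ⟨c₀ ^ 2 / (64 * C₀) / ΛB, c₀ / (2 * D) / ΛB, T₁, by positivity, by positivity, hT1, ?_⟩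
  intro T hTT η hη hηle M S l y hsys hΛs β hβ0 hβB E hE hcomp
  have hTp : 0 < T := by linarith
  have hLp : 0 ≤ Real.log T := Real.log_nonneg (by linarith)
  have hβabs : |β| ≤ B := by
    rw [abs_of_nonneg hβ0]
    exact hβB
  obtain ⟨hb1, hb2, hb3, hb4, hb5⟩ := hBad T hTT M S l y η hη (hηle.trans hηη) hsys 1 β
    (β * st M S) le_rfl hβabs
  have hb5 := hb5 rfl
  simp only [Ph_one, Th_one, norm_one, one_pow, mul_one] at hb1 hb2 hb3 hb4 hb5
  obtain ⟨Y, hY⟩ : ∃ Y : ℝ, Y = Real.exp (β ^ 2 * st M S) := ⟨_, rfl⟩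
  have hYp : 0 < Y := by
    rw [hY]
    exact Real.exp_pos _
  rw [← hY] at hb1 hb2 hb3 hb4 hb5
  -- `1 + L e^{-s} ≤ 1 + Λ`
  have hLe : Real.log T * Real.exp (-(st M S)) ≤ Λ := by
    calc Real.log T * Real.exp (-(st M S)) ≤ Λ * Real.exp (st M S) * Real.exp (-(st M S)) :=
          mul_le_mul_of_nonneg_right hΛs (Real.exp_pos _).le
      _ = Λ := by
          rw [mul_assoc, ← Real.exp_add]
          simp
  have hLe0 : 0 ≤ Real.log T * Real.exp (-(st M S)) := mul_nonneg hLp (Real.exp_pos _).le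
  -- `(log T)^{β²} ≤ ΛB Y`
  have hXY : Real.log T ^ (β ^ 2 : ℝ) ≤ ΛB * Y := by
    calc Real.log T ^ (β ^ 2 : ℝ) ≤ (Λ * Real.exp (st M S)) ^ (β ^ 2 : ℝ) :=
          Real.rpow_le_rpow hLp hΛs (sq_nonneg _)
      _ = Λ ^ (β ^ 2 : ℝ) * Real.exp (st M S) ^ (β ^ 2 : ℝ) :=
          Real.mul_rpow hΛp.le (Real.exp_pos _).le
      _ = Λ ^ (β ^ 2 : ℝ) * Y := by
          rw [hY, ← Real.exp_mul]
          congr 2
          ring
      _ ≤ ΛB * Y := by
          refine mul_le_mul_of_nonneg_right ?_ hYp.le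
          rw [hΛB]
          exact Real.rpow_le_rpow_of_exponent_le hΛ (by nlinarith)
  -- the functions
  have hcT : Continuous fun u : ℝ => T * u := continuous_const.mul continuous_id
  have hφc : Continuous fun u : ℝ => az (T * u) := cont_az.comp hcT
  have hNc : Continuous fun u : ℝ => Nb M S l β (T * u) := (cont_Nb hPc M S l β).comp hcT
  have hNc' : Continuous fun u : ℝ => Nb M S l (β - 1) (T * u) :=
    (cont_Nb hPc M S l (β - 1)).comp hcT
  have hbm : ∀ j < M, MeasurableSet {u : ℝ | ρ * l j < ‖PS (S j) (T * u)‖} := fun j _ =>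
    measurableSet_lt measurable_const (((hPc (S j)).comp hcT).norm.measurable)
  have hpt : ∀ u : ℝ, (∀ j < M, u ∉ {u : ℝ | ρ * l j < ‖PS (S j) (T * u)‖}) →
      az (T * u) * (Nb M S l (β - 1) (T * u) * Nb M S l β (T * u)) ≤
        a * (az (T * u) ^ 2 * Nb M S l (β - 1) (T * u) ^ 2) + a * Nb M S l β (T * u) ^ 2 +
        D * az (T * u) ^ (2 * β : ℝ) := by
    intro u hu
    have hG : T * u ∈ Gd M S l (1 / (9 * (B + 1))) := by
      intro j hj
      have := hu j hj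
      simp only [Set.mem_setOf_eq, not_lt] at this
      rw [← hρ]
      exact this
    obtain ⟨-, hNN, -⟩ := hP B ε₀ (ρ / 2) η (Real.log T) M S l y hB1 (by positivity)
      (by linarith) (hηle.trans hη100) hsys (T * u) hG
    have hab : |β / 2| ≤ B + 1 := by
      rw [abs_of_nonneg (by linarith)]
      linarith
    have hab' : |(β - 1) / 2| ≤ B + 1 := by
      rw [abs_le]
      constructor <;> linarith
    obtain ⟨hN0, hN1⟩ := hNN (β / 2) (β / 2) hab hab
    obtain ⟨hN0', hN1'⟩ := hNN ((β - 1) / 2) ((β - 1) / 2) hab' hab'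
    rw [hD]
    refine point hβ0 hβB ha0 ha1 (norm_nonneg _) hN0 hN0' (s := Sr M S (T * u)) ?_ ?_
    · have e : β * Sr M S (T * u) = (β / 2 + β / 2) * Sr M S (T * u) := by ring
      rw [e]
      exact hN1
    · have e : (β - 1) * Sr M S (T * u) = ((β - 1) / 2 + (β - 1) / 2) * Sr M S (T * u) := by
        ring
      rw [e]
      exact hN1'
  have hmain := abs_ineq hw hφc hNc hNc' (fun u => norm_nonneg _) (fun u => norm_nonneg _)
    (fun u => norm_nonneg _) hbm hE htp ha0.le hDp.le (by positivity : (0 : ℝ) ≤ 2 * β) hpt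
  obtain ⟨I, hI⟩ : ∃ I : ℝ, I = ∫ u in E, w u * az (T * u) ^ (2 * β : ℝ) := ⟨_, rfl⟩
  rw [← hI] at hmain ⊢
  -- the bad sets
  have hbadsum : ∑ j ∈ Finset.range M,
      ((∫ u in {u : ℝ | ρ * l j < ‖PS (S j) (T * u)‖},
          w u * (az (T * u) ^ 2 * Nb M S l (β - 1) (T * u) ^ 2)) +
        ∫ u in {u : ℝ | ρ * l j < ‖PS (S j) (T * u)‖}, w u * Nb M S l β (T * u) ^ 2) ≤
      c₀ / 8 * Y := by
    have hterm : ∀ j ∈ Finset.range M,
        ((∫ u in {u : ℝ | ρ * l j < ‖PS (S j) (T * u)‖},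
          w u * (az (T * u) ^ 2 * Nb M S l (β - 1) (T * u) ^ 2)) +
        ∫ u in {u : ℝ | ρ * l j < ‖PS (S j) (T * u)‖}, w u * Nb M S l β (T * u) ^ 2) ≤
        2 * C₂ * Y * ((1 + Real.log T * Real.exp (-(st M S))) *
          Real.exp (-(ρ / 2 * l j))) := by
      intro j hj
      have h3 := hb3 j (Finset.mem_range.1 hj)
      have h4 := hb4 j (Finset.mem_range.1 hj)
      have h5 : C₂ * Real.exp (-(ρ / 2 * l j)) * Y ≤
          C₂ * (1 + Real.log T * Real.exp (-(st M S))) * Real.exp (-(ρ / 2 * l j)) * Y := by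
        refine mul_le_mul_of_nonneg_right ?_ hYp.le
        refine mul_le_mul_of_nonneg_right ?_ (Real.exp_pos _).le
        nlinarith
      refine (add_le_add h4 (h3.trans h5)).trans (le_of_eq ?_)
      ring
    refine (Finset.sum_le_sum hterm).trans ?_
    rw [← Finset.mul_sum, ← Finset.mul_sum]
    have hdec := hsys.dec
    calc 2 * C₂ * Y * ((1 + Real.log T * Real.exp (-(st M S))) *
          ∑ j ∈ Finset.range M, Real.exp (-(ρ / 2 * l j))) ≤ 2 * C₂ * Y * η :=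
          mul_le_mul_of_nonneg_left hdec (by positivity)
      _ ≤ 2 * C₂ * Y * η₀ := mul_le_mul_of_nonneg_left hηle (by positivity)
      _ = 2 * (C₂ * η₀) * Y := by ring
      _ ≤ 2 * (W0 w / 32) * Y := by
          refine mul_le_mul_of_nonneg_right ?_ hYp.le
          linarith
      _ = c₀ / 8 * Y := by
          rw [hc₀]
          ring
  have hA : ∫ u, w u * (az (T * u) ^ 2 * Nb M S l (β - 1) (T * u) ^ 2) ≤ C₀ * Y := by
    refine hb2.trans (mul_le_mul_of_nonneg_right ?_ hYp.le)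
    rw [hC₀]
    exact mul_le_mul_of_nonneg_left (by linarith) hC2p.le
  have hA2 : ∫ u, w u * Nb M S l β (T * u) ^ 2 ≤ C₀ * Y :=
    hb1.trans (mul_le_mul_of_nonneg_right hC₀2 hYp.le)
  have hcomp' : ∫ u in Eᶜ, w u * Nb M S l β (T * u) ^ 2 ≤ c₀ ^ 2 / (64 * C₀) * Y := by
    refine hcomp.trans ?_
    calc c₀ ^ 2 / (64 * C₀) / ΛB * Real.log T ^ (β ^ 2 : ℝ) ≤
          c₀ ^ 2 / (64 * C₀) / ΛB * (ΛB * Y) :=
          mul_le_mul_of_nonneg_left hXY (by positivity)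
      _ = c₀ ^ 2 / (64 * C₀) * Y := by
          field_simp
  have hT1' : t / 2 * (∫ u, w u * (az (T * u) ^ 2 * Nb M S l (β - 1) (T * u) ^ 2)) ≤
      c₀ / 16 * Y := by
    calc _ ≤ t / 2 * (C₀ * Y) := mul_le_mul_of_nonneg_left hA (by positivity)
      _ = c₀ / 16 * Y := by
          rw [ht]
          field_simp
          ring
  have hT2' : 1 / (2 * t) * (∫ u in Eᶜ, w u * Nb M S l β (T * u) ^ 2) ≤ c₀ / 16 * Y := by
    calc _ ≤ 1 / (2 * t) * (c₀ ^ 2 / (64 * C₀) * Y) :=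
          mul_le_mul_of_nonneg_left hcomp' (by positivity)
      _ = c₀ / 16 * Y := by
          rw [ht]
          field_simp
          ring
  have hT3' : a * (∫ u, w u * (az (T * u) ^ 2 * Nb M S l (β - 1) (T * u) ^ 2)) ≤ c₀ / 8 * Y := by
    calc _ ≤ a * (C₀ * Y) := mul_le_mul_of_nonneg_left hA ha0.le
      _ = a * C₀ * Y := by ring
      _ ≤ c₀ / 8 * Y := mul_le_mul_of_nonneg_right haC hYp.le
  have hT4' : a * (∫ u, w u * Nb M S l β (T * u) ^ 2) ≤ c₀ / 8 * Y := by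
    calc _ ≤ a * (C₀ * Y) := mul_le_mul_of_nonneg_left hA2 ha0.le
      _ = a * C₀ * Y := by ring
      _ ≤ c₀ / 8 * Y := mul_le_mul_of_nonneg_right haC hYp.le
  rw [← hc₀] at hb5
  have hfin : c₀ / 2 * Y ≤ D * I := by linarith
  have h6 : c₀ / (2 * D) / ΛB * Real.log T ^ (β ^ 2 : ℝ) ≤ c₀ / (2 * D) * Y := by
    calc _ ≤ c₀ / (2 * D) / ΛB * (ΛB * Y) := mul_le_mul_of_nonneg_left hXY (by positivity)
      _ = c₀ / (2 * D) * Y := by
          field_simp
  refine h6.trans ?_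
  have h7 : c₀ / (2 * D) * Y = c₀ / 2 * Y / D := by
    field_simp
  rw [h7, div_le_iff₀ hDp]
  linarith

end Pool.Agent.Work.MP_56b8f5_nt.HZ
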