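import Pool.Agent.Work.MP_56b8f5_nt.HZ.StmtsM
import Pool.Agent.Work.MP_56b8f5_nt.HZ.LowE
import Pool.Agent.Work.MP_56b8f5_nt.HZ.I_Mes

/-!
MP_56b8f5_nt, block HZ: the final theorem from the four parts.
-/

set_option autoImplicit false

open MeasureTheory Set Filter Topology

noncomputable section

namespace Pool.Agent.Work.MP_56b8f5_nt.HZ

open Pool.Agent.Work.MP_56b8f5_nt.EM Pool.Agent.Work.MP_56b8f5_nt.WM Pool.Agent.Work.MP_56b8f5_nt.SH

namespace Main

/-- A weight with support in `[1/2, 1]`. -/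
theorem exW : ∃ w : ℝ → ℝ, IsW w ∧ 0 < W0 w ∧ ∀ u, w u ≠ 0 → 1 / 2 ≤ u ∧ u ≤ 1 := by
  let f : ContDiffBump (3 / 4 : ℝ) := ⟨1 / 8, 1 / 4, by norm_num, by norm_num⟩
  have hsup : ∀ u, f u ≠ 0 → 1 / 2 ≤ u ∧ u ≤ 1 := by
    intro u hu
    have h : u ∈ Function.support (f : ℝ → ℝ) := hu
    rw [f.support_eq, Metric.mem_ball, Real.dist_eq, abs_lt] at h
    have h4 : f.rOut = 1 / 4 := rfl
    rw [h4] at h
    constructor <;> linarith [h.1, h.2]
  refine ⟨f, ⟨f.contDiff, fun u => f.nonneg, fun u => f.le_one, 1 / 2, by norm_num, hsup⟩, ?_, hsup⟩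
  exact f.integral_pos

theorem mono {ε ε' c η L : ℝ} {M : ℕ} {S : ℕ → Finset ℕ} {l : ℕ → ℕ} {y : ℕ → ℝ} (h : ε ≤ ε')
    (hs : IsSys ε c η L M S l y) : IsSys ε' c η L M S l y where
  pr := hs.pr
  dj := hs.dj
  yl := hs.yl
  ll := fun j hj => (hs.ll j hj).trans (mul_le_mul_of_nonneg_right h (Nat.cast_nonneg _))
  sl := fun j hj => (hs.sl j hj).trans (mul_le_mul_of_nonneg_right h (Nat.cast_nonneg _))
  len := hs.len
  sq := hs.sq
  dec := hs.dec
  up := hs.up

theorem GG_sub (T A C : ℝ) : GG T A C ⊆ Icc T (2 * T) := fun _ ht => ⟨ht.1, ht.2.1⟩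

theorem az_cont : Continuous az := by
  rw [continuous_iff_continuousAt]
  intro t
  unfold az
  have h1 : (1 / 2 + (t : ℂ) * Complex.I) ≠ 1 := by
    intro h
    have := congrArg Complex.re h
    norm_num at this
  have h2 : ContinuousAt riemannZeta (1 / 2 + (t : ℂ) * Complex.I) :=
    (differentiableAt_riemannZeta h1).continuousAt
  have h3 : ContinuousAt (fun t : ℝ => (1 / 2 + (t : ℂ) * Complex.I)) t := by fun_prop
  exact (ContinuousAt.comp (f := fun t : ℝ => (1 / 2 + (t : ℂ) * Complex.I)) h2 h3).norm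

/-- Part one. -/
theorem one (hPW : S_PW) (hHar : HZB.S_HarU) (hGG : S_GGm) : ∀ B A C : ℝ, 0 < B → 0 ≤ A → 0 ≤ C →
    ∃ K T₀ : ℝ, 3 ≤ T₀ ∧ ∀ T : ℝ, T₀ ≤ T → ∀ k : ℝ, 0 < k → k ≤ B →
    ∫ t in GG T A C, ‖riemannZeta (1 / 2 + t * Complex.I)‖ ^ (2 * k : ℝ) ≤
      K * (T * Real.log T ^ (k ^ 2 : ℝ)) := by
  intro B A C hB hA hC
  obtain ⟨c, hc, h⟩ := hPW
  obtain ⟨m₀, T₁, K, hm, hT₁, hK, h1⟩ := h A C hA hC
  obtain ⟨C', T₂, hC', hT₂, h2⟩ := hHar B K (1 / m₀) hB hK (by positivity)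
  refine ⟨C', max T₁ T₂, le_trans hT₁ (le_max_left _ _), fun T hT k hk hkB => ?_⟩
  have hTT : (3 : ℝ) ≤ T := hT₁.trans ((le_max_left _ _).trans hT)
  refine h2 T ((le_max_right _ _).trans hT) c hc (GG T A C) (hGG T A C (by linarith))
    (GG_sub T A C) ?_ k hk hkB
  intro t ht x hx1 hx2
  exact h1 T ((le_max_left _ _).trans hT) t ht x hx1 hx2

/-- Part two, the measure. -/
theorem mes (hC : S_Cmp) (hG : S_GGm) : ∃ C₁ T₀ : ℝ, 3 ≤ T₀ ∧ ∀ T : ℝ, T₀ ≤ T → ∀ A : ℝ, 1 ≤ A →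
    (1 - C₁ * Real.exp (-(A / 200))) * T ≤ volume.real (GG T A 400) := by
  obtain ⟨C, T₀, hC1, hT₀, h⟩ := hC 0 le_rfl
  refine ⟨C, T₀, hT₀, fun T hT A hA1 => ?_⟩
  have hT3 : 3 ≤ T := hT₀.trans hT
  have hL : 1 ≤ Real.log (2 * T) := by
    rw [Real.le_log_iff_exp_le (by linarith)]
    have := Real.exp_one_lt_d9
    linarith
  have h1 := h T hT 1 0 1 0 (fun _ => ∅) (fun _ => 0) (fun _ => 0) one_pos
    (by norm_num) (I_Mes.sys_zero hL _ _ _) 0 le_rfl le_rfl A hA1
  have hst : st 0 (fun _ => (∅ : Finset ℕ)) = 0 := by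
    unfold st
    rw [Finset.range_zero, Finset.sum_empty]
  have hNb : ∀ t : ℝ, Nb 0 (fun _ => (∅ : Finset ℕ)) (fun _ => 0) 0 t ^ 2 = 1 := by
    intro t
    unfold Nb NN
    rw [Finset.range_zero, Finset.prod_empty, norm_one, one_pow]
  simp only [hNb, hst, mul_zero, Real.exp_zero, mul_one] at h1
  rw [setIntegral_const, smul_eq_mul, mul_one] at h1
  have hfin : volume (Icc T (2 * T)) ≠ ⊤ := by
    rw [Real.volume_Icc]
    exact ENNReal.ofReal_ne_top
  rw [measureReal_sdiff (GG_sub T A 400) (hG T A 400 (by linarith)) hfin] at h1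
  have hvol : volume.real (Icc T (2 * T)) = T := by
    rw [Real.volume_real_Icc_of_le (by linarith)]
    ring
  rw [hvol] at h1
  linarith

/-- Part three, the moments. -/
theorem two (hCmp : S_Cmp) (hLow : S_LowE) (hSys : S_Sys) (hGG : S_GGm) (hNbc : ∀ (M : ℕ) (S : ℕ → Finset ℕ)
    (l : ℕ → ℕ) (β : ℝ), Continuous (Nb M S l β)) : ∀ B : ℝ, 1 ≤ B → ∃ A₀ c T₀ : ℝ, 0 < c ∧ 3 ≤ T₀ ∧
    ∀ T : ℝ, T₀ ≤ T → ∀ A : ℝ, A₀ ≤ A → ∀ k : ℝ, 0 < k → k ≤ B →
      c * (T * Real.log T ^ (k ^ 2 : ℝ)) ≤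
        ∫ t in GG T A 400, ‖riemannZeta (1 / 2 + t * Complex.I)‖ ^ (2 * k : ℝ) := by
  intro B hB1
  obtain ⟨w, hw, hw0, hws⟩ := exW
  obtain ⟨ε₀, ρ, η₀, hε₀, hε₁, hρ0, hρ1, hη₀, hL⟩ := hLow w hw hw0 B hB1
  set ε : ℝ := min ε₀ (1 / (B + 1)) with hε
  have hεp : 0 < ε := lt_min hε₀ (by positivity)
  obtain ⟨Λ, hΛ, hev⟩ := hSys ε (ρ / 2) η₀ hεp (by linarith) hη₀
  obtain ⟨δ₀, c, T₁, hδ₀, hc, hT₁, hL1⟩ := hL Λ hΛ
  obtain ⟨C, T₂, hC1, hT₂, hC⟩ := hCmp B (by linarith)
  obtain ⟨L₀, hL₀⟩ := eventually_atTop.1 hev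
  refine ⟨max 1 (200 * Real.log (C / δ₀)), c, max (max T₁ T₂) (max 3 (Real.exp L₀)), hc,
    le_trans (le_max_left _ _) (le_max_right _ _), fun T hT A hA k hk hkB => ?_⟩
  have hA1 : 1 ≤ A := (le_max_left _ _).trans hA
  have hA2 : C * Real.exp (-(A / 200)) ≤ δ₀ := by
    have h : Real.log (C / δ₀) ≤ A / 200 := by
      have := (le_max_right (1 : ℝ) (200 * Real.log (C / δ₀))).trans hA
      linarith
    have h' : C / δ₀ ≤ Real.exp (A / 200) := by
      rw [← Real.log_le_iff_le_exp (by positivity)]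
      exact h
    rw [div_le_iff₀ hδ₀] at h'
    rw [Real.exp_neg, ← div_eq_mul_inv, div_le_iff₀ (Real.exp_pos _)]
    linarith
  have hTT₁ : T₁ ≤ T := ((le_max_left _ _).trans (le_max_left _ _)).trans hT
  have hTT₂ : T₂ ≤ T := ((le_max_right _ _).trans (le_max_left _ _)).trans hT
  have hT3 : 3 ≤ T := ((le_max_left _ _).trans (le_max_right _ _)).trans hT
  have hTL : Real.exp L₀ ≤ T := ((le_max_right _ _).trans (le_max_right _ _)).trans hT
  have hT0 : 0 < T := by linarith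
  have h2T : 0 < 2 * T := by linarith
  have hlog : L₀ ≤ Real.log (2 * T) := by
    rw [Real.le_log_iff_exp_le h2T]
    linarith
  obtain ⟨M, S, l, y, hs, hsΛ⟩ := hL₀ _ hlog
  have hlog1 : 1 ≤ Real.log (2 * T) := by
    rw [Real.le_log_iff_exp_le h2T]
    have := Real.exp_one_lt_d9
    linarith
  have hlogT1 : 0 ≤ Real.log T := Real.log_nonneg (by linarith)
  have hlogT : Real.log T ≤ Real.log (2 * T) := Real.log_le_log hT0 (by linarith)
  have hmG : MeasurableSet (GG T A 400) := hGG T A 400 (by linarith)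
  set E : Set ℝ := {u | 2 * T * u ∈ GG T A 400} with hE
  have hmE : MeasurableSet E := hmG.preimage (by fun_prop : Measurable fun u : ℝ => 2 * T * u)
  have hcmp := hC T hTT₂ ε (ρ / 2) η₀ M S l y hεp (min_le_right _ _) hs k hk.le hkB A hA1
  have hwc : Continuous w := hw.smooth.continuous
  -- the complement
  have hcomp : ∫ u in Eᶜ, w u * Nb M S l k (2 * T * u) ^ 2 ≤ δ₀ * Real.log (2 * T) ^ (k ^ 2 : ℝ) := by
    have e1 : ∫ u in Eᶜ, w u * Nb M S l k (2 * T * u) ^ 2 =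
        ∫ u, (fun t : ℝ => (GG T A 400)ᶜ.indicator
          (fun t => w (t / (2 * T)) * Nb M S l k t ^ 2) t) (2 * T * u) := by
      rw [← integral_indicator hmE.compl]
      apply integral_congr_ae
      filter_upwards with u
      by_cases hu : u ∈ E
      · have h1 : u ∉ Eᶜ := fun h => h hu
        have h2 : 2 * T * u ∉ (GG T A 400)ᶜ := fun h => h hu
        simp only [Set.indicator_of_notMem h1, Set.indicator_of_notMem h2]
      · have h1 : u ∈ Eᶜ := hu
        have h2 : 2 * T * u ∈ (GG T A 400)ᶜ := hu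
        simp only [Set.indicator_of_mem h1, Set.indicator_of_mem h2]
        rw [mul_div_cancel_left₀ u h2T.ne']
    rw [e1, Measure.integral_comp_mul_left, integral_indicator hmG.compl, abs_of_pos (by positivity : (0 : ℝ) < (2 * T)⁻¹),
      smul_eq_mul]
    have e2 : ∫ t in (GG T A 400)ᶜ, w (t / (2 * T)) * Nb M S l k t ^ 2 ≤
        ∫ t in Icc T (2 * T) \ GG T A 400, Nb M S l k t ^ 2 := by
      have hi : IntegrableOn (fun t => Nb M S l k t ^ 2) (Icc T (2 * T)) :=
        ((hNbc M S l k).pow 2).continuousOn.integrableOn_compact isCompact_Icc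
      rw [← integral_indicator hmG.compl, ← integral_indicator (measurableSet_Icc.diff hmG)]
      apply integral_mono_of_nonneg
      · filter_upwards with t
        apply Set.indicator_nonneg
        intro t _
        exact mul_nonneg (hw.nonneg _) (sq_nonneg _)
      · exact (hi.mono_set diff_subset).integrable_indicator (measurableSet_Icc.diff hmG)
      · filter_upwards with t
        by_cases hg : t ∈ GG T A 400
        · have h1 : t ∉ (GG T A 400)ᶜ := fun h => h hg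
          rw [Set.indicator_of_notMem h1]
          apply Set.indicator_nonneg
          intro t _
          exact sq_nonneg _
        · have h1 : t ∈ (GG T A 400)ᶜ := hg
          rw [Set.indicator_of_mem h1]
          by_cases hz : w (t / (2 * T)) = 0
          · rw [hz, zero_mul]
            apply Set.indicator_nonneg
            intro t _
            exact sq_nonneg _
          · have h2 := hws _ hz
            rw [le_div_iff₀ h2T, div_le_iff₀ h2T] at h2
            have h3 : t ∈ Icc T (2 * T) \ GG T A 400 := ⟨⟨by linarith [h2.1], by linarith [h2.2]⟩, hg⟩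
            rw [Set.indicator_of_mem h3]
            have := hw.le_one (t / (2 * T))
            nlinarith [sq_nonneg (Nb M S l k t)]
    have hst : Real.exp (k ^ 2 * st M S) ≤ Real.log (2 * T) ^ (k ^ 2 : ℝ) := by
      have h1 : Real.exp (k ^ 2 * st M S) = Real.exp (st M S) ^ (k ^ 2 : ℝ) := by
        rw [← Real.exp_mul, mul_comm]
      rw [h1]
      exact Real.rpow_le_rpow (Real.exp_pos _).le hs.up (sq_nonneg k)
    have hlp : 0 ≤ Real.log (2 * T) ^ (k ^ 2 : ℝ) := Real.rpow_nonneg (by linarith) _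
    calc (2 * T)⁻¹ * ∫ t in (GG T A 400)ᶜ, w (t / (2 * T)) * Nb M S l k t ^ 2
        ≤ (2 * T)⁻¹ * (C * Real.exp (-(A / 200)) * (T * Real.exp (k ^ 2 * st M S))) := by
          apply mul_le_mul_of_nonneg_left (e2.trans hcmp) (by positivity)
      _ = 1 / 2 * (C * Real.exp (-(A / 200)) * Real.exp (k ^ 2 * st M S)) := by
          field_simp
      _ ≤ δ₀ * Real.log (2 * T) ^ (k ^ 2 : ℝ) := by
          have h5 : C * Real.exp (-(A / 200)) * Real.exp (k ^ 2 * st M S) ≤
              δ₀ * Real.log (2 * T) ^ (k ^ 2 : ℝ) :=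
            mul_le_mul hA2 hst (Real.exp_pos _).le hδ₀.le
          have h6 : 0 ≤ C * Real.exp (-(A / 200)) * Real.exp (k ^ 2 * st M S) := by positivity
          linarith
  have hlow := hL1 (2 * T) (by linarith) η₀ hη₀ le_rfl M S l y (mono (min_le_left _ _) hs) hsΛ k hk.le hkB E hmE
    hcomp
  -- the set itself
  have hup : ∫ u in E, w u * az (2 * T * u) ^ (2 * k : ℝ) ≤
      (2 * T)⁻¹ * ∫ t in GG T A 400, az t ^ (2 * k : ℝ) := by
    have e1 : ∫ u in E, w u * az (2 * T * u) ^ (2 * k : ℝ) =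
        ∫ u, (fun t : ℝ => (GG T A 400).indicator
          (fun t => w (t / (2 * T)) * az t ^ (2 * k : ℝ)) t) (2 * T * u) := by
      rw [← integral_indicator hmE]
      apply integral_congr_ae
      filter_upwards with u
      by_cases hu : u ∈ E
      · have h2 : 2 * T * u ∈ GG T A 400 := hu
        simp only [Set.indicator_of_mem hu, Set.indicator_of_mem h2]
        rw [mul_div_cancel_left₀ u h2T.ne']
      · have h2 : 2 * T * u ∉ GG T A 400 := hu
        simp only [Set.indicator_of_notMem hu, Set.indicator_of_notMem h2]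
    rw [e1, Measure.integral_comp_mul_left, integral_indicator hmG, abs_of_pos (by positivity : (0 : ℝ) < (2 * T)⁻¹),
      smul_eq_mul]
    apply mul_le_mul_of_nonneg_left _ (by positivity)
    have hazc : Continuous fun t => az t ^ (2 * k : ℝ) :=
      az_cont.rpow_const (fun _ => Or.inr (by positivity))
    have hi : IntegrableOn (fun t => az t ^ (2 * k : ℝ)) (GG T A 400) :=
      (hazc.continuousOn.integrableOn_compact isCompact_Icc).mono_set (GG_sub T A 400)
    apply setIntegral_mono_on _ hi hmG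
    · intro t _
      have h1 : 0 ≤ az t ^ (2 * k : ℝ) := Real.rpow_nonneg (norm_nonneg _) _
      have := hw.le_one (t / (2 * T))
      nlinarith
    · have hc2 : Continuous fun t => w (t / (2 * T)) * az t ^ (2 * k : ℝ) :=
        (hwc.comp (by fun_prop)).mul hazc
      exact (hc2.continuousOn.integrableOn_compact isCompact_Icc).mono_set (GG_sub T A 400)
  have hfin := hlow.trans hup
  have h7 : Real.log T ^ (k ^ 2 : ℝ) ≤ Real.log (2 * T) ^ (k ^ 2 : ℝ) :=
    Real.rpow_le_rpow hlogT1 hlogT (sq_nonneg k)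
  have h8 : 0 ≤ Real.log T ^ (k ^ 2 : ℝ) := Real.rpow_nonneg hlogT1 _
  have h9 : c * Real.log (2 * T) ^ (k ^ 2 : ℝ) * (2 * T) ≤ ∫ t in GG T A 400, az t ^ (2 * k : ℝ) := by
    rw [← div_eq_inv_mul, le_div_iff₀ h2T] at hfin
    exact hfin
  calc c * (T * Real.log T ^ (k ^ 2 : ℝ)) ≤ c * Real.log (2 * T) ^ (k ^ 2 : ℝ) * (2 * T) := by
        have : c * Real.log T ^ (k ^ 2 : ℝ) ≤ c * Real.log (2 * T) ^ (k ^ 2 : ℝ) :=
          mul_le_mul_of_nonneg_left h7 hc.le
        have h10 : 0 ≤ c * Real.log T ^ (k ^ 2 : ℝ) := mul_nonneg hc.le h8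
        nlinarith
    _ ≤ _ := h9

end Main

/-- The final theorem from the four parts. -/
theorem Main_pf (hPW : S_PW) (hHar : HZB.S_HarU) (hGG : S_GGm) (hCmp : S_Cmp)
    (hLow : S_LowE) (hSys : S_Sys) (hNbc : ∀ (M : ℕ) (S : ℕ → Finset ℕ) (l : ℕ → ℕ) (β : ℝ),
      Continuous (Nb M S l β)) : S_Main := by
  refine ⟨Main.one hPW hHar hGG, Main.mes hCmp hGG, fun B hB => ?_⟩
  obtain ⟨A₁, c, T₁, hc, hT₁, h1⟩ := Main.two hCmp hLow hSys hGG hNbc (max B 1) (le_max_right _ _)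
  exact ⟨A₁, c, T₁, hc, hT₁, fun T hT A hA k hk hkB =>
    h1 T hT A hA k hk (hkB.trans (le_max_left _ _))⟩

end Pool.Agent.Work.MP_56b8f5_nt.HZ
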