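import Pool.Agent.Work.MP_56b8f5_nt.SH.All
import Pool.Agent.Work.MP_56b8f5_nt.HZ.B_All
import Pool.Agent.Work.MP_56b8f5_nt.HZ.Main
import Pool.Agent.Work.MP_56b8f5_nt.HZ.I_Cmp
import Pool.Agent.Work.MP_56b8f5_nt.HZ.I_DsM
import Pool.Agent.Work.MP_56b8f5_nt.HZ.I_Dv
import Pool.Agent.Work.MP_56b8f5_nt.HZ.I_Em
import Pool.Agent.Work.MP_56b8f5_nt.HZ.I_FoB
import Pool.Agent.Work.MP_56b8f5_nt.HZ.I_FoP
import Pool.Agent.Work.MP_56b8f5_nt.HZ.I_FoV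
import Pool.Agent.Work.MP_56b8f5_nt.HZ.I_G1
import Pool.Agent.Work.MP_56b8f5_nt.HZ.I_G2
import Pool.Agent.Work.MP_56b8f5_nt.HZ.I_GGm
import Pool.Agent.Work.MP_56b8f5_nt.HZ.I_Gr
import Pool.Agent.Work.MP_56b8f5_nt.HZ.I_GrA
import Pool.Agent.Work.MP_56b8f5_nt.HZ.I_GrB
import Pool.Agent.Work.MP_56b8f5_nt.HZ.I_GrC
import Pool.Agent.Work.MP_56b8f5_nt.HZ.I_GrF
import Pool.Agent.Work.MP_56b8f5_nt.HZ.I_GrI
import Pool.Agent.Work.MP_56b8f5_nt.HZ.I_GrL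
import Pool.Agent.Work.MP_56b8f5_nt.HZ.I_GrP
import Pool.Agent.Work.MP_56b8f5_nt.HZ.I_Gro
import Pool.Agent.Work.MP_56b8f5_nt.HZ.I_Idn
import Pool.Agent.Work.MP_56b8f5_nt.HZ.I_KDn
import Pool.Agent.Work.MP_56b8f5_nt.HZ.I_KFo
import Pool.Agent.Work.MP_56b8f5_nt.HZ.I_KHh
import Pool.Agent.Work.MP_56b8f5_nt.HZ.I_KS1
import Pool.Agent.Work.MP_56b8f5_nt.HZ.I_Kap
import Pool.Agent.Work.MP_56b8f5_nt.HZ.I_Kex
import Pool.Agent.Work.MP_56b8f5_nt.HZ.I_Kkt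
import Pool.Agent.Work.MP_56b8f5_nt.HZ.I_Lh
import Pool.Agent.Work.MP_56b8f5_nt.HZ.I_Lt
import Pool.Agent.Work.MP_56b8f5_nt.HZ.I_Msu
import Pool.Agent.Work.MP_56b8f5_nt.HZ.I_Om
import Pool.Agent.Work.MP_56b8f5_nt.HZ.I_PW
import Pool.Agent.Work.MP_56b8f5_nt.HZ.I_PWa
import Pool.Agent.Work.MP_56b8f5_nt.HZ.I_Pair
import Pool.Agent.Work.MP_56b8f5_nt.HZ.I_Q2
import Pool.Agent.Work.MP_56b8f5_nt.HZ.I_Qc
import Pool.Agent.Work.MP_56b8f5_nt.HZ.I_TL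
import Pool.Agent.Work.MP_56b8f5_nt.HZ.I_TR
import Pool.Agent.Work.MP_56b8f5_nt.HZ.I_Wt
import Pool.Agent.Work.MP_56b8f5_nt.HZ.I_Yb
import Pool.Agent.Work.MP_56b8f5_nt.HZ.I_ZF
import Pool.Agent.Work.MP_56b8f5_nt.HZ.I_ZN
import Pool.Agent.Work.MP_56b8f5_nt.HZ.I_Zct
import Pool.Agent.Work.MP_56b8f5_nt.HZ.I_Zeu
import Pool.Agent.Work.MP_56b8f5_nt.HZ.I_Zgr
import Pool.Agent.Work.MP_56b8f5_nt.HZ.I_Zl1
import Pool.Agent.Work.MP_56b8f5_nt.HZ.I_Zsy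

/-!
MP_56b8f5_nt, block HZ: the assembly. `main_all : S_Main`.
-/

set_option autoImplicit false

noncomputable section

namespace Pool.Agent.Work.MP_56b8f5_nt.HZ

open Pool.Agent.Work.MP_56b8f5_nt.EM Pool.Agent.Work.MP_56b8f5_nt.WM Pool.Agent.Work.MP_56b8f5_nt.SH

/-! ### Part (a) -/

theorem all_GrB : S_GrB := GrB_pf GrI_pf GrP_pf GrL_pf GrA_pf
theorem all_GrC : S_GrC := GrC_pf GrI_pf GrP_pf GrL_pf GrA_pf
theorem all_Gr : S_Gr := Gr_pf all_GrB all_GrC GrF_pf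
theorem all_Zct : S_Zct := Zct_pf Zgr_pf
theorem all_Zl1 : S_Zl1 := Zl1_pf Zgr_pf
theorem all_KHh : S_KHh := KHh_pf Kkt_pf
theorem all_KS1 : S_KS1 := KS1_pf Kkt_pf all_KHh
theorem all_KFo : S_KFo := KFo_pf Kkt_pf
theorem all_KDn : S_KDn := KDn_pf Kkt_pf all_KHh all_KFo
theorem all_Idn : S_Idn := Idn_pf all_Gr all_KHh
theorem all_TR : S_TR := TR_pf Zeu_pf Kkt_pf all_KDn
theorem all_TL : S_TL := TL_pf all_Zl1
theorem all_ZN : S_ZN := ZN_pf Zsy_pf Pair_pf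
theorem all_ZF : S_ZF := ZF_pf all_Zct
theorem all_PWa : S_PWa := PWa_pf all_Idn all_TR all_TL all_ZN all_ZF
theorem all_PW : S_PW := PW_pf Kex_pf all_KS1 all_PWa Kkt_pf

/-! ### Part (c) -/

theorem all_Q2 : S_Q2 := Q2_pf FoP_pf all_Pr2
theorem all_FoB : S_FoB := FoB_pf FoV_pf Om_pf Dv_pf Em_pf Msu_pf
theorem all_Lh : S_Lh := Lh_pf FoP_pf all_Q2 all_FoB Wt_pf DsM_pf
theorem all_Yb : S_Yb := Yb_pf HZG.iG1 Qc_pf DsM_pf all_Lh Lt_pf Gro_pf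
theorem all_Kap : S_Kap := Kap_pf HZG.iG2 all_Yb
theorem all_Cmp : S_Cmp := Cmp_pf all_Kap

/-! ### Conclusion -/

theorem all_Low : S_LowE := LowE_pf SH.Cha_pf SH.all_Bad SH.all_Pw

theorem nb_cont (M : ℕ) (S : ℕ → Finset ℕ) (l : ℕ → ℕ) (β : ℝ) : Continuous (Nb M S l β) := by
  have hP : ∀ S : Finset ℕ, Continuous fun t : ℝ => PS S t := SH.Cha_pf.2.2.2.2.2.2.2.2.1
  have hTE : ∀ (l : ℕ) (a : ℝ) (S : Finset ℕ), Continuous fun t : ℝ => TE l (a * PS S t) := by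
    intro l a S
    unfold TE
    have := hP S
    fun_prop
  unfold Nb NN
  refine (continuous_finsetProd _ fun j _ => ?_).norm
  exact (hTE _ _ _).mul (hTE _ _ _)

theorem main_all : S_Main := Main_pf all_PW HZB.HarU_all GGm_pf all_Cmp all_Low SH.all_Sys nb_cont

end Pool.Agent.Work.MP_56b8f5_nt.HZ
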