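import Pool.Agent.Work.MP_56b8f5_nt.HZ.StmtsB

/-!
MP_56b8f5_nt, block HZ, part B, item EvT (helper35).
-/

set_option autoImplicit false

open MeasureTheory Set Filter Topology

noncomputable section

namespace Pool.Agent.Work.MP_56b8f5_nt.HZB

open Pool.Agent.Work.MP_56b8f5_nt.SH

theorem pf_EvT : S_EvT := by
  intro t l k α
  unfold tx TE
  rw [map_sum]
  apply Finset.sum_congr rfl
  intro m _
  rw [map_smul, map_pow, smul_eq_mul, mul_pow]
  push_cast
  ring

end Pool.Agent.Work.MP_56b8f5_nt.HZB
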