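import Pool.Agent.Work.MP_56b8f5_nt.SH.Defs

/-!
MP_56b8f5_nt (eighth moment of the Riemann zeta function), block HZ (Harper's bound without the Riemann hypothesis,
on the set `G(T;A,C)`): definitions.

Weights `IsW`, `W0` are those of block EM, `az`, `pe` those of block WM, systems `IsSys`, `st`, `TE`, `NN`, `Nb` those of
block SH. `L` always means `log T`, `X` means `log x`, `s₁ = 1/2 + it`.
-/

set_option autoImplicit false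

open MeasureTheory Set Filter Topology

noncomputable section

namespace Pool.Agent.Work.MP_56b8f5_nt.HZ

open Pool.Agent.Work.MP_56b8f5_nt.EM Pool.Agent.Work.MP_56b8f5_nt.WM Pool.Agent.Work.MP_56b8f5_nt.SH

/-! ### The set of good heights -/

/-- `G(T;A,C)`: the `t` in `[T,2T]` such that every zero `β + iγ` of zeta in the critical strip has
`(β - 1/2) log T ≤ A + C log (1 + |γ - t| log T)`. -/
def GG (T A C : ℝ) : Set ℝ := {t | T ≤ t ∧ t ≤ 2 * T ∧ ∀ ρ : ℂ, riemannZeta ρ = 0 → 0 < ρ.re → ρ.re < 1 →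
  (ρ.re - 1 / 2) * Real.log T ≤ A + C * Real.log (1 + |ρ.im - t| * Real.log T)}

/-- Multiplicity of a zero of zeta. -/
def mz (ρ : ℂ) : ℝ := (analyticOrderNatAt riemannZeta ρ : ℝ)

/-! ### Plane calculus -/

/-- The Laplacian in the plane. -/
def L2 (F : ℂ → ℝ) (z : ℂ) : ℝ := lineDeriv ℝ (fun w => lineDeriv ℝ F w 1) z 1 +
  lineDeriv ℝ (fun w => lineDeriv ℝ F w Complex.I) z Complex.I

/-- Smooth functions of one variable with compact support. -/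
structure IsB (b : ℝ → ℝ) : Prop where
  smooth : ContDiff ℝ ((⊤ : ℕ∞) : WithTop ℕ∞) b
  supp : HasCompactSupport b

/-- The Laplacian of `b₁(y) b₂(v) g(z)` minus `b₁ b₂` times the Laplacian of `g`, where `z = y + iv` and the gradient of `g` is
given by `q`: `∂_y g = Re q`, `∂_v g = - Im q`. -/
def DD (b₁ b₂ : ℝ → ℝ) (g : ℂ → ℝ) (q : ℂ → ℂ) (z : ℂ) : ℝ :=
  (deriv (deriv b₁) z.re * b₂ z.im + b₁ z.re * deriv (deriv b₂) z.im) * g z +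
    2 * (deriv b₁ z.re * b₂ z.im * (q z).re - b₁ z.re * deriv b₂ z.im * (q z).im)

/-- `log √(|z|² + ε²)`. -/
def Le (ε : ℝ) (z : ℂ) : ℝ := Real.log (‖z‖ ^ 2 + ε ^ 2) / 2

/-- The gradient of `Le ε`: `conj z/(|z|² + ε²)`. -/
def Qe (ε : ℝ) (z : ℂ) : ℂ := (starRingEnd ℂ) z / ((‖z‖ ^ 2 + ε ^ 2 : ℝ) : ℂ)

/-- The Laplacian of `Le ε`: `2ε²/(|z|² + ε²)²`. -/
def De (ε : ℝ) (z : ℂ) : ℝ := 2 * ε ^ 2 / (‖z‖ ^ 2 + ε ^ 2) ^ 2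

/-- Cut-off: `1` on `[-1,1]`, `0` outside `[-2,2]`. -/
def cut (u : ℝ) : ℝ := Real.smoothTransition (2 - u) * Real.smoothTransition (2 + u)

/-- Cut-off in `y`: `1` on `[-1/5, 3/2]`, `0` outside `[-3/10, 5/2]`. -/
def cy (y : ℝ) : ℝ := Real.smoothTransition (10 * y + 3) * Real.smoothTransition (5 / 2 - y)

/-- Cut-off in `v`: `1` for `|v| ≤ H`, `0` for `|v| ≥ 2H`. -/
def cv (H v : ℝ) : ℝ := cut (v / H)

/-- Near cut-off: `1` for `|u| ≤ 1/8`, `0` for `|u| ≥ 1/4`. -/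
def cn (u : ℝ) : ℝ := cut (8 * u)

/-! ### The kernel -/

/-- A smooth probability density supported in `[1/4, 3/4]`. -/
structure IsKer (κ : ℝ → ℝ) : Prop where
  smooth : ContDiff ℝ ((⊤ : ℕ∞) : WithTop ℕ∞) κ
  nonneg : ∀ x, 0 ≤ κ x
  supp : ∀ x, κ x ≠ 0 → 1 / 4 ≤ x ∧ x ≤ 3 / 4
  mass : ∫ x, κ x = 1

/-- `∫ κ(τ) e^{τ w} dτ`. -/
def kt (κ : ℝ → ℝ) (w : ℂ) : ℂ := ∫ τ : ℝ, (κ τ : ℂ) * Complex.exp (τ * w)

/-- `∫_ξ^∞ κ`: it is `1` for `ξ ≤ 1/4` and `0` for `ξ ≥ 3/4`. -/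
def kk (κ : ℝ → ℝ) (ξ : ℝ) : ℝ := ∫ τ in Ioi ξ, κ τ

/-- `∫_0^1 (e^{τ w} - 1)/τ kk(τ) dτ`, an entire function with `1 + w H'(w) = kt w`. -/
def Hh (κ : ℝ → ℝ) (w : ℂ) : ℂ := ∫ τ in (0 : ℝ)..1, (Complex.exp (τ * w) - 1) / τ * (kk κ τ : ℂ)

/-- `log |w| + Re H(w) - c`; with the right constant it tends to `0` as `Re w → -∞`. -/
def S1 (κ : ℝ → ℝ) (c : ℝ) (w : ℂ) : ℝ := Real.log ‖w‖ + (Hh κ w).re - c

/-- The basic bounds for `S1` (with constant `C` and exponent `3`). -/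
def IsC (κ : ℝ → ℝ) (c C : ℝ) : Prop := ∀ w : ℂ,
  (1 ≤ |w.im| → |S1 κ c w| ≤ C * (1 + Real.exp w.re) / |w.im| ^ 3) ∧
  (w.re ≤ -1 → |S1 κ c w| ≤ C / ‖w‖ ^ 3) ∧
  (w ≠ 0 → ‖kt κ w / w‖ ≤ C * (1 + Real.exp w.re) / ‖w‖ ^ 4)

/-- The weights of the Dirichlet polynomial: `kk (log n/X) n^{-a}`. -/
def wk (κ : ℝ → ℝ) (X a : ℝ) (n : ℕ) : ℝ := kk κ (Real.log n / X) * (n : ℝ) ^ (-a)

/-- `∑_{n ≤ x} Λ(n)/log n c(n) n^{-1/2-it}` (the terms `n = 0, 1` vanish), `x` real. -/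
def Dx (c : ℕ → ℝ) (x t : ℝ) : ℂ := ∑ n ∈ Finset.Icc 1 ⌊x⌋₊,
  ((ArithmeticFunction.vonMangoldt n / Real.log n * c n : ℝ) : ℂ) * (n : ℂ) ^ (-(1 / 2 + t * Complex.I))

/-- The function of the zero `s₁ + z`: `Φ(z)`, `z = y + iv`. -/
def Phi (κ : ℝ → ℝ) (c X a H : ℝ) (z : ℂ) : ℝ :=
  cy z.re * cv H z.im * ((Hh κ (X * (z - a))).re + Real.log X - c) +
    (cy z.re * cv H z.im - cn z.re * cn z.im) * Real.log ‖z - a‖ + cn z.re * cn z.im * Real.log ‖z‖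

/-- The cut-off terms: everything in `Δ Φ` except the point masses. -/
def Cu (κ : ℝ → ℝ) (c X a H : ℝ) (z : ℂ) : ℝ :=
  DD cy (cv H) (fun z => S1 κ c (X * (z - a))) (fun z => kt κ (X * (z - a)) / (z - a)) z +
    DD cn cn (fun z => Real.log ‖z‖ - Real.log ‖z - a‖) (fun z => 1 / z - 1 / (z - a)) z

/-! ### Dirichlet polynomials with complex coefficients -/

/-- `∑_{1 ≤ n ≤ N} D(n) n^{-s}`. -/
def Ds (N : ℕ) (D : ℕ → ℂ) (s : ℂ) : ℂ := ∑ n ∈ Finset.Icc 1 N, D n * (n : ℂ) ^ (-s)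

/-- The form `∑_{a,b ≤ N} D(a) conj D(b) (a,b)/(ab)`. -/
def Fo (N : ℕ) (D : ℕ → ℂ) : ℝ := (∑ a ∈ Finset.Icc 1 N, ∑ b ∈ Finset.Icc 1 N,
  D a * (starRingEnd ℂ) (D b) * (k2 a b : ℂ)).re

/-- Dirichlet convolution. -/
def cvl (D E : ℕ → ℂ) (n : ℕ) : ℂ := ∑ d ∈ n.divisors, D d * E (n / d)

/-- `∏_{p ≤ Y} (1 - 1/p)`. -/
def VV (Y : ℕ) : ℝ := ∏ p ∈ pr Y, (1 - 1 / (p : ℝ))

/-- All prime factors of `n` are at most `Y` (and `n ≠ 0`). -/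
def Smo (Y n : ℕ) : Prop := n ≠ 0 ∧ ∀ p : ℕ, p.Prime → p ∣ n → p ≤ Y

/-- The smoothed Moebius function `μ(n) P(log n/ log Y)`, `Y` real. -/
def muP (P : ℝ → ℝ) (Y : ℝ) (n : ℕ) : ℂ :=
  ((ArithmeticFunction.moebius n : ℤ) : ℂ) * (P (Real.log n / Real.log Y) : ℂ)

/-- Profiles: smooth, compact support, `P ξ = 0` for `ξ ≥ 1`. -/
structure IsP (P : ℝ → ℝ) : Prop where
  smooth : ContDiff ℝ ((⊤ : ℕ∞) : WithTop ℕ∞) P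
  supp : HasCompactSupport P
  zero : ∀ ξ : ℝ, 1 ≤ ξ → P ξ = 0

/-- The mollifier `M(s) = ∑_{n ≤ Y} μ(n) P(log n/log Y) n^{-s}`. -/
def MM (P : ℝ → ℝ) (Y : ℝ) (s : ℂ) : ℂ := Ds ⌊Y⌋₊ (muP P Y) s

/-- `min(2, |1 + iτ| log p/log Y)`, an upper bound for `|1 - p^{-w}|`, `w = (1 + iτ)/log Y`. -/
def cp (Y τ : ℝ) (p : ℕ) : ℝ := min 2 ((1 + |τ|) * (Real.log p / Real.log Y))

/-- `∏_{p | n} c(p)`. -/
def fp (c : ℕ → ℝ) (n : ℕ) : ℝ := ∏ p ∈ n.primeFactors, c p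

/-- Coefficients of the tilt: `|∏_j TE(β P_j/2)²| = |∑ q(n) n^{-1/2-it}|`. -/
structure IsQ (M : ℕ) (S : ℕ → Finset ℕ) (l : ℕ → ℕ) (β T : ℝ) (N : ℕ) (q : ℕ → ℝ) : Prop where
  nonneg : ∀ n, 0 ≤ q n
  supp : ∀ n, q n ≠ 0 → 1 ≤ n ∧ n ≤ N
  len : (N : ℝ) ^ 100 ≤ T
  le : ∀ n, q n ≤ pe (fun p => if p ∈ (Finset.range M).biUnion S then β else 0) n
  sum : ∑ n ∈ Finset.Icc 1 N, q n ≤ T ^ (1 / 50 : ℝ)
  eq : ∀ t : ℝ, NN M S l (β / 2) (β / 2) t = Ds N (fun n => (q n : ℂ)) (1 / 2 + t * Complex.I)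

/-- The twisted coefficients `q(n) n^{b - iτ}`. -/
def qt (q : ℕ → ℝ) (b τ : ℝ) (n : ℕ) : ℂ := (q n : ℂ) * (n : ℂ) ^ ((b : ℂ) - τ * Complex.I)

end Pool.Agent.Work.MP_56b8f5_nt.HZ
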