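import Pool.Agent.Work.MP_56b8f5_nt.HZ.StmtsC

/-! MP_56b8f5_nt, block HZ, item FoV (helper70): the form as a sum over smooth numbers. -/

set_option autoImplicit false

open MeasureTheory Set Filter Topology

noncomputable section

namespace Pool.Agent.Work.MP_56b8f5_nt.HZ

open Pool.Agent.Work.MP_56b8f5_nt.EM Pool.Agent.Work.MP_56b8f5_nt.WM Pool.Agent.Work.MP_56b8f5_nt.SH
open Pool.Agent.Work.MP_56b8f5_nt.HZG

namespace I_FoV

open Classical

/-- `n ↦ 1/n` as a multiplicative function. -/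
def iv : ℕ →* ℝ where
  toFun n := (n : ℝ)⁻¹
  map_one' := by simp
  map_mul' m n := by push_cast; rw [mul_inv]

lemma VV_pos (Y : ℕ) : 0 < VV Y := by
  refine Finset.prod_pos fun p hp => ?_
  have h2 : (2 : ℝ) ≤ p := by exact_mod_cast (Finset.mem_filter.1 hp).2.two_le
  have : 1 / (p : ℝ) ≤ 1 / 2 := one_div_le_one_div_of_le (by norm_num) h2
  linarith

lemma smo_iff (Y n : ℕ) : Smo Y n ↔ n ∈ Nat.smoothNumbers (Y + 1) := by
  rw [Nat.mem_smoothNumbers]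
  constructor
  · rintro ⟨h0, h⟩
    exact ⟨h0, fun p hp => Nat.lt_succ_of_le
      (h p (Nat.prime_of_mem_primeFactorsList hp) (Nat.dvd_of_mem_primeFactorsList hp))⟩
  · rintro ⟨h0, h⟩
    exact ⟨h0, fun p hp hd => Nat.le_of_lt_succ (h p ((Nat.mem_primeFactorsList h0).2 ⟨hp, hd⟩))⟩

lemma smo_mul {Y d m : ℕ} (hd : Smo Y d) : Smo Y (d * m) ↔ Smo Y m := by
  constructor
  · rintro ⟨h0, h⟩
    exact ⟨right_ne_zero_of_mul h0, fun p hp hpm => h p hp (hpm.mul_left d)⟩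
  · rintro ⟨h0, h⟩
    refine ⟨mul_ne_zero hd.1 h0, fun p hp hpm => ?_⟩
    rcases (Nat.Prime.dvd_mul hp).1 hpm with h1 | h1
    · exact hd.2 p hp h1
    · exact h p hp h1

lemma smo_lcm {Y a b : ℕ} (ha : Smo Y a) (hb : Smo Y b) : Smo Y (Nat.lcm a b) := by
  refine ⟨Nat.lcm_ne_zero ha.1 hb.1, fun p hp h => ?_⟩
  have h1 : p ∣ a * b := h.trans (Nat.lcm_dvd_mul a b)
  rcases (Nat.Prime.dvd_mul hp).1 h1 with h2 | h2
  · exact ha.2 p hp h2
  · exact hb.2 p hp h2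

/-- the sum of `1/m` over the smooth numbers -/
lemma sum_one (Y : ℕ) : HasSum (fun m : ℕ => if Smo Y m then (m : ℝ)⁻¹ else 0) (VV Y)⁻¹ := by
  have h := (EulerProduct.summable_and_hasSum_smoothNumbers_prod_primesBelow_geometric
    (f := iv) (fun {p} hp => ?_) (Y + 1)).2
  · have h1 : ∏ p ∈ (Y + 1).primesBelow, (1 - iv p)⁻¹ = (VV Y)⁻¹ := by
      rw [Finset.prod_inv_distrib, VV]
      congr 1
      exact Finset.prod_congr rfl fun p _ => by rw [one_div]; rfl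
    rw [h1] at h
    have h2 : (fun m : ℕ => if Smo Y m then (m : ℝ)⁻¹ else 0) =
        (Nat.smoothNumbers (Y + 1)).indicator (fun m => iv m) := by
      funext m
      rw [Set.indicator_apply]
      by_cases hm : Smo Y m
      · rw [if_pos hm, if_pos ((smo_iff Y m).1 hm)]
        rfl
      · rw [if_neg hm, if_neg (fun h => hm ((smo_iff Y m).2 h))]
    rw [h2]
    exact hasSum_subtype_iff_indicator.1 h
  · show ‖((p : ℝ)⁻¹)‖ < 1
    have h2 : (2 : ℝ) ≤ p := by exact_mod_cast hp.two_le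
    rw [Real.norm_of_nonneg (by positivity)]
    exact inv_lt_one_of_one_lt₀ (by linarith)

/-- the sum of `1/n` over the smooth multiples of a smooth number -/
lemma sum_dvd (Y d : ℕ) (hd : Smo Y d) :
    HasSum (fun n : ℕ => if Smo Y n ∧ d ∣ n then (n : ℝ)⁻¹ else 0) ((d : ℝ)⁻¹ / VV Y) := by
  have hd0 : d ≠ 0 := hd.1
  have hinj : Function.Injective (fun m : ℕ => d * m) := fun a b h =>
    Nat.eq_of_mul_eq_mul_left (Nat.pos_of_ne_zero hd0) h
  rw [← hinj.hasSum_iff (f := fun n : ℕ => if Smo Y n ∧ d ∣ n then (n : ℝ)⁻¹ else 0)]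
  · have h := (sum_one Y).mul_left ((d : ℝ)⁻¹)
    rw [div_eq_mul_inv]
    have e : ((fun n : ℕ => if Smo Y n ∧ d ∣ n then (n : ℝ)⁻¹ else 0) ∘ fun m : ℕ => d * m) =
        fun m : ℕ => (d : ℝ)⁻¹ * (if Smo Y m then (m : ℝ)⁻¹ else 0) := by
      funext m
      simp only [Function.comp_apply]
      by_cases hm : Smo Y m
      · rw [if_pos hm, if_pos ⟨(smo_mul hd).2 hm, dvd_mul_right d m⟩]
        push_cast
        rw [mul_inv]
      · rw [if_neg hm, if_neg (fun h => hm ((smo_mul hd).1 h.1)), mul_zero]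
    rw [e]
    exact h
  · intro n hn
    refine if_neg ?_
    rintro ⟨-, m, rfl⟩
    exact hn ⟨m, rfl⟩

lemma sum_eq {Y N : ℕ} {D : ℕ → ℂ} (hD : ∀ n, D n ≠ 0 → n ≤ N ∧ Smo Y n) {n : ℕ} (hn : n ≠ 0) :
    ∑ d ∈ n.divisors, D d = ∑ a ∈ Finset.Icc 1 N, if a ∣ n then D a else 0 := by
  rw [← Finset.sum_filter]
  symm
  refine Finset.sum_subset (fun a ha => ?_) (fun a ha ha' => ?_)
  · exact Nat.mem_divisors.2 ⟨(Finset.mem_filter.1 ha).2, hn⟩
  · by_contra h0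
    obtain ⟨h1, h2⟩ := hD a h0
    exact ha' (Finset.mem_filter.2 ⟨Finset.mem_Icc.2 ⟨Nat.pos_of_ne_zero h2.1, h1⟩,
      (Nat.mem_divisors.1 ha).1⟩)

lemma sq_eq {Y N : ℕ} {D : ℕ → ℂ} (hD : ∀ n, D n ≠ 0 → n ≤ N ∧ Smo Y n) (n : ℕ) :
    (if Smo Y n then ‖∑ d ∈ n.divisors, D d‖ ^ 2 / (n : ℝ) else 0) =
    ∑ a ∈ Finset.Icc 1 N, ∑ b ∈ Finset.Icc 1 N, (D a * (starRingEnd ℂ) (D b)).re *
      (if Smo Y n ∧ Nat.lcm a b ∣ n then (n : ℝ)⁻¹ else 0) := by
  by_cases hn : Smo Y n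
  · rw [if_pos hn]
    have h1 : ‖∑ d ∈ n.divisors, D d‖ ^ 2 =
        ((∑ d ∈ n.divisors, D d) * (starRingEnd ℂ) (∑ d ∈ n.divisors, D d)).re := by
      rw [Complex.mul_conj, Complex.ofReal_re, Complex.normSq_eq_norm_sq]
    rw [h1, sum_eq hD hn.1, map_sum, Finset.sum_mul_sum, Complex.re_sum, Finset.sum_div]
    refine Finset.sum_congr rfl fun a _ => ?_
    rw [Complex.re_sum, Finset.sum_div]
    refine Finset.sum_congr rfl fun b _ => ?_
    by_cases ha : a ∣ n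
    · by_cases hb : b ∣ n
      · rw [if_pos ha, if_pos hb, if_pos ⟨hn, Nat.lcm_dvd ha hb⟩, div_eq_mul_inv]
      · rw [if_neg hb, map_zero, mul_zero, Complex.zero_re, zero_div,
          if_neg (fun h => hb ((Nat.dvd_lcm_right a b).trans h.2)), mul_zero]
    · rw [if_neg ha, zero_mul, Complex.zero_re, zero_div,
        if_neg (fun h => ha ((Nat.dvd_lcm_left a b).trans h.2)), mul_zero]
  · rw [if_neg hn]
    symm
    refine Finset.sum_eq_zero fun a _ => Finset.sum_eq_zero fun b _ => ?_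
    rw [if_neg (fun h => hn h.1), mul_zero]

lemma k2_eq {a b : ℕ} (ha : a ≠ 0) (hb : b ≠ 0) : k2 a b = ((Nat.lcm a b : ℕ) : ℝ)⁻¹ := by
  have h : (Nat.gcd a b : ℝ) * (Nat.lcm a b : ℝ) = (a : ℝ) * b := by
    exact_mod_cast Nat.gcd_mul_lcm a b
  have h0 : ((Nat.lcm a b : ℕ) : ℝ) ≠ 0 := by
    exact_mod_cast Nat.lcm_ne_zero ha hb
  have hg : ((Nat.gcd a b : ℕ) : ℝ) ≠ 0 := by
    exact_mod_cast (Nat.gcd_pos_of_pos_left b (Nat.pos_of_ne_zero ha)).ne'
  rw [k2, ← h]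
  field_simp

end I_FoV

open I_FoV in
theorem FoV_pf : S_FoV := by
  classical
  intro Y N D hD
  refine ⟨VV_pos Y, ?_⟩
  have h1 : (fun n : ℕ => (open Classical in if Smo Y n then
      ‖∑ d ∈ n.divisors, D d‖ ^ 2 / (n : ℝ) else 0)) = fun n : ℕ =>
      ∑ a ∈ Finset.Icc 1 N, ∑ b ∈ Finset.Icc 1 N, (D a * (starRingEnd ℂ) (D b)).re *
      (open Classical in if Smo Y n ∧ Nat.lcm a b ∣ n then (n : ℝ)⁻¹ else 0) :=
    funext fun n => sq_eq hD n
  have h2 : Fo N D / VV Y = ∑ a ∈ Finset.Icc 1 N, ∑ b ∈ Finset.Icc 1 N,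
      (D a * (starRingEnd ℂ) (D b)).re * (((Nat.lcm a b : ℕ) : ℝ)⁻¹ / VV Y) := by
    rw [Fo, Complex.re_sum, Finset.sum_div]
    refine Finset.sum_congr rfl fun a ha => ?_
    rw [Complex.re_sum, Finset.sum_div]
    refine Finset.sum_congr rfl fun b hb => ?_
    have ha0 : a ≠ 0 := Nat.one_le_iff_ne_zero.1 (Finset.mem_Icc.1 ha).1
    have hb0 : b ≠ 0 := Nat.one_le_iff_ne_zero.1 (Finset.mem_Icc.1 hb).1
    rw [Complex.re_mul_ofReal, k2_eq ha0 hb0, mul_div_assoc]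
  rw [h1, h2]
  refine hasSum_sum fun a _ => hasSum_sum fun b _ => ?_
  by_cases h0 : D a = 0 ∨ D b = 0
  · have h3 : (D a * (starRingEnd ℂ) (D b)).re = 0 := by
      rcases h0 with h | h
      · rw [h, zero_mul, Complex.zero_re]
      · rw [h, map_zero, mul_zero, Complex.zero_re]
    simp only [h3, zero_mul]
    exact hasSum_zero
  · push Not at h0
    exact (sum_dvd Y _ (smo_lcm (hD a h0.1).2 (hD b h0.2).2)).mul_left _

end Pool.Agent.Work.MP_56b8f5_nt.HZ
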