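import Pool.Agent.Work.MP_56b8f5_nt.HZ.StmtsG

/-!
MP_56b8f5_nt, block HZ, item G1a: convexity of the mean square for rapidly decreasing functions.
-/

set_option autoImplicit false

open MeasureTheory Set Filter Topology

noncomputable section

namespace Pool.Agent.Work.MP_56b8f5_nt.HZG

namespace G1a

/-- the closure of the strip -/
theorem clo {l u : ℝ} (h : l < u) : closure (Complex.re ⁻¹' Ioo l u) = Complex.re ⁻¹' Icc l u := by
  rw [Complex.closure_preimage_re, closure_Ioo h.ne]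

theorem den_pos (t : ℝ) : 0 < 1 + t ^ 2 := by positivity

theorem B_nonneg {f : ℂ → ℂ} {l u B : ℝ} (hlu : l < u)
    (hB : ∀ s : ℂ, l ≤ s.re → s.re ≤ u → ‖f s‖ ≤ B / (1 + s.im ^ 2)) : 0 ≤ B := by
  have h := hB (l : ℂ) (by simp) (by simpa using hlu.le)
  have h2 : ‖f (l : ℂ)‖ ≤ B := by simpa using h
  exact (norm_nonneg _).trans h2

theorem bd {f : ℂ → ℂ} {l u B : ℝ} (hlu : l < u)
    (hB : ∀ s : ℂ, l ≤ s.re → s.re ≤ u → ‖f s‖ ≤ B / (1 + s.im ^ 2)) {s : ℂ} (h1 : l ≤ s.re)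
    (h2 : s.re ≤ u) : ‖f s‖ ≤ B := by
  refine (hB s h1 h2).trans (div_le_self (B_nonneg hlu hB) ?_)
  nlinarith [sq_nonneg s.im]

theorem int_den (B : ℝ) : Integrable (fun v : ℝ => B / (1 + v ^ 2)) := by
  have := (integrable_inv_one_add_sq).const_mul B
  refine this.congr (Eventually.of_forall fun v => ?_)
  simp only [div_eq_mul_inv]

theorem int_den_sq (B : ℝ) : Integrable (fun v : ℝ => (B / (1 + v ^ 2)) ^ 2) := by
  have h := (int_den (B ^ 2))
  refine h.mono' ?_ (Eventually.of_forall fun v => ?_)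
  · refine Continuous.aestronglyMeasurable ?_
    refine Continuous.pow (Continuous.div continuous_const (by fun_prop) fun v => ?_) 2
    exact (den_pos v).ne'
  · rw [Real.norm_eq_abs, abs_of_nonneg (by positivity), div_pow]
    refine div_le_div_of_nonneg_left (by positivity) (den_pos v) ?_
    nlinarith [sq_nonneg v, sq_nonneg (v ^ 2)]

theorem line_cont {f : ℂ → ℂ} {l u x : ℝ} (hlu : l < u) (hf : DiffContOnCl ℂ f (Complex.re ⁻¹' Ioo l u))
    (h1 : l ≤ x) (h2 : x ≤ u) (y : ℝ) :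
    Continuous (fun v : ℝ => f ((x : ℂ) + (y : ℂ) * Complex.I + (v : ℂ) * Complex.I)) := by
  have hc := hf.continuousOn
  rw [clo hlu] at hc
  refine hc.comp_continuous (by fun_prop) fun v => ?_
  simp only [mem_preimage, mem_Icc]
  constructor <;> simpa using (by assumption)

theorem line_cont0 {f : ℂ → ℂ} {l u x : ℝ} (hlu : l < u)
    (hf : DiffContOnCl ℂ f (Complex.re ⁻¹' Ioo l u)) (h1 : l ≤ x) (h2 : x ≤ u) :
    Continuous (fun v : ℝ => f ((x : ℂ) + (v : ℂ) * Complex.I)) := by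
  have := line_cont hlu hf h1 h2 0
  simpa using this

/-- continuity of `v ↦ f (s + i v)` -/
theorem shift_cont {f : ℂ → ℂ} {l u : ℝ} (hlu : l < u) (hf : DiffContOnCl ℂ f (Complex.re ⁻¹' Ioo l u))
    {s : ℂ} (h1 : l ≤ s.re) (h2 : s.re ≤ u) :
    Continuous (fun v : ℝ => f (s + (v : ℂ) * Complex.I)) := by
  have hc := hf.continuousOn
  rw [clo hlu] at hc
  refine hc.comp_continuous (by fun_prop) fun v => ?_
  simp only [mem_preimage, mem_Icc]
  constructor <;> simpa using (by assumption)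

/-- the square is integrable -/
theorem sq_int {f : ℂ → ℂ} {l u B x : ℝ} (hlu : l < u) (hf : DiffContOnCl ℂ f (Complex.re ⁻¹' Ioo l u))
    (hB : ∀ s : ℂ, l ≤ s.re → s.re ≤ u → ‖f s‖ ≤ B / (1 + s.im ^ 2)) (h1 : l ≤ x) (h2 : x ≤ u) :
    Integrable (fun v : ℝ => ‖f ((x : ℂ) + (v : ℂ) * Complex.I)‖ ^ 2) := by
  refine (int_den_sq B).mono' ((line_cont0 hlu hf h1 h2).norm.pow 2).aestronglyMeasurable
    (Eventually.of_forall fun v => ?_)
  rw [Real.norm_eq_abs, abs_of_nonneg (by positivity)]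
  have := hB ((x : ℂ) + (v : ℂ) * Complex.I) (by simpa using h1) (by simpa using h2)
  have h3 : ((x : ℂ) + (v : ℂ) * Complex.I).im = v := by simp
  rw [h3] at this
  exact pow_le_pow_left₀ (norm_nonneg _) this 2

/-- the mean square (whole line) -/
def N (f : ℂ → ℂ) (x : ℝ) : ℝ := ∫ v : ℝ, ‖f ((x : ℂ) + (v : ℂ) * Complex.I)‖ ^ 2

theorem N_nonneg (f : ℂ → ℂ) (x : ℝ) : 0 ≤ N f x := integral_nonneg fun _ => by positivity

theorem N_shift (f : ℂ → ℂ) (s : ℂ) : ∫ v : ℝ, ‖f (s + (v : ℂ) * Complex.I)‖ ^ 2 = N f s.re := by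
  unfold N
  rw [← integral_add_left_eq_self (μ := volume)
    (fun v : ℝ => ‖f ((s.re : ℂ) + (v : ℂ) * Complex.I)‖ ^ 2) s.im]
  congr 1
  funext v
  congr 3
  conv_lhs => rw [← Complex.re_add_im s]
  push_cast
  ring

/-- the function `Ψ` -/
def Psi (f : ℂ → ℂ) (σ : ℝ) (s : ℂ) : ℂ :=
  ∫ v : ℝ, f (s + (v : ℂ) * Complex.I) * (starRingEnd ℂ) (f ((σ : ℂ) + (v : ℂ) * Complex.I))

section
variable {f : ℂ → ℂ} {l u σ B : ℝ}

theorem g_bd (hB : ∀ s : ℂ, l ≤ s.re → s.re ≤ u → ‖f s‖ ≤ B / (1 + s.im ^ 2)) (h1 : l ≤ σ)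
    (h2 : σ ≤ u) (v : ℝ) :
    ‖(starRingEnd ℂ) (f ((σ : ℂ) + (v : ℂ) * Complex.I))‖ ≤ B / (1 + v ^ 2) := by
  rw [RCLike.norm_conj]
  have := hB ((σ : ℂ) + (v : ℂ) * Complex.I) (by simpa using h1) (by simpa using h2)
  have h3 : ((σ : ℂ) + (v : ℂ) * Complex.I).im = v := by simp
  rwa [h3] at this

theorem psi_meas (hlu : l < u) (hf : DiffContOnCl ℂ f (Complex.re ⁻¹' Ioo l u)) (h1 : l ≤ σ)
    (h2 : σ ≤ u) {s : ℂ} (hs1 : l ≤ s.re) (hs2 : s.re ≤ u) :
    Continuous (fun v : ℝ => f (s + (v : ℂ) * Complex.I) *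
      (starRingEnd ℂ) (f ((σ : ℂ) + (v : ℂ) * Complex.I))) :=
  (shift_cont hlu hf hs1 hs2).mul (Complex.continuous_conj.comp (line_cont0 hlu hf h1 h2))

theorem re_shift (s : ℂ) (v : ℝ) : (s + (v : ℂ) * Complex.I).re = s.re := by simp

theorem psi_ptbd (hlu : l < u)
    (hB : ∀ s : ℂ, l ≤ s.re → s.re ≤ u → ‖f s‖ ≤ B / (1 + s.im ^ 2)) (h1 : l ≤ σ)
    (h2 : σ ≤ u) {s : ℂ} (hs1 : l ≤ s.re) (hs2 : s.re ≤ u) (v : ℝ) :
    ‖f (s + (v : ℂ) * Complex.I) * (starRingEnd ℂ) (f ((σ : ℂ) + (v : ℂ) * Complex.I))‖ ≤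
      B * (B / (1 + v ^ 2)) := by
  rw [norm_mul]
  refine mul_le_mul (bd hlu hB ?_ ?_) (g_bd hB h1 h2 v) (norm_nonneg _) (B_nonneg hlu hB)
  · rw [re_shift]; exact hs1
  · rw [re_shift]; exact hs2

theorem psi_cont (hlu : l < u) (hf : DiffContOnCl ℂ f (Complex.re ⁻¹' Ioo l u))
    (hB : ∀ s : ℂ, l ≤ s.re → s.re ≤ u → ‖f s‖ ≤ B / (1 + s.im ^ 2)) (h1 : l ≤ σ)
    (h2 : σ ≤ u) : ContinuousOn (Psi f σ) (Complex.re ⁻¹' Icc l u) := by
  unfold Psi
  refine continuousOn_of_dominated (bound := fun v => B * (B / (1 + v ^ 2)))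
    (fun s hs => (psi_meas hlu hf h1 h2 hs.1 hs.2).aestronglyMeasurable)
    (fun s hs => Eventually.of_forall fun v => psi_ptbd hlu hB h1 h2 hs.1 hs.2 v)
    ((int_den B).const_mul B) (Eventually.of_forall fun v => ?_)
  refine ContinuousOn.mul ?_ continuousOn_const
  have hc := hf.continuousOn
  rw [clo hlu] at hc
  refine hc.comp (by fun_prop) fun s hs => ?_
  simpa using hs

theorem psi_diff (hlu : l < u) (hf : DiffContOnCl ℂ f (Complex.re ⁻¹' Ioo l u))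
    (hB : ∀ s : ℂ, l ≤ s.re → s.re ≤ u → ‖f s‖ ≤ B / (1 + s.im ^ 2)) (h1 : l ≤ σ)
    (h2 : σ ≤ u) {s₀ : ℂ} (hs : s₀ ∈ Complex.re ⁻¹' Ioo l u) : DifferentiableAt ℂ (Psi f σ) s₀ := by
  have hopen : IsOpen (Complex.re ⁻¹' Ioo l u) := isOpen_Ioo.preimage Complex.continuous_re
  -- radius
  obtain ⟨ε, hε, hball⟩ := Metric.isOpen_iff.1 hopen s₀ hs
  set R : ℝ := ε / 2 with hR
  have hRpos : 0 < R := by positivity
  have hsub : ∀ x ∈ Metric.ball s₀ R, Metric.closedBall x (R / 2) ⊆ Complex.re ⁻¹' Ioo l u := by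
    intro x hx z hz
    apply hball
    rw [Metric.mem_ball] at hx ⊢
    rw [Metric.mem_closedBall] at hz
    calc dist z s₀ ≤ dist z x + dist x s₀ := dist_triangle _ _ _
      _ < ε := by linarith
  have hx0 : ∀ x ∈ Metric.ball s₀ R, x ∈ Complex.re ⁻¹' Ioo l u := fun x hx =>
    hsub x hx (Metric.mem_closedBall_self (by positivity))
  have hshiftmem : ∀ x ∈ Complex.re ⁻¹' Ioo l u, ∀ v : ℝ,
      x + (v : ℂ) * Complex.I ∈ Complex.re ⁻¹' Ioo l u := by
    intro x hx v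
    rw [mem_preimage, re_shift]
    exact hx
  have hda : ∀ z ∈ Complex.re ⁻¹' Ioo l u, DifferentiableAt ℂ f z := fun z hz =>
    hf.differentiableAt hopen hz
  have key := hasDerivAt_integral_of_dominated_loc_of_deriv_le (μ := (volume : Measure ℝ))
    (s := Metric.ball s₀ R) (x₀ := s₀)
    (F := fun (s : ℂ) (v : ℝ) => f (s + (v : ℂ) * Complex.I) *
      (starRingEnd ℂ) (f ((σ : ℂ) + (v : ℂ) * Complex.I)))
    (F' := fun (s : ℂ) (v : ℝ) => deriv f (s + (v : ℂ) * Complex.I) *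
      (starRingEnd ℂ) (f ((σ : ℂ) + (v : ℂ) * Complex.I)))
    (bound := fun v => (B / (R / 2)) * (B / (1 + v ^ 2)))
    (Metric.ball_mem_nhds s₀ hRpos) ?_ ?_ ?_ ?_ ((int_den B).const_mul _) ?_
  · exact key.2.differentiableAt
  · filter_upwards [Metric.ball_mem_nhds s₀ hRpos] with x hx
    have := hx0 x hx
    exact (psi_meas hlu hf h1 h2 this.1.le this.2.le).aestronglyMeasurable
  · have := hs
    refine ((int_den B).const_mul B).mono'
      (psi_meas hlu hf h1 h2 this.1.le this.2.le).aestronglyMeasurable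
      (Eventually.of_forall fun v => psi_ptbd hlu hB h1 h2 this.1.le this.2.le v)
  · -- measurability of the derivative
    have hd : ContinuousOn (deriv f) (Complex.re ⁻¹' Ioo l u) :=
      (hf.differentiableOn.deriv hopen).continuousOn
    have hc1 : Continuous (fun v : ℝ => deriv f (s₀ + (v : ℂ) * Complex.I)) :=
      hd.comp_continuous (by fun_prop) fun v => hshiftmem s₀ hs v
    exact (hc1.mul (Complex.continuous_conj.comp (line_cont0 hlu hf h1 h2))).aestronglyMeasurable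
  · refine Eventually.of_forall fun v x hx => ?_
    rw [norm_mul]
    have hsphere : ∀ z ∈ Metric.sphere (x + (v : ℂ) * Complex.I) (R / 2), ‖f z‖ ≤ B := by
      intro z hz
      have hz2 : z - (v : ℂ) * Complex.I ∈ Metric.closedBall x (R / 2) := by
        rw [Metric.mem_closedBall, dist_eq_norm]
        rw [Metric.mem_sphere, dist_eq_norm] at hz
        rw [← hz]
        apply le_of_eq
        congr 1
        ring
      have hz3 := hsub x hx hz2
      have hz4 : (z - (v : ℂ) * Complex.I).re = z.re := by simp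
      rw [mem_preimage, hz4] at hz3
      exact bd hlu hB hz3.1.le hz3.2.le
    have hdc : DiffContOnCl ℂ f (Metric.ball (x + (v : ℂ) * Complex.I) (R / 2)) := by
      apply DifferentiableOn.diffContOnCl
      intro z hz
      have hz' : z ∈ Metric.closedBall (x + (v : ℂ) * Complex.I) (R / 2) :=
        Metric.closure_ball_subset_closedBall hz
      have hz2 : z - (v : ℂ) * Complex.I ∈ Metric.closedBall x (R / 2) := by
        rw [Metric.mem_closedBall, dist_eq_norm] at hz' ⊢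
        refine le_trans (le_of_eq ?_) hz'
        congr 1
        ring
      have hz3 := hsub x hx hz2
      have hz4 : (z - (v : ℂ) * Complex.I).re = z.re := by simp
      rw [mem_preimage, hz4] at hz3
      exact (hda z hz3).differentiableWithinAt
    have hder := Complex.norm_deriv_le_of_forall_mem_sphere_norm_le (by positivity : 0 < R / 2)
      hdc hsphere
    exact mul_le_mul hder (g_bd hB h1 h2 v) (norm_nonneg _)
      (div_nonneg (B_nonneg hlu hB) (by positivity))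
  · refine Eventually.of_forall fun v x hx => ?_
    have h3 : HasDerivAt f (deriv f (x + (v : ℂ) * Complex.I)) (x + (v : ℂ) * Complex.I) :=
      (hda _ (hshiftmem x (hx0 x hx) v)).hasDerivAt
    have h4 : HasDerivAt (fun s : ℂ => f (s + (v : ℂ) * Complex.I))
        (deriv f (x + (v : ℂ) * Complex.I)) x := by
      have := h3.comp_add_const x ((v : ℂ) * Complex.I)
      exact this
    exact h4.mul_const _

theorem psi_cs (hlu : l < u) (hf : DiffContOnCl ℂ f (Complex.re ⁻¹' Ioo l u))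
    (hB : ∀ s : ℂ, l ≤ s.re → s.re ≤ u → ‖f s‖ ≤ B / (1 + s.im ^ 2)) (h1 : l ≤ σ)
    (h2 : σ ≤ u) {s : ℂ} (hs1 : l ≤ s.re) (hs2 : s.re ≤ u) :
    ‖Psi f σ s‖ ≤ N f s.re ^ (1 / 2 : ℝ) * N f σ ^ (1 / 2 : ℝ) := by
  have hsq1 : Integrable (fun v : ℝ => ‖f (s + (v : ℂ) * Complex.I)‖ ^ 2) := by
    have h := (sq_int hlu hf hB hs1 hs2).comp_add_left s.im
    refine h.congr (Eventually.of_forall fun v => ?_)
    simp only
    congr 3
    conv_rhs => rw [← Complex.re_add_im s]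
    push_cast
    ring
  have hm1 : MemLp (fun v : ℝ => ‖f (s + (v : ℂ) * Complex.I)‖) 2 :=
    (memLp_two_iff_integrable_sq (shift_cont hlu hf hs1 hs2).norm.aestronglyMeasurable).2 hsq1
  have hm2 : MemLp (fun v : ℝ => ‖f ((σ : ℂ) + (v : ℂ) * Complex.I)‖) 2 :=
    (memLp_two_iff_integrable_sq (line_cont0 hlu hf h1 h2).norm.aestronglyMeasurable).2
      (sq_int hlu hf hB h1 h2)
  have h := integral_mul_le_Lp_mul_Lq_of_nonneg (μ := (volume : Measure ℝ))
    (p := 2) (q := 2) Real.HolderConjugate.two_two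
    (f := fun v : ℝ => ‖f (s + (v : ℂ) * Complex.I)‖)
    (g := fun v : ℝ => ‖f ((σ : ℂ) + (v : ℂ) * Complex.I)‖)
    (Eventually.of_forall fun v => norm_nonneg _) (Eventually.of_forall fun v => norm_nonneg _)
    (by simpa using hm1) (by simpa using hm2)
  have e1 : ∫ v : ℝ, ‖f (s + (v : ℂ) * Complex.I)‖ ^ (2 : ℝ) = N f s.re := by
    rw [← N_shift]
    congr 1
    funext v
    norm_cast
  have e2 : ∫ v : ℝ, ‖f ((σ : ℂ) + (v : ℂ) * Complex.I)‖ ^ (2 : ℝ) = N f σ := by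
    unfold N
    congr 1
    funext v
    norm_cast
  rw [e1, e2] at h
  refine le_trans ?_ h
  unfold Psi
  refine (norm_integral_le_integral_norm _).trans (le_of_eq ?_)
  congr 1
  funext v
  rw [norm_mul, RCLike.norm_conj]

theorem psi_self (f : ℂ → ℂ) (σ : ℝ) : Psi f σ σ = (N f σ : ℂ) := by
  unfold Psi N
  rw [← integral_complex_ofReal]
  congr 1
  funext v
  rw [Complex.mul_conj, Complex.normSq_eq_norm_sq]

theorem main (hlu : l < u) (hf : DiffContOnCl ℂ f (Complex.re ⁻¹' Ioo l u))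
    (hB : ∀ s : ℂ, l ≤ s.re → s.re ≤ u → ‖f s‖ ≤ B / (1 + s.im ^ 2)) (h1 : l ≤ σ)
    (h2 : σ ≤ u) :
    N f σ ≤ N f l ^ (1 - (σ - l) / (u - l) : ℝ) * N f u ^ ((σ - l) / (u - l) : ℝ) := by
  have hmem : (σ : ℂ) ∈ Complex.HadamardThreeLines.verticalClosedStrip l u := by
    simp only [Complex.HadamardThreeLines.verticalClosedStrip, mem_preimage, Complex.ofReal_re]
    exact ⟨h1, h2⟩
  have hd : DiffContOnCl ℂ (Psi f σ) (Complex.HadamardThreeLines.verticalStrip l u) := by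
    refine ⟨fun s hs => (psi_diff hlu hf hB h1 h2 hs).differentiableWithinAt, ?_⟩
    show ContinuousOn (Psi f σ) (closure (Complex.re ⁻¹' Ioo l u))
    rw [clo hlu]
    exact psi_cont hlu hf hB h1 h2
  have hBdd : BddAbove ((norm ∘ Psi f σ) '' Complex.HadamardThreeLines.verticalClosedStrip l u) := by
    refine ⟨∫ v : ℝ, B * (B / (1 + v ^ 2)), ?_⟩
    rintro _ ⟨s, hs, rfl⟩
    exact norm_integral_le_of_norm_le ((int_den B).const_mul B)
      (Eventually.of_forall fun v => psi_ptbd hlu hB h1 h2 hs.1 hs.2 v)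
  have h3 := Complex.HadamardThreeLines.norm_le_interp_of_mem_verticalClosedStrip'
    (f := Psi f σ) (z := (σ : ℂ)) (a := N f l ^ (1 / 2 : ℝ) * N f σ ^ (1 / 2 : ℝ))
    (b := N f u ^ (1 / 2 : ℝ) * N f σ ^ (1 / 2 : ℝ)) hlu hmem hd hBdd
    (fun s hs => by
      have : s.re = l := hs
      have h := psi_cs hlu hf hB h1 h2 (s := s) this.ge (by rw [this]; exact hlu.le)
      rwa [this] at h)
    (fun s hs => by
      have : s.re = u := hs
      have h := psi_cs hlu hf hB h1 h2 (s := s) (by rw [this]; exact hlu.le) this.le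
      rwa [this] at h)
  rw [psi_self, Complex.norm_real, Real.norm_eq_abs, abs_of_nonneg (N_nonneg f σ),
    Complex.ofReal_re] at h3
  set θ : ℝ := (σ - l) / (u - l) with hθ
  have hθ0 : 0 ≤ θ := div_nonneg (by linarith) (by linarith)
  have hθ1 : θ ≤ 1 := (div_le_one (by linarith)).2 (by linarith)
  have hNl := N_nonneg f l
  have hNu := N_nonneg f u
  have hNs := N_nonneg f σ
  have hS : 0 ≤ N f σ ^ (1 / 2 : ℝ) := Real.rpow_nonneg hNs _
  have hA : 0 ≤ N f l ^ (1 / 2 : ℝ) := Real.rpow_nonneg hNl _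
  have hU : 0 ≤ N f u ^ (1 / 2 : ℝ) := Real.rpow_nonneg hNu _
  rw [Real.mul_rpow hA hS, Real.mul_rpow hU hS] at h3
  rcases hNs.eq_or_lt with h0 | hpos
  · rw [← h0]
    exact mul_nonneg (Real.rpow_nonneg hNl _) (Real.rpow_nonneg hNu _)
  have hSpos : 0 < N f σ ^ (1 / 2 : ℝ) := Real.rpow_pos_of_pos hpos _
  have e1 : (N f l ^ (1 / 2 : ℝ)) ^ (1 - θ) * (N f σ ^ (1 / 2 : ℝ)) ^ (1 - θ) *
      ((N f u ^ (1 / 2 : ℝ)) ^ θ * (N f σ ^ (1 / 2 : ℝ)) ^ θ) =
      (N f l ^ (1 - θ) * N f u ^ θ) ^ (1 / 2 : ℝ) * N f σ ^ (1 / 2 : ℝ) := by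
    have e2 : (N f σ ^ (1 / 2 : ℝ)) ^ (1 - θ) * (N f σ ^ (1 / 2 : ℝ)) ^ θ =
        N f σ ^ (1 / 2 : ℝ) := by
      rw [← Real.rpow_add hSpos]
      simp
    have e3 : (N f l ^ (1 / 2 : ℝ)) ^ (1 - θ) = (N f l ^ (1 - θ)) ^ (1 / 2 : ℝ) := by
      rw [← Real.rpow_mul hNl, ← Real.rpow_mul hNl, mul_comm]
    have e4 : (N f u ^ (1 / 2 : ℝ)) ^ θ = (N f u ^ θ) ^ (1 / 2 : ℝ) := by
      rw [← Real.rpow_mul hNu, ← Real.rpow_mul hNu, mul_comm]
    rw [Real.mul_rpow (Real.rpow_nonneg hNl _) (Real.rpow_nonneg hNu _), ← e3, ← e4]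
    calc _ = (N f l ^ (1 / 2 : ℝ)) ^ (1 - θ) * (N f u ^ (1 / 2 : ℝ)) ^ θ *
          ((N f σ ^ (1 / 2 : ℝ)) ^ (1 - θ) * (N f σ ^ (1 / 2 : ℝ)) ^ θ) := by ring
      _ = _ := by rw [e2]
  rw [e1] at h3
  have e5 : N f σ = N f σ ^ (1 / 2 : ℝ) * N f σ ^ (1 / 2 : ℝ) := by
    rw [← Real.rpow_add hpos]
    norm_num
  have h6 : N f σ ^ (1 / 2 : ℝ) ≤ (N f l ^ (1 - θ) * N f u ^ θ) ^ (1 / 2 : ℝ) := by
    rw [e5] at h3
    have : N f σ ^ (1 / 2 : ℝ) * N f σ ^ (1 / 2 : ℝ) ≤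
        (N f l ^ (1 - θ) * N f u ^ θ) ^ (1 / 2 : ℝ) * N f σ ^ (1 / 2 : ℝ) := by
      have e6 : (N f σ ^ (1 / 2 : ℝ) * N f σ ^ (1 / 2 : ℝ)) ^ (1 / 2 : ℝ) =
          N f σ ^ (1 / 2 : ℝ) := by rw [← e5]
      rw [e6] at h3
      exact h3
    exact le_of_mul_le_mul_right this hSpos
  exact (Real.rpow_le_rpow_iff hNs (mul_nonneg (Real.rpow_nonneg hNl _) (Real.rpow_nonneg hNu _))
    (by norm_num)).1 h6

end

end G1a

/-- **G1a.** -/
theorem iG1a : S_G1a := by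
  intro f l u σ B hlu h1 h2 hf hB
  have conv : ∀ x : ℝ, l ≤ x → x ≤ u →
      ∫⁻ v : ℝ, ENNReal.ofReal (‖f ((x : ℂ) + (v : ℂ) * Complex.I)‖ ^ 2) =
        ENNReal.ofReal (G1a.N f x) := by
    intro x hx1 hx2
    unfold G1a.N
    rw [ofReal_integral_eq_lintegral_ofReal (G1a.sq_int hlu hf hB hx1 hx2)
      (Eventually.of_forall fun v => by positivity)]
  rw [conv σ h1 h2, conv l le_rfl hlu.le, conv u hlu.le le_rfl]
  have hθ0 : 0 ≤ (σ - l) / (u - l) := div_nonneg (by linarith) (by linarith)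
  have hθ1 : (σ - l) / (u - l) ≤ 1 := (div_le_one (by linarith)).2 (by linarith)
  rw [ENNReal.ofReal_rpow_of_nonneg (G1a.N_nonneg f l) (by linarith),
    ENNReal.ofReal_rpow_of_nonneg (G1a.N_nonneg f u) hθ0,
    ← ENNReal.ofReal_mul (Real.rpow_nonneg (G1a.N_nonneg f l) _)]
  exact ENNReal.ofReal_le_ofReal (G1a.main hlu hf hB h1 h2)

end Pool.Agent.Work.MP_56b8f5_nt.HZG
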