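import Pool.Agent.Work.MP_56b8f5_nt.HZ.StmtsA

/-!
MP_56b8f5_nt, block HZ: item GrL (the functions `Le`, `Qe`, `De` and real parts of analytic functions).
-/

set_option autoImplicit false

open MeasureTheory Set Filter Topology

noncomputable section

namespace Pool.Agent.Work.MP_56b8f5_nt.HZ

open Pool.Agent.Work.MP_56b8f5_nt.EM Pool.Agent.Work.MP_56b8f5_nt.WM Pool.Agent.Work.MP_56b8f5_nt.SH

namespace I_GrL

lemma pos {ε : ℝ} (hε : 0 < ε) (z : ℂ) : 0 < ‖z‖ ^ 2 + ε ^ 2 := by positivity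

lemma le_smooth {ε : ℝ} (hε : 0 < ε) : ContDiff ℝ 2 (Le ε) := by
  unfold Le
  exact (((contDiff_norm_sq ℝ).add contDiff_const).log fun z => (pos hε z).ne').div_const 2

lemma le_line {ε : ℝ} (hε : 0 < ε) (z h : ℂ) : lineDeriv ℝ (Le ε) z h = (Qe ε z * h).re := by
  have h1 : HasFDerivAt (fun w : ℂ => ‖w‖ ^ 2) (2 • innerSL ℝ z) z :=
    (hasStrictFDerivAt_norm_sq z).hasFDerivAt
  have h2 := (h1.add_const (ε ^ 2)).log (pos hε z).ne'
  have h3 : HasFDerivAt (Le ε) ((1 / 2 : ℝ) • ((‖z‖ ^ 2 + ε ^ 2)⁻¹ • (2 • innerSL ℝ z))) z := by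
    refine (h2.const_smul (1 / 2 : ℝ)).congr_of_eventuallyEq (Eventually.of_forall fun w => ?_)
    show Le ε w = (1 / 2 : ℝ) * Real.log (‖w‖ ^ 2 + ε ^ 2)
    unfold Le
    ring
  rw [(h3.hasLineDerivAt h).lineDeriv]
  have h4 : (innerSL ℝ z) h = ((starRingEnd ℂ) z * h).re := by
    rw [innerSL_apply_apply, Complex.inner, mul_comm]
  have h5 : (Qe ε z * h).re = ((starRingEnd ℂ) z * h).re / (‖z‖ ^ 2 + ε ^ 2) := by
    unfold Qe
    rw [← mul_div_right_comm, Complex.div_ofReal_re]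
  simp only [smul_apply, h4, smul_eq_mul, nsmul_eq_mul, Nat.cast_ofNat]
  rw [h5]
  ring

lemma qe_one (ε : ℝ) (z : ℂ) : (Qe ε z * 1).re = z.re / (z.re ^ 2 + z.im ^ 2 + ε ^ 2) := by
  unfold Qe
  rw [mul_one, Complex.div_ofReal_re, Complex.conj_re, Complex.sq_norm, Complex.normSq_apply]
  ring

lemma qe_I (ε : ℝ) (z : ℂ) : (Qe ε z * Complex.I).re = z.im / (z.re ^ 2 + z.im ^ 2 + ε ^ 2) := by
  unfold Qe
  rw [Complex.mul_I_re, Complex.div_ofReal_im, Complex.conj_im, Complex.sq_norm,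
    Complex.normSq_apply]
  ring

lemma der (a b : ℝ) (hb : 0 < a ^ 2 + b) :
    HasDerivAt (fun t : ℝ => (a + t) / ((a + t) ^ 2 + b)) ((b - a ^ 2) / (a ^ 2 + b) ^ 2) 0 := by
  have h1 : HasDerivAt (fun t : ℝ => a + t) 1 0 := (hasDerivAt_id (0 : ℝ)).const_add a
  have h2 : HasDerivAt (fun t : ℝ => (a + t) ^ 2 + b) (2 * (a + 0) ^ 1 * 1) 0 := by
    simpa using (h1.pow 2).add_const b
  have h3 := h1.div h2 (by simpa using hb.ne')
  have h4 : (1 * ((a + 0) ^ 2 + b) - (a + 0) * (2 * (a + 0) ^ 1 * 1)) / ((a + 0) ^ 2 + b) ^ 2 =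
      (b - a ^ 2) / (a ^ 2 + b) ^ 2 := by
    rw [add_zero]
    congr 1
    ring
  rw [h4] at h3
  exact h3

lemma le_L2 {ε : ℝ} (hε : 0 < ε) (z : ℂ) : L2 (Le ε) z = De ε z := by
  unfold L2
  simp only [le_line hε, qe_one, qe_I]
  have hp : 0 < z.re ^ 2 + z.im ^ 2 + ε ^ 2 := by positivity
  have h1 : lineDeriv ℝ (fun w : ℂ => w.re / (w.re ^ 2 + w.im ^ 2 + ε ^ 2)) z 1 =
      ((z.im ^ 2 + ε ^ 2) - z.re ^ 2) / (z.re ^ 2 + (z.im ^ 2 + ε ^ 2)) ^ 2 := by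
    unfold lineDeriv
    refine (HasDerivAt.congr_deriv ?_ rfl).deriv
    refine (der z.re (z.im ^ 2 + ε ^ 2) (by rw [← add_assoc]; exact hp)).congr_of_eventuallyEq
      (Eventually.of_forall fun t => ?_)
    simp [add_assoc]
  have h2 : lineDeriv ℝ (fun w : ℂ => w.im / (w.re ^ 2 + w.im ^ 2 + ε ^ 2)) z Complex.I =
      ((z.re ^ 2 + ε ^ 2) - z.im ^ 2) / (z.im ^ 2 + (z.re ^ 2 + ε ^ 2)) ^ 2 := by
    unfold lineDeriv
    refine (HasDerivAt.congr_deriv ?_ rfl).deriv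
    refine (der z.im (z.re ^ 2 + ε ^ 2) (by nlinarith)).congr_of_eventuallyEq
      (Eventually.of_forall fun t => ?_)
    simp only [Complex.add_im, Complex.add_re, Complex.smul_re, Complex.smul_im, Complex.I_re,
      Complex.I_im, smul_eq_mul, mul_zero, mul_one, add_zero]
    congr 1
    ring
  rw [h1, h2]
  unfold De
  rw [Complex.sq_norm, Complex.normSq_apply]
  have e1 : z.re ^ 2 + (z.im ^ 2 + ε ^ 2) = z.re * z.re + z.im * z.im + ε ^ 2 := by ring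
  have e2 : z.im ^ 2 + (z.re ^ 2 + ε ^ 2) = z.re * z.re + z.im * z.im + ε ^ 2 := by ring
  rw [e1, e2, ← add_div]
  congr 1
  ring

lemma tend {z : ℂ} (hz : z ≠ 0) : Tendsto (fun ε : ℝ => Le ε z) (𝓝[>] 0) (𝓝 (Real.log ‖z‖)) ∧
    Tendsto (fun ε : ℝ => Qe ε z) (𝓝[>] 0) (𝓝 (1 / z)) := by
  have hz' : 0 < ‖z‖ := norm_pos_iff.2 hz
  have h0 : Tendsto (fun ε : ℝ => ‖z‖ ^ 2 + ε ^ 2) (𝓝[>] 0) (𝓝 (‖z‖ ^ 2)) := by
    have : Tendsto (fun ε : ℝ => ‖z‖ ^ 2 + ε ^ 2) (𝓝 0) (𝓝 (‖z‖ ^ 2 + 0 ^ 2)) :=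
      (continuous_const.add (continuous_pow 2)).tendsto 0
    simpa using this.mono_left nhdsWithin_le_nhds
  constructor
  · have h1 := (h0.log (by positivity)).div_const 2
    have h2 : Real.log (‖z‖ ^ 2) / 2 = Real.log ‖z‖ := by
      rw [Real.log_pow]
      push_cast
      ring
    rw [h2] at h1
    exact h1
  · have h1 : Tendsto (fun ε : ℝ => ((‖z‖ ^ 2 + ε ^ 2 : ℝ) : ℂ)) (𝓝[>] 0)
        (𝓝 ((‖z‖ ^ 2 : ℝ) : ℂ)) := (Complex.continuous_ofReal.tendsto _).comp h0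
    have h2 : ((‖z‖ ^ 2 : ℝ) : ℂ) ≠ 0 := by
      exact_mod_cast (by positivity : (‖z‖ ^ 2 : ℝ) ≠ 0)
    have h3 := (tendsto_const_nhds (x := (starRingEnd ℂ) z)).div h1 h2
    have h4 : (starRingEnd ℂ) z / ((‖z‖ ^ 2 : ℝ) : ℂ) = 1 / z := by
      rw [div_eq_div_iff h2 hz, one_mul, mul_comm, Complex.mul_conj, Complex.normSq_eq_norm_sq]
    rw [h4] at h3
    exact h3

lemma bd {ε : ℝ} {z : ℂ} (hε : 0 < ε) (h1 : ε ≤ 1) (hz : z ≠ 0) :
    |Le ε z| ≤ |Real.log ‖z‖| + Real.log (‖z‖ ^ 2 + 1) ∧ ‖Qe ε z‖ ≤ 1 / ‖z‖ := by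
  have hz' : 0 < ‖z‖ := norm_pos_iff.2 hz
  have hp := pos hε z
  constructor
  · have h2 : Real.log ‖z‖ ≤ Le ε z := by
      unfold Le
      have h3 : Real.log (‖z‖ ^ 2) ≤ Real.log (‖z‖ ^ 2 + ε ^ 2) :=
        Real.log_le_log (by positivity) (by nlinarith [sq_nonneg ε])
      rw [Real.log_pow] at h3
      push_cast at h3
      linarith
    have h4 : Le ε z ≤ Real.log (‖z‖ ^ 2 + 1) / 2 := by
      unfold Le
      have h3 : Real.log (‖z‖ ^ 2 + ε ^ 2) ≤ Real.log (‖z‖ ^ 2 + 1) :=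
        Real.log_le_log hp (by nlinarith)
      linarith
    have h5 : 0 ≤ Real.log (‖z‖ ^ 2 + 1) := Real.log_nonneg (by nlinarith [sq_nonneg ‖z‖])
    rw [abs_le]
    constructor
    · linarith [neg_abs_le (Real.log ‖z‖)]
    · linarith [abs_nonneg (Real.log ‖z‖)]
  · unfold Qe
    rw [norm_div, RCLike.norm_conj, Complex.norm_real, Real.norm_of_nonneg hp.le,
      div_le_div_iff₀ hp hz']
    nlinarith [sq_nonneg ε]

lemma re_line {U : Set ℂ} {H : ℂ → ℂ} (hU : IsOpen U) (hH : DifferentiableOn ℂ H U) {z : ℂ}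
    (hz : z ∈ U) (h : ℂ) : lineDeriv ℝ (fun z => (H z).re) z h = (deriv H z * h).re := by
  have h1 : HasDerivAt H (deriv H z) z := (hH.differentiableAt (hU.mem_nhds hz)).hasDerivAt
  have h2 : HasDerivAt (fun t : ℝ => z + t • h) h 0 := by
    simpa using ((hasDerivAt_id (0 : ℝ)).smul_const h).const_add z
  have h3 : HasDerivAt (fun t : ℝ => H (z + t • h)) (h • deriv H z) 0 := by
    refine HasDerivAt.scomp (g₁ := H) (h := fun t : ℝ => z + t • h) (x := (0 : ℝ)) ?_ h2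
    simpa using h1
  have h4 := Complex.reCLM.hasFDerivAt.comp_hasDerivAt (0 : ℝ) h3
  unfold lineDeriv
  rw [mul_comm]
  exact h4.deriv

lemma re_all {U : Set ℂ} {H : ℂ → ℂ} (hU : IsOpen U) (hH : DifferentiableOn ℂ H U) :
    ContDiffOn ℝ 2 (fun z => (H z).re) U ∧
    (∀ z ∈ U, ∀ h : ℂ, lineDeriv ℝ (fun z => (H z).re) z h = (deriv H z * h).re) ∧
    ∀ z ∈ U, L2 (fun z => (H z).re) z = 0 := by
  refine ⟨?_, fun z hz h => re_line hU hH hz h, ?_⟩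
  · exact Complex.reCLM.contDiff.comp_contDiffOn ((hH.contDiffOn hU).restrict_scalars ℝ)
  · intro z hz
    have h1 : ∀ h : ℂ, lineDeriv ℝ (fun w => lineDeriv ℝ (fun z => (H z).re) w h) z h =
        (deriv (deriv H) z * h * h).re := by
      intro h
      have h2 : (fun w => lineDeriv ℝ (fun z => (H z).re) w h) =ᶠ[𝓝 z]
          fun w => (deriv H w * h).re :=
        Filter.eventuallyEq_of_mem (hU.mem_nhds hz) fun w hw => re_line hU hH hw h
      rw [h2.lineDeriv_eq]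
      have h3 : DifferentiableOn ℂ (deriv H) U := hH.deriv hU
      have h4 : DifferentiableOn ℂ (fun w => deriv H w * h) U := h3.mul_const h
      rw [re_line hU h4 hz h, deriv_mul_const (h3.differentiableAt (hU.mem_nhds hz))]
    unfold L2
    rw [h1, h1]
    simp

end I_GrL

open I_GrL in
theorem GrL_pf : S_GrL :=
  ⟨fun _ hε => ⟨le_smooth hε, le_line hε, le_L2 hε⟩, fun _ hz => tend hz,
    fun _ _ hε h1 hz => bd hε h1 hz, fun _ _ hU hH => re_all hU hH⟩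

end Pool.Agent.Work.MP_56b8f5_nt.HZ
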