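import Pool.Agent.Work.MP_56b8f5_nt.HZ.StmtsA

/-!
Block HZ, part (a), item Kkt: bounds of `kt`, facts on `kk`.
-/

set_option autoImplicit false

open MeasureTheory Set Filter Topology

noncomputable section

namespace Pool.Agent.Work.MP_56b8f5_nt.HZ

open Pool.Agent.Work.MP_56b8f5_nt.EM Pool.Agent.Work.MP_56b8f5_nt.WM Pool.Agent.Work.MP_56b8f5_nt.SH

namespace I_Kkt

/-- Smooth functions supported in `[1/4, 3/4]`. -/
def Sm (φ : ℝ → ℂ) : Prop :=
  ContDiff ℝ ((⊤ : ℕ∞) : WithTop ℕ∞) φ ∧ ∀ x, φ x ≠ 0 → 1 / 4 ≤ x ∧ x ≤ 3 / 4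

lemma Sm.tsupport {φ : ℝ → ℂ} (h : Sm φ) : tsupport φ ⊆ Icc (1 / 4) (3 / 4) :=
  closure_minimal (fun x hx => h.2 x hx) isClosed_Icc

lemma Sm.hcs {φ : ℝ → ℂ} (h : Sm φ) : HasCompactSupport φ :=
  isCompact_Icc.of_isClosed_subset (isClosed_tsupport φ) h.tsupport

lemma Sm.deriv {φ : ℝ → ℂ} (h : Sm φ) : Sm (deriv φ) := by
  refine ⟨?_, ?_⟩
  · have h1 : ContDiff ℝ (((⊤ : ℕ∞) : WithTop ℕ∞) + 1) φ := h.1
    exact (contDiff_succ_iff_deriv.1 h1).2.2
  · intro x hx
    have h2 : x ∈ Function.support (_root_.deriv φ) := hx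
    exact h.tsupport (support_deriv_subset h2)

lemma Sm.diff {φ : ℝ → ℂ} (h : Sm φ) : Differentiable ℝ φ :=
  h.1.differentiable (by simp)

lemma cont_exp (w : ℂ) : Continuous fun τ : ℝ => Complex.exp (τ * w) :=
  Complex.continuous_exp.comp (Complex.continuous_ofReal.mul continuous_const)

lemma Sm.integrable {φ : ℝ → ℂ} (h : Sm φ) (w : ℂ) :
    Integrable fun τ : ℝ => φ τ * Complex.exp (τ * w) :=
  (h.1.continuous.mul (cont_exp w)).integrable_of_hasCompactSupport h.hcs.mul_right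

lemma exp_le {τ u : ℝ} (h0 : 0 ≤ τ) (h1 : τ ≤ 1) : Real.exp (τ * u) ≤ 1 + Real.exp u := by
  rcases le_total 0 u with hu | hu
  · have : τ * u ≤ u := by nlinarith
    have := Real.exp_le_exp.2 this
    linarith
  · have : τ * u ≤ 0 := mul_nonpos_of_nonneg_of_nonpos h0 hu
    have h2 := Real.exp_le_exp.2 this
    rw [Real.exp_zero] at h2
    have := Real.exp_pos u
    linarith

lemma base {φ : ℝ → ℂ} (h : Sm φ) (w : ℂ) :
    ‖∫ τ : ℝ, φ τ * Complex.exp (τ * w)‖ ≤ (∫ τ : ℝ, ‖φ τ‖) * (1 + Real.exp w.re) := by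
  have h1 : Integrable fun τ : ℝ => ‖φ τ‖ * (1 + Real.exp w.re) :=
    ((h.1.continuous.integrable_of_hasCompactSupport h.hcs).norm).mul_const _
  have h2 : ‖∫ τ : ℝ, φ τ * Complex.exp (τ * w)‖ ≤ ∫ τ : ℝ, ‖φ τ‖ * (1 + Real.exp w.re) := by
    refine norm_integral_le_of_norm_le h1 (Eventually.of_forall fun τ => ?_)
    rw [norm_mul]
    by_cases h0 : φ τ = 0
    · rw [h0]; simp
    · obtain ⟨h3, h4⟩ := h.2 τ h0
      refine mul_le_mul_of_nonneg_left ?_ (norm_nonneg _)
      rw [Complex.norm_exp, Complex.re_ofReal_mul]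
      exact exp_le (by linarith) (by linarith)
  rwa [integral_mul_const] at h2

lemma parts {φ : ℝ → ℂ} (h : Sm φ) (w : ℂ) :
    w * ∫ τ : ℝ, φ τ * Complex.exp (τ * w) =
      -∫ τ : ℝ, deriv φ τ * Complex.exp (τ * w) := by
  have hv : ∀ τ : ℝ, HasDerivAt (fun τ : ℝ => Complex.exp (τ * w)) (w * Complex.exp (τ * w)) τ := by
    intro τ
    have h1 : HasDerivAt (fun τ : ℝ => (τ : ℂ) * w) w τ := by
      have := (Complex.ofRealCLM.hasDerivAt (x := τ)).mul_const w
      simpa using this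
    have h2 := h1.cexp
    rwa [mul_comm] at h2
  have h3 : Integrable ((fun τ : ℝ => φ τ) * fun τ : ℝ => w * Complex.exp (τ * w)) := by
    have := (h.integrable w).const_mul w
    refine this.congr (Eventually.of_forall fun τ => ?_)
    simp only [Pi.mul_apply]
    ring
  have h4 := integral_mul_deriv_eq_deriv_mul_of_integrable (u := φ)
    (v := fun τ : ℝ => Complex.exp (τ * w)) (u' := deriv φ)
    (v' := fun τ : ℝ => w * Complex.exp (τ * w)) (fun x _ => (h.diff x).hasDerivAt) (fun x _ => hv x) h3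
    (h.deriv.integrable w) (h.integrable w)
  rw [← h4, ← integral_const_mul]
  refine integral_congr_ae (Eventually.of_forall fun τ => ?_)
  ring

lemma bound (N : ℕ) : ∀ φ : ℝ → ℂ, Sm φ → ∃ C : ℝ, 0 ≤ C ∧ ∀ w : ℂ,
    ‖w‖ ^ N * ‖∫ τ : ℝ, φ τ * Complex.exp (τ * w)‖ ≤ C * (1 + Real.exp w.re) := by
  induction N with
  | zero =>
    intro φ h
    refine ⟨∫ τ : ℝ, ‖φ τ‖, integral_nonneg fun _ => norm_nonneg _, fun w => ?_⟩
    rw [pow_zero, one_mul]
    exact base h w
  | succ N ih =>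
    intro φ h
    obtain ⟨C, hC, hb⟩ := ih (deriv φ) h.deriv
    refine ⟨C, hC, fun w => ?_⟩
    have h1 := hb w
    have h2 := congrArg norm (parts h w)
    rw [norm_mul, norm_neg] at h2
    rw [pow_succ, mul_assoc, h2]
    exact h1

end I_Kkt

open I_Kkt in
/-- Item Kkt. -/
theorem Kkt_pf : S_Kkt := by
  intro κ hκ
  have hcont : Continuous κ := hκ.smooth.continuous
  have hts : tsupport κ ⊆ Icc (1 / 4) (3 / 4) :=
    closure_minimal (fun x hx => hκ.supp x hx) isClosed_Icc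
  have hcs : HasCompactSupport κ :=
    isCompact_Icc.of_isClosed_subset (isClosed_tsupport κ) hts
  have hint : Integrable κ := hcont.integrable_of_hasCompactSupport hcs
  have hSm : Sm (fun τ => (κ τ : ℂ)) :=
    ⟨Complex.ofRealCLM.contDiff.comp hκ.smooth, fun x hx => hκ.supp x (by
      intro h0; exact hx (by simp [h0]))⟩
  refine ⟨?_, ?_, ?_, ?_, ?_⟩
  · intro w₀
    have hs : Metric.ball w₀ 1 ∈ 𝓝 w₀ := Metric.ball_mem_nhds w₀ one_pos
    have hb : Integrable fun τ : ℝ => κ τ * Real.exp (‖w₀‖ + 1) := hint.mul_const _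
    have hd : ∀ (τ : ℝ) (w : ℂ), HasDerivAt (fun w : ℂ => (κ τ : ℂ) * Complex.exp (τ * w))
        ((κ τ : ℂ) * (τ * Complex.exp (τ * w))) w := by
      intro τ w
      have h1 : HasDerivAt (fun w : ℂ => (τ : ℂ) * w) (τ : ℂ) w := by
        simpa using (hasDerivAt_id w).const_mul (τ : ℂ)
      have h2 := h1.cexp.const_mul (κ τ : ℂ)
      rwa [mul_comm (Complex.exp _)] at h2
    have key := hasDerivAt_integral_of_dominated_loc_of_deriv_le (μ := volume)
      (F := fun (w : ℂ) (τ : ℝ) => (κ τ : ℂ) * Complex.exp (τ * w))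
      (F' := fun (w : ℂ) (τ : ℝ) => (κ τ : ℂ) * (τ * Complex.exp (τ * w)))
      (x₀ := w₀) (s := Metric.ball w₀ 1) (bound := fun τ => κ τ * Real.exp (‖w₀‖ + 1)) hs
      (Eventually.of_forall fun w => (hSm.integrable w).aestronglyMeasurable)
      (hSm.integrable w₀)
      (((Complex.continuous_ofReal.comp hcont).mul
        (Complex.continuous_ofReal.mul (cont_exp w₀))).aestronglyMeasurable)
      (Eventually.of_forall fun τ w hw => by
        rw [norm_mul, norm_mul, Complex.norm_real, Complex.norm_real,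
          Real.norm_of_nonneg (hκ.nonneg τ), Complex.norm_exp, Complex.re_ofReal_mul]
        by_cases h0 : κ τ = 0
        · rw [h0]; simp
        · obtain ⟨h3, h4⟩ := hκ.supp τ h0
          refine mul_le_mul_of_nonneg_left ?_ (hκ.nonneg τ)
          rw [Real.norm_of_nonneg (by linarith : (0 : ℝ) ≤ τ)]
          have h5 : ‖w‖ ≤ ‖w₀‖ + 1 := by
            have h6 : ‖w - w₀‖ < 1 := by
              rw [← dist_eq_norm]; exact hw
            have h7 := norm_le_norm_add_norm_sub' w w₀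
            linarith
          have h8 : τ * w.re ≤ ‖w₀‖ + 1 := by
            have h9 : w.re ≤ ‖w‖ := Complex.re_le_norm w
            have h10 : 0 ≤ ‖w₀‖ := norm_nonneg _
            nlinarith [norm_nonneg w]
          calc τ * Real.exp (τ * w.re) ≤ 1 * Real.exp (‖w₀‖ + 1) :=
                mul_le_mul (by linarith) (Real.exp_le_exp.2 h8) (Real.exp_pos _).le zero_le_one
            _ = _ := one_mul _)
      hb (Eventually.of_forall fun τ w _ => hd τ w)
    exact key.2.differentiableAt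
  · intro N
    obtain ⟨C, hC, hb⟩ := bound N _ hSm
    obtain ⟨C', hC', hb'⟩ := bound 0 _ hSm
    refine ⟨2 ^ N * (C + C') + 1, ?_, fun w => ?_⟩
    · have : 0 ≤ (2 : ℝ) ^ N * (C + C') := by positivity
      linarith
    · have h1 := hb w
      have h2 := hb' w
      rw [pow_zero, one_mul] at h2
      change ‖w‖ ^ N * ‖kt κ w‖ ≤ _ at h1
      change ‖kt κ w‖ ≤ _ at h2
      have h3 : (1 + ‖w‖) ^ N ≤ 2 ^ N * (1 + ‖w‖ ^ N) := by
        have h0 : 0 ≤ ‖w‖ := norm_nonneg w
        rcases le_total ‖w‖ 1 with hw | hw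
        · have h4 : (1 + ‖w‖) ^ N ≤ 2 ^ N := pow_le_pow_left₀ (by positivity) (by linarith) N
          have h5 : (0 : ℝ) ≤ 2 ^ N * ‖w‖ ^ N := by positivity
          linarith
        · have h4 : (1 + ‖w‖) ^ N ≤ (2 * ‖w‖) ^ N :=
            pow_le_pow_left₀ (by positivity) (by linarith) N
          rw [mul_pow] at h4
          have h5 : (0 : ℝ) ≤ 2 ^ N := by positivity
          linarith
      have h6 : 0 ≤ ‖kt κ w‖ := norm_nonneg _
      have h7 : 0 < 1 + Real.exp w.re := by positivity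
      calc ‖kt κ w‖ * (1 + ‖w‖) ^ N ≤ ‖kt κ w‖ * (2 ^ N * (1 + ‖w‖ ^ N)) :=
            mul_le_mul_of_nonneg_left h3 h6
        _ = 2 ^ N * (‖kt κ w‖ + ‖w‖ ^ N * ‖kt κ w‖) := by ring
        _ ≤ 2 ^ N * (C' * (1 + Real.exp w.re) + C * (1 + Real.exp w.re)) :=
            mul_le_mul_of_nonneg_left (add_le_add h2 h1) (by positivity)
        _ ≤ (2 ^ N * (C + C') + 1) * (1 + Real.exp w.re) := by nlinarith
  · intro ξ
    refine ⟨?_, ?_, ?_⟩
    · exact integral_nonneg fun x => hκ.nonneg x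
    · have h1 := setIntegral_le_integral (s := Ioi ξ) hint (Eventually.of_forall hκ.nonneg)
      rw [hκ.mass] at h1
      exact h1
    · have h1 : ∀ y : ℝ, kk κ y = (1 - ∫ τ in Iic (0 : ℝ), κ τ) - ∫ τ in (0 : ℝ)..y, κ τ := by
        intro y
        have h2 := intervalIntegral.integral_Iic_sub_Iic (μ := volume) (a := 0) (b := y) (f := κ)
          hint.integrableOn hint.integrableOn
        have h3 := intervalIntegral.integral_Iic_add_Ioi (μ := volume) (b := y) (f := κ)
          hint.integrableOn hint.integrableOn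
        rw [hκ.mass] at h3
        unfold kk
        linarith
      have h2 : HasDerivAt (fun y => (1 - ∫ τ in Iic (0 : ℝ), κ τ) - ∫ τ in (0 : ℝ)..y, κ τ)
          (-(κ ξ)) ξ :=
        (hcont.integral_hasStrictDerivAt 0 ξ).hasDerivAt.const_sub _
      have h3 : kk κ = fun y => (1 - ∫ τ in Iic (0 : ℝ), κ τ) - ∫ τ in (0 : ℝ)..y, κ τ :=
        funext h1
      rw [h3]
      exact h2
  · intro ξ hξ
    have h1 : Iic (1 / 4 : ℝ) ⊆ {x | κ x = 0} := by
      have h2 : IsClosed {x | κ x = 0} := isClosed_eq hcont continuous_const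
      have h3 : Iio (1 / 4 : ℝ) ⊆ {x | κ x = 0} := by
        intro x hx
        by_contra h0
        exact absurd (hκ.supp x h0).1 (not_le.2 hx)
      have h4 := h2.closure_subset_iff.2 h3
      rwa [closure_Iio] at h4
    unfold kk
    rw [setIntegral_eq_integral_of_forall_compl_eq_zero, hκ.mass]
    intro x hx
    exact h1 (show x ≤ 1 / 4 from (not_lt.1 hx).trans hξ)
  · intro ξ hξ
    unfold kk
    rw [setIntegral_congr_fun (g := fun _ => (0 : ℝ)) measurableSet_Ioi, integral_zero]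
    intro x hx
    by_contra h0
    have := (hκ.supp x h0).2
    have h2 : ξ < x := hx
    linarith

end Pool.Agent.Work.MP_56b8f5_nt.HZ
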