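import Pool.Agent.Work.MP_56b8f5_nt.HZ.StmtsA

/-!
MP_56b8f5_nt, block HZ, item Zsy: symmetry of the zeros of zeta with multiplicity.
-/

set_option autoImplicit false

open MeasureTheory Set Filter Topology

noncomputable section

namespace Pool.Agent.Work.MP_56b8f5_nt.HZ

open Pool.Agent.Work.MP_56b8f5_nt.EM Pool.Agent.Work.MP_56b8f5_nt.WM Pool.Agent.Work.MP_56b8f5_nt.SH

namespace I_Zsy

open ComplexConjugate

/-- the conjugate function is analytic at the conjugate point -/
theorem analyticAt_conj {f : ℂ → ℂ} {z : ℂ} (hf : AnalyticAt ℂ f z) :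
    AnalyticAt ℂ (conj ∘ f ∘ conj) (conj z) := by
  rw [Complex.analyticAt_iff_eventually_differentiableAt] at hf ⊢
  have h1 : Tendsto (fun w : ℂ => conj w) (𝓝 (conj z)) (𝓝 z) := by
    have h2 := Complex.continuous_conj.tendsto (conj z)
    rwa [Complex.conj_conj] at h2
  filter_upwards [h1.eventually hf] with w hw
  have h3 := hw.conj_conj
  rwa [Complex.conj_conj] at h3

/-- the order of the conjugate function at the conjugate point: one inequality -/
theorem le_order_conj {f : ℂ → ℂ} {z : ℂ} (hf : AnalyticAt ℂ f z) :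
    analyticOrderAt f z ≤ analyticOrderAt (conj ∘ f ∘ conj) (conj z) := by
  rw [← ENat.forall_natCast_le_iff_le]
  intro n hn
  rw [natCast_le_analyticOrderAt hf] at hn
  rw [natCast_le_analyticOrderAt (analyticAt_conj hf)]
  obtain ⟨g, hg, hfg⟩ := hn
  refine ⟨conj ∘ g ∘ conj, analyticAt_conj hg, ?_⟩
  have h1 : Tendsto (fun w : ℂ => conj w) (𝓝 (conj z)) (𝓝 z) := by
    have h2 := Complex.continuous_conj.tendsto (conj z)
    rwa [Complex.conj_conj] at h2
  filter_upwards [h1.eventually hfg] with w hw
  simp only [Function.comp_apply, hw, smul_eq_mul, map_mul, map_pow, map_sub, Complex.conj_conj]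

/-- the order of the conjugate function at the conjugate point -/
theorem order_conj {f : ℂ → ℂ} {z : ℂ} (hf : AnalyticAt ℂ f z) :
    analyticOrderAt (conj ∘ f ∘ conj) (conj z) = analyticOrderAt f z := by
  refine le_antisymm ?_ (le_order_conj hf)
  have h1 := le_order_conj (analyticAt_conj hf)
  have h2 : (conj ∘ (conj ∘ f ∘ conj) ∘ conj : ℂ → ℂ) = f := by
    funext w
    simp
  rwa [h2, Complex.conj_conj] at h1

theorem analyticAt_zeta {s : ℂ} (hs : s ≠ 1) : AnalyticAt ℂ riemannZeta s := by
  rw [Complex.analyticAt_iff_eventually_differentiableAt]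
  filter_upwards [isOpen_ne.mem_nhds hs] with w hw
  exact differentiableAt_riemannZeta hw

theorem zeta_conj {s : ℂ} (hs : s ≠ 1) :
    analyticOrderAt riemannZeta (conj s) = analyticOrderAt riemannZeta s := by
  have h1 := order_conj (analyticAt_zeta hs)
  have h2 : (conj ∘ riemannZeta ∘ conj : ℂ → ℂ) = riemannZeta := by
    funext w
    simp [riemannZeta_conj]
  rwa [h2] at h1

theorem analyticAt_completed {s : ℂ} (h0 : s ≠ 0) (h1 : s ≠ 1) :
    AnalyticAt ℂ completedRiemannZeta s := by
  rw [Complex.analyticAt_iff_eventually_differentiableAt]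
  filter_upwards [isOpen_ne.mem_nhds h0, isOpen_ne.mem_nhds h1] with w hw hw'
  exact differentiableAt_completedZeta hw hw'

theorem zeta_order {s : ℂ} (h0 : 0 < s.re) (h1 : s ≠ 1) :
    analyticOrderAt riemannZeta s = analyticOrderAt completedRiemannZeta s := by
  have hs0 : s ≠ 0 := by
    rintro rfl
    simp at h0
  have h2 : riemannZeta =ᶠ[𝓝 s] completedRiemannZeta * (fun w => (Complex.Gammaℝ w)⁻¹) := by
    filter_upwards [isOpen_ne.mem_nhds hs0] with w hw
    rw [Pi.mul_apply, riemannZeta_def_of_ne_zero hw, div_eq_mul_inv]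
  have h3 : AnalyticAt ℂ (fun w => (Complex.Gammaℝ w)⁻¹) s :=
    (Complex.analyticOnNhd_univ_iff_differentiable.2 Complex.differentiable_Gammaℝ_inv) s
      (mem_univ s)
  rw [analyticOrderAt_congr h2, analyticOrderAt_mul (analyticAt_completed hs0 h1) h3,
    h3.analyticOrderAt_eq_zero.2 (inv_ne_zero (Complex.Gammaℝ_ne_zero_of_re_pos h0)), add_zero]

theorem completed_order (s : ℂ) :
    analyticOrderAt completedRiemannZeta (1 - s) = analyticOrderAt completedRiemannZeta s := by
  have h1 : AnalyticAt ℂ (fun w : ℂ => 1 - w) s := by fun_prop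
  have h2 : deriv (fun w : ℂ => 1 - w) s ≠ 0 := by
    rw [deriv_const_sub, deriv_id'']
    norm_num
  have h3 := analyticOrderAt_comp_of_deriv_ne_zero (f := completedRiemannZeta) h1 h2
  have h4 : completedRiemannZeta ∘ (fun w : ℂ => 1 - w) = completedRiemannZeta := by
    funext w
    exact completedRiemannZeta_one_sub w
  rw [← h3, h4]

theorem zeta_symm {s : ℂ} (h0 : 0 < s.re) (h1 : s.re < 1) :
    analyticOrderAt riemannZeta (1 - conj s) = analyticOrderAt riemannZeta s := by
  have hs1 : s ≠ 1 := by
    rintro rfl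
    simp at h1
  have hs2 : 1 - conj s ≠ 1 := by
    intro h
    have h2 := congrArg Complex.re h
    simp only [Complex.sub_re, Complex.one_re, Complex.conj_re] at h2
    linarith
  have hs3 : conj s ≠ 1 := by
    intro h
    have h2 := congrArg Complex.re h
    simp only [Complex.one_re, Complex.conj_re] at h2
    linarith
  rw [zeta_order (s := 1 - conj s) (by simp; exact h1) hs2, completed_order,
    ← zeta_order (s := conj s) (by simpa using h0) hs3, zeta_conj hs1]

end I_Zsy

theorem Zsy_pf : S_Zsy := by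
  intro ρ h0 h1
  have h := I_Zsy.zeta_symm h0 h1
  have hs1 : ρ ≠ 1 := by
    rintro rfl
    simp at h1
  have hs2 : 1 - (starRingEnd ℂ) ρ ≠ 1 := by
    intro h
    have h2 := congrArg Complex.re h
    simp only [Complex.sub_re, Complex.one_re, Complex.conj_re] at h2
    linarith
  refine ⟨?_, ?_⟩
  · rw [mz, mz, analyticOrderNatAt, analyticOrderNatAt, h]
  · rw [← (I_Zsy.analyticAt_zeta hs1).analyticOrderAt_ne_zero,
      ← (I_Zsy.analyticAt_zeta hs2).analyticOrderAt_ne_zero, h]

end Pool.Agent.Work.MP_56b8f5_nt.HZ
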