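import Pool.Agent.Work.MP_56b8f5_nt.HZ.Main
import Pool.Agent.Work.MP_56b8f5_nt.HZ.B_HarU
import Pool.Agent.Work.MP_56b8f5_nt.HZ.I_Mes

/-!
MP_56b8f5_nt, block HZ: the final theorem, uniformly in `0 < k ≤ k₀` and with the measure of the complement.
-/

set_option autoImplicit false

open MeasureTheory Set Filter Topology

noncomputable section

namespace Pool.Agent.Work.MP_56b8f5_nt.HZ

open Pool.Agent.Work.MP_56b8f5_nt.EM Pool.Agent.Work.MP_56b8f5_nt.WM Pool.Agent.Work.MP_56b8f5_nt.SH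

/-- **Fin.** The final theorem. -/
def S_Fin : Prop :=
  (∀ k₀ A C : ℝ, 0 < k₀ → 0 ≤ A → 0 ≤ C → ∃ K T₀ : ℝ, 3 ≤ T₀ ∧ ∀ T : ℝ, T₀ ≤ T → ∀ k : ℝ, 0 < k → k ≤ k₀ →
    ∫ t in GG T A C, ‖riemannZeta (1 / 2 + t * Complex.I)‖ ^ (2 * k : ℝ) ≤
      K * (T * Real.log T ^ (k ^ 2 : ℝ))) ∧
  (∃ C₁ T₁ : ℝ, ∀ A T : ℝ, 1 ≤ A → T₁ ≤ T →
    volume.real (Icc T (2 * T) \ GG T A 400) ≤ C₁ * Real.exp (-(A / 200)) * T) ∧
  ∀ k₀ : ℝ, 0 < k₀ → ∃ A₀ c T₂ : ℝ, 0 < c ∧ ∀ A T k : ℝ, A₀ ≤ A → T₂ ≤ T → 0 < k → k ≤ k₀ →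
    c * (T * Real.log T ^ (k ^ 2 : ℝ)) ≤
      ∫ t in GG T A 400, ‖riemannZeta (1 / 2 + t * Complex.I)‖ ^ (2 * k : ℝ)

namespace Main

/-- The upper bound, uniformly in `k`. -/
theorem up (hPW : S_PW) (hHar : HZB.S_HarU) (hGG : S_GGm) : ∀ k₀ A C : ℝ, 0 < k₀ → 0 ≤ A → 0 ≤ C →
    ∃ K T₀ : ℝ, 3 ≤ T₀ ∧ ∀ T : ℝ, T₀ ≤ T → ∀ k : ℝ, 0 < k → k ≤ k₀ →
    ∫ t in GG T A C, ‖riemannZeta (1 / 2 + t * Complex.I)‖ ^ (2 * k : ℝ) ≤
      K * (T * Real.log T ^ (k ^ 2 : ℝ)) := by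
  intro k₀ A C hk hA hC
  obtain ⟨c, hc, h⟩ := hPW
  obtain ⟨m₀, T₁, K, hm, hT₁, hK, h1⟩ := h A C hA hC
  obtain ⟨C', T₂, _, hT₂, h2⟩ := hHar k₀ K (1 / m₀) hk hK (by positivity)
  refine ⟨C', max T₁ T₂, le_trans hT₁ (le_max_left _ _), fun T hT => ?_⟩
  have hTT : (3 : ℝ) ≤ T := hT₁.trans ((le_max_left _ _).trans hT)
  refine h2 T ((le_max_right _ _).trans hT) c hc (GG T A C) (hGG T A C (by linarith))
    (GG_sub T A C) ?_
  intro t ht x hx1 hx2
  exact h1 T ((le_max_left _ _).trans hT) t ht x hx1 hx2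

/-- The measure of the complement. -/
theorem mes (hC : S_Cmp) : ∃ C₁ T₁ : ℝ, ∀ A T : ℝ, 1 ≤ A → T₁ ≤ T →
    volume.real (Icc T (2 * T) \ GG T A 400) ≤ C₁ * Real.exp (-(A / 200)) * T := by
  obtain ⟨C, T₀, hC1, hT₀, h⟩ := hC 0 le_rfl
  refine ⟨C, T₀, fun A T hA1 hT => ?_⟩
  have hT3 : 3 ≤ T := hT₀.trans hT
  have hL : 1 ≤ Real.log (2 * T) := by
    rw [Real.le_log_iff_exp_le (by linarith)]
    have := Real.exp_one_lt_d9
    linarith
  have h1 := h T hT 1 0 1 0 (fun _ => ∅) (fun _ => 0) (fun _ => 0) one_pos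
    (by norm_num) (I_Mes.sys_zero hL _ _ _) 0 le_rfl le_rfl A hA1
  have hst : st 0 (fun _ => (∅ : Finset ℕ)) = 0 := by
    unfold st
    rw [Finset.range_zero, Finset.sum_empty]
  have hNb : ∀ t : ℝ, Nb 0 (fun _ => (∅ : Finset ℕ)) (fun _ => 0) 0 t ^ 2 = 1 := by
    intro t
    unfold Nb NN
    rw [Finset.range_zero, Finset.prod_empty, norm_one, one_pow]
  simp only [hNb, hst, mul_zero, Real.exp_zero, mul_one] at h1
  rw [setIntegral_const, smul_eq_mul, mul_one] at h1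
  exact h1

/-- Part two, the moments. -/
theorem low (hCmp : S_Cmp) (hLow : S_LowE) (hSys : S_Sys) (hGG : S_GGm) (hNbc : ∀ (M : ℕ) (S : ℕ → Finset ℕ)
    (l : ℕ → ℕ) (β : ℝ), Continuous (Nb M S l β)) : ∀ k₀ : ℝ, 0 < k₀ → ∃ A₀ c T₀ : ℝ, 1 ≤ A₀ ∧ 0 < c ∧
    3 ≤ T₀ ∧ ∀ A T k : ℝ, A₀ ≤ A → T₀ ≤ T → 0 < k → k ≤ k₀ →
      c * (T * Real.log T ^ (k ^ 2 : ℝ)) ≤
        ∫ t in GG T A 400, ‖riemannZeta (1 / 2 + t * Complex.I)‖ ^ (2 * k : ℝ) := by
  intro k₀ hk₀
  obtain ⟨w, hw, hw0, hws⟩ := exW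
  set B : ℝ := max k₀ 1 with hB
  have hB1 : 1 ≤ B := le_max_right _ _
  obtain ⟨ε₀, ρ, η₀, hε₀, hε₁, hρ0, hρ1, hη₀, hL⟩ := hLow w hw hw0 B hB1
  set ε : ℝ := min ε₀ (1 / (B + 1)) with hε
  have hεp : 0 < ε := lt_min hε₀ (by positivity)
  obtain ⟨Λ, hΛ, hev⟩ := hSys ε (ρ / 2) η₀ hεp (by linarith) hη₀
  obtain ⟨δ₀, c, T₁, hδ₀, hc, hT₁, hL1⟩ := hL Λ hΛ
  obtain ⟨C, T₂, hC1, hT₂, hC⟩ := hCmp B (by linarith)
  obtain ⟨L₀, hL₀⟩ := eventually_atTop.1 hev
  refine ⟨max 1 (200 * Real.log (C / δ₀)), c, max (max T₁ T₂) (max 3 (Real.exp L₀)), le_max_left _ _, hc,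
    le_trans (le_max_left _ _) (le_max_right _ _), fun A T k hA hT hk hkk => ?_⟩
  have hkB : k ≤ B := hkk.trans (le_max_left _ _)
  have hA1 : 1 ≤ A := (le_max_left _ _).trans hA
  have hA2 : C * Real.exp (-(A / 200)) ≤ δ₀ := by
    have h : Real.log (C / δ₀) ≤ A / 200 := by
      have := (le_max_right (1 : ℝ) (200 * Real.log (C / δ₀))).trans hA
      linarith
    have h' : C / δ₀ ≤ Real.exp (A / 200) := by
      rw [← Real.log_le_iff_le_exp (by positivity)]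
      exact h
    rw [div_le_iff₀ hδ₀] at h'
    rw [Real.exp_neg, ← div_eq_mul_inv, div_le_iff₀ (Real.exp_pos _)]
    linarith
  have hTT₁ : T₁ ≤ T := ((le_max_left _ _).trans (le_max_left _ _)).trans hT
  have hTT₂ : T₂ ≤ T := ((le_max_right _ _).trans (le_max_left _ _)).trans hT
  have hT3 : 3 ≤ T := ((le_max_left _ _).trans (le_max_right _ _)).trans hT
  have hTL : Real.exp L₀ ≤ T := ((le_max_right _ _).trans (le_max_right _ _)).trans hT
  have hT0 : 0 < T := by linarith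
  have h2T : 0 < 2 * T := by linarith
  have hlog : L₀ ≤ Real.log (2 * T) := by
    rw [Real.le_log_iff_exp_le h2T]
    linarith
  obtain ⟨M, S, l, y, hs, hsΛ⟩ := hL₀ _ hlog
  have hlog1 : 1 ≤ Real.log (2 * T) := by
    rw [Real.le_log_iff_exp_le h2T]
    have := Real.exp_one_lt_d9
    linarith
  have hlogT1 : 0 ≤ Real.log T := Real.log_nonneg (by linarith)
  have hlogT : Real.log T ≤ Real.log (2 * T) := Real.log_le_log hT0 (by linarith)
  have hmG : MeasurableSet (GG T A 400) := hGG T A 400 (by linarith)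
  set E : Set ℝ := {u | 2 * T * u ∈ GG T A 400} with hE
  have hmE : MeasurableSet E := hmG.preimage (by fun_prop : Measurable fun u : ℝ => 2 * T * u)
  have hcmp := hC T hTT₂ ε (ρ / 2) η₀ M S l y hεp (min_le_right _ _) hs k hk.le hkB A hA1
  have hwc : Continuous w := hw.smooth.continuous
  -- the complement
  have hcomp : ∫ u in Eᶜ, w u * Nb M S l k (2 * T * u) ^ 2 ≤ δ₀ * Real.log (2 * T) ^ (k ^ 2 : ℝ) := by
    have e1 : ∫ u in Eᶜ, w u * Nb M S l k (2 * T * u) ^ 2 =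
        ∫ u, (fun t : ℝ => (GG T A 400)ᶜ.indicator
          (fun t => w (t / (2 * T)) * Nb M S l k t ^ 2) t) (2 * T * u) := by
      rw [← integral_indicator hmE.compl]
      apply integral_congr_ae
      filter_upwards with u
      by_cases hu : u ∈ E
      · have h1 : u ∉ Eᶜ := fun h => h hu
        have h2 : 2 * T * u ∉ (GG T A 400)ᶜ := fun h => h hu
        simp only [Set.indicator_of_notMem h1, Set.indicator_of_notMem h2]
      · have h1 : u ∈ Eᶜ := hu
        have h2 : 2 * T * u ∈ (GG T A 400)ᶜ := hu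
        simp only [Set.indicator_of_mem h1, Set.indicator_of_mem h2]
        rw [mul_div_cancel_left₀ u h2T.ne']
    rw [e1, Measure.integral_comp_mul_left, integral_indicator hmG.compl, abs_of_pos (by positivity : (0 : ℝ) < (2 * T)⁻¹),
      smul_eq_mul]
    have e2 : ∫ t in (GG T A 400)ᶜ, w (t / (2 * T)) * Nb M S l k t ^ 2 ≤
        ∫ t in Icc T (2 * T) \ GG T A 400, Nb M S l k t ^ 2 := by
      have hi : IntegrableOn (fun t => Nb M S l k t ^ 2) (Icc T (2 * T)) :=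
        ((hNbc M S l k).pow 2).continuousOn.integrableOn_compact isCompact_Icc
      rw [← integral_indicator hmG.compl, ← integral_indicator (measurableSet_Icc.diff hmG)]
      apply integral_mono_of_nonneg
      · filter_upwards with t
        apply Set.indicator_nonneg
        intro t _
        exact mul_nonneg (hw.nonneg _) (sq_nonneg _)
      · exact (hi.mono_set diff_subset).integrable_indicator (measurableSet_Icc.diff hmG)
      · filter_upwards with t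
        by_cases hg : t ∈ GG T A 400
        · have h1 : t ∉ (GG T A 400)ᶜ := fun h => h hg
          rw [Set.indicator_of_notMem h1]
          apply Set.indicator_nonneg
          intro t _
          exact sq_nonneg _
        · have h1 : t ∈ (GG T A 400)ᶜ := hg
          rw [Set.indicator_of_mem h1]
          by_cases hz : w (t / (2 * T)) = 0
          · rw [hz, zero_mul]
            apply Set.indicator_nonneg
            intro t _
            exact sq_nonneg _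
          · have h2 := hws _ hz
            rw [le_div_iff₀ h2T, div_le_iff₀ h2T] at h2
            have h3 : t ∈ Icc T (2 * T) \ GG T A 400 := ⟨⟨by linarith [h2.1], by linarith [h2.2]⟩, hg⟩
            rw [Set.indicator_of_mem h3]
            have := hw.le_one (t / (2 * T))
            nlinarith [sq_nonneg (Nb M S l k t)]
    have hst : Real.exp (k ^ 2 * st M S) ≤ Real.log (2 * T) ^ (k ^ 2 : ℝ) := by
      have h1 : Real.exp (k ^ 2 * st M S) = Real.exp (st M S) ^ (k ^ 2 : ℝ) := by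
        rw [← Real.exp_mul, mul_comm]
      rw [h1]
      exact Real.rpow_le_rpow (Real.exp_pos _).le hs.up (sq_nonneg k)
    have hlp : 0 ≤ Real.log (2 * T) ^ (k ^ 2 : ℝ) := Real.rpow_nonneg (by linarith) _
    calc (2 * T)⁻¹ * ∫ t in (GG T A 400)ᶜ, w (t / (2 * T)) * Nb M S l k t ^ 2
        ≤ (2 * T)⁻¹ * (C * Real.exp (-(A / 200)) * (T * Real.exp (k ^ 2 * st M S))) := by
          apply mul_le_mul_of_nonneg_left (e2.trans hcmp) (by positivity)
      _ = 1 / 2 * (C * Real.exp (-(A / 200)) * Real.exp (k ^ 2 * st M S)) := by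
          field_simp
      _ ≤ δ₀ * Real.log (2 * T) ^ (k ^ 2 : ℝ) := by
          have h5 : C * Real.exp (-(A / 200)) * Real.exp (k ^ 2 * st M S) ≤
              δ₀ * Real.log (2 * T) ^ (k ^ 2 : ℝ) :=
            mul_le_mul hA2 hst (Real.exp_pos _).le hδ₀.le
          have h6 : 0 ≤ C * Real.exp (-(A / 200)) * Real.exp (k ^ 2 * st M S) := by positivity
          linarith
  have hlow := hL1 (2 * T) (by linarith) η₀ hη₀ le_rfl M S l y (mono (min_le_left _ _) hs) hsΛ k hk.le hkB E hmE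
    hcomp
  -- the set itself
  have hup : ∫ u in E, w u * az (2 * T * u) ^ (2 * k : ℝ) ≤
      (2 * T)⁻¹ * ∫ t in GG T A 400, az t ^ (2 * k : ℝ) := by
    have e1 : ∫ u in E, w u * az (2 * T * u) ^ (2 * k : ℝ) =
        ∫ u, (fun t : ℝ => (GG T A 400).indicator
          (fun t => w (t / (2 * T)) * az t ^ (2 * k : ℝ)) t) (2 * T * u) := by
      rw [← integral_indicator hmE]
      apply integral_congr_ae
      filter_upwards with u
      by_cases hu : u ∈ E
      · have h2 : 2 * T * u ∈ GG T A 400 := hu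
        simp only [Set.indicator_of_mem hu, Set.indicator_of_mem h2]
        rw [mul_div_cancel_left₀ u h2T.ne']
      · have h2 : 2 * T * u ∉ GG T A 400 := hu
        simp only [Set.indicator_of_notMem hu, Set.indicator_of_notMem h2]
    rw [e1, Measure.integral_comp_mul_left, integral_indicator hmG, abs_of_pos (by positivity : (0 : ℝ) < (2 * T)⁻¹),
      smul_eq_mul]
    apply mul_le_mul_of_nonneg_left _ (by positivity)
    have hazc : Continuous fun t => az t ^ (2 * k : ℝ) :=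
      az_cont.rpow_const (fun _ => Or.inr (by positivity))
    have hi : IntegrableOn (fun t => az t ^ (2 * k : ℝ)) (GG T A 400) :=
      (hazc.continuousOn.integrableOn_compact isCompact_Icc).mono_set (GG_sub T A 400)
    apply setIntegral_mono_on _ hi hmG
    · intro t _
      have h1 : 0 ≤ az t ^ (2 * k : ℝ) := Real.rpow_nonneg (norm_nonneg _) _
      have := hw.le_one (t / (2 * T))
      nlinarith
    · have hc2 : Continuous fun t => w (t / (2 * T)) * az t ^ (2 * k : ℝ) :=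
        (hwc.comp (by fun_prop)).mul hazc
      exact (hc2.continuousOn.integrableOn_compact isCompact_Icc).mono_set (GG_sub T A 400)
  have hfin := hlow.trans hup
  have h7 : Real.log T ^ (k ^ 2 : ℝ) ≤ Real.log (2 * T) ^ (k ^ 2 : ℝ) :=
    Real.rpow_le_rpow hlogT1 hlogT (sq_nonneg k)
  have h8 : 0 ≤ Real.log T ^ (k ^ 2 : ℝ) := Real.rpow_nonneg hlogT1 _
  have h9 : c * Real.log (2 * T) ^ (k ^ 2 : ℝ) * (2 * T) ≤ ∫ t in GG T A 400, az t ^ (2 * k : ℝ) := by
    rw [← div_eq_inv_mul, le_div_iff₀ h2T] at hfin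
    exact hfin
  calc c * (T * Real.log T ^ (k ^ 2 : ℝ)) ≤ c * Real.log (2 * T) ^ (k ^ 2 : ℝ) * (2 * T) := by
        have : c * Real.log T ^ (k ^ 2 : ℝ) ≤ c * Real.log (2 * T) ^ (k ^ 2 : ℝ) :=
          mul_le_mul_of_nonneg_left h7 hc.le
        have h10 : 0 ≤ c * Real.log T ^ (k ^ 2 : ℝ) := mul_nonneg hc.le h8
        nlinarith
    _ ≤ _ := h9

end Main

/-- The final theorem from the four parts. -/
theorem Fin_pf (hPW : S_PW) (hHar : HZB.S_HarU) (hGG : S_GGm) (hCmp : S_Cmp)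
    (hLow : S_LowE) (hSys : S_Sys) (hNbc : ∀ (M : ℕ) (S : ℕ → Finset ℕ) (l : ℕ → ℕ) (β : ℝ),
      Continuous (Nb M S l β)) : S_Fin := by
  refine ⟨Main.up hPW hHar hGG, Main.mes hCmp, fun k₀ hk₀ => ?_⟩
  obtain ⟨A₀, c, T₀, _, hc, _, h⟩ := Main.low hCmp hLow hSys hGG hNbc k₀ hk₀
  exact ⟨A₀, c, T₀, hc, h⟩

end Pool.Agent.Work.MP_56b8f5_nt.HZ
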