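import Pool.Agent.Work.MP_56b8f5_nt.HZ.StmtsM

/-!
MP_56b8f5_nt, block HZ, part U: the bounds of `S_Main` with an explicit dependence on `A`, and the weighted moments over
the whole interval `[T, 2T]`.
-/

set_option autoImplicit false

open MeasureTheory Set Filter Topology

noncomputable section

namespace Pool.Agent.Work.MP_56b8f5_nt.HZ

open Pool.Agent.Work.MP_56b8f5_nt.EM Pool.Agent.Work.MP_56b8f5_nt.WM Pool.Agent.Work.MP_56b8f5_nt.SH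

/-- As `GG`, with a free parameter `lg` in place of `log T`. -/
def Gl (T lg A C : ℝ) : Set ℝ := {t | T ≤ t ∧ t ≤ 2 * T ∧ ∀ ρ : ℂ, riemannZeta ρ = 0 → 0 < ρ.re → ρ.re < 1 →
  (ρ.re - 1 / 2) * lg ≤ A + C * Real.log (1 + |ρ.im - t| * lg)}

/-- **ZNL.** As ZN. -/
def S_ZNL : Prop := ∀ (κ : ℝ → ℝ) (c C : ℝ), IsKer κ → 1 ≤ C → IsC κ c C → ∃ lam₀ : ℝ, 1 ≤ lam₀ ∧ ∀ lam : ℝ,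
  lam₀ ≤ lam → ∀ A C₀ : ℝ, 0 ≤ A → 0 ≤ C₀ → ∃ m₀ : ℝ, 1 ≤ m₀ ∧ ∀ T lg : ℝ, 3 ≤ T → ∀ t ∈ Gl T lg A C₀,
  riemannZeta (1 / 2 + t * Complex.I) ≠ 0 → ∀ X a : ℝ, 1 ≤ X → m₀ * X ≤ lg → lam / X ≤ a →
  a ≤ 2 * lam / X → ∀ Z : Finset ℂ,
    (∀ ρ, ρ ∈ Z ↔ riemannZeta ρ = 0 ∧ 1 / 5 ≤ ρ.re ∧ |ρ.im - t| ≤ 1 / 8) →
    ∑ ρ ∈ Z, mz ρ * Phi κ c X a (Real.sqrt T) (ρ - (1 / 2 + t * Complex.I)) ≤ 0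

/-- **ZFL.** As ZF. -/
def S_ZFL : Prop := ∀ (κ : ℝ → ℝ) (c C : ℝ), IsKer κ → 1 ≤ C → IsC κ c C → ∀ A C₀ : ℝ, 0 ≤ A → 0 ≤ C₀ →
  ∃ m₀ C' : ℝ, 1 ≤ m₀ ∧ 1 ≤ C' ∧ ∀ T lg : ℝ, 16 ≤ T → ∀ t ∈ Gl T lg A C₀, ∀ X a : ℝ, 8 ≤ X →
  m₀ * X ≤ lg → 0 < a → a ≤ 1 / 16 → ∀ Z : Finset ℂ,
    (∀ ρ ∈ Z, riemannZeta ρ = 0 ∧ 1 / 8 < |ρ.im - t|) →
    ∑ ρ ∈ Z, mz ρ * |Phi κ c X a (Real.sqrt T) (ρ - (1 / 2 + t * Complex.I))| ≤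
      C' * Real.log T * (a + 1 / X)

/-- **PWaL.** As PWa. -/
def S_PWaL : Prop := ∀ (κ : ℝ → ℝ) (c C : ℝ), IsKer κ → 1 ≤ C → IsC κ c C → ∃ lam : ℝ, 1 ≤ lam ∧
  ∀ A C₀ : ℝ, 0 ≤ A → 0 ≤ C₀ → ∃ m₀ X₀ K : ℝ, 1 ≤ m₀ ∧ 1 ≤ X₀ ∧ 0 ≤ K ∧ ∀ T lg : ℝ, 100 ≤ T → lg ≤ Real.log T →
  ∀ t ∈ Gl T lg A C₀,
  riemannZeta (1 / 2 + t * Complex.I) ≠ 0 → ∀ X a : ℝ, X₀ ≤ X → m₀ * X ≤ lg →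
  lam / X ≤ a → a ≤ 2 * lam / X → riemannZeta (1 / 2 + t * Complex.I + a) ≠ 0 →
    Real.log ‖riemannZeta (1 / 2 + t * Complex.I)‖ ≤ (Dx (wk κ X a) (Real.exp X) t).re + K * (Real.log T / X)

/-- **PWL.** As PW. -/
def S_PWL : Prop := ∃ c : ℝ → ℕ → ℝ, (∀ x n, 0 ≤ c x n ∧ c x n ≤ 1) ∧ ∀ A C₀ : ℝ, 0 ≤ A → 0 ≤ C₀ →
  ∃ m₀ X₀ K : ℝ, 1 ≤ m₀ ∧ 1 ≤ X₀ ∧ 0 ≤ K ∧ ∀ T lg : ℝ, 100 ≤ T → lg ≤ Real.log T →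
  ∀ t ∈ Gl T lg A C₀, ∀ x : ℝ, Real.exp X₀ ≤ x → m₀ * Real.log x ≤ lg →
    ‖riemannZeta (1 / 2 + t * Complex.I)‖ ≤
      Real.exp ((Dx (c x) x t).re + K * (Real.log T / Real.log x))

/-- **PWU.** Uniformity in `A`: PWL with `lg = log T/(1+A)` and `A = 1 + C₀`: if `y log T ≤ A + C₀ log(1+u log T)` then, as
`1 + u log T ≤ (1 + A)(1 + u lg)` and `log(1+A) ≤ 1 + A`: `y lg ≤ 1 + C₀ + C₀ log(1 + u lg)`. -/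
def S_PWU : Prop := ∃ c : ℝ → ℕ → ℝ, (∀ x n, 0 ≤ c x n ∧ c x n ≤ 1) ∧ ∀ C₀ : ℝ, 0 ≤ C₀ →
  ∃ m₀ X₀ K : ℝ, 1 ≤ m₀ ∧ 1 ≤ X₀ ∧ 0 ≤ K ∧ ∀ T : ℝ, 100 ≤ T → ∀ A : ℝ, 0 ≤ A →
  ∀ t ∈ GG T A C₀, ∀ x : ℝ, Real.exp X₀ ≤ x → m₀ * (1 + A) * Real.log x ≤ Real.log T →
    ‖riemannZeta (1 / 2 + t * Complex.I)‖ ≤
      Real.exp ((Dx (c x) x t).re + K * (Real.log T / Real.log x))

/-- **HarV.** `HZB.S_HarU` with an explicit dependence on `b₀`. -/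
def S_HarV : Prop := ∀ k₀ K : ℝ, 0 < k₀ → 0 ≤ K → ∃ C T₀ : ℝ, 1 ≤ C ∧ 3 ≤ T₀ ∧
  ∀ T : ℝ, T₀ ≤ T → ∀ b₀ : ℝ, 0 < b₀ → b₀ ≤ 1 → Real.log (Real.log T) ≤ b₀ * Real.log T →
  ∀ v : ℝ → ℕ → ℝ, (∀ x n, 0 ≤ v x n ∧ v x n ≤ 1) →
  ∀ E : Set ℝ, MeasurableSet E → E ⊆ Icc T (2 * T) → HZB.Hyp v K b₀ T E →
  ∀ k : ℝ, 0 < k → k ≤ k₀ →
    ∫ t in E, ‖riemannZeta (1 / 2 + t * Complex.I)‖ ^ (2 * k : ℝ) ≤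
      Real.exp (C / b₀) * (T * Real.log T ^ (k ^ 2 : ℝ))

/-- **UpU.** The first part of `S_Main` with the constant `e^{K(1+A)}`, uniformly in `A ≥ 0`. Let `L = log T`, `m₀`, `X₀`, `K` from PWU.
(i) `m₀(1+A) log L ≤ L`: HarV with `b₀ = 1/(m₀(1+A))` (`X₀ ≤ log L`). (ii) otherwise, but `4 m₀ (1+A) X₀ ≤ L`: `X = L/(4 m₀(1+A))`, `x = e^X`,
`|Dx| ≤ 2√x = 2e^{X/2} ≤ 2 L^{1/8} ≤ 2(1+A)·...` as `X ≤ (log L)/4` and `L^{1/8} ≤ L/(m₀ log L) ≤ 1+A`; so `|ζ| ≤ exp(2(1+A) + 4Km₀(1+A))`.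
(iii) `4 m₀ X₀ (1+A) > L`: `|ζ| ≤ C t ≤ e^{C'(1+A)}` (Zgr). -/
def S_UpU : Prop := ∀ B C₀ : ℝ, 0 < B → 0 ≤ C₀ → ∃ K T₀ : ℝ, 0 ≤ K ∧ 3 ≤ T₀ ∧ ∀ T : ℝ, T₀ ≤ T → ∀ A : ℝ, 0 ≤ A →
  ∀ k : ℝ, 0 < k → k ≤ B →
    ∫ t in GG T A C₀, ‖riemannZeta (1 / 2 + t * Complex.I)‖ ^ (2 * k : ℝ) ≤
      Real.exp (K * (1 + A)) * (T * Real.log T ^ (k ^ 2 : ℝ))

/-- The influence of the zeros off the critical line at the height `t`: the supremum over the zeros `β + iγ`, `0 < β < 1`, of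
`max(0, (β - 1/2) log T - C log(1 + |γ - t| log T))`. -/
def Dv (T C t : ℝ) : ℝ := ⨆ ρ : {ρ : ℂ // riemannZeta ρ = 0 ∧ 0 < ρ.re ∧ ρ.re < 1},
  max 0 ((ρ.1.re - 1 / 2) * Real.log T - C * Real.log (1 + |ρ.1.im - t| * Real.log T))

/-- **DvL.** For `T ≥ 1`, `C ≥ 0`: the family is bounded by `(log T)/2`, so `Dv ≤ A` iff `t ∈ GG` for `A ≥ 0`, `t ∈ [T,2T]`; measurability by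
the sets `{Dv ≤ A}`, which are closed. -/
def S_DvL : Prop := ∀ T C : ℝ, 1 ≤ T → 0 ≤ C →
  (∀ t, 0 ≤ Dv T C t ∧ Dv T C t ≤ Real.log T) ∧ Measurable (Dv T C) ∧
  ∀ A t : ℝ, 0 ≤ A → (t ∈ GG T A C ↔ T ≤ t ∧ t ≤ 2 * T ∧ Dv T C t ≤ A)

/-- **MainW.** The weighted moments over the whole interval. Upper bound: on `{n ≤ Dv < n+1} ⊆ GG T (n+1) C` the weight is `≤ e^{-Kn}`; UpU with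
`K₁`, `K₀ = K₁ + 1`, `M = 2 e^{2K₁}`. Lower bound: `S_Main`, third part with `A₀ ≥ 0`: the weight is `≥ e^{-K A₀}` on `GG T A₀ 400 ⊆ GG T A₀ C`.
Measure: second part of `S_Main`, `GG T A 400 ⊆ GG T A C`. The last two bounds: UpU and `S_Main`. -/
def S_MainW : Prop := ∃ C₁ : ℝ, ∀ B : ℝ, 0 < B → ∃ A₀ c : ℝ, 0 < c ∧ ∀ C : ℝ, 400 ≤ C → ∃ K₀ M T₀ : ℝ, 3 ≤ T₀ ∧
  ∀ T : ℝ, T₀ ≤ T →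
    (∀ A : ℝ, 1 ≤ A → volume.real {t : ℝ | T ≤ t ∧ t ≤ 2 * T ∧ A < Dv T C t} ≤
      C₁ * Real.exp (-A / 200) * T) ∧
    ∀ k : ℝ, 0 < k → k ≤ B →
      (∀ K : ℝ, K₀ ≤ K →
        c * Real.exp (-(A₀ * K)) * (T * Real.log T ^ (k ^ 2 : ℝ)) ≤
          ∫ t in T..(2 * T), Real.exp (-(K * Dv T C t)) * ‖riemannZeta (1 / 2 + t * Complex.I)‖ ^ (2 * k : ℝ) ∧
        ∫ t in T..(2 * T), Real.exp (-(K * Dv T C t)) * ‖riemannZeta (1 / 2 + t * Complex.I)‖ ^ (2 * k : ℝ) ≤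
          M * (T * Real.log T ^ (k ^ 2 : ℝ))) ∧
      ∀ A : ℝ, A₀ ≤ A →
        c * (T * Real.log T ^ (k ^ 2 : ℝ)) ≤
          ∫ t in {t : ℝ | T ≤ t ∧ t ≤ 2 * T ∧ Dv T C t ≤ A}, ‖riemannZeta (1 / 2 + t * Complex.I)‖ ^ (2 * k : ℝ) ∧
        ∫ t in {t : ℝ | T ≤ t ∧ t ≤ 2 * T ∧ Dv T C t ≤ A}, ‖riemannZeta (1 / 2 + t * Complex.I)‖ ^ (2 * k : ℝ) ≤
          M * Real.exp (K₀ * A) * (T * Real.log T ^ (k ^ 2 : ℝ))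

end Pool.Agent.Work.MP_56b8f5_nt.HZ
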