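import Pool.Agent.Work.MP_56b8f5_nt.HZ.StmtsU

/-!
MP_56b8f5_nt, block HZ, part V (for block HN): the pointwise inequality of part (a) on the lines `Re s = 1/2 + η`,
`0 ≤ η ≤ 1/8`, uniformly in `A`. Final statement `S_PWs`. As StmtsA, with a general point `s₁`, `Im s₁ = t`.
-/

set_option autoImplicit false

open MeasureTheory Set Filter Topology

noncomputable section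

namespace Pool.Agent.Work.MP_56b8f5_nt.HZ

open Pool.Agent.Work.MP_56b8f5_nt.EM Pool.Agent.Work.MP_56b8f5_nt.WM Pool.Agent.Work.MP_56b8f5_nt.SH

/-- `∑_{n ≤ x} Λ(n)/log n c(n) n^{-s}`. -/
def Dz (c : ℕ → ℝ) (x : ℝ) (s : ℂ) : ℂ := ∑ n ∈ Finset.Icc 1 ⌊x⌋₊,
  ((ArithmeticFunction.vonMangoldt n / Real.log n * c n : ℝ) : ℂ) * (n : ℂ) ^ (-s)

/-- **Zl1V.** As Zl1, up to `Re s ≤ 7/2`. -/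
def S_Zl1V : Prop := ∃ C : ℝ, 1 ≤ C ∧ ∀ t : ℝ, 4 ≤ |t| →
  IntegrableOn (fun s : ℂ => Real.log ‖riemannZeta s‖) {s : ℂ | 1 / 5 ≤ s.re ∧ s.re ≤ 7 / 2 ∧ |s.im - t| ≤ 1 / 2} ∧
  ∫ s in {s : ℂ | 1 / 5 ≤ s.re ∧ s.re ≤ 7 / 2 ∧ |s.im - t| ≤ 1 / 2}, |Real.log ‖riemannZeta s‖| ≤
    C * Real.log |t|

/-- **IdnV.** As Idn. -/
def S_IdnV : Prop := ∀ κ : ℝ → ℝ, IsKer κ → ∀ (c X a H : ℝ) (s₁ : ℂ), 0 < X → 0 < a → a ≤ 1 / 16 → 4 ≤ H →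
  10 * H ≤ s₁.im → riemannZeta s₁ ≠ 0 → riemannZeta (s₁ + a) ≠ 0 →
  ∀ Z : Finset ℂ, (∀ ρ, ρ ∈ Z ↔ riemannZeta ρ = 0 ∧ ‖ρ - s₁‖ ≤ 3 * H) →
  Integrable (fun z => Real.log ‖riemannZeta (s₁ + z)‖ * Cu κ c X a H z) ∧
  Real.log ‖riemannZeta s₁‖ = ∑ ρ ∈ Z, mz ρ * Phi κ c X a H (ρ - s₁) -
      1 / (2 * Real.pi) * ∫ z, Real.log ‖riemannZeta (s₁ + z)‖ * Cu κ c X a H z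

/-- **TRV.** As TR. -/
def S_TRV : Prop := ∀ (κ : ℝ → ℝ) (c C : ℝ), IsKer κ → IsC κ c C → ∃ C' : ℝ, 1 ≤ C' ∧
  ∀ (X a H : ℝ) (s₁ : ℂ), 1 ≤ X → 0 < a → a ≤ 1 / 16 → 4 ≤ H → 10 * H ≤ s₁.im → 1 / 2 ≤ s₁.re →
  Integrable (fun z => Real.log ‖riemannZeta (s₁ + z)‖ * Cr κ c X a H z) ∧
  |(∫ z, Real.log ‖riemannZeta (s₁ + z)‖ * Cr κ c X a H z) +
    2 * Real.pi * (Dz (wk κ X a) (Real.exp X) s₁).re| ≤ C' * Real.exp (5 / 2 * X) / H ^ 2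

/-- **TLV.** As TL. -/
def S_TLV : Prop := ∀ (κ : ℝ → ℝ) (c C : ℝ), IsKer κ → IsC κ c C → ∃ C' : ℝ, 1 ≤ C' ∧
  ∀ (X a H : ℝ) (s₁ : ℂ), 5 ≤ X → 0 < a → a ≤ 1 / 16 → 4 ≤ H → 10 * H ≤ s₁.im → 1 / 2 ≤ s₁.re →
  s₁.re ≤ 5 / 8 →
  |∫ z, Real.log ‖riemannZeta (s₁ + z)‖ * (Cu κ c X a H z - Cr κ c X a H z)| ≤
    C' * Real.log s₁.im * (1 / X ^ 3 + a + Real.exp (5 / 2 * X) / H ^ 2)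

/-- **PairV.** The pair of zeros `s₁ - η ± y + iv`, `0 ≤ η`. Let `b = a + η`,
`Q(α) = ((y-α)²+v²)((y+α)²+v²) = (y²+v²)² + α²(α²+2v²-2y²)`; the contribution is
`S1(X(y-b+iv)) + S1(X(-y-b+iv)) - ½ log(Q(b)/Q(η))`, `Q(b) - Q(η) = (b²-η²)(b²+η²+2v²-2y²)`, `b² - η² ≥ ab`. By symmetry `y ≥ 0`.
Case 1, `y ≤ b/4`: gain `≥ 0.08 ab/(b²+v²)`; `Re w ≤ -3λ/4 ≤ -1`, `‖w‖² ≥ X² (9/16)(b²+v²)`, loss `≤ 2C(64/27)/(X³ b (b²+v²))`: fine for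
`λ³ ≥ 60 C`. Case 2, `y > b/4`: `A + C₀ log(1+r) ≥ yL > λL/(4X)`, `r = |v| L`, so `r ≥ r₀(m₀)` is large, `b < 4y ≤ |v|/10`,
`X|v| ≥ (1+r)^{1/2} ≥ 1`. Gain `≥ 0.4 ab/v² ≥ 0.4 λ²/(X|v|)²`, loss `≤ 2C(1+e^{Xy})/(X|v|)³`, `e^{Xy} ≤ e^A (1+r)^{1/4}`. -/
def S_PairV : Prop := ∀ (κ : ℝ → ℝ) (c C : ℝ), IsKer κ → 1 ≤ C → IsC κ c C → ∃ lam₀ : ℝ, 1 ≤ lam₀ ∧ ∀ lam : ℝ,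
  lam₀ ≤ lam → ∀ A C₀ : ℝ, 0 ≤ A → 0 ≤ C₀ → ∃ m₀ : ℝ, 1 ≤ m₀ ∧ ∀ L X a η y v : ℝ, 1 ≤ X → m₀ * X ≤ L →
  lam / X ≤ a → 0 ≤ η → |y| * L ≤ A + C₀ * Real.log (1 + |v| * L) → ¬(|y| = η ∧ v = 0) →
  2 * (Real.log X - c) + (Hh κ (X * (((y - η : ℝ) : ℂ) + v * Complex.I - a))).re +
    (Hh κ (X * (((-y - η : ℝ) : ℂ) + v * Complex.I - a))).re +
    Real.log ‖((y - η : ℝ) : ℂ) + v * Complex.I‖ + Real.log ‖((-y - η : ℝ) : ℂ) + v * Complex.I‖ ≤ 0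

/-- **ZNV.** Near zeros. `s₁ = 1/2 + η + it`. If `η ≤ 1/16` all cut-offs are `1` and PairV applies (sum `≤ 0`). If `η > 1/16`: `|y| ≤ 1/32`, so
`z = y - η + iv` has `Re z ≤ -1/32`, `log‖z‖ ≤ log‖z-a‖`, `|S1(X(z-a))| ≤ C/(X/32)³`, and there are `≤ C' log T` near zeros (Zct). -/
def S_ZNV : Prop := ∀ (κ : ℝ → ℝ) (c C : ℝ), IsKer κ → 1 ≤ C → IsC κ c C → ∃ lam₀ C' : ℝ, 1 ≤ lam₀ ∧ 0 ≤ C' ∧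
  ∀ lam : ℝ, lam₀ ≤ lam → ∀ A C₀ : ℝ, 0 ≤ A → 0 ≤ C₀ → ∃ m₀ : ℝ, 1 ≤ m₀ ∧ ∀ T lg : ℝ, 16 ≤ T →
  ∀ t ∈ Gl T lg A C₀, ∀ η : ℝ, 0 ≤ η → η ≤ 1 / 8 →
  riemannZeta (1 / 2 + η + t * Complex.I) ≠ 0 → ∀ X a : ℝ, 32 ≤ X → m₀ * X ≤ lg → lam / X ≤ a → 0 < a →
  a ≤ 1 / 16 → ∀ Z : Finset ℂ,
    (∀ ρ, ρ ∈ Z ↔ riemannZeta ρ = 0 ∧ 1 / 5 ≤ ρ.re ∧ |ρ.im - t| ≤ 1 / 8) →
    ∑ ρ ∈ Z, mz ρ * Phi κ c X a (Real.sqrt T) (ρ - (1 / 2 + η + t * Complex.I)) ≤ C' * Real.log T / X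

/-- **ZFV.** As ZFL: `Re z = β - 1/2 - η ≤ β - 1/2`. -/
def S_ZFV : Prop := ∀ (κ : ℝ → ℝ) (c C : ℝ), IsKer κ → 1 ≤ C → IsC κ c C → ∀ A C₀ : ℝ, 0 ≤ A → 0 ≤ C₀ →
  ∃ m₀ C' : ℝ, 1 ≤ m₀ ∧ 1 ≤ C' ∧ ∀ T lg : ℝ, 16 ≤ T → ∀ t ∈ Gl T lg A C₀, ∀ η : ℝ, 0 ≤ η → η ≤ 1 / 8 →
  ∀ X a : ℝ, 8 ≤ X → m₀ * X ≤ lg → 0 < a → a ≤ 1 / 16 → ∀ Z : Finset ℂ,
    (∀ ρ ∈ Z, riemannZeta ρ = 0 ∧ 1 / 8 < |ρ.im - t|) →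
    ∑ ρ ∈ Z, mz ρ * |Phi κ c X a (Real.sqrt T) (ρ - (1 / 2 + η + t * Complex.I))| ≤
      C' * Real.log T * (a + 1 / X)

/-- **PWaV.** As PWaL. -/
def S_PWaV : Prop := ∀ (κ : ℝ → ℝ) (c C : ℝ), IsKer κ → 1 ≤ C → IsC κ c C → ∃ lam : ℝ, 1 ≤ lam ∧
  ∀ A C₀ : ℝ, 0 ≤ A → 0 ≤ C₀ → ∃ m₀ X₀ K : ℝ, 1 ≤ m₀ ∧ 1 ≤ X₀ ∧ 0 ≤ K ∧ ∀ T lg : ℝ, 100 ≤ T → lg ≤ Real.log T →
  ∀ t ∈ Gl T lg A C₀, ∀ η : ℝ, 0 ≤ η → η ≤ 1 / 8 →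
  riemannZeta (1 / 2 + η + t * Complex.I) ≠ 0 → ∀ X a : ℝ, X₀ ≤ X → m₀ * X ≤ lg →
  lam / X ≤ a → a ≤ 2 * lam / X → riemannZeta (1 / 2 + η + t * Complex.I + a) ≠ 0 →
    Real.log ‖riemannZeta (1 / 2 + η + t * Complex.I)‖ ≤
      (Dz (wk κ X a) (Real.exp X) (1 / 2 + η + t * Complex.I)).re + K * (Real.log T / X)

/-- **PWs, final statement of part V.** The pointwise bound on the line `1/2 + η`, uniformly in `A ≥ 0`. -/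
def S_PWs : Prop := ∃ c : ℝ → ℕ → ℝ, (∀ x n, 0 ≤ c x n ∧ c x n ≤ 1) ∧ ∀ C₀ : ℝ, 0 ≤ C₀ →
  ∃ m₀ X₀ K : ℝ, 1 ≤ m₀ ∧ 1 ≤ X₀ ∧ 0 ≤ K ∧ ∀ T : ℝ, 100 ≤ T → ∀ A : ℝ, 0 ≤ A →
  ∀ t ∈ GG T A C₀, ∀ η : ℝ, 0 ≤ η → η ≤ 1 / 8 → ∀ x : ℝ, Real.exp X₀ ≤ x →
  m₀ * (1 + A) * Real.log x ≤ Real.log T →
    ‖riemannZeta (1 / 2 + η + t * Complex.I)‖ ≤
      Real.exp ((Dx (fun n => c x n * (n : ℝ) ^ (-η)) x t).re + K * (Real.log T / Real.log x))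

end Pool.Agent.Work.MP_56b8f5_nt.HZ
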