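import Pool.Agent.Work.MP_56b8f5_nt.HZ.StmtsU

/-!
MP_56b8f5_nt, block HZ, item DvL: the influence of the zeros off the line.
-/

set_option autoImplicit false

open MeasureTheory Set Filter Topology

noncomputable section

namespace Pool.Agent.Work.MP_56b8f5_nt.HZ

open Pool.Agent.Work.MP_56b8f5_nt.EM Pool.Agent.Work.MP_56b8f5_nt.WM Pool.Agent.Work.MP_56b8f5_nt.SH

theorem DvL_pf : S_DvL := by
  intro T C hT hC
  have hL : 0 ≤ Real.log T := Real.log_nonneg hT
  have hlg : ∀ u : ℝ, 0 ≤ Real.log (1 + |u| * Real.log T) := fun u =>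
    Real.log_nonneg (by have := mul_nonneg (abs_nonneg u) hL; linarith)
  have hle : ∀ (t : ℝ) (ρ : {ρ : ℂ // riemannZeta ρ = 0 ∧ 0 < ρ.re ∧ ρ.re < 1}),
      max 0 ((ρ.1.re - 1 / 2) * Real.log T - C * Real.log (1 + |ρ.1.im - t| * Real.log T)) ≤ Real.log T := by
    intro t ρ
    refine max_le hL ?_
    have h1 := mul_nonneg hC (hlg (ρ.1.im - t))
    have h2 : (ρ.1.re - 1 / 2) * Real.log T ≤ 1 * Real.log T :=
      mul_le_mul_of_nonneg_right (by linarith [ρ.2.2.2]) hL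
    linarith
  have hbdd : ∀ t : ℝ, BddAbove (Set.range fun ρ : {ρ : ℂ // riemannZeta ρ = 0 ∧ 0 < ρ.re ∧ ρ.re < 1} =>
      max 0 ((ρ.1.re - 1 / 2) * Real.log T - C * Real.log (1 + |ρ.1.im - t| * Real.log T))) := by
    intro t
    refine ⟨Real.log T, ?_⟩
    rintro _ ⟨ρ, rfl⟩
    exact hle t ρ
  refine ⟨fun t => ⟨Real.iSup_nonneg fun ρ => le_max_left _ _, Real.iSup_le (hle t) hL⟩, ?_, ?_⟩
  · refine LowerSemicontinuous.measurable ?_
    refine lowerSemicontinuous_ciSup hbdd fun ρ => Continuous.lowerSemicontinuous ?_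
    refine continuous_const.max (continuous_const.sub (continuous_const.mul ?_))
    refine Continuous.log (by fun_prop) fun t => ?_
    have h5 : 0 ≤ |ρ.1.im - t| * Real.log T := mul_nonneg (abs_nonneg _) hL
    exact (by linarith : 0 < 1 + |ρ.1.im - t| * Real.log T).ne'
  · intro A t hA
    constructor
    · rintro ⟨h1, h2, h3⟩
      refine ⟨h1, h2, Real.iSup_le (fun ρ => max_le hA ?_) hA⟩
      have := h3 ρ.1 ρ.2.1 ρ.2.2.1 ρ.2.2.2
      linarith
    · rintro ⟨h1, h2, h3⟩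
      refine ⟨h1, h2, fun ρ h4 h5 h6 => ?_⟩
      have h7 := (le_ciSup (hbdd t) ⟨ρ, h4, h5, h6⟩).trans h3
      have h8 := (le_max_right _ _).trans h7
      have h9 : (ρ.re - 1 / 2) * Real.log T - C * Real.log (1 + |ρ.im - t| * Real.log T) ≤ A := h8
      linarith

end Pool.Agent.Work.MP_56b8f5_nt.HZ
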