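import Pool.Agent.Work.MP_56b8f5_nt.HZ.StmtsU
import Pool.Agent.Work.MP_56b8f5_nt.HZ.Main

/-!
MP_56b8f5_nt, block HZ, item MainW: weighted moments over the whole interval `[T, 2T]`.
-/

set_option autoImplicit false

open MeasureTheory Set Filter Topology

noncomputable section

namespace Pool.Agent.Work.MP_56b8f5_nt.HZ

open Pool.Agent.Work.MP_56b8f5_nt.EM Pool.Agent.Work.MP_56b8f5_nt.WM Pool.Agent.Work.MP_56b8f5_nt.SH

namespace MainW

theorem az_cont : Continuous fun t : ℝ => ‖riemannZeta (1 / 2 + t * Complex.I)‖ := Main.az_cont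

theorem GG_mono {T A A' C C' : ℝ} (hT : 1 ≤ T) (hA : A ≤ A') (hC : C ≤ C') : GG T A C ⊆ GG T A' C' := by
  intro t h
  refine ⟨h.1, h.2.1, fun ρ h1 h2 h3 => (h.2.2 ρ h1 h2 h3).trans ?_⟩
  have hL : 0 ≤ Real.log T := Real.log_nonneg hT
  have h4 : 0 ≤ Real.log (1 + |ρ.im - t| * Real.log T) :=
    Real.log_nonneg (by have := mul_nonneg (abs_nonneg (ρ.im - t)) hL; linarith)
  nlinarith [mul_le_mul_of_nonneg_right hC h4]

theorem geo (N : ℕ) : ∑ n ∈ Finset.range N, Real.exp (-(n : ℝ)) ≤ 2 := by
  have h1 : ∀ n : ℕ, Real.exp (-(n : ℝ)) ≤ (1 / 2 : ℝ) ^ n := by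
    intro n
    have h2 : Real.exp (-(n : ℝ)) = Real.exp (-1) ^ n := by
      rw [← Real.exp_nat_mul]; congr 1; ring
    rw [h2]
    refine pow_le_pow_left₀ (Real.exp_pos _).le ?_ n
    have h3 := Real.add_one_le_exp (1 : ℝ)
    rw [Real.exp_neg, inv_eq_one_div]
    exact one_div_le_one_div_of_le (by norm_num) (by linarith)
  calc ∑ n ∈ Finset.range N, Real.exp (-(n : ℝ)) ≤ ∑ n ∈ Finset.range N, (1 / 2 : ℝ) ^ n :=
        Finset.sum_le_sum fun n _ => h1 n
    _ ≤ ∑' n : ℕ, (1 / 2 : ℝ) ^ n :=
        (summable_geometric_two).sum_le_tsum _ fun n _ => by positivity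
    _ = 2 := tsum_geometric_two

end MainW

open MainW

theorem MainW_pf (hU : S_UpU) (hM : S_Main) (hD : S_DvL) (hGG : S_GGm) : S_MainW := by
  obtain ⟨-, ⟨C₁, T₁, hT₁, hmes⟩, hlow⟩ := hM
  refine ⟨C₁, fun B hB => ?_⟩
  obtain ⟨A₁, c, T₂, hc, hT₂, hlow⟩ := hlow B hB
  refine ⟨max A₁ 0, c, hc, fun C hC => ?_⟩
  obtain ⟨K₁, T₃, hK₁, hT₃, hup⟩ := hU B C hB (by linarith)
  refine ⟨K₁ + 1, 2 * Real.exp (2 * K₁), max (max T₁ T₂) T₃, hT₃.trans (le_max_right _ _), fun T hT => ?_⟩
  have hTT₁ : T₁ ≤ T := ((le_max_left _ _).trans (le_max_left _ _)).trans hT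
  have hTT₂ : T₂ ≤ T := ((le_max_right _ _).trans (le_max_left _ _)).trans hT
  have hTT₃ : T₃ ≤ T := (le_max_right _ _).trans hT
  have hT3 : 3 ≤ T := hT₃.trans hTT₃
  have hT0 : 0 < T := by linarith
  have hA00 : 0 ≤ max A₁ 0 := le_max_right _ _
  obtain ⟨hD1, hD2, hD3⟩ := hD T C (by linarith) (by linarith)
  have hset : ∀ A : ℝ, 0 ≤ A → {t : ℝ | T ≤ t ∧ t ≤ 2 * T ∧ Dv T C t ≤ A} = GG T A C := by
    intro A hA
    ext t
    exact (hD3 A t hA).symm
  have hlog : 1 ≤ Real.log T := by
    rw [Real.le_log_iff_exp_le (by linarith)]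
    exact Real.exp_one_lt_d9.le.trans (by linarith)
  refine ⟨fun A hA => ?_, fun k hk hkB => ?_⟩
  · have h1 := hmes T hTT₁ A hA
    have h2 : {t : ℝ | T ≤ t ∧ t ≤ 2 * T ∧ A < Dv T C t} ⊆ Icc T (2 * T) \ GG T A 400 := by
      rintro t ⟨h3, h4, h5⟩
      refine ⟨⟨h3, h4⟩, fun h6 => ?_⟩
      have h7 := GG_mono (by linarith) le_rfl hC h6
      have h8 := ((hD3 A t (by linarith)).1 h7).2.2
      linarith
    have hfin : volume (Icc T (2 * T)) ≠ ⊤ := by
      rw [Real.volume_Icc]
      exact ENNReal.ofReal_ne_top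
    have h3 := measureReal_mono h2 (ne_top_of_le_ne_top hfin (measure_mono diff_subset))
    rw [measureReal_sdiff (Main.GG_sub T A 400) (hGG T A 400 (by linarith)) hfin] at h3
    have hvol : volume.real (Icc T (2 * T)) = T := by
      rw [Real.volume_real_Icc_of_le (by linarith)]
      ring
    rw [hvol] at h3
    rw [neg_div]
    linarith
  · set z : ℝ → ℝ := fun t => ‖riemannZeta (1 / 2 + t * Complex.I)‖ ^ (2 * k : ℝ) with hz
    set R : ℝ := T * Real.log T ^ (k ^ 2 : ℝ) with hR
    have hR0 : 0 ≤ R := by positivity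
    have hzc : Continuous z := az_cont.rpow_const fun _ => Or.inr (by positivity)
    have hz0 : ∀ t, 0 ≤ z t := fun t => Real.rpow_nonneg (norm_nonneg _) _
    have hzi : IntegrableOn z (Icc T (2 * T)) := hzc.continuousOn.integrableOn_compact isCompact_Icc
    refine ⟨fun K hK => ?_, fun A hA => ?_⟩
    · have hK0 : 0 ≤ K := by linarith
      have hwm : Measurable fun t : ℝ => Real.exp (-(K * Dv T C t)) :=
        Real.measurable_exp.comp ((hD2.const_mul K).neg)
      have hw1 : ∀ t, Real.exp (-(K * Dv T C t)) ≤ 1 := by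
        intro t
        refine Real.exp_le_one_iff.2 ?_
        have := mul_nonneg hK0 (hD1 t).1
        linarith
      have hwi : IntegrableOn (fun t => Real.exp (-(K * Dv T C t)) * z t) (Icc T (2 * T)) := by
        refine Integrable.mono' hzi (hwm.aestronglyMeasurable.mul hzc.aestronglyMeasurable) ?_
        filter_upwards with t
        rw [Real.norm_of_nonneg (mul_nonneg (Real.exp_pos _).le (hz0 t))]
        exact mul_le_of_le_one_left (hz0 t) (hw1 t)
      have hint : ∫ t in T..(2 * T), Real.exp (-(K * Dv T C t)) * z t =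
          ∫ t in Icc T (2 * T), Real.exp (-(K * Dv T C t)) * z t := by
        rw [intervalIntegral.integral_of_le (by linarith), integral_Icc_eq_integral_Ioc]
      have hint' : ∫ t in T..(2 * T), Real.exp (-(K * Dv T C t)) * ‖riemannZeta (1 / 2 + t * Complex.I)‖ ^ (2 * k : ℝ) =
          ∫ t in Icc T (2 * T), Real.exp (-(K * Dv T C t)) * z t := hint
      rw [hint']
      constructor
      · -- lower bound
        have h1 := hlow T hTT₂ (max A₁ 0) (le_max_left _ _) k hk hkB
        have hGs : GG T (max A₁ 0) 400 ⊆ Icc T (2 * T) := Main.GG_sub _ _ _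
        have hGm : MeasurableSet (GG T (max A₁ 0) 400) := hGG T _ _ (by linarith)
        have h2 : ∫ t in GG T (max A₁ 0) 400, Real.exp (-(max A₁ 0 * K)) * z t ≤
            ∫ t in GG T (max A₁ 0) 400, Real.exp (-(K * Dv T C t)) * z t := by
          refine setIntegral_mono_on ((hzi.mono_set hGs).const_mul _) (hwi.mono_set hGs) hGm fun t ht => ?_
          have h3 := GG_mono (by linarith) le_rfl hC ht
          have h4 := ((hD3 _ t hA00).1 h3).2.2
          refine mul_le_mul_of_nonneg_right (Real.exp_le_exp.2 ?_) (hz0 t)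
          nlinarith
        have h3 : ∫ t in GG T (max A₁ 0) 400, Real.exp (-(K * Dv T C t)) * z t ≤
            ∫ t in Icc T (2 * T), Real.exp (-(K * Dv T C t)) * z t := by
          refine setIntegral_mono_set hwi ?_ (LE.le.eventuallyLE hGs)
          exact Eventually.of_forall fun t => mul_nonneg (Real.exp_pos _).le (hz0 t)
        rw [integral_const_mul] at h2
        refine le_trans ?_ (h2.trans h3)
        calc c * Real.exp (-(max A₁ 0 * K)) * R = Real.exp (-(max A₁ 0 * K)) * (c * R) := by ring
          _ ≤ Real.exp (-(max A₁ 0 * K)) * ∫ t in GG T (max A₁ 0) 400, z t :=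
              mul_le_mul_of_nonneg_left h1 (Real.exp_pos _).le
      · -- upper bound
        obtain ⟨N, hN⟩ : ∃ N : ℕ, Real.log T < N := exists_nat_gt _
        have hGm : ∀ n : ℕ, MeasurableSet (GG T ((n : ℝ) + 1) C) := fun n => hGG T _ _ (by linarith)
        have hGs : ∀ n : ℕ, GG T ((n : ℝ) + 1) C ⊆ Icc T (2 * T) := fun n => Main.GG_sub _ _ _
        have hpt : ∀ t ∈ Icc T (2 * T), Real.exp (-(K * Dv T C t)) * z t ≤
            ∑ n ∈ Finset.range N, Real.exp (-(K * n)) * (GG T ((n : ℝ) + 1) C).indicator z t := by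
          intro t ht
          set n := ⌊Dv T C t⌋₊ with hn
          have h1 : (n : ℝ) ≤ Dv T C t := Nat.floor_le (hD1 t).1
          have h2 : Dv T C t < n + 1 := Nat.lt_floor_add_one _
          have h3 : n ∈ Finset.range N := by
            rw [Finset.mem_range]
            have : (n : ℝ) < N := (h1.trans (hD1 t).2).trans_lt hN
            exact_mod_cast this
          have h4 : t ∈ GG T ((n : ℝ) + 1) C :=
            (hD3 _ t (by positivity)).2 ⟨ht.1, ht.2, h2.le⟩
          calc Real.exp (-(K * Dv T C t)) * z t ≤ Real.exp (-(K * n)) * z t := by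
                refine mul_le_mul_of_nonneg_right (Real.exp_le_exp.2 ?_) (hz0 t)
                nlinarith
            _ = Real.exp (-(K * n)) * (GG T ((n : ℝ) + 1) C).indicator z t := by
                rw [Set.indicator_of_mem h4]
            _ ≤ _ := Finset.single_le_sum (f := fun n : ℕ => Real.exp (-(K * n)) *
                (GG T ((n : ℝ) + 1) C).indicator z t) (fun m _ => mul_nonneg (Real.exp_pos _).le
                  (Set.indicator_nonneg (fun t _ => hz0 t) t)) h3
        have hii : ∀ n ∈ Finset.range N, Integrable (fun t => Real.exp (-(K * n)) *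
            (GG T ((n : ℝ) + 1) C).indicator z t) (volume.restrict (Icc T (2 * T))) := by
          intro n _
          exact (Integrable.indicator hzi (hGm n)).const_mul _
        calc ∫ t in Icc T (2 * T), Real.exp (-(K * Dv T C t)) * z t
            ≤ ∫ t in Icc T (2 * T), ∑ n ∈ Finset.range N, Real.exp (-(K * n)) *
                (GG T ((n : ℝ) + 1) C).indicator z t :=
              setIntegral_mono_on hwi (integrable_finsetSum _ hii) measurableSet_Icc hpt
          _ = ∑ n ∈ Finset.range N, Real.exp (-(K * n)) * ∫ t in GG T ((n : ℝ) + 1) C, z t := by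
              rw [integral_finsetSum _ hii]
              refine Finset.sum_congr rfl fun n _ => ?_
              rw [integral_const_mul, setIntegral_indicator (hGm n),
                Set.inter_eq_self_of_subset_right (hGs n)]
          _ ≤ ∑ n ∈ Finset.range N, Real.exp (-(n : ℝ)) * (Real.exp (2 * K₁) * R) := by
              refine Finset.sum_le_sum fun n _ => ?_
              have h5 := hup T hTT₃ ((n : ℝ) + 1) (by positivity) k hk hkB
              have h6 : Real.exp (-(K * n)) * ∫ t in GG T ((n : ℝ) + 1) C, z t ≤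
                  Real.exp (-(K * n)) * (Real.exp (K₁ * (1 + ((n : ℝ) + 1))) * R) :=
                mul_le_mul_of_nonneg_left h5 (Real.exp_pos _).le
              refine h6.trans ?_
              have hn0 : (0 : ℝ) ≤ n := Nat.cast_nonneg n
              have e1 : Real.exp (-(K * n)) * (Real.exp (K₁ * (1 + ((n : ℝ) + 1))) * R) =
                  Real.exp (-(K * n) + K₁ * (1 + ((n : ℝ) + 1))) * R := by
                rw [Real.exp_add]; ring
              have e2 : Real.exp (-(n : ℝ)) * (Real.exp (2 * K₁) * R) =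
                  Real.exp (-(n : ℝ) + 2 * K₁) * R := by
                rw [Real.exp_add]; ring
              rw [e1, e2]
              refine mul_le_mul_of_nonneg_right (Real.exp_le_exp.2 ?_) hR0
              nlinarith
          _ = (∑ n ∈ Finset.range N, Real.exp (-(n : ℝ))) * (Real.exp (2 * K₁) * R) := by
              rw [Finset.sum_mul]
          _ ≤ 2 * (Real.exp (2 * K₁) * R) :=
              mul_le_mul_of_nonneg_right (geo N) (by positivity)
          _ = 2 * Real.exp (2 * K₁) * R := by ring
    · have hA0 : 0 ≤ A := hA00.trans hA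
      rw [hset A hA0]
      constructor
      · refine (hlow T hTT₂ A ((le_max_left _ _).trans hA) k hk hkB).trans ?_
        refine setIntegral_mono_set (hzi.mono_set (Main.GG_sub _ _ _)) ?_
          (LE.le.eventuallyLE (GG_mono (by linarith) le_rfl hC))
        exact Eventually.of_forall fun t => hz0 t
      · refine (hup T hTT₃ A hA0 k hk hkB).trans ?_
        refine mul_le_mul_of_nonneg_right ?_ hR0
        rw [mul_assoc, ← Real.exp_add]
        have h7 : Real.exp (K₁ * (1 + A)) ≤ Real.exp (2 * K₁ + (K₁ + 1) * A) :=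
          Real.exp_le_exp.2 (by nlinarith)
        have h8 := Real.exp_pos (2 * K₁ + (K₁ + 1) * A)
        linarith

end Pool.Agent.Work.MP_56b8f5_nt.HZ
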