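import Pool.Agent.Work.MP_56b8f5_nt.HZ.StmtsU
import Pool.Agent.Work.MP_56b8f5_nt.HZ.I_PW

/-!
MP_56b8f5_nt, block HZ, item PWL: the pointwise bound, with a parameter `lg` in place of `log T`, and its uniform version
PWU.
-/

set_option autoImplicit false

open MeasureTheory Set Filter Topology

noncomputable section

namespace Pool.Agent.Work.MP_56b8f5_nt.HZ

open Pool.Agent.Work.MP_56b8f5_nt.EM Pool.Agent.Work.MP_56b8f5_nt.WM Pool.Agent.Work.MP_56b8f5_nt.SH

open I_PW

theorem PWL_pf (hKex : S_Kex) (hKS1 : S_KS1) (hPWa : S_PWaL) (hKkt : S_Kkt) : S_PWL := by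
  obtain ⟨κ, hκ⟩ := hKex
  obtain ⟨c, C, hC1, hC⟩ := hKS1 κ hκ
  obtain ⟨lam, hlam, hmain⟩ := hPWa κ c C hκ hC1 hC
  refine ⟨cc κ lam, cc_mem hKkt hκ hlam, fun A C₀ hA hC₀ => ?_⟩
  obtain ⟨m₀, X₀, K, hm₀, hX₀, hK, hmain⟩ := hmain A C₀ hA hC₀
  refine ⟨m₀, X₀, K, hm₀, hX₀, hK, fun T lg hT hlg t ht x hx1 hx2 => ?_⟩
  by_cases hz : riemannZeta (1 / 2 + t * Complex.I) = 0
  · rw [hz, norm_zero]
    exact (Real.exp_pos _).le
  have hT0 : 0 < T := by linarith
  have hx0 : 0 < x := (Real.exp_pos _).trans_le hx1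
  obtain ⟨X, hX⟩ : ∃ X, X = Real.log x := ⟨_, rfl⟩
  have hXL : X₀ ≤ X := by
    rw [hX, Real.le_log_iff_exp_le hx0]
    exact hx1
  have hX0 : 0 < X := by linarith
  have hexp : Real.exp X = x := by rw [hX, Real.exp_log hx0]
  have hmX : m₀ * X ≤ lg := by rw [hX]; exact hx2
  obtain ⟨a₀, ha₀⟩ : ∃ a₀, a₀ = lam / X := ⟨_, rfl⟩
  have hlamX : 0 < lam / X := by positivity
  have hkey : Real.log ‖riemannZeta (1 / 2 + t * Complex.I)‖ ≤
      (Dx (wk κ X a₀) (Real.exp X) t).re + K * (Real.log T / X) := by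
    have hcont : Tendsto (fun a : ℝ => (Dx (wk κ X a) (Real.exp X) t).re + K * (Real.log T / X))
        (𝓝[>] a₀) (𝓝 ((Dx (wk κ X a₀) (Real.exp X) t).re + K * (Real.log T / X))) := by
      have h1 : Continuous (fun a : ℝ => (Dx (wk κ X a) (Real.exp X) t).re +
          K * (Real.log T / X)) := (cont_Dx κ X (Real.exp X) t).add continuous_const
      exact (h1.tendsto a₀).mono_left nhdsWithin_le_nhds
    refine ge_of_tendsto hcont ?_
    have hne : (1 / 2 + t * Complex.I + (a₀ : ℂ) : ℂ) ≠ 1 := by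
      intro h
      have h1 := congrArg Complex.im h
      simp only [Complex.add_im, Complex.mul_im, Complex.ofReal_re, Complex.ofReal_im,
        Complex.I_re, Complex.I_im, Complex.one_im] at h1
      have h2 : (1 / 2 : ℂ).im = 0 := by norm_num
      rw [h2] at h1
      have h3 : t = 0 := by linarith
      have h4 := ht.1
      linarith
    have hmap : Tendsto (fun a : ℝ => (1 / 2 + t * Complex.I + (a : ℂ) : ℂ)) (𝓝[>] a₀)
        (𝓝[≠] (1 / 2 + t * Complex.I + (a₀ : ℂ))) := by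
      refine tendsto_nhdsWithin_iff.2 ⟨?_, ?_⟩
      · have h1 : Continuous fun a : ℝ => (1 / 2 + t * Complex.I + (a : ℂ) : ℂ) := by fun_prop
        exact (h1.tendsto a₀).mono_left nhdsWithin_le_nhds
      · filter_upwards [self_mem_nhdsWithin] with a ha
        intro h
        have h1 : (a : ℂ) = (a₀ : ℂ) := add_left_cancel h
        have h2 : a = a₀ := by exact_mod_cast h1
        exact absurd h2 (ne_of_gt ha)
    have hlt : a₀ < 2 * lam / X := by
      rw [ha₀, mul_div_assoc]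
      linarith
    filter_upwards [hmap.eventually (ev_ne hne), self_mem_nhdsWithin,
      nhdsWithin_le_nhds (Iic_mem_nhds hlt)] with a h1 h2 h3
    refine hmain T lg hT hlg t ht hz X a hXL hmX ?_ h3 h1
    rw [← ha₀]
    exact le_of_lt h2
  have hpos : 0 < ‖riemannZeta (1 / 2 + t * Complex.I)‖ := norm_pos_iff.2 hz
  rw [Real.log_le_iff_le_exp hpos] at hkey
  rw [Dx_cc κ lam x t (by rw [← hX]; exact hX0), ← hX, ← ha₀]
  rw [hexp] at hkey
  exact hkey

theorem PWU_pf (hP : S_PWL) : S_PWU := by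
  obtain ⟨c, hc, hmain⟩ := hP
  refine ⟨c, hc, fun C₀ hC₀ => ?_⟩
  obtain ⟨m₀, X₀, K, hm₀, hX₀, hK, hmain⟩ := hmain (1 + C₀) C₀ (by linarith) hC₀
  refine ⟨m₀, X₀, K, hm₀, hX₀, hK, fun T hT A hA t ht x hx1 hx2 => ?_⟩
  have hL0 : 0 < Real.log T := Real.log_pos (by linarith)
  have hA1 : 0 < 1 + A := by linarith
  refine hmain T (Real.log T / (1 + A)) hT (div_le_self hL0.le (by linarith)) t ?_ x hx1 ?_
  · refine ⟨ht.1, ht.2.1, fun ρ h1 h2 h3 => ?_⟩
    have h4 := ht.2.2 ρ h1 h2 h3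
    set u := |ρ.im - t| with hu
    have hu0 : 0 ≤ u := abs_nonneg _
    set lg := Real.log T / (1 + A) with hlg
    have hlg0 : 0 ≤ lg := by positivity
    have hLlg : Real.log T = (1 + A) * lg := by rw [hlg]; field_simp
    have h5 : Real.log (1 + u * Real.log T) ≤ A + Real.log (1 + u * lg) := by
      have h6 : 1 + u * Real.log T ≤ (1 + A) * (1 + u * lg) := by
        rw [hLlg]
        nlinarith [mul_nonneg hu0 hlg0]
      have h7 : Real.log (1 + u * Real.log T) ≤ Real.log ((1 + A) * (1 + u * lg)) :=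
        Real.log_le_log (by positivity) h6
      rw [Real.log_mul hA1.ne' (by positivity)] at h7
      have h8 : Real.log (1 + A) ≤ A := by
        have := Real.log_le_sub_one_of_pos hA1
        linarith
      linarith
    have h6 : 0 ≤ Real.log (1 + u * lg) := Real.log_nonneg (by nlinarith [mul_nonneg hu0 hlg0])
    have h9 : (1 + A) * ((ρ.re - 1 / 2) * lg) ≤ (1 + A) * (1 + C₀ + C₀ * Real.log (1 + u * lg)) := by
      have h10 : (1 + A) * ((ρ.re - 1 / 2) * lg) = (ρ.re - 1 / 2) * Real.log T := by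
        rw [hLlg]; ring
      rw [h10]
      refine h4.trans ?_
      have h11 := mul_le_mul_of_nonneg_left h5 hC₀
      have h12 : 0 ≤ A * (C₀ * Real.log (1 + u * lg)) := by positivity
      nlinarith
    exact le_of_mul_le_mul_left h9 hA1
  · rw [le_div_iff₀ hA1]
    linarith

end Pool.Agent.Work.MP_56b8f5_nt.HZ
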