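import Pool.Agent.Work.MP_56b8f5_nt.HZ.StmtsU
import Pool.Agent.Work.MP_56b8f5_nt.HZ.I_PWa

/-!
MP_56b8f5_nt, block HZ, item PWaL: the pointwise inequality for almost all `a`, with a parameter `lg` in place of `log T`.
-/

set_option autoImplicit false

open MeasureTheory Set Filter Topology

noncomputable section

namespace Pool.Agent.Work.MP_56b8f5_nt.HZ

open Pool.Agent.Work.MP_56b8f5_nt.EM Pool.Agent.Work.MP_56b8f5_nt.WM Pool.Agent.Work.MP_56b8f5_nt.SH

open I_PWa

theorem PWaL_pf (hIdn : S_Idn) (hTR : S_TR) (hTL : S_TL) (hZN : S_ZNL) (hZF : S_ZFL) : S_PWaL := by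
  intro κ c C hκ hC hIC
  obtain ⟨lam, hlam1, hZN⟩ := hZN κ c C hκ hC hIC
  obtain ⟨C1, hC1, hTR⟩ := hTR κ c C hκ hIC
  obtain ⟨C2, hC2, hTL⟩ := hTL κ c C hκ hIC
  refine ⟨lam, hlam1, ?_⟩
  intro A C₀ hA hC₀
  obtain ⟨m₁, hm₁, hZN⟩ := hZN lam le_rfl A C₀ hA hC₀
  obtain ⟨m₂, C3, hm₂, hC3, hZF⟩ := hZF κ c C hκ hC hIC A C₀ hA hC₀
  refine ⟨max (max m₁ m₂) 5, 32 * lam,
    C3 * (2 * lam + 1) + C1 + C2 * (4 + 4 * lam), ?_, ?_, ?_, ?_⟩
  · exact le_trans (by norm_num) (le_max_right _ _)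
  · linarith
  · positivity
  intro T lg hTc hlg t ht hζ X a hX32 hmX ha1 ha2 hζa
  have hT0 : 0 < T := by linarith
  set L := Real.log T with hL
  have hL1 : 1 ≤ L := by
    rw [hL, Real.le_log_iff_exp_le hT0]
    have := Real.exp_one_lt_d9
    linarith
  have hL0 : 0 < L := by linarith
  have hX8 : 8 ≤ X := by linarith
  have hX1 : 1 ≤ X := by linarith
  have hX0 : 0 < X := by linarith
  have hm1 : m₁ * X ≤ lg := le_trans
    (mul_le_mul_of_nonneg_right (le_trans (le_max_left _ _) (le_max_left _ _)) hX0.le) hmX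
  have hm2 : m₂ * X ≤ lg := le_trans
    (mul_le_mul_of_nonneg_right (le_trans (le_max_right _ _) (le_max_left _ _)) hX0.le) hmX
  have hm5 : 5 * X ≤ L := le_trans (le_trans (mul_le_mul_of_nonneg_right (le_max_right _ _) hX0.le) hmX) hlg
  have ha0 : 0 < a := lt_of_lt_of_le (by positivity) ha1
  have ha16 : a ≤ 1 / 16 := by
    refine le_trans ha2 ?_
    rw [div_le_iff₀ hX0]
    linarith
  have htT : T ≤ t := ht.1
  have ht2T : t ≤ 2 * T := ht.2.1
  set H := Real.sqrt T with hH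
  have hHH : H * H = T := Real.mul_self_sqrt hT0.le
  have hH10 : 10 ≤ H := by
    rw [hH]
    apply Real.le_sqrt_of_sq_le
    linarith
  have hH4 : 4 ≤ H := by linarith
  have ht10 : 10 * H ≤ t := by
    have : 10 * H ≤ H * H := mul_le_mul_of_nonneg_right hH10 (by linarith)
    linarith
  -- the finite set of zeros
  have hfin := finite_zeros (1 / 2 + t * Complex.I) (3 * H) (by linarith) hζ (by
    have h1 := Complex.abs_im_le_norm (1 - (1 / 2 + t * Complex.I))
    have e : (1 - (1 / 2 + t * Complex.I) : ℂ).im = -t := by simp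
    rw [e, abs_neg, abs_of_pos (by linarith)] at h1
    linarith)
  have hZ : ∀ ρ, ρ ∈ hfin.toFinset ↔ riemannZeta ρ = 0 ∧
      ‖ρ - (1 / 2 + t * Complex.I)‖ ≤ 3 * H := by
    intro ρ
    simp
  obtain ⟨hI1, hI2⟩ := hIdn κ hκ c X a H t hX0 ha0 ha16 hH4 ht10 hζ hζa hfin.toFinset hZ
  obtain ⟨hR1, hR2⟩ := hTR X a H t hX1 ha0 ha16 hH4 ht10
  have hL2 := hTL X a H t (by linarith) ha0 ha16 hH4 ht10
  have hsum := sum_le κ c X a H t (C3 * L * (a + 1 / X)) hfin.toFinset (by linarith) hZ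
    (fun Z' hZ' => hZN T lg (by linarith) t ht hζ X a hX1 hm1 ha1 ha2 Z' hZ')
    (fun Z' hZ' => hZF T lg (by linarith) t ht X a hX8 hm2 ha0 ha16 Z' hZ')
  -- split the integral
  have hsplit : ∫ z, Real.log ‖riemannZeta (1 / 2 + t * Complex.I + z)‖ * Cu κ c X a H z =
      (∫ z, Real.log ‖riemannZeta (1 / 2 + t * Complex.I + z)‖ * Cr κ c X a H z) +
      ∫ z, Real.log ‖riemannZeta (1 / 2 + t * Complex.I + z)‖ *
        (Cu κ c X a H z - Cr κ c X a H z) := by
    have h1 : ∀ z : ℂ, Real.log ‖riemannZeta (1 / 2 + t * Complex.I + z)‖ *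
        (Cu κ c X a H z - Cr κ c X a H z) =
        Real.log ‖riemannZeta (1 / 2 + t * Complex.I + z)‖ * Cu κ c X a H z -
        Real.log ‖riemannZeta (1 / 2 + t * Complex.I + z)‖ * Cr κ c X a H z := fun z => by ring
    rw [show (fun z : ℂ => Real.log ‖riemannZeta (1 / 2 + t * Complex.I + z)‖ *
        (Cu κ c X a H z - Cr κ c X a H z)) = fun z =>
        Real.log ‖riemannZeta (1 / 2 + t * Complex.I + z)‖ * Cu κ c X a H z -
        Real.log ‖riemannZeta (1 / 2 + t * Complex.I + z)‖ * Cr κ c X a H z from funext h1,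
      integral_sub hI1 hR1]
    ring
  set J1 := ∫ z, Real.log ‖riemannZeta (1 / 2 + t * Complex.I + z)‖ * Cr κ c X a H z with hJ1
  set J2 := ∫ z, Real.log ‖riemannZeta (1 / 2 + t * Complex.I + z)‖ *
        (Cu κ c X a H z - Cr κ c X a H z) with hJ2
  set D := (Dx (wk κ X a) (Real.exp X) t).re with hD
  -- the exponential term
  have hexp : Real.exp (5 / 2 * X) / H ^ 2 ≤ 1 / X := by
    have h1 : H ^ 2 = Real.exp L := by
      rw [hL, Real.exp_log hT0, ← hHH]
      ring
    rw [h1, ← Real.exp_sub]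
    have h2 : 5 / 2 * X - L ≤ -X := by linarith
    refine le_trans (Real.exp_le_exp.2 h2) ?_
    rw [Real.exp_neg, one_div]
    apply inv_anti₀ hX0
    have := Real.add_one_le_exp X
    linarith
  have hexp0 : 0 ≤ Real.exp (5 / 2 * X) / H ^ 2 := by positivity
  have hX3 : 1 / X ^ 3 ≤ 1 / X := by
    apply one_div_le_one_div_of_le hX0
    nlinarith [sq_nonneg X, mul_pos hX0 hX0]
  have hlogt : Real.log t ≤ 2 * L := by
    have h1 : Real.log t ≤ Real.log (2 * T) := Real.log_le_log (by linarith) ht2T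
    rw [Real.log_mul (by norm_num) hT0.ne'] at h1
    have h2 : Real.log 2 < 1 := by
      have := Real.log_two_lt_d9
      linarith
    linarith
  have hlogt0 : 0 ≤ Real.log t := Real.log_nonneg (by linarith)
  have ha2' : a ≤ 2 * lam * (1 / X) := by
    rw [mul_one_div]
    exact ha2
  have hXi : 0 < 1 / X := by positivity
  have hXL : 1 / X ≤ L / X := by
    apply div_le_div_of_nonneg_right hL1 hX0.le
  have hb1 : |J1 + 2 * Real.pi * D| ≤ C1 * (L / X) := by
    refine le_trans hR2 ?_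
    rw [mul_div_assoc]
    exact mul_le_mul_of_nonneg_left (le_trans hexp hXL) (by linarith)
  have hb2 : |J2| ≤ C2 * (4 + 4 * lam) * (L / X) := by
    refine le_trans hL2 ?_
    have h1 : 1 / X ^ 3 + a + Real.exp (5 / 2 * X) / H ^ 2 ≤ (2 + 2 * lam) * (1 / X) := by
      linarith
    have h2 : 0 ≤ 1 / X ^ 3 + a + Real.exp (5 / 2 * X) / H ^ 2 := by positivity
    calc C2 * Real.log t * (1 / X ^ 3 + a + Real.exp (5 / 2 * X) / H ^ 2)
        ≤ C2 * (2 * L) * ((2 + 2 * lam) * (1 / X)) := by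
          apply mul_le_mul _ h1 h2 (by positivity)
          exact mul_le_mul_of_nonneg_left hlogt (by linarith)
      _ = C2 * (4 + 4 * lam) * (L / X) := by
          field_simp
          ring
  have hb3 : C3 * L * (a + 1 / X) ≤ C3 * (2 * lam + 1) * (L / X) := by
    have h1 : a + 1 / X ≤ (2 * lam + 1) * (1 / X) := by linarith
    calc C3 * L * (a + 1 / X) ≤ C3 * L * ((2 * lam + 1) * (1 / X)) :=
          mul_le_mul_of_nonneg_left h1 (by positivity)
      _ = C3 * (2 * lam + 1) * (L / X) := by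
          field_simp
  have hpi : 1 ≤ 2 * Real.pi := by
    have := Real.pi_gt_three
    linarith
  have hpi0 : 0 < 2 * Real.pi := by positivity
  have hmain : -(1 / (2 * Real.pi) * (J1 + J2)) ≤
      D + (C1 * (L / X) + C2 * (4 + 4 * lam) * (L / X)) := by
    have h1 : -(J1 + J2) ≤ 2 * Real.pi * D +
        (C1 * (L / X) + C2 * (4 + 4 * lam) * (L / X)) := by
      have := (abs_le.1 hb1).1
      have := (abs_le.1 hb2).1
      linarith
    have h2 : 0 ≤ C1 * (L / X) + C2 * (4 + 4 * lam) * (L / X) := by positivity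
    have h3 : 2 * Real.pi * D + (C1 * (L / X) + C2 * (4 + 4 * lam) * (L / X)) ≤
        2 * Real.pi * (D + (C1 * (L / X) + C2 * (4 + 4 * lam) * (L / X))) := by
      nlinarith
    have h4 : -(1 / (2 * Real.pi) * (J1 + J2)) = -(J1 + J2) / (2 * Real.pi) := by
      field_simp
    rw [h4, div_le_iff₀ hpi0]
    linarith
  rw [hI2, hsplit]
  have hring : (C3 * (2 * lam + 1) + C1 + C2 * (4 + 4 * lam)) * (L / X) =
      C3 * (2 * lam + 1) * (L / X) + (C1 * (L / X) + C2 * (4 + 4 * lam) * (L / X)) := by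
    ring
  rw [hring]
  linarith

end Pool.Agent.Work.MP_56b8f5_nt.HZ
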