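import Pool.Agent.Work.MP_56b8f5_nt.HZ.StmtsU
import Pool.Agent.Work.MP_56b8f5_nt.HZ.Main

/-!
MP_56b8f5_nt, block HZ, item UpU: the upper bound on `GG T A C`, uniformly in `A`.
-/

set_option autoImplicit false

open MeasureTheory Set Filter Topology

noncomputable section

namespace Pool.Agent.Work.MP_56b8f5_nt.HZ

open Pool.Agent.Work.MP_56b8f5_nt.EM Pool.Agent.Work.MP_56b8f5_nt.WM Pool.Agent.Work.MP_56b8f5_nt.SH

namespace UpU

/-- The trivial bound for the Dirichlet polynomial. -/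
theorem Dx_le {c : ℕ → ℝ} (hc : ∀ n, 0 ≤ c n ∧ c n ≤ 1) {x : ℝ} (hx : 0 ≤ x) (t : ℝ) :
    ‖Dx c x t‖ ≤ x := by
  unfold Dx
  refine (norm_sum_le _ _).trans ?_
  have h : ∀ n ∈ Finset.Icc 1 ⌊x⌋₊, ‖((ArithmeticFunction.vonMangoldt n / Real.log n * c n : ℝ) : ℂ) *
      (n : ℂ) ^ (-(1 / 2 + t * Complex.I))‖ ≤ 1 := by
    intro n hn
    have hn1 : 1 ≤ n := (Finset.mem_Icc.1 hn).1
    have hnr : (1 : ℝ) ≤ n := by exact_mod_cast hn1
    have h1 : ‖(n : ℂ) ^ (-(1 / 2 + t * Complex.I))‖ ≤ 1 := by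
      rw [Complex.norm_natCast_cpow_of_pos hn1]
      refine Real.rpow_le_one_of_one_le_of_nonpos hnr ?_
      simp
    have h2 : ‖((ArithmeticFunction.vonMangoldt n / Real.log n * c n : ℝ) : ℂ)‖ ≤ 1 := by
      have h3 : 0 ≤ ArithmeticFunction.vonMangoldt n := ArithmeticFunction.vonMangoldt_nonneg
      have h4 : ArithmeticFunction.vonMangoldt n ≤ Real.log n := ArithmeticFunction.vonMangoldt_le_log
      have h5 : 0 ≤ Real.log n := Real.log_nonneg hnr
      have h6 : ArithmeticFunction.vonMangoldt n / Real.log n ≤ 1 := div_le_one_of_le₀ h4 h5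
      have h7 : 0 ≤ ArithmeticFunction.vonMangoldt n / Real.log n := div_nonneg h3 h5
      rw [Complex.norm_real, Real.norm_of_nonneg (mul_nonneg h7 (hc n).1)]
      exact mul_le_one₀ h6 (hc n).1 (hc n).2
    rw [norm_mul]
    exact mul_le_one₀ h2 (norm_nonneg _) h1
  refine (Finset.sum_le_sum h).trans ?_
  rw [Finset.sum_const, Nat.card_Icc, nsmul_eq_mul, mul_one, Nat.add_sub_cancel]
  exact Nat.floor_le hx

/-- From a constant bound. -/
theorem of_bound {T A C k B Q : ℝ} (hT : 3 ≤ T) (hk : 0 < k) (hkB : k ≤ B) (hQ : 0 ≤ Q)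
    (h : ∀ t ∈ GG T A C, ‖riemannZeta (1 / 2 + t * Complex.I)‖ ≤ Real.exp Q) :
    ∫ t in GG T A C, ‖riemannZeta (1 / 2 + t * Complex.I)‖ ^ (2 * k : ℝ) ≤
      Real.exp (2 * B * Q) * (T * Real.log T ^ (k ^ 2 : ℝ)) := by
  have hfin : volume (GG T A C) < ⊤ :=
    (measure_mono (Main.GG_sub T A C)).trans_lt (by simp [Real.volume_Icc])
  have h1 : ∀ t ∈ GG T A C, ‖‖riemannZeta (1 / 2 + t * Complex.I)‖ ^ (2 * k : ℝ)‖ ≤ Real.exp (2 * B * Q) := by
    intro t ht
    rw [Real.norm_of_nonneg (Real.rpow_nonneg (norm_nonneg _) _)]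
    calc ‖riemannZeta (1 / 2 + t * Complex.I)‖ ^ (2 * k : ℝ) ≤ Real.exp Q ^ (2 * k : ℝ) :=
          Real.rpow_le_rpow (norm_nonneg _) (h t ht) (by linarith)
      _ = Real.exp (Q * (2 * k)) := (Real.exp_mul _ _).symm
      _ ≤ Real.exp (2 * B * Q) := Real.exp_le_exp.2 (by nlinarith)
  have h4 := norm_setIntegral_le_of_norm_le_const hfin h1
  have h5 : volume.real (GG T A C) ≤ T := by
    refine (measureReal_mono (Main.GG_sub T A C) (by simp [Real.volume_Icc])).trans ?_
    rw [Measure.real, Real.volume_Icc, ENNReal.toReal_ofReal (by linarith)]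
    linarith
  have hlog : 1 ≤ Real.log T := by
    rw [Real.le_log_iff_exp_le (by linarith)]
    exact Real.exp_one_lt_d9.le.trans (by linarith)
  have hL1 : 1 ≤ Real.log T ^ (k ^ 2 : ℝ) := Real.one_le_rpow hlog (by positivity)
  calc ∫ t in GG T A C, ‖riemannZeta (1 / 2 + t * Complex.I)‖ ^ (2 * k : ℝ)
      ≤ Real.exp (2 * B * Q) * volume.real (GG T A C) := (le_abs_self _).trans h4
    _ ≤ Real.exp (2 * B * Q) * T := mul_le_mul_of_nonneg_left h5 (Real.exp_pos _).le
    _ ≤ Real.exp (2 * B * Q) * (T * Real.log T ^ (k ^ 2 : ℝ)) := by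
        refine mul_le_mul_of_nonneg_left ?_ (Real.exp_pos _).le
        exact le_mul_of_one_le_right (by linarith) hL1

end UpU

theorem UpU_pf (hPW : S_PWU) (hHar : S_HarV) (hGG : S_GGm) (hZgr : S_Zgr) : S_UpU := by
  intro B C₀ hB hC₀
  obtain ⟨c, hc, h⟩ := hPW
  obtain ⟨m₀, X₀, K, hm, hX₀, hK, h1⟩ := h C₀ hC₀
  obtain ⟨C', T₂, hC', hT₂, h2⟩ := hHar B K hB hK
  obtain ⟨Cz, hCz, hz⟩ := hZgr
  have hlz : 0 ≤ Real.log (2 * Cz) := Real.log_nonneg (by linarith)
  set Q : ℝ := 4 * m₀ + 4 * K * m₀ + Real.log (2 * Cz) + 4 * m₀ * X₀ with hQ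
  have hQ0 : 0 ≤ Q := by positivity
  refine ⟨C' * m₀ + 2 * B * Q, max (max 100 T₂) (Real.exp (Real.exp X₀)), by positivity,
    le_trans (by norm_num) ((le_max_left (100 : ℝ) T₂).trans (le_max_left _ _)), fun T hT A hA k hk hkB => ?_⟩
  have hT100 : 100 ≤ T := ((le_max_left _ _).trans (le_max_left _ _)).trans hT
  have hTT₂ : T₂ ≤ T := ((le_max_right _ _).trans (le_max_left _ _)).trans hT
  have hTX : Real.exp (Real.exp X₀) ≤ T := (le_max_right _ _).trans hT
  have hT0 : 0 < T := by linarith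
  have hT3 : 3 ≤ T := by linarith
  set L := Real.log T with hL
  have hLX : Real.exp X₀ ≤ L := by rw [hL, Real.le_log_iff_exp_le hT0]; exact hTX
  have hL0 : 0 < L := (Real.exp_pos _).trans_le hLX
  have hA1 : 0 < 1 + A := by linarith
  have hm0 : 0 < m₀ := by linarith
  have hmA : 0 < m₀ * (1 + A) := by positivity
  have hmA1 : 1 ≤ m₀ * (1 + A) := by nlinarith
  have hlogT : 1 ≤ L ^ (k ^ 2 : ℝ) := by
    have h3 : 1 ≤ L := by
      have := Real.add_one_le_exp X₀
      linarith
    exact Real.one_le_rpow h3 (by positivity)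
  have hfinal : ∀ q : ℝ, q ≤ (C' * m₀ + 2 * B * Q) * (1 + A) →
      Real.exp q * (T * L ^ (k ^ 2 : ℝ)) ≤
        Real.exp ((C' * m₀ + 2 * B * Q) * (1 + A)) * (T * L ^ (k ^ 2 : ℝ)) := by
    intro q hq
    exact mul_le_mul_of_nonneg_right (Real.exp_le_exp.2 hq) (by positivity)
  by_cases hi : m₀ * (1 + A) * Real.log L ≤ L
  · -- Harper's bound
    have hb1 : 1 / (m₀ * (1 + A)) ≤ 1 := by
      rw [div_le_one hmA]; exact hmA1
    have h3 := h2 T hTT₂ (1 / (m₀ * (1 + A))) (by positivity) hb1 (by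
      rw [div_mul_eq_mul_div, one_mul, le_div_iff₀ hmA]
      linarith) c hc (GG T A C₀) (hGG T A C₀ (by linarith)) (Main.GG_sub T A C₀) (by
        intro t ht x hx1 hx2
        have hx0 : 0 < x := hL0.trans_le hx1
        refine h1 T hT100 A hA t ht x (hLX.trans hx1) ?_
        have h4 : Real.log x ≤ 1 / (m₀ * (1 + A)) * L := by
          rw [hL, ← Real.log_rpow hT0]
          exact Real.log_le_log hx0 hx2
        rw [div_mul_eq_mul_div, one_mul, le_div_iff₀ hmA] at h4
        linarith) k hk hkB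
    refine h3.trans (hfinal _ ?_)
    rw [div_div_eq_mul_div, div_one]
    have : 0 ≤ 2 * B * Q * (1 + A) := by positivity
    nlinarith
  · rw [not_le] at hi
    have hbd : ∀ t ∈ GG T A C₀, ‖riemannZeta (1 / 2 + t * Complex.I)‖ ≤ Real.exp (Q * (1 + A)) := by
      intro t ht
      by_cases hii : 4 * (m₀ * (1 + A)) * X₀ ≤ L
      · set X := L / (4 * (m₀ * (1 + A))) with hX
        have hXX : X₀ ≤ X := by
          rw [hX, le_div_iff₀ (by positivity)]
          linarith
        have hX0 : 0 < X := by linarith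
        have hXlog : 4 * X ≤ Real.log L := by
          have h5 : L / (m₀ * (1 + A)) < Real.log L := by
            rw [div_lt_iff₀ hmA]
            linarith
          have h6 : 4 * X = L / (m₀ * (1 + A)) := by
            rw [hX]; field_simp
          linarith
        have hLmA : L = 4 * (m₀ * (1 + A)) * X := by rw [hX]; field_simp
        have hexpX : Real.exp X ≤ 4 * (m₀ * (1 + A)) := by
          have h7 : X ≤ Real.exp X := by linarith [Real.add_one_le_exp X]
          have h8 : Real.exp X * Real.exp X ≤ L := by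
            rw [← Real.exp_add, ← Real.le_log_iff_exp_le hL0]
            linarith
          have h9 : Real.exp X * X ≤ 4 * (m₀ * (1 + A)) * X := by
            rw [← hLmA]
            exact (mul_le_mul_of_nonneg_left h7 (Real.exp_pos _).le).trans h8
          exact le_of_mul_le_mul_right h9 hX0
        have h4 := h1 T hT100 A hA t ht (Real.exp X) (Real.exp_le_exp.2 hXX) (by
          rw [Real.log_exp, ← hL]
          rw [hLmA]
          nlinarith)
        refine h4.trans (Real.exp_le_exp.2 ?_)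
        rw [Real.log_exp, ← hL]
        have h10 : (Dx (c (Real.exp X)) (Real.exp X) t).re ≤ 4 * (m₀ * (1 + A)) :=
          ((Complex.re_le_norm _).trans (UpU.Dx_le (hc _) (Real.exp_pos X).le t)).trans hexpX
        have h11 : L / X = 4 * (m₀ * (1 + A)) := by
          rw [div_eq_iff hX0.ne']
          exact hLmA
        rw [h11]
        have h12 : 0 ≤ Real.log (2 * Cz) * (1 + A) := by positivity
        have h13 : 0 ≤ 4 * m₀ * X₀ * (1 + A) := by positivity
        rw [hQ]
        nlinarith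
      · rw [not_le] at hii
        have htT := ht.1
        have ht2 := ht.2.1
        have h4 := hz (1 / 2 + t * Complex.I) (by simp; norm_num) (by simp; norm_num) (by
          simp
          exact le_abs.2 (Or.inl (by linarith)))
        have h5 : (1 / 2 + (t : ℂ) * Complex.I).im = t := by simp
        rw [h5, abs_of_pos (by linarith)] at h4
        have h6 : Cz * t ≤ Real.exp (Real.log (2 * Cz) + L) := by
          rw [Real.exp_add, Real.exp_log (by linarith), hL, Real.exp_log hT0]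
          nlinarith
        refine (h4.trans h6).trans (Real.exp_le_exp.2 ?_)
        have h7 : Real.log (2 * Cz) ≤ Real.log (2 * Cz) * (1 + A) := by nlinarith
        have h8 : 0 ≤ 4 * m₀ * (1 + A) := by positivity
        have h9 : 0 ≤ 4 * K * m₀ * (1 + A) := by positivity
        rw [hQ]
        nlinarith
    refine (UpU.of_bound hT3 hk hkB (by positivity) hbd).trans (hfinal _ ?_)
    have : 0 ≤ C' * m₀ * (1 + A) := by positivity
    nlinarith

end Pool.Agent.Work.MP_56b8f5_nt.HZ
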