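import Pool.Agent.Work.MP_56b8f5_nt.HZ.StmtsU
import Pool.Agent.Work.MP_56b8f5_nt.HZ.I_ZF

/-!
MP_56b8f5_nt, block HZ, item ZFL: the far zeros, with a parameter `lg` in place of `log T`.
-/

set_option autoImplicit false

open MeasureTheory Set Filter Topology

noncomputable section

namespace Pool.Agent.Work.MP_56b8f5_nt.HZ

open Pool.Agent.Work.MP_56b8f5_nt.EM Pool.Agent.Work.MP_56b8f5_nt.WM Pool.Agent.Work.MP_56b8f5_nt.SH

open I_ZF

theorem ZFL_pf (hZct : S_Zct) : S_ZFL := by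
  intro κ c C _hκ hC1 hC A C₀ hA hC₀
  obtain ⟨C₁, hC₁, hct⟩ := hZct
  set S : ℝ := 64 + 4 * ∑' k : ℤ, 1 / (k : ℝ) ^ 2 with hS
  have hsum : Summable fun k : ℤ => 1 / (k : ℝ) ^ 2 :=
    Real.summable_one_div_int_pow.mpr (by norm_num)
  have hS1 : 64 ≤ S := by
    have : 0 ≤ ∑' k : ℤ, 1 / (k : ℝ) ^ 2 := tsum_nonneg fun k => by positivity
    linarith
  have hEA : 1 ≤ Real.exp A := Real.one_le_exp hA
  have hK1 : 1 ≤ 18 * C * Real.exp A + 1 := by
    have : 0 ≤ 18 * C * Real.exp A := by positivity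
    linarith
  refine ⟨max (max 1 (4 * C₀)) ((8 * C₀) ^ 4),
    (18 * C * Real.exp A + 1) * (2 * C₁ * S), (le_max_left _ _).trans (le_max_left _ _), ?_, ?_⟩
  · have h1 : 1 ≤ 2 * C₁ * S := by nlinarith
    nlinarith
  intro T lg hT16 t ht X a hX hXL ha ha' Z hZ
  have hT0 : 0 < T := by linarith
  set L := Real.log T with hLdef
  have hX0 : 0 < X := by linarith
  have hM1 : 1 ≤ max (max 1 (4 * C₀)) ((8 * C₀) ^ 4) := (le_max_left _ _).trans (le_max_left _ _)
  have hM2 : 4 * C₀ ≤ max (max 1 (4 * C₀)) ((8 * C₀) ^ 4) := (le_max_right _ _).trans (le_max_left _ _)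
  have hM3 : (8 * C₀) ^ 4 ≤ max (max 1 (4 * C₀)) ((8 * C₀) ^ 4) := le_max_right _ _
  have hLC : (8 * C₀) ^ 4 ≤ lg := by
    refine hM3.trans (le_trans ?_ hXL)
    nlinarith
  have hXL1 : X ≤ lg := by
    refine le_trans ?_ hXL
    nlinarith
  have hXC : 4 * C₀ * X ≤ lg := by
    refine le_trans ?_ hXL
    nlinarith
  have hlg8 : 8 ≤ lg := hX.trans hXL1
  have hlg0 : 0 < lg := by linarith
  have hL0 : 0 < L := Real.log_pos (by linarith)
  set s := Real.sqrt T with hs
  have hs4 : 4 ≤ s := by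
    rw [hs, Real.le_sqrt (by norm_num) hT0.le]
    linarith
  have hss : s * s = T := Real.mul_self_sqrt hT0.le
  obtain ⟨htT, htT2, hGG⟩ := ht
  have hzim : ∀ ρ : ℂ, (ρ - (1 / 2 + t * Complex.I)).im = ρ.im - t := by
    intro ρ
    simp
  have hzre : ∀ ρ : ℂ, (ρ - (1 / 2 + t * Complex.I)).re = ρ.re - 1 / 2 := by
    intro ρ
    simp
  -- the zeros which count
  set Z' := Z.filter fun ρ => 1 / 5 ≤ ρ.re ∧ |ρ.im - t| ≤ 2 * s with hZ'
  have hred : ∑ ρ ∈ Z, mz ρ * |Phi κ c X a s (ρ - (1 / 2 + t * Complex.I))| =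
      ∑ ρ ∈ Z', mz ρ * |Phi κ c X a s (ρ - (1 / 2 + t * Complex.I))| := by
    rw [hZ', Finset.sum_filter]
    refine Finset.sum_congr rfl fun ρ hρ => ?_
    split_ifs with h
    · rfl
    · obtain ⟨-, h2⟩ := hZ ρ hρ
      rw [Phi_zero κ c X a s _ hX0 (by linarith) (by rw [hzim]; exact h2), abs_zero, mul_zero]
      rw [hzre, hzim]
      rcases not_and_or.mp h with h3 | h3
      · left
        push Not at h3
        linarith
      · right
        push Not at h3
        exact h3.le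
  rw [hred]
  -- the pointwise bound
  have hpt : ∀ ρ ∈ Z', |Phi κ c X a s (ρ - (1 / 2 + t * Complex.I))| ≤
      (18 * C * Real.exp A + 1) * (a + 1 / X) / (ρ.im - t) ^ 2 := by
    intro ρ hρ
    rw [hZ', Finset.mem_filter] at hρ
    obtain ⟨hρZ, hρre, hρim⟩ := hρ
    obtain ⟨hρ0, hρv⟩ := hZ ρ hρZ
    have hρ1 : ρ.re < 1 := by
      by_contra h
      push Not at h
      exact riemannZeta_ne_zero_of_one_le_re h hρ0
    have hG := hGG ρ hρ0 (by linarith) hρ1
    have h1 := Phi_bound κ c C hC1 hC X a s (Real.exp A) (ρ - (1 / 2 + t * Complex.I)) hX ha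
      (by rw [hzim]; exact hρv) hEA (by
        rw [hzre, hzim]
        set u := |ρ.im - t| with hu
        have hu0 : 0 ≤ u := abs_nonneg _
        have h2 : Real.log (1 + u * lg) ≤ Real.log (1 + u) + Real.log (1 + lg) := by
          rw [← Real.log_mul (by positivity) (by positivity)]
          refine Real.log_le_log (by positivity) ?_
          nlinarith
        have hlu : 0 ≤ Real.log (1 + u) := Real.log_nonneg (by linarith)
        have hlL : 0 ≤ Real.log (1 + lg) := Real.log_nonneg (by linarith)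
        have h3 : X * (ρ.re - 1 / 2) ≤ A + Real.log (1 + u) + Real.log X := by
          have h4 : (ρ.re - 1 / 2) * lg ≤ A + C₀ * (Real.log (1 + u) + Real.log (1 + lg)) := by
            refine hG.trans ?_
            gcongr
          have h5 : ρ.re - 1 / 2 ≤ (A + C₀ * (Real.log (1 + u) + Real.log (1 + lg))) / lg := by
            rw [le_div_iff₀ hlg0]
            exact h4
          have h6 : X * (ρ.re - 1 / 2) ≤
              X * ((A + C₀ * (Real.log (1 + u) + Real.log (1 + lg))) / lg) := by gcongr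
          refine h6.trans ?_
          have h7 : X * ((A + C₀ * (Real.log (1 + u) + Real.log (1 + lg))) / lg) =
              X / lg * A + C₀ * X / lg * Real.log (1 + u) + C₀ * X / lg * Real.log (1 + lg) := by
            field_simp
            ring
          rw [h7]
          have h8 : X / lg ≤ 1 := (div_le_one hlg0).mpr hXL1
          have h9 : C₀ * X / lg ≤ 1 := by
            rw [div_le_one hlg0]
            have : 0 ≤ C₀ * X := by positivity
            linarith
          have h10 := explem C₀ lg X hC₀ hLC hX hXL1 hXC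
          have h11 : X / lg * A ≤ 1 * A := by gcongr
          have h12 : C₀ * X / lg * Real.log (1 + u) ≤ 1 * Real.log (1 + u) := by gcongr
          linarith
        refine (Real.exp_le_exp.mpr h3).trans ?_
        rw [Real.exp_add, Real.exp_add, Real.exp_log (by positivity), Real.exp_log hX0])
    rw [hzim] at h1
    exact h1
  -- grouping
  set K₁ := (18 * C * Real.exp A + 1) * (a + 1 / X) with hK₁
  have hK₁0 : 0 ≤ K₁ := by positivity
  have hmz : ∀ ρ : ℂ, 0 ≤ mz ρ := fun ρ => Nat.cast_nonneg _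
  set f : ℂ → ℤ := fun ρ => round (ρ.im - t) with hf
  have hgroup : ∑ ρ ∈ Z', mz ρ * |Phi κ c X a s (ρ - (1 / 2 + t * Complex.I))| =
      ∑ k ∈ Z'.image f, ∑ ρ ∈ Z' with f ρ = k,
        mz ρ * |Phi κ c X a s (ρ - (1 / 2 + t * Complex.I))| :=
    (Finset.sum_fiberwise_of_maps_to (fun ρ hρ => Finset.mem_image_of_mem f hρ) _).symm
  rw [hgroup]
  have hfib : ∀ k ∈ Z'.image f, ∑ ρ ∈ Z' with f ρ = k,
      mz ρ * |Phi κ c X a s (ρ - (1 / 2 + t * Complex.I))| ≤
      K₁ * (2 * C₁ * L) * ((if k = 0 then 64 else 0) + 4 * (1 / (k : ℝ) ^ 2)) := by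
    intro k hk
    obtain ⟨ρ₀, hρ₀, hk₀⟩ := Finset.mem_image.mp hk
    have hkb : |(k : ℝ)| ≤ 2 * s + 1 / 2 := by
      rw [hZ', Finset.mem_filter] at hρ₀
      have h1 := abs_sub_round (ρ₀.im - t)
      have h2 : ((round (ρ₀.im - t) : ℤ) : ℝ) = (k : ℝ) := by rw [← hk₀]
      rw [h2] at h1
      have h3 := abs_sub_abs_le_abs_sub (k : ℝ) (ρ₀.im - t)
      rw [abs_sub_comm (k : ℝ) (ρ₀.im - t)] at h3
      linarith [hρ₀.2.2]
    rw [abs_le] at hkb
    have htk : 4 ≤ |t + k| ∧ Real.log |t + k| ≤ 2 * L := by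
      have h1 : 4 ≤ t + k := by nlinarith
      have h2 : t + k ≤ T ^ 2 := by nlinarith
      rw [abs_of_pos (by linarith)]
      refine ⟨h1, ?_⟩
      have h3 := Real.log_le_log (by linarith) h2
      rw [Real.log_pow] at h3
      exact_mod_cast h3
    have hcount : ∑ ρ ∈ Z' with f ρ = k, mz ρ ≤ C₁ * (2 * L) := by
      refine (hct (t + k) htk.1 _ ?_).trans ?_
      · intro ρ hρ
        rw [Finset.mem_filter, hZ', Finset.mem_filter] at hρ
        obtain ⟨⟨hρZ, hρre, -⟩, hρk⟩ := hρ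
        refine ⟨(hZ ρ hρZ).1, hρre, ?_⟩
        have h1 := abs_sub_round (ρ.im - t)
        have h2 : ((round (ρ.im - t) : ℤ) : ℝ) = (k : ℝ) := by rw [← hρk]
        rw [h2] at h1
        rwa [← sub_sub]
      · gcongr
        exact htk.2
    have hw : ∀ ρ ∈ Z'.filter (fun ρ => f ρ = k), 1 / (ρ.im - t) ^ 2 ≤
        (if k = 0 then 64 else 0) + 4 * (1 / (k : ℝ) ^ 2) := by
      intro ρ hρ
      rw [Finset.mem_filter, hZ', Finset.mem_filter] at hρ
      obtain ⟨⟨hρZ, hρre, -⟩, hρk⟩ := hρ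
      have hv := (hZ ρ hρZ).2
      have h1 := abs_sub_round (ρ.im - t)
      have h2 : ((round (ρ.im - t) : ℤ) : ℝ) = (k : ℝ) := by rw [← hρk]
      rw [h2] at h1
      set v := ρ.im - t with hvdef
      have hv2 : v ^ 2 = |v| ^ 2 := (sq_abs _).symm
      split_ifs with h0
      · have h3 : 1 / v ^ 2 ≤ 64 := by
          rw [hv2, div_le_iff₀ (by positivity)]
          nlinarith
        have h4 : 0 ≤ 4 * (1 / (k : ℝ) ^ 2) := by positivity
        linarith
      · have hk1 : 1 ≤ |(k : ℝ)| := by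
          have : 1 ≤ |k| := Int.one_le_abs h0
          exact_mod_cast this
        have h3 : |(k : ℝ)| - |v| ≤ 1 / 2 := by
          have h4 := abs_sub_abs_le_abs_sub (k : ℝ) v
          rw [abs_sub_comm (k : ℝ) v] at h4
          linarith
        have h4 : |(k : ℝ)| / 2 ≤ |v| := by linarith
        have hk2 : (k : ℝ) ^ 2 = |(k : ℝ)| ^ 2 := (sq_abs _).symm
        rw [zero_add, hv2, hk2, ← mul_div_assoc, mul_one, div_le_div_iff₀ (by positivity)
          (by positivity)]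
        nlinarith
    set W : ℝ := (if k = 0 then 64 else 0) + 4 * (1 / (k : ℝ) ^ 2) with hW
    have hW0 : 0 ≤ W := by
      rw [hW]
      split_ifs <;> positivity
    calc ∑ ρ ∈ Z' with f ρ = k, mz ρ * |Phi κ c X a s (ρ - (1 / 2 + t * Complex.I))|
        ≤ ∑ ρ ∈ Z' with f ρ = k, mz ρ * (K₁ * W) := by
          refine Finset.sum_le_sum fun ρ hρ => ?_
          refine mul_le_mul_of_nonneg_left ?_ (hmz ρ)
          refine (hpt ρ (Finset.mem_filter.mp hρ).1).trans ?_
          have h1 := hw ρ hρ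
          calc K₁ / (ρ.im - t) ^ 2 = K₁ * (1 / (ρ.im - t) ^ 2) := by ring
            _ ≤ K₁ * W := by gcongr
      _ = (∑ ρ ∈ Z' with f ρ = k, mz ρ) * (K₁ * W) := by rw [Finset.sum_mul]
      _ ≤ (C₁ * (2 * L)) * (K₁ * W) := by gcongr
      _ = K₁ * (2 * C₁ * L) * W := by ring
  refine (Finset.sum_le_sum hfib).trans ?_
  rw [← Finset.mul_sum, Finset.sum_add_distrib, ← Finset.mul_sum]
  have hA1 : ∑ k ∈ Z'.image f, (if k = 0 then (64 : ℝ) else 0) ≤ 64 := by
    rw [Finset.sum_ite_eq']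
    split_ifs <;> norm_num
  have hA2 : ∑ k ∈ Z'.image f, 1 / (k : ℝ) ^ 2 ≤ ∑' k : ℤ, 1 / (k : ℝ) ^ 2 :=
    hsum.sum_le_tsum _ fun k _ => by positivity
  have hA3 : ∑ k ∈ Z'.image f, (if k = 0 then (64 : ℝ) else 0) +
      4 * ∑ k ∈ Z'.image f, 1 / (k : ℝ) ^ 2 ≤ S := by linarith
  calc K₁ * (2 * C₁ * L) * (∑ k ∈ Z'.image f, (if k = 0 then (64 : ℝ) else 0) +
      4 * ∑ k ∈ Z'.image f, 1 / (k : ℝ) ^ 2) ≤ K₁ * (2 * C₁ * L) * S := by gcongr
    _ = (18 * C * Real.exp A + 1) * (2 * C₁ * S) * L * (a + 1 / X) := by rw [hK₁]; ring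

end Pool.Agent.Work.MP_56b8f5_nt.HZ
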