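import Pool.Agent.Work.MP_56b8f5_nt.HZ.StmtsU
import Pool.Agent.Work.MP_56b8f5_nt.HZ.I_ZN

/-!
MP_56b8f5_nt, block HZ, item ZNL: near zeros, with a parameter `lg` in place of `log T`.
-/

set_option autoImplicit false

open MeasureTheory Set Filter Topology

noncomputable section

namespace Pool.Agent.Work.MP_56b8f5_nt.HZ

open Pool.Agent.Work.MP_56b8f5_nt.EM Pool.Agent.Work.MP_56b8f5_nt.WM Pool.Agent.Work.MP_56b8f5_nt.SH

theorem ZNL_pf (hZ : S_Zsy) (hP : S_Pair) : S_ZNL := by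
  intro κ c C hκ hC hIC
  obtain ⟨lam₀, hl0, hlam⟩ := hP κ c C hκ hC hIC
  refine ⟨lam₀, hl0, fun lam hl A C₀ hA hC₀ => ?_⟩
  obtain ⟨m₀, hm₀, hpair⟩ := hlam lam hl A C₀ hA hC₀
  obtain ⟨L₀, hL₀, hsmall⟩ := I_ZN.log_small A C₀ hC₀
  refine ⟨max m₀ L₀, hm₀.trans (le_max_left _ _),
    fun T lg hT3 t ht hne X a hX hmX' hla hal Z hZZ => ?_⟩
  have hTp : 0 < T := by linarith
  have hmX : m₀ * X ≤ lg := (mul_le_mul_of_nonneg_right (le_max_left _ _) (by linarith)).trans hmX'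
  have hTL : L₀ ≤ lg := by
    have h1 : L₀ * X ≤ lg := (mul_le_mul_of_nonneg_right (le_max_right _ _) (by linarith)).trans hmX'
    nlinarith
  have hH : 1 ≤ Real.sqrt T := Real.one_le_sqrt.2 (by linarith)
  have hLp : 0 < lg := by linarith
  have hre : ∀ ρ : ℂ, (1 - (starRingEnd ℂ) ρ).re = 1 - ρ.re := fun ρ => by simp
  have him : ∀ ρ : ℂ, (1 - (starRingEnd ℂ) ρ).im = ρ.im := fun ρ => by simp
  have hfact : ∀ ρ ∈ Z, 0 < ρ.re ∧ ρ.re < 1 ∧
      |ρ.re - 1 / 2| * lg ≤ A + C₀ * Real.log (1 + |ρ.im - t| * lg) ∧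
      |ρ.re - 1 / 2| ≤ 1 / 16 ∧ |ρ.im - t| ≤ 1 / 8 := by
    intro ρ hρ
    obtain ⟨h1, h2, h3⟩ := (hZZ ρ).1 hρ
    have hr0 : 0 < ρ.re := by linarith
    have hr1 : ρ.re < 1 := by
      by_contra hcon
      exact riemannZeta_ne_zero_of_one_le_re (not_lt.1 hcon) h1
    have g1 := ht.2.2 ρ h1 hr0 hr1
    have g2 := ht.2.2 (1 - (starRingEnd ℂ) ρ) ((hZ ρ hr0 hr1).2.1 h1)
      (by rw [hre]; linarith) (by rw [hre]; linarith)
    rw [hre, him] at g2
    have g3 : |ρ.re - 1 / 2| * lg ≤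
        A + C₀ * Real.log (1 + |ρ.im - t| * lg) := by
      rcases abs_cases (ρ.re - 1 / 2) with ⟨h, _⟩ | ⟨h, _⟩
      · rw [h]; exact g1
      · rw [h]
        have : -(ρ.re - 1 / 2) * lg = (1 - ρ.re - 1 / 2) * lg := by ring
        rw [this]; exact g2
    refine ⟨hr0, hr1, g3, ?_, h3⟩
    have g4 : Real.log (1 + |ρ.im - t| * lg) ≤ Real.log (1 + lg) := by
      refine Real.log_le_log (by positivity) ?_
      have : |ρ.im - t| * lg ≤ 1 * lg :=
        mul_le_mul_of_nonneg_right (by linarith) hLp.le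
      linarith
    have g5 := hsmall _ hTL
    have g6 := mul_le_mul_of_nonneg_left g4 hC₀
    have g7 : |ρ.re - 1 / 2| * lg ≤ 1 / 16 * lg := by linarith
    exact le_of_mul_le_mul_right g7 hLp
  have hσ : ∀ ρ ∈ Z, 1 - (starRingEnd ℂ) ρ ∈ Z := by
    intro ρ hρ
    obtain ⟨f1, f2, f3, f4, f5⟩ := hfact ρ hρ
    rw [hZZ]
    refine ⟨(hZ ρ f1 f2).2.1 ((hZZ ρ).1 hρ).1, ?_, ?_⟩
    · have := abs_le.1 f4
      rw [hre]
      linarith
    · rw [him]; exact f5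
  have hsum : ∑ ρ ∈ Z, mz ρ * Phi κ c X a (Real.sqrt T) (ρ - (1 / 2 + t * Complex.I)) =
      ∑ ρ ∈ Z, mz ρ * Phi κ c X a (Real.sqrt T)
        (1 - (starRingEnd ℂ) ρ - (1 / 2 + t * Complex.I)) := by
    refine Finset.sum_nbij' (fun ρ => 1 - (starRingEnd ℂ) ρ) (fun ρ => 1 - (starRingEnd ℂ) ρ)
      hσ hσ (fun ρ _ => by simp) (fun ρ _ => by simp) ?_
    intro ρ hρ
    obtain ⟨f1, f2, f3, f4, f5⟩ := hfact ρ hρ
    have : 1 - (starRingEnd ℂ) (1 - (starRingEnd ℂ) ρ) = ρ := by simp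
    rw [this, (hZ ρ f1 f2).1]
  have hle : ∑ ρ ∈ Z, mz ρ * Phi κ c X a (Real.sqrt T) (ρ - (1 / 2 + t * Complex.I)) +
      ∑ ρ ∈ Z, mz ρ * Phi κ c X a (Real.sqrt T)
        (1 - (starRingEnd ℂ) ρ - (1 / 2 + t * Complex.I)) ≤ 0 := by
    rw [← Finset.sum_add_distrib]
    refine Finset.sum_nonpos fun ρ hρ => ?_
    rw [← mul_add]
    refine mul_nonpos_of_nonneg_of_nonpos (Nat.cast_nonneg _) ?_
    obtain ⟨f1, f2, f3, f4, f5⟩ := hfact ρ hρ
    have e1 : ρ - (1 / 2 + t * Complex.I) =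
        ((ρ.re - 1 / 2 : ℝ) : ℂ) + ((ρ.im - t : ℝ) : ℂ) * Complex.I := by
      apply Complex.ext <;> simp
    have e2 : 1 - (starRingEnd ℂ) ρ - (1 / 2 + t * Complex.I) =
        -((ρ.re - 1 / 2 : ℝ) : ℂ) + ((ρ.im - t : ℝ) : ℂ) * Complex.I := by
      apply Complex.ext
      · simp
        ring
      · simp
    have hnz : ¬(ρ.re - 1 / 2 = 0 ∧ ρ.im - t = 0) := by
      rintro ⟨u1, u2⟩
      apply hne
      have : (1 / 2 + t * Complex.I : ℂ) = ρ := by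
        have e3 : ρ - (1 / 2 + t * Complex.I) = 0 := by rw [e1, u1, u2]; simp
        exact (sub_eq_zero.1 e3).symm
      rw [this]
      exact ((hZZ ρ).1 hρ).1
    have hp := hpair (lg) X a (ρ.re - 1 / 2) (ρ.im - t) hX hmX hla hal f3 hnz
    rw [I_ZN.Phi_eq (z := ρ - (1 / 2 + t * Complex.I)) (by simpa using f4) (by simpa using f5) hH,
      I_ZN.Phi_eq (z := 1 - (starRingEnd ℂ) ρ - (1 / 2 + t * Complex.I))
        (by
          have : (1 - (starRingEnd ℂ) ρ - (1 / 2 + t * Complex.I)).re = -(ρ.re - 1 / 2) := by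
            simp
            ring
          rw [this, abs_neg]
          exact f4)
        (by simpa using f5) hH]
    have hnorm : ‖1 - (starRingEnd ℂ) ρ - (1 / 2 + t * Complex.I)‖ =
        ‖ρ - (1 / 2 + t * Complex.I)‖ := by
      rw [e1, e2, Complex.norm_def, Complex.norm_def]
      congr 1
      simp [Complex.normSq_apply]
      ring
    rw [hnorm, e1, e2]
    linarith
  linarith

end Pool.Agent.Work.MP_56b8f5_nt.HZ
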