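import Pool.Agent.Work.MP_56b8f5_nt.HZ.All
import Pool.Agent.Work.MP_56b8f5_nt.HZ.U_ZN
import Pool.Agent.Work.MP_56b8f5_nt.HZ.U_ZF
import Pool.Agent.Work.MP_56b8f5_nt.HZ.U_PWa
import Pool.Agent.Work.MP_56b8f5_nt.HZ.U_PW
import Pool.Agent.Work.MP_56b8f5_nt.HZ.U_HarV
import Pool.Agent.Work.MP_56b8f5_nt.HZ.U_UpU
import Pool.Agent.Work.MP_56b8f5_nt.HZ.U_Dv
import Pool.Agent.Work.MP_56b8f5_nt.HZ.U_Main

/-!
MP_56b8f5_nt, block HZ, part U: the assembly. `mainW_all : S_MainW`.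
-/

set_option autoImplicit false

noncomputable section

namespace Pool.Agent.Work.MP_56b8f5_nt.HZ

theorem all_ZNL : S_ZNL := ZNL_pf Zsy_pf Pair_pf
theorem all_ZFL : S_ZFL := ZFL_pf all_Zct
theorem all_PWaL : S_PWaL := PWaL_pf all_Idn all_TR all_TL all_ZNL all_ZFL
theorem all_PWL : S_PWL := PWL_pf Kex_pf all_KS1 all_PWaL Kkt_pf
theorem all_PWU : S_PWU := PWU_pf all_PWL
theorem all_HarV : S_HarV := HZB.pf_HarV HZB.IntD_all HZB.pf_SpS HZB.Mer_all HZB.pf_Fst (HZB.pf_PwZ HZB.pf_SpS)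
  HZB.pf_LevB (HZB.pf_NmL HZB.pf_LevB) (HZB.pf_NmP HZB.pf_LevB) (HZB.pf_NmS HZB.pf_LevB) HZB.Spl_all
theorem all_UpU : S_UpU := UpU_pf all_PWU all_HarV GGm_pf Zgr_pf
theorem mainW_all : S_MainW := MainW_pf all_UpU main_all DvL_pf GGm_pf

end Pool.Agent.Work.MP_56b8f5_nt.HZ
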