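import Pool.Agent.Work.MP_56b8f5_nt.HZ.StmtsV
import Pool.Agent.Work.MP_56b8f5_nt.HZ.I_PW

/-!
MP_56b8f5_nt, block HZ, part V, item PWs: the pointwise bound on the line `1/2 + η`, uniformly in `A`.
-/

set_option autoImplicit false

open MeasureTheory Set Filter Topology

noncomputable section

namespace Pool.Agent.Work.MP_56b8f5_nt.HZ

open Pool.Agent.Work.MP_56b8f5_nt.EM Pool.Agent.Work.MP_56b8f5_nt.WM Pool.Agent.Work.MP_56b8f5_nt.SH

namespace V_PW

open I_PW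

theorem GG_Gl {T A C₀ t : ℝ} (hT : 1 < T) (hA : 0 ≤ A) (hC₀ : 0 ≤ C₀) (ht : t ∈ GG T A C₀) :
    t ∈ Gl T (Real.log T / (1 + A)) (1 + C₀) C₀ := by
  have hL0 : 0 < Real.log T := Real.log_pos hT
  have hA1 : 0 < 1 + A := by linarith
  refine ⟨ht.1, ht.2.1, fun ρ h1 h2 h3 => ?_⟩
  have h4 := ht.2.2 ρ h1 h2 h3
  set u := |ρ.im - t| with hu
  have hu0 : 0 ≤ u := abs_nonneg _
  set lg := Real.log T / (1 + A) with hlg
  have hlg0 : 0 ≤ lg := by positivity
  have hLlg : Real.log T = (1 + A) * lg := by rw [hlg]; field_simp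
  have h5 : Real.log (1 + u * Real.log T) ≤ A + Real.log (1 + u * lg) := by
    have h6 : 1 + u * Real.log T ≤ (1 + A) * (1 + u * lg) := by
      rw [hLlg]
      nlinarith [mul_nonneg hu0 hlg0]
    have h7 : Real.log (1 + u * Real.log T) ≤ Real.log ((1 + A) * (1 + u * lg)) :=
      Real.log_le_log (by positivity) h6
    rw [Real.log_mul hA1.ne' (by positivity)] at h7
    have h8 : Real.log (1 + A) ≤ A := by
      have := Real.log_le_sub_one_of_pos hA1
      linarith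
    linarith
  have h6 : 0 ≤ Real.log (1 + u * lg) := Real.log_nonneg (by nlinarith [mul_nonneg hu0 hlg0])
  have h9 : (1 + A) * ((ρ.re - 1 / 2) * lg) ≤ (1 + A) * (1 + C₀ + C₀ * Real.log (1 + u * lg)) := by
    have h10 : (1 + A) * ((ρ.re - 1 / 2) * lg) = (ρ.re - 1 / 2) * Real.log T := by
      rw [hLlg]; ring
    rw [h10]
    refine h4.trans ?_
    have h11 := mul_le_mul_of_nonneg_left h5 hC₀
    have h12 : 0 ≤ A * (C₀ * Real.log (1 + u * lg)) := by positivity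
    nlinarith
  exact le_of_mul_le_mul_left h9 hA1

theorem cont_Dz (κ : ℝ → ℝ) (X x : ℝ) (s : ℂ) : Continuous fun a : ℝ => (Dz (wk κ X a) x s).re := by
  unfold Dz wk
  refine Complex.continuous_re.comp (continuous_finsetSum _ fun n hn => ?_)
  have hn1 : 1 ≤ n := (Finset.mem_Icc.1 hn).1
  have hn0 : (0 : ℝ) < n := by exact_mod_cast hn1
  refine Continuous.mul (Complex.continuous_ofReal.comp ?_) continuous_const
  refine continuous_const.mul (continuous_const.mul ?_)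
  exact (Real.continuous_const_rpow hn0.ne').comp continuous_neg

theorem Dz_cc (κ : ℝ → ℝ) (lam x : ℝ) (s : ℂ) (hx : 0 < Real.log x) :
    Dz (I_PW.cc κ lam x) x s = Dz (wk κ (Real.log x) (lam / Real.log x)) x s := by
  unfold Dz
  refine Finset.sum_congr rfl fun n hn => ?_
  have hn1 : 1 ≤ n := (Finset.mem_Icc.1 hn).1
  have h : I_PW.cc κ lam x n = wk κ (Real.log x) (lam / Real.log x) n := by
    unfold I_PW.cc
    rw [if_neg]
    rw [not_or]
    exact ⟨by omega, not_le.2 hx⟩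
  rw [h]

theorem Dz_eta (c : ℕ → ℝ) (x η t : ℝ) :
    Dz c x (1 / 2 + η + t * Complex.I) = Dx (fun n => c n * (n : ℝ) ^ (-η)) x t := by
  unfold Dz Dx
  refine Finset.sum_congr rfl fun n hn => ?_
  have hn1 : 1 ≤ n := (Finset.mem_Icc.1 hn).1
  have hn0 : (n : ℂ) ≠ 0 := by exact_mod_cast (by omega : n ≠ 0)
  have h1 : (n : ℂ) ^ (-(1 / 2 + η + t * Complex.I)) = (((n : ℝ) ^ (-η) : ℝ) : ℂ) *
      (n : ℂ) ^ (-(1 / 2 + t * Complex.I)) := by
    have h2 : (-(1 / 2 + η + t * Complex.I) : ℂ) = ((-η : ℝ) : ℂ) + -(1 / 2 + t * Complex.I) := by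
      push_cast
      ring
    rw [h2, Complex.cpow_add _ _ hn0, Complex.ofReal_cpow (Nat.cast_nonneg n), Complex.ofReal_natCast]
  rw [h1]
  push_cast
  ring

end V_PW

open I_PW V_PW

theorem PWs_pf (hKex : S_Kex) (hKS1 : S_KS1) (hPWa : S_PWaV) (hKkt : S_Kkt) : S_PWs := by
  obtain ⟨κ, hκ⟩ := hKex
  obtain ⟨c, C, hC1, hC⟩ := hKS1 κ hκ
  obtain ⟨lam, hlam, hmain⟩ := hPWa κ c C hκ hC1 hC
  refine ⟨I_PW.cc κ lam, cc_mem hKkt hκ hlam, fun C₀ hC₀ => ?_⟩
  obtain ⟨m₀, X₀, K, hm₀, hX₀, hK, hmain⟩ := hmain (1 + C₀) C₀ (by linarith) hC₀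
  refine ⟨m₀, X₀, K, hm₀, hX₀, hK, fun T hT A hA t htG η hη0 hη1 x hx1 hx2' => ?_⟩
  have hA1 : 0 < 1 + A := by linarith
  have hLT : 0 < Real.log T := Real.log_pos (by linarith)
  obtain ⟨lg, hlgd⟩ : ∃ lg, lg = Real.log T / (1 + A) := ⟨_, rfl⟩
  have hlg : lg ≤ Real.log T := by rw [hlgd]; exact div_le_self hLT.le (by linarith)
  have ht : t ∈ Gl T lg (1 + C₀) C₀ := by rw [hlgd]; exact GG_Gl (by linarith) hA hC₀ htG
  have hx2 : m₀ * Real.log x ≤ lg := by
    rw [hlgd, le_div_iff₀ hA1]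
    linarith
  rw [← Dz_eta]
  by_cases hz : riemannZeta (1 / 2 + η + t * Complex.I) = 0
  · rw [hz, norm_zero]
    exact (Real.exp_pos _).le
  have hT0 : 0 < T := by linarith
  have hx0 : 0 < x := (Real.exp_pos _).trans_le hx1
  obtain ⟨X, hX⟩ : ∃ X, X = Real.log x := ⟨_, rfl⟩
  have hXL : X₀ ≤ X := by
    rw [hX, Real.le_log_iff_exp_le hx0]
    exact hx1
  have hX0 : 0 < X := by linarith
  have hexp : Real.exp X = x := by rw [hX, Real.exp_log hx0]
  have hmX : m₀ * X ≤ lg := by rw [hX]; exact hx2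
  obtain ⟨a₀, ha₀⟩ : ∃ a₀, a₀ = lam / X := ⟨_, rfl⟩
  have hlamX : 0 < lam / X := by positivity
  obtain ⟨s₁, hs₁⟩ : ∃ s₁ : ℂ, s₁ = 1 / 2 + η + t * Complex.I := ⟨_, rfl⟩
  have him : s₁.im = t := by rw [hs₁]; simp
  have hkey : Real.log ‖riemannZeta s₁‖ ≤
      (Dz (wk κ X a₀) (Real.exp X) s₁).re + K * (Real.log T / X) := by
    have hcont : Tendsto (fun a : ℝ => (Dz (wk κ X a) (Real.exp X) s₁).re + K * (Real.log T / X))
        (𝓝[>] a₀) (𝓝 ((Dz (wk κ X a₀) (Real.exp X) s₁).re + K * (Real.log T / X))) := by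
      have h1 : Continuous (fun a : ℝ => (Dz (wk κ X a) (Real.exp X) s₁).re +
          K * (Real.log T / X)) := (cont_Dz κ X (Real.exp X) s₁).add continuous_const
      exact (h1.tendsto a₀).mono_left nhdsWithin_le_nhds
    refine ge_of_tendsto hcont ?_
    have hne : (s₁ + (a₀ : ℂ) : ℂ) ≠ 1 := by
      intro h
      have h1 := congrArg Complex.im h
      rw [Complex.add_im, him, Complex.ofReal_im, Complex.one_im] at h1
      have h4 := ht.1
      linarith
    have hmap : Tendsto (fun a : ℝ => (s₁ + (a : ℂ) : ℂ)) (𝓝[>] a₀)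
        (𝓝[≠] (s₁ + (a₀ : ℂ))) := by
      refine tendsto_nhdsWithin_iff.2 ⟨?_, ?_⟩
      · have h1 : Continuous fun a : ℝ => (s₁ + (a : ℂ) : ℂ) := by fun_prop
        exact (h1.tendsto a₀).mono_left nhdsWithin_le_nhds
      · filter_upwards [self_mem_nhdsWithin] with a ha
        intro h
        have h1 : (a : ℂ) = (a₀ : ℂ) := add_left_cancel h
        have h2 : a = a₀ := by exact_mod_cast h1
        exact absurd h2 (ne_of_gt ha)
    have hlt : a₀ < 2 * lam / X := by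
      rw [ha₀, mul_div_assoc]
      linarith
    filter_upwards [hmap.eventually (ev_ne hne), self_mem_nhdsWithin,
      nhdsWithin_le_nhds (Iic_mem_nhds hlt)] with a h1 h2 h3
    rw [hs₁] at h1 ⊢
    refine hmain T lg hT hlg t ht η hη0 hη1 hz X a hXL hmX ?_ h3 h1
    rw [← ha₀]
    exact le_of_lt h2
  rw [hs₁] at hkey
  have hpos : 0 < ‖riemannZeta (1 / 2 + η + t * Complex.I)‖ := norm_pos_iff.2 hz
  rw [Real.log_le_iff_le_exp hpos] at hkey
  rw [Dz_cc κ lam x _ (by rw [← hX]; exact hX0), ← hX, ← ha₀]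
  rw [hexp] at hkey
  exact hkey

end Pool.Agent.Work.MP_56b8f5_nt.HZ
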